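import Pool.Agent.BND.P2a

/-!
# BND-P2 : API for `Conn`, `Comp`, `Bic`

Everything is elementary.  The basic tool is the cut criterion (`conn_of_closed`,
`Conn.closed_eq`): `G[S]` is connected iff `S ≠ ∅` and the only nonempty subset of `S` that is
closed under taking neighbours in `S` is `S` itself.
-/

set_option autoImplicit false
set_option linter.unusedSectionVars false

namespace Pool.Agent.BND

open Classical

variable {V : Type} [Fintype V]
variable {G : SimpleGraph V} {S T X Y : Finset V} {x y z w : V}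

theorem p2b_sub (hS : Conn G S) (hST : S ⊆ T) (hm : ∃ a ∈ S, a ∈ X)
    (hcl : ∀ a ∈ X, ∀ b ∈ T, G.Adj a b → b ∈ X) : S ⊆ X := by
  have h1 : S ∩ X = S := by
    refine hS.closed_eq Finset.inter_subset_left ?_ ?_
    · obtain ⟨a, ha, haX⟩ := hm
      exact ⟨a, Finset.mem_inter.mpr ⟨ha, haX⟩⟩
    · intro a ha b hb hab
      rw [Finset.mem_inter] at ha ⊢
      exact ⟨hb, hcl a ha.2 b (hST hb) hab⟩
  intro a ha
  rw [← h1] at ha
  exact (Finset.mem_inter.mp ha).2

/-- two components that meet are equal -/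
theorem Comp.eq_or_disjoint (hX : Comp G S X) (hY : Comp G S Y) : X = Y ∨ Disjoint X Y := by
  by_cases hd : Disjoint X Y
  · exact Or.inr hd
  · left
    rw [Finset.not_disjoint_iff] at hd
    obtain ⟨q, hqX, hqY⟩ := hd
    exact Finset.Subset.antisymm
      (p2b_sub hX.2.1 hX.1 ⟨q, hqX, hqY⟩ hY.2.2) (p2b_sub hY.2.1 hY.1 ⟨q, hqY, hqX⟩ hX.2.2)

/-- a component of `G[S]` is everything iff `S` is connected -/
theorem Comp.eq_of_conn (hX : Comp G S X) (h : Conn G S) : X = S := by
  exact h.closed_eq hX.1 hX.2.1.1 hX.2.2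

/-- a path of `G[S]` starting in a component `X` of `G[S]` stays in `X` -/
theorem Comp.pth_sub {l : List V} (hX : Comp G S X) (hl : Pth G S x y l) (hx : x ∈ X) :
    Pth G X x y l := by
  refine hl.mono fun q hq => ?_
  by_contra hqX
  obtain ⟨l1, l2, _, h1, _⟩ := hl.split hq
  obtain ⟨a, _, b, hb, haX, hbX, hab⟩ := h1.cross X hx hqX
  exact hbX (hX.2.2 a haX b (h1.sub b hb) hab)

/-- a component of `S - z` is adjacent to `z` if `S` is connected -/
theorem Comp.exists_adj (h : Conn G S) (hz : z ∈ S) (hX : Comp G (S.erase z) X) :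
    ∃ x ∈ X, G.Adj x z := by
  have hzX : z ∉ X := fun hzX => (Finset.mem_erase.mp (hX.1 hzX)).1 rfl
  have hXS : X ≠ S := fun he => hzX (he ▸ hz)
  obtain ⟨a, ha, b, hb, hbX, hab⟩ :=
    h.exists_edge (hX.1.trans (Finset.erase_subset _ _)) hX.2.1.1 hXS
  by_cases hbz : b = z
  · rw [hbz] at hab
    exact ⟨a, ha, hab⟩
  · exact absurd (hX.2.2 a ha b (Finset.mem_erase.mpr ⟨hbz, hb⟩) hab) hbX

/-- removing a component of `S - z` from the connected set `S` leaves a connected set -/
theorem comp_conn_sdiff (h : Conn G S) (hz : z ∈ S) (hX : Comp G (S.erase z) X) :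
    Conn G (S \ X) := by
  have hzX : z ∉ X := fun hzX => (Finset.mem_erase.mp (hX.1 hzX)).1 rfl
  have hXS : X ⊆ S := hX.1.trans (Finset.erase_subset _ _)
  refine conn_of_closed ⟨z, Finset.mem_sdiff.mpr ⟨hz, hzX⟩⟩ fun Y hY hne hcl => ?_
  by_cases hzY : z ∈ Y
  · have h1 : Y ∪ X = S := by
      refine h.closed_eq (Finset.union_subset (hY.trans Finset.sdiff_subset) hXS)
        (hne.mono Finset.subset_union_left) fun a ha b hb hab => ?_
      rcases Finset.mem_union.mp ha with ha | ha
      · by_cases hbX : b ∈ X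
        · exact Finset.mem_union_right _ hbX
        · exact Finset.mem_union_left _ (hcl a ha b (Finset.mem_sdiff.mpr ⟨hb, hbX⟩) hab)
      · by_cases hbz : b = z
        · rw [hbz]
          exact Finset.mem_union_left _ hzY
        · exact Finset.mem_union_right _ (hX.2.2 a ha b (Finset.mem_erase.mpr ⟨hbz, hb⟩) hab)
    refine Finset.Subset.antisymm hY fun a ha => ?_
    rw [Finset.mem_sdiff, ← h1, Finset.mem_union] at ha
    exact ha.1.resolve_right ha.2
  · exfalso
    have h1 : Y = S := by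
      refine h.closed_eq (hY.trans Finset.sdiff_subset) hne fun a ha b hb hab => ?_
      have haS := Finset.mem_sdiff.mp (hY ha)
      have haz : a ≠ z := fun he => hzY (he ▸ ha)
      have hbX : b ∉ X := fun hbX =>
        haS.2 (hX.2.2 b hbX a (Finset.mem_erase.mpr ⟨haz, haS.1⟩) hab.symm)
      exact hcl a ha b (Finset.mem_sdiff.mpr ⟨hb, hbX⟩) hab
    exact hzY (h1 ▸ hz)

/-- a component of `S - z` together with `z` is connected -/
theorem comp_conn_insert (h : Conn G S) (hz : z ∈ S) (hX : Comp G (S.erase z) X) :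
    Conn G (insert z X) := by
  obtain ⟨x, hx, hxz⟩ := Comp.exists_adj h hz hX
  exact hX.2.1.insert hx hxz.symm

theorem Bic.insert (h : Bic G S) (hw : w ∉ S) (h2 : 2 ≤ (att G S w).card) :
    Bic G (insert w S) := by
  have hex : ∀ z : V, ∃ x ∈ S, x ≠ z ∧ G.Adj w x := by
    intro z
    obtain ⟨x, hx, hxz⟩ := Finset.exists_mem_ne (by omega : 1 < (att G S w).card) z
    obtain ⟨hxS, hwx⟩ := Finset.mem_filter.mp hx
    exact ⟨x, hxS, hxz, hwx⟩
  refine ⟨?_, ?_, ?_⟩
  · rw [Finset.card_insert_of_notMem hw]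
    have := h.1
    omega
  · obtain ⟨x, hxS, _, hwx⟩ := hex w
    exact h.2.1.insert hxS hwx
  · intro z hz
    by_cases hzw : z = w
    · rw [hzw, Finset.erase_insert hw]
      exact h.2.1
    · have hzS : z ∈ S := (Finset.mem_insert.mp hz).resolve_left hzw
      rw [Finset.erase_insert_of_ne (fun he => hzw he.symm)]
      obtain ⟨x, hxS, hxz, hwx⟩ := hex z
      exact (h.2.2 z hzS).insert (Finset.mem_erase.mpr ⟨hxz, hxS⟩) hwx

/-- the neighbours condition in `Bic` sets -/
theorem Bic.exists_adj_ne (h : Bic G S) (h3 : 3 ≤ S.card) (hx : x ∈ S) (hy : y ≠ x) :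
    ∃ z ∈ S, z ≠ y ∧ z ≠ x ∧ G.Adj x z := by
  have hc : Conn G (S.erase y) := by
    by_cases hyS : y ∈ S
    · exact h.2.2 y hyS
    · rw [Finset.erase_eq_of_notMem hyS]
      exact h.2.1
  have hcard : 2 ≤ (S.erase y).card := by
    have := Finset.pred_card_le_card_erase (s := S) (a := y)
    omega
  have hsub : ({x} : Finset V) ⊆ S.erase y := by
    rw [Finset.singleton_subset_iff]
    exact Finset.mem_erase.mpr ⟨hy.symm, hx⟩
  have hne : ({x} : Finset V) ≠ S.erase y := by
    intro he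
    rw [← he, Finset.card_singleton] at hcard
    omega
  obtain ⟨a, ha, b, hb, hbx, hab⟩ := hc.exists_edge hsub (Finset.singleton_nonempty x) hne
  rw [Finset.mem_singleton] at ha hbx
  rw [ha] at hab
  obtain ⟨hby, hbS⟩ := Finset.mem_erase.mp hb
  exact ⟨b, hbS, hby, hbx, hab⟩

theorem not_bic_exists_cut (h : Conn G S) (h2 : 2 ≤ S.card) (hb : ¬ Bic G S) :
    ∃ z ∈ S, ∃ X Y, Comp G (S.erase z) X ∧ Comp G (S.erase z) Y ∧ Disjoint X Y := by
  have h1 : ∃ z ∈ S, ¬ Conn G (S.erase z) := by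
    by_contra hcon
    refine hb ⟨h2, h, fun z hz => ?_⟩
    by_contra hc
    exact hcon ⟨z, hz, hc⟩
  obtain ⟨z, hz, hnc⟩ := h1
  have hne : (S.erase z).Nonempty := by
    rw [← Finset.card_pos, Finset.card_erase_of_mem hz]
    omega
  obtain ⟨x, hx⟩ := hne
  obtain ⟨X, hX, hxX⟩ := exists_comp (G := G) hx
  have hXS : ∃ y ∈ S.erase z, y ∉ X := by
    by_contra hcon
    apply hnc
    have : X = S.erase z := by
      refine Finset.Subset.antisymm hX.1 fun y hy => ?_
      by_contra hyX
      exact hcon ⟨y, hy, hyX⟩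
    rw [← this]
    exact hX.2.1
  obtain ⟨y, hy, hyX⟩ := hXS
  obtain ⟨Y, hY, hyY⟩ := exists_comp (G := G) hy
  refine ⟨z, hz, X, Y, hX, hY, ?_⟩
  rcases hX.eq_or_disjoint hY with he | hd
  · exact absurd (he ▸ hyY) hyX
  · exact hd

/-- in a `Bic` set with at least three vertices, two distinct vertices are joined by a path with at
least three vertices.

Proof.  Let `z ∈ S \ {a,b}`.  Take a path `P` from `z` to `b` in `S - a` and a path `P'` from `a`
to `z` in `S - b`; let `t` be the first vertex of `P'` (starting from `a`) lying on `P`.  `t ≠ a`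
(`P` avoids `a`), `t ≠ b` (`P'` avoids `b`).  Then `a P' t P b` is a path with at least 3
vertices. -/
theorem Bic.long_pth (h : Bic G S) (h3 : 3 ≤ S.card) (hx : x ∈ S) (hy : y ∈ S) (hxy : x ≠ y) :
    ∃ l, Pth G S x y l ∧ 3 ≤ l.length := by
  have hz : ∃ z ∈ S, z ≠ x ∧ z ≠ y := by
    have h1 : 0 < ((S.erase x).erase y).card := by
      rw [Finset.card_erase_of_mem (Finset.mem_erase.mpr ⟨hxy.symm, hy⟩),
        Finset.card_erase_of_mem hx]
      omega
    obtain ⟨z, hz⟩ := Finset.card_pos.mp h1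
    rw [Finset.mem_erase, Finset.mem_erase] at hz
    exact ⟨z, hz.2.2, hz.2.1, hz.1⟩
  obtain ⟨z, hzS, hzx, hzy⟩ := hz
  obtain ⟨P, hP⟩ := (h.2.2 x hx).2 z (Finset.mem_erase.mpr ⟨hzx, hzS⟩) y
    (Finset.mem_erase.mpr ⟨hxy.symm, hy⟩)
  obtain ⟨P', hP'⟩ := (h.2.2 y hy).2 x (Finset.mem_erase.mpr ⟨hxy, hx⟩) z
    (Finset.mem_erase.mpr ⟨hzy, hzS⟩)
  obtain ⟨t, l1, l2, hl, htP, hl1, h1, _⟩ := hP'.first_hit P.toFinset
    ⟨z, hP'.mem_right, List.mem_toFinset.mpr hP.mem_left⟩
  rw [List.mem_toFinset] at htP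
  obtain ⟨m1, m2, hm, _, h4⟩ := hP.split htP
  have htx : t ≠ x := fun he => (Finset.mem_erase.mp (hP.sub t htP)).1 he
  have hty : t ≠ y := fun he => (Finset.mem_erase.mp (h1.sub t (by simp))).1 he
  have hl1ne : l1 ≠ [] := by
    rintro rfl
    have h5 := h1.head
    simp only [List.nil_append, List.head?_cons, Option.some.injEq] at h5
    exact htx h5
  have hm2ne : m2 ≠ [] := by
    rintro rfl
    have h5 := h4.last
    simp only [List.getLast?_singleton, Option.some.injEq] at h5
    exact hty h5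
  have hc1 := List.isChain_append.mp h1.chain
  refine ⟨l1 ++ t :: m2, ⟨?_, ?_, ?_, ?_, ?_⟩, ?_⟩
  · have h5 := h1.head
    rw [List.head?_append] at h5 ⊢
    simpa using h5
  · have h5 := h4.last
    rw [List.getLast?_append, h5]
    rfl
  · refine List.nodup_append.mpr ⟨(List.nodup_append.mp h1.nodup).1, h4.nodup, ?_⟩
    intro a ha b hb hab
    refine hl1 a ha (List.mem_toFinset.mpr ?_)
    rw [hm, hab]
    exact List.mem_append_right _ hb
  · refine List.isChain_append.mpr ⟨hc1.1, h4.chain, ?_⟩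
    intro a ha b hb
    refine hc1.2.2 a ha b ?_
    simpa using hb
  · intro q hq
    rcases List.mem_append.mp hq with hq | hq
    · exact Finset.mem_of_mem_erase (h1.sub q (List.mem_append_left _ hq))
    · exact Finset.mem_of_mem_erase (h4.sub q hq)
  · have h5 := List.length_pos_iff.mpr hl1ne
    have h6 := List.length_pos_iff.mpr hm2ne
    simp only [List.length_append, List.length_cons]
    omega

end Pool.Agent.BND
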