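import Pool.Agent.BND.P3
import Pool.Agent.BND.P2b

/-!
# BND-BAL : the outside is balanced, with consistent spokes

`bal_pot` (pure graph theory): `D` connected and all cycles inside `D` have sign `0`.  Then there is
`lam` with `ε x y = lam x + lam y` for all edges inside `D`.
Proof.  Fix a root `r ∈ D`, and for `x ∈ D` let `lam x` be the sign of some path from `r` to `x` in `D`.
It is enough to show that all paths in `D` between two given vertices have the same sign, and the
statement for edges: Claim: two paths `P`, `Q` in `D` from `a` to `b` have the same sign.  Induction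
on `|P| + |Q|`: if `a = b` both are trivial.  Otherwise let `P = a, p, …`, `Q = a, q, …`.
If `p = q` use induction for the tails.  In general let `t` be the first vertex of `P` after `a` that
lies on `Q` (exists, as `b` does).  `P = P₁ P₂`, `Q = Q₁ Q₂` cut at `t`.  `P₁`, `Q₁` from `a` to
`t` share only their ends: either both have two vertices (the same edge: same sign), or
`P₁ ∪ Q₁` is a cycle (at least three vertices), sign `0`, so they have the same sign;
and the induction hypothesis for `P₂`, `Q₂`.
For an edge `xy`: let `P` be the chosen path from `r` to `x`; if `y ∉ P`, `P, y` is a path to `y`, so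
`lam y = lam x + ε x y`; if `y ∈ P` let `P'` be the part up to `y` and `P''` the part from `y` to `x`;
`P''` and the edge `yx` are two paths from `y` to `x`, so they have the same sign, and
`lam y = sg P'`, `lam x = sg P' + sg P'' = lam y + ε y x`.

`bal_cyc`: every cycle `Z` inside `Bs v c` has sign `0`.
Proof.  Let `Z` be a cycle inside `B := Bs v c` of sign `1`.  Say that a pair of positions `(i, k)`,
`v i ≠ v k`, is linked if there are disjoint paths `P₁`, `P₂` such that `P₁ = v i :: P₁'`, with `P₁'`
a path in `B` from a neighbour of `v i` to a vertex `z₁` of `Z`, no other vertex of `P₁'` on `Z`, and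
similarly `P₂ = v k :: P₂'` ending at `z₂ ∈ Z`, `P₁'` and `P₂'` disjoint (so `z₁ ≠ z₂`).
 (1) `two_paths` for `Z` and `Cs v c` gives a linked pair.
 (2) If `(i, k)` is linked then `BSg G ε B (v i) (v k)`: the two ways around `Z` from `z₁` to `z₂`
   give two ears whose signs differ by the sign of `Z`, i.e. by `1`.
 (3) If `(i, k)` is linked and `Tp (i+1)` then `v (i+1) ≠ v k` and `(i + 1, k)` is linked.
   `v (i+1) ≠ v k` by (2) and `not_bsg_succ`.  Let `Q` be a path in `B` from a neighbour of
   `v (i+1)` to its first vertex `x` on `Z ∪ P₁' ∪ P₂'` (`B` is connected).  If `x ∈ P₁'` then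
   `Q` followed by the part of `P₁'` from `x` to `z₁` replaces `P₁'` for `v (i+1)`: linked.
   If `x ∈ Z \ {z₁}`: then `Q` ends at `x`, and `(i, i+1)` is linked (`P₁'` and `Q` are disjoint), so
   `BSg` for `v i`, `v (i+1)`, contradiction to `not_bsg_succ`.  If `x ∈ P₂'` (and `x ∉ Z`, or
   `x = z₂`): `Q` followed by the part of `P₂'` from `x` to `z₂` is disjoint from `P₁'`; so
   `(i, i+1)` is linked, contradiction again.
 (4) Moving `i` forward: there is a linked pair `(i', k)` with `¬ Tp (i'+1)`: otherwise by (3)
   all pairs `(i + n, k)` are linked, but `v (i + n) = v k` for some `n ≥ 0`.  By symmetry move `k`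
   forward: linked pair `(i', k')` with `¬ Tp (i'+1)`, `¬ Tp (k'+1)`.  By (2) this contradicts `d1`.

`bal`: choose `lam₀` by `bal_pot` for `Bs v c`.  For `i` with `Tp i` and neighbours `x, x' ∈ B` of
`v i`: claim `ε (v i) x + lam₀ x = ε (v i) x' + lam₀ x'`.  Suppose not.  For every `k` with `Tp k`,
`v k ≠ v i`, with a neighbour `y ∈ B` of `v k`: paths in `B` from `x` to `y` and from `x'` to `y`
give two ears from `v i` to `v k` with signs `ε (v i) x + lam₀ x + lam₀ y + ε y (v k)` and
`ε (v i) x' + lam₀ x' + lam₀ y + ε y (v k)`, which differ: `BSg`.  So `¬ Tp (i+1)` (by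
`not_bsg_succ`).  There is `k` with `Tp k`, `v k ≠ v i` (`three_le_TT` or 3-connectivity);
move `k` forward until `¬ Tp (k + 1)`: as long as `Tp (k+1)` holds, `v (k+1) ≠ v i`?  If
`v (k+1) = v i` then the pair `v k`, `v i = v (k+1)` is `BSg`, contradiction to `not_bsg_succ`.
So we can replace `k` by `k + 1`; the process stops, because otherwise it reaches `v i`.  Then
`d1` gives a contradiction.
Now let `lam = lam₀` on `B` and `lam (v i) = ε (v i) x + lam₀ x` for any neighbour `x ∈ B` of `v i`
(`0` if there is none).

`normalize`: switch by `lam` (`Ctx.switch`); all edges with an end in `B` get sign `0`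
(`ε x y + lam x + lam y = 0`).
-/

set_option autoImplicit false
set_option linter.unusedSectionVars false

namespace Pool.Agent.BND

open Classical

variable {V : Type} [Fintype V]
variable {G : SimpleGraph V} {ε : V → V → ZMod 2} {τ : ZMod 2} {d c : ℕ} {v : ℤ → V}
  {s : ℤ → ZMod 2}

theorem bal1_zmod2 {a b : ZMod 2} (h : a + b = 0) : a = b := by
  revert a b; decide

theorem bal1_cycle (hε : ∀ x y, ε x y = ε y x) {D : Finset V}
    (hc : ∀ l, CycL G l → (∀ z ∈ l, z ∈ D) → csg ε l = 0) {a t : V} {l1 q1 : List V}
    (hP : Pth G D a t (a :: (l1 ++ [t]))) (hQ : Pth G D a t (a :: (q1 ++ [t])))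
    (hd : ∀ z ∈ l1, z ∉ a :: (q1 ++ [t])) (hne : l1 ≠ [] ∨ q1 ≠ []) :
    sg ε (a :: (l1 ++ [t])) = sg ε (a :: (q1 ++ [t])) := by
  have hch : (((a :: l1) ++ t :: (q1.reverse ++ [a]))).IsChain G.Adj := by
    rw [List.isChain_split]
    refine ⟨by simpa using hP.chain, ?_⟩
    have := hQ.reverse.chain
    simpa using this
  have hnP := hP.nodup
  have hnQ := hQ.nodup
  have hcyc : CycL G ((a :: l1) ++ t :: q1.reverse) := by
    refine ⟨?_, ?_, ?_⟩
    · have : 1 ≤ l1.length + q1.length := by
        rcases hne with h | h
        · have := List.length_pos_iff.2 h; omega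
        · have := List.length_pos_iff.2 h; omega
      simp; omega
    · rw [List.nodup_append]
      simp only [List.nodup_cons, List.mem_append, List.mem_singleton, not_or,
        List.nodup_append] at hnP hnQ
      refine ⟨?_, ?_, ?_⟩
      · simp only [List.nodup_cons]
        exact ⟨hnP.1.1, hnP.2.1⟩
      · simp only [List.nodup_cons, List.mem_reverse, List.nodup_reverse]
        exact ⟨fun h => hnQ.2.2.2 t h t rfl rfl, hnQ.2.1⟩
      · intro x hx y hy hxy
        subst hxy
        simp only [List.mem_cons, List.mem_reverse] at hx hy
        rcases hx with hx | hx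
        · subst hx
          rcases hy with hy | hy
          · exact hnP.1.2 hy
          · exact hnQ.1.1 hy
        · have := hd x hx
          simp only [List.mem_cons, List.mem_append, not_or] at this
          rcases hy with hy | hy
          · exact this.2.2.1 hy
          · exact this.2.1 hy
    · simpa using hch
  have h0 := hc _ hcyc (by
    intro z hz
    simp only [List.mem_append, List.mem_cons, List.mem_reverse] at hz
    rcases hz with (hz | hz) | (hz | hz)
    · exact hP.sub z (by simp [hz])
    · exact hP.sub z (by simp [hz])
    · exact hP.sub z (by simp [hz])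
    · exact hQ.sub z (by simp [hz]))
  have e1 : csg ε ((a :: l1) ++ t :: q1.reverse)
      = sg ε (a :: (l1 ++ [t])) + sg ε (a :: (q1 ++ [t])) := by
    unfold csg
    have e2 : ((a :: l1) ++ t :: q1.reverse) ++ ((a :: l1) ++ t :: q1.reverse).take 1
        = (a :: l1) ++ t :: (q1.reverse ++ [a]) := by simp
    rw [e2, sg_split]
    congr 1
    rw [← sg_reverse hε (a :: (q1 ++ [t]))]
    simp
  rw [e1] at h0
  exact bal1_zmod2 h0

theorem bal1_same (hε : ∀ x y, ε x y = ε y x) {D : Finset V}
    (hc : ∀ l, CycL G l → (∀ z ∈ l, z ∈ D) → csg ε l = 0) (n : ℕ) :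
    ∀ (a b : V) (P Q : List V), P.length + Q.length ≤ n → Pth G D a b P → Pth G D a b Q →
      sg ε P = sg ε Q := by
  induction n with
  | zero =>
    intro a b P Q hn hP hQ
    have := List.length_pos_iff.2 hP.ne_nil
    omega
  | succ n ih =>
    intro a b P Q hn hP hQ
    by_cases hab : a = b
    · subst hab
      rw [hP.eq_self, hQ.eq_self]
    · -- the tail of `P`
      obtain ⟨P', rfl⟩ : ∃ P', P = a :: P' := by
        cases P with
        | nil => exact absurd rfl hP.ne_nil
        | cons x P' =>
          have := hP.head
          simp at this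
          exact ⟨P', by rw [this]⟩
      cases P' with
      | nil =>
        exfalso
        have := hP.last
        simp at this
        exact hab this
      | cons w P' =>
        obtain ⟨haw, haP, hP'⟩ := hP.tail
        have hbQ : b ∈ Q := hQ.mem_right
        have hbP : b ∈ w :: P' := hP'.mem_right
        obtain ⟨t, l1, l2, hl, htQ, hl1, hp1, hp2⟩ := hP'.first_hit Q.toFinset
          ⟨b, hbP, by simpa using hbQ⟩
        have htQ' : t ∈ Q := by simpa using htQ
        obtain ⟨q1, q2, hq, hq1, hq2⟩ := hQ.split htQ'
        have hat : a ≠ t := by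
          rintro rfl
          apply haP
          rw [hl]; simp
        obtain ⟨q1', rfl⟩ : ∃ q1', q1 = a :: q1' := by
          cases q1 with
          | nil =>
            exfalso
            have := hq1.head
            simp at this
            exact hat this.symm
          | cons x q1' =>
            have := hq1.head
            simp at this
            exact ⟨q1', by rw [this]⟩
        have hPsplit : a :: w :: P' = (a :: l1) ++ t :: l2 := by rw [hl]; simp
        rw [hPsplit, hq, sg_split, sg_split (a :: q1')]
        have e2 : sg ε (t :: l2) = sg ε (t :: q2) := by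
          apply ih t b _ _ _ hp2 hq2
          have h1 : (a :: w :: P').length = ((a :: l1) ++ t :: l2).length := by rw [hPsplit]
          have h2 : Q.length = ((a :: q1') ++ t :: q2).length := by rw [hq]
          simp only [List.length_cons, List.length_append] at h1 h2 hn ⊢
          omega
        rw [e2]
        congr 1
        -- the first parts
        have hP1 : Pth G D a t (a :: (l1 ++ [t])) := by
          apply pth_cons hP.left_mem _ _ hp1
          · intro h
            apply haP
            rw [hl]
            simp only [List.mem_append, List.mem_cons, List.not_mem_nil, or_false] at h ⊢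
            rcases h with h | h
            · exact Or.inl h
            · exact Or.inr (Or.inl h)
          · exact haw
        have hQ1 : Pth G D a t (a :: (q1' ++ [t])) := by simpa using hq1
        by_cases hne : l1 ≠ [] ∨ q1' ≠ []
        · have := bal1_cycle hε hc hP1 hQ1 (by
            intro z hz hz'
            apply hl1 z hz
            rw [List.mem_toFinset, hq]
            simp only [List.mem_append, List.mem_cons, List.not_mem_nil, or_false] at hz' ⊢
            tauto) hne
          simpa using this
        · push Not at hne
          rw [hne.1, hne.2]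

theorem bal_pot (hε : ∀ x y, ε x y = ε y x) {D : Finset V} (hD : Conn G D)
    (hc : ∀ l, CycL G l → (∀ z ∈ l, z ∈ D) → csg ε l = 0) :
    ∃ lam : V → ZMod 2, ∀ x ∈ D, ∀ y ∈ D, G.Adj x y → ε x y = lam x + lam y := by
  obtain ⟨⟨r, hr⟩, hconn⟩ := hD
  have hex : ∀ x : V, ∃ l : List V, x ∈ D → Pth G D r x l := by
    intro x
    by_cases hx : x ∈ D
    · obtain ⟨l, hl⟩ := hconn r hr x hx
      exact ⟨l, fun _ => hl⟩
    · exact ⟨[], fun h => absurd h hx⟩
  choose pt hpt using hex
  have same : ∀ (a b : V) (P Q : List V), Pth G D a b P → Pth G D a b Q → sg ε P = sg ε Q :=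
    fun a b P Q hP hQ => bal1_same hε hc (P.length + Q.length) a b P Q le_rfl hP hQ
  refine ⟨fun x => sg ε (pt x), ?_⟩
  intro x hx y hy hxy
  have hP := hpt x hx
  have hQ := hpt y hy
  have key : sg ε (pt y) = sg ε (pt x) + ε x y := by
    by_cases hyP : y ∈ pt x
    · obtain ⟨p1, p2, hp, hp1, hp2⟩ := hP.split hyP
      have h1 : sg ε (y :: p2) = sg ε [y, x] := by
        apply same y x _ _ hp2
        exact pth_cons hy (by simp; exact hxy.symm.ne) hxy.symm (pth_self hx)
      have h2 : sg ε (pt y) = sg ε (p1 ++ [y]) := same r y _ _ hQ hp1
      rw [hp, sg_split, h1, h2]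
      simp only [sg_cons_cons, sg_single, add_zero]
      rw [hε y x, add_assoc, CharTwo.add_self_eq_zero, add_zero]
    · have h1 : Pth G D r y (pt x ++ [y]) := by
        apply pth_append hP (pth_self hy) hxy
        intro q hq h
        simp only [List.mem_singleton] at h
        subst h
        exact hyP hq
      rw [same r y _ _ hQ h1]
      obtain ⟨m, hm⟩ : ∃ m, pt x = m ++ [x] := by
        have := hP.last
        rw [List.getLast?_eq_some_iff] at this
        exact this
      rw [hm]
      have := sg_split_edge (ε := ε) m x y []
      rw [this]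
      simp
  show ε x y = sg ε (pt x) + sg ε (pt y)
  rw [key, ← add_assoc, CharTwo.add_self_eq_zero, zero_add]

end Pool.Agent.BND
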