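import Pool.Agent.BND.MG1b

/-!
# BND-MG2 : two applications of `menger2`

`link_ears`: let `D` be `Bic`, and let `p, q, r, t ∉ D` be distinct vertices each having at least two
neighbours in `D`.  Then there are two disjoint ears through `D` joining `{p, q}` to `{r, t}`.

Proof.  Let `G'` be the graph with the edges of `G` that have at least one end in `D`, and
`S = D ∪ {p, q, r, t}`, `A = {p, q}`, `B = {r, t}`.  For each vertex `x` there is a `G'`-path in
`S - x` from `A` to `B`: choose `a ∈ A`, `b ∈ B`, `a, b ≠ x`; both have neighbours in `D - x`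
(`D.erase x`), and `D - x` is connected (if `x ∉ D` this is `D`).  Apply `menger2` to `G'`.
A path `l` from `a ∈ A` to `b ∈ B` meeting `A` only in `a` and `B` only in `b` has all its other
vertices in `D`; it has at least one inner vertex since `a ≠ b` are not adjacent in `G'`
(both are outside `D`).  So it gives an `Ear`.

`two_paths`: `G` 3-connected, `Z`, `K` disjoint sets with at least two elements each; there are two
disjoint paths from `Z` to `K`, each meeting `Z` and `K` only in its ends.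
Proof: `menger2` with `S = univ`; for every `x`, `univ.erase x = {x}ᶜ` is connected and `Z`, `K` have
elements different from `x`.
-/

set_option autoImplicit false
set_option linter.unusedSectionVars false

namespace Pool.Agent.BND

open Classical

variable {V : Type} [Fintype V] {G : SimpleGraph V}

/-- the edges of `G` with at least one end in `D` -/
def mg2G (G : SimpleGraph V) (D : Finset V) : SimpleGraph V where
  Adj a b := G.Adj a b ∧ (a ∈ D ∨ b ∈ D)
  symm := ⟨fun _ _ h => ⟨h.1.symm, h.2.symm⟩⟩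
  loopless := ⟨fun _ h => h.1.ne rfl⟩

theorem mg2_chain (D : Finset V) : ∀ l : List V, l.IsChain G.Adj → (∀ z ∈ l, z ∈ D) →
    l.IsChain (mg2G G D).Adj := by
  intro l
  induction l with
  | nil => intro _ _; exact List.isChain_nil
  | cons a l ih =>
    intro h1 h2
    cases l with
    | nil => exact List.isChain_singleton a
    | cons b l =>
      rw [List.isChain_cons_cons] at h1 ⊢
      exact ⟨⟨h1.1, Or.inl (h2 a List.mem_cons_self)⟩,
        ih h1.2 (fun z hz => h2 z (List.mem_cons_of_mem _ hz))⟩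

theorem mg2_pth {D S : Finset V} {x y : V} {l : List V} (h : Pth G S x y l) (hS : S ⊆ D) :
    Pth (mg2G G D) S x y l :=
  ⟨h.head, h.last, h.nodup, mg2_chain D l h.chain (fun z hz => hS (h.sub z hz)), h.sub⟩

theorem mg2_ear {D A B : Finset V} {a b : V} {l : List V}
    (h : Pth (mg2G G D) (D ∪ (A ∪ B)) a b l) (hab : a ≠ b) (ha : a ∉ D) (hb : b ∉ D)
    (hA : ∀ z ∈ l, z ∈ A → z = a) (hB : ∀ z ∈ l, z ∈ B → z = b) :
    ∃ I, Ear G D a b I ∧ ∀ z ∈ I, z ∈ l := by
  obtain ⟨h1, h2, h3, h4, h5⟩ := h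
  cases l with
  | nil => simp at h1
  | cons a' m =>
    have ha' : a' = a := by simpa using h1
    subst ha'
    rcases List.eq_nil_or_concat m with rfl | ⟨I, b', rfl⟩
    · exfalso
      apply hab
      simpa using h2
    · rw [List.concat_eq_append] at *
      have hb' : b' = b := by
        rw [← List.cons_append, List.getLast?_append] at h2
        simpa using h2
      subst hb'
      have h6 : a' ∉ I ++ [b'] ∧ (I ++ [b']).Nodup := List.nodup_cons.1 h3
      have h7 := List.nodup_append.1 h6.2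
      refine ⟨I, ⟨?_, h7.1, ?_, ?_⟩, ?_⟩
      · rintro rfl
        rw [List.nil_append, List.isChain_cons_cons] at h4
        rcases h4.1.2 with h8 | h8
        · exact ha h8
        · exact hb h8
      · exact h4.imp (fun _ _ h => h.1)
      · intro z hz
        have hzl : z ∈ a' :: (I ++ [b']) :=
          List.mem_cons_of_mem _ (List.mem_append_left _ hz)
        have h8 := h5 z hzl
        rw [Finset.mem_union, Finset.mem_union] at h8
        rcases h8 with h8 | h8 | h8
        · exact h8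
        · exfalso
          have h9 := hA z hzl h8
          apply h6.1
          rw [← h9]
          exact List.mem_append_left _ hz
        · exfalso
          have h9 := hB z hzl h8
          exact h7.2.2 z hz b' List.mem_cons_self h9
      · intro z hz
        exact List.mem_cons_of_mem _ (List.mem_append_left _ hz)

theorem mg2_nb {D : Finset V} {a : V} (h : 2 ≤ (att G D a).card) (x : V) :
    ∃ y ∈ D.erase x, G.Adj a y := by
  obtain ⟨y, hy, hyx⟩ := Finset.exists_mem_ne (show 1 < (att G D a).card by omega) x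
  unfold att at hy
  obtain ⟨hyD, hay⟩ := Finset.mem_filter.1 hy
  exact ⟨y, Finset.mem_erase.2 ⟨hyx, hyD⟩, hay⟩

theorem link_ears {D : Finset V} (hD : Bic G D) {p q r t : V} (hp : p ∉ D) (hq : q ∉ D)
    (hr : r ∉ D) (ht : t ∉ D) (hpq : p ≠ q) (hpr : p ≠ r) (hpt : p ≠ t) (hqr : q ≠ r)
    (hqt : q ≠ t) (hrt : r ≠ t) (h1 : 2 ≤ (att G D p).card) (h2 : 2 ≤ (att G D q).card)
    (h3 : 2 ≤ (att G D r).card) (h4 : 2 ≤ (att G D t).card) :
    ∃ I J, (∀ z ∈ I, z ∉ J) ∧
      ((Ear G D p r I ∧ Ear G D q t J) ∨ (Ear G D p t I ∧ Ear G D q r J)) := by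
  have hA2 : ∀ a, a ∈ ({p, q} : Finset V) → a ∉ D ∧ 2 ≤ (att G D a).card := by
    intro a ha
    rcases Finset.mem_insert.1 ha with rfl | ha
    · exact ⟨hp, h1⟩
    · rw [Finset.mem_singleton] at ha
      subst ha
      exact ⟨hq, h2⟩
  have hB2 : ∀ a, a ∈ ({r, t} : Finset V) → a ∉ D ∧ 2 ≤ (att G D a).card := by
    intro a ha
    rcases Finset.mem_insert.1 ha with rfl | ha
    · exact ⟨hr, h3⟩
    · rw [Finset.mem_singleton] at ha
      subst ha
      exact ⟨ht, h4⟩
  have hAB : ∀ a ∈ ({p, q} : Finset V), ∀ b ∈ ({r, t} : Finset V), a ≠ b := by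
    intro a ha b hb
    rw [Finset.mem_insert, Finset.mem_singleton] at ha hb
    rcases ha with rfl | rfl <;> rcases hb with rfl | rfl <;> assumption
  have hcon : ∀ x, Conn G (D.erase x) := by
    intro x
    by_cases hx : x ∈ D
    · exact hD.2.2 x hx
    · rw [Finset.erase_eq_of_notMem hx]
      exact hD.2.1
  obtain ⟨a₁, ha₁, a₂, ha₂, b₁, hb₁, b₂, hb₂, l₁, l₂, hl₁, hl₂, hdis, hA₁, hB₁, hA₂, hB₂⟩ :=
    menger2 (G := mg2G G D) (D ∪ ({p, q} ∪ {r, t})) {p, q} {r, t}
      (fun z hz => Finset.mem_union_right _ (Finset.mem_union_left _ hz))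
      (fun z hz => Finset.mem_union_right _ (Finset.mem_union_right _ hz))
      ⟨p, Finset.mem_insert_self p {q}⟩ (by
      intro x
      obtain ⟨a, ha, hax⟩ := Finset.exists_mem_ne
        (show 1 < ({p, q} : Finset V).card by rw [Finset.card_pair hpq]; norm_num) x
      obtain ⟨b, hb, hbx⟩ := Finset.exists_mem_ne
        (show 1 < ({r, t} : Finset V).card by rw [Finset.card_pair hrt]; norm_num) x
      obtain ⟨haD, ha2⟩ := hA2 a ha
      obtain ⟨hbD, hb2⟩ := hB2 b hb
      obtain ⟨a', ha', haa'⟩ := mg2_nb ha2 x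
      obtain ⟨b', hb', hbb'⟩ := mg2_nb hb2 x
      obtain ⟨l, hl⟩ := (hcon x).2 a' ha' b' hb'
      have hl' := mg2_pth hl (Finset.erase_subset x D)
      have hsub : ∀ z ∈ D.erase x, z ∈ (D ∪ ({p, q} ∪ {r, t})).erase x := by
        intro z hz
        obtain ⟨hz1, hz2⟩ := Finset.mem_erase.1 hz
        exact Finset.mem_erase.2 ⟨hz1, Finset.mem_union_left _ hz2⟩
      have hl'' : Pth (mg2G G D) ((D ∪ ({p, q} ∪ {r, t})).erase x) a' b' l :=
        hl'.mono (fun z hz => hsub z (hl'.sub z hz))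
      have haS : a ∈ (D ∪ ({p, q} ∪ {r, t})).erase x :=
        Finset.mem_erase.2 ⟨hax, Finset.mem_union_right _ (Finset.mem_union_left _ ha)⟩
      have hbS : b ∈ (D ∪ ({p, q} ∪ {r, t})).erase x :=
        Finset.mem_erase.2 ⟨hbx, Finset.mem_union_right _ (Finset.mem_union_right _ hb)⟩
      have halD : ∀ z ∈ l, z ∈ D := fun z hz => Finset.mem_of_mem_erase (hl.sub z hz)
      have h5 : Pth (mg2G G D) ((D ∪ ({p, q} ∪ {r, t})).erase x) a b' (a :: l) :=
        pth_cons haS (fun h => haD (halD a h))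
          ⟨haa', Or.inr (Finset.mem_of_mem_erase ha')⟩ hl''
      have h6 : Pth (mg2G G D) ((D ∪ ({p, q} ∪ {r, t})).erase x) a b ((a :: l) ++ [b]) := by
        refine pth_append h5 (pth_self hbS) ⟨hbb'.symm, Or.inl (Finset.mem_of_mem_erase hb')⟩ ?_
        intro z hz
        rw [List.mem_singleton]
        rcases List.mem_cons.1 hz with rfl | hz
        · exact hAB _ ha _ hb
        · rintro rfl
          exact hbD (halD _ hz)
      exact ⟨a, ha, b, hb, _, h6⟩)
  obtain ⟨I, hI, hIl⟩ := mg2_ear hl₁ (hAB a₁ ha₁ b₁ hb₁) (hA2 a₁ ha₁).1 (hB2 b₁ hb₁).1 hA₁ hB₁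
  obtain ⟨J, hJ, hJl⟩ := mg2_ear hl₂ (hAB a₂ ha₂ b₂ hb₂) (hA2 a₂ ha₂).1 (hB2 b₂ hb₂).1 hA₂ hB₂
  have hdis' : ∀ z ∈ I, z ∉ J := fun z hz hz' => hdis z (hIl z hz) (hJl z hz')
  have hdis'' : ∀ z ∈ J, z ∉ I := fun z hz hz' => hdis' z hz' hz
  have hne₁ : a₁ ≠ a₂ := by
    rintro rfl
    exact hdis _ hl₁.mem_left hl₂.mem_left
  have hne₂ : b₁ ≠ b₂ := by
    rintro rfl
    exact hdis _ hl₁.mem_right hl₂.mem_right
  rw [Finset.mem_insert, Finset.mem_singleton] at ha₁ ha₂ hb₁ hb₂
  rcases ha₁ with rfl | rfl <;> rcases ha₂ with rfl | rfl <;> rcases hb₁ with rfl | rfl <;>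
    rcases hb₂ with rfl | rfl
  all_goals first
    | exact absurd rfl hne₁
    | exact absurd rfl hne₂
    | exact ⟨I, J, hdis', Or.inl ⟨hI, hJ⟩⟩
    | exact ⟨I, J, hdis', Or.inr ⟨hI, hJ⟩⟩
    | exact ⟨J, I, hdis'', Or.inl ⟨hJ, hI⟩⟩
    | exact ⟨J, I, hdis'', Or.inr ⟨hJ, hI⟩⟩

theorem two_paths (h : K3 G) {Z K : Finset V} (hZ : 2 ≤ Z.card) (hK : 2 ≤ K.card)
    (hd : Disjoint Z K) :
    ∃ a₁ ∈ Z, ∃ a₂ ∈ Z, ∃ b₁ ∈ K, ∃ b₂ ∈ K, ∃ l₁ l₂, Pth G Finset.univ a₁ b₁ l₁ ∧
      Pth G Finset.univ a₂ b₂ l₂ ∧ (∀ z ∈ l₁, z ∉ l₂) ∧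
      (∀ z ∈ l₁, z ∈ Z → z = a₁) ∧ (∀ z ∈ l₁, z ∈ K → z = b₁) ∧
      (∀ z ∈ l₂, z ∈ Z → z = a₂) ∧ (∀ z ∈ l₂, z ∈ K → z = b₂) := by
  refine menger2 Finset.univ Z K (Finset.subset_univ _) (Finset.subset_univ _)
    (Finset.card_pos.mp (by omega)) ?_
  intro x
  obtain ⟨a, ha, hax⟩ := Finset.exists_mem_ne (show 1 < Z.card by omega) x
  obtain ⟨b, hb, hbx⟩ := Finset.exists_mem_ne (show 1 < K.card by omega) x
  have hc := h.2 {x} (by rw [Finset.card_singleton]; norm_num)
  obtain ⟨l, hl⟩ := hc.2 a (by simpa using hax) b (by simpa using hbx)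
  refine ⟨a, ha, b, hb, l, hl.mono ?_⟩
  intro z hz
  have h1 := hl.sub z hz
  rw [Finset.mem_compl, Finset.mem_singleton] at h1
  exact Finset.mem_erase.2 ⟨h1, Finset.mem_univ z⟩

end Pool.Agent.BND
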