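import Pool.Agent.BND.D1
import Pool.Agent.BND.MG2

/-!
# BND-BAL : the outside is balanced, with consistent spokes

`bal_pot` (pure graph theory): `D` connected and all cycles inside `D` have sign `0`.  Then there is
`lam` with `ε x y = lam x + lam y` for all edges inside `D`.
Proof.  Fix a root `r ∈ D`, and for `x ∈ D` let `lam x` be the sign of some path from `r` to `x` in `D`.
It is enough to show that all paths in `D` between two given vertices have the same sign, and the
statement for edges: Claim: two paths `P`, `Q` in `D` from `a` to `b` have the same sign.  Induction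
on `|P| + |Q|`: if `a = b` both are trivial.  Otherwise let `P = a, p, …`, `Q = a, q, …`.
If `p = q` use induction for the tails.  In general let `t` be the first vertex of `P` after `a` that
lies on `Q` (exists, as `b` does).  `P = P₁ P₂`, `Q = Q₁ Q₂` cut at `t`.  `P₁`, `Q₁` from `a` to
`t` share only their ends: either both have two vertices (the same edge: same sign), or
`P₁ ∪ Q₁` is a cycle (at least three vertices), sign `0`, so they have the same sign;
and the induction hypothesis for `P₂`, `Q₂`.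
For an edge `xy`: let `P` be the chosen path from `r` to `x`; if `y ∉ P`, `P, y` is a path to `y`, so
`lam y = lam x + ε x y`; if `y ∈ P` let `P'` be the part up to `y` and `P''` the part from `y` to `x`;
`P''` and the edge `yx` are two paths from `y` to `x`, so they have the same sign, and
`lam y = sg P'`, `lam x = sg P' + sg P'' = lam y + ε y x`.

`bal_cyc`: every cycle `Z` inside `Bs v c` has sign `0`.
Proof.  Let `Z` be a cycle inside `B := Bs v c` of sign `1`.  Say that a pair of positions `(i, k)`,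
`v i ≠ v k`, is linked if there are disjoint paths `P₁`, `P₂` such that `P₁ = v i :: P₁'`, with `P₁'`
a path in `B` from a neighbour of `v i` to a vertex `z₁` of `Z`, no other vertex of `P₁'` on `Z`, and
similarly `P₂ = v k :: P₂'` ending at `z₂ ∈ Z`, `P₁'` and `P₂'` disjoint (so `z₁ ≠ z₂`).
 (1) `two_paths` for `Z` and `Cs v c` gives a linked pair.
 (2) If `(i, k)` is linked then `BSg G ε B (v i) (v k)`: the two ways around `Z` from `z₁` to `z₂`
   give two ears whose signs differ by the sign of `Z`, i.e. by `1`.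
 (3) If `(i, k)` is linked and `Tp (i+1)` then `v (i+1) ≠ v k` and `(i + 1, k)` is linked.
   `v (i+1) ≠ v k` by (2) and `not_bsg_succ`.  Let `Q` be a path in `B` from a neighbour of
   `v (i+1)` to its first vertex `x` on `Z ∪ P₁' ∪ P₂'` (`B` is connected).  If `x ∈ P₁'` then
   `Q` followed by the part of `P₁'` from `x` to `z₁` replaces `P₁'` for `v (i+1)`: linked.
   If `x ∈ Z \ {z₁}`: then `Q` ends at `x`, and `(i, i+1)` is linked (`P₁'` and `Q` are disjoint), so
   `BSg` for `v i`, `v (i+1)`, contradiction to `not_bsg_succ`.  If `x ∈ P₂'` (and `x ∉ Z`, or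
   `x = z₂`): `Q` followed by the part of `P₂'` from `x` to `z₂` is disjoint from `P₁'`; so
   `(i, i+1)` is linked, contradiction again.
 (4) Moving `i` forward: there is a linked pair `(i', k)` with `¬ Tp (i'+1)`: otherwise by (3)
   all pairs `(i + n, k)` are linked, but `v (i + n) = v k` for some `n ≥ 0`.  By symmetry move `k`
   forward: linked pair `(i', k')` with `¬ Tp (i'+1)`, `¬ Tp (k'+1)`.  By (2) this contradicts `d1`.

`bal`: choose `lam₀` by `bal_pot` for `Bs v c`.  For `i` with `Tp i` and neighbours `x, x' ∈ B` of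
`v i`: claim `ε (v i) x + lam₀ x = ε (v i) x' + lam₀ x'`.  Suppose not.  For every `k` with `Tp k`,
`v k ≠ v i`, with a neighbour `y ∈ B` of `v k`: paths in `B` from `x` to `y` and from `x'` to `y`
give two ears from `v i` to `v k` with signs `ε (v i) x + lam₀ x + lam₀ y + ε y (v k)` and
`ε (v i) x' + lam₀ x' + lam₀ y + ε y (v k)`, which differ: `BSg`.  So `¬ Tp (i+1)` (by
`not_bsg_succ`).  There is `k` with `Tp k`, `v k ≠ v i` (`three_le_TT` or 3-connectivity);
move `k` forward until `¬ Tp (k + 1)`: as long as `Tp (k+1)` holds, `v (k+1) ≠ v i`?  If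
`v (k+1) = v i` then the pair `v k`, `v i = v (k+1)` is `BSg`, contradiction to `not_bsg_succ`.
So we can replace `k` by `k + 1`; the process stops, because otherwise it reaches `v i`.  Then
`d1` gives a contradiction.
Now let `lam = lam₀` on `B` and `lam (v i) = ε (v i) x + lam₀ x` for any neighbour `x ∈ B` of `v i`
(`0` if there is none).

`normalize`: switch by `lam` (`Ctx.switch`); all edges with an end in `B` get sign `0`
(`ε x y + lam x + lam y = 0`).
-/

set_option autoImplicit false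
set_option linter.unusedSectionVars false

namespace Pool.Agent.BND

open Classical

variable {V : Type} [Fintype V]
variable {G : SimpleGraph V} {ε : V → V → ZMod 2} {τ : ZMod 2} {d c : ℕ} {v : ℤ → V}
  {s : ℤ → ZMod 2}

/-- gluing two paths at a vertex -/
theorem bal2_glue {S : Finset V} {x y z : V} {P Q : List V} (hP : Pth G S x y P)
    (hQ : Pth G S y z Q) (hd : ∀ q ∈ P, q ∈ Q → q = y) :
    ∃ R, Pth G S x z R ∧ sg ε R = sg ε P + sg ε Q ∧ ∀ q ∈ R, q ∈ P ∨ q ∈ Q := by
  obtain ⟨Q', hQ'⟩ := List.head?_eq_some_iff.1 hQ.head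
  obtain ⟨P0, hP0⟩ := List.getLast?_eq_some_iff.1 hP.last
  subst hQ'
  cases Q' with
  | nil =>
    have hyz : y = z := by
      have h1 := hQ.last
      simpa using h1
    subst hyz
    exact ⟨P, hP, by simp, fun q hq => Or.inl hq⟩
  | cons w t =>
    obtain ⟨h1, h2, h3⟩ := hQ.tail
    refine ⟨P ++ w :: t, pth_append hP h3 h1 ?_, ?_, ?_⟩
    · intro q hq hq2
      have h4 := hd q hq (List.mem_cons_of_mem _ hq2)
      exact h2 (h4 ▸ hq2)
    · rw [hP0, sg_split_edge, sg_cons_cons, add_assoc]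
    · intro q hq
      rcases List.mem_append.1 hq with h4 | h4
      · exact Or.inl h4
      · exact Or.inr (List.mem_cons_of_mem _ h4)

theorem bal2_ear_sg {S : Finset V} {a b x y : V} {R : List V} (hR : Pth G S x y R) :
    sg ε (a :: (R ++ [b])) = ε a x + sg ε R + ε y b := by
  obtain ⟨R1, hR1⟩ := List.head?_eq_some_iff.1 hR.head
  obtain ⟨R0, hR0⟩ := List.getLast?_eq_some_iff.1 hR.last
  have h1 : sg ε (R ++ [b]) = sg ε R + ε y b := by
    rw [hR0, sg_split_edge, sg_single, add_zero]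
  have h2 : sg ε (a :: (R ++ [b])) = ε a x + sg ε (R ++ [b]) := by
    rw [hR1]
    rfl
  rw [h2, h1]
  ring

/-- the two ways around a cycle of sign `≠ 0` -/
theorem bal2_ways (hε : ∀ x y, ε x y = ε y x) {Z : List V} (hZ : CycL G Z) (h0 : csg ε Z ≠ 0)
    {z₁ z₂ : V} (h1 : z₁ ∈ Z) (h2 : z₂ ∈ Z) (h12 : z₁ ≠ z₂) :
    ∃ m m', Pth G Z.toFinset z₁ z₂ m ∧ Pth G Z.toFinset z₁ z₂ m' ∧ sg ε m ≠ sg ε m' := by
  obtain ⟨l1, l2, hl⟩ := List.append_of_mem h1
  have hZ' := hZ
  rw [hl] at hZ'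
  obtain ⟨hr, hs⟩ := CycL.rotate (ε := ε) hZ'
  rw [← hl] at hs
  have h3 : z₂ ∈ l2 ++ l1 := by
    rw [hl] at h2
    simp only [List.mem_append, List.mem_cons] at h2 ⊢
    rcases h2 with h2 | h2 | h2
    · exact Or.inr h2
    · exact absurd h2.symm h12
    · exact Or.inl h2
  obtain ⟨T1, T2, hT⟩ := List.append_of_mem h3
  have hform : (z₁ :: l2) ++ l1 = z₁ :: (T1 ++ z₂ :: T2) := by
    rw [List.cons_append, hT]
  rw [hform] at hr hs
  obtain ⟨_, hnd, hch⟩ := hr
  have htake : (z₁ :: (T1 ++ z₂ :: T2)).take 1 = [z₁] := rfl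
  rw [htake] at hch
  have hmemZ : ∀ q, q ∈ z₁ :: (T1 ++ z₂ :: T2) → q ∈ Z.toFinset := by
    intro q hq
    rw [← hform] at hq
    rw [List.mem_toFinset, hl]
    simp only [List.mem_append, List.mem_cons] at hq ⊢
    tauto
  have e1 : (z₁ :: (T1 ++ z₂ :: T2)) ++ [z₁] = (z₁ :: T1) ++ z₂ :: (T2 ++ [z₁]) := by
    simp
  have hcsg : csg ε Z = sg ε ((z₁ :: T1) ++ [z₂]) + sg ε (z₂ :: (T2 ++ [z₁])) := by
    rw [← hs]
    unfold csg
    rw [htake, e1, sg_split]
  have hrev : (z₂ :: (T2 ++ [z₁])).reverse = (z₁ :: T2.reverse) ++ [z₂] := by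
    simp
  rw [e1] at hch
  have hc1 : ((z₁ :: T1) ++ [z₂]).IsChain G.Adj := by
    have h5 : (z₁ :: T1) ++ z₂ :: (T2 ++ [z₁]) = ((z₁ :: T1) ++ [z₂]) ++ (T2 ++ [z₁]) := by
      simp
    rw [h5] at hch
    exact (List.isChain_append.1 hch).1
  have hc2 : (z₂ :: (T2 ++ [z₁])).IsChain G.Adj := (List.isChain_append.1 hch).2.1
  refine ⟨(z₁ :: T1) ++ [z₂], (z₁ :: T2.reverse) ++ [z₂], ?_, ?_, ?_⟩
  · refine ⟨rfl, List.getLast?_eq_some_iff.2 ⟨_, rfl⟩, ?_, hc1, ?_⟩
    · have h5 : z₁ :: (T1 ++ z₂ :: T2) = ((z₁ :: T1) ++ [z₂]) ++ T2 := by simp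
      rw [h5] at hnd
      exact (List.nodup_append.1 hnd).1
    · intro q hq
      apply hmemZ
      simp only [List.mem_append, List.mem_cons, List.mem_singleton, List.not_mem_nil] at hq ⊢
      tauto
  · refine ⟨rfl, List.getLast?_eq_some_iff.2 ⟨_, rfl⟩, ?_, ?_, ?_⟩
    · rw [← hrev, List.nodup_reverse]
      simp only [List.nodup_cons, List.mem_append, List.mem_cons, List.nodup_append] at hnd ⊢
      obtain ⟨n1, n2, ⟨n3, n4⟩, n5⟩ := hnd
      refine ⟨?_, n4, by simp, ?_⟩
      · rintro (h6 | h6)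
        · exact n3 h6
        · simp at h6
          exact h12 h6.symm
      · intro p hp q hq hpq
        simp at hq
        subst hq
        subst hpq
        exact n1 (Or.inr (Or.inr hp))
    · rw [← hrev, List.isChain_reverse]
      exact hc2.imp (fun p q hpq => hpq.symm)
    · intro q hq
      apply hmemZ
      simp only [List.mem_append, List.mem_cons, List.mem_singleton, List.not_mem_nil,
        List.mem_reverse] at hq ⊢
      tauto
  · intro he
    apply h0
    rw [hcsg, he, ← hrev, sg_reverse hε]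
    have : ∀ x : ZMod 2, x + x = 0 := by decide
    exact this _

/-- two vertices linked to the set `Z` by disjoint paths through `B` -/
def bal2_L (G : SimpleGraph V) (B Z : Finset V) (p q : V) : Prop :=
  ∃ x1 z1 l1 x2 z2 l2, p ≠ q ∧ Pth G B x1 z1 l1 ∧ G.Adj p x1 ∧ z1 ∈ Z ∧
    (∀ t ∈ l1, t ∈ Z → t = z1) ∧ Pth G B x2 z2 l2 ∧ G.Adj q x2 ∧ z2 ∈ Z ∧
    (∀ t ∈ l2, t ∈ Z → t = z2) ∧ (∀ t ∈ l1, t ∉ l2)

theorem bal2_L_symm {B Z : Finset V} {p q : V} (h : bal2_L G B Z p q) : bal2_L G B Z q p := by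
  obtain ⟨x1, z1, l1, x2, z2, l2, h1, h2, h3, h4, h5, h6, h7, h8, h9, h10⟩ := h
  exact ⟨x2, z2, l2, x1, z1, l1, h1.symm, h6, h7, h8, h9, h2, h3, h4, h5,
    fun t ht ht' => h10 t ht' ht⟩

theorem bal2_bsg (hε : ∀ x y, ε x y = ε y x) {Z : List V} (hZ : CycL G Z) (h0 : csg ε Z ≠ 0)
    {B : Finset V} (hB : ∀ z ∈ Z, z ∈ B) {p q : V} (h : bal2_L G B Z.toFinset p q) :
    BSg G ε B p q := by
  obtain ⟨x1, z1, l1, x2, z2, l2, h1, h2, h3, h4, h5, h6, h7, h8, h9, h10⟩ := h
  have hz12 : z1 ≠ z2 := by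
    intro he
    exact h10 z1 h2.mem_right (he ▸ h6.mem_right)
  obtain ⟨m, m', hm, hm', hne⟩ := bal2_ways hε hZ h0 (List.mem_toFinset.1 h4)
    (List.mem_toFinset.1 h8) hz12
  have key : ∀ n, Pth G Z.toFinset z1 z2 n → ∃ R, Pth G B x1 x2 R ∧
      sg ε R = sg ε l1 + sg ε n + sg ε l2.reverse := by
    intro n hn
    have hn' : Pth G B z1 z2 n := hn.mono (fun z hz => hB z (List.mem_toFinset.1 (hn.sub z hz)))
    obtain ⟨R1, hR1, hs1, hm1⟩ := bal2_glue (ε := ε) h2 hn' (fun t ht ht' => h5 t ht (hn.sub t ht'))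
    obtain ⟨R2, hR2, hs2, hm2⟩ := bal2_glue (ε := ε) hR1 h6.reverse (fun t ht ht' => by
      have ht2 := List.mem_reverse.1 ht'
      rcases hm1 t ht with h11 | h11
      · exact absurd ht2 (h10 t h11)
      · exact h9 t ht2 (hn.sub t h11))
    exact ⟨R2, hR2, by rw [hs2, hs1]⟩
  obtain ⟨R, hR, hs⟩ := key m hm
  obtain ⟨R', hR', hs'⟩ := key m' hm'
  refine ⟨R, R', hR.ear h3 h7.symm, hR'.ear h3 h7.symm, ?_⟩
  rw [bal2_ear_sg hR, bal2_ear_sg hR', hs, hs']
  intro he
  apply hne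
  have h11 : ∀ a b c d e f : ZMod 2, a + (b + c + d) + e = a + (b + f + d) + e → c = f := by
    decide
  exact h11 _ _ _ _ _ _ he

theorem bal2_first (h : Ctx G ε τ d c v s) {a b : V} {l : List V}
    (hl : Pth G Finset.univ a b l) (hK : ∀ z ∈ l, z ∈ Cs v c → z = b)
    (hab : a ≠ b) : ∃ x l', Pth G (Bs v c) x a l' ∧ G.Adj b x ∧ (∀ q ∈ l', q ∈ l) := by
  have hr := hl.reverse
  obtain ⟨l1, hl1⟩ := List.head?_eq_some_iff.1 hr.head
  cases l1 with
  | nil =>
    exfalso
    have h1 := hr.last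
    rw [hl1] at h1
    simp at h1
    exact hab h1.symm
  | cons w t =>
    rw [hl1] at hr
    obtain ⟨h1, h2, h3⟩ := hr.tail
    have hmem : ∀ q ∈ w :: t, q ∈ l := by
      intro q hq
      rw [← List.mem_reverse, hl1]
      exact List.mem_cons_of_mem _ hq
    refine ⟨w, w :: t, h3.mono ?_, h1, hmem⟩
    intro q hq
    show q ∈ (Cs v c)ᶜ
    rw [Finset.mem_compl]
    intro hqC
    exact h2 (hK q (hmem q hq) hqC ▸ hq)

/-- step (3) -/
theorem bal2_step (h : Ctx G ε τ d c v s) (hB : Conn G (Bs v c)) {Z : List V} (hZ : CycL G Z)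
    (hZB : ∀ z ∈ Z, z ∈ Bs v c) (h0 : csg ε Z ≠ 0) {i k : ℤ}
    (hL : bal2_L G (Bs v c) Z.toFinset (v i) (v k)) (hT : Tp G v c (i + 1)) :
    bal2_L G (Bs v c) Z.toFinset (v (i + 1)) (v k) := by
  have hno : ¬ bal2_L G (Bs v c) Z.toFinset (v i) (v (i + 1)) := fun h1 =>
    not_bsg_succ h i (bal2_bsg h.symm hZ h0 hZB h1)
  have hne : v (i + 1) ≠ v k := by
    intro he
    apply hno
    rw [he]
    exact hL
  have hii : v i ≠ v (i + 1) := (h.adj i).ne
  obtain ⟨x1, z1, l1, x2, z2, l2, h1, h2, h3, h4, h5, h6, h7, h8, h9, h10⟩ := hL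
  obtain ⟨y0, hy0, hadj⟩ := hT
  have hz1B : z1 ∈ Bs v c := h2.right_mem
  obtain ⟨P, hP⟩ := hB.2 y0 hy0 z1 hz1B
  obtain ⟨w, m1, m2, hPm, hwX, hm1, hQ, _⟩ := hP.first_hit
    (Z.toFinset ∪ l1.toFinset ∪ l2.toFinset)
    ⟨z1, hP.mem_right, by
      rw [Finset.mem_union, Finset.mem_union]
      exact Or.inl (Or.inl h4)⟩
  have hX : ∀ q ∈ m1, q ∉ Z.toFinset ∧ q ∉ l1 ∧ q ∉ l2 := by
    intro q hq
    have h11 := hm1 q hq
    rw [Finset.mem_union, Finset.mem_union, List.mem_toFinset, List.mem_toFinset,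
      List.mem_toFinset] at h11
    refine ⟨fun h12 => h11 (Or.inl (Or.inl (List.mem_toFinset.1 h12))),
      fun h12 => h11 (Or.inl (Or.inr h12)), fun h12 => h11 (Or.inr h12)⟩
  rw [Finset.mem_union, Finset.mem_union, List.mem_toFinset (a := w) (l := l1),
    List.mem_toFinset (a := w) (l := l2)] at hwX
  have hmQ : ∀ q ∈ m1 ++ [w], q ∈ m1 ∨ q = w := by
    intro q hq
    simpa using hq
  by_cases hw1 : w ∈ l1
  · obtain ⟨a1, a2, ha, hA1, hA2⟩ := h2.split hw1
    have hsub : ∀ q ∈ w :: a2, q ∈ l1 := by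
      intro q hq
      rw [ha]
      exact List.mem_append_right _ hq
    obtain ⟨R, hR, _, hRm⟩ := bal2_glue (ε := ε) hQ hA2 (fun t ht ht' => by
      rcases hmQ t ht with h11 | h11
      · exact absurd (hsub t ht') (hX t h11).2.1
      · exact h11)
    have hRm' : ∀ q ∈ R, q ∈ m1 ∨ q ∈ l1 := by
      intro q hq
      rcases hRm q hq with h11 | h11
      · rcases hmQ q h11 with h12 | h12
        · exact Or.inl h12
        · exact Or.inr (h12 ▸ hw1)
      · exact Or.inr (hsub q h11)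
    refine ⟨y0, z1, R, x2, z2, l2, hne, hR, hadj, h4, ?_, h6, h7, h8, h9, ?_⟩
    · intro t ht htZ
      rcases hRm' t ht with h11 | h11
      · exact absurd htZ (hX t h11).1
      · exact h5 t h11 htZ
    · intro t ht
      rcases hRm' t ht with h11 | h11
      · exact (hX t h11).2.2
      · exact h10 t h11
  · exfalso
    apply hno
    by_cases hwZ : w ∈ Z.toFinset
    · refine ⟨x1, z1, l1, y0, w, m1 ++ [w], hii, h2, h3, h4, h5, hQ, hadj, hwZ, ?_, ?_⟩
      · intro t ht htZ
        rcases hmQ t ht with h11 | h11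
        · exact absurd htZ (hX t h11).1
        · exact h11
      · intro t ht ht'
        rcases hmQ t ht' with h11 | h11
        · exact (hX t h11).2.1 ht
        · exact hw1 (h11 ▸ ht)
    · have hw2 : w ∈ l2 := by
        rcases hwX with (h11 | h11) | h11
        · exact absurd h11 hwZ
        · exact absurd h11 hw1
        · exact h11
      obtain ⟨a1, a2, ha, hA1, hA2⟩ := h6.split hw2
      have hsub : ∀ q ∈ w :: a2, q ∈ l2 := by
        intro q hq
        rw [ha]
        exact List.mem_append_right _ hq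
      obtain ⟨R, hR, _, hRm⟩ := bal2_glue (ε := ε) hQ hA2 (fun t ht ht' => by
        rcases hmQ t ht with h11 | h11
        · exact absurd (hsub t ht') (hX t h11).2.2
        · exact h11)
      have hRm' : ∀ q ∈ R, q ∈ m1 ∨ q ∈ l2 := by
        intro q hq
        rcases hRm q hq with h11 | h11
        · rcases hmQ q h11 with h12 | h12
          · exact Or.inl h12
          · exact Or.inr (h12 ▸ hw2)
        · exact Or.inr (hsub q h11)
      refine ⟨x1, z1, l1, y0, z2, R, hii, h2, h3, h4, h5, hR, hadj, h8, ?_, ?_⟩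
      · intro t ht htZ
        rcases hRm' t ht with h11 | h11
        · exact absurd htZ (hX t h11).1
        · exact h9 t h11 htZ
      · intro t ht ht'
        rcases hRm' t ht' with h11 | h11
        · exact (hX t h11).2.1 ht
        · exact h10 t ht h11

/-- step (4) -/
theorem bal2_move (h : Ctx G ε τ d c v s) (hB : Conn G (Bs v c)) {Z : List V} (hZ : CycL G Z)
    (hZB : ∀ z ∈ Z, z ∈ Bs v c) (h0 : csg ε Z ≠ 0) {i k : ℤ}
    (hL : bal2_L G (Bs v c) Z.toFinset (v i) (v k)) :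
    ∃ i' : ℤ, bal2_L G (Bs v c) Z.toFinset (v i') (v k) ∧ ¬ Tp G v c (i' + 1) := by
  by_contra hno
  push Not at hno
  have hall : ∀ n : ℕ, bal2_L G (Bs v c) Z.toFinset (v (i + n)) (v k) := by
    intro n
    induction n with
    | zero => simpa using hL
    | succ n ih =>
      have h1 := bal2_step h hB hZ hZB h0 ih (hno _ ih)
      have h2 : i + ((n + 1 : ℕ) : ℤ) = i + n + 1 := by push_cast; ring
      rw [h2]
      exact h1
  obtain ⟨j, hj1, hj2, hj3⟩ := exists_pos h (v_mem_Cs h k) i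
  have h1 := hall (j - i).toNat
  have h2 : i + (((j - i).toNat : ℕ) : ℤ) = j := by
    rw [Int.toNat_of_nonneg (by omega)]
    ring
  rw [h2] at h1
  obtain ⟨_, _, _, _, _, _, h3, _⟩ := h1
  exact h3 hj3

theorem bal_cyc (h : Ctx G ε τ d c v s) (hB : Conn G (Bs v c)) :
    ∀ l, CycL G l → (∀ z ∈ l, z ∈ Bs v c) → csg ε l = 0 := by
  intro Z hZ hZB
  by_contra h0
  have hZc : 2 ≤ Z.toFinset.card := by
    rw [List.toFinset_card_of_nodup hZ.2.1]
    have := hZ.1
    omega
  have hKc : 2 ≤ (Cs v c).card := by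
    rw [card_Cs h]
    have := h.three
    omega
  have hdis : Disjoint Z.toFinset (Cs v c) := by
    rw [Finset.disjoint_left]
    intro z hz hz2
    have h1 := hZB z (List.mem_toFinset.1 hz)
    exact (Finset.mem_compl.1 h1) hz2
  obtain ⟨a₁, ha₁, a₂, ha₂, b₁, hb₁, b₂, hb₂, l₁, l₂, h1, h2, h3, h4, h5, h6, h7⟩ :=
    two_paths h.k3 hZc hKc hdis
  have hne : ∀ a b, a ∈ Z.toFinset → b ∈ Cs v c → a ≠ b := by
    intro a b ha hb he
    exact (Finset.disjoint_left.1 hdis) ha (he ▸ hb)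
  obtain ⟨x1, m1, p1, p2, p3⟩ := bal2_first h h1 h5 (hne _ _ ha₁ hb₁)
  obtain ⟨x2, m2, q1, q2, q3⟩ := bal2_first h h2 h7 (hne _ _ ha₂ hb₂)
  obtain ⟨i, hi⟩ := (mem_Cs h).1 hb₁
  obtain ⟨k, hk⟩ := (mem_Cs h).1 hb₂
  have hL : bal2_L G (Bs v c) Z.toFinset (v i) (v k) := by
    refine ⟨x1, a₁, m1, x2, a₂, m2, ?_, p1, hi ▸ p2, ha₁, fun t ht htZ => h4 t (p3 t ht) htZ,
      q1, hk ▸ q2, ha₂, fun t ht htZ => h6 t (q3 t ht) htZ,
      fun t ht ht' => h3 t (p3 t ht) (q3 t ht')⟩
    rw [hi, hk]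
    intro he
    exact h3 b₁ h1.mem_right (he ▸ h2.mem_right)
  obtain ⟨i', hL', hi'⟩ := bal2_move h hB hZ hZB h0 hL
  obtain ⟨k', hL'', hk'⟩ := bal2_move h hB hZ hZB h0 (bal2_L_symm hL')
  have hL3 := bal2_L_symm hL''
  have hne' : v i' ≠ v k' := by
    obtain ⟨_, _, _, _, _, _, h8, _⟩ := hL3
    exact h8
  exact d1 h hne' hi' hk' (bal2_bsg h.symm hZ h0 hZB hL3)

end Pool.Agent.BND
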