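import Pool.Agent.BND.GR1

/-!
# BND-GR : groups

`exists_reps`: choose all hubs, and for each centre `x` one `u ∈ K` with `att G D u = {x}`.
`three_le_TT`: if `|TT| ≤ 2` then deleting `TT` separates `D` from the nonempty set `K \ TT`.
`three_le_NN`: if `NN ≤ 2`, let `Z = hubs ∪ ctrs`, `|Z| ≤ 2`.  `D \ Z ≠ ∅` and `K \ Z ≠ ∅`, and
`Zᶜ` is connected; by `Conn.exists_edge` applied to `D \ Z ⊆ Zᶜ` there is an edge `xy` with
`x ∈ D \ Z`, `y ∉ D`, `y ∉ Z`; so `y ∈ K`, `x ∈ att G D y`.  `y` is not a hub so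
`att G D y = {x}` and `x` is a centre, a contradiction.
`two_le_NN_EP`: the same with `Z = {b} ∪ hubs ∪ ctrs` if `NN ≤ 1`; `D \ Z ≠ ∅` as `|D| ≥ 2`, and
outside `D ∪ Z` there is at least one vertex (`K` has at least 3 elements, so `K \ Z ≠ ∅`).
`two_le_TT_EP`: an end piece has at least two neighbours in `K`.
`cluster_card`: `D ⊆ ctrs`, `y ∈ D`: all neighbours of `y` are in `D - y` (at most `|D| - 1`), in
`hubs`, or `u ∈ K` with `att G D u = {y}`; and `NN = |hubs| + |D|`.
`TT_card_EP`: `D ⊆ ctrs` for an end piece.  Let `β = |D|`, `h = |hubs|`.  For `y ∈ D` let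
`k y = #{u ∈ K : att G D u = {y}} ≥ 1`; as before `d ≤ β + h + k y` (now `b` may be a neighbour).
`|TT| = h + ∑ k y ≥ h + β * max 1 (d - β - h) ≥ d - 1`.
-/

set_option autoImplicit false
set_option linter.unusedSectionVars false

namespace Pool.Agent.BND

open Classical

variable {V : Type} [Fintype V] {G : SimpleGraph V} {K D B : Finset V} {d : ℕ} {b : V}

/-- the last step of the arguments: a neighbour in `K` of a vertex of `D` that is neither a hub nor
is the vertex a centre gives a contradiction -/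
theorem gr2_center {a u : V} (ha : a ∈ D) (hu : u ∈ K) (hadj : G.Adj a u)
    (h1 : u ∉ hubs G K D) : a ∈ ctrs G K D := by
  unfold ctrs
  rw [Finset.mem_filter]
  refine ⟨ha, u, hu, ?_⟩
  have hmem : a ∈ att G D u := by
    unfold att
    rw [Finset.mem_filter]
    exact ⟨ha, hadj.symm⟩
  have hle : (att G D u).card ≤ 1 := by
    by_contra hc
    apply h1
    unfold hubs
    rw [Finset.mem_filter]
    exact ⟨hu, by omega⟩
  have hcard : (att G D u).card = 1 := by
    have : 0 < (att G D u).card := Finset.card_pos.mpr ⟨a, hmem⟩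
    omega
  obtain ⟨z, hz⟩ := Finset.card_eq_one.mp hcard
  rw [hz] at hmem ⊢
  rw [Finset.mem_singleton.mp hmem]

theorem three_le_TT (h : CC G K D d) : 3 ≤ (TT G K D).card := by
  by_contra hc
  have hconn : Conn G (TT G K D)ᶜ := h.k3.2 _ (by omega)
  have hsub : D ⊆ (TT G K D)ᶜ := by
    intro x hx
    rw [Finset.mem_compl]
    intro hxT
    have hxK : x ∈ K := (Finset.mem_filter.mp hxT).1
    exact Finset.disjoint_left.mp h.disj hx hxK
  have hne : D ≠ (TT G K D)ᶜ := by
    intro he
    obtain ⟨u, huK, huT⟩ : ∃ u ∈ K, u ∉ TT G K D := by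
      apply Finset.exists_mem_notMem_of_card_lt_card
      have := h.three
      omega
    have huD : u ∈ D := by
      rw [he, Finset.mem_compl]
      exact huT
    exact Finset.disjoint_left.mp h.disj huD huK
  obtain ⟨a, ha, u, hu, huD, hadj⟩ := hconn.exists_edge hsub h.conn.1 hne
  rw [Finset.mem_compl] at hu
  rcases h.closed a ha u hadj with h1 | h1
  · exact huD h1
  · exact hu (mem_TT.mpr ⟨h1, a, ha, hadj.symm⟩)

theorem three_le_NN (h : CC G K D d) (h3 : 3 ≤ D.card) : 3 ≤ NN G K D := by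
  by_contra hc
  unfold NN at hc
  set Z : Finset V := hubs G K D ∪ ctrs G K D with hZ
  have hZc : Z.card ≤ 2 := by
    have := Finset.card_union_le (hubs G K D) (ctrs G K D)
    rw [← hZ] at this
    omega
  have hconn : Conn G Zᶜ := h.k3.2 _ hZc
  have hsub : D \ Z ⊆ Zᶜ := by
    intro x hx
    rw [Finset.mem_compl]
    exact (Finset.mem_sdiff.mp hx).2
  have hnon : (D \ Z).Nonempty := by
    obtain ⟨u, huD, huZ⟩ : ∃ u ∈ D, u ∉ Z := by
      apply Finset.exists_mem_notMem_of_card_lt_card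
      omega
    exact ⟨u, Finset.mem_sdiff.mpr ⟨huD, huZ⟩⟩
  have hne : D \ Z ≠ Zᶜ := by
    intro he
    obtain ⟨u, huK, huT⟩ : ∃ u ∈ K, u ∉ Z := by
      apply Finset.exists_mem_notMem_of_card_lt_card
      have := h.three
      omega
    have huD : u ∈ D \ Z := by
      rw [he, Finset.mem_compl]
      exact huT
    exact Finset.disjoint_left.mp h.disj (Finset.mem_sdiff.mp huD).1 huK
  obtain ⟨a, ha, u, hu, huD, hadj⟩ := hconn.exists_edge hsub hnon hne
  rw [Finset.mem_compl] at hu
  obtain ⟨haD, haZ⟩ := Finset.mem_sdiff.mp ha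
  rcases h.closed a haD u hadj with h1 | h1
  · exact huD (Finset.mem_sdiff.mpr ⟨h1, hu⟩)
  · apply haZ
    rw [hZ, Finset.mem_union]
    right
    refine gr2_center haD h1 hadj fun h2 => hu ?_
    rw [hZ, Finset.mem_union]
    exact Or.inl h2

theorem two_le_NN_EP (h : CC G K B d) (hE : EP G B D b) (hD : 2 ≤ D.card) :
    2 ≤ NN G K D := by
  by_contra hc
  unfold NN at hc
  set Z0 : Finset V := hubs G K D ∪ ctrs G K D with hZ0
  have hZ0c : Z0.card ≤ 1 := by
    have := Finset.card_union_le (hubs G K D) (ctrs G K D)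
    rw [← hZ0] at this
    omega
  set Z : Finset V := insert b Z0 with hZ
  have hZc : Z.card ≤ 2 := by
    have := Finset.card_insert_le b Z0
    rw [← hZ] at this
    omega
  have hconn : Conn G Zᶜ := h.k3.2 _ hZc
  have hsub : D \ Z ⊆ Zᶜ := by
    intro x hx
    rw [Finset.mem_compl]
    exact (Finset.mem_sdiff.mp hx).2
  have hnon : (D \ Z).Nonempty := by
    obtain ⟨u, huD, huZ⟩ : ∃ u ∈ D, u ∉ Z0 := by
      apply Finset.exists_mem_notMem_of_card_lt_card
      omega
    refine ⟨u, Finset.mem_sdiff.mpr ⟨huD, ?_⟩⟩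
    rw [hZ, Finset.mem_insert]
    rintro (rfl | h1)
    · exact hE.nmem huD
    · exact huZ h1
  have hne : D \ Z ≠ Zᶜ := by
    intro he
    obtain ⟨u, huK, huT⟩ : ∃ u ∈ K, u ∉ Z := by
      apply Finset.exists_mem_notMem_of_card_lt_card
      have := h.three
      omega
    have huD : u ∈ D \ Z := by
      rw [he, Finset.mem_compl]
      exact huT
    exact Finset.disjoint_left.mp h.disj (hE.sub (Finset.mem_sdiff.mp huD).1) huK
  obtain ⟨a, ha, u, hu, huD, hadj⟩ := hconn.exists_edge hsub hnon hne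
  rw [Finset.mem_compl] at hu
  obtain ⟨haD, haZ⟩ := Finset.mem_sdiff.mp ha
  rcases h.closed a (hE.sub haD) u hadj with h1 | h1
  · rcases hE.closed a haD u h1 hadj with h2 | h2
    · exact huD (Finset.mem_sdiff.mpr ⟨h2, hu⟩)
    · apply hu
      rw [hZ, h2]
      exact Finset.mem_insert_self _ _
  · apply haZ
    rw [hZ, Finset.mem_insert]
    right
    rw [hZ0, Finset.mem_union]
    right
    refine gr2_center haD h1 hadj fun h2 => hu ?_
    rw [hZ, Finset.mem_insert]
    right
    rw [hZ0, Finset.mem_union]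
    exact Or.inl h2

/-- two distinct vertices of `TT` are joined by an ear if `D` is connected -/
theorem exists_ear (hD : Conn G D) {u w : V} (hu : u ∈ TT G K D) (hw : w ∈ TT G K D) :
    ∃ I, Ear G D u w I := by
  obtain ⟨-, x, hx, hux⟩ := mem_TT.mp hu
  obtain ⟨-, y, hy, hwy⟩ := mem_TT.mp hw
  obtain ⟨l, hl⟩ := hD.2 x hx y hy
  exact ⟨l, hl.ear hux hwy.symm⟩

end Pool.Agent.BND
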