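import Pool.Agent.BND.L1b

/-!
# BND-L1 : the outside of a longest `τ`-cycle is connected

`GA G v c D` (good arcs): there are two edge disjoint arcs `v i … v j` and `v k … v l` of the cycle,
each shorter than some ear through `D` with the same ends.

`good_arcs`: ownership data give `GA`.  Call `u ∈ P` bad if, `u = v p`, some element `w ≠ u` of `P` has
a position `q` with `p < q < p + own u`.  (a) If at most one element of `P` is bad: let `u₀` be an
element of `P` such that all others are not bad.  For `u = v p ∈ P`, `u ≠ u₀` the positions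
`p, p+1, …, p + own u - 1` and the position of `u₀` are pairwise distinct modulo `c` (for different
`u, u' ∈ P \ {u₀}`: if `p + j ≡ p' + j'` with `j < own u`, `j' < own u'`, say `j ≥ j'`, then
`p' ≡ p + (j - j')` and `u` would be bad, `j - j' > 0` as `u ≠ u'`; within one `u`: `own u ≤ c`, since
otherwise `u` would be bad because of any other element of `P` (`|P| ≥ 2`);
position of `u₀`: not in `[p, p + own u)` as `u` is not bad).  So
`c ≥ 1 + ∑_{u ≠ u₀} own u ≥ 1 + (2 d - 2)`, contradiction to `c + 2 ≤ 2 d`.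
(b) So there are two distinct bad elements `u = v p`, `u' = v p'` with `p < p' < p + c`.  Let `j > p`
be the smallest position `> p` of an element of `P` different from `u` (so `j < p + own u`,
`j < p + c`), and `l > p'` the smallest position `> p'` of an element of `P` different from `u'`.
Then `j ≤ p'`, `l ≤ p + c`.  The arcs `(p, j)` and `(p', l)` are good: there is an ear
through `D` from `u` to `v j` of length at least `own u > j - p`.

`two_comps`: let `D`, `D'` be disjoint sets outside the cycle, both with `GA`.  Contradiction.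
Two good arcs `I = [i, j]` (for `D`), `J = [k, l]` (for `D'`) which are not nested give a longer
`τ`-cycle (`arcs_false`).  By `su1`, the sign of an ear over a good arc is the sign of the arc plus
one.  The ears are disjoint since `D`, `D'` are.  After a rotation `i < k < i + c` (equal starting
points would mean nested), `i < j < i + c`, `k < l < k + c`; `J ⊄ I` means `j < l` and `I ⊄ J` means
`l < j + c` (the arc `[i + c, j + c]` is not contained in `[k, l]`).  Cases:
 (1) `j ≤ k`, `l ≤ i + c` (edge disjoint): `su2par` gives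
   `sgn Q + sgn Q' = (s j - s i) + (s l - s k) + 1`, but `su1` twice gives
   `sgn Q + sgn Q' = (s j - s i) + (s l - s k) + 1 + 1`.  Contradiction.
 (2) `k < j`, `l ≤ i + c` (crossing): apply `su2cross` with the positions
   `i < k < j < l ≤ i + c`: the ears are `v i – v j`, `v k – v l`, the removed arcs are `[i, k]`,
   `[j, l]`, `(k - i) + (l - j) ≤ (j - i) + (l - k) < |Q| + |Q'|`.  Signs: `s j - s i + s l - s k` is
   equal to `s k - s i + s l - s j` in `ZMod 2`.
 (3) `j ≤ k`, `i + c < l` (crossing, roles exchanged): positions `k < i + c < l < j + c ≤ k + c`,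
   `su2cross` with the ears `Q'` (from `v k` to `v l`) and `Q` (from `v (i + c)` to `v (j + c)`).
 (4) `k < j`, `i + c < l` (double overlap).  Then `i < l - c < k < j < i + c`.
   Remove `[l - c, k]` and `[j, i + c]`: apply `su2par` with the positions
   `l - c < k < j < i + c ≤ (l - c) + c`, the ears being `Q'` reversed (from `v (l - c)` to `v k`) and
   `Q` reversed (from `v j` to `v (i + c)`).  Length condition:
   `k - (l - c) ≤ j - i` and `i + c - j ≤ l - k`.  Signs: `s (i + c) = s i + τ`,
   `s l = s (l - c) + τ`.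
Choice of a non-nested pair: let `I₁, I₂` be the two good arcs for `D` and `J₁, J₂` those for `D'`
(edge disjoint pairs).  `I₁` is not contained in both `J₁` and `J₂`; say `I₁ ⊄ J₁`.  If `J₁ ⊄ I₁`,
take `(I₁, J₁)`.  Otherwise `J₁ ⊆ I₁`, so `J₁` is edge disjoint from `I₂`: take `(I₂, J₁)`.

`conn_Bs`: if the outside `Bs v c` is not connected it has (nonempty, `two_le_card_Bs`) two distinct
components `D`, `D'`; each satisfies `CC G (Cs v c) D d`, so has ownership data, so `GA`.
-/

set_option autoImplicit false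
set_option linter.unusedSectionVars false

namespace Pool.Agent.BND

open Classical

variable {V : Type} [Fintype V]
variable {G : SimpleGraph V} {ε : V → V → ZMod 2} {τ : ZMod 2} {d c : ℕ} {v : ℤ → V}
  {s : ℤ → ZMod 2}

/-- the arc `[k, l]` is contained in the arc `[i, j]` (modulo `c`) -/
def l1c_Nest (c : ℕ) (i j k l : ℤ) : Prop := ∃ t : ℤ, i ≤ k + t * c ∧ l + t * c ≤ j

theorem l1c_refl {c : ℕ} (i j : ℤ) : l1c_Nest c i j i j := ⟨0, by simp, by simp⟩

theorem l1c_trans {c : ℕ} {i j k l p q : ℤ} (h1 : l1c_Nest c i j k l) (h2 : l1c_Nest c k l p q) :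
    l1c_Nest c i j p q := by
  obtain ⟨t, h1, h1'⟩ := h1
  obtain ⟨t', h2, h2'⟩ := h2
  refine ⟨t + t', ?_, ?_⟩
  · rw [add_mul]; linarith
  · rw [add_mul]; linarith

theorem l1c_disj {c : ℕ} {i j k l p q : ℤ} (hc : 0 < c) (hij : i < j) (hjk : j ≤ k) (hkl : k < l)
    (hl : l ≤ i + c) (hpq : p < q) (h1 : l1c_Nest c i j p q) (h2 : l1c_Nest c k l p q) :
    False := by
  obtain ⟨t, h1, h1'⟩ := h1
  obtain ⟨t', h2, h2'⟩ := h2
  have hc' : (0 : ℤ) < c := by exact_mod_cast hc
  have h3 : t * c < t' * c := by linarith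
  have h4 : t' * c < (t + 1) * c := by rw [add_mul, one_mul]; linarith
  have h5 := lt_of_mul_lt_mul_right h3 hc'.le
  have h6 := lt_of_mul_lt_mul_right h4 hc'.le
  omega

theorem l1c_nn (h : Ctx G ε τ d c v s) {D D' : Finset V} (hD : D ⊆ Bs v c)
    (hD' : D' ⊆ Bs v c) (hdd : Disjoint D D') {i j k l : ℤ} (hij : i < j) (hkl : k < l)
    (hj : j < i + c) (hl : l < k + c) (hI : ∃ I, Ear G D (v i) (v j) I ∧ j - i < I.length + 1)
    (hJ : ∃ I, Ear G D' (v k) (v l) I ∧ l - k < I.length + 1) :
    l1c_Nest c i j k l ∨ l1c_Nest c k l i j := by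
  obtain ⟨I, hI, hIl⟩ := hI
  obtain ⟨J, hJ, hJl⟩ := hJ
  have hc : (0 : ℤ) < c := by
    have := h.three
    omega
  by_contra hcon
  rw [not_or] at hcon
  obtain ⟨n1, n2⟩ := hcon
  have e1 : (k - i) % c + c * ((k - i) / c) = k - i := Int.emod_add_mul_ediv _ _
  have e2 : 0 ≤ (k - i) % c := Int.emod_nonneg _ hc.ne'
  have e3 : (k - i) % c < c := Int.emod_lt_of_pos _ hc
  set t := -((k - i) / c) with ht
  have e4 : t * c = -(c * ((k - i) / c)) := by rw [ht]; ring
  have hvk : v (k + t * c) = v k := h.vper k t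
  have hvl : v (l + t * c) = v l := h.vper l t
  rw [← hvk, ← hvl] at hJ
  have hT1 : -t * c = -(t * c) := by ring
  have hT2 : (1 - t) * c = c - t * c := by ring
  have m1 : ¬ (i ≤ k + t * c ∧ l + t * c ≤ j) := fun hh => n1 ⟨t, hh.1, hh.2⟩
  have m2 : ¬ (k ≤ i - t * c ∧ j - t * c ≤ l) := fun hh => n2 ⟨-t, by
    rw [hT1]; linarith [hh.1], by rw [hT1]; linarith [hh.2]⟩
  have m3 : ¬ (k ≤ i + c - t * c ∧ j + c - t * c ≤ l) := fun hh => n2 ⟨1 - t, by
    rw [hT2]; linarith [hh.1], by rw [hT2]; linarith [hh.2]⟩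
  generalize t * (c : ℤ) = T at *
  refine arcs_false h hD hD' hdd (i := i) (j := j) (k := k + T) (l := l + T) hij (by omega) hj
    (by omega) (by omega) (by omega) (by omega) (by omega) hI hJ hIl (by omega)

theorem two_comps (h : Ctx G ε τ d c v s) {D D' : Finset V} (hD : D ⊆ Bs v c)
    (hD' : D' ⊆ Bs v c) (hdd : Disjoint D D') (g : GA G v c D) (g' : GA G v c D') : False := by
  obtain ⟨i, j, k, l, hij, hjk, hkl, hl, hI, hJ⟩ := g
  obtain ⟨i', j', k', l', hij', hjk', hkl', hl', hI', hJ'⟩ := g'
  have hc : 0 < c := by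
    have := h.three
    omega
  have N11 := l1c_nn h hD hD' hdd hij hij' (by omega) (by omega) hI hI'
  have N12 := l1c_nn h hD hD' hdd hij hkl' (by omega) (by omega) hI hJ'
  have N21 := l1c_nn h hD hD' hdd hkl hij' (by omega) (by omega) hJ hI'
  rcases N11 with N11 | N11
  · rcases N21 with N21 | N21
    · exact l1c_disj hc hij hjk hkl hl hij' N11 N21
    · exact l1c_disj hc hij hjk hkl hl hkl (l1c_trans N11 N21) (l1c_refl k l)
  · rcases N12 with N12 | N12
    · exact l1c_disj hc hij' hjk' hkl' hl' hkl' (l1c_trans N11 N12) (l1c_refl k' l')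
    · exact l1c_disj hc hij' hjk' hkl' hl' hij N11 N12

end Pool.Agent.BND
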