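import Pool.Agent.BND.GR1

/-!
# BND-GR : groups

`exists_reps`: choose all hubs, and for each centre `x` one `u ∈ K` with `att G D u = {x}`.
`three_le_TT`: if `|TT| ≤ 2` then deleting `TT` separates `D` from the nonempty set `K \ TT`.
`three_le_NN`: if `NN ≤ 2`, let `Z = hubs ∪ ctrs`, `|Z| ≤ 2`.  `D \ Z ≠ ∅` and `K \ Z ≠ ∅`, and
`Zᶜ` is connected; by `Conn.exists_edge` applied to `D \ Z ⊆ Zᶜ` there is an edge `xy` with
`x ∈ D \ Z`, `y ∉ D`, `y ∉ Z`; so `y ∈ K`, `x ∈ att G D y`.  `y` is not a hub so
`att G D y = {x}` and `x` is a centre, a contradiction.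
`two_le_NN_EP`: the same with `Z = {b} ∪ hubs ∪ ctrs` if `NN ≤ 1`; `D \ Z ≠ ∅` as `|D| ≥ 2`, and
outside `D ∪ Z` there is at least one vertex (`K` has at least 3 elements, so `K \ Z ≠ ∅`).
`two_le_TT_EP`: an end piece has at least two neighbours in `K`.
`cluster_card`: `D ⊆ ctrs`, `y ∈ D`: all neighbours of `y` are in `D - y` (at most `|D| - 1`), in
`hubs`, or `u ∈ K` with `att G D u = {y}`; and `NN = |hubs| + |D|`.
`TT_card_EP`: `D ⊆ ctrs` for an end piece.  Let `β = |D|`, `h = |hubs|`.  For `y ∈ D` let
`k y = #{u ∈ K : att G D u = {y}} ≥ 1`; as before `d ≤ β + h + k y` (now `b` may be a neighbour).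
`|TT| = h + ∑ k y ≥ h + β * max 1 (d - β - h) ≥ d - 1`.
-/

set_option autoImplicit false
set_option linter.unusedSectionVars false

namespace Pool.Agent.BND

open Classical

variable {V : Type} [Fintype V] {G : SimpleGraph V} {K D B : Finset V} {d : ℕ} {b : V}

theorem gr3_att {u y : V} (hy : y ∈ D) (huy : G.Adj y u) : y ∈ att G D u := by
  unfold att
  rw [Finset.mem_filter]
  exact ⟨hy, huy.symm⟩

/-- a vertex of `K` adjacent to `y ∈ D` is a hub or in the cluster of `y` -/
theorem gr3_cases {u y : V} (hu : u ∈ K) (hy : y ∈ D) (huy : G.Adj y u) :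
    u ∈ hubs G K D ∨ u ∈ K.filter (fun u => att G D u = {y}) := by
  have h1 := gr3_att hy huy
  by_cases h2 : 2 ≤ (att G D u).card
  · left
    unfold hubs
    exact Finset.mem_filter.2 ⟨hu, h2⟩
  · right
    rw [Finset.mem_filter]
    refine ⟨hu, ?_⟩
    have h3 : (att G D u).card = 1 := by
      have := Finset.card_pos.2 ⟨y, h1⟩
      omega
    obtain ⟨z, hz⟩ := Finset.card_eq_one.1 h3
    rw [hz, Finset.mem_singleton] at h1
    rw [hz, h1]

theorem gr3_ctrs_sub : ctrs G K D ⊆ D := by
  unfold ctrs
  exact Finset.filter_subset _ _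

theorem cluster_card (h : CC G K D d) (hall : D ⊆ ctrs G K D) {y : V} (hy : y ∈ D) :
    d + 1 ≤ NN G K D + (K.filter (fun u => att G D u = {y})).card := by
  have hD : ctrs G K D = D := Finset.Subset.antisymm gr3_ctrs_sub hall
  have h1 : nb G y ⊆ D.erase y ∪ (hubs G K D ∪ K.filter (fun u => att G D u = {y})) := by
    intro z hz
    unfold nb at hz
    have hyz : G.Adj y z := (Finset.mem_filter.1 hz).2
    rw [Finset.mem_union, Finset.mem_union]
    rcases h.closed y hy z hyz with h2 | h2
    · left
      exact Finset.mem_erase.2 ⟨hyz.ne', h2⟩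
    · right
      exact gr3_cases h2 hy hyz
  have h2 := Finset.card_le_card h1
  have h3 := Finset.card_union_le (D.erase y) (hubs G K D ∪ K.filter (fun u => att G D u = {y}))
  have h4 := Finset.card_union_le (hubs G K D) (K.filter (fun u => att G D u = {y}))
  have h5 := h.deg y
  have h6 := Finset.card_erase_add_one hy
  unfold NN
  rw [hD]
  omega

/-- `|TT| = |hubs| + ∑ over centres of the cluster sizes` -/
theorem TT_card (G : SimpleGraph V) (K D : Finset V) :
    (TT G K D).card = (hubs G K D).card +
      ∑ y ∈ ctrs G K D, (K.filter (fun u => att G D u = {y})).card := by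
  have h1 : TT G K D = hubs G K D ∪
      (ctrs G K D).biUnion (fun y => K.filter (fun u => att G D u = {y})) := by
    ext u
    rw [Finset.mem_union, Finset.mem_biUnion]
    constructor
    · intro hu
      unfold TT at hu
      obtain ⟨huK, y, hy⟩ := Finset.mem_filter.1 hu
      have hy' := hy
      unfold att at hy'
      obtain ⟨hyD, huy⟩ := Finset.mem_filter.1 hy'
      rcases gr3_cases huK hyD huy.symm with h2 | h2
      · left
        exact h2
      · right
        refine ⟨y, ?_, h2⟩
        unfold ctrs
        exact Finset.mem_filter.2 ⟨hyD, u, (Finset.mem_filter.1 h2)⟩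
    · rintro (hu | ⟨y, -, hu⟩)
      · unfold hubs at hu
        obtain ⟨huK, h2⟩ := Finset.mem_filter.1 hu
        unfold TT
        refine Finset.mem_filter.2 ⟨huK, ?_⟩
        exact Finset.card_pos.1 (by omega)
      · obtain ⟨huK, h2⟩ := Finset.mem_filter.1 hu
        unfold TT
        refine Finset.mem_filter.2 ⟨huK, ?_⟩
        rw [h2]
        exact Finset.singleton_nonempty y
  rw [h1, Finset.card_union_of_disjoint, Finset.card_biUnion]
  · intro y _ z _ hyz
    rw [Function.onFun, Finset.disjoint_left]
    intro u hu hu'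
    have h2 := (Finset.mem_filter.1 hu).2
    have h3 := (Finset.mem_filter.1 hu').2
    exact hyz (Finset.singleton_injective (h2.symm.trans h3))
  · rw [Finset.disjoint_left]
    intro u hu hu'
    unfold hubs at hu
    have h2 := (Finset.mem_filter.1 hu).2
    obtain ⟨y, -, h3⟩ := Finset.mem_biUnion.1 hu'
    have h4 := (Finset.mem_filter.1 h3).2
    rw [h4, Finset.card_singleton] at h2
    omega

theorem gr3_one {y : V} (hy : y ∈ ctrs G K D) :
    1 ≤ (K.filter (fun u => att G D u = {y})).card := by
  unfold ctrs at hy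
  obtain ⟨-, u, huK, hu⟩ := Finset.mem_filter.1 hy
  exact Finset.card_pos.2 ⟨u, Finset.mem_filter.2 ⟨huK, hu⟩⟩

theorem TT_card_EP (h : CC G K B d) (hE : EP G B D b) (hall : D ⊆ ctrs G K D) :
    d ≤ (TT G K D).card + 1 := by
  have hD : ctrs G K D = D := Finset.Subset.antisymm gr3_ctrs_sub hall
  obtain ⟨y, hy⟩ := hE.conn.1
  have h1 : nb G y ⊆ insert b (D.erase y) ∪
      (hubs G K D ∪ K.filter (fun u => att G D u = {y})) := by
    intro z hz
    unfold nb at hz
    have hyz : G.Adj y z := (Finset.mem_filter.1 hz).2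
    rw [Finset.mem_union, Finset.mem_union, Finset.mem_insert]
    rcases h.closed y (hE.sub hy) z hyz with h2 | h2
    · left
      rcases hE.closed y hy z h2 hyz with h3 | h3
      · right
        exact Finset.mem_erase.2 ⟨hyz.ne', h3⟩
      · left
        exact h3
    · right
      exact gr3_cases h2 hy hyz
  have h2 := Finset.card_le_card h1
  have h3 := Finset.card_union_le (insert b (D.erase y))
    (hubs G K D ∪ K.filter (fun u => att G D u = {y}))
  have h4 := Finset.card_union_le (hubs G K D) (K.filter (fun u => att G D u = {y}))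
  have h5 := h.deg y
  have h6 := Finset.card_erase_add_one hy
  have h7 := Finset.card_insert_le b (D.erase y)
  have h8 := TT_card G K D
  rw [hD] at h8
  have h9 : (D.erase y).card ≤
      ∑ z ∈ D.erase y, (K.filter (fun u => att G D u = {z})).card := by
    have h10 := Finset.card_nsmul_le_sum (D.erase y)
      (fun z => (K.filter (fun u => att G D u = {z})).card) 1
      (fun z hz => gr3_one (hall (Finset.mem_of_mem_erase hz)))
    simpa using h10
  have h11 := Finset.add_sum_erase D (fun z => (K.filter (fun u => att G D u = {z})).card) hy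
  omega

end Pool.Agent.BND
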