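import Pool.Agent.BND.EB1
import Pool.Agent.BND.GR2
import Pool.Agent.BND.GR3

/-!
# BND-OW : ownership data (unsigned counting) for every component `D` of `G - K`

`Own G K D d P own`: for `u ≠ w` in `P` there is an ear through `D` between them of length at least
`own u` (by symmetry also one of length at least `own w`), and for every `u ∈ P` the sum of `own` over
`P - u` is at least `2 (d - 1)`.

`own_single` (`D = {y}`): `P = ` neighbours of `y` in `K` (all its neighbours), `own = 2`; the ear is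
`[y]`. `|P| ≥ d`, so the sum over `P - u` is `≥ 2 (d - 1)`.

`own_pair` (`D = {x, y}`, `x ~ y` because `D` is connected).  `P = TT G K D`,
`own u = 3` if `u` is adjacent to both (a hub), `own u = 2` otherwise.  Ears: if `u` is a hub and
`w ∈ P`, `w` is adjacent to `x`, say: the ear `[y, x]` from `u` to `w` has length 3.  Otherwise
`exists_ear` gives an ear with length at least 2.
Let `h` = number of hubs, `a`, `b` = numbers of vertices of `K` adjacent to `x` only / to `y` only.
`h + a ≥ d - 1`, `h + b ≥ d - 1`, `h + a + b ≥ 3` (`three_le_TT`).  The sum over `P - u` is at least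
`3 h + 2 a + 2 b - 3`, and we need `≥ 2 d - 2`, i.e. `3h + 2a + 2b ≥ 2d + 1`.
If `h ≥ d`: `3 d ≥ 2 d + 1`.  If `h = d - 1`: `3 d - 3 + 2(a + b) ≥ 2 d + 1` iff `d + 2(a + b) ≥ 4`: true
if `d ≥ 4`, and if `d = 3` then `a + b ≥ 1` as `h + a + b ≥ 3`.  If `h ≤ d - 2`: `a, b ≥ d - 1 - h`, so
`3h + 4(d - 1 - h) = 4 d - 4 - h ≥ 3 d - 2 ≥ 2 d + 1`.

`own_bic` (`D` is `Bic`, `|D| ≥ 3`).  `N = NN ≥ 3` (`three_le_NN`).
 (i) `N ≥ d`: `P = R` representatives, `own = 4`; ears of length `≥ 4` between independent vertices: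
 `Bic.long_pth`.  Sum `≥ 4 (N - 1) ≥ 2 d - 2`.
 (ii) `N ≤ d - 1`, `D ⊄ ctrs`: `P = R`, `own = d - N + 2`: `ear_gen` (`L = D`):
 `d + 1 ≤ |I| + N`.  `(N - 1)(d - N + 2) ≥ 2 (d - 1)` for `3 ≤ N ≤ d - 1`: write `N = 3 + t`,
 `d = N + 1 + r`, `t, r ≥ 0`; the difference is
 `(2 + t)(r + 3) - 2 (3 + t + r) = t r + t ≥ 0`.
 (iii) `N ≤ d - 1`, `D ⊆ ctrs` (so `ctrs = D`): `P = TT`, `own = 4` for hubs, `2` for the others.
 Between a hub and another vertex of `TT` there is an ear of length `≥ 4` (they are independent).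
 With `h` hubs, `β = |D| ≥ 3`, `N = h + β`, and each cluster has at least `m = d + 1 - N ≥ 2` elements
 (`cluster_card`).  By `TT_card` the sum over `P - u` is at least `4 h + 2 β m - 4`, and
 `2 d - 2 = 2 (h + β + m - 1) - 2 = 2h + 2β + 2m - 4`; fine since `β m ≥ β + m` (`β, m ≥ 2`).

`own_cut` (`D` connected, not `Bic`, `|D| ≥ 2`).  Two end pieces with data `(R₁, f₁)`, `(R₂, f₂)`.
`P = R₁ ∪ R₂`, `own u = [u ∈ R₁] f₁ + [u ∈ R₂] f₂`.  Ears for `u ≠ w`:
 `u ∈ R₁ \ R₂`: `w ∈ R₁`: `PD.ear`; `w ∈ R₂`: `cross_ear`.  Similarly `u ∈ R₂ \ R₁`.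
 `u ∈ R₁ ∩ R₂`: `w ∈ R₁`: `cross_ear` (with `u ∈ R₂`, reversed); `w ∈ R₂`: `cross_ear`.
 Sum over `P - u` is at least `(|R₁| - 1) f₁ + (|R₂| - 1) f₂` and
 `(|Rᵢ| - 1) fᵢ = |Rᵢ| fᵢ - fᵢ ≥ 2(d - 1) - (d - 1)`.
-/

set_option autoImplicit false
set_option linter.unusedSectionVars false

namespace Pool.Agent.BND

open Classical

variable {V : Type} [Fintype V] {G : SimpleGraph V} {K D : Finset V} {d : ℕ}

theorem ow2_ear4 (hB : Bic G D) (h3 : 3 ≤ D.card) {u w : V} (hI : Ind G D u w) :
    ∃ I, Ear G D u w I ∧ 4 ≤ I.length + 1 := by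
  obtain ⟨-, x, hx, y, hy, hxy⟩ := hI
  rw [att, Finset.mem_filter] at hx hy
  obtain ⟨l, hl, hl3⟩ := hB.long_pth h3 hx.1 hy.1 hxy
  exact ⟨l, hl.ear hx.2 hy.2.symm, by omega⟩

theorem own_bic (h : CC G K D d) (hB : Bic G D) (h3 : 3 ≤ D.card) :
    ∃ P own, Own G K D d P own := by
  have hd := h.hd
  have hN := three_le_NN h h3
  obtain ⟨R, hR, hRc, hRi, -, -⟩ := exists_reps G K D
  have hTK : TT G K D ⊆ K := fun u hu => (mem_TT.1 hu).1
  rcases Nat.lt_or_ge (NN G K D) d with hlt | hge
  · by_cases hc : D ⊆ ctrs G K D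
    · -- all vertices are centres
      have hcD : ctrs G K D = D := Finset.Subset.antisymm (Finset.filter_subset _ _) hc
      have e1 := TT_card G K D
      rw [hcD] at e1
      have e2 : D.card * (d + 1 - NN G K D) ≤
          ∑ y ∈ D, (K.filter (fun u => att G D u = {y})).card := by
        rw [← smul_eq_mul]
        refine Finset.card_nsmul_le_sum _ _ _ fun y hy => ?_
        have := cluster_card h hc hy
        omega
      have e3 : NN G K D = (hubs G K D).card + D.card := by
        rw [NN, hcD]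
      have hsub : hubs G K D ⊆ TT G K D := by
        intro u hu
        rw [hubs, Finset.mem_filter] at hu
        rw [TT, Finset.mem_filter]
        exact ⟨hu.1, Finset.card_pos.1 (by omega)⟩
      have e5 : ∑ u ∈ TT G K D, (if u ∈ hubs G K D then 4 else 2) =
          2 * (TT G K D).card + 2 * (hubs G K D).card := by
        have h1 : ∀ u ∈ TT G K D, (if u ∈ hubs G K D then 4 else 2) =
            2 + 2 * (if u ∈ hubs G K D then 1 else 0) := by
          intro u _
          split_ifs <;> rfl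
        rw [Finset.sum_congr rfl h1, Finset.sum_add_distrib, Finset.sum_const, smul_eq_mul, mul_comm,
          ← Finset.mul_sum, Finset.sum_boole, Nat.cast_id]
        congr 3
        ext u
        rw [Finset.mem_filter]
        exact ⟨fun h2 => h2.2, fun h2 => ⟨hsub h2, h2⟩⟩
      have e6 := three_le_TT h
      refine ⟨TT G K D, fun u => if u ∈ hubs G K D then 4 else 2, hTK, by omega, ?_, ?_, ?_⟩
      · intro u _
        show 1 ≤ if u ∈ hubs G K D then 4 else 2
        split_ifs <;> omega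
      · intro u hu w hw huw
        show ∃ I, Ear G D u w I ∧ (if u ∈ hubs G K D then 4 else 2) ≤ I.length + 1
        split_ifs with h1
        · exact ow2_ear4 hB h3 (ind_of_hub (Finset.mem_filter.1 h1).2 hw huw)
        · obtain ⟨I, hI⟩ := exists_ear h.conn hu hw
          have := hI.length_pos
          exact ⟨I, hI, by omega⟩
      · intro u hu
        have h1 := Finset.sum_erase_add (TT G K D)
          (fun u => if u ∈ hubs G K D then 4 else 2) hu
        rw [e5] at h1
        show 2 * d ≤ (∑ w ∈ (TT G K D).erase u, if w ∈ hubs G K D then 4 else 2) + 2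
        have h2 : (if u ∈ hubs G K D then 4 else 2) ≤ 4 := by split_ifs <;> omega
        obtain ⟨m, hm⟩ : ∃ m, m = d + 1 - NN G K D := ⟨_, rfl⟩
        rw [← hm] at e2
        have hm2 : 2 ≤ m := by omega
        have h4 : D.card + m ≤ D.card * m := by nlinarith
        omega
    · refine ⟨R, fun _ => d - NN G K D + 2, hR.trans hTK, by omega, fun _ _ => by omega, ?_, ?_⟩
      · intro u hu w hw huw
        obtain ⟨I, hI, -, h4, -, -⟩ := ear_gen h.disj (subset_refl D) (by simp) h.closed
          (fun x _ => h.deg x) hB h3 hc (hTK (hR hu)) (hTK (hR hw)) (hRi u hu w hw huw)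
        exact ⟨I, hI, by omega⟩
      · intro u hu
        rw [Finset.sum_const, Finset.card_erase_of_mem hu, smul_eq_mul, hRc]
        obtain ⟨a, ha⟩ := Nat.exists_eq_add_of_le hN
        obtain ⟨r, hr⟩ := Nat.exists_eq_add_of_le (show NN G K D + 1 ≤ d by omega)
        have e1 : NN G K D - 1 = a + 2 := by omega
        have e2 : d - NN G K D + 2 = r + 3 := by omega
        rw [e1, e2]
        nlinarith [Nat.zero_le (a * r)]
  · refine ⟨R, fun _ => 4, hR.trans hTK, by omega, fun _ _ => by omega, ?_, ?_⟩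
    · intro u hu w hw huw
      exact ow2_ear4 hB h3 (hRi u hu w hw huw)
    · intro u hu
      rw [Finset.sum_const, Finset.card_erase_of_mem hu, smul_eq_mul, hRc]
      omega

end Pool.Agent.BND
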