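import Pool.Agent.BND.EB2
import Pool.Agent.BND.GR2
import Pool.Agent.BND.GR3

/-!
# BND-PDE : data of an end piece

Let `(D, b)` be an end piece of the component `B` of `G - K` (`CC G K B d`, `EP G B D b`).

Case `D ⊆ ctrs G K D` (this includes `|D| = 1`: if `D = {y}`, `TT G K D ≠ ∅` because `y` has at most
one neighbour `b` in `B` and degree `≥ 3`, and every `u ∈ TT` has `att G D u = {y}`).
Take `R = TT G K D`, `f = 2`.  `d ≤ |R| + 1` by `TT_card_EP`, so `|R| ≥ 2` and
`2 d ≤ 2 |R| + 2`.  Ears exist by `exists_ear` (`D` connected) with `1 ≤ |I|`.  `out`: a path in `D`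
from a neighbour of `u` to a neighbour of `b`.  `typ`: first alternative.

Case `D ⊄ ctrs G K D`.  Then `|D| ≥ 2`, `insert b D` is `Bic` with at least 3 elements.
`N = NN G K D ≥ 2` by `two_le_NN_EP`.  `R`: representatives (`exists_reps`), `|R| = N`.
`f = min (max 3 (d + 1 - N)) (d - 1)`; `f ≥ 2` as `d ≥ 3`.
 * `prod`: if `f = d - 1`: `|R| f ≥ 2 (d - 1)`.  Otherwise `f = max 3 (d + 1 - N)`; if `N ≥ d`,
   `N f ≥ 3 d`; if `2 ≤ N ≤ d - 1`, `N (d + 1 - N) - 2 (d - 1) = (N - 2)(d - 1 - N) ≥ 0`.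
 * `ear` (and the second part of `typ`): `ear_gen` with `L = insert b D` gives for `u ≠ w ∈ R` an ear
   `I` in `insert b D` with `3 ≤ |I|` and `d + 1 - N ≤ |I|`, so `f ≤ |I|`.
 * `out`: `out_gen`: `2 ≤ |Q|`, `d - N ≤ |Q|` so `f ≤ |Q| + 1`.
 * `typ`: second alternative: if `f = d - 1`, `f + 1 = d`; otherwise `3 ≤ f` and `d + 1 ≤ f + N`.
Note: every neighbour of a vertex of `D` is in `insert b D` or in `K`.

`cross_ear`: two end pieces `(D₁, b₁)`, `(D₂, b₂)` of `B` with data.  For `u ∈ R₁`, `w ∈ R₂`, `u ≠ w`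
there is an ear through `B` from `u` to `w` of length at least `f₁ + f₂`.  Proof: `Q₁` from `u` to
`b₁` inside `D₁`, a path `P` (at least one vertex) from `b₁` to `b₂` in `B \ (D₁ ∪ D₂)`, which is
connected, and `Q₂` from `w` to `b₂` inside `D₂`: the ear is `Q₁ ++ P ++ Q₂.reverse`.
`|Q₁| + |P| + |Q₂| ≥ (f₁ - 1) + 1 + (f₂ - 1)`.
-/

set_option autoImplicit false
set_option linter.unusedSectionVars false

namespace Pool.Agent.BND

open Classical

variable {V : Type} [Fintype V] {G : SimpleGraph V} {K B D D₁ D₂ : Finset V} {d : ℕ}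
  {b b₁ b₂ : V}

theorem pd1_nl {N d f : ℕ} (h2 : 2 ≤ N) (hd : 3 ≤ d) (hf : f = min (max 3 (d + 1 - N)) (d - 1)) :
    2 * d ≤ N * f + 2 := by
  rcases Nat.le_total (max 3 (d + 1 - N)) (d - 1) with h1 | h1
  · rw [min_eq_left h1] at hf
    have h3 : 3 ≤ f := hf ▸ le_max_left _ _
    have h4 : d + 1 - N ≤ f := hf ▸ le_max_right _ _
    rcases Nat.lt_or_ge N d with h5 | h5
    · obtain ⟨a, rfl⟩ := Nat.exists_eq_add_of_le h2
      obtain ⟨r, rfl⟩ := Nat.exists_eq_add_of_le (show 2 + a + 1 ≤ d by omega)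
      have h6 : r + 2 ≤ f := by omega
      nlinarith [Nat.zero_le (a * r), Nat.mul_le_mul_left (2 + a) h6]
    · nlinarith
  · rw [min_eq_right h1] at hf
    have h3 : f + 1 = d := by omega
    nlinarith

/-- a single vertex is a centre -/
theorem pd1_single (h : CC G K B d) (hE : EP G B D b) (h1 : D.card = 1) : D ⊆ ctrs G K D := by
  obtain ⟨y, rfl⟩ := Finset.card_eq_one.1 h1
  have hyB : y ∈ B := hE.sub (Finset.mem_singleton_self y)
  have h2 : nb G y ⊆ insert b (K.filter (fun u => G.Adj y u)) := by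
    intro z hz
    have hz' : G.Adj y z := by simpa [nb] using hz
    rcases h.closed y hyB z hz' with h3 | h3
    · rcases hE.closed y (Finset.mem_singleton_self y) z h3 hz' with h4 | h4
      · rw [Finset.mem_singleton] at h4
        exact absurd hz' (h4 ▸ G.loopless.irrefl y)
      · rw [h4]
        exact Finset.mem_insert_self _ _
    · exact Finset.mem_insert_of_mem (Finset.mem_filter.2 ⟨h3, hz'⟩)
  have h3 := (Finset.card_le_card h2).trans (Finset.card_insert_le _ _)
  have h4 := h.deg y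
  have h5 := h.hd
  have h6 : (K.filter (fun u => G.Adj y u)).Nonempty := by
    rw [← Finset.card_pos]
    omega
  obtain ⟨u, hu⟩ := h6
  rw [Finset.mem_filter] at hu
  intro z hz
  rw [Finset.mem_singleton] at hz
  subst hz
  rw [ctrs, Finset.mem_filter]
  refine ⟨Finset.mem_singleton_self _, u, hu.1, ?_⟩
  rw [att, Finset.filter_singleton, if_pos hu.2.symm]

theorem exists_PD (h : CC G K B d) (hE : EP G B D b) : ∃ R f, PD G K D b d R f := by
  have hd := h.hd
  have hcl : ∀ x ∈ D, ∀ y, G.Adj x y → y ∈ insert b D ∨ y ∈ K := by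
    intro x hx y hxy
    rcases h.closed x (hE.sub hx) y hxy with h1 | h1
    · rcases hE.closed x hx y h1 hxy with h2 | h2
      · exact Or.inl (Finset.mem_insert_of_mem h2)
      · exact Or.inl (h2 ▸ Finset.mem_insert_self _ _)
    · exact Or.inr h1
  have hbK : b ∉ K := Finset.disjoint_left.1 h.disj hE.mem
  have hDK : Disjoint D K := Finset.disjoint_of_subset_left hE.sub h.disj
  by_cases hc : D ⊆ ctrs G K D
  · have h1 := TT_card_EP h hE hc
    refine ⟨TT G K D, 2, ?_⟩
    refine ⟨subset_rfl, by omega, le_rfl, by omega, by omega, ?_, ?_, Or.inl ⟨rfl, h1⟩⟩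
    · intro u hu w hw _
      obtain ⟨I, hI⟩ := exists_ear hE.conn hu hw
      exact ⟨I, hI.mono fun z hz => Finset.mem_insert_of_mem (hI.sub z hz), by
        have := hI.length_pos
        omega⟩
    · intro u hu
      obtain ⟨-, x, hx, hux⟩ := mem_TT.1 hu
      obtain ⟨y, hy, hyb⟩ := hE.adj
      obtain ⟨l, hl⟩ := hE.conn.2 x hx y hy
      have hI := hl.ear hux hyb
      exact ⟨l, hI, by
        have := hI.length_pos
        omega⟩
  · have hD1 : 1 ≤ D.card := Finset.card_pos.2 hE.conn.1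
    have hD2 : 2 ≤ D.card := by
      by_contra hcon
      exact hc (pd1_single h hE (by omega))
    have hB : Bic G (insert b D) := by
      rcases hE.bic with h1 | h1
      · omega
      · exact h1
    have hL3 : 3 ≤ (insert b D).card := by
      rw [Finset.card_insert_of_notMem hE.nmem]
      omega
    have hN := two_le_NN_EP h hE hD2
    obtain ⟨R, hR, hRc, hRi, -, -⟩ := exists_reps G K D
    have hdeg : ∀ x ∈ D, d ≤ (nb G x).card := fun x _ => h.deg x
    have hLK : Disjoint (insert b D) K := Finset.disjoint_insert_left.2 ⟨hbK, hDK⟩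
    have hLD : (insert b D \ D).card ≤ 1 := by
      have h1 : insert b D \ D ⊆ {b} := by
        intro z hz
        rw [Finset.mem_sdiff, Finset.mem_insert] at hz
        rcases hz.1 with h2 | h2
        · exact Finset.mem_singleton.2 h2
        · exact absurd h2 hz.2
      exact (Finset.card_le_card h1).trans (by simp)
    have hRK : ∀ u ∈ R, u ∈ K := fun u hu => (mem_TT.1 (hR hu)).1
    obtain ⟨f, hf⟩ : ∃ f, f = min (max 3 (d + 1 - NN G K D)) (d - 1) := ⟨_, rfl⟩
    have key : ∀ u ∈ R, ∀ w ∈ R, u ≠ w → ∃ I, Ear G (insert b D) u w I ∧ f ≤ I.length := by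
      intro u hu w hw huw
      obtain ⟨I, hI, h3, h4, -, -⟩ := ear_gen hLK (Finset.subset_insert _ _) hLD hcl hdeg hB hL3 hc
        (hRK u hu) (hRK w hw) (hRi u hu w hw huw)
      exact ⟨I, hI, by omega⟩
    refine ⟨R, f, hR, by omega, by omega, by omega, ?_, ?_, ?_, Or.inr ⟨by omega, key⟩⟩
    · rw [hRc]
      exact pd1_nl hN hd hf
    · intro u hu w hw huw
      obtain ⟨I, hI, h3⟩ := key u hu w hw huw
      exact ⟨I, hI, by omega⟩
    · intro u hu
      obtain ⟨Q, hQ, h3, h4⟩ := out_gen hE.nmem hbK hDK hcl hdeg hB hD2 hc (hR hu)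
      exact ⟨Q, hQ, by omega⟩

end Pool.Agent.BND
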