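import Pool.Agent.BND.P2b

/-!
# BND-PDE : data of an end piece

Let `(D, b)` be an end piece of the component `B` of `G - K` (`CC G K B d`, `EP G B D b`).

Case `D ⊆ ctrs G K D` (this includes `|D| = 1`: if `D = {y}`, `TT G K D ≠ ∅` because `y` has at most
one neighbour `b` in `B` and degree `≥ 3`, and every `u ∈ TT` has `att G D u = {y}`).
Take `R = TT G K D`, `f = 2`.  `d ≤ |R| + 1` by `TT_card_EP`, so `|R| ≥ 2` and
`2 d ≤ 2 |R| + 2`.  Ears exist by `exists_ear` (`D` connected) with `1 ≤ |I|`.  `out`: a path in `D`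
from a neighbour of `u` to a neighbour of `b`.  `typ`: first alternative.

Case `D ⊄ ctrs G K D`.  Then `|D| ≥ 2`, `insert b D` is `Bic` with at least 3 elements.
`N = NN G K D ≥ 2` by `two_le_NN_EP`.  `R`: representatives (`exists_reps`), `|R| = N`.
`f = min (max 3 (d + 1 - N)) (d - 1)`; `f ≥ 2` as `d ≥ 3`.
 * `prod`: if `f = d - 1`: `|R| f ≥ 2 (d - 1)`.  Otherwise `f = max 3 (d + 1 - N)`; if `N ≥ d`,
   `N f ≥ 3 d`; if `2 ≤ N ≤ d - 1`, `N (d + 1 - N) - 2 (d - 1) = (N - 2)(d - 1 - N) ≥ 0`.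
 * `ear` (and the second part of `typ`): `ear_gen` with `L = insert b D` gives for `u ≠ w ∈ R` an ear
   `I` in `insert b D` with `3 ≤ |I|` and `d + 1 - N ≤ |I|`, so `f ≤ |I|`.
 * `out`: `out_gen`: `2 ≤ |Q|`, `d - N ≤ |Q|` so `f ≤ |Q| + 1`.
 * `typ`: second alternative: if `f = d - 1`, `f + 1 = d`; otherwise `3 ≤ f` and `d + 1 ≤ f + N`.
Note: every neighbour of a vertex of `D` is in `insert b D` or in `K`.

`cross_ear`: two end pieces `(D₁, b₁)`, `(D₂, b₂)` of `B` with data.  For `u ∈ R₁`, `w ∈ R₂`, `u ≠ w`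
there is an ear through `B` from `u` to `w` of length at least `f₁ + f₂`.  Proof: `Q₁` from `u` to
`b₁` inside `D₁`, a path `P` (at least one vertex) from `b₁` to `b₂` in `B \ (D₁ ∪ D₂)`, which is
connected, and `Q₂` from `w` to `b₂` inside `D₂`: the ear is `Q₁ ++ P ++ Q₂.reverse`.
`|Q₁| + |P| + |Q₂| ≥ (f₁ - 1) + 1 + (f₂ - 1)`.
-/

set_option autoImplicit false
set_option linter.unusedSectionVars false

namespace Pool.Agent.BND

open Classical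

variable {V : Type} [Fintype V] {G : SimpleGraph V} {K B D D₁ D₂ : Finset V} {d : ℕ}
  {b b₁ b₂ : V}

theorem cross_ear (hm : Conn G (B \ (D₁ ∪ D₂))) (h1 : EP G B D₁ b₁) (h2 : EP G B D₂ b₂)
    (hd : Disjoint D₁ D₂) (h12 : b₁ ∉ D₂) (h21 : b₂ ∉ D₁) {R₁ R₂ : Finset V} {f₁ f₂ : ℕ}
    (hP1 : PD G K D₁ b₁ d R₁ f₁) (hP2 : PD G K D₂ b₂ d R₂ f₂) {u w : V} (hu : u ∈ R₁)
    (hw : w ∈ R₂) : ∃ I, Ear G B u w I ∧ f₁ + f₂ ≤ I.length + 1 := by
  obtain ⟨Q₁, hQ1, hf1⟩ := hP1.out u hu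
  obtain ⟨Q₂, hQ2, hf2⟩ := hP2.out w hw
  have m1 : b₁ ∈ B \ (D₁ ∪ D₂) := by
    rw [Finset.mem_sdiff, Finset.mem_union, not_or]
    exact ⟨h1.mem, h1.nmem, h12⟩
  have m2 : b₂ ∈ B \ (D₁ ∪ D₂) := by
    rw [Finset.mem_sdiff, Finset.mem_union, not_or]
    exact ⟨h2.mem, h21, h2.nmem⟩
  obtain ⟨P, hP⟩ := hm.2 b₁ m1 b₂ m2
  obtain ⟨x₁, y₁, p1, a1, c1⟩ := hQ1.pth
  obtain ⟨x₂, y₂, p2, a2, c2⟩ := hQ2.pth
  have q1 : Pth G B x₁ y₁ Q₁ := p1.mono fun z hz => h1.sub (p1.sub z hz)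
  have q2 : Pth G B y₂ x₂ Q₂.reverse :=
    (p2.mono fun z hz => h2.sub (p2.sub z hz)).reverse
  have q : Pth G B b₁ b₂ P := hP.mono fun z hz => (Finset.mem_sdiff.1 (hP.sub z hz)).1
  have r1 : Pth G B x₁ b₂ (Q₁ ++ P) := pth_append q1 q c1 fun z hz hz' =>
    (Finset.mem_sdiff.1 (hP.sub z hz')).2 (Finset.mem_union_left _ (p1.sub z hz))
  have r2 : Pth G B x₁ x₂ ((Q₁ ++ P) ++ Q₂.reverse) := pth_append r1 q2 c2.symm fun z hz hz' => by
    rw [List.mem_reverse] at hz'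
    rcases List.mem_append.1 hz with h3 | h3
    · exact Finset.disjoint_left.1 hd (p1.sub z h3) (p2.sub z hz')
    · exact (Finset.mem_sdiff.1 (hP.sub z h3)).2 (Finset.mem_union_right _ (p2.sub z hz'))
  refine ⟨_, r2.ear a1 a2.symm, ?_⟩
  have h3 : 1 ≤ P.length := List.length_pos_iff.2 hP.ne_nil
  simp only [List.length_append, List.length_reverse]
  omega

end Pool.Agent.BND
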