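import Pool.Agent.BND.P2b

/-!
# BND-ST : end pieces of a connected set with a cut vertex

`one_end_piece`: let `B` be connected, `z ∈ B`, `X` a component of `B - z`, and suppose
`insert z X ≠ B`.  Then there is an end piece `(D, b)` of `B` with `D ⊆ X` and `b ∈ insert z X`.
Proof: consider all pairs `(D, b)` with `D ⊆ X`, `b ∈ insert z X`, `b ∉ D`, `D` a component of
`B - b` (`Comp G (B.erase b) D`).  `(X, z)` is one.  Choose one with `|D|` minimal.
`D` is connected, neighbours in `B` of vertices of `D` are in `D ∪ {b}`, and `D` is adjacent to `b`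
(`Comp.exists_adj`).  It remains to see that `|D| = 1` or `insert b D` is `Bic`.  Let `|D| ≥ 2`.
`insert b D` is connected; `(insert b D) - b = D` is connected.  Let `y ∈ D` and suppose that
`(insert b D) - y` is not connected.  Then it has a component `Y` not containing `b` (two different
components cannot both contain `b`).  `Y ⊆ D - y`, and the neighbours in `B` of a vertex of `Y` are
in `D ∪ {b}`, so in `Y ∪ {y}` (`Y` is a component of `(insert b D) - y`), hence `Y` is a component
of `B - y`, `Y ⊆ X`, `y ∈ X`, and `|Y| < |D|`: contradiction to minimality.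

`two_end_pieces`: by `not_bic_exists_cut` there are `z` and disjoint components `X, Y` of `B - z`.
Use `one_end_piece` in `X` and in `Y`.  `b₁ ∈ insert z X`, `D₂ ⊆ Y`, so `b₁ ∉ D₂`, etc.

`middle_conn`: `B \ (D₁ ∪ D₂)` is connected: `D₁` is a component of `B - b₁` so `B \ D₁` is connected
(`comp_conn_sdiff`); `D₂` is a component of `(B \ D₁) - b₂` (`b₂ ∈ B \ D₁`).
-/

set_option autoImplicit false
set_option linter.unusedSectionVars false

namespace Pool.Agent.BND

open Classical

variable {V : Type} [Fintype V] {G : SimpleGraph V} {B D₁ D₂ X : Finset V} {z b₁ b₂ : V}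

theorem st_comp_of_ep {B D : Finset V} {b : V} (h : EP G B D b) : Comp G (B.erase b) D := by
  refine ⟨?_, h.conn, ?_⟩
  · intro x hx
    rw [Finset.mem_erase]
    refine ⟨?_, h.sub hx⟩
    rintro rfl
    exact h.nmem hx
  · intro x hx y hy hadj
    rw [Finset.mem_erase] at hy
    rcases h.closed x hx y hy.2 hadj with h1 | h1
    · exact h1
    · exact absurd h1 hy.1

theorem one_end_piece (h : Conn G B) (hz : z ∈ B) (hX : Comp G (B.erase z) X) :
    ∃ D b, EP G B D b ∧ D ⊆ X ∧ b ∈ insert z X := by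
  have hXB : X ⊆ B := hX.1.trans (Finset.erase_subset _ _)
  have hzX : z ∉ X := fun hh => by
    have := hX.1 hh
    rw [Finset.mem_erase] at this
    exact this.1 rfl
  have hiB : insert z X ⊆ B := by
    intro y hy
    rw [Finset.mem_insert] at hy
    rcases hy with rfl | hy
    · exact hz
    · exact hXB hy
  let P : Finset V → Prop := fun D => D ⊆ X ∧ ∃ b, b ∈ insert z X ∧ b ∉ D ∧ Comp G (B.erase b) D
  have hne : (Finset.univ.filter P).Nonempty :=
    ⟨X, by
      rw [Finset.mem_filter]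
      exact ⟨Finset.mem_univ _, Finset.Subset.refl _, z, Finset.mem_insert_self _ _, hzX, hX⟩⟩
  obtain ⟨D, hD, hmin⟩ := Finset.exists_min_image (Finset.univ.filter P) Finset.card hne
  rw [Finset.mem_filter] at hD
  obtain ⟨-, hDX, b, hb, hbD, hDc⟩ := hD
  have hbB : b ∈ B := hiB hb
  have hcl : ∀ x ∈ D, ∀ y ∈ B, G.Adj x y → y ∈ D ∨ y = b := by
    intro x hx y hy hadj
    by_cases hyb : y = b
    · exact Or.inr hyb
    · exact Or.inl (hDc.2.2 x hx y (Finset.mem_erase.2 ⟨hyb, hy⟩) hadj)
  refine ⟨D, b, ⟨hDX.trans hXB, hbB, hbD, hDc.2.1, hcl, Comp.exists_adj h hbB hDc, ?_⟩, hDX, hb⟩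
  by_cases h1 : D.card = 1
  · exact Or.inl h1
  right
  have hDne : D.Nonempty := hDc.2.1.1
  have hcard : (insert b D).card = D.card + 1 := Finset.card_insert_of_notMem hbD
  have hDpos : 0 < D.card := Finset.card_pos.2 hDne
  refine ⟨by omega, comp_conn_insert h hbB hDc, ?_⟩
  intro y hy
  by_cases hyb : y = b
  · subst hyb
    rw [Finset.erase_insert hbD]
    exact hDc.2.1
  have hyD : y ∈ D := by
    rw [Finset.mem_insert] at hy
    exact hy.resolve_left hyb
  by_contra hnc
  have hbS : b ∈ (insert b D).erase y :=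
    Finset.mem_erase.2 ⟨fun hh => hyb hh.symm, Finset.mem_insert_self _ _⟩
  obtain ⟨X0, hX0, hbX0⟩ := exists_comp (G := G) hbS
  have hX0S : X0 ≠ (insert b D).erase y := by
    intro hh
    apply hnc
    rw [← hh]
    exact hX0.2.1
  obtain ⟨w, hwS, hwX0⟩ : ∃ w ∈ (insert b D).erase y, w ∉ X0 := by
    by_contra hcon
    push Not at hcon
    exact hX0S (Finset.Subset.antisymm hX0.1 hcon)
  obtain ⟨Y, hY, hwY⟩ := exists_comp (G := G) hwS
  have hdis : Disjoint Y X0 := by
    rcases Comp.eq_or_disjoint hY hX0 with h2 | h2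
    · rw [h2] at hwY
      exact absurd hwY hwX0
    · exact h2
  have hbY : b ∉ Y := fun hh => (Finset.disjoint_left.1 hdis hh) hbX0
  have hyY : y ∉ Y := fun hh => by
    have := hY.1 hh
    rw [Finset.mem_erase] at this
    exact this.1 rfl
  have hYD : Y ⊆ D := by
    intro u hu
    have h3 := hY.1 hu
    rw [Finset.mem_erase, Finset.mem_insert] at h3
    rcases h3.2 with h4 | h4
    · rw [h4] at hu
      exact absurd hu hbY
    · exact h4
  have hlt : Y.card < D.card := by
    apply Finset.card_lt_card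
    rw [Finset.ssubset_iff_subset_ne]
    refine ⟨hYD, ?_⟩
    intro hh
    rw [hh] at hyY
    exact hyY hyD
  have hYc : Comp G (B.erase y) Y := by
    refine ⟨?_, hY.2.1, ?_⟩
    · intro u hu
      rw [Finset.mem_erase]
      refine ⟨?_, hXB (hDX (hYD hu))⟩
      rintro rfl
      exact hyY hu
    · intro u hu c hc hadj
      rw [Finset.mem_erase] at hc
      have h5 : c ∈ (insert b D).erase y := by
        rw [Finset.mem_erase, Finset.mem_insert]
        refine ⟨hc.1, ?_⟩
        rcases hcl u (hYD hu) c hc.2 hadj with h6 | h6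
        · exact Or.inr h6
        · exact Or.inl h6
      exact hY.2.2 u hu c h5 hadj
  have hYP : Y ∈ Finset.univ.filter P := by
    rw [Finset.mem_filter]
    exact ⟨Finset.mem_univ _, hYD.trans hDX, y, Finset.mem_insert_of_mem (hDX hyD), hyY, hYc⟩
  have := hmin Y hYP
  omega

theorem two_end_pieces (h : Conn G B) (h2 : 2 ≤ B.card) (hb : ¬ Bic G B) :
    ∃ D₁ b₁ D₂ b₂, EP G B D₁ b₁ ∧ EP G B D₂ b₂ ∧ Disjoint D₁ D₂ ∧ b₁ ∉ D₂ ∧ b₂ ∉ D₁ := by
  obtain ⟨z, hz, X, Y, hX, hY, hd⟩ := not_bic_exists_cut h h2 hb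
  obtain ⟨D₁, b₁, hE1, hD1, hb1⟩ := one_end_piece h hz hX
  obtain ⟨D₂, b₂, hE2, hD2, hb2⟩ := one_end_piece h hz hY
  have hzX : z ∉ X := fun hh => by
    have := hX.1 hh
    rw [Finset.mem_erase] at this
    exact this.1 rfl
  have hzY : z ∉ Y := fun hh => by
    have := hY.1 hh
    rw [Finset.mem_erase] at this
    exact this.1 rfl
  refine ⟨D₁, b₁, D₂, b₂, hE1, hE2, ?_, ?_, ?_⟩
  · exact Finset.disjoint_of_subset_left hD1 (Finset.disjoint_of_subset_right hD2 hd)
  · intro hh
    rw [Finset.mem_insert] at hb1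
    rcases hb1 with h3 | h3
    · rw [h3] at hh
      exact hzY (hD2 hh)
    · exact (Finset.disjoint_left.1 hd h3) (hD2 hh)
  · intro hh
    rw [Finset.mem_insert] at hb2
    rcases hb2 with h3 | h3
    · rw [h3] at hh
      exact hzX (hD1 hh)
    · exact (Finset.disjoint_right.1 hd h3) (hD1 hh)

theorem middle_conn (h : Conn G B) (h1 : EP G B D₁ b₁) (h2 : EP G B D₂ b₂)
    (hd : Disjoint D₁ D₂) (h12 : b₁ ∉ D₂) (h21 : b₂ ∉ D₁) :
    Conn G (B \ (D₁ ∪ D₂)) := by
  have hc1 := st_comp_of_ep h1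
  have h3 : Conn G (B \ D₁) := comp_conn_sdiff h h1.mem hc1
  have hb2 : b₂ ∈ B \ D₁ := Finset.mem_sdiff.2 ⟨h2.mem, h21⟩
  have hc2 : Comp G ((B \ D₁).erase b₂) D₂ := by
    refine ⟨?_, h2.conn, ?_⟩
    · intro x hx
      rw [Finset.mem_erase, Finset.mem_sdiff]
      refine ⟨?_, h2.sub hx, Finset.disjoint_right.1 hd hx⟩
      rintro rfl
      exact h2.nmem hx
    · intro x hx y hy hadj
      rw [Finset.mem_erase, Finset.mem_sdiff] at hy
      rcases h2.closed x hx y hy.2.1 hadj with h4 | h4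
      · exact h4
      · exact absurd h4 hy.1
  have h5 := comp_conn_sdiff h3 hb2 hc2
  rwa [sdiff_sdiff_left] at h5

end Pool.Agent.BND
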