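import Pool.Agent.BND.OW1
import Pool.Agent.BND.OW2
import Pool.Agent.BND.PD1
import Pool.Agent.BND.PD2
import Pool.Agent.BND.ST

/-!
# BND-OW : ownership data (unsigned counting) for every component `D` of `G - K`

`Own G K D d P own`: for `u ≠ w` in `P` there is an ear through `D` between them of length at least
`own u` (by symmetry also one of length at least `own w`), and for every `u ∈ P` the sum of `own` over
`P - u` is at least `2 (d - 1)`.

`own_single` (`D = {y}`): `P = ` neighbours of `y` in `K` (all its neighbours), `own = 2`; the ear is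
`[y]`. `|P| ≥ d`, so the sum over `P - u` is `≥ 2 (d - 1)`.

`own_pair` (`D = {x, y}`, `x ~ y` because `D` is connected).  `P = TT G K D`,
`own u = 3` if `u` is adjacent to both (a hub), `own u = 2` otherwise.  Ears: if `u` is a hub and
`w ∈ P`, `w` is adjacent to `x`, say: the ear `[y, x]` from `u` to `w` has length 3.  Otherwise
`exists_ear` gives an ear with length at least 2.
Let `h` = number of hubs, `a`, `b` = numbers of vertices of `K` adjacent to `x` only / to `y` only.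
`h + a ≥ d - 1`, `h + b ≥ d - 1`, `h + a + b ≥ 3` (`three_le_TT`).  The sum over `P - u` is at least
`3 h + 2 a + 2 b - 3`, and we need `≥ 2 d - 2`, i.e. `3h + 2a + 2b ≥ 2d + 1`.
If `h ≥ d`: `3 d ≥ 2 d + 1`.  If `h = d - 1`: `3 d - 3 + 2(a + b) ≥ 2 d + 1` iff `d + 2(a + b) ≥ 4`: true
if `d ≥ 4`, and if `d = 3` then `a + b ≥ 1` as `h + a + b ≥ 3`.  If `h ≤ d - 2`: `a, b ≥ d - 1 - h`, so
`3h + 4(d - 1 - h) = 4 d - 4 - h ≥ 3 d - 2 ≥ 2 d + 1`.

`own_bic` (`D` is `Bic`, `|D| ≥ 3`).  `N = NN ≥ 3` (`three_le_NN`).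
 (i) `N ≥ d`: `P = R` representatives, `own = 4`; ears of length `≥ 4` between independent vertices:
 `Bic.long_pth`.  Sum `≥ 4 (N - 1) ≥ 2 d - 2`.
 (ii) `N ≤ d - 1`, `D ⊄ ctrs`: `P = R`, `own = d - N + 2`: `ear_gen` (`L = D`):
 `d + 1 ≤ |I| + N`.  `(N - 1)(d - N + 2) ≥ 2 (d - 1)` for `3 ≤ N ≤ d - 1`: write `N = 3 + t`,
 `d = N + 1 + r`, `t, r ≥ 0`; the difference is
 `(2 + t)(r + 3) - 2 (3 + t + r) = t r + t ≥ 0`.
 (iii) `N ≤ d - 1`, `D ⊆ ctrs` (so `ctrs = D`): `P = TT`, `own = 4` for hubs, `2` for the others.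
 Between a hub and another vertex of `TT` there is an ear of length `≥ 4` (they are independent).
 With `h` hubs, `β = |D| ≥ 3`, `N = h + β`, and each cluster has at least `m = d + 1 - N ≥ 2` elements
 (`cluster_card`).  By `TT_card` the sum over `P - u` is at least `4 h + 2 β m - 4`, and
 `2 d - 2 = 2 (h + β + m - 1) - 2 = 2h + 2β + 2m - 4`; fine since `β m ≥ β + m` (`β, m ≥ 2`).

`own_cut` (`D` connected, not `Bic`, `|D| ≥ 2`).  Two end pieces with data `(R₁, f₁)`, `(R₂, f₂)`.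
`P = R₁ ∪ R₂`, `own u = [u ∈ R₁] f₁ + [u ∈ R₂] f₂`.  Ears for `u ≠ w`:
 `u ∈ R₁ \ R₂`: `w ∈ R₁`: `PD.ear`; `w ∈ R₂`: `cross_ear`.  Similarly `u ∈ R₂ \ R₁`.
 `u ∈ R₁ ∩ R₂`: `w ∈ R₁`: `cross_ear` (with `u ∈ R₂`, reversed); `w ∈ R₂`: `cross_ear`.
 Sum over `P - u` is at least `(|R₁| - 1) f₁ + (|R₂| - 1) f₂` and
 `(|Rᵢ| - 1) fᵢ = |Rᵢ| fᵢ - fᵢ ≥ 2(d - 1) - (d - 1)`.
-/

set_option autoImplicit false
set_option linter.unusedSectionVars false

namespace Pool.Agent.BND

open Classical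

variable {V : Type} [Fintype V] {G : SimpleGraph V} {K D : Finset V} {d : ℕ}

theorem ow3_sum {R P : Finset V} {f d : ℕ} {u : V} (hRP : R ⊆ P) (hp : 2 * d ≤ R.card * f + 2)
    (hf : f + 1 ≤ d) : d ≤ (∑ w ∈ P.erase u, if w ∈ R then f else 0) + 1 := by
  have h1 : (R.erase u).card * f ≤ ∑ w ∈ P.erase u, if w ∈ R then f else 0 := by
    have h2 : ∑ w ∈ R.erase u, (if w ∈ R then f else 0) = (R.erase u).card * f := by
      rw [Finset.sum_congr rfl (g := fun _ => f), Finset.sum_const, smul_eq_mul]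
      intro w hw
      rw [if_pos (Finset.mem_of_mem_erase hw)]
    rw [← h2]
    exact Finset.sum_le_sum_of_subset (Finset.erase_subset_erase _ hRP)
  have h3 : R.card ≤ (R.erase u).card + 1 := by
    have := Finset.pred_card_le_card_erase (s := R) (a := u)
    omega
  have h4 : R.card * f ≤ ((R.erase u).card + 1) * f := Nat.mul_le_mul_right f h3
  rw [add_mul, one_mul] at h4
  omega

theorem own_cut (h : CC G K D d) (h2 : 2 ≤ D.card) (hB : ¬ Bic G D) :
    ∃ P own, Own G K D d P own := by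
  obtain ⟨D₁, b₁, D₂, b₂, e1, e2, hdis, h12, h21⟩ := two_end_pieces h.conn h2 hB
  have hm := middle_conn h.conn e1 e2 hdis h12 h21
  obtain ⟨R₁, f₁, p1⟩ := exists_PD h e1
  obtain ⟨R₂, f₂, p2⟩ := exists_PD h e2
  have i1 : insert b₁ D₁ ⊆ D := Finset.insert_subset e1.mem e1.sub
  have i2 : insert b₂ D₂ ⊆ D := Finset.insert_subset e2.mem e2.sub
  have t1 := p1.two
  have t2 := p1.f2
  have t3 := p2.f2
  refine ⟨R₁ ∪ R₂, fun u => (if u ∈ R₁ then f₁ else 0) + (if u ∈ R₂ then f₂ else 0), ?_, ?_, ?_, ?_,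
    ?_⟩
  · intro u hu
    rcases Finset.mem_union.1 hu with h1 | h1
    · exact (mem_TT.1 (p1.sub h1)).1
    · exact (mem_TT.1 (p2.sub h1)).1
  · exact t1.trans (Finset.card_le_card Finset.subset_union_left)
  · intro u hu
    show 1 ≤ (if u ∈ R₁ then f₁ else 0) + (if u ∈ R₂ then f₂ else 0)
    rcases Finset.mem_union.1 hu with h1 | h1
    · rw [if_pos h1]
      omega
    · rw [if_pos h1]
      omega
  · intro u hu w hw huw
    show ∃ I, Ear G D u w I ∧ (if u ∈ R₁ then f₁ else 0) + (if u ∈ R₂ then f₂ else 0) ≤ I.length + 1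
    rw [Finset.mem_union] at hu hw
    by_cases u1 : u ∈ R₁
    · by_cases w2 : w ∈ R₂
      · obtain ⟨I, hI, hl⟩ := cross_ear hm e1 e2 hdis h12 h21 p1 p2 u1 w2
        refine ⟨I, hI, ?_⟩
        rw [if_pos u1]
        split_ifs <;> omega
      · have w1 : w ∈ R₁ := hw.resolve_right w2
        by_cases u2 : u ∈ R₂
        · obtain ⟨I, hI, hl⟩ := cross_ear hm e1 e2 hdis h12 h21 p1 p2 w1 u2
          refine ⟨I.reverse, hI.reverse, ?_⟩
          rw [if_pos u1, if_pos u2, List.length_reverse]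
          exact hl
        · obtain ⟨I, hI, hl⟩ := p1.ear u u1 w w1 huw
          refine ⟨I, hI.mono fun z hz => i1 (hI.sub z hz), ?_⟩
          rw [if_pos u1, if_neg u2]
          omega
    · have u2 : u ∈ R₂ := hu.resolve_left u1
      by_cases w1 : w ∈ R₁
      · obtain ⟨I, hI, hl⟩ := cross_ear hm e1 e2 hdis h12 h21 p1 p2 w1 u2
        refine ⟨I.reverse, hI.reverse, ?_⟩
        rw [if_neg u1, if_pos u2, List.length_reverse]
        omega
      · have w2 : w ∈ R₂ := hw.resolve_left w1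
        obtain ⟨I, hI, hl⟩ := p2.ear u u2 w w2 huw
        refine ⟨I, hI.mono fun z hz => i2 (hI.sub z hz), ?_⟩
        rw [if_neg u1, if_pos u2]
        omega
  · intro u _
    show 2 * d ≤ (∑ w ∈ (R₁ ∪ R₂).erase u,
      ((if w ∈ R₁ then f₁ else 0) + (if w ∈ R₂ then f₂ else 0))) + 2
    rw [Finset.sum_add_distrib]
    have s1 := ow3_sum (u := u) (Finset.subset_union_left (s₁ := R₁) (s₂ := R₂)) p1.prod p1.fd
    have s2 := ow3_sum (u := u) (Finset.subset_union_right (s₁ := R₁) (s₂ := R₂)) p2.prod p2.fd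
    omega

/-- assembly: cases `|D| = 1`, `|D| = 2`, `|D| ≥ 3` and `Bic` or not. -/
theorem own_exists (h : CC G K D d) : ∃ P own, Own G K D d P own := by
  have h0 : 1 ≤ D.card := Finset.card_pos.2 h.conn.1
  rcases Nat.lt_or_ge D.card 2 with h1 | h1
  · obtain ⟨y, rfl⟩ := Finset.card_eq_one.1 (show D.card = 1 by omega)
    exact own_single h
  · by_cases hB : Bic G D
    · rcases Nat.lt_or_ge D.card 3 with h3 | h3
      · obtain ⟨x, y, hxy, rfl⟩ := Finset.card_eq_two.1 (show D.card = 2 by omega)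
        exact own_pair hxy h
      · exact own_bic h hB h3
    · exact own_cut h h1 hB

end Pool.Agent.BND
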