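import Pool.Agent.BND.L1a
import Pool.Agent.BND.L1c
import Pool.Agent.BND.OW3

/-!
# BND-L1 : the outside of a longest `τ`-cycle is connected

`GA G v c D` (good arcs): there are two edge disjoint arcs `v i … v j` and `v k … v l` of the cycle,
each shorter than some ear through `D` with the same ends.

`good_arcs`: ownership data give `GA`.  Call `u ∈ P` bad if, `u = v p`, some element `w ≠ u` of `P` has
a position `q` with `p < q < p + own u`.  (a) If at most one element of `P` is bad: let `u₀` be an
element of `P` such that all others are not bad.  For `u = v p ∈ P`, `u ≠ u₀` the positions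
`p, p+1, …, p + own u - 1` and the position of `u₀` are pairwise distinct modulo `c` (for different
`u, u' ∈ P \ {u₀}`: if `p + j ≡ p' + j'` with `j < own u`, `j' < own u'`, say `j ≥ j'`, then
`p' ≡ p + (j - j')` and `u` would be bad, `j - j' > 0` as `u ≠ u'`; within one `u`: `own u ≤ c`, since
otherwise `u` would be bad because of any other element of `P` (`|P| ≥ 2`);
position of `u₀`: not in `[p, p + own u)` as `u` is not bad).  So
`c ≥ 1 + ∑_{u ≠ u₀} own u ≥ 1 + (2 d - 2)`, contradiction to `c + 2 ≤ 2 d`.
(b) So there are two distinct bad elements `u = v p`, `u' = v p'` with `p < p' < p + c`.  Let `j > p`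
be the smallest position `> p` of an element of `P` different from `u` (so `j < p + own u`,
`j < p + c`), and `l > p'` the smallest position `> p'` of an element of `P` different from `u'`.
Then `j ≤ p'`, `l ≤ p + c`.  The arcs `(p, j)` and `(p', l)` are good: there is an ear
through `D` from `u` to `v j` of length at least `own u > j - p`.

`two_comps`: let `D`, `D'` be disjoint sets outside the cycle, both with `GA`.  Contradiction.
Two good arcs `I = [i, j]` (for `D`), `J = [k, l]` (for `D'`) which are not nested give a longer
`τ`-cycle (`arcs_false`).  By `su1`, the sign of an ear over a good arc is the sign of the arc plus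
one.  The ears are disjoint since `D`, `D'` are.  After a rotation `i < k < i + c` (equal starting
points would mean nested), `i < j < i + c`, `k < l < k + c`; `J ⊄ I` means `j < l` and `I ⊄ J` means
`l < j + c` (the arc `[i + c, j + c]` is not contained in `[k, l]`).  Cases:
 (1) `j ≤ k`, `l ≤ i + c` (edge disjoint): `su2par` gives
   `sgn Q + sgn Q' = (s j - s i) + (s l - s k) + 1`, but `su1` twice gives
   `sgn Q + sgn Q' = (s j - s i) + (s l - s k) + 1 + 1`.  Contradiction.
 (2) `k < j`, `l ≤ i + c` (crossing): apply `su2cross` with the positions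
   `i < k < j < l ≤ i + c`: the ears are `v i – v j`, `v k – v l`, the removed arcs are `[i, k]`,
   `[j, l]`, `(k - i) + (l - j) ≤ (j - i) + (l - k) < |Q| + |Q'|`.  Signs: `s j - s i + s l - s k` is
   equal to `s k - s i + s l - s j` in `ZMod 2`.
 (3) `j ≤ k`, `i + c < l` (crossing, roles exchanged): positions `k < i + c < l < j + c ≤ k + c`,
   `su2cross` with the ears `Q'` (from `v k` to `v l`) and `Q` (from `v (i + c)` to `v (j + c)`).
 (4) `k < j`, `i + c < l` (double overlap).  Then `i < l - c < k < j < i + c`.
   Remove `[l - c, k]` and `[j, i + c]`: apply `su2par` with the positions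
   `l - c < k < j < i + c ≤ (l - c) + c`, the ears being `Q'` reversed (from `v (l - c)` to `v k`) and
   `Q` reversed (from `v j` to `v (i + c)`).  Length condition:
   `k - (l - c) ≤ j - i` and `i + c - j ≤ l - k`.  Signs: `s (i + c) = s i + τ`,
   `s l = s (l - c) + τ`.
Choice of a non-nested pair: let `I₁, I₂` be the two good arcs for `D` and `J₁, J₂` those for `D'`
(edge disjoint pairs).  `I₁` is not contained in both `J₁` and `J₂`; say `I₁ ⊄ J₁`.  If `J₁ ⊄ I₁`,
take `(I₁, J₁)`.  Otherwise `J₁ ⊆ I₁`, so `J₁` is edge disjoint from `I₂`: take `(I₂, J₁)`.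

`conn_Bs`: if the outside `Bs v c` is not connected it has (nonempty, `two_le_card_Bs`) two distinct
components `D`, `D'`; each satisfies `CC G (Cs v c) D d`, so has ownership data, so `GA`.
-/

set_option autoImplicit false
set_option linter.unusedSectionVars false

namespace Pool.Agent.BND

open Classical

variable {V : Type} [Fintype V]
variable {G : SimpleGraph V} {ε : V → V → ZMod 2} {τ : ZMod 2} {d c : ℕ} {v : ℤ → V}
  {s : ℤ → ZMod 2}

theorem Ctx.cc (h : Ctx G ε τ d c v s) {D : Finset V} (hD : Comp G (Bs v c) D) :
    CC G (Cs v c) D d := by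
  refine ⟨h.k3, h.hd, h.deg, by rw [card_Cs h]; exact h.three, ?_, hD.2.1, ?_⟩
  · rw [Finset.disjoint_left]
    intro x hx hxC
    have := hD.1 hx
    rw [Bs, Finset.mem_compl] at this
    exact this hxC
  · intro x hx y hxy
    by_cases hy : y ∈ Cs v c
    · exact Or.inr hy
    · left
      exact hD.2.2 x hx y (by rw [Bs, Finset.mem_compl]; exact hy) hxy

theorem conn_Bs (h : Ctx G ε τ d c v s) : Conn G (Bs v c) := by
  by_contra hn
  have h2 := two_le_card_Bs h
  have hne : (Bs v c).Nonempty := Finset.card_pos.mp (by omega)
  obtain ⟨x, hx⟩ := hne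
  obtain ⟨D, hD, hxD⟩ := exists_comp (G := G) hx
  have hDne : D ≠ Bs v c := by
    rintro rfl
    exact hn hD.2.1
  obtain ⟨y, hy, hyD⟩ : ∃ y ∈ Bs v c, y ∉ D := by
    by_contra hcon
    push Not at hcon
    exact hDne (Finset.Subset.antisymm hD.1 hcon)
  obtain ⟨D', hD', hyD'⟩ := exists_comp (G := G) hy
  have hdis : Disjoint D D' := by
    rcases hD.eq_or_disjoint hD' with h' | h'
    · exact absurd (h' ▸ hyD') hyD
    · exact h'
  obtain ⟨P, own, ho⟩ := own_exists (h.cc hD)
  obtain ⟨P', own', ho'⟩ := own_exists (h.cc hD')
  exact two_comps h hD.1 hD'.1 hdis (good_arcs h ho) (good_arcs h ho')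

end Pool.Agent.BND
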