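import Pool.Agent.BND.P4c

/-!
# BND-P4 : the cycle in positions

`Ctx G ε τ d c v s` gives the closed cycle as a `c`-periodic map `v : ℤ → V` together with the
potential `s : ℤ → ZMod 2`.  `fw v i n` lists `v i, …, v (i+n-1)`, `bw v i n` lists
`v i, v (i-1), …, v (i-n+1)`.
-/

set_option autoImplicit false
set_option linter.unusedSectionVars false

namespace Pool.Agent.BND

open Classical

variable {V : Type} [Fintype V]
variable {G : SimpleGraph V} {ε : V → V → ZMod 2} {τ : ZMod 2} {d c : ℕ} {v : ℤ → V}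
  {s : ℤ → ZMod 2}

theorem p4d_swap {a b e : ZMod 2} (h : a = b + e) : b = a + e := by
  rw [h, add_assoc, CharTwo.add_self_eq_zero, add_zero]

/-- reversing the orientation of the cycle -/
theorem Ctx.rev (h : Ctx G ε τ d c v s) :
    Ctx G ε τ d c (fun i => v (-i)) (fun i => s (-i)) where
  symm := h.symm
  k3 := h.k3
  hd := h.hd
  deg := h.deg
  card := h.card
  three := h.three
  hc := h.hc
  adj i := by
    have h1 := h.adj' (-(i + 1))
    rwa [show -(i + 1) + 1 = -i by ring] at h1
  inj i j := by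
    change v (-i) = v (-j) ↔ _
    rw [h.inj, show -i - -j = -(i - j) by ring, dvd_neg]
  pot i := by
    change s (-(i + 1)) = s (-i) + ε (v (-i)) (v (-(i + 1)))
    have h1 := h.pot (-(i + 1))
    rw [show -(i + 1) + 1 = -i by ring, h.symm] at h1
    exact p4d_swap h1
  per i := by
    change s (-(i + c)) = s (-i) + τ
    have h1 := h.per (-(i + c))
    rw [show -(i + (c : ℤ)) + c = -i by ring] at h1
    exact p4d_swap h1
  max := h.max

theorem Cs_rev (h : Ctx G ε τ d c v s) : Cs (fun i => v (-i)) c = Cs v c := by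
  ext x
  rw [mem_Cs h.rev, mem_Cs h]
  constructor
  · rintro ⟨i, hi⟩
    exact ⟨-i, hi⟩
  · rintro ⟨i, hi⟩
    exact ⟨-i, by rw [neg_neg]; exact hi⟩

theorem Bs_rev (h : Ctx G ε τ d c v s) : Bs (fun i => v (-i)) c = Bs v c := by
  unfold Bs
  rw [Cs_rev h]

theorem Tp_rev (h : Ctx G ε τ d c v s) (i : ℤ) : Tp G (fun i => v (-i)) c i ↔ Tp G v c (-i) := by
  unfold Tp
  rw [Bs_rev h]

theorem NCtx.rev (h : NCtx G ε τ d c v s) :
    NCtx G ε τ d c (fun i => v (-i)) (fun i => s (-i)) where
  toCtx := h.toCtx.rev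
  conn := by
    rw [Bs_rev h.toCtx]
    exact h.conn
  bz := by
    rw [Bs_rev h.toCtx]
    exact h.bz

/-- switching -/
theorem Ctx.switch (h : Ctx G ε τ d c v s) (lam : V → ZMod 2) :
    Ctx G (fun x y => ε x y + lam x + lam y) τ d c v (fun i => s i + lam (v i)) where
  symm x y := by
    change ε x y + lam x + lam y = ε y x + lam y + lam x
    rw [h.symm x y]
    ring
  k3 := h.k3
  hd := h.hd
  deg := h.deg
  card := h.card
  three := h.three
  hc := h.hc
  adj := h.adj
  inj := h.inj
  pot i := by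
    change s (i + 1) + lam (v (i + 1)) =
      s i + lam (v i) + (ε (v i) (v (i + 1)) + lam (v i) + lam (v (i + 1)))
    rw [h.pot i]
    have h1 := CharTwo.add_self_eq_zero (lam (v i))
    linear_combination -h1
  per i := by
    change s (i + c) + lam (v (i + c)) = s i + lam (v i) + τ
    rw [h.per i, h.vper1]
    ring
  max l hl hs := by
    refine h.max l hl ?_
    rw [← hs]
    exact (csg_switch lam l).symm

end Pool.Agent.BND
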