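import Pool.Agent.BND.BAL1
import Pool.Agent.BND.BAL2
import Pool.Agent.BND.L1d
import Pool.Agent.BND.P4d
import Pool.Agent.BND.GR2

/-!
# BND-BAL : the outside is balanced, with consistent spokes

`bal_pot` (pure graph theory): `D` connected and all cycles inside `D` have sign `0`.  Then there is
`lam` with `ε x y = lam x + lam y` for all edges inside `D`.
Proof.  Fix a root `r ∈ D`, and for `x ∈ D` let `lam x` be the sign of some path from `r` to `x` in `D`.
It is enough to show that all paths in `D` between two given vertices have the same sign, and the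
statement for edges: Claim: two paths `P`, `Q` in `D` from `a` to `b` have the same sign.  Induction
on `|P| + |Q|`: if `a = b` both are trivial.  Otherwise let `P = a, p, …`, `Q = a, q, …`.
If `p = q` use induction for the tails.  In general let `t` be the first vertex of `P` after `a` that
lies on `Q` (exists, as `b` does).  `P = P₁ P₂`, `Q = Q₁ Q₂` cut at `t`.  `P₁`, `Q₁` from `a` to
`t` share only their ends: either both have two vertices (the same edge: same sign), or
`P₁ ∪ Q₁` is a cycle (at least three vertices), sign `0`, so they have the same sign;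
and the induction hypothesis for `P₂`, `Q₂`.
For an edge `xy`: let `P` be the chosen path from `r` to `x`; if `y ∉ P`, `P, y` is a path to `y`, so
`lam y = lam x + ε x y`; if `y ∈ P` let `P'` be the part up to `y` and `P''` the part from `y` to `x`;
`P''` and the edge `yx` are two paths from `y` to `x`, so they have the same sign, and
`lam y = sg P'`, `lam x = sg P' + sg P'' = lam y + ε y x`.

`bal_cyc`: every cycle `Z` inside `Bs v c` has sign `0`.
Proof.  Let `Z` be a cycle inside `B := Bs v c` of sign `1`.  Say that a pair of positions `(i, k)`,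
`v i ≠ v k`, is linked if there are disjoint paths `P₁`, `P₂` such that `P₁ = v i :: P₁'`, with `P₁'`
a path in `B` from a neighbour of `v i` to a vertex `z₁` of `Z`, no other vertex of `P₁'` on `Z`, and
similarly `P₂ = v k :: P₂'` ending at `z₂ ∈ Z`, `P₁'` and `P₂'` disjoint (so `z₁ ≠ z₂`).
 (1) `two_paths` for `Z` and `Cs v c` gives a linked pair.
 (2) If `(i, k)` is linked then `BSg G ε B (v i) (v k)`: the two ways around `Z` from `z₁` to `z₂`
   give two ears whose signs differ by the sign of `Z`, i.e. by `1`.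
 (3) If `(i, k)` is linked and `Tp (i+1)` then `v (i+1) ≠ v k` and `(i + 1, k)` is linked.
   `v (i+1) ≠ v k` by (2) and `not_bsg_succ`.  Let `Q` be a path in `B` from a neighbour of
   `v (i+1)` to its first vertex `x` on `Z ∪ P₁' ∪ P₂'` (`B` is connected).  If `x ∈ P₁'` then
   `Q` followed by the part of `P₁'` from `x` to `z₁` replaces `P₁'` for `v (i+1)`: linked.
   If `x ∈ Z \ {z₁}`: then `Q` ends at `x`, and `(i, i+1)` is linked (`P₁'` and `Q` are disjoint), so
   `BSg` for `v i`, `v (i+1)`, contradiction to `not_bsg_succ`.  If `x ∈ P₂'` (and `x ∉ Z`, or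
   `x = z₂`): `Q` followed by the part of `P₂'` from `x` to `z₂` is disjoint from `P₁'`; so
   `(i, i+1)` is linked, contradiction again.
 (4) Moving `i` forward: there is a linked pair `(i', k)` with `¬ Tp (i'+1)`: otherwise by (3)
   all pairs `(i + n, k)` are linked, but `v (i + n) = v k` for some `n ≥ 0`.  By symmetry move `k`
   forward: linked pair `(i', k')` with `¬ Tp (i'+1)`, `¬ Tp (k'+1)`.  By (2) this contradicts `d1`.

`bal`: choose `lam₀` by `bal_pot` for `Bs v c`.  For `i` with `Tp i` and neighbours `x, x' ∈ B` of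
`v i`: claim `ε (v i) x + lam₀ x = ε (v i) x' + lam₀ x'`.  Suppose not.  For every `k` with `Tp k`,
`v k ≠ v i`, with a neighbour `y ∈ B` of `v k`: paths in `B` from `x` to `y` and from `x'` to `y`
give two ears from `v i` to `v k` with signs `ε (v i) x + lam₀ x + lam₀ y + ε y (v k)` and
`ε (v i) x' + lam₀ x' + lam₀ y + ε y (v k)`, which differ: `BSg`.  So `¬ Tp (i+1)` (by
`not_bsg_succ`).  There is `k` with `Tp k`, `v k ≠ v i` (`three_le_TT` or 3-connectivity);
move `k` forward until `¬ Tp (k + 1)`: as long as `Tp (k+1)` holds, `v (k+1) ≠ v i`?  If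
`v (k+1) = v i` then the pair `v k`, `v i = v (k+1)` is `BSg`, contradiction to `not_bsg_succ`.
So we can replace `k` by `k + 1`; the process stops, because otherwise it reaches `v i`.  Then
`d1` gives a contradiction.
Now let `lam = lam₀` on `B` and `lam (v i) = ε (v i) x + lam₀ x` for any neighbour `x ∈ B` of `v i`
(`0` if there is none).

`normalize`: switch by `lam` (`Ctx.switch`); all edges with an end in `B` get sign `0`
(`ε x y + lam x + lam y = 0`).
-/

set_option autoImplicit false
set_option linter.unusedSectionVars false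

namespace Pool.Agent.BND

open Classical

variable {V : Type} [Fintype V]
variable {G : SimpleGraph V} {ε : V → V → ZMod 2} {τ : ZMod 2} {d c : ℕ} {v : ℤ → V}
  {s : ℤ → ZMod 2}

theorem bal3_chain {B : Finset V} : ∀ (l : List V), l.IsChain G.Adj → (∀ z ∈ l, z ∈ B) →
    l.IsChain (fun x y => x ∈ B ∧ y ∈ B ∧ G.Adj x y)
  | [], _, _ => List.isChain_nil
  | [_], _, _ => List.isChain_singleton _
  | x :: y :: t, hc, hs => by
    rw [List.isChain_cons_cons] at hc ⊢
    refine ⟨⟨hs x (by simp), hs y (by simp), hc.1⟩, ?_⟩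
    exact bal3_chain (y :: t) hc.2 (fun z hz => hs z (List.mem_cons_of_mem _ hz))

theorem bal3_sg {B : Finset V} {lam : V → ZMod 2}
    (hl : ∀ x ∈ B, ∀ y ∈ B, G.Adj x y → ε x y = lam x + lam y) {x y : V} {l : List V}
    (hp : Pth G B x y l) : sg ε l = lam x + lam y := by
  have h1 := sg_switch (ε := ε) lam x y l hp.head hp.last
  have h2 : sg (fun x y => ε x y + lam x + lam y) l = 0 := by
    apply sg_eq_zero (R := fun x y => x ∈ B ∧ y ∈ B ∧ G.Adj x y) _ l
      (bal3_chain l hp.chain hp.sub)
    rintro a b ⟨ha, hb, hab⟩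
    show ε a b + lam a + lam b = 0
    rw [hl a ha b hb hab]
    have e1 := CharTwo.add_self_eq_zero (lam a)
    have e2 := CharTwo.add_self_eq_zero (lam b)
    linear_combination e1 + e2
  rw [h2] at h1
  have e1 := CharTwo.add_self_eq_zero (lam x)
  have e2 := CharTwo.add_self_eq_zero (lam y)
  linear_combination -h1 - e1 - e2

theorem bal3_ear_sg {B : Finset V} {x y a b : V} {l : List V}
    (hp : Pth G B x y l) : sg ε (a :: (l ++ [b])) = ε a x + sg ε l + ε y b := by
  obtain ⟨l1, rfl⟩ : ∃ l1, l = l1 ++ [y] := by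
    have h1 := hp.last
    have h2 := List.dropLast_append_getLast? y h1
    exact ⟨l.dropLast, h2.symm⟩
  have h3 := sg_split_edge (ε := ε) l1 y b []
  rw [sg_single, add_zero] at h3
  have hh := hp.head
  cases l1 with
  | nil =>
    simp only [List.nil_append, List.head?_cons, Option.some.injEq] at hh
    subst hh
    simp
  | cons q t =>
    simp only [List.cons_append, List.head?_cons, Option.some.injEq] at hh
    subst hh
    simp only [List.cons_append] at h3 ⊢
    rw [sg_cons_cons, h3]
    ring

theorem bal3_symm (hε : ∀ x y, ε x y = ε y x) {D : Finset V} {x y : V} (h : BSg G ε D x y) :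
    BSg G ε D y x := by
  obtain ⟨I, I', h1, h2, h3⟩ := h
  refine ⟨I.reverse, I'.reverse, h1.reverse, h2.reverse, ?_⟩
  have e : ∀ J : List V, sg ε (y :: (J.reverse ++ [x])) = sg ε (x :: (J ++ [y])) := by
    intro J
    rw [← sg_reverse hε (x :: (J ++ [y]))]
    congr 1
    simp
  rw [e, e]
  exact h3

theorem bal3_claim (h : Ctx G ε τ d c v s) (hB : Conn G (Bs v c)) {lam : V → ZMod 2}
    (hl : ∀ x ∈ Bs v c, ∀ y ∈ Bs v c, G.Adj x y → ε x y = lam x + lam y) (i : ℤ) {x x' : V}
    (hx : x ∈ Bs v c) (hx' : x' ∈ Bs v c) (ha : G.Adj (v i) x) (ha' : G.Adj (v i) x') :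
    ε (v i) x + lam x = ε (v i) x' + lam x' := by
  by_contra hcon
  have H1 : ∀ k : ℤ, Tp G v c k → BSg G ε (Bs v c) (v i) (v k) := by
    rintro k ⟨y, hy, hky⟩
    obtain ⟨l, hl1⟩ := hB.2 x hx y hy
    obtain ⟨l', hl2⟩ := hB.2 x' hx' y hy
    refine ⟨l, l', hl1.ear ha hky.symm, hl2.ear ha' hky.symm, ?_⟩
    rw [bal3_ear_sg hl1, bal3_ear_sg hl2, bal3_sg hl hl1, bal3_sg hl hl2]
    intro heq
    apply hcon
    linear_combination heq
  have H2 : ¬ Tp G v c (i + 1) := fun hT => not_bsg_succ h i (H1 _ hT)
  have hcc : CC G (Cs v c) (Bs v c) d :=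
    Ctx.cc h ⟨Finset.Subset.refl _, hB, fun _ _ y hy _ => hy⟩
  have h3 := three_le_TT hcc
  obtain ⟨u, hu, hui⟩ := Finset.exists_mem_ne (s := TT G (Cs v c) (Bs v c)) (by omega) (v i)
  have hu' : u ∈ Cs v c ∧ (att G (Bs v c) u).Nonempty := by
    simpa only [TT, Finset.mem_filter] using hu
  obtain ⟨k, hk1, hk2, hk3⟩ := exists_pos h hu'.1 i
  have hTk : Tp G v c k := by
    obtain ⟨y, hy⟩ := hu'.2
    rw [att, Finset.mem_filter] at hy
    exact ⟨y, hy.1, by rw [hk3]; exact hy.2⟩
  have hki : v k ≠ v i := by rw [hk3]; exact hui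
  obtain ⟨m, hm1, hm2, hm3⟩ : ∃ m : ℤ, Tp G v c m ∧ v m ≠ v i ∧ ¬ Tp G v c (m + 1) := by
    by_contra hno
    push Not at hno
    have key : ∀ n : ℕ, Tp G v c (k + n) ∧ v (k + n) ≠ v i := by
      intro n
      induction n with
      | zero => simpa using ⟨hTk, hki⟩
      | succ n ih =>
        have h4 := hno _ ih.1 ih.2
        have h5 : k + ((n + 1 : ℕ) : ℤ) = k + n + 1 := by push_cast; ring
        rw [h5]
        refine ⟨h4, ?_⟩
        intro h6
        have h7 := bal3_symm h.symm (H1 _ ih.1)
        rw [← h6] at h7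
        exact not_bsg_succ h _ h7
    have h8 := (key (i + c - k).toNat).2
    apply h8
    rw [show k + (((i + c - k).toNat : ℕ) : ℤ) = i + c by omega]
    exact h.vper1 i
  exact d1 h hm2.symm H2 hm3 (H1 _ hm1)

theorem bal (h : Ctx G ε τ d c v s) (hB : Conn G (Bs v c)) :
    ∃ lam : V → ZMod 2, ∀ x ∈ Bs v c, ∀ y, G.Adj x y → ε x y = lam x + lam y := by
  obtain ⟨lam, hl⟩ := bal_pot h.symm hB (bal_cyc h hB)
  let lam' : V → ZMod 2 := fun x =>
    if x ∈ Bs v c then lam x else
      if hw : ∃ w ∈ Bs v c, G.Adj x w then ε x hw.choose + lam hw.choose else 0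
  refine ⟨lam', ?_⟩
  intro x hx y hxy
  have h1 : lam' x = lam x := by simp only [lam']; rw [if_pos hx]
  by_cases hy : y ∈ Bs v c
  · have h2 : lam' y = lam y := by simp only [lam']; rw [if_pos hy]
    rw [h1, h2]
    exact hl x hx y hy hxy
  · have hw : ∃ w ∈ Bs v c, G.Adj y w := ⟨x, hx, hxy.symm⟩
    have h2 : lam' y = ε y hw.choose + lam hw.choose := by
      simp only [lam']
      rw [if_neg hy, dif_pos hw]
    obtain ⟨i, hi⟩ : ∃ i : ℤ, v i = y := by
      by_contra hno
      push Not at hno
      exact hy ((mem_Bs h).2 hno)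
    have hc1 := hw.choose_spec
    have h3 := bal3_claim h hB hl i hx hc1.1 (by rw [hi]; exact hxy.symm) (by rw [hi]; exact hc1.2)
    rw [hi] at h3
    rw [h1, h2, ← h3, h.symm x y]
    have e1 := CharTwo.add_self_eq_zero (lam x)
    linear_combination -e1

theorem normalize (h : Ctx G ε τ d c v s) :
    ∃ (ε' : V → V → ZMod 2) (s' : ℤ → ZMod 2), NCtx G ε' τ d c v s' := by
  have hB := conn_Bs h
  obtain ⟨lam, hl⟩ := bal h hB
  refine ⟨fun x y => ε x y + lam x + lam y, fun i => s i + lam (v i), ?_⟩
  refine { toCtx := h.switch lam, conn := hB, bz := ?_ }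
  intro x hx y hxy
  show ε x y + lam x + lam y = 0
  rw [hl x hx y hxy]
  have e1 := CharTwo.add_self_eq_zero (lam x)
  have e2 := CharTwo.add_self_eq_zero (lam y)
  linear_combination e1 + e2

end Pool.Agent.BND
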