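import Pool.Agent.BND.Defs2

/-!
# BND-CM : two counting lemmas on a circle

`int_count` (disjoint intervals on a circle of length `M`).  Proof: the map `(p, k) ↦ (p + k) mod M`
from `{(p, k) : p ∈ P, k < own p}` to `{0, …, M - 1}` is injective: if `p + k ≡ q + k'` with, say,
`k' ≤ k`, then `M ∣ (p + (k - k')) - q` and `k - k' < own p`, so `p = q` and `k - k' = 0`.
In case of equality the map is onto: for `p ∈ P`, `own p ≥ 1`, the position `p + own p` is
`≡ q + k'` with `q ∈ P`, `k' < own q`.  If `k' > 0` then `p + (own p - 1) ≡ q + (k' - 1)`, so by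
injectivity `p = q` and `own p - 1 = k' - 1`, so `own p = k' < own q = own p`, a contradiction.
So `k' = 0`.

`win` (windows).  `A` is a `c`-periodic set of positions with `N` elements per period, such that
any three elements `i < j < k < i + c` of `A` satisfy `W ≤ k - i`, and `W ≤ c`.  Then `N W ≤ 2 c`.
Proof: count pairs `(x, p)`, `0 ≤ x < c`, `p ∈ A`, `x - W < p ≤ x` : for every `x` there are at most
two such `p` (three of them `p < p' < p''` would have `p'' - p < W ≤ c`), and every class mod `c` of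
elements of `A` is counted `W` times.  In case of equality, for every `x` there are exactly two
`p ∈ A` with `x - W < p ≤ x` (by periodicity, for all integers `x`).  If `i ∈ A`: `x = i + W - 1`
gives exactly one more element `j ∈ A`, `i < j < i + W`; `x = i + W`: the elements of `A` in
`(i, i + W]` are exactly two, so `i + W ∈ A`.
-/

set_option autoImplicit false
set_option linter.unusedSectionVars false

namespace Pool.Agent.BND

open Classical

theorem cm2_shift (c : ℕ) (f : ℤ → ℕ) (hf : ∀ i : ℤ, f (i + c) = f i) (a : ℤ) :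
    ∑ x ∈ Finset.range c, f ((x : ℤ) + (a + 1)) = ∑ x ∈ Finset.range c, f ((x : ℤ) + a) := by
  have h1 := Finset.sum_range_succ (fun x : ℕ => f ((x : ℤ) + a)) c
  have h2 := Finset.sum_range_succ' (fun x : ℕ => f ((x : ℤ) + a)) c
  have h3 : f (((0 : ℕ) : ℤ) + a) = f ((c : ℤ) + a) := by
    have := hf a
    rw [add_comm (c : ℤ) a, this]
    simp
  have h4 : ∀ x : ℕ, f (((x + 1 : ℕ) : ℤ) + a) = f ((x : ℤ) + (a + 1)) := by
    intro x
    congr 1
    push_cast
    ring
  rw [Finset.sum_congr rfl (fun x _ => h4 x)] at h2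
  rw [h1] at h2
  omega

theorem cm2_shift_all (c : ℕ) (f : ℤ → ℕ) (hf : ∀ i : ℤ, f (i + c) = f i) (a : ℤ) :
    ∑ x ∈ Finset.range c, f ((x : ℤ) + a) = ∑ x ∈ Finset.range c, f (x : ℤ) := by
  induction a using Int.induction_on with
  | zero => simp
  | succ i ih => rw [cm2_shift c f hf, ih]
  | pred i ih =>
    have h := cm2_shift c f hf (-(i : ℤ) - 1)
    rw [← h]
    rw [show (-(i : ℤ) - 1 + 1) = -(i : ℤ) by ring, ih]

theorem win (c W N : ℕ) (A : ℤ → Prop) (hc : 1 ≤ c) (hper : ∀ i : ℤ, A (i + c) ↔ A i)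
    (hN : ((Finset.range c).filter (fun k : ℕ => A k)).card = N) (hW : W ≤ c)
    (h3 : ∀ i j k : ℤ, A i → A j → A k → i < j → j < k → k < i + c → (W : ℤ) ≤ k - i) :
    N * W ≤ 2 * c ∧ (N * W = 2 * c → 1 ≤ W → (∀ i : ℤ, A i → A (i + W)) ∧
      ∀ i : ℤ, A i → ∃ j : ℤ, i < j ∧ j < i + W ∧ A j ∧ ∀ k : ℤ, i < k → k < i + W → A k → k = j) := by
  set f : ℤ → ℕ := fun i => if A i then 1 else 0 with hfdef
  have hf : ∀ i : ℤ, f (i + c) = f i := by
    intro i
    simp only [hfdef]
    by_cases h : A i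
    · rw [if_pos h, if_pos ((hper i).2 h)]
    · rw [if_neg h, if_neg (fun h' => h ((hper i).1 h'))]
  have hfN : ∑ x ∈ Finset.range c, f (x : ℤ) = N := by
    rw [← hN, Finset.card_filter]
  have hF : ∀ x : ℤ, ∑ t ∈ Finset.range W, f (x - t)
      = ((Finset.range W).filter (fun t : ℕ => A (x - t))).card := by
    intro x
    rw [Finset.card_filter]
  have key : ∀ (x : ℤ) (t1 t2 t3 : ℕ), t1 < t2 → t2 < t3 → t3 < W → A (x - t1) → A (x - t2) →
      A (x - t3) → False := by
    intro x t1 t2 t3 h12 h23 h3W a1 a2 a3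
    have := h3 (x - t3) (x - t2) (x - t1) a3 a2 a1 (by omega) (by omega) (by omega)
    omega
  have hle : ∀ x : ℤ, ∑ t ∈ Finset.range W, f (x - t) ≤ 2 := by
    intro x
    rw [hF x]
    by_contra hcon
    push Not at hcon
    obtain ⟨a, ha, b, hb, e, he, hab, hae, hbe⟩ := Finset.two_lt_card.1 hcon
    rw [Finset.mem_filter, Finset.mem_range] at ha hb he
    rcases lt_or_gt_of_ne hab with h1 | h1 <;> rcases lt_or_gt_of_ne hae with h2 | h2 <;>
      rcases lt_or_gt_of_ne hbe with h4 | h4
    · exact key x a b e h1 h4 he.1 ha.2 hb.2 he.2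
    · exact key x a e b h2 h4 hb.1 ha.2 he.2 hb.2
    · omega
    · exact key x e a b h2 h1 hb.1 he.2 ha.2 hb.2
    · exact key x b a e h1 h2 he.1 hb.2 ha.2 he.2
    · omega
    · exact key x b e a h4 h2 ha.1 hb.2 he.2 ha.2
    · exact key x e b a h4 h1 ha.1 he.2 hb.2 ha.2
  have hsum : ∑ x ∈ Finset.range c, ∑ t ∈ Finset.range W, f ((x : ℤ) - t) = N * W := by
    rw [Finset.sum_comm]
    have h5 : ∀ t ∈ Finset.range W, ∑ x ∈ Finset.range c, f ((x : ℤ) - t) = N := by
      intro t _
      have := cm2_shift_all c f hf (-(t : ℤ))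
      rw [hfN] at this
      rw [← this]
      rfl
    rw [Finset.sum_congr rfl h5]
    simp [mul_comm]
  have hbound : ∑ x ∈ Finset.range c, ∑ t ∈ Finset.range W, f ((x : ℤ) - t)
      ≤ ∑ x ∈ Finset.range c, 2 := Finset.sum_le_sum (fun x _ => hle x)
  have hconst : ∑ x ∈ Finset.range c, 2 = 2 * c := by simp [mul_comm]
  refine ⟨by rw [← hsum, ← hconst]; exact hbound, ?_⟩
  intro heq hW1
  have hall0 : ∀ x ∈ Finset.range c, ∑ t ∈ Finset.range W, f ((x : ℤ) - t) = 2 := by
    have h6 : ∑ x ∈ Finset.range c, ∑ t ∈ Finset.range W, f ((x : ℤ) - t)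
      = ∑ x ∈ Finset.range c, 2 := by rw [hsum, hconst, heq]
    exact (Finset.sum_eq_sum_iff_of_le (fun (x : ℕ) _ => hle (x : ℤ))).1 h6
  set g : ℤ → ℕ := fun x => ∑ t ∈ Finset.range W, f (x - t) with hg
  have hgper : Function.Periodic g (c : ℤ) := by
    intro x
    simp only [hg]
    apply Finset.sum_congr rfl
    intro t _
    rw [← hf (x - t)]
    congr 1
    ring
  have hall : ∀ x : ℤ, g x = 2 := by
    intro x
    have hc0 : (0 : ℤ) < c := by exact_mod_cast hc
    have h7 : g (x % c) = g x := by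
      have h8 := hgper.int_mul (x / c) (x % c)
      rw [← h8]
      congr 1
      have := Int.emod_add_mul_ediv x c
      push_cast
      linarith [mul_comm (x / (c : ℤ)) (c : ℤ)]
    have h9 : 0 ≤ x % c := Int.emod_nonneg x (by omega)
    have h10 : x % c < c := Int.emod_lt_of_pos x hc0
    rw [← h7]
    have h11 := hall0 (x % c).toNat (Finset.mem_range.2 (by omega))
    rw [Int.toNat_of_nonneg h9] at h11
    exact h11
  refine ⟨?_, ?_⟩
  · intro i hi
    have h12 := Finset.sum_range_succ (fun t : ℕ => f (i + W - t)) W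
    have h13 := Finset.sum_range_succ' (fun t : ℕ => f (i + W - t)) W
    have h14 : ∀ t : ℕ, f (i + W - ((t + 1 : ℕ) : ℤ)) = f (i + W - 1 - t) := by
      intro t
      congr 1
      push_cast
      ring
    rw [Finset.sum_congr rfl (fun t _ => h14 t), h12] at h13
    have h15 := hall (i + W)
    have h16 := hall (i + W - 1)
    simp only [hg] at h15 h16
    have h17 : f (i + W - (W : ℕ)) = 1 := by
      simp only [hfdef]
      rw [if_pos]
      rw [show i + (W : ℤ) - (W : ℤ) = i by ring]
      exact hi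
    rw [h15, h16, h17] at h13
    have h18 : f (i + W - ((0 : ℕ) : ℤ)) = 1 := by omega
    by_contra hcon
    simp only [hfdef] at h18
    rw [if_neg] at h18
    · omega
    · intro h19
      apply hcon
      rw [show i + (W : ℤ) - ((0 : ℕ) : ℤ) = i + W by simp] at h19
      exact h19
  · intro i hi
    have h16 := hall (i + W - 1)
    simp only [hg] at h16
    rw [hF (i + W - 1)] at h16
    set F := (Finset.range W).filter (fun t : ℕ => A (i + W - 1 - t)) with hFd
    have hm : W - 1 ∈ F := by
      rw [hFd, Finset.mem_filter, Finset.mem_range]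
      refine ⟨by omega, ?_⟩
      rw [show i + (W : ℤ) - 1 - ((W - 1 : ℕ) : ℤ) = i by omega]
      exact hi
    have h20 : (F.erase (W - 1)).card = 1 := by
      rw [Finset.card_erase_of_mem hm, h16]
    obtain ⟨t', ht'⟩ := Finset.card_eq_one.1 h20
    have h21 : t' ∈ F.erase (W - 1) := by rw [ht']; exact Finset.mem_singleton_self _
    rw [Finset.mem_erase, hFd, Finset.mem_filter, Finset.mem_range] at h21
    obtain ⟨h22, h23, h24⟩ := h21
    refine ⟨i + W - 1 - t', by omega, by omega, h24, ?_⟩
    intro k hk1 hk2 hk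
    have h25 : (i + W - 1 - k).toNat ∈ F.erase (W - 1) := by
      rw [Finset.mem_erase, hFd, Finset.mem_filter, Finset.mem_range]
      refine ⟨by omega, by omega, ?_⟩
      rw [show i + (W : ℤ) - 1 - (((i + W - 1 - k).toNat : ℕ) : ℤ) = k by omega]
      exact hk
    rw [ht', Finset.mem_singleton] at h25
    omega

end Pool.Agent.BND
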