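import Pool.Agent.BND.EB1

/-!
# BND-EB : lower bounds for the lengths of ears

Throughout: `K` is the vertex set of the cycle, `D` a set disjoint from `K`, `L ⊇ D` a set disjoint
from `K` with `|L \ D| ≤ 1` (`L = D`, or `L = D ∪ {b}`), every neighbour of a vertex of `D` is in
`L ∪ K`, every vertex of `D` has degree at least `d`, `L` is `Bic`.

Let `h = |hubs G K D|`, `κ = |ctrs G K D|`, `NN = h + κ`, `S = ctrs G K D`.
Key fact: if `y ∈ D` is not a centre then all its neighbours in `K` are hubs (a neighbour `u ∈ K` of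
`y` has `y ∈ att G D u`; if `u` is not a hub then `att G D u = {y}` and `y` is a centre).  So `y` has
at least `d - h` neighbours in `L` (lemma `deg_nonctr`).

`ear_gen`.  Let `u, w ∈ K`, `Ind G D u w`: `x ∈ att G D u`, `y ∈ att G D w`, `x ≠ y`.
Suppose `D ⊄ S`.  Apply `eg` in `L` with `a = x`, `b = y`, `M = D \ S ≠ ∅`, `R = d - h`
(natural subtraction is harmless).
`W = L \ (M ∪ {x, y}) = (S ∪ (L \ D)) \ {x, y}`.
We get a path `l` from `x` to `y` in `L`; if `W = ∅`, `|l| ≥ d - h + 1 ≥ d - NN + 1`; if `W ≠ ∅`,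
`|l| ≥ d - h + 2 - |W| ≥ d - h + 2 - (κ + 1) = d - NN + 1`.
So in all cases `d + 1 ≤ |l| + NN`.  If `L = D` and `κ ≥ 1`: if `W = S \ {x,y} = ∅` then
`|l| + NN ≥ d + 1 + κ ≥ d + 2`; if `W ≠ ∅`, `|l| + NN ≥ d + 2 + (κ - |W|) ≥ d + 2`.
If `L = D`, `κ ≥ 2` and `u` is a clone (`|att G D u| = 1`, so `x` is a centre): if `W = ∅`,
`|l| + NN ≥ d + 1 + κ ≥ d + 3`; if `W ≠ ∅`, then `|W| ≤ κ - 1` and `|l| + NN ≥ d + 3`.
`l` is an ear from `u` to `w`.  Also `Bic.long_pth` gives a path with at least three vertices from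
`x` to `y`; take the longer one of the two.

`out_gen`.  `L = insert b D`, `b ∉ D`, `b ∉ K`, `u ∈ TT G K D` with `x ∈ att G D u`. Apply `eg` in `L`
with `a = x`, the other end `b`, `M = D \ S`, `R = d - h`; `W = S \ {x}` (as `b` is an end).
If `W = ∅`: `|l| ≥ d - h + 1`; if `W ≠ ∅`: `|l| ≥ d - h + 2 - κ = d - NN + 2`. So
`|l| ≥ d - NN + 1` in all cases. Remove the last vertex `b`: `Q` with `|Q| ≥ d - NN`, and `|Q| ≥ 2` if
the long path of `Bic.long_pth` is used (again take the longer one).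
`Q` is an `Ear` from `u` to `b` through `D`.

`via_gen`.  `L = D`, `Bic D`; `u, z, w ∈ K` pairwise `Ind`, `D ⊄ S`.
 (a) `z` a hub: `L' = insert z D` is `Bic` (`Bic.insert`). `y ∈ D \ S` has at least `d - (h - 1)`
 neighbours in `L'`, i.e. `≥ d - h + 1` (its neighbours in `K \ {z}` are in `hubs \ {z}`; careful with
 natural subtraction: `d + 1 ≤ h + #(nbrs in L')`).  Apply `eg` in `L'` from `x` to `y'` (`x ∈ att u`,
 `y' ∈ att w`, `x ≠ y'`), `M = D \ S`, `R = d - h + 1` (`R + h = d + 1` if `h ≤ d`, if `h > d + 1` take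
 `R = 0`; simply `R := d + 1 - h`).  `W = (S \ {x, y'}) ∪ {z} ≠ ∅`, `|W| ≤ κ + 1`, and `|W| ≤ κ` if `u` is
 a clone (`x ∈ S`).  `|l| ≥ R + 2 - |W| ≥ d + 3 - h - κ - 1 = d + 2 - NN`, and one more if `u` is a clone.
 `l` is a `Via` path: all its vertices are in `D ∪ {z}`, and the first and the last are in `D`.
 (b) `z` is a clone: `att G D z = {s'}`, so `κ ≥ 1`, and `ear_gen` gives an ear `I` with
 `d + 2 ≤ |I| + NN`; if `u` is a clone, `att G D u = {x}`, `x ≠ s'` (since `Ind G D u z`), so `κ ≥ 2`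
 and `d + 3 ≤ |I| + NN`.  Use `Ear.via`.
-/

set_option autoImplicit false
set_option linter.unusedSectionVars false

namespace Pool.Agent.BND

open Classical

variable {V : Type} [Fintype V] {G : SimpleGraph V} {K L D : Finset V} {d : ℕ}

theorem eb3_mem_att {u x : V} : x ∈ att G D u ↔ x ∈ D ∧ G.Adj u x := by
  simp [att]

theorem eb3_mem_hubs {u : V} : u ∈ hubs G K D ↔ u ∈ K ∧ 2 ≤ (att G D u).card := by
  simp [hubs]

theorem eb3_mem_ctrs {x : V} : x ∈ ctrs G K D ↔ x ∈ D ∧ ∃ u ∈ K, att G D u = {x} := by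
  simp [ctrs]

theorem eb3_ctr {u x : V} (hu : u ∈ K) (h1 : (att G D u).card = 1) (hx : x ∈ att G D u) :
    x ∈ ctrs G K D := by
  obtain ⟨t, ht⟩ := Finset.card_eq_one.1 h1
  have hxt : x = t := by
    rw [ht] at hx
    exact Finset.mem_singleton.1 hx
  rw [eb3_mem_ctrs]
  exact ⟨(eb3_mem_att.1 hx).1, u, hu, by rw [ht, hxt]⟩

theorem via_gen (hDK : Disjoint D K) (hcl : ∀ x ∈ D, ∀ y, G.Adj x y → y ∈ D ∨ y ∈ K)
    (hdeg : ∀ x ∈ D, d ≤ (nb G x).card) (hB : Bic G D) (h3 : 3 ≤ D.card)
    (hnc : ¬ D ⊆ ctrs G K D) {u z w : V} (hu : u ∈ K) (hz : z ∈ K) (hw : w ∈ K)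
    (huz : Ind G D u z) (hzw : Ind G D z w) (huw : Ind G D u w) :
    ∃ J, Via G D z u w J ∧ d + 2 ≤ J.length + NN G K D ∧
      ((att G D u).card = 1 → d + 3 ≤ J.length + NN G K D) := by
  obtain ⟨-, xu, hxu, xz, hxz, hne⟩ := huz
  have hzn : (att G D z).Nonempty := ⟨xz, hxz⟩
  have hNN : NN G K D = (hubs G K D).card + (ctrs G K D).card := rfl
  rcases att_card_or z hzn with hz2 | ⟨s', hs'D, hs'⟩
  · -- `z` is a hub
    obtain ⟨-, x, hx, y, hy, hxy⟩ := huw
    obtain ⟨hxD, hux⟩ := eb3_mem_att.1 hx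
    obtain ⟨hyD, hwy⟩ := eb3_mem_att.1 hy
    have hzD : z ∉ D := fun h => (Finset.disjoint_left.1 hDK h) hz
    have hB' : Bic G (insert z D) := hB.insert hzD hz2
    have hDL : D ⊆ insert z D := Finset.subset_insert _ _
    have hzh : z ∈ hubs G K D := eb3_mem_hubs.2 ⟨hz, hz2⟩
    have hhp : 1 ≤ (hubs G K D).card := Finset.card_pos.2 ⟨z, hzh⟩
    set S := ctrs G K D with hS
    have hM : (D \ S).Nonempty := by
      rw [Finset.sdiff_nonempty]
      exact hnc
    have hR : ∀ t ∈ D \ S,
        d + 1 - (hubs G K D).card ≤ ((insert z D).filter (fun q => G.Adj t q)).card := by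
      intro t ht
      rw [Finset.mem_sdiff] at ht
      have h1 : (nb G t).card ≤ ((insert z D).filter (fun q => G.Adj t q)).card +
          ((hubs G K D).erase z).card := by
        refine le_trans (Finset.card_le_card ?_) (Finset.card_union_le _ _)
        intro q hq
        have htq : G.Adj t q := by simpa [nb] using hq
        rw [Finset.mem_union, Finset.mem_filter, Finset.mem_insert, Finset.mem_erase]
        rcases hcl t ht.1 q htq with hqD | hqK
        · exact Or.inl ⟨Or.inr hqD, htq⟩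
        · by_cases hqz : q = z
          · exact Or.inl ⟨Or.inl hqz, htq⟩
          · right
            refine ⟨hqz, eb3_mem_hubs.2 ⟨hqK, ?_⟩⟩
            have hta : t ∈ att G D q := eb3_mem_att.2 ⟨ht.1, htq.symm⟩
            by_contra hlt
            have h1 : (att G D q).card = 1 := by
              have : 0 < (att G D q).card := Finset.card_pos.2 ⟨t, hta⟩
              omega
            exact ht.2 (eb3_ctr hqK h1 hta)
      rw [Finset.card_erase_of_mem hzh] at h1
      have h2 := hdeg t ht.1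
      omega
    obtain ⟨l, hl, -, hl2⟩ := eg hB' (hDL hxD) (hDL hyD) hxy
      (Finset.sdiff_subset.trans hDL) hM hR
    have hnsub : ¬ (insert z D) ⊆ insert x (insert y (D \ S)) := by
      intro h
      have h1 := h (Finset.mem_insert_self z D)
      rw [Finset.mem_insert, Finset.mem_insert, Finset.mem_sdiff] at h1
      rcases h1 with h1 | h1 | h1
      · exact hzD (h1 ▸ hxD)
      · exact hzD (h1 ▸ hyD)
      · exact hzD h1.1
    have hlen := hl2 hnsub
    have hWsub : (insert z D) \ insert x (insert y (D \ S)) ⊆ insert z (S.erase x) := by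
      intro t ht
      rw [Finset.mem_sdiff, Finset.mem_insert, Finset.mem_insert, Finset.mem_insert,
        Finset.mem_sdiff] at ht
      push Not at ht
      obtain ⟨htL, htx, hty, ht⟩ := ht
      rw [Finset.mem_insert, Finset.mem_erase]
      rcases htL with h | h
      · exact Or.inl h
      · exact Or.inr ⟨htx, ht h⟩
    have hW1 : ((insert z D) \ insert x (insert y (D \ S))).card ≤ (S.erase x).card + 1 :=
      (Finset.card_le_card hWsub).trans (Finset.card_insert_le _ _)
    have hear : Ear G (insert z D) u w l := hl.ear hux hwy.symm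
    have hvia : Via G D z u w l := by
      refine ⟨hear.ne, hear.nodup, hear.chain, ?_, ?_, ?_⟩
      · intro t ht
        rcases Finset.mem_insert.1 (hear.sub t ht) with h | h
        · exact Or.inr h
        · exact Or.inl h
      · intro t ht
        rw [hl.head] at ht
        rw [← Option.some.inj ht]
        exact hxD
      · intro t ht
        rw [hl.last] at ht
        rw [← Option.some.inj ht]
        exact hyD
    refine ⟨l, hvia, ?_, ?_⟩
    · have := Finset.card_le_card (Finset.erase_subset x S)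
      omega
    · intro h1
      have hxS : x ∈ S := eb3_ctr hu h1 hx
      rw [Finset.card_erase_of_mem hxS] at hW1
      have hSp : 0 < S.card := Finset.card_pos.2 ⟨x, hxS⟩
      omega
  · -- `z` is a clone
    have hs'S : s' ∈ ctrs G K D := eb3_mem_ctrs.2 ⟨hs'D, z, hz, hs'⟩
    obtain ⟨I, hI, -, -, hI1, hI2⟩ := ear_gen (K := K) (L := D) (D := D) (d := d) hDK
      (Finset.Subset.refl D) (by simp) hcl hdeg hB h3 hnc hu hw huw
    refine ⟨I, hI.via z, hI1 rfl ⟨s', hs'S⟩, ?_⟩
    intro h1
    refine hI2 rfl ?_ h1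
    have hxS : xu ∈ ctrs G K D := eb3_ctr hu h1 hxu
    have hxzs : xz = s' := by
      rw [hs'] at hxz
      exact Finset.mem_singleton.1 hxz
    have h2 : ({xu, s'} : Finset V) ⊆ ctrs G K D := by
      intro t ht
      rw [Finset.mem_insert, Finset.mem_singleton] at ht
      rcases ht with h | h
      · rw [h]; exact hxS
      · rw [h]; exact hs'S
    have h4 := Finset.card_le_card h2
    rw [Finset.card_pair (by rw [← hxzs]; exact hne)] at h4
    exact h4

end Pool.Agent.BND
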