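import Pool.Agent.BND.NC
import Pool.Agent.BND.EB3
import Pool.Agent.BND.CM2

/-!
# BND-BC : the outside is `Bic` with at least three vertices: basic inequalities

Notation: `B = Bs v c`, `K = Cs v c`, `N = NN G K B`.

`tri_arc4`: `i < k < j < i + c`, `v i, v k, v j` pairwise `Ind`: then `4 ≤ j - i`.
Proof: independent vertices are joined by an ear with at least 3 inner vertices (`ear3`:
`Bic.long_pth`).  If `s i = s j` then by `arc_ear` `j - i ≥ 4`.  Otherwise `s i = s k` or `s k = s j`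
(values in `ZMod 2`), so `k - i ≥ 4` or `j - k ≥ 4`.

`tri_arc`: moreover suppose `B ⊄ ctrs G K B`.  Then `d + 3 ≤ (j - i) + N`, and
`d + 4 ≤ (j - i) + N` if `v i` or `v j` is a clone (`|att| = 1`).
Proof.  If `s i = s j`: `via_gen` gives `J` from `v i` to `v j` through `v k` with `d + 2 ≤ |J| + N`
(`d + 3` if `v i` is a clone; if `v j` is a clone use `via_gen` from `v j` to `v i` and
`Via.reverse`) and `arc_via` gives `|J| + 1 ≤ j - i`.
If `s i ≠ s j`, then `s i = s k` or `s k = s j`; say `s i = s k`: `ear_gen` gives `I` from `v i` to `v k`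
with `d + 1 ≤ |I| + N`, and `|I| + 1 ≤ k - i ≤ j - i - 1`; if there is a clone then `ctrs ≠ ∅` and
`d + 2 ≤ |I| + N`.

`NN_lt`: `N + 1 ≤ d`.  Take representatives `R`, `|R| = N ≥ 3` (`three_le_NN`), `A i := v i ∈ R`, and
use `win` with `W = 4` (`4 ≤ c` by `tri_arc4` for three elements of `R`): `4 N ≤ 2 c ≤ 4 d - 4`.

`case_allctr`: `B ⊆ ctrs G K B` is impossible.
Proof.  `ctrs = B`, `β = |B| ≥ 3`, `h = |hubs|`, `N = h + β ≤ d - 1`, `m := d + 1 - N ≥ 2`.
Each cluster has at least `m` elements (`cluster_card`).  `P = TT G K B`, `own u = 4` for hubs, `2` for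
the others.  If `u ≠ w` are in `TT` then there is an ear of length `≥ own u`; so if `v i = u`,
`v j = w`, `i < j < i + c`, `s i = s j`, then `own u ≤ j - i`.  Apply `int_count` with `M = 2 c` to
the set `P'` of positions `p ∈ [0, 2c)` with `v p ∈ TT`, `s p = 0`, if `τ = 1` (every element of `TT`
has exactly one such position), and to `P'₀`, `P'₁` (positions in `[0, c)` with `v p ∈ TT`, `s p = 0`
resp. `s p = 1`), `M = c`, if `τ = 0`.  (`own ≤ 4 ≤ c` as `|TT| ≥ 6`; for the hypothesis of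
`int_count` in the case `M = 2 c`: `k < own p ≤ 4 ≤ c`, so `p + k` is a position of a genuine arc.)
We get `∑ own ≤ 2 c`, where the sum is over `TT`, so
`4 h + 2 ∑ k_y ≤ 2 c ≤ 4 d - 4 = 4 (h + β + m - 1) - 4`.  Since `∑ k_y ≥ β m`,
`2 β m ≤ 4 β + 4 m - 8`, i.e. `(β - 2)(m - 2) ≤ 0`, so `m = 2`, all inequalities are equalities:
`c = 2 d - 2`, all clusters have exactly 2 elements (`∑ k_y = 2 β`), and equality holds in
`int_count` (in both circles if `τ = 0`).  Now take a clone `u` in `K_y` at position `p`.  By the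
equality part there is an element `w` of `TT` of the same class at position `p + 2`;
it must be in the same cluster (otherwise the arc would have length `≥ 4`; note `c > 2`), so it is
again a clone at `y`, and so on: all `p + 2 t` (`t ≥ 0`) are positions of class `s p` of clones at `y`.
`c = 2 d - 2`, `d ≥ 4` (as `N = d - 1 ≥ 3`), so `p, p + 2, p + 4` are positions of three different
vertices of the cluster `K_y` of size `2`.  Contradiction.
-/

set_option autoImplicit false
set_option linter.unusedSectionVars false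

namespace Pool.Agent.BND

open Classical

variable {V : Type} [Fintype V]
variable {G : SimpleGraph V} {ε : V → V → ZMod 2} {τ : ZMod 2} {d c : ℕ} {v : ℤ → V}
  {s : ℤ → ZMod 2}

theorem ear3 {D : Finset V} (hB : Bic G D) (h3 : 3 ≤ D.card) {u w : V} (hI : Ind G D u w) :
    ∃ I, Ear G D u w I ∧ 3 ≤ I.length := by
  obtain ⟨-, x, hx, y, hy, hxy⟩ := hI
  obtain ⟨hxD, hux⟩ := Finset.mem_filter.mp hx
  obtain ⟨hyD, hwy⟩ := Finset.mem_filter.mp hy
  obtain ⟨l, hl, hl3⟩ := hB.long_pth h3 hxD hyD hxy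
  exact ⟨l, hl.ear hux hwy.symm, hl3⟩

/-- the vertex in the middle has the sign of one of the two others -/
theorem bc1_mid {i k j : ℤ} (hs : s i ≠ s j) : s i = s k ∨ s k = s j := by
  have : ∀ a b c : ZMod 2, a ≠ c → a = b ∨ b = c := by decide
  exact this _ _ _ hs

theorem tri_arc4 (h : NCtx G ε τ d c v s) (hB : Bic G (Bs v c)) (h3 : 3 ≤ (Bs v c).card)
    {i k j : ℤ} (hik : i < k) (hkj : k < j) (hj : j < i + c) (h1 : Ind G (Bs v c) (v i) (v k))
    (h2 : Ind G (Bs v c) (v k) (v j)) (h12 : Ind G (Bs v c) (v i) (v j)) : 4 ≤ j - i := by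
  by_cases hs : s i = s j
  · obtain ⟨I, hI, hI3⟩ := ear3 hB h3 h12
    have := h.arc_ear (by omega) hj hs hI
    omega
  · rcases bc1_mid (k := k) hs with hs' | hs'
    · obtain ⟨I, hI, hI3⟩ := ear3 hB h3 h1
      have := h.arc_ear hik (by omega) hs' hI
      omega
    · obtain ⟨I, hI, hI3⟩ := ear3 hB h3 h2
      have := h.arc_ear hkj (by omega) hs' hI
      omega

/-- a vertex of the cycle with exactly one neighbour outside gives a centre -/
theorem bc1_ctrs {K D : Finset V} {u : V} (hu : u ∈ K) (h1 : (att G D u).card = 1) :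
    (ctrs G K D).Nonempty := by
  obtain ⟨x, hx⟩ := Finset.card_eq_one.mp h1
  refine ⟨x, Finset.mem_filter.mpr ⟨?_, u, hu, hx⟩⟩
  have : x ∈ att G D u := by
    rw [hx]
    exact Finset.mem_singleton_self x
  exact (Finset.mem_filter.mp this).1

theorem bc1_ear (h : NCtx G ε τ d c v s) (hB : Bic G (Bs v c)) (h3 : 3 ≤ (Bs v c).card)
    (hnc : ¬ Bs v c ⊆ ctrs G (Cs v c) (Bs v c)) {i k : ℤ} (hik : i < k) (hk : k < i + c)
    (h1 : Ind G (Bs v c) (v i) (v k)) (hs : s i = s k) :
    (d : ℤ) + 2 ≤ (k - i) + NN G (Cs v c) (Bs v c) ∧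
      ((ctrs G (Cs v c) (Bs v c)).Nonempty → (d : ℤ) + 3 ≤ (k - i) + NN G (Cs v c) (Bs v c)) := by
  have hcc := h.cc
  obtain ⟨I, hI, -, hd, hd2, -⟩ := ear_gen hcc.disj (Finset.Subset.refl _) (by simp) hcc.closed
    (fun x _ => hcc.deg x) hB h3 hnc (v_mem_Cs h.toCtx i) (v_mem_Cs h.toCtx k) h1
  have h4 := h.arc_ear hik hk hs hI
  refine ⟨by omega, fun hc => ?_⟩
  have := hd2 rfl hc
  omega

theorem tri_arc (h : NCtx G ε τ d c v s) (hB : Bic G (Bs v c)) (h3 : 3 ≤ (Bs v c).card)
    (hnc : ¬ Bs v c ⊆ ctrs G (Cs v c) (Bs v c))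
    {i k j : ℤ} (hik : i < k) (hkj : k < j) (hj : j < i + c) (h1 : Ind G (Bs v c) (v i) (v k))
    (h2 : Ind G (Bs v c) (v k) (v j)) (h12 : Ind G (Bs v c) (v i) (v j)) :
    (d : ℤ) + 3 ≤ (j - i) + NN G (Cs v c) (Bs v c) ∧
      ((att G (Bs v c) (v i)).card = 1 ∨ (att G (Bs v c) (v j)).card = 1 →
        (d : ℤ) + 4 ≤ (j - i) + NN G (Cs v c) (Bs v c)) := by
  have hcc := h.cc
  have hvi := v_mem_Cs h.toCtx i
  have hvj := v_mem_Cs h.toCtx j
  have hvk := v_mem_Cs h.toCtx k
  have hctr : (att G (Bs v c) (v i)).card = 1 ∨ (att G (Bs v c) (v j)).card = 1 →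
      (ctrs G (Cs v c) (Bs v c)).Nonempty := by
    rintro (h4 | h4)
    · exact bc1_ctrs hvi h4
    · exact bc1_ctrs hvj h4
  by_cases hs : s i = s j
  · obtain ⟨J, hJ, hJ1, hJ2⟩ := via_gen hcc.disj hcc.closed (fun x _ => hcc.deg x) hB h3 hnc
      hvi hvk hvj h1 h2 h12
    have h5 := h.arc_via hik hkj hj hs hJ
    refine ⟨by omega, ?_⟩
    rintro (h4 | h4)
    · have := hJ2 h4
      omega
    · obtain ⟨J', hJ', -, hJ2'⟩ := via_gen hcc.disj hcc.closed (fun x _ => hcc.deg x) hB h3 hnc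
        hvj hvk hvi h2.symm h1.symm h12.symm
      have h6 := h.arc_via hik hkj hj hs hJ'.reverse
      rw [List.length_reverse] at h6
      have := hJ2' h4
      omega
  · rcases bc1_mid (k := k) hs with hs' | hs'
    · obtain ⟨h4, h5⟩ := bc1_ear h hB h3 hnc hik (by omega) h1 hs'
      refine ⟨by omega, fun h6 => ?_⟩
      have := h5 (hctr h6)
      omega
    · obtain ⟨h4, h5⟩ := bc1_ear h hB h3 hnc hkj (by omega) h2 hs'
      refine ⟨by omega, fun h6 => ?_⟩
      have := h5 (hctr h6)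
      omega

theorem NN_lt (h : NCtx G ε τ d c v s) (hB : Bic G (Bs v c)) (h3 : 3 ≤ (Bs v c).card) :
    NN G (Cs v c) (Bs v c) + 1 ≤ d := by
  have hcc := h.cc
  have hN3 := three_le_NN hcc h3
  obtain ⟨R, hR, hRc, hRi, -, -⟩ := exists_reps G (Cs v c) (Bs v c)
  have hRC : R ⊆ Cs v c := fun x hx => (Finset.mem_filter.mp (hR hx)).1
  have hind : ∀ i j : ℤ, v i ∈ R → v j ∈ R → i < j → j < i + c → Ind G (Bs v c) (v i) (v j) :=
    fun i j hi hj hij hj' => hRi _ hi _ hj (h.toCtx.vne hij hj')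
  have hcard : ((Finset.range c).filter (fun k : ℕ => v (k : ℤ) ∈ R)).card =
      NN G (Cs v c) (Bs v c) := by
    rw [← hRc, ← card_pos h.toCtx R hRC 0]
    simp only [zero_add]
  have hc3 := h.toCtx.three
  have hW : 4 ≤ c := by
    by_contra hc
    have hc3' : c = 3 := by omega
    have hall : (Finset.range c).filter (fun k : ℕ => v (k : ℤ) ∈ R) = Finset.range c := by
      apply Finset.eq_of_subset_of_card_le (Finset.filter_subset _ _)
      rw [hcard, Finset.card_range]
      omega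
    have hmem : ∀ k : ℕ, k < c → v (k : ℤ) ∈ R := by
      intro k hk
      have : k ∈ (Finset.range c).filter (fun k : ℕ => v (k : ℤ) ∈ R) := by
        rw [hall]
        exact Finset.mem_range.mpr hk
      exact (Finset.mem_filter.mp this).2
    have h0 : v (0 : ℤ) ∈ R := by
      have := hmem 0 (by omega)
      simpa using this
    have h1 : v (1 : ℤ) ∈ R := by
      have := hmem 1 (by omega)
      simpa using this
    have h2 : v (2 : ℤ) ∈ R := by
      have := hmem 2 (by omega)
      simpa using this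
    have := tri_arc4 h hB h3 (i := 0) (k := 1) (j := 2) (by omega) (by omega) (by omega)
      (hind 0 1 h0 h1 (by omega) (by omega)) (hind 1 2 h1 h2 (by omega) (by omega))
      (hind 0 2 h0 h2 (by omega) (by omega))
    omega
  have hwin := (win c 4 (NN G (Cs v c) (Bs v c)) (fun i => v i ∈ R) (by omega)
    (fun i => by rw [h.toCtx.vper1]) (by convert hcard) hW
    (fun i j k hi hj hk hij hjk hk' => by
      have := tri_arc4 h hB h3 hij hjk hk' (hind i j hi hj hij (by omega))
        (hind j k hj hk hjk (by omega)) (hind i k hi hk (by omega) hk')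
      exact_mod_cast this)).1
  have := h.toCtx.hc
  omega

end Pool.Agent.BND
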