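import Pool.Agent.BND.Defs2

/-!
# BND-CM : two counting lemmas on a circle

`int_count` (disjoint intervals on a circle of length `M`).  Proof: the map `(p, k) ↦ (p + k) mod M`
from `{(p, k) : p ∈ P, k < own p}` to `{0, …, M - 1}` is injective: if `p + k ≡ q + k'` with, say,
`k' ≤ k`, then `M ∣ (p + (k - k')) - q` and `k - k' < own p`, so `p = q` and `k - k' = 0`.
In case of equality the map is onto: for `p ∈ P`, `own p ≥ 1`, the position `p + own p` is
`≡ q + k'` with `q ∈ P`, `k' < own q`.  If `k' > 0` then `p + (own p - 1) ≡ q + (k' - 1)`, so by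
injectivity `p = q` and `own p - 1 = k' - 1`, so `own p = k' < own q = own p`, a contradiction.
So `k' = 0`.

`win` (windows).  `A` is a `c`-periodic set of positions with `N` elements per period, such that
any three elements `i < j < k < i + c` of `A` satisfy `W ≤ k - i`, and `W ≤ c`.  Then `N W ≤ 2 c`.
Proof: count pairs `(x, p)`, `0 ≤ x < c`, `p ∈ A`, `x - W < p ≤ x` : for every `x` there are at most
two such `p` (three of them `p < p' < p''` would have `p'' - p < W ≤ c`), and every class mod `c` of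
elements of `A` is counted `W` times.  In case of equality, for every `x` there are exactly two
`p ∈ A` with `x - W < p ≤ x` (by periodicity, for all integers `x`).  If `i ∈ A`: `x = i + W - 1`
gives exactly one more element `j ∈ A`, `i < j < i + W`; `x = i + W`: the elements of `A` in
`(i, i + W]` are exactly two, so `i + W ∈ A`.
-/

set_option autoImplicit false
set_option linter.unusedSectionVars false

namespace Pool.Agent.BND

open Classical

theorem int_count (M : ℕ) (hM : 1 ≤ M) (P : Finset ℤ) (own : ℤ → ℕ)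
    (h : ∀ p ∈ P, ∀ q ∈ P, ∀ k : ℕ, k < own p → (M : ℤ) ∣ p + k - q → p = q ∧ k = 0) :
    ∑ p ∈ P, own p ≤ M ∧
      (∑ p ∈ P, own p = M → ∀ p ∈ P, 1 ≤ own p → ∃ q ∈ P, (M : ℤ) ∣ p + own p - q) := by
  have hM' : (0 : ℤ) < M := by exact_mod_cast hM
  -- injectivity
  have hinj : ∀ p ∈ P, ∀ q ∈ P, ∀ k k' : ℕ, k < own p → k' < own q →
      (M : ℤ) ∣ (p + k) - (q + k') → p = q ∧ k = k' := by
    intro p hp q hq k k' hk hk' hd
    rcases le_total k' k with hle | hle
    · have h1 : (M : ℤ) ∣ p + ((k - k' : ℕ) : ℤ) - q := by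
        rw [Nat.cast_sub hle]
        have e : p + ((k : ℤ) - k') - q = (p + k) - (q + k') := by ring
        rw [e]
        exact hd
      obtain ⟨h2, h3⟩ := h p hp q hq (k - k') (by omega) h1
      exact ⟨h2, by omega⟩
    · have h1 : (M : ℤ) ∣ q + ((k' - k : ℕ) : ℤ) - p := by
        rw [Nat.cast_sub hle]
        have e : q + ((k' : ℤ) - k) - p = -((p + k) - (q + k')) := by ring
        rw [e]
        exact (dvd_neg).2 hd
      obtain ⟨h2, h3⟩ := h q hq p hp (k' - k) (by omega) h1
      exact ⟨h2.symm, by omega⟩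
  set T : Finset (Σ _ : ℤ, ℕ) := P.sigma (fun p => Finset.range (own p)) with hT
  have hcard : T.card = ∑ p ∈ P, own p := by
    rw [hT, Finset.card_sigma]
    simp
  set φ : (Σ _ : ℤ, ℕ) → ℤ := fun x => (x.1 + x.2) % M with hφ
  have hmaps : ∀ x ∈ T, φ x ∈ Finset.Ico (0 : ℤ) M := by
    intro x _
    rw [Finset.mem_Ico]
    exact ⟨Int.emod_nonneg _ hM'.ne', Int.emod_lt_of_pos _ hM'⟩
  have hinj' : Set.InjOn φ T := by
    rintro ⟨p, k⟩ hx ⟨q, k'⟩ hy hxy
    have hx' := Finset.mem_sigma.1 (Finset.mem_coe.1 hx)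
    have hy' := Finset.mem_sigma.1 (Finset.mem_coe.1 hy)
    have h1 : (M : ℤ) ∣ (p + k) - (q + k') := Int.ModEq.dvd (Int.ModEq.symm hxy)
    obtain ⟨h2, h3⟩ := hinj p hx'.1 q hy'.1 k k' (Finset.mem_range.1 hx'.2)
      (Finset.mem_range.1 hy'.2) h1
    subst h2
    subst h3
    rfl
  have hcI : (Finset.Ico (0 : ℤ) M).card = M := by simp
  refine ⟨?_, ?_⟩
  · rw [← hcard, ← hcI]
    exact Finset.card_le_card_of_injOn φ hmaps hinj'
  · intro hsum p hp hp1
    have himg : T.image φ = Finset.Ico (0 : ℤ) M := by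
      apply Finset.eq_of_subset_of_card_le
      · intro y hy
        obtain ⟨x, hx, rfl⟩ := Finset.mem_image.1 hy
        exact hmaps x hx
      · rw [Finset.card_image_of_injOn hinj', hcard, hsum, hcI]
    have hmem : (p + own p) % M ∈ T.image φ := by
      rw [himg, Finset.mem_Ico]
      exact ⟨Int.emod_nonneg _ hM'.ne', Int.emod_lt_of_pos _ hM'⟩
    obtain ⟨⟨q, k'⟩, hx, hxe⟩ := Finset.mem_image.1 hmem
    have hx' := Finset.mem_sigma.1 hx
    have hk' : k' < own q := Finset.mem_range.1 hx'.2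
    have hd : (M : ℤ) ∣ (p + own p) - (q + k') := Int.ModEq.dvd hxe
    rcases Nat.eq_zero_or_pos k' with h0 | h0
    · refine ⟨q, hx'.1, ?_⟩
      rw [h0] at hd
      simpa using hd
    · exfalso
      have h1 : (M : ℤ) ∣ (p + ((own p - 1 : ℕ) : ℤ)) - (q + ((k' - 1 : ℕ) : ℤ)) := by
        rw [Nat.cast_sub hp1, Nat.cast_sub h0]
        have e : (p + ((own p : ℤ) - ((1 : ℕ) : ℤ))) - (q + ((k' : ℤ) - ((1 : ℕ) : ℤ))) =
            (p + own p) - (q + k') := by ring
        rw [e]
        exact hd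
      obtain ⟨h2, h3⟩ := hinj p hp q hx'.1 (own p - 1) (k' - 1) (by omega) (by omega) h1
      subst h2
      omega

end Pool.Agent.BND
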