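import Pool.Agent.BND.BC1
import Pool.Agent.BND.GR3
import Pool.Agent.BND.CM1

/-!
# BND-BC : the outside is `Bic` with at least three vertices: basic inequalities

Notation: `B = Bs v c`, `K = Cs v c`, `N = NN G K B`.

`tri_arc4`: `i < k < j < i + c`, `v i, v k, v j` pairwise `Ind`: then `4 ≤ j - i`.
Proof: independent vertices are joined by an ear with at least 3 inner vertices (`ear3`:
`Bic.long_pth`).  If `s i = s j` then by `arc_ear` `j - i ≥ 4`.  Otherwise `s i = s k` or `s k = s j`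
(values in `ZMod 2`), so `k - i ≥ 4` or `j - k ≥ 4`.

`tri_arc`: moreover suppose `B ⊄ ctrs G K B`.  Then `d + 3 ≤ (j - i) + N`, and
`d + 4 ≤ (j - i) + N` if `v i` or `v j` is a clone (`|att| = 1`).
Proof.  If `s i = s j`: `via_gen` gives `J` from `v i` to `v j` through `v k` with `d + 2 ≤ |J| + N`
(`d + 3` if `v i` is a clone; if `v j` is a clone use `via_gen` from `v j` to `v i` and
`Via.reverse`) and `arc_via` gives `|J| + 1 ≤ j - i`.
If `s i ≠ s j`, then `s i = s k` or `s k = s j`; say `s i = s k`: `ear_gen` gives `I` from `v i` to `v k`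
with `d + 1 ≤ |I| + N`, and `|I| + 1 ≤ k - i ≤ j - i - 1`; if there is a clone then `ctrs ≠ ∅` and
`d + 2 ≤ |I| + N`.

`NN_lt`: `N + 1 ≤ d`.  Take representatives `R`, `|R| = N ≥ 3` (`three_le_NN`), `A i := v i ∈ R`, and
use `win` with `W = 4` (`4 ≤ c` by `tri_arc4` for three elements of `R`): `4 N ≤ 2 c ≤ 4 d - 4`.

`case_allctr`: `B ⊆ ctrs G K B` is impossible.
Proof.  `ctrs = B`, `β = |B| ≥ 3`, `h = |hubs|`, `N = h + β ≤ d - 1`, `m := d + 1 - N ≥ 2`.
Each cluster has at least `m` elements (`cluster_card`).  `P = TT G K B`, `own u = 4` for hubs, `2` for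
the others.  If `u ≠ w` are in `TT` then there is an ear of length `≥ own u`; so if `v i = u`,
`v j = w`, `i < j < i + c`, `s i = s j`, then `own u ≤ j - i`.  Apply `int_count` with `M = 2 c` to
the set `P'` of positions `p ∈ [0, 2c)` with `v p ∈ TT`, `s p = 0`, if `τ = 1` (every element of `TT`
has exactly one such position), and to `P'₀`, `P'₁` (positions in `[0, c)` with `v p ∈ TT`, `s p = 0`
resp. `s p = 1`), `M = c`, if `τ = 0`.  (`own ≤ 4 ≤ c` as `|TT| ≥ 6`; for the hypothesis of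
`int_count` in the case `M = 2 c`: `k < own p ≤ 4 ≤ c`, so `p + k` is a position of a genuine arc.)
We get `∑ own ≤ 2 c`, where the sum is over `TT`, so
`4 h + 2 ∑ k_y ≤ 2 c ≤ 4 d - 4 = 4 (h + β + m - 1) - 4`.  Since `∑ k_y ≥ β m`,
`2 β m ≤ 4 β + 4 m - 8`, i.e. `(β - 2)(m - 2) ≤ 0`, so `m = 2`, all inequalities are equalities:
`c = 2 d - 2`, all clusters have exactly 2 elements (`∑ k_y = 2 β`), and equality holds in
`int_count` (in both circles if `τ = 0`).  Now take a clone `u` in `K_y` at position `p`.  By the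
equality part there is an element `w` of `TT` of the same class at position `p + 2`;
it must be in the same cluster (otherwise the arc would have length `≥ 4`; note `c > 2`), so it is
again a clone at `y`, and so on: all `p + 2 t` (`t ≥ 0`) are positions of class `s p` of clones at `y`.
`c = 2 d - 2`, `d ≥ 4` (as `N = d - 1 ≥ 3`), so `p, p + 2, p + 4` are positions of three different
vertices of the cluster `K_y` of size `2`.  Contradiction.
-/

set_option autoImplicit false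
set_option linter.unusedSectionVars false

namespace Pool.Agent.BND

open Classical

variable {V : Type} [Fintype V]
variable {G : SimpleGraph V} {ε : V → V → ZMod 2} {τ : ZMod 2} {d c : ℕ} {v : ℤ → V}
  {s : ℤ → ZMod 2}

/-- the number of positions owned by a vertex -/
noncomputable def bc2_ow (G : SimpleGraph V) (D : Finset V) (u : V) : ℕ :=
  if 2 ≤ (att G D u).card then 4 else 2

theorem bc2_ow_le (D : Finset V) (u : V) : bc2_ow G D u ≤ 4 := by
  unfold bc2_ow; split_ifs <;> omega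

theorem bc2_ne (h : NCtx G ε τ d c v s) {i j : ℤ} (hij : i < j) (hj : j < i + c) :
    v i ≠ v j := by
  intro e
  have h1 : (c : ℤ) ∣ j - i := (h.inj j i).1 e.symm
  have h2 := Int.le_of_dvd (by omega) h1
  omega

theorem bc2_arc (h : NCtx G ε τ d c v s) (hB : Bic G (Bs v c)) (h3 : 3 ≤ (Bs v c).card)
    {i j : ℤ} (hij : i < j) (hj : j < i + c) (hs : s i = s j)
    (hi : v i ∈ TT G (Cs v c) (Bs v c)) (hj' : v j ∈ TT G (Cs v c) (Bs v c)) :
    (bc2_ow G (Bs v c) (v i) : ℤ) ≤ j - i ∧ (Ind G (Bs v c) (v i) (v j) → 4 ≤ j - i) := by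
  have hind : Ind G (Bs v c) (v i) (v j) → 4 ≤ j - i := by
    intro hI
    obtain ⟨I, hI1, hI2⟩ := ear3 hB h3 hI
    have := h.arc_ear hij hj hs hI1
    omega
  have hne : v i ≠ v j := bc2_ne h hij hj
  refine ⟨?_, hind⟩
  unfold bc2_ow
  split_ifs with h2
  · exact_mod_cast hind (ind_of_hub h2 hj' hne)
  · obtain ⟨I, hI⟩ := h.tp_ear ((h.tp_iff i).2 hi) ((h.tp_iff j).2 hj')
    have h5 := h.arc_ear hij hj hs hI
    have h6 : 1 ≤ I.length := List.length_pos_iff.2 hI.ne
    push_cast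
    omega

theorem bc2_per {M : ℕ} (hs : ∀ i : ℤ, s (i + M) = s i) {i j : ℤ} (h : (M : ℤ) ∣ i - j) :
    s i = s j := by
  obtain ⟨n, hn⟩ := h
  have hp : Function.Periodic s (M : ℤ) := hs
  have h1 := hp.int_mul n j
  have : i = j + n * (M : ℤ) := by linarith
  rw [this]
  simpa using h1

theorem bc2_class (h : NCtx G ε τ d c v s) (hB : Bic G (Bs v c)) (h3 : 3 ≤ (Bs v c).card)
    (h4 : 4 ≤ c) (M : ℕ) (hM : 1 ≤ M) (hcM : c ∣ M) (hs : ∀ i : ℤ, s (i + M) = s i)
    (a : ZMod 2) :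
    (∑ k ∈ Finset.range M, if (v (k : ℤ) ∈ TT G (Cs v c) (Bs v c) ∧ s (k : ℤ) = a) then
        bc2_ow G (Bs v c) (v (k : ℤ)) else 0) ≤ M ∧
    ((∑ k ∈ Finset.range M, if (v (k : ℤ) ∈ TT G (Cs v c) (Bs v c) ∧ s (k : ℤ) = a) then
        bc2_ow G (Bs v c) (v (k : ℤ)) else 0) = M →
      ∀ i : ℤ, v i ∈ TT G (Cs v c) (Bs v c) → s i = a →
        v (i + bc2_ow G (Bs v c) (v i)) ∈ TT G (Cs v c) (Bs v c) ∧
        s (i + bc2_ow G (Bs v c) (v i)) = a) := by
  set F : Finset ℕ := (Finset.range M).filter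
    (fun k : ℕ => v (k : ℤ) ∈ TT G (Cs v c) (Bs v c) ∧ s (k : ℤ) = a) with hF
  set P : Finset ℤ := F.image (fun k : ℕ => (k : ℤ)) with hP
  have hcMz : (c : ℤ) ∣ (M : ℤ) := by exact_mod_cast hcM
  have hmemP : ∀ p : ℤ, p ∈ P → v p ∈ TT G (Cs v c) (Bs v c) ∧ s p = a ∧ 0 ≤ p ∧ p < M := by
    intro p hp
    rw [hP, Finset.mem_image] at hp
    obtain ⟨k, hk, rfl⟩ := hp
    rw [hF, Finset.mem_filter, Finset.mem_range] at hk
    refine ⟨hk.2.1, hk.2.2, by positivity, by exact_mod_cast hk.1⟩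
  have hsum : (∑ k ∈ Finset.range M, if (v (k : ℤ) ∈ TT G (Cs v c) (Bs v c) ∧ s (k : ℤ) = a) then
        bc2_ow G (Bs v c) (v (k : ℤ)) else 0) = ∑ p ∈ P, bc2_ow G (Bs v c) (v p) := by
    rw [hP, Finset.sum_image (by intro x _ y _ e; exact Nat.cast_injective e), hF,
      Finset.sum_filter]
  have key := int_count M hM P (fun p => bc2_ow G (Bs v c) (v p)) (by
    intro p hp q hq k hk hd
    obtain ⟨hp1, hp2, hp3, hp4⟩ := hmemP p hp
    obtain ⟨hq1, hq2, hq3, hq4⟩ := hmemP q hq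
    have hv : v (p + k) = v q := (h.inj _ _).2 (hcMz.trans hd)
    have hsq : s (p + k) = s q := bc2_per hs hd
    have hk0 : k = 0 := by
      by_contra hk0
      have hk1 : 1 ≤ k := Nat.one_le_iff_ne_zero.2 hk0
      have hle := bc2_ow_le (G := G) (Bs v c) (v p)
      have hk' : k < bc2_ow G (Bs v c) (v p) := hk
      have := (bc2_arc h hB h3 (i := p) (j := p + k) (by omega) (by omega)
        (by rw [hp2, hsq, hq2]) hp1 (by rw [hv]; exact hq1)).1
      omega
    subst hk0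
    refine ⟨?_, rfl⟩
    have hd' : (M : ℤ) ∣ p - q := by simpa using hd
    obtain ⟨n, hn⟩ := hd'
    have hn0 : n = 0 := by
      by_contra hn0
      rcases lt_or_gt_of_ne hn0 with h1 | h1
      · nlinarith
      · nlinarith
    rw [hn0] at hn
    linarith)
  rw [hsum]
  refine ⟨key.1, ?_⟩
  intro heq i hi hsi
  have hMpos : (0 : ℤ) < M := by exact_mod_cast hM
  set p : ℤ := i % M with hp
  have hp0 : 0 ≤ p := Int.emod_nonneg _ (by omega)
  have hp1 : p < M := Int.emod_lt_of_pos _ hMpos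
  have hpd : (M : ℤ) ∣ i - p := Int.dvd_self_sub_emod
  have hvp : v i = v p := (h.inj _ _).2 (hcMz.trans hpd)
  have hsp : s i = s p := bc2_per hs hpd
  have hpP : p ∈ P := by
    rw [hP, Finset.mem_image]
    refine ⟨p.toNat, ?_, Int.toNat_of_nonneg hp0⟩
    rw [hF, Finset.mem_filter, Finset.mem_range, Int.toNat_of_nonneg hp0]
    refine ⟨by omega, by rw [← hvp]; exact hi, by rw [← hsp]; exact hsi⟩
  have how : 1 ≤ bc2_ow G (Bs v c) (v p) := by unfold bc2_ow; split_ifs <;> omega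
  obtain ⟨q, hq, hqd⟩ := key.2 heq p hpP how
  obtain ⟨hq1, hq2, hq3, hq4⟩ := hmemP q hq
  have hd2 : (M : ℤ) ∣ (i + (bc2_ow G (Bs v c) (v i) : ℤ)) - q := by
    have h5 : (M : ℤ) ∣ p + (bc2_ow G (Bs v c) (v p) : ℤ) - q := hqd
    have : (i + (bc2_ow G (Bs v c) (v i) : ℤ)) - q
      = (i - p) + (p + (bc2_ow G (Bs v c) (v p) : ℤ) - q) := by rw [hvp]; ring
    rw [this]
    exact dvd_add hpd h5
  refine ⟨?_, ?_⟩
  · rw [(h.inj _ _).2 (hcMz.trans hd2)]; exact hq1
  · rw [bc2_per hs hd2]; exact hq2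

theorem bc2_sumK (h : NCtx G ε τ d c v s) :
    (∑ k ∈ Finset.range c, if (v (k : ℤ) ∈ TT G (Cs v c) (Bs v c)) then
        bc2_ow G (Bs v c) (v (k : ℤ)) else 0) = ∑ u ∈ TT G (Cs v c) (Bs v c), bc2_ow G (Bs v c) u := by
  rw [← Finset.sum_filter]
  have himg : TT G (Cs v c) (Bs v c) = ((Finset.range c).filter
      (fun k : ℕ => v (k : ℤ) ∈ TT G (Cs v c) (Bs v c))).image (fun k : ℕ => v (k : ℤ)) := by
    ext u
    rw [Finset.mem_image]
    constructor
    · intro hu
      have hK : u ∈ Cs v c := (mem_TT.1 hu).1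
      rw [Cs, Finset.mem_image] at hK
      obtain ⟨k, hk, rfl⟩ := hK
      exact ⟨k, Finset.mem_filter.2 ⟨hk, hu⟩, rfl⟩
    · rintro ⟨k, hk, rfl⟩
      exact (Finset.mem_filter.1 hk).2
  have hinj : Set.InjOn (fun k : ℕ => v (k : ℤ)) ((Finset.range c).filter
      (fun k : ℕ => v (k : ℤ) ∈ TT G (Cs v c) (Bs v c))) := by
    intro x hx y hy e
    have hx' := Finset.mem_range.1 (Finset.mem_filter.1 hx).1
    have hy' := Finset.mem_range.1 (Finset.mem_filter.1 hy).1
    rcases lt_trichotomy x y with h1 | h1 | h1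
    · exact absurd e (bc2_ne h (i := x) (j := y) (by omega) (by omega))
    · exact h1
    · exact absurd e.symm (bc2_ne h (i := y) (j := x) (by omega) (by omega))
  conv_rhs => rw [himg]
  rw [Finset.sum_image hinj]

theorem bc2_sumT (G : SimpleGraph V) (K D : Finset V) :
    ∑ u ∈ TT G K D, bc2_ow G D u = 4 * (hubs G K D).card +
      2 * ∑ y ∈ ctrs G K D, (K.filter (fun u => att G D u = {y})).card := by
  have h1 : ∀ u ∈ TT G K D, bc2_ow G D u = 2 + if 2 ≤ (att G D u).card then 2 else 0 := by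
    intro u _
    unfold bc2_ow
    split_ifs <;> rfl
  rw [Finset.sum_congr rfl h1, Finset.sum_add_distrib, ← Finset.sum_filter, Finset.sum_const,
    Finset.sum_const]
  have h2 : (TT G K D).filter (fun u => 2 ≤ (att G D u).card) = hubs G K D := by
    ext u
    simp only [TT, hubs, Finset.mem_filter]
    constructor
    · rintro ⟨⟨h3, _⟩, h4⟩; exact ⟨h3, h4⟩
    · rintro ⟨h3, h4⟩
      exact ⟨⟨h3, Finset.card_pos.1 (by omega)⟩, h4⟩
  rw [h2, TT_card]
  simp only [smul_eq_mul]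
  ring

/-- the whole count -/
theorem bc2_total (h : NCtx G ε τ d c v s) (hB : Bic G (Bs v c)) (h3 : 3 ≤ (Bs v c).card)
    (h4 : 4 ≤ c) :
    ∑ u ∈ TT G (Cs v c) (Bs v c), bc2_ow G (Bs v c) u ≤ 2 * c ∧
    (∑ u ∈ TT G (Cs v c) (Bs v c), bc2_ow G (Bs v c) u = 2 * c →
      ∀ i : ℤ, v i ∈ TT G (Cs v c) (Bs v c) →
        v (i + bc2_ow G (Bs v c) (v i)) ∈ TT G (Cs v c) (Bs v c) ∧
        s (i + bc2_ow G (Bs v c) (v i)) = s i) := by
  rw [← bc2_sumK h]
  set f : ZMod 2 → ℕ → ℕ := fun a k =>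
    if (v (k : ℤ) ∈ TT G (Cs v c) (Bs v c) ∧ s (k : ℤ) = a) then
        bc2_ow G (Bs v c) (v (k : ℤ)) else 0 with hf
  have hsplit : ∀ a : ZMod 2,
      (∑ k ∈ Finset.range c, if (v (k : ℤ) ∈ TT G (Cs v c) (Bs v c)) then
        bc2_ow G (Bs v c) (v (k : ℤ)) else 0)
      = ∑ k ∈ Finset.range c, f a k + ∑ k ∈ Finset.range c, f (a + 1) k := by
    intro a
    rw [← Finset.sum_add_distrib]
    refine Finset.sum_congr rfl ?_
    intro k _
    simp only [hf]
    by_cases hk : v (k : ℤ) ∈ TT G (Cs v c) (Bs v c)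
    · have key : ∀ x a : ZMod 2, (x = a ∧ x ≠ a + 1) ∨ (x ≠ a ∧ x = a + 1) := by decide
      rcases key (s (k : ℤ)) a with ⟨h1, h2⟩ | ⟨h1, h2⟩
      · simp [hk, h1]
      · simp [hk, h2]
    · simp [hk]
  rcases zmod2_cases τ with hτ | hτ
  · -- two circles
    have hs : ∀ i : ℤ, s (i + (c : ℕ)) = s i := by
      intro i; rw [h.per, hτ, add_zero]
    have h0 := bc2_class h hB h3 h4 c (by omega) (dvd_refl c) hs 0
    have h1 := bc2_class h hB h3 h4 c (by omega) (dvd_refl c) hs (0 + 1)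
    have hsp := hsplit 0
    refine ⟨?_, ?_⟩
    · rw [hsp]
      have := h0.1
      have := h1.1
      simp only [hf]
      omega
    · intro heq
      rw [hsp] at heq
      have e0 := h0.1
      have e1 := h1.1
      simp only [hf] at heq
      have f0 := h0.2 (by omega)
      have f1 := h1.2 (by omega)
      intro i hi
      rcases zmod2_cases (s i) with hi0 | hi1
      · rw [hi0]; exact f0 i hi hi0
      · rw [hi1]; exact f1 i hi (by rw [hi1]; rfl)
  · -- one circle of length `2 c`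
    have hs : ∀ i : ℤ, s (i + ((2 * c : ℕ) : ℤ)) = s i := by
      intro i
      have e1 : i + ((2 * c : ℕ) : ℤ) = (i + c) + c := by push_cast; ring
      rw [e1, h.per, h.per, hτ, add_assoc]
      have : (1 : ZMod 2) + 1 = 0 := by decide
      rw [this, add_zero]
    have hsum : ∀ a : ZMod 2, ∑ k ∈ Finset.range (2 * c), f a k
        = ∑ k ∈ Finset.range c, f a k + ∑ k ∈ Finset.range c, f (a + 1) k := by
      intro a
      rw [two_mul, Finset.sum_range_add]
      congr 1
      refine Finset.sum_congr rfl ?_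
      intro k _
      have e1 : ((c + k : ℕ) : ℤ) = (k : ℤ) + c := by push_cast; ring
      have e2 : v ((k : ℤ) + c) = v (k : ℤ) := (h.inj _ _).2 ⟨1, by ring⟩
      have e3 : s ((k : ℤ) + c) = s (k : ℤ) + 1 := by rw [h.per, hτ]
      have key : ∀ x a : ZMod 2, (x + 1 = a) ↔ (x = a + 1) := by decide
      simp only [hf, e1, e2, e3, key]
    have h0 := bc2_class h hB h3 h4 (2 * c) (by omega) (Dvd.intro_left 2 rfl) hs
    refine ⟨?_, ?_⟩
    · rw [hsplit 0, ← hsum 0]
      exact (h0 0).1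
    · intro heq i hi
      refine (h0 (s i)).2 ?_ i hi rfl
      have := hsum (s i)
      simp only [hf] at this
      rw [this, ← heq]
      have := hsplit (s i)
      simp only [hf] at this
      exact this.symm

theorem bc2_arith {hh β N d c S : ℕ} (hN : N = hh + β) (hNd : N + 1 ≤ d) (hb : 3 ≤ β)
    (hS : β * (d + 1) ≤ β * N + S) (hc : c + 2 ≤ 2 * d) (hle : 4 * hh + 2 * S ≤ 2 * c) :
    d + 1 = N + 2 ∧ S = 2 * β ∧ 4 * hh + 2 * S = 2 * c := by
  obtain ⟨m, hm⟩ : ∃ m, d + 1 = N + (m + 2) := ⟨d + 1 - N - 2, by omega⟩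
  have h1 : β * (m + 2) ≤ S := by
    rw [hm, mul_add] at hS
    omega
  have hm0 : m = 0 := by
    by_contra hne
    have hm1 : 1 ≤ m := Nat.one_le_iff_ne_zero.2 hne
    obtain ⟨b, rfl⟩ : ∃ b, β = b + 3 := ⟨β - 3, by omega⟩
    have : (b + 3) * (m + 2) = b * m + 2 * b + 3 * m + 6 := by ring
    have hbm : 0 ≤ b * m := Nat.zero_le _
    omega
  subst hm0
  omega

theorem case_allctr (h : NCtx G ε τ d c v s) (hB : Bic G (Bs v c)) (h3 : 3 ≤ (Bs v c).card)
    (hall : Bs v c ⊆ ctrs G (Cs v c) (Bs v c)) : False := by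
  have hctr : ctrs G (Cs v c) (Bs v c) = Bs v c :=
    Finset.Subset.antisymm (Finset.filter_subset _ _) hall
  have hNN : NN G (Cs v c) (Bs v c) = (hubs G (Cs v c) (Bs v c)).card + (Bs v c).card := by
    unfold NN; rw [hctr]
  have hlt := NN_lt h hB h3
  have hcl : ∀ y ∈ Bs v c, d + 1 ≤ NN G (Cs v c) (Bs v c) +
      ((Cs v c).filter (fun u => att G (Bs v c) u = {y})).card :=
    fun y hy => cluster_card h.cc hall hy
  have hTc := TT_card G (Cs v c) (Bs v c)
  have hST := bc2_sumT G (Cs v c) (Bs v c)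
  rw [hctr] at hTc hST
  set S : ℕ := ∑ y ∈ Bs v c, ((Cs v c).filter (fun u => att G (Bs v c) u = {y})).card with hS
  have hSge : (Bs v c).card * (d + 1) ≤ (Bs v c).card * NN G (Cs v c) (Bs v c) + S := by
    have h1 := Finset.sum_le_sum hcl
    have h2 : ∑ y ∈ Bs v c, (d + 1) = (Bs v c).card * (d + 1) := by simp
    have h5 : ∑ y ∈ Bs v c, (NN G (Cs v c) (Bs v c) +
        ((Cs v c).filter (fun u => att G (Bs v c) u = {y})).card) =
        (Bs v c).card * NN G (Cs v c) (Bs v c) + S := by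
      rw [Finset.sum_add_distrib, Finset.sum_const, smul_eq_mul, ← hS]
    rw [h2, h5] at h1
    exact h1
  have hc6 : 6 ≤ c := by
    have h1 : (TT G (Cs v c) (Bs v c)).card ≤ (Cs v c).card :=
      Finset.card_le_card (Finset.filter_subset _ _)
    have h2 : (Cs v c).card ≤ c := by
      have := Finset.card_image_le (s := Finset.range c) (f := fun k : ℕ => v (k : ℤ))
      rw [Finset.card_range] at this
      exact this
    have h5 : (Bs v c).card * 2 ≤ S := by
      have : ∀ y ∈ Bs v c, 2 ≤ ((Cs v c).filter (fun u => att G (Bs v c) u = {y})).card := by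
        intro y hy
        have := hcl y hy
        omega
      have := Finset.card_nsmul_le_sum (Bs v c) _ 2 this
      simpa using this
    omega
  obtain ⟨ht1, ht2⟩ := bc2_total h hB h3 (by omega)
  rw [hST] at ht1 ht2
  obtain ⟨e1, e2, e3⟩ := bc2_arith hNN hlt h3 hSge h.hc ht1
  have hnext := ht2 e3
  have hk2 : ∀ y ∈ Bs v c, ((Cs v c).filter (fun u => att G (Bs v c) u = {y})).card = 2 := by
    have hge : ∀ y ∈ Bs v c, 2 ≤ ((Cs v c).filter (fun u => att G (Bs v c) u = {y})).card := by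
      intro y hy
      have := hcl y hy
      omega
    have hsum2 : ∑ y ∈ Bs v c, 2 = ∑ y ∈ Bs v c,
        ((Cs v c).filter (fun u => att G (Bs v c) u = {y})).card := by
      rw [Finset.sum_const, ← hS, e2]; simp [mul_comm]
    have := (Finset.sum_eq_sum_iff_of_le hge).1 hsum2
    intro y hy
    exact (this y hy).symm
  obtain ⟨y, hy⟩ : (Bs v c).Nonempty := Finset.card_pos.1 (by omega)
  have hmem : ∀ w, w ∈ (Cs v c).filter (fun u => att G (Bs v c) u = {y}) ↔
      w ∈ TT G (Cs v c) (Bs v c) ∧ att G (Bs v c) w = {y} := by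
    intro w
    simp only [TT, Finset.mem_filter]
    constructor
    · rintro ⟨h5, h6⟩; exact ⟨⟨h5, by rw [h6]; exact Finset.singleton_nonempty y⟩, h6⟩
    · rintro ⟨⟨h5, _⟩, h6⟩; exact ⟨h5, h6⟩
  -- the step
  have step : ∀ i : ℤ, v i ∈ (Cs v c).filter (fun u => att G (Bs v c) u = {y}) →
      v (i + 2) ∈ (Cs v c).filter (fun u => att G (Bs v c) u = {y}) := by
    intro i hi
    obtain ⟨hiT, hia⟩ := (hmem _).1 hi
    have how : bc2_ow G (Bs v c) (v i) = 2 := by
      unfold bc2_ow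
      rw [hia, Finset.card_singleton]
      simp
    obtain ⟨h5, h6⟩ := hnext i hiT
    rw [how] at h5 h6
    have h5' : v (i + 2) ∈ TT G (Cs v c) (Bs v c) := h5
    have h6' : s (i + 2) = s i := h6
    have hne : v i ≠ v (i + 2) := bc2_ne h (by omega) (by omega)
    have hnI : ¬ Ind G (Bs v c) (v i) (v (i + 2)) := by
      intro hI
      have := (bc2_arc h hB h3 (i := i) (j := i + 2) (by omega) (by omega) h6'.symm hiT h5').2 hI
      omega
    obtain ⟨x, _, hx1, hx2⟩ := not_ind hiT h5' hne hnI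
    rw [hmem]
    refine ⟨h5', ?_⟩
    rw [hx2, ← hx1, hia]
  obtain ⟨u, hu⟩ : ((Cs v c).filter (fun u => att G (Bs v c) u = {y})).Nonempty :=
    Finset.card_pos.1 (by rw [hk2 y hy]; omega)
  have huK : u ∈ Cs v c := (Finset.mem_filter.1 hu).1
  rw [Cs, Finset.mem_image] at huK
  obtain ⟨k, _, rfl⟩ := huK
  have m1 := step _ hu
  have m2 := step _ m1
  have n1 : v (k : ℤ) ≠ v ((k : ℤ) + 2) := bc2_ne h (by omega) (by omega)
  have n2 : v (k : ℤ) ≠ v ((k : ℤ) + 2 + 2) := bc2_ne h (by omega) (by omega)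
  have n3 : v ((k : ℤ) + 2) ≠ v ((k : ℤ) + 2 + 2) := bc2_ne h (by omega) (by omega)
  have hsub : ({v (k : ℤ), v ((k : ℤ) + 2), v ((k : ℤ) + 2 + 2)} : Finset V) ⊆
      (Cs v c).filter (fun u => att G (Bs v c) u = {y}) := by
    intro w hw
    simp only [Finset.mem_insert, Finset.mem_singleton] at hw
    rcases hw with rfl | rfl | rfl
    · exact hu
    · exact m1
    · exact m2
  have hc3 : ({v (k : ℤ), v ((k : ℤ) + 2), v ((k : ℤ) + 2 + 2)} : Finset V).card = 3 :=
    Finset.card_eq_three.2 ⟨_, _, _, n1, n2, n3, rfl⟩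
  have := Finset.card_le_card hsub
  rw [hc3, hk2 y hy] at this
  omega

end Pool.Agent.BND
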