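import Pool.Agent.BND.CM1

/-!
# BND-CE : the circle combinatorics for the case of a cut vertex outside

Data: `c + 2 ≤ 2 d`, `s : ℤ → ZMod 2` with `s (i + c) = s i + τ`, two `c`-periodic sets `A₁, A₂` of
positions, with `N₁, N₂ ≥ 2` elements per period, numbers `2 ≤ fₐ ≤ d - 1`, `Nₐ fₐ ≥ 2 (d - 1)`.
Same class means equal value of `s`.
 (c11) two elements `i < j < i + c` of `A₁` of the same class have `f₁ ≤ j - i`; (c22) similarly;
 (c12), (c21): an element `i` of `A₁` and an element `j` of `A₂` of the same class (in either order),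
 `i < j < i + c`, have `f₁ + f₂ ≤ j - i`.
 (typ a): either `fₐ = 2`, `d ≤ Nₐ + 1`; or (`fₐ = d - 1` or (`3 ≤ fₐ`, `d + 1 ≤ fₐ + Nₐ`)) and
 two elements `i < j < i + c` of `Aₐ` of the same class have `fₐ + 1 ≤ j - i`.
Conclusion: one of the following.
 (star) `τ = 0`, `f₁ = f₂ = d - 1` and there are `p < q < p + c` both in `A₁ ∩ A₂`, of different
   classes.
 (b) `4 ≤ c` and there is `p` with `p, p+2 ∈ A₁`, `p+1, p+3 ∈ A₂`, `s (p+1) = s p + 1`,
   `s (p+2) = s p`, `s (p+3) = s p + 1`.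
 (a1) `8 ≤ c` and there is `p` with `p, p+1, p+4, p+5 ∈ A₁ ∩ A₂`, `s (p+1) = s p + 1`,
   `s (p+5) = s (p+4) + 1`.
 (a2) `c + 2 = 2 d`, `4 ≤ d`, and there is `p` such that for all `k`, `p + 2k ∈ A₁ ∩ A₂`,
   `s (p + 2k + 2) = s (p + 2k) + 1`.

Proof.  `own i := [A₁ i] f₁ + [A₂ i] f₂`.  From (c..): if `i < j < i + c`, both in `A₁ ∪ A₂` and of
the same class then `own i ≤ j - i` and `own j ≤ j - i`. (Check: `i ∈ A₁ \ A₂`: `j ∈ A₁` (c11) or
`j ∈ A₂` (c12); `i ∈ A₁ ∩ A₂`: if `j ∈ A₁` use `i ∈ A₂` (c21), if `j ∈ A₂` use (c12).)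
`∑ own` over one period is `N₁ f₁ + N₂ f₂ ≥ 4 (d - 1) ≥ 2 c`.

Case `τ = 1` (`ce_one`).  If `i` is any element of `A₁ ∪ A₂` and `j` an element with a different
residue (exists as `Nₐ ≥ 2`), `i < j < i + c`, then `s j = s i` or `s j = s (i + c)`, so
`own i ≤ j - i < c` or `own i ≤ i + c - j < c`.  So `own < c` everywhere.
Let `P` be the set of `p ∈ [0, 2 c)` in `A₁ ∪ A₂` with `s p = 0`: each residue class mod `c` of
`A₁ ∪ A₂` has exactly one representative in `P`.  `int_count` with `M = 2 c` (if `0 < k < own p < c`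
and `p + k ≡ q` mod `2c`, `q ∈ P`, then `p < p + k < p + c` are elements of the same class,
contradiction): `2 c ≤ 4(d-1) ≤ ∑_P own ≤ 2 c`.  So equality everywhere: `c + 2 = 2 d`,
`Nₐ fₐ = 2 (d - 1)`, and for every `p ∈ A₁ ∪ A₂`, `p + own p ∈ A₁ ∪ A₂` has the same class as `p`
(for `p` of class `0` from the equality part; for `p` of class `1` apply it to `p + c`).  We call
this (T).  Note also `own (p + own p) ≤ own p` by the inequality above.
 (T1) `p ∈ A₁ \ A₂`: `q = p + f₁` has the same class, `q ∉ A₂` (otherwise `f₁ + f₂ ≤ f₁`), so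
 `q ∈ A₁ \ A₂` and type 1 is the first one (`f₁ = 2`) (otherwise `f₁ + 1 ≤ f₁`).  So `p + 2 k` is in
 `A₁ \ A₂` and has class `s p` for all `k ≥ 0`; but `c` is even and `s (p + c) = s p + 1`.
 Contradiction.  Similarly no `p ∈ A₂ \ A₁`.  So `A₁ = A₂`, `N₁ = N₂ = N`, `f₁ = f₂ = f`
 (`N f₁ = N f₂`), `own = 2 f < c = 2 (d - 1)`, so `f < d - 1` and `N ≥ 3`.
 Type 1 is the first: otherwise `3 ≤ f` and `d + 1 ≤ f + N`, `N f = 2 (d - 1)`:
 if `N ≥ d`: `N f ≥ 3 d`; if `3 ≤ N ≤ d - 1`, `N f ≥ N (d + 1 - N) ≥ 2 (d - 1)` with equality only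
 for `N = d - 1`, then `f = 2`.  Contradiction.  So `f = 2`, `N = d - 1 ≥ 3`, `d ≥ 4`, and by (T)
 `A₁` is invariant under `+4` with the same class.  `c = 2 (d - 1)`.  If `4 ∣ c` then
 `s (p + c) = s p`, contradiction; so `c ≡ 2 mod 4`, `c + 2 = 4 t`, and for `p ∈ A₁`,
 `p + 2 + c = p + 4 t ∈ A₁` has class `s p`, so `p + 2 ∈ A₁` and `s (p + 2) = s p + 1`.  This is (a2).

Case `τ = 0` (`ce_zero`).  `s` is `c`-periodic.  For `e = 0, 1` let `Pₑ` be the set of `p ∈ [0, c)`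
in `A₁ ∪ A₂` of class `e`; `Sₑ = ∑_{Pₑ} own`; `S₀ + S₁ = N₁ f₁ + N₂ f₂ ≥ 4 (d - 1) ≥ 2 c`.
If `|Pₑ| ≥ 2` then `own < c` on `Pₑ` and `int_count` with `M = c` gives `Sₑ ≤ c`.
 (i) `|Pₑ| = 1` for `e = 0` or `1`, say `P₀ = {u}` (`P₁` treated in the same way).  Suppose also
 `|P₁| ≥ 2`, so `S₁ ≤ c`.  `own u ≤ f₁ + f₂ ≤ 2 (d - 1)`.  `S₁ ≥ (N₁ - [u ∈ A₁]) f₁ +
 (N₂ - [u ∈ A₂]) f₂`, and `own u = S₀ ≥ 4 (d - 1) - c ≥ 2 (d - 1)`, so `own u = 2 (d - 1)`:
 `u ∈ A₁ ∩ A₂`, `f₁ = f₂ = d - 1`, `c = 2 (d - 1)`, `S₁ = c = (N₁ - 1)(d - 1) + (N₂ - 1)(d - 1)`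
 so `N₁ = N₂ = 2`.  So `P₁` contains exactly one element `w₁` of `A₁` and exactly one element `w₂` of
 `A₂`; `|P₁| ≥ 2` so `w₁ ≠ w₂`; but by (c12)/(c21) the two arcs between them have length at
 least `f₁ + f₂ = c` each. Contradiction.  So `|P₁| ≤ 1`; as `N₁ ≥ 2`, `P₁ = {w}`, and
 `A₁ ∩ [0,c) = A₂ ∩ [0,c) = {u, w}`, `N₁ = N₂ = 2`, so `2 fₐ ≥ 2 (d - 1)`: `fₐ = d - 1`: (star).
 (ii) `P₀ = ∅`: then `S₁ ≥ 2 c > c ≥ S₁` (`|P₁| ≥ 2`), contradiction.  Similarly `P₁ ≠ ∅`.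
 (iii) `|P₀|, |P₁| ≥ 2`: `S₀ = S₁ = c`, `c = 2 (d - 1)`, `Nₐ fₐ = 2 (d - 1)`, and (T) holds again:
 `p + own p ∈ A₁ ∪ A₂` has the same class.
  If there is `p ∈ A₁ \ A₂`: as in (T1) `f₁ = 2`, `p + 2 k ∈ A₁ \ A₂` of class `s p` for all `k`;
  these are `c / 2` residues with own `2`, their sum is `c`, so these are all the elements of their
  class.  `A₂` is nonempty and disjoint from this class, so it has an element `q` of class `s p + 1`.
  If `q ∉ A₁`, then as before `f₂ = 2`, `q + 2k ∈ A₂ \ A₁` of class `s q`; the positions `≡ p mod 2`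
  are occupied by the class of `p`, so `q = p + 1 + 2 k'`: (b) (`c ≥ 4` since `d ≥ 3`).
  If `q ∈ A₁` then `N₁ ≥ c / 2 + 1 = d`, so `N₁ f₁ ≥ 2 d > 2 (d - 1)`, contradiction.
  Similarly if there is `p ∈ A₂ \ A₁` (exchange the roles of `A₁` and `A₂`; in (b) shift `p` by one).
  Otherwise `A₁ = A₂`, `N₁ = N₂ = N ≥ 4`, `f₁ = f₂ = f`, `N f = 2 (d - 1)`, so `f < d - 1`; as before
  the second type is impossible, `f = 2`, `N = d - 1`, `own = 4`, so `A₁` is invariant under `+4`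
  with the same class, and different elements of the same class have distance at least `4`.
  `S₀ = 4 |P₀| = c`, so `4 ∣ c`, and `|P₀| ≥ 2`, `c ≥ 8`.  Let `p` have class `0`, so that the
  class `0` elements are `p + 4 k`, and the class `1` elements are `q + 4 k`, `q = p + 1, p + 2` or
  `p + 3` (not `p`).  `q = p + 1`: (a1).  `q = p + 3`: (a1) with `p` replaced by `q = p + 3`, as
  `q + 1 = p + 4`.  `q = p + 2`: (a2), `d - 1 = c / 2 ≥ 4`.
-/

set_option autoImplicit false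
set_option linter.unusedSectionVars false

namespace Pool.Agent.BND

open Classical

section ce0

theorem ce0_per {Q : ℤ → Prop} {c : ℤ} (h : ∀ x, Q (x + c) ↔ Q x) (x k : ℤ) :
    Q (x + c * k) ↔ Q x := by
  induction k using Int.induction_on with
  | zero => simp
  | succ n ih =>
    have e : x + c * ((n : ℤ) + 1) = x + c * n + c := by ring
    rw [e, h, ih]
  | pred n ih =>
    have e : x + c * (-(n : ℤ)) = x + c * (-(n : ℤ) - 1) + c := by ring
    rw [e, h] at ih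
    exact ih

theorem ce0_shift {Q : ℤ → Prop} {g c : ℤ} (hg : 0 < g) (hc : 0 < c) (hgc : g ∣ c)
    (h1 : ∀ x, Q x → Q (x + g)) (h2 : ∀ x, Q (x + c) ↔ Q x) (x : ℤ) (hx : Q x) (k : ℤ) :
    Q (x + g * k) := by
  have hnat : ∀ n : ℕ, Q (x + g * n) := by
    intro n
    induction n with
    | zero => simpa using hx
    | succ n ih =>
      have e : x + g * ((n + 1 : ℕ) : ℤ) = x + g * n + g := by push_cast; ring
      rw [e]
      exact h1 _ ih
  obtain ⟨t, ht⟩ := hgc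
  have ht1 : 1 ≤ t := by
    by_contra hcon
    have : t ≤ 0 := by omega
    nlinarith
  rcases le_or_gt 0 k with hk | hk
  · have := hnat k.toNat
    rwa [Int.toNat_of_nonneg hk] at this
  · have h3 : 0 ≤ k + (-k) * t := by nlinarith
    have h4 := hnat (k + (-k) * t).toNat
    rw [Int.toNat_of_nonneg h3] at h4
    have e : x + g * (k + (-k) * t) = x + g * k + c * (-k) := by rw [ht]; ring
    rw [e, ce0_per h2] at h4
    exact h4

noncomputable def ce0_own (A₁ A₂ : ℤ → Prop) (f₁ f₂ : ℕ) (i : ℤ) : ℕ :=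
  (if A₁ i then f₁ else 0) + (if A₂ i then f₂ else 0)

noncomputable def ce0_P (c : ℕ) (s : ℤ → ZMod 2) (A₁ A₂ : ℤ → Prop) (e : ZMod 2) : Finset ℤ :=
  (Finset.Ico (0 : ℤ) c).filter (fun i => (A₁ i ∨ A₂ i) ∧ s i = e)

theorem ce0_card (A : ℤ → Prop) (c : ℕ) : ((Finset.Ico (0 : ℤ) c).filter A).card =
    ((Finset.range c).filter (fun k : ℕ => A k)).card := by
  rw [← Finset.card_image_of_injective ((Finset.range c).filter (fun k : ℕ => A k))
    (Nat.cast_injective (R := ℤ))]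
  congr 1
  ext i
  simp only [Finset.mem_filter, Finset.mem_Ico, Finset.mem_image, Finset.mem_range]
  constructor
  · rintro ⟨⟨h0, h1⟩, h2⟩
    have e : ((i.toNat : ℕ) : ℤ) = i := Int.toNat_of_nonneg h0
    refine ⟨i.toNat, ⟨by omega, ?_⟩, e⟩
    rw [e]
    exact h2
  · rintro ⟨k, ⟨h1, h2⟩, rfl⟩
    exact ⟨⟨by omega, by omega⟩, h2⟩

theorem ce0_z2 (a b : ZMod 2) : a = b ∨ a = b + 1 := by
  revert a b
  decide

theorem ce0_z2' (b : ZMod 2) : b ≠ b + 1 := by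
  revert b
  decide

theorem ce0_z2'' (b : ZMod 2) : b + 1 + 1 = b := by
  revert b
  decide

variable {c d f₁ f₂ N₁ N₂ : ℕ} {s : ℤ → ZMod 2} {A₁ A₂ : ℤ → Prop}

theorem ce0_mem {e : ZMod 2} {i : ℤ} : i ∈ ce0_P c s A₁ A₂ e ↔
    (0 ≤ i ∧ i < c) ∧ (A₁ i ∨ A₂ i) ∧ s i = e := by
  unfold ce0_P
  rw [Finset.mem_filter, Finset.mem_Ico]

theorem ce0_own_pos (h : CEH c d f₁ f₂ N₁ N₂ 0 s A₁ A₂) {i : ℤ} (hi : A₁ i ∨ A₂ i) :
    2 ≤ ce0_own A₁ A₂ f₁ f₂ i := by
  unfold ce0_own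
  have h1 := h.f1
  have h2 := h.f2
  rcases hi with hi | hi
  · rw [if_pos hi]
    omega
  · rw [if_pos hi]
    omega

theorem ce0_own_le (h : CEH c d f₁ f₂ N₁ N₂ 0 s A₁ A₂) {i j : ℤ} (h1 : i < j) (h2 : j < i + c)
    (h3 : s i = s j) (h5 : A₁ j ∨ A₂ j) :
    (ce0_own A₁ A₂ f₁ f₂ i : ℤ) ≤ j - i := by
  unfold ce0_own
  have g1 := h.f1
  have g2 := h.f2
  have hji : (0 : ℤ) ≤ j - i := by omega
  by_cases a1 : A₁ i
  · by_cases a2 : A₂ i
    · rw [if_pos a1, if_pos a2]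
      push_cast
      rcases h5 with h5 | h5
      · exact h.c21 i j h1 h2 h3 a2 h5
      · exact h.c12 i j h1 h2 h3 a1 h5
    · rw [if_pos a1, if_neg a2]
      push_cast
      rcases h5 with h5 | h5
      · have := h.c11 i j h1 h2 h3 a1 h5
        linarith
      · have := h.c12 i j h1 h2 h3 a1 h5
        have g3 : (0 : ℤ) ≤ f₂ := Int.natCast_nonneg _
        linarith
  · by_cases a2 : A₂ i
    · rw [if_neg a1, if_pos a2]
      push_cast
      rcases h5 with h5 | h5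
      · have := h.c21 i j h1 h2 h3 a2 h5
        have g3 : (0 : ℤ) ≤ f₁ := Int.natCast_nonneg _
        linarith
      · have := h.c22 i j h1 h2 h3 a2 h5
        linarith
    · rw [if_neg a1, if_neg a2]
      push_cast
      linarith

theorem ce0_swap (h : CEH c d f₁ f₂ N₁ N₂ 0 s A₁ A₂) : CEH c d f₂ f₁ N₂ N₁ 0 s A₂ A₁ where
  hd := h.hd
  hc := h.hc
  hcd := h.hcd
  per := h.per
  per1 := h.per2
  per2 := h.per1
  card1 := h.card2
  card2 := h.card1
  two1 := h.two2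
  two2 := h.two1
  f1 := h.f2
  f2 := h.f1
  fd1 := h.fd2
  fd2 := h.fd1
  prod1 := h.prod2
  prod2 := h.prod1
  c11 := h.c22
  c22 := h.c11
  c12 := fun i j h1 h2 h3 h4 h5 => by
    have := h.c21 i j h1 h2 h3 h4 h5
    linarith
  c21 := fun i j h1 h2 h3 h4 h5 => by
    have := h.c12 i j h1 h2 h3 h4 h5
    linarith
  typ1 := h.typ2
  typ2 := h.typ1

theorem ce0_pers (h : CEH c d f₁ f₂ N₁ N₂ 0 s A₁ A₂) (i : ℤ) : s (i + c) = s i := by
  have := h.per i
  rwa [add_zero] at this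

theorem ce0_persk (h : CEH c d f₁ f₂ N₁ N₂ 0 s A₁ A₂) (i k : ℤ) : s (i + c * k) = s i := by
  have := ce0_per (Q := fun x => s x = s i) (c := (c : ℤ)) (fun x => by rw [ce0_pers h x]) i k
  exact this.2 rfl

theorem ce0_S (h : CEH c d f₁ f₂ N₁ N₂ 0 s A₁ A₂) (e : ZMod 2)
    (h2 : 2 ≤ (ce0_P c s A₁ A₂ e).card) :
    ∑ p ∈ ce0_P c s A₁ A₂ e, ce0_own A₁ A₂ f₁ f₂ p ≤ c ∧
      (∑ p ∈ ce0_P c s A₁ A₂ e, ce0_own A₁ A₂ f₁ f₂ p = c → ∀ p ∈ ce0_P c s A₁ A₂ e,
        1 ≤ ce0_own A₁ A₂ f₁ f₂ p → ∃ q ∈ ce0_P c s A₁ A₂ e,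
          (c : ℤ) ∣ p + ce0_own A₁ A₂ f₁ f₂ p - q) := by
  have hc := h.hc
  have hc0 : (0 : ℤ) < c := by omega
  refine int_count c (by omega) _ _ ?_
  intro p hp q hq k hk hdvd
  obtain ⟨p', hp', hne⟩ := Finset.exists_mem_ne (by omega : 1 < (ce0_P c s A₁ A₂ e).card) p
  rw [ce0_mem] at hp hq hp'
  obtain ⟨⟨hp0, hp1⟩, hpA, hps⟩ := hp
  obtain ⟨⟨hq0, hq1⟩, hqA, hqs⟩ := hq
  obtain ⟨⟨hp'0, hp'1⟩, hp'A, hp's⟩ := hp'
  have hown : (ce0_own A₁ A₂ f₁ f₂ p : ℤ) < c := by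
    rcases lt_or_gt_of_ne hne with hlt | hgt
    · have h3 := ce0_own_le h (i := p) (j := p' + c) (by omega) (by omega)
        (by rw [ce0_pers h, hps, hp's])
        (by rw [h.per1, h.per2]; exact hp'A)
      omega
    · have h3 := ce0_own_le h (i := p) (j := p') hgt (by omega) (by rw [hps, hp's]) hp'A
      omega
  have hk' : (k : ℤ) < ce0_own A₁ A₂ f₁ f₂ p := by exact_mod_cast hk
  obtain ⟨m, hm⟩ := hdvd
  have hm2 : m < 2 := by
    by_contra hcon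
    have : 2 ≤ m := by omega
    nlinarith
  have hm0 : -1 < m := by
    by_contra hcon
    have : m ≤ -1 := by omega
    nlinarith
  have hm' : m = 0 ∨ m = 1 := by omega
  rcases hm' with rfl | rfl
  · rw [mul_zero] at hm
    rcases Nat.eq_zero_or_pos k with rfl | hkpos
    · exact ⟨by push_cast at hm; omega, rfl⟩
    · exfalso
      have h3 := ce0_own_le h (i := p) (j := q) (by omega) (by omega) (by rw [hps, hqs]) hqA
      omega
  · rw [mul_one] at hm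
    exfalso
    have h3 := ce0_own_le h (i := p) (j := q + c) (by omega) (by omega)
      (by rw [ce0_pers h, hps, hqs]) (by rw [h.per1, h.per2]; exact hqA)
    omega

theorem ce0_total (h : CEH c d f₁ f₂ N₁ N₂ 0 s A₁ A₂) (e : ZMod 2) :
    ∑ p ∈ ce0_P c s A₁ A₂ e, ce0_own A₁ A₂ f₁ f₂ p +
      ∑ p ∈ ce0_P c s A₁ A₂ (e + 1), ce0_own A₁ A₂ f₁ f₂ p = N₁ * f₁ + N₂ * f₂ := by
  unfold ce0_P
  rw [Finset.sum_filter, Finset.sum_filter, ← Finset.sum_add_distrib]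
  have h1 : ∀ i ∈ Finset.Ico (0 : ℤ) c,
      ((if (A₁ i ∨ A₂ i) ∧ s i = e then ce0_own A₁ A₂ f₁ f₂ i else 0) +
        (if (A₁ i ∨ A₂ i) ∧ s i = e + 1 then ce0_own A₁ A₂ f₁ f₂ i else 0)) =
      (if A₁ i then f₁ else 0) + (if A₂ i then f₂ else 0) := by
    intro i _
    by_cases hA : A₁ i ∨ A₂ i
    · rcases ce0_z2 (s i) e with hs | hs
      · rw [if_pos ⟨hA, hs⟩, if_neg, add_zero]
        · rfl
        · rintro ⟨_, h2⟩
          rw [hs] at h2
          exact ce0_z2' e h2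
      · rw [if_neg, if_pos ⟨hA, hs⟩, zero_add]
        · rfl
        · rintro ⟨_, h2⟩
          rw [hs] at h2
          exact ce0_z2' e h2.symm
    · rw [if_neg (fun hh => hA hh.1), if_neg (fun hh => hA hh.1), if_neg (fun hh => hA (Or.inl hh)),
        if_neg (fun hh => hA (Or.inr hh))]
  rw [Finset.sum_congr rfl h1, Finset.sum_add_distrib, ← Finset.sum_filter, ← Finset.sum_filter,
    Finset.sum_const, Finset.sum_const, ce0_card, ce0_card, h.card1, h.card2, smul_eq_mul,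
    smul_eq_mul]

theorem ce0_sub1 (e : ZMod 2) : (Finset.Ico (0 : ℤ) c).filter A₁ ⊆
    ce0_P c s A₁ A₂ e ∪ ce0_P c s A₁ A₂ (e + 1) := by
  intro i hi
  rw [Finset.mem_filter, Finset.mem_Ico] at hi
  rw [Finset.mem_union, ce0_mem, ce0_mem]
  rcases ce0_z2 (s i) e with hs | hs
  · exact Or.inl ⟨hi.1, Or.inl hi.2, hs⟩
  · exact Or.inr ⟨hi.1, Or.inl hi.2, hs⟩

theorem ce0_sub2 (e : ZMod 2) : (Finset.Ico (0 : ℤ) c).filter A₂ ⊆
    ce0_P c s A₁ A₂ e ∪ ce0_P c s A₁ A₂ (e + 1) := by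
  intro i hi
  rw [Finset.mem_filter, Finset.mem_Ico] at hi
  rw [Finset.mem_union, ce0_mem, ce0_mem]
  rcases ce0_z2 (s i) e with hs | hs
  · exact Or.inl ⟨hi.1, Or.inr hi.2, hs⟩
  · exact Or.inr ⟨hi.1, Or.inr hi.2, hs⟩

/-- exactly one element in class `e` -/
theorem ce0_one (h : CEH c d f₁ f₂ N₁ N₂ 0 s A₁ A₂) (e : ZMod 2)
    (h1 : (ce0_P c s A₁ A₂ e).card = 1) : CEC c d f₁ f₂ 0 s A₁ A₂ := by
  have hc := h.hc
  have hcd := h.hcd
  have hd := h.hd
  have hp1 := h.prod1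
  have hp2 := h.prod2
  have hf1 := h.f1
  have hf2 := h.f2
  have hfd1 := h.fd1
  have hfd2 := h.fd2
  have ht1 := h.two1
  have ht2 := h.two2
  have htot := ce0_total h e
  obtain ⟨u, hu⟩ := Finset.card_eq_one.1 h1
  have huP : u ∈ ce0_P c s A₁ A₂ e := by rw [hu]; exact Finset.mem_singleton_self u
  have hC1 : ((Finset.Ico (0 : ℤ) c).filter A₁).card = N₁ := by rw [ce0_card, h.card1]
  have hC2 : ((Finset.Ico (0 : ℤ) c).filter A₂).card = N₂ := by rw [ce0_card, h.card2]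
  have hnot : ¬ 2 ≤ (ce0_P c s A₁ A₂ (e + 1)).card := by
    intro h2
    have hS := (ce0_S h (e + 1) h2).1
    rw [hu, Finset.sum_singleton] at htot
    have hownle : ce0_own A₁ A₂ f₁ f₂ u ≤ f₁ + f₂ := by
      unfold ce0_own
      split_ifs <;> omega
    -- `f₁ + f₂ = 2 (d - 1)`, `u ∈ A₁ ∩ A₂`
    have hff : f₁ + 1 = d ∧ f₂ + 1 = d := by omega
    have huA : A₁ u ∧ A₂ u := by
      by_contra hcon
      have : ce0_own A₁ A₂ f₁ f₂ u + 1 ≤ d := by
        unfold ce0_own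
        by_cases a1 : A₁ u
        · have a2 : ¬ A₂ u := fun hh => hcon ⟨a1, hh⟩
          rw [if_pos a1, if_neg a2]
          omega
        · rw [if_neg a1]
          split_ifs <;> omega
      omega
    -- elements of `A₁` and `A₂` of class `e + 1` coincide
    have hcoin : ∀ w ∈ ce0_P c s A₁ A₂ (e + 1), ∀ w' ∈ ce0_P c s A₁ A₂ (e + 1), A₁ w → A₂ w' →
        w = w' := by
      intro w hw w' hw' a1 a2
      rw [ce0_mem] at hw hw'
      by_contra hne
      rcases lt_or_gt_of_ne hne with hlt | hgt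
      · have h3 := h.c12 w w' hlt (by omega) (by rw [hw.2.2, hw'.2.2]) a1 a2
        omega
      · have h3 := h.c21 w' w hgt (by omega) (by rw [hw.2.2, hw'.2.2]) a2 a1
        omega
    have hex1 : ∃ w₁ ∈ ce0_P c s A₁ A₂ (e + 1), A₁ w₁ := by
      obtain ⟨w, hw, hwu⟩ := Finset.exists_mem_ne (by omega : 1 < ((Finset.Ico (0 : ℤ) c).filter A₁).card) u
      have h3 := ce0_sub1 (s := s) (A₂ := A₂) e hw
      rw [Finset.mem_union, hu, Finset.mem_singleton] at h3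
      exact ⟨w, h3.resolve_left hwu, (Finset.mem_filter.1 hw).2⟩
    have hex2 : ∃ w₂ ∈ ce0_P c s A₁ A₂ (e + 1), A₂ w₂ := by
      obtain ⟨w, hw, hwu⟩ := Finset.exists_mem_ne (by omega : 1 < ((Finset.Ico (0 : ℤ) c).filter A₂).card) u
      have h3 := ce0_sub2 (s := s) (A₁ := A₁) e hw
      rw [Finset.mem_union, hu, Finset.mem_singleton] at h3
      exact ⟨w, h3.resolve_left hwu, (Finset.mem_filter.1 hw).2⟩
    obtain ⟨w₁, hw₁, a1⟩ := hex1
    obtain ⟨w₂, hw₂, a2⟩ := hex2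
    have e12 := hcoin w₁ hw₁ w₂ hw₂ a1 a2
    obtain ⟨w, hw, hww⟩ := Finset.exists_mem_ne (by omega : 1 < (ce0_P c s A₁ A₂ (e + 1)).card) w₁
    have hwA := (ce0_mem.1 hw).2.1
    rcases hwA with hwA | hwA
    · exact hww (by rw [hcoin w hw w₂ hw₂ hwA a2, e12])
    · exact hww (hcoin w₁ hw₁ w hw a1 hwA).symm
  have hun : (ce0_P c s A₁ A₂ e ∪ ce0_P c s A₁ A₂ (e + 1)).card ≤ 2 := by
    refine (Finset.card_union_le _ _).trans ?_
    omega
  have hE1 := Finset.eq_of_subset_of_card_le (ce0_sub1 (c := c) (s := s) (A₁ := A₁) (A₂ := A₂) e)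
    (by omega)
  have hE2 := Finset.eq_of_subset_of_card_le (ce0_sub2 (c := c) (s := s) (A₁ := A₁) (A₂ := A₂) e)
    (by omega)
  have hN1 : N₁ = 2 := by
    rw [← hE1, hC1] at hun
    omega
  have hN2 : N₂ = 2 := by
    rw [← hE2, hC2] at hun
    omega
  have hne : (ce0_P c s A₁ A₂ (e + 1)).Nonempty := by
    by_contra hcon
    rw [Finset.not_nonempty_iff_eq_empty] at hcon
    rw [hcon, Finset.union_empty] at hE1
    rw [hE1, h1] at hC1
    omega
  obtain ⟨w, hw⟩ := hne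
  have hf1' : f₁ + 1 = d := by
    rw [hN1] at hp1
    omega
  have hf2' : f₂ + 1 = d := by
    rw [hN2] at hp2
    omega
  have huA1 : A₁ u := by
    have : u ∈ (Finset.Ico (0 : ℤ) c).filter A₁ := by
      rw [hE1]
      exact Finset.mem_union_left _ huP
    exact (Finset.mem_filter.1 this).2
  have huA2 : A₂ u := by
    have : u ∈ (Finset.Ico (0 : ℤ) c).filter A₂ := by
      rw [hE2]
      exact Finset.mem_union_left _ huP
    exact (Finset.mem_filter.1 this).2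
  have hwA1 : A₁ w := by
    have : w ∈ (Finset.Ico (0 : ℤ) c).filter A₁ := by
      rw [hE1]
      exact Finset.mem_union_right _ hw
    exact (Finset.mem_filter.1 this).2
  have hwA2 : A₂ w := by
    have : w ∈ (Finset.Ico (0 : ℤ) c).filter A₂ := by
      rw [hE2]
      exact Finset.mem_union_right _ hw
    exact (Finset.mem_filter.1 this).2
  rw [ce0_mem] at huP hw
  have hsu := huP.2.2
  have hsw := hw.2.2
  have huw : u ≠ w := by
    rintro rfl
    rw [hsu] at hsw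
    exact ce0_z2' e hsw
  left
  refine ⟨rfl, hf1', hf2', ?_⟩
  rcases lt_or_gt_of_ne huw with hlt | hgt
  · exact ⟨u, w, hlt, by omega, huA1, huA2, hwA1, hwA2, by rw [hsu, hsw]⟩
  · exact ⟨w, u, hgt, by omega, hwA1, hwA2, huA1, huA2, by rw [hsu, hsw, ce0_z2'']⟩

/-- the hypothesis (T) -/
def ce0_T (s : ℤ → ZMod 2) (A₁ A₂ : ℤ → Prop) (f₁ f₂ : ℕ) : Prop :=
  ∀ p : ℤ, (A₁ p ∨ A₂ p) → (A₁ (p + ce0_own A₁ A₂ f₁ f₂ p) ∨ A₂ (p + ce0_own A₁ A₂ f₁ f₂ p)) ∧
    s (p + ce0_own A₁ A₂ f₁ f₂ p) = s p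

theorem ce0_ownper (h : CEH c d f₁ f₂ N₁ N₂ 0 s A₁ A₂) (p k : ℤ) :
    ce0_own A₁ A₂ f₁ f₂ (p + c * k) = ce0_own A₁ A₂ f₁ f₂ p := by
  unfold ce0_own
  rw [if_congr (ce0_per h.per1 p k) rfl rfl, if_congr (ce0_per h.per2 p k) rfl rfl]

theorem ce0_getT (h : CEH c d f₁ f₂ N₁ N₂ 0 s A₁ A₂)
    (h0 : ∀ e, ∀ p ∈ ce0_P c s A₁ A₂ e, ∃ q ∈ ce0_P c s A₁ A₂ e,
          (c : ℤ) ∣ p + ce0_own A₁ A₂ f₁ f₂ p - q) : ce0_T s A₁ A₂ f₁ f₂ := by
  have hc := h.hc
  have hc0 : (0 : ℤ) < c := by omega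
  intro p hp
  set p₀ : ℤ := p % c with hp₀
  set r : ℤ := p / c with hr
  have hpr : p = p₀ + c * r := (Int.emod_add_mul_ediv p c).symm
  have hA : A₁ p₀ ∨ A₂ p₀ := by
    rw [hpr, ce0_per h.per1, ce0_per h.per2] at hp
    exact hp
  have hs : s p = s p₀ := by
    rw [hpr]
    exact ce0_persk h p₀ r
  have hmem : p₀ ∈ ce0_P c s A₁ A₂ (s p₀) := by
    rw [ce0_mem]
    exact ⟨⟨Int.emod_nonneg _ (by omega), Int.emod_lt_of_pos _ hc0⟩, hA, rfl⟩
  obtain ⟨q, hq, m, hm⟩ := h0 _ _ hmem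
  rw [ce0_mem] at hq
  have hown : ce0_own A₁ A₂ f₁ f₂ p = ce0_own A₁ A₂ f₁ f₂ p₀ := by
    rw [hpr]
    exact ce0_ownper h p₀ r
  have e : p + ce0_own A₁ A₂ f₁ f₂ p = q + c * (m + r) := by
    rw [hown, mul_add, ← hm]
    conv_lhs => rw [hpr]
    ring
  rw [e, ce0_per h.per1, ce0_per h.per2, ce0_persk h, hs]
  exact hq.2

/-- an element of `A₁ ∖ A₂` -/
theorem ce0_side (h : CEH c d f₁ f₂ N₁ N₂ 0 s A₁ A₂) (hT : ce0_T s A₁ A₂ f₁ f₂)
    (hc2 : c + 2 = 2 * d) {p : ℤ} (hp1 : A₁ p) (hp2 : ¬ A₂ p) :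
    f₁ = 2 ∧ ∀ k : ℤ, A₁ (p + 2 * k) ∧ ¬ A₂ (p + 2 * k) ∧ s (p + 2 * k) = s p := by
  have hf1 := h.f1
  have hf2 := h.f2
  have hfd1 := h.fd1
  have hd := h.hd
  have hc := h.hc
  have hstep : ∀ x : ℤ, A₁ x → ¬ A₂ x → f₁ = 2 ∧ A₁ (x + f₁) ∧ ¬ A₂ (x + f₁) ∧ s (x + f₁) = s x := by
    intro x hx1 hx2
    have hown : ce0_own A₁ A₂ f₁ f₂ x = f₁ := by
      unfold ce0_own
      rw [if_pos hx1, if_neg hx2, add_zero]
    obtain ⟨h3, h4⟩ := hT x (Or.inl hx1)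
    rw [hown] at h3 h4
    have h5 : ¬ A₂ (x + f₁) := by
      intro h6
      have h7 := h.c12 x (x + f₁) (by omega) (by omega) h4.symm hx1 h6
      omega
    have h6 : A₁ (x + f₁) := h3.resolve_right h5
    refine ⟨?_, h6, h5, h4⟩
    rcases h.typ1 with ht | ⟨_, ht⟩
    · exact ht.1
    · exfalso
      have h7 := ht x (x + f₁) (by omega) (by omega) h4.symm hx1 h6
      omega
  have hf : f₁ = 2 := (hstep p hp1 hp2).1
  refine ⟨hf, ?_⟩
  intro k
  have hsh := ce0_shift (Q := fun x => A₁ x ∧ ¬ A₂ x ∧ s x = s p) (g := 2) (c := (c : ℤ))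
    (by norm_num) (by omega) ⟨(d : ℤ) - 1, by omega⟩
    (fun x hx => by
      obtain ⟨_, h3, h4, h5⟩ := hstep x hx.1 hx.2.1
      rw [hf] at h3 h4 h5
      exact ⟨h3, h4, h5.trans hx.2.2⟩)
    (fun x => by
      show (A₁ (x + c) ∧ ¬ A₂ (x + c) ∧ s (x + c) = s p) ↔ _
      rw [h.per1, h.per2, ce0_pers h])
    p ⟨hp1, hp2, rfl⟩ k
  exact hsh

theorem ce0_sideC (h : CEH c d f₁ f₂ N₁ N₂ 0 s A₁ A₂) (hT : ce0_T s A₁ A₂ f₁ f₂)
    (hT' : ce0_T s A₂ A₁ f₂ f₁)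
    (hc2 : c + 2 = 2 * d) (hN1 : N₁ * f₁ + 2 = 2 * d) {p : ℤ} (hp1 : A₁ p) (hp2 : ¬ A₂ p) :
    ∀ k : ℤ, A₁ (p + 2 * k) ∧ A₂ (p + 1 + 2 * k) ∧ s (p + 2 * k) = s p ∧
      s (p + 1 + 2 * k) = s p + 1 := by
  have hf1 := h.f1
  have hf2 := h.f2
  have hd := h.hd
  have hc := h.hc
  obtain ⟨hf, hk⟩ := ce0_side h hT hc2 hp1 hp2
  -- an element of `A₂`
  have hC2 : ((Finset.Ico (0 : ℤ) c).filter A₂).card = N₂ := by rw [ce0_card, h.card2]
  have hne : ((Finset.Ico (0 : ℤ) c).filter A₂).Nonempty := by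
    rw [← Finset.card_pos, hC2]
    have := h.two2
    omega
  obtain ⟨q, hq⟩ := hne
  rw [Finset.mem_filter, Finset.mem_Ico] at hq
  obtain ⟨⟨hq0, hqc⟩, hq2⟩ := hq
  -- `q ≢ p mod 2`
  have hqp : ∃ m : ℤ, q = p + 1 + 2 * m := by
    rcases Int.even_or_odd' (q - p) with ⟨m, hm | hm⟩
    · exfalso
      have := (hk m).2.1
      rw [show p + 2 * m = q by omega] at this
      exact this hq2
    · exact ⟨m, by omega⟩
  obtain ⟨m, hm⟩ := hqp
  -- class of `q`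
  have hsq : s q = s p + 1 := by
    rcases ce0_z2 (s q) (s p) with hs | hs
    · exfalso
      have h3 := hk m
      have h4 := ce0_own_le h (i := p + 2 * m) (j := q) (by omega) (by omega)
        (by rw [h3.2.2, hs]) (Or.inr hq2)
      have h5 := ce0_own_pos h (i := p + 2 * m) (Or.inl h3.1)
      omega
    · exact hs
  have hq1 : ¬ A₁ q := by
    intro hq1
    -- too many elements of `A₁`
    have hcard : d ≤ ((Finset.Ico (0 : ℤ) c).filter A₁).card := by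
      have hsub : insert q ((Finset.range (d - 1)).image (fun k : ℕ => p % 2 + 2 * (k : ℤ))) ⊆
          (Finset.Ico (0 : ℤ) c).filter A₁ := by
        intro x hx
        rw [Finset.mem_insert, Finset.mem_image] at hx
        rw [Finset.mem_filter, Finset.mem_Ico]
        rcases hx with rfl | ⟨k, hk1, rfl⟩
        · exact ⟨⟨hq0, hqc⟩, hq1⟩
        · rw [Finset.mem_range] at hk1
          refine ⟨⟨by omega, by omega⟩, ?_⟩
          have h3 := (hk ((k : ℤ) - p / 2)).1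
          rw [show p + 2 * ((k : ℤ) - p / 2) = p % 2 + 2 * (k : ℤ) by omega] at h3
          exact h3
      have hnot : q ∉ (Finset.range (d - 1)).image (fun k : ℕ => p % 2 + 2 * (k : ℤ)) := by
        intro hx
        rw [Finset.mem_image] at hx
        obtain ⟨k, _, hk2⟩ := hx
        omega
      have h3 := Finset.card_le_card hsub
      rw [Finset.card_insert_of_notMem hnot, Finset.card_image_of_injective, Finset.card_range] at h3
      · omega
      · intro x y hxy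
        simp only at hxy
        omega
    rw [ce0_card, h.card1] at hcard
    rw [hf] at hN1
    omega
  obtain ⟨_, hk'⟩ := ce0_side (ce0_swap h) hT' hc2 hq2 hq1
  intro k
  have h3 := hk k
  have h4 := hk' (k - m)
  rw [show q + 2 * (k - m) = p + 1 + 2 * k by omega] at h4
  exact ⟨h3.1, h4.1, h3.2.2, by rw [h4.2.2, hsq]⟩

end ce0

theorem ce_zero {c d f₁ f₂ N₁ N₂ : ℕ} {s : ℤ → ZMod 2} {A₁ A₂ : ℤ → Prop}
    (h : CEH c d f₁ f₂ N₁ N₂ 0 s A₁ A₂) : CEC c d f₁ f₂ 0 s A₁ A₂ := by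
  have hc := h.hc
  have hcd := h.hcd
  have hd := h.hd
  have hp1 := h.prod1
  have hp2 := h.prod2
  have hf1 := h.f1
  have hf2 := h.f2
  have hfd1 := h.fd1
  have hfd2 := h.fd2
  have ht1 := h.two1
  have ht2 := h.two2
  have hC1 : ((Finset.Ico (0 : ℤ) c).filter A₁).card = N₁ := by rw [ce0_card, h.card1]
  have hC2 : ((Finset.Ico (0 : ℤ) c).filter A₂).card = N₂ := by rw [ce0_card, h.card2]
  -- no class is empty
  have hpos : ∀ e : ZMod 2, (ce0_P c s A₁ A₂ e).card ≠ 0 := by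
    intro e he
    rw [Finset.card_eq_zero] at he
    have h1 := Finset.card_le_card (ce0_sub1 (c := c) (s := s) (A₁ := A₁) (A₂ := A₂) e)
    rw [he, Finset.empty_union, hC1] at h1
    have h2 := (ce0_S h (e + 1) (by omega)).1
    have h3 := ce0_total h e
    rw [he, Finset.sum_empty] at h3
    omega
  by_cases hone : ∃ e : ZMod 2, (ce0_P c s A₁ A₂ e).card = 1
  · obtain ⟨e, he⟩ := hone
    exact ce0_one h e he
  push Not at hone
  have hge : ∀ e : ZMod 2, 2 ≤ (ce0_P c s A₁ A₂ e).card := by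
    intro e
    have h1 := hpos e
    have h2 := hone e
    omega
  have hSle : ∀ e : ZMod 2, ∑ p ∈ ce0_P c s A₁ A₂ e, ce0_own A₁ A₂ f₁ f₂ p ≤ c := fun e =>
    (ce0_S h e (hge e)).1
  have hSeq : ∀ e : ZMod 2, ∑ p ∈ ce0_P c s A₁ A₂ e, ce0_own A₁ A₂ f₁ f₂ p = c := by
    intro e
    have h1 := hSle e
    have h2 := hSle (e + 1)
    have h3 := ce0_total h e
    omega
  have htot : N₁ * f₁ + N₂ * f₂ = 2 * c := by
    have h1 := hSeq 0
    have h2 := hSeq (0 + 1)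
    have h3 := ce0_total h 0
    omega
  have hc2 : c + 2 = 2 * d := by omega
  have hN1 : N₁ * f₁ + 2 = 2 * d := by omega
  have hN2 : N₂ * f₂ + 2 = 2 * d := by omega
  have hT : ce0_T s A₁ A₂ f₁ f₂ := by
    refine ce0_getT h fun e p hp => ?_
    refine (ce0_S h e (hge e)).2 (hSeq e) p hp ?_
    have := ce0_own_pos h (ce0_mem.1 hp).2.1
    omega
  have hT' : ce0_T s A₂ A₁ f₂ f₁ := by
    intro p hp
    have e : ce0_own A₂ A₁ f₂ f₁ p = ce0_own A₁ A₂ f₁ f₂ p := by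
      unfold ce0_own
      rw [add_comm]
    rw [e]
    obtain ⟨h1, h2⟩ := hT p hp.symm
    exact ⟨h1.symm, h2⟩
  by_cases hs1 : ∃ p, A₁ p ∧ ¬ A₂ p
  · obtain ⟨p, a1, a2⟩ := hs1
    have hk := ce0_sideC h hT hT' hc2 hN1 a1 a2
    right; left
    have k0 := hk 0
    have k1 := hk 1
    refine ⟨by omega, p, a1, ?_, ?_, ?_, ?_, ?_, ?_⟩
    · have := k0.2.1
      rwa [show p + 1 + 2 * 0 = p + 1 by ring] at this
    · have := k1.1
      rwa [show p + 2 * 1 = p + 2 by ring] at this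
    · have := k1.2.1
      rwa [show p + 1 + 2 * 1 = p + 3 by ring] at this
    · have := k0.2.2.2
      rwa [show p + 1 + 2 * 0 = p + 1 by ring] at this
    · have := k1.2.2.1
      rwa [show p + 2 * 1 = p + 2 by ring] at this
    · have := k1.2.2.2
      rwa [show p + 1 + 2 * 1 = p + 3 by ring] at this
  by_cases hs2 : ∃ p, A₂ p ∧ ¬ A₁ p
  · obtain ⟨p, a2, a1⟩ := hs2
    have hk := ce0_sideC (ce0_swap h) hT' hT hc2 hN2 a2 a1
    right; left
    have k0 := hk 0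
    have k1 := hk 1
    have k2 := hk 2
    have e1 : s (p + 1) = s p + 1 := by
      have := k0.2.2.2
      rwa [show p + 1 + 2 * 0 = p + 1 by ring] at this
    refine ⟨by omega, p + 1, ?_, ?_, ?_, ?_, ?_, ?_, ?_⟩
    · have := k0.2.1
      rwa [show p + 1 + 2 * 0 = p + 1 by ring] at this
    · have := k1.1
      rwa [show p + 2 * 1 = p + 1 + 1 by ring] at this
    · have := k1.2.1
      rwa [show p + 1 + 2 * 1 = p + 1 + 2 by ring] at this
    · have := k2.1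
      rwa [show p + 2 * 2 = p + 1 + 3 by ring] at this
    · have := k1.2.2.1
      rw [show p + 2 * 1 = p + 1 + 1 by ring] at this
      rw [this, e1, ce0_z2'']
    · have := k1.2.2.2
      rw [show p + 1 + 2 * 1 = p + 1 + 2 by ring] at this
      rw [this, e1]
    · have := k2.2.2.1
      rw [show p + 2 * 2 = p + 1 + 3 by ring] at this
      rw [this, e1, ce0_z2'']
  push Not at hs1 hs2
  -- `A₁ = A₂`
  have hEq : A₁ = A₂ := by
    funext i
    exact propext ⟨hs1 i, hs2 i⟩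
  subst hEq
  have hNN : N₁ = N₂ := by rw [← hC1, ← hC2]
  subst hNN
  have hff : f₁ = f₂ := by
    have h1 : N₁ * f₁ = N₁ * f₂ := by omega
    exact Nat.eq_of_mul_eq_mul_left (by omega) h1
  subst hff
  have hN4 : 4 ≤ N₁ := by
    have hdisj : Disjoint (ce0_P c s A₁ A₁ 0) (ce0_P c s A₁ A₁ (0 + 1)) := by
      rw [Finset.disjoint_left]
      intro x hx hx'
      rw [ce0_mem] at hx hx'
      have := hx.2.2.symm.trans hx'.2.2
      exact ce0_z2' 0 this
    have h1 : ce0_P c s A₁ A₁ 0 ∪ ce0_P c s A₁ A₁ (0 + 1) ⊆ (Finset.Ico (0 : ℤ) c).filter A₁ := by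
      intro x hx
      rw [Finset.mem_union, ce0_mem, ce0_mem] at hx
      rw [Finset.mem_filter, Finset.mem_Ico]
      rcases hx with hx | hx
      · exact ⟨hx.1, hx.2.1.elim id id⟩
      · exact ⟨hx.1, hx.2.1.elim id id⟩
    have h2 := Finset.card_le_card h1
    rw [Finset.card_union_of_disjoint hdisj, hC1] at h2
    have h3 := hge 0
    have h4 := hge (0 + 1)
    omega
  have hf2' : f₁ = 2 := by
    rcases h.typ1 with ht | ⟨ht, _⟩
    · exact ht.1
    · exfalso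
      rcases ht with ht | ⟨ht, ht'⟩
      · -- `f₁ = d - 1`
        have : 4 * f₁ ≤ N₁ * f₁ := Nat.mul_le_mul_right _ hN4
        omega
      · -- `3 ≤ f₁`, `d + 1 ≤ f₁ + N₁`
        obtain ⟨x, hx⟩ : ∃ x, N₁ = x + 4 := ⟨N₁ - 4, by omega⟩
        obtain ⟨y, hy⟩ : ∃ y, f₁ = y + 3 := ⟨f₁ - 3, by omega⟩
        rw [hx, hy] at hN1 ht'
        have : (x + 4) * (y + 3) = x * y + 3 * x + 4 * y + 12 := by ring
        rw [this] at hN1
        have hxy : 0 ≤ x * y := Nat.zero_le _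
        omega
  subst hf2'
  have hNd : N₁ + 1 = d := by omega
  have hown : ∀ x, A₁ x → ce0_own A₁ A₁ 2 2 x = 4 := by
    intro x hx
    unfold ce0_own
    rw [if_pos hx]
  -- invariance under `+ 4`
  have hT4 : ∀ x, A₁ x → A₁ (x + 4) ∧ s (x + 4) = s x := by
    intro x hx
    obtain ⟨h1, h2⟩ := hT x (Or.inl hx)
    rw [hown x hx] at h1 h2
    exact ⟨h1.elim id id, h2⟩
  -- `4 ∣ c`
  have hcard4 : 4 * (ce0_P c s A₁ A₁ 0).card = c := by
    have h1 := hSeq 0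
    rw [Finset.sum_congr rfl (fun x hx => hown x ((ce0_mem.1 hx).2.1.elim id id)),
      Finset.sum_const, smul_eq_mul] at h1
    omega
  have hge0 := hge 0
  have hc8 : 8 ≤ c := by omega
  have hshift : ∀ x, A₁ x → ∀ k : ℤ, A₁ (x + 4 * k) ∧ s (x + 4 * k) = s x := by
    intro x hx k
    have hsh := ce0_shift (Q := fun y => A₁ y ∧ s y = s x) (g := 4) (c := (c : ℤ))
      (by norm_num) (by omega) ⟨((ce0_P c s A₁ A₁ 0).card : ℤ), by omega⟩
      (fun y hy => ⟨(hT4 y hy.1).1, (hT4 y hy.1).2.trans hy.2⟩)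
      (fun y => by
        show (A₁ (y + c) ∧ s (y + c) = s x) ↔ _
        rw [h.per1, ce0_pers h])
      x ⟨hx, rfl⟩ k
    exact hsh
  -- elements of class 0 and 1
  obtain ⟨p, hp⟩ : (ce0_P c s A₁ A₁ 0).Nonempty := by
    rw [← Finset.card_pos]
    omega
  obtain ⟨q, hq⟩ : (ce0_P c s A₁ A₁ 1).Nonempty := by
    rw [← Finset.card_pos]
    have := hge 1
    omega
  rw [ce0_mem] at hp hq
  have hpA : A₁ p := hp.2.1.elim id id
  have hqA : A₁ q := hq.2.1.elim id id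
  have hps : s p = 0 := hp.2.2
  have hqs : s q = 1 := hq.2.2
  have hpk := hshift p hpA
  have hqk := hshift q hqA
  have hr : (∃ m : ℤ, q = p + 4 * m) ∨ (∃ m : ℤ, q = p + 1 + 4 * m) ∨
      (∃ m : ℤ, q = p + 2 + 4 * m) ∨ (∃ m : ℤ, q = p + 3 + 4 * m) := by
    have h1 := Int.emod_add_mul_ediv (q - p) 4
    have h2 := Int.emod_nonneg (q - p) (by norm_num : (4 : ℤ) ≠ 0)
    have h3 := Int.emod_lt_of_pos (q - p) (by norm_num : (0 : ℤ) < 4)
    have h4 : (q - p) % 4 = 0 ∨ (q - p) % 4 = 1 ∨ (q - p) % 4 = 2 ∨ (q - p) % 4 = 3 := by omega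
    rcases h4 with h4 | h4 | h4 | h4
    · exact Or.inl ⟨(q - p) / 4, by omega⟩
    · exact Or.inr (Or.inl ⟨(q - p) / 4, by omega⟩)
    · exact Or.inr (Or.inr (Or.inl ⟨(q - p) / 4, by omega⟩))
    · exact Or.inr (Or.inr (Or.inr ⟨(q - p) / 4, by omega⟩))
  right; right
  rcases hr with ⟨m, hm⟩ | ⟨m, hm⟩ | ⟨m, hm⟩ | ⟨m, hm⟩
  · exfalso
    have h1 := (hpk m).2
    rw [← hm, hqs, hps] at h1
    exact absurd h1 (by decide)
  · left
    have k0 := hqk (-m)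
    have k1 := hqk (1 - m)
    have l1 := hpk 1
    rw [show q + 4 * (-m) = p + 1 by omega, hqs] at k0
    rw [show q + 4 * (1 - m) = p + 5 by omega, hqs] at k1
    rw [show p + 4 * 1 = p + 4 by omega, hps] at l1
    exact ⟨hc8, p, hpA, hpA, k0.1, k0.1, l1.1, l1.1, k1.1, k1.1, by rw [k0.2, hps]; decide,
      by rw [k1.2, l1.2]; decide⟩
  · right
    refine ⟨hc2, by omega, p, ?_⟩
    intro k
    rcases Int.even_or_odd' k with ⟨j, hj | hj⟩
    · have k0 := hpk j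
      have k1 := hqk (j - m)
      rw [show p + 4 * j = p + 2 * k by omega, hps] at k0
      rw [show q + 4 * (j - m) = p + 2 * k + 2 by omega, hqs] at k1
      exact ⟨k0.1, k0.1, by rw [k1.2, k0.2]; decide⟩
    · have k0 := hqk (j - m)
      have k1 := hpk (j + 1)
      rw [show q + 4 * (j - m) = p + 2 * k by omega, hqs] at k0
      rw [show p + 4 * (j + 1) = p + 2 * k + 2 by omega, hps] at k1
      exact ⟨k0.1, k0.1, by rw [k1.2, k0.2]; decide⟩
  · left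
    have k0 := hqk (-m)
    have k1 := hqk (1 - m)
    have l1 := hpk 1
    have l2 := hpk 2
    rw [show q + 4 * (-m) = p + 3 by omega, hqs] at k0
    rw [show q + 4 * (1 - m) = p + 3 + 4 by omega, hqs] at k1
    rw [show p + 4 * 1 = p + 3 + 1 by omega, hps] at l1
    rw [show p + 4 * 2 = p + 3 + 5 by omega, hps] at l2
    exact ⟨hc8, p + 3, k0.1, k0.1, l1.1, l1.1, k1.1, k1.1, l2.1, l2.1,
      by rw [l1.2, k0.2]; decide, by rw [l2.2, k1.2]; decide⟩

end Pool.Agent.BND
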