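import Pool.Agent.BND.CM1

/-!
# BND-CE : the circle combinatorics for the case of a cut vertex outside

Data: `c + 2 ≤ 2 d`, `s : ℤ → ZMod 2` with `s (i + c) = s i + τ`, two `c`-periodic sets `A₁, A₂` of
positions, with `N₁, N₂ ≥ 2` elements per period, numbers `2 ≤ fₐ ≤ d - 1`, `Nₐ fₐ ≥ 2 (d - 1)`.
Same class means equal value of `s`.
 (c11) two elements `i < j < i + c` of `A₁` of the same class have `f₁ ≤ j - i`; (c22) similarly;
 (c12), (c21): an element `i` of `A₁` and an element `j` of `A₂` of the same class (in either order),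
 `i < j < i + c`, have `f₁ + f₂ ≤ j - i`.
 (typ a): either `fₐ = 2`, `d ≤ Nₐ + 1`; or (`fₐ = d - 1` or (`3 ≤ fₐ`, `d + 1 ≤ fₐ + Nₐ`)) and
 two elements `i < j < i + c` of `Aₐ` of the same class have `fₐ + 1 ≤ j - i`.
Conclusion: one of the following.
 (star) `τ = 0`, `f₁ = f₂ = d - 1` and there are `p < q < p + c` both in `A₁ ∩ A₂`, of different
   classes.
 (b) `4 ≤ c` and there is `p` with `p, p+2 ∈ A₁`, `p+1, p+3 ∈ A₂`, `s (p+1) = s p + 1`,
   `s (p+2) = s p`, `s (p+3) = s p + 1`.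
 (a1) `8 ≤ c` and there is `p` with `p, p+1, p+4, p+5 ∈ A₁ ∩ A₂`, `s (p+1) = s p + 1`,
   `s (p+5) = s (p+4) + 1`.
 (a2) `c + 2 = 2 d`, `4 ≤ d`, and there is `p` such that for all `k`, `p + 2k ∈ A₁ ∩ A₂`,
   `s (p + 2k + 2) = s (p + 2k) + 1`.

Proof.  `own i := [A₁ i] f₁ + [A₂ i] f₂`.  From (c..): if `i < j < i + c`, both in `A₁ ∪ A₂` and of
the same class then `own i ≤ j - i` and `own j ≤ j - i`. (Check: `i ∈ A₁ \ A₂`: `j ∈ A₁` (c11) or
`j ∈ A₂` (c12); `i ∈ A₁ ∩ A₂`: if `j ∈ A₁` use `i ∈ A₂` (c21), if `j ∈ A₂` use (c12).)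
`∑ own` over one period is `N₁ f₁ + N₂ f₂ ≥ 4 (d - 1) ≥ 2 c`.

Case `τ = 1` (`ce_one`).  If `i` is any element of `A₁ ∪ A₂` and `j` an element with a different
residue (exists as `Nₐ ≥ 2`), `i < j < i + c`, then `s j = s i` or `s j = s (i + c)`, so
`own i ≤ j - i < c` or `own i ≤ i + c - j < c`.  So `own < c` everywhere.
Let `P` be the set of `p ∈ [0, 2 c)` in `A₁ ∪ A₂` with `s p = 0`: each residue class mod `c` of
`A₁ ∪ A₂` has exactly one representative in `P`.  `int_count` with `M = 2 c` (if `0 < k < own p < c`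
and `p + k ≡ q` mod `2c`, `q ∈ P`, then `p < p + k < p + c` are elements of the same class,
contradiction): `2 c ≤ 4(d-1) ≤ ∑_P own ≤ 2 c`.  So equality everywhere: `c + 2 = 2 d`,
`Nₐ fₐ = 2 (d - 1)`, and for every `p ∈ A₁ ∪ A₂`, `p + own p ∈ A₁ ∪ A₂` has the same class as `p`
(for `p` of class `0` from the equality part; for `p` of class `1` apply it to `p + c`).  We call
this (T).  Note also `own (p + own p) ≤ own p` by the inequality above.
 (T1) `p ∈ A₁ \ A₂`: `q = p + f₁` has the same class, `q ∉ A₂` (otherwise `f₁ + f₂ ≤ f₁`), so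
 `q ∈ A₁ \ A₂` and type 1 is the first one (`f₁ = 2`) (otherwise `f₁ + 1 ≤ f₁`).  So `p + 2 k` is in
 `A₁ \ A₂` and has class `s p` for all `k ≥ 0`; but `c` is even and `s (p + c) = s p + 1`.
 Contradiction.  Similarly no `p ∈ A₂ \ A₁`.  So `A₁ = A₂`, `N₁ = N₂ = N`, `f₁ = f₂ = f`
 (`N f₁ = N f₂`), `own = 2 f < c = 2 (d - 1)`, so `f < d - 1` and `N ≥ 3`.
 Type 1 is the first: otherwise `3 ≤ f` and `d + 1 ≤ f + N`, `N f = 2 (d - 1)`:
 if `N ≥ d`: `N f ≥ 3 d`; if `3 ≤ N ≤ d - 1`, `N f ≥ N (d + 1 - N) ≥ 2 (d - 1)` with equality only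
 for `N = d - 1`, then `f = 2`.  Contradiction.  So `f = 2`, `N = d - 1 ≥ 3`, `d ≥ 4`, and by (T)
 `A₁` is invariant under `+4` with the same class.  `c = 2 (d - 1)`.  If `4 ∣ c` then
 `s (p + c) = s p`, contradiction; so `c ≡ 2 mod 4`, `c + 2 = 4 t`, and for `p ∈ A₁`,
 `p + 2 + c = p + 4 t ∈ A₁` has class `s p`, so `p + 2 ∈ A₁` and `s (p + 2) = s p + 1`.  This is (a2).

Case `τ = 0` (`ce_zero`).  `s` is `c`-periodic.  For `e = 0, 1` let `Pₑ` be the set of `p ∈ [0, c)`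
in `A₁ ∪ A₂` of class `e`; `Sₑ = ∑_{Pₑ} own`; `S₀ + S₁ = N₁ f₁ + N₂ f₂ ≥ 4 (d - 1) ≥ 2 c`.
If `|Pₑ| ≥ 2` then `own < c` on `Pₑ` and `int_count` with `M = c` gives `Sₑ ≤ c`.
 (i) `|Pₑ| = 1` for `e = 0` or `1`, say `P₀ = {u}` (`P₁` treated in the same way).  Suppose also
 `|P₁| ≥ 2`, so `S₁ ≤ c`.  `own u ≤ f₁ + f₂ ≤ 2 (d - 1)`.  `S₁ ≥ (N₁ - [u ∈ A₁]) f₁ +
 (N₂ - [u ∈ A₂]) f₂`, and `own u = S₀ ≥ 4 (d - 1) - c ≥ 2 (d - 1)`, so `own u = 2 (d - 1)`:
 `u ∈ A₁ ∩ A₂`, `f₁ = f₂ = d - 1`, `c = 2 (d - 1)`, `S₁ = c = (N₁ - 1)(d - 1) + (N₂ - 1)(d - 1)`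
 so `N₁ = N₂ = 2`.  So `P₁` contains exactly one element `w₁` of `A₁` and exactly one element `w₂` of
 `A₂`; `|P₁| ≥ 2` so `w₁ ≠ w₂`; but by (c12)/(c21) the two arcs between them have length at
 least `f₁ + f₂ = c` each. Contradiction.  So `|P₁| ≤ 1`; as `N₁ ≥ 2`, `P₁ = {w}`, and
 `A₁ ∩ [0,c) = A₂ ∩ [0,c) = {u, w}`, `N₁ = N₂ = 2`, so `2 fₐ ≥ 2 (d - 1)`: `fₐ = d - 1`: (star).
 (ii) `P₀ = ∅`: then `S₁ ≥ 2 c > c ≥ S₁` (`|P₁| ≥ 2`), contradiction.  Similarly `P₁ ≠ ∅`.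
 (iii) `|P₀|, |P₁| ≥ 2`: `S₀ = S₁ = c`, `c = 2 (d - 1)`, `Nₐ fₐ = 2 (d - 1)`, and (T) holds again:
 `p + own p ∈ A₁ ∪ A₂` has the same class.
  If there is `p ∈ A₁ \ A₂`: as in (T1) `f₁ = 2`, `p + 2 k ∈ A₁ \ A₂` of class `s p` for all `k`;
  these are `c / 2` residues with own `2`, their sum is `c`, so these are all the elements of their
  class.  `A₂` is nonempty and disjoint from this class, so it has an element `q` of class `s p + 1`.
  If `q ∉ A₁`, then as before `f₂ = 2`, `q + 2k ∈ A₂ \ A₁` of class `s q`; the positions `≡ p mod 2`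
  are occupied by the class of `p`, so `q = p + 1 + 2 k'`: (b) (`c ≥ 4` since `d ≥ 3`).
  If `q ∈ A₁` then `N₁ ≥ c / 2 + 1 = d`, so `N₁ f₁ ≥ 2 d > 2 (d - 1)`, contradiction.
  Similarly if there is `p ∈ A₂ \ A₁` (exchange the roles of `A₁` and `A₂`; in (b) shift `p` by one).
  Otherwise `A₁ = A₂`, `N₁ = N₂ = N ≥ 4`, `f₁ = f₂ = f`, `N f = 2 (d - 1)`, so `f < d - 1`; as before
  the second type is impossible, `f = 2`, `N = d - 1`, `own = 4`, so `A₁` is invariant under `+4`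
  with the same class, and different elements of the same class have distance at least `4`.
  `S₀ = 4 |P₀| = c`, so `4 ∣ c`, and `|P₀| ≥ 2`, `c ≥ 8`.  Let `p` have class `0`, so that the
  class `0` elements are `p + 4 k`, and the class `1` elements are `q + 4 k`, `q = p + 1, p + 2` or
  `p + 3` (not `p`).  `q = p + 1`: (a1).  `q = p + 3`: (a1) with `p` replaced by `q = p + 3`, as
  `q + 1 = p + 4`.  `q = p + 2`: (a2), `d - 1 = c / 2 ≥ 4`.
-/

set_option autoImplicit false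
set_option linter.unusedSectionVars false

namespace Pool.Agent.BND

open Classical

/-! ### helpers -/

theorem ce1_s_mul {c : ℕ} {s : ℤ → ZMod 2} (h : ∀ i : ℤ, s (i + c) = s i + 1) (i n : ℤ) :
    s (i + c * (2 * n)) = s i := by
  have h2 : ∀ i : ℤ, s (i + c + c) = s i := by
    intro i
    rw [h, h, add_assoc]
    have : (1 : ZMod 2) + 1 = 0 := by decide
    rw [this, add_zero]
  induction n with
  | zero => simp
  | succ n ih =>
    rw [← ih, ← h2 (i + c * (2 * n))]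
    congr 1
    ring
  | pred n ih =>
    rw [← ih, ← h2 (i + c * (2 * (-n - 1)))]
    congr 1
    ring

theorem ce1_A_mul {c : ℕ} {A : ℤ → Prop} (h : ∀ i : ℤ, A (i + c) ↔ A i) (i n : ℤ) :
    A (i + c * n) ↔ A i := by
  induction n with
  | zero => simp
  | succ n ih =>
    rw [← ih, ← h (i + c * n)]
    apply iff_of_eq
    congr 1
    ring
  | pred n ih =>
    rw [← ih, ← h (i + c * (-n - 1))]
    apply iff_of_eq
    congr 1
    ring

/-- the mass of a position -/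
noncomputable def ce1_own (f₁ f₂ : ℕ) (A₁ A₂ : ℤ → Prop) (i : ℤ) : ℕ :=
  (if A₁ i then f₁ else 0) + (if A₂ i then f₂ else 0)

theorem ce1_zmod (x y : ZMod 2) : x = y ∨ x = y + 1 := by
  revert x y
  decide

theorem ce1_count (c : ℕ) {s : ℤ → ZMod 2} {A : ℤ → Prop} (hs : ∀ i : ℤ, s (i + c) = s i + 1)
    (hA : ∀ i : ℤ, A (i + c) ↔ A i) :
    ((Finset.Ico (0 : ℤ) (2 * c)).filter (fun p => A p ∧ s p = 0)).card =
      ((Finset.range c).filter (fun k : ℕ => A k)).card := by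
  symm
  apply Finset.card_bij (fun (k : ℕ) _ => if s k = 0 then (k : ℤ) else (k : ℤ) + c)
  · intro k hk
    rw [Finset.mem_filter, Finset.mem_range] at hk
    obtain ⟨hk1, hk2⟩ := hk
    rw [Finset.mem_filter, Finset.mem_Ico]
    by_cases h0 : s k = 0
    · rw [if_pos h0]
      refine ⟨⟨by omega, by omega⟩, hk2, h0⟩
    · rw [if_neg h0]
      refine ⟨⟨by omega, by omega⟩, (hA _).2 hk2, ?_⟩
      rw [hs]
      rcases ce1_zmod (s k) 0 with h1 | h1
      · exact absurd h1 h0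
      · rw [h1]
        decide
  · intro a ha b hb hab
    rw [Finset.mem_filter, Finset.mem_range] at ha hb
    split_ifs at hab <;> omega
  · intro p hp
    rw [Finset.mem_filter, Finset.mem_Ico] at hp
    obtain ⟨⟨hp1, hp2⟩, hp3, hp4⟩ := hp
    by_cases hlt : p < c
    · refine ⟨p.toNat, ?_, ?_⟩
      · rw [Finset.mem_filter, Finset.mem_range, Int.toNat_of_nonneg hp1]
        exact ⟨by omega, hp3⟩
      · rw [Int.toNat_of_nonneg hp1, if_pos hp4]
    · have hq1 : 0 ≤ p - c := by omega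
      have e : p = (p - c) + c := by ring
      refine ⟨(p - c).toNat, ?_, ?_⟩
      · rw [Finset.mem_filter, Finset.mem_range, Int.toNat_of_nonneg hq1]
        refine ⟨by omega, ?_⟩
        rw [e] at hp3
        exact (hA _).1 hp3
      · rw [Int.toNat_of_nonneg hq1]
        have h1 : s (p - c) ≠ 0 := by
          intro h1
          rw [e, hs, h1] at hp4
          revert hp4
          decide
        rw [if_neg h1]
        ring

section
variable {c d f₁ f₂ N₁ N₂ : ℕ} {τ : ZMod 2} {s : ℤ → ZMod 2} {A₁ A₂ : ℤ → Prop}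

theorem ce1_le (h : CEH c d f₁ f₂ N₁ N₂ τ s A₁ A₂) {i j : ℤ} (hij : i < j) (hji : j < i + c)
    (hs : s i = s j) (hi : A₁ i ∨ A₂ i) (hj : A₁ j ∨ A₂ j) :
    (ce1_own f₁ f₂ A₁ A₂ i : ℤ) ≤ j - i ∧ (ce1_own f₁ f₂ A₁ A₂ j : ℤ) ≤ j - i := by
  have h11 := h.c11 i j hij hji hs
  have h22 := h.c22 i j hij hji hs
  have h12 := h.c12 i j hij hji hs
  have h21 := h.c21 i j hij hji hs
  unfold ce1_own
  by_cases a1 : A₁ i <;> by_cases a2 : A₂ i <;> by_cases b1 : A₁ j <;> by_cases b2 : A₂ j <;>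
    simp only [a1, a2, b1, b2, if_true, if_false, or_self, or_true, or_false, forall_true_left,
      false_imp_iff] at h11 h22 h12 h21 hi hj ⊢ <;>
    push_cast <;> constructor <;> omega

theorem ce1_swap (h : CEH c d f₁ f₂ N₁ N₂ τ s A₁ A₂) : CEH c d f₂ f₁ N₂ N₁ τ s A₂ A₁ where
  hd := h.hd
  hc := h.hc
  hcd := h.hcd
  per := h.per
  per1 := h.per2
  per2 := h.per1
  card1 := h.card2
  card2 := h.card1
  two1 := h.two2
  two2 := h.two1
  f1 := h.f2
  f2 := h.f1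
  fd1 := h.fd2
  fd2 := h.fd1
  prod1 := h.prod2
  prod2 := h.prod1
  c11 := h.c22
  c22 := h.c11
  c12 := fun i j a b e x y => by
    rw [add_comm]
    exact h.c21 i j a b e x y
  c21 := fun i j a b e x y => by
    rw [add_comm]
    exact h.c12 i j a b e x y
  typ1 := h.typ2
  typ2 := h.typ1

theorem ce1_own_swap (i : ℤ) : ce1_own f₂ f₁ A₂ A₁ i = ce1_own f₁ f₂ A₁ A₂ i := by
  unfold ce1_own
  exact add_comm _ _

/-- there is another element within a period -/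
theorem ce1_other (h : CEH c d f₁ f₂ N₁ N₂ τ s A₁ A₂) (i : ℤ) :
    ∃ j : ℤ, i < j ∧ j < i + c ∧ A₁ j := by
  have hc : (0 : ℤ) < c := by have := h.hc; omega
  have hcard : 1 < ((Finset.range c).filter (fun k : ℕ => A₁ k)).card := by
    rw [h.card1]
    have := h.two1
    omega
  obtain ⟨a, ha, b, hb, hab⟩ := Finset.one_lt_card.1 hcard
  rw [Finset.mem_filter, Finset.mem_range] at ha hb
  have key : ∀ k : ℕ, k < c → A₁ k → (((k : ℤ) - i) % c ≠ 0) → ∃ j : ℤ, i < j ∧ j < i + c ∧ A₁ j := by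
    intro k _ hk2 hk3
    have h1 := Int.emod_nonneg ((k : ℤ) - i) hc.ne'
    have h2 := Int.emod_lt_of_pos ((k : ℤ) - i) hc
    refine ⟨i + ((k : ℤ) - i) % c, by omega, by omega, ?_⟩
    have h3 := Int.emod_add_mul_ediv ((k : ℤ) - i) c
    have e : i + ((k : ℤ) - i) % c = k + c * (-(((k : ℤ) - i) / c)) := by linarith
    rw [e, ce1_A_mul h.per1]
    exact hk2
  by_cases h1 : ((a : ℤ) - i) % c = 0
  · apply key b hb.1 hb.2
    intro h2
    apply hab
    have h3 : ((a : ℤ) - b) % c = 0 := by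
      have e : (a : ℤ) - b = (a - i) - (b - i) := by ring
      rw [e, Int.sub_emod, h1, h2]
      simp
    have h4 : (c : ℤ) ∣ (a : ℤ) - b := Int.dvd_of_emod_eq_zero h3
    obtain ⟨t, ht⟩ := h4
    have ha1 := ha.1
    have hb1 := hb.1
    have ht0 : t = 0 := by
      by_contra hne
      rcases lt_or_gt_of_ne hne with h5 | h5
      · have : (c : ℤ) * t ≤ c * (-1) := by
          apply mul_le_mul_of_nonneg_left _ hc.le
          omega
        omega
      · have : (c : ℤ) * 1 ≤ c * t := by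
          apply mul_le_mul_of_nonneg_left _ hc.le
          omega
        omega
    rw [ht0, mul_zero] at ht
    omega
  · exact key a ha.1 ha.2 h1

theorem ce1_own_per (h : CEH c d f₁ f₂ N₁ N₂ τ s A₁ A₂) (i n : ℤ) :
    ce1_own f₁ f₂ A₁ A₂ (i + c * n) = ce1_own f₁ f₂ A₁ A₂ i := by
  unfold ce1_own
  simp only [ce1_A_mul h.per1, ce1_A_mul h.per2]

theorem ce1_U_per (h : CEH c d f₁ f₂ N₁ N₂ τ s A₁ A₂) (i n : ℤ) :
    (A₁ (i + c * n) ∨ A₂ (i + c * n)) ↔ (A₁ i ∨ A₂ i) := by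
  rw [ce1_A_mul h.per1, ce1_A_mul h.per2]

theorem ce1_own_pos (h : CEH c d f₁ f₂ N₁ N₂ τ s A₁ A₂) {i : ℤ} (hi : A₁ i ∨ A₂ i) :
    2 ≤ ce1_own f₁ f₂ A₁ A₂ i := by
  have h1 := h.f1
  have h2 := h.f2
  unfold ce1_own
  by_cases a1 : A₁ i
  · rw [if_pos a1]
    omega
  · have a2 : A₂ i := hi.resolve_left a1
    rw [if_pos a2]
    omega

end

section
variable {c d f₁ f₂ N₁ N₂ : ℕ} {s : ℤ → ZMod 2} {A₁ A₂ : ℤ → Prop}

theorem ce1_own_lt (h : CEH c d f₁ f₂ N₁ N₂ 1 s A₁ A₂) {i : ℤ} (hi : A₁ i ∨ A₂ i) :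
    ce1_own f₁ f₂ A₁ A₂ i < c := by
  obtain ⟨j, hj1, hj2, hj3⟩ := ce1_other h i
  rcases ce1_zmod (s j) (s i) with hs | hs
  · have := (ce1_le h hj1 hj2 hs.symm hi (Or.inl hj3)).1
    omega
  · have h1 : s j = s (i + c) := by rw [h.per, hs]
    have hi' : A₁ (i + c) ∨ A₂ (i + c) := by
      rw [h.per1, h.per2]
      exact hi
    have := (ce1_le h (i := j) (j := i + c) hj2 (by omega) h1 (Or.inl hj3) hi').2
    have e := ce1_own_per h i 1
    rw [mul_one] at e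
    rw [e] at this
    omega

theorem ce1_main (h : CEH c d f₁ f₂ N₁ N₂ 1 s A₁ A₂) :
    c + 2 = 2 * d ∧ N₁ * f₁ + 2 = 2 * d ∧ N₂ * f₂ + 2 = 2 * d ∧
      ∀ p : ℤ, (A₁ p ∨ A₂ p) → (A₁ (p + ce1_own f₁ f₂ A₁ A₂ p) ∨ A₂ (p + ce1_own f₁ f₂ A₁ A₂ p)) ∧
        s (p + ce1_own f₁ f₂ A₁ A₂ p) = s p := by
  have hc := h.hc
  have hcz : (0 : ℤ) < c := by omega
  set P := (Finset.Ico (0 : ℤ) (2 * c)).filter (fun p => (A₁ p ∨ A₂ p) ∧ s p = 0) with hP
  have hmem : ∀ p, p ∈ P ↔ (0 ≤ p ∧ p < 2 * c) ∧ (A₁ p ∨ A₂ p) ∧ s p = 0 := by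
    intro p
    rw [hP, Finset.mem_filter, Finset.mem_Ico]
  have hsum : ∑ p ∈ P, ce1_own f₁ f₂ A₁ A₂ p = N₁ * f₁ + N₂ * f₂ := by
    unfold ce1_own
    rw [Finset.sum_add_distrib]
    rw [← Finset.sum_filter, ← Finset.sum_filter, Finset.sum_const, Finset.sum_const, smul_eq_mul,
      smul_eq_mul]
    have e1 : (P.filter (fun p => A₁ p)).card = N₁ := by
      rw [← h.card1, ← ce1_count c h.per h.per1]
      congr 1
      ext p
      rw [Finset.mem_filter, hmem, Finset.mem_filter, Finset.mem_Ico]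
      tauto
    have e2 : (P.filter (fun p => A₂ p)).card = N₂ := by
      rw [← h.card2, ← ce1_count c h.per h.per2]
      congr 1
      ext p
      rw [Finset.mem_filter, hmem, Finset.mem_filter, Finset.mem_Ico]
      tauto
    rw [e1, e2]
  have hint := int_count (2 * c) (by omega) P (ce1_own f₁ f₂ A₁ A₂) (by
    intro p hp q hq k hk hdvd
    rw [hmem] at hp hq
    obtain ⟨⟨hp1, hp2⟩, hp3, hp4⟩ := hp
    obtain ⟨⟨hq1, hq2⟩, hq3, hq4⟩ := hq
    have hlt := ce1_own_lt h hp3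
    obtain ⟨t, ht⟩ := hdvd
    push_cast at ht
    have e : p + k = q + c * (2 * t) := by linarith
    have hU : A₁ (p + k) ∨ A₂ (p + k) := by
      rw [e, ce1_U_per h]
      exact hq3
    have hS : s (p + k) = s q := by
      rw [e, ce1_s_mul h.per]
    have hk0 : k = 0 := by
      by_contra hne
      have := (ce1_le h (i := p) (j := p + k) (by omega) (by omega) (by rw [hp4, hS, hq4]) hp3 hU).1
      omega
    refine ⟨?_, hk0⟩
    subst hk0
    have ht0 : t = 0 := by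
      by_contra hne
      rcases lt_or_gt_of_ne hne with h5 | h5
      · have : (c : ℤ) * (2 * t) ≤ c * (-2) := by
          apply mul_le_mul_of_nonneg_left _ hcz.le
          omega
        push_cast at e
        omega
      · have : (c : ℤ) * 2 ≤ c * (2 * t) := by
          apply mul_le_mul_of_nonneg_left _ hcz.le
          omega
        push_cast at e
        omega
    rw [ht0, mul_zero, mul_zero, add_zero] at e
    push_cast at e
    omega)
  rw [hsum] at hint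
  obtain ⟨hle, heq⟩ := hint
  have hcd := h.hcd
  have hp1 := h.prod1
  have hp2 := h.prod2
  have hE : N₁ * f₁ + N₂ * f₂ = 2 * c := by omega
  have heq' := heq hE
  refine ⟨by omega, by omega, by omega, ?_⟩
  -- first for class zero
  have hzero : ∀ p : ℤ, (A₁ p ∨ A₂ p) → s p = 0 →
      (A₁ (p + ce1_own f₁ f₂ A₁ A₂ p) ∨ A₂ (p + ce1_own f₁ f₂ A₁ A₂ p)) ∧
        s (p + ce1_own f₁ f₂ A₁ A₂ p) = s p := by
    intro p hpU hps
    have h2c : (0 : ℤ) < 2 * c := by omega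
    have h3 := Int.emod_add_mul_ediv p (2 * c)
    have h4 := Int.emod_nonneg p h2c.ne'
    have h5 := Int.emod_lt_of_pos p h2c
    set r := p % (2 * c) with hr
    set t := p / (2 * c) with ht
    have e : p = r + c * (2 * t) := by linarith
    have hrU : A₁ r ∨ A₂ r := by
      rw [e, ce1_U_per h] at hpU
      exact hpU
    have hrs : s r = 0 := by
      rw [e, ce1_s_mul h.per] at hps
      exact hps
    have hro : ce1_own f₁ f₂ A₁ A₂ p = ce1_own f₁ f₂ A₁ A₂ r := by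
      conv_lhs => rw [e]
      exact ce1_own_per h _ _
    have hrP : r ∈ P := (hmem r).2 ⟨⟨h4, h5⟩, hrU, hrs⟩
    have hpos := ce1_own_pos h hrU
    obtain ⟨q, hq, hdvd⟩ := heq' r hrP (by omega)
    rw [hmem] at hq
    obtain ⟨⟨hq1, hq2⟩, hq3, hq4⟩ := hq
    obtain ⟨u, hu⟩ := hdvd
    push_cast at hu
    have e2 : p + ce1_own f₁ f₂ A₁ A₂ p = q + c * (2 * (u + t)) := by
      rw [hro]
      linarith
    rw [e2, ce1_U_per h, ce1_s_mul h.per, hq4, hps]
    exact ⟨hq3, rfl⟩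
  intro p hpU
  rcases ce1_zmod (s p) 0 with h0 | h0
  · exact hzero p hpU h0
  · have hpc : A₁ (p + c) ∨ A₂ (p + c) := by
      rw [h.per1, h.per2]
      exact hpU
    have hsc : s (p + c) = 0 := by
      rw [h.per, h0]
      decide
    have := hzero (p + c) hpc hsc
    have eo : ce1_own f₁ f₂ A₁ A₂ (p + c) = ce1_own f₁ f₂ A₁ A₂ p := by
      have := ce1_own_per h p 1
      rwa [mul_one] at this
    rw [eo] at this
    have e3 : p + c + (ce1_own f₁ f₂ A₁ A₂ p : ℤ) = p + ce1_own f₁ f₂ A₁ A₂ p + c := by ring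
    rw [e3, h.per1, h.per2, h.per, h.per] at this
    refine ⟨this.1, add_right_cancel this.2⟩

/-- (T1) every element of the first set is in the second set -/
theorem ce1_T1 (h : CEH c d f₁ f₂ N₁ N₂ 1 s A₁ A₂) {p : ℤ} (hp : A₁ p) : A₂ p := by
  by_contra hp2
  obtain ⟨hcd, -, -, hT⟩ := ce1_main h
  have step : ∀ q : ℤ, A₁ q → ¬ A₂ q → A₁ (q + f₁) ∧ ¬ A₂ (q + f₁) ∧ s (q + f₁) = s q ∧ f₁ = 2 := by
    intro q hq1 hq2
    have eo : ce1_own f₁ f₂ A₁ A₂ q = f₁ := by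
      unfold ce1_own
      rw [if_pos hq1, if_neg hq2, add_zero]
    have h1 := hT q (Or.inl hq1)
    have hlt := ce1_own_lt h (Or.inl hq1 : A₁ q ∨ A₂ q)
    rw [eo] at h1 hlt
    have hf1 := h.f1
    have hf2 := h.f2
    have hn2 : ¬ A₂ (q + f₁) := by
      intro hA
      have := h.c12 q (q + f₁) (by omega) (by omega) h1.2.symm hq1 hA
      omega
    have hA1 : A₁ (q + f₁) := h1.1.resolve_right hn2
    refine ⟨hA1, hn2, h1.2, ?_⟩
    rcases h.typ1 with ht | ht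
    · exact ht.1
    · have := ht.2 q (q + f₁) (by omega) (by omega) h1.2.symm hq1 hA1
      omega
  have hf : f₁ = 2 := (step p hp hp2).2.2.2
  have hall : ∀ k : ℕ, A₁ (p + 2 * k) ∧ ¬ A₂ (p + 2 * k) ∧ s (p + 2 * k) = s p := by
    intro k
    induction k with
    | zero => simpa using ⟨hp, hp2⟩
    | succ k ih =>
      obtain ⟨a, b, e⟩ := ih
      obtain ⟨a', b', e', -⟩ := step _ a b
      rw [hf] at a' b' e'
      have ee : p + 2 * ((k + 1 : ℕ) : ℤ) = p + 2 * k + ((2 : ℕ) : ℤ) := by push_cast; ring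
      rw [ee]
      exact ⟨a', b', e'.trans e⟩
  have h1 := (hall (d - 1)).2.2
  have hd := h.hd
  have ee : p + 2 * ((d - 1 : ℕ) : ℤ) = p + c := by omega
  rw [ee, h.per] at h1
  rcases ce1_zmod (s p) 0 with h0 | h0 <;> rw [h0] at h1 <;> revert h1 <;> decide

end

theorem ce_one {c d f₁ f₂ N₁ N₂ : ℕ} {s : ℤ → ZMod 2} {A₁ A₂ : ℤ → Prop}
    (h : CEH c d f₁ f₂ N₁ N₂ 1 s A₁ A₂) : CEC c d f₁ f₂ 1 s A₁ A₂ := by
  have h12 : ∀ p : ℤ, A₁ p ↔ A₂ p := fun p => ⟨fun hp => ce1_T1 h hp, fun hp => ce1_T1 (ce1_swap h) hp⟩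
  obtain ⟨hcd, hn1, hn2, hT⟩ := ce1_main h
  have hN : N₁ = N₂ := by
    rw [← h.card1, ← h.card2]
    congr 1
    ext k
    rw [Finset.mem_filter, Finset.mem_filter, h12]
  have htwo := h.two1
  have hff : f₁ = f₂ := by
    have h1 : N₁ * f₁ = N₁ * f₂ := by
      have : N₂ * f₂ = N₁ * f₂ := by rw [hN]
      omega
    exact Nat.eq_of_mul_eq_mul_left (by omega) h1
  have hown : ∀ p : ℤ, A₁ p → ce1_own f₁ f₂ A₁ A₂ p = 2 * f₁ := by
    intro p hp
    unfold ce1_own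
    rw [if_pos hp, if_pos ((h12 p).1 hp), ← hff]
    ring
  -- an element
  obtain ⟨p₀, -, -, hp₀⟩ := ce1_other h 0
  have hlt := ce1_own_lt h (Or.inl hp₀ : A₁ p₀ ∨ A₂ p₀)
  rw [hown p₀ hp₀] at hlt
  have hN3 : 3 ≤ N₁ := by
    by_contra hcon
    have h2 : N₁ = 2 := by omega
    rw [h2] at hn1
    omega
  have hf1 := h.f1
  have hf : f₁ = 2 := by
    rcases h.typ1 with ht | ht
    · exact ht.1
    · exfalso
      rcases ht.1 with h1 | ⟨h1, h2⟩
      · omega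
      · obtain ⟨a, rfl⟩ : ∃ a, N₁ = a + 3 := ⟨N₁ - 3, by omega⟩
        obtain ⟨b, rfl⟩ : ∃ b, f₁ = b + 3 := ⟨f₁ - 3, by omega⟩
        have e : (a + 3) * (b + 3) = a * b + 3 * a + 3 * b + 9 := by ring
        rw [e] at hn1
        have : 0 ≤ a * b := Nat.zero_le _
        omega
  have hN1 : N₁ + 1 = d := by
    rw [hf] at hn1
    omega
  have h4 : ∀ p : ℤ, A₁ p → A₁ (p + 4) ∧ s (p + 4) = s p := by
    intro p hp
    have h1 := hT p (Or.inl hp)
    rw [hown p hp, hf] at h1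
    have e : p + ((2 * 2 : ℕ) : ℤ) = p + 4 := by norm_num
    rw [e] at h1
    refine ⟨?_, h1.2⟩
    rcases h1.1 with h2 | h2
    · exact h2
    · exact (h12 _).2 h2
  have h4k : ∀ (k : ℕ) (p : ℤ), A₁ p → A₁ (p + 4 * k) ∧ s (p + 4 * k) = s p := by
    intro k p hp
    induction k with
    | zero => simpa using hp
    | succ k ih =>
      obtain ⟨a, b⟩ := h4 _ ih.1
      have e : p + 4 * ((k + 1 : ℕ) : ℤ) = p + 4 * k + 4 := by push_cast; ring
      rw [e]
      exact ⟨a, b.trans ih.2⟩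
  have hpar : ∃ t : ℕ, c + 2 = 4 * t := by
    rcases Nat.even_or_odd' d with ⟨t, ht | ht⟩
    · exact ⟨t, by omega⟩
    · exfalso
      have h1 := (h4k t p₀ hp₀).2
      have e : p₀ + 4 * (t : ℤ) = p₀ + c := by omega
      rw [e, h.per] at h1
      rcases ce1_zmod (s p₀) 0 with h0 | h0 <;> rw [h0] at h1 <;> revert h1 <;> decide
  obtain ⟨t, ht⟩ := hpar
  have h2 : ∀ p : ℤ, A₁ p → A₁ (p + 2) ∧ s (p + 2) = s p + 1 := by
    intro p hp
    obtain ⟨a, b⟩ := h4k t p hp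
    have e : p + 4 * (t : ℤ) = p + 2 + c := by omega
    rw [e] at a b
    rw [h.per1] at a
    rw [h.per] at b
    refine ⟨a, ?_⟩
    rw [← b, add_assoc]
    have : (1 : ZMod 2) + 1 = 0 := by decide
    rw [this, add_zero]
  have h2k : ∀ (k : ℕ) (p : ℤ), A₁ p → A₁ (p + 2 * k) := by
    intro k p hp
    induction k with
    | zero => simpa using hp
    | succ k ih =>
      have e : p + 2 * ((k + 1 : ℕ) : ℤ) = p + 2 * k + 2 := by push_cast; ring
      rw [e]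
      exact (h2 _ ih).1
  have hall : ∀ k : ℤ, A₁ (p₀ + 2 * k) := by
    intro k
    have hd := h.hd
    have h3 := h2k (k + k.natAbs * (d - 1 : ℕ)).toNat p₀ hp₀
    have h5 : 0 ≤ k + k.natAbs * ((d - 1 : ℕ) : ℤ) := by
      have h6 : (k.natAbs : ℤ) * 1 ≤ k.natAbs * ((d - 1 : ℕ) : ℤ) :=
        mul_le_mul_of_nonneg_left (by omega) (by omega)
      omega
    rw [Int.toNat_of_nonneg h5] at h3
    have h7 : (2 : ℤ) * ((d - 1 : ℕ) : ℤ) = c := by omega
    have e : p₀ + 2 * (k + k.natAbs * ((d - 1 : ℕ) : ℤ)) = (p₀ + 2 * k) + c * k.natAbs := by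
      rw [← h7]
      ring
    rw [e, ce1_A_mul h.per1] at h3
    exact h3
  right; right; right
  refine ⟨hcd, by omega, p₀, fun k => ⟨hall k, (h12 _).1 (hall k), (h2 _ (hall k)).2⟩⟩

end Pool.Agent.BND
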