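import Pool.Agent.BND.NC
import Pool.Agent.BND.PD2
import Pool.Agent.BND.ST

/-!
# BND-CUT : the outside has a cut vertex

`CutH`: normalised context, two end pieces `(D₁, b₁)`, `(D₂, b₂)` of `B = Bs v c` with data
`(R₁, f₁)`, `(R₂, f₂)`, disjoint etc.  `Aₐ i := v i ∈ Rₐ`.

`cut_ceh`: `CEH c d f₁ f₂ |R₁| |R₂| τ s A₁ A₂`.  The cardinalities: `card_pos`.  (c11): an ear between
`v i ≠ v j ∈ R₁` of length `≥ f₁` and `arc_ear`; `insert b₁ D₁ ⊆ B`.  (c12), (c21): `cross_ear`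
(`Ear.reverse`).  typ: `PD.typ`.

`cut_star`: `τ = 0`, `f₁ = f₂ = d - 1`, `p < q < p + c`, `v p, v q ∈ R₁ ∩ R₂` of different classes:
contradiction.  `|TT| ≥ 3` (`three_le_TT`): there is a third vertex `w = v r` with a neighbour
`z ∈ B`.  Its class equals the class of `v p` or of `v q`, say of `u ∈ {v p, v q}`.
Claim: there is an ear from `w` to `u` of length at least `d`, i.e. `d ≤ |I| + 1`.
If `z ∉ D₁`: let `P` be a path from `z` to `b₁` in `B \ D₁` (connected, `comp_conn_sdiff`), and `Q` the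
list of `PD.out` for `u ∈ R₁`: `Q ⊆ D₁`, path `u, Q, b₁`, `f₁ ≤ |Q| + 1`. The ear is
`P ++ Q.reverse`, `|P| + |Q| + 1 ≥ 1 + f₁ = d`.  If `z ∈ D₁` then `z ∉ D₂` and use `D₂` in the same
way.
Since `τ = 0`, both arcs between `w` and `u` are positive, so both have length `≥ d` by `arc_ear`,
and `c ≥ 2 d`.  Contradiction.

`cut_b`: positions `p, p+1, p+2, p+3`, `v p, v (p+2) ∈ R₁`, `v (p+1), v (p+3) ∈ R₂`, `4 ≤ c`,
`s (p+1) = s p + 1`, `s (p+3) = s (p+2) + 1`.  `I` an ear through `D₁` from `v p` to `v (p+2)`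
(`exists_ear`, `D₁` is connected), `J` an ear through `D₂` from `v (p+1)` to `v (p+3)`.
`NCtx.cross` with `i = p < p+1 ≤ p+2 < p+3 ≤ p + c`: `(s (p+1) - s p) + (s (p+3) - s (p+2)) = 1`
(lengths `2 < |I| + |J| + 2`), but it is `1 + 1 = 0`.

`cut_a1`: `8 ≤ c`, `v p, v (p+1), v (p+4), v (p+5) ∈ R₁ ∩ R₂`: `NCtx.par` with
`p < p+1 ≤ p+4 < p+5`, `I` through `D₁` from `v p` to `v (p+1)`, `J` through `D₂` from `v (p+4)` to
`v (p+5)`: `1 = 1 + 1`.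

`cut_a2`: `c + 2 = 2 d`, `4 ≤ d`, all `p + 2k` in `A₁ ∩ A₂`, `s (p + 2k + 2) = s (p + 2k) + 1`.
First, `¬ Tp (p + 2k + 1)`: otherwise `tp_succ` twice gives `s (p + 2k + 2) = s (p + 2k)`.
So `Tp i ↔ i ≡ p mod 2`, `Tp (i+1) ↔ ¬ Tp i`.  Apply `parity_false`: the ears needed: for
`v i ≠ v j` both in `R₁ ∩ R₂`: `cross_ear` gives an ear of length `≥ f₁ + f₂ ≥ 4`, so `|I| ≥ 3 ≥ 2`.
`via`: `J = I₁ ++ [v k] ++ I₂` with `I₁` an ear through `D₁` from `v i` to `v k`, `I₂` an ear through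
`D₂` from `v k` to `v j`; `|J| ≥ 3`.
-/

set_option autoImplicit false
set_option linter.unusedSectionVars false

namespace Pool.Agent.BND

open Classical

variable {V : Type} [Fintype V]
variable {G : SimpleGraph V} {ε : V → V → ZMod 2} {τ : ZMod 2} {d c : ℕ} {v : ℤ → V}
  {s : ℤ → ZMod 2} {D₁ D₂ R₁ R₂ : Finset V} {b₁ b₂ : V} {f₁ f₂ : ℕ}

/-- symmetric hypotheses -/
theorem cu1_symm (h : CutH G ε τ d c v s D₁ D₂ R₁ R₂ b₁ b₂ f₁ f₂) :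
    CutH G ε τ d c v s D₂ D₁ R₂ R₁ b₂ b₁ f₂ f₁ :=
  ⟨h.ctx, h.e2, h.e1, h.dis.symm, h.b21, h.b12, h.p2, h.p1⟩

theorem cu1_sub (h : CutH G ε τ d c v s D₁ D₂ R₁ R₂ b₁ b₂ f₁ f₂) : R₁ ⊆ Cs v c := by
  intro x hx
  exact (mem_TT.1 (h.p1.sub hx)).1

theorem cu1_card (h : CutH G ε τ d c v s D₁ D₂ R₁ R₂ b₁ b₂ f₁ f₂) :
    ((Finset.range c).filter (fun k : ℕ => v (k : ℤ) ∈ R₁)).card = R₁.card := by
  have := card_pos h.ctx.toCtx R₁ (cu1_sub h) 0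
  simpa using this

theorem cu1_emono (h : CutH G ε τ d c v s D₁ D₂ R₁ R₂ b₁ b₂ f₁ f₂) {x y : V} {I : List V}
    (hI : Ear G (insert b₁ D₁) x y I) : Ear G (Bs v c) x y I := by
  refine hI.mono ?_
  intro z hz
  rcases Finset.mem_insert.1 (hI.sub z hz) with h1 | h1
  · rw [h1]; exact h.e1.mem
  · exact h.e1.sub h1

theorem cu1_c11 (h : CutH G ε τ d c v s D₁ D₂ R₁ R₂ b₁ b₂ f₁ f₂) (i j : ℤ) (hij : i < j)
    (hj : j < i + c) (hs : s i = s j) (hi : v i ∈ R₁) (hj' : v j ∈ R₁) : (f₁ : ℤ) ≤ j - i := by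
  obtain ⟨I, hI, hlen⟩ := h.p1.ear (v i) hi (v j) hj' (h.ctx.toCtx.vne hij hj)
  have := h.ctx.arc_ear hij hj hs (cu1_emono h hI)
  have h2 : (f₁ : ℤ) ≤ (I.length : ℤ) + 1 := by exact_mod_cast hlen
  linarith

theorem cu1_typ (h : CutH G ε τ d c v s D₁ D₂ R₁ R₂ b₁ b₂ f₁ f₂) :
    (f₁ = 2 ∧ d ≤ R₁.card + 1) ∨ ((f₁ + 1 = d ∨ (3 ≤ f₁ ∧ d + 1 ≤ f₁ + R₁.card)) ∧
    ∀ i j : ℤ, i < j → j < i + c → s i = s j → v i ∈ R₁ → v j ∈ R₁ →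
      (f₁ : ℤ) + 1 ≤ j - i) := by
  rcases h.p1.typ with h1 | ⟨h1, h2⟩
  · exact Or.inl h1
  · refine Or.inr ⟨h1, ?_⟩
    intro i j hij hj hs hi hj'
    obtain ⟨I, hI, hlen⟩ := h2 (v i) hi (v j) hj' (h.ctx.toCtx.vne hij hj)
    have := h.ctx.arc_ear hij hj hs (cu1_emono h hI)
    have h2 : (f₁ : ℤ) ≤ (I.length : ℤ) := by exact_mod_cast hlen
    linarith

theorem cu1_c12 (h : CutH G ε τ d c v s D₁ D₂ R₁ R₂ b₁ b₂ f₁ f₂) (i j : ℤ) (hij : i < j)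
    (hj : j < i + c) (hs : s i = s j) (hi : v i ∈ R₁) (hj' : v j ∈ R₂) :
    (f₁ : ℤ) + f₂ ≤ j - i := by
  have hm := middle_conn h.ctx.conn h.e1 h.e2 h.dis h.b12 h.b21
  obtain ⟨I, hI, hlen⟩ := cross_ear hm h.e1 h.e2 h.dis h.b12 h.b21 h.p1 h.p2 hi hj'
  have := h.ctx.arc_ear hij hj hs hI
  have h2 : (f₁ : ℤ) + f₂ ≤ (I.length : ℤ) + 1 := by exact_mod_cast hlen
  linarith

theorem cut_ceh (h : CutH G ε τ d c v s D₁ D₂ R₁ R₂ b₁ b₂ f₁ f₂) :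
    CEH c d f₁ f₂ R₁.card R₂.card τ s (fun i => v i ∈ R₁) (fun i => v i ∈ R₂) where
  hd := h.ctx.hd
  hc := h.ctx.three
  hcd := h.ctx.hc
  per := h.ctx.per
  per1 := fun i => by simp only [h.ctx.toCtx.vper1]
  per2 := fun i => by simp only [h.ctx.toCtx.vper1]
  card1 := by convert cu1_card h
  card2 := by convert cu1_card (cu1_symm h)
  two1 := h.p1.two
  two2 := h.p2.two
  f1 := h.p1.f2
  f2 := h.p2.f2
  fd1 := h.p1.fd
  fd2 := h.p2.fd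
  prod1 := h.p1.prod
  prod2 := h.p2.prod
  c11 := cu1_c11 h
  c22 := cu1_c11 (cu1_symm h)
  c12 := cu1_c12 h
  c21 := fun i j hij hj hs hi hj' => by
    have := cu1_c12 (cu1_symm h) i j hij hj hs hi hj'
    linarith
  typ1 := cu1_typ h
  typ2 := cu1_typ (cu1_symm h)

end Pool.Agent.BND
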