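import Pool.Agent.BND.NC
import Pool.Agent.BND.PD2
import Pool.Agent.BND.ST

/-!
# BND-CUT : the outside has a cut vertex

`CutH`: normalised context, two end pieces `(D₁, b₁)`, `(D₂, b₂)` of `B = Bs v c` with data
`(R₁, f₁)`, `(R₂, f₂)`, disjoint etc.  `Aₐ i := v i ∈ Rₐ`.

`cut_ceh`: `CEH c d f₁ f₂ |R₁| |R₂| τ s A₁ A₂`.  The cardinalities: `card_pos`.  (c11): an ear between
`v i ≠ v j ∈ R₁` of length `≥ f₁` and `arc_ear`; `insert b₁ D₁ ⊆ B`.  (c12), (c21): `cross_ear`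
(`Ear.reverse`).  typ: `PD.typ`.

`cut_star`: `τ = 0`, `f₁ = f₂ = d - 1`, `p < q < p + c`, `v p, v q ∈ R₁ ∩ R₂` of different classes:
contradiction.  `|TT| ≥ 3` (`three_le_TT`): there is a third vertex `w = v r` with a neighbour
`z ∈ B`.  Its class equals the class of `v p` or of `v q`, say of `u ∈ {v p, v q}`.
Claim: there is an ear from `w` to `u` of length at least `d`, i.e. `d ≤ |I| + 1`.
If `z ∉ D₁`: let `P` be a path from `z` to `b₁` in `B \ D₁` (connected, `comp_conn_sdiff`), and `Q` the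
list of `PD.out` for `u ∈ R₁`: `Q ⊆ D₁`, path `u, Q, b₁`, `f₁ ≤ |Q| + 1`. The ear is
`P ++ Q.reverse`, `|P| + |Q| + 1 ≥ 1 + f₁ = d`.  If `z ∈ D₁` then `z ∉ D₂` and use `D₂` in the same
way.
Since `τ = 0`, both arcs between `w` and `u` are positive, so both have length `≥ d` by `arc_ear`,
and `c ≥ 2 d`.  Contradiction.

`cut_b`: positions `p, p+1, p+2, p+3`, `v p, v (p+2) ∈ R₁`, `v (p+1), v (p+3) ∈ R₂`, `4 ≤ c`,
`s (p+1) = s p + 1`, `s (p+3) = s (p+2) + 1`.  `I` an ear through `D₁` from `v p` to `v (p+2)`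
(`exists_ear`, `D₁` is connected), `J` an ear through `D₂` from `v (p+1)` to `v (p+3)`.
`NCtx.cross` with `i = p < p+1 ≤ p+2 < p+3 ≤ p + c`: `(s (p+1) - s p) + (s (p+3) - s (p+2)) = 1`
(lengths `2 < |I| + |J| + 2`), but it is `1 + 1 = 0`.

`cut_a1`: `8 ≤ c`, `v p, v (p+1), v (p+4), v (p+5) ∈ R₁ ∩ R₂`: `NCtx.par` with
`p < p+1 ≤ p+4 < p+5`, `I` through `D₁` from `v p` to `v (p+1)`, `J` through `D₂` from `v (p+4)` to
`v (p+5)`: `1 = 1 + 1`.

`cut_a2`: `c + 2 = 2 d`, `4 ≤ d`, all `p + 2k` in `A₁ ∩ A₂`, `s (p + 2k + 2) = s (p + 2k) + 1`.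
First, `¬ Tp (p + 2k + 1)`: otherwise `tp_succ` twice gives `s (p + 2k + 2) = s (p + 2k)`.
So `Tp i ↔ i ≡ p mod 2`, `Tp (i+1) ↔ ¬ Tp i`.  Apply `parity_false`: the ears needed: for
`v i ≠ v j` both in `R₁ ∩ R₂`: `cross_ear` gives an ear of length `≥ f₁ + f₂ ≥ 4`, so `|I| ≥ 3 ≥ 2`.
`via`: `J = I₁ ++ [v k] ++ I₂` with `I₁` an ear through `D₁` from `v i` to `v k`, `I₂` an ear through
`D₂` from `v k` to `v j`; `|J| ≥ 3`.
-/

set_option autoImplicit false
set_option linter.unusedSectionVars false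

namespace Pool.Agent.BND

open Classical

variable {V : Type} [Fintype V]
variable {G : SimpleGraph V} {ε : V → V → ZMod 2} {τ : ZMod 2} {d c : ℕ} {v : ℤ → V}
  {s : ℤ → ZMod 2} {D₁ D₂ R₁ R₂ : Finset V} {b₁ b₂ : V} {f₁ f₂ : ℕ}

/-- an end piece is a component of `B - b` -/
theorem cu2_comp {B D : Finset V} {b : V} (h : EP G B D b) : Comp G (B.erase b) D := by
  refine ⟨?_, h.conn, ?_⟩
  · intro x hx
    rw [Finset.mem_erase]
    exact ⟨fun e => h.nmem (e ▸ hx), h.sub hx⟩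
  · intro x hx y hy hxy
    rw [Finset.mem_erase] at hy
    rcases h.closed x hx y hy.2 hxy with h1 | h1
    · exact h1
    · exact absurd h1 hy.1

/-- the long ear starting with an edge to a vertex outside the end piece -/
theorem cu2_ear {K B D R : Finset V} {b : V} {f : ℕ} (hB : Conn G B) (hE : EP G B D b)
    (hP : PD G K D b d R f) (hf : f + 1 = d) {w u z : V} (hz : z ∈ B) (hzD : z ∉ D)
    (hwz : G.Adj w z) (hu : u ∈ R) : ∃ I, Ear G B w u I ∧ d ≤ I.length + 1 := by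
  have hconn : Conn G (B \ D) := comp_conn_sdiff hB hE.mem (cu2_comp hE)
  obtain ⟨P, hPP⟩ := hconn.2 z (by rw [Finset.mem_sdiff]; exact ⟨hz, hzD⟩) b
    (by rw [Finset.mem_sdiff]; exact ⟨hE.mem, hE.nmem⟩)
  obtain ⟨Q, hQ, hQl⟩ := hP.out u hu
  obtain ⟨x, y, hxy, hux, hyb⟩ := hQ.pth
  have hQr : Pth G B y x Q.reverse := hxy.reverse.mono (by
    intro q hq
    rw [List.mem_reverse] at hq
    exact hE.sub (hxy.sub q hq))
  have hPB : Pth G B z b P := hPP.mono (fun q hq => (Finset.mem_sdiff.1 (hPP.sub q hq)).1)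
  have hcat : Pth G B z x (P ++ Q.reverse) := by
    apply pth_append hPB hQr hyb.symm
    intro q hq hq'
    rw [List.mem_reverse] at hq'
    exact (Finset.mem_sdiff.1 (hPP.sub q hq)).2 (hxy.sub q hq')
  refine ⟨P ++ Q.reverse, hcat.ear hwz hux.symm, ?_⟩
  have : 1 ≤ P.length := List.length_pos_iff.2 hPB.ne_nil
  rw [List.length_append, List.length_reverse]
  omega

/-- both arcs are positive -/
theorem cu2_arcs (h : NCtx G ε τ d c v s) (hτ : τ = 0) {i j : ℤ} (hij : i < j) (hj : j < i + c)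
    (hs : s i = s j) (hI : ∃ I, Ear G (Bs v c) (v i) (v j) I ∧ d ≤ I.length + 1) : False := by
  obtain ⟨I, hI, hl⟩ := hI
  have h1 := h.arc_ear hij hj hs hI
  have hI' : Ear G (Bs v c) (v j) (v (i + c)) I.reverse := by
    rw [h.toCtx.vper1 i]
    exact hI.reverse
  have h2 := h.arc_ear (i := j) (j := i + c) (by omega) (by omega)
    (by rw [h.per i, hτ, add_zero]; exact hs.symm) hI'
  rw [List.length_reverse] at h2
  have h3 := h.hc
  omega

theorem cut_star (h : CutH G ε τ d c v s D₁ D₂ R₁ R₂ b₁ b₂ f₁ f₂) (hτ : τ = 0)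
    (hf1 : f₁ + 1 = d) (hf2 : f₂ + 1 = d) {p q : ℤ} (hpq : p < q) (hq : q < p + c)
    (h1 : v p ∈ R₁) (h2 : v p ∈ R₂) (h3 : v q ∈ R₁) (h4 : v q ∈ R₂) (hs : s q = s p + 1) :
    False := by
  have hT := three_le_TT h.ctx.cc
  obtain ⟨w, hw, hwn⟩ : ∃ w ∈ TT G (Cs v c) (Bs v c), w ∉ ({v p, v q} : Finset V) := by
    apply Finset.exists_mem_notMem_of_card_lt_card
    have := Finset.card_le_two (a := v p) (b := v q)
    omega
  rw [mem_TT] at hw
  obtain ⟨hwK, z, hz, hwz⟩ := hw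
  simp only [Finset.mem_insert, Finset.mem_singleton, not_or] at hwn
  obtain ⟨r, hr1, hr2, hr⟩ := exists_pos h.ctx.toCtx hwK p
  have hrp : r ≠ p := by
    rintro rfl
    exact hwn.1 hr.symm
  have hrq : r ≠ q := by
    rintro rfl
    exact hwn.2 hr.symm
  have hear : ∀ u : V, u ∈ R₁ → u ∈ R₂ → ∃ I, Ear G (Bs v c) (v r) u I ∧ d ≤ I.length + 1 := by
    intro u hu1 hu2
    rw [hr]
    by_cases hzD : z ∈ D₁
    · have hzD2 : z ∉ D₂ := fun hh => (Finset.disjoint_left.1 h.dis) hzD hh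
      exact cu2_ear h.ctx.conn h.e2 h.p2 hf2 hz hzD2 hwz hu2
    · exact cu2_ear h.ctx.conn h.e1 h.p1 hf1 hz hzD hwz hu1
  have hear' : ∀ u : V, u ∈ R₁ → u ∈ R₂ → ∃ I, Ear G (Bs v c) u (v r) I ∧ d ≤ I.length + 1 := by
    intro u hu1 hu2
    obtain ⟨I, hI, hl⟩ := hear u hu1 hu2
    exact ⟨I.reverse, hI.reverse, by rw [List.length_reverse]; exact hl⟩
  have hcase : s r = s p ∨ s r = s q := by
    rw [hs]
    generalize s r = a
    generalize s p = b
    revert a b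
    decide
  rcases hcase with hc | hc
  · exact cu2_arcs h.ctx hτ (i := p) (j := r) (by omega) hr2 hc.symm (hear' _ h1 h2)
  · rcases lt_or_gt_of_ne hrq with h5 | h5
    · exact cu2_arcs h.ctx hτ (i := r) (j := q) h5 (by omega) hc (hear _ h3 h4)
    · exact cu2_arcs h.ctx hτ (i := q) (j := r) h5 (by omega) hc.symm (hear' _ h3 h4)

end Pool.Agent.BND
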