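import Pool.Agent.BND.NC

/-!
# BND-CUT : the outside has a cut vertex

`CutH`: normalised context, two end pieces `(D₁, b₁)`, `(D₂, b₂)` of `B = Bs v c` with data
`(R₁, f₁)`, `(R₂, f₂)`, disjoint etc.  `Aₐ i := v i ∈ Rₐ`.

`cut_ceh`: `CEH c d f₁ f₂ |R₁| |R₂| τ s A₁ A₂`.  The cardinalities: `card_pos`.  (c11): an ear between
`v i ≠ v j ∈ R₁` of length `≥ f₁` and `arc_ear`; `insert b₁ D₁ ⊆ B`.  (c12), (c21): `cross_ear`
(`Ear.reverse`).  typ: `PD.typ`.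

`cut_star`: `τ = 0`, `f₁ = f₂ = d - 1`, `p < q < p + c`, `v p, v q ∈ R₁ ∩ R₂` of different classes:
contradiction.  `|TT| ≥ 3` (`three_le_TT`): there is a third vertex `w = v r` with a neighbour
`z ∈ B`.  Its class equals the class of `v p` or of `v q`, say of `u ∈ {v p, v q}`.
Claim: there is an ear from `w` to `u` of length at least `d`, i.e. `d ≤ |I| + 1`.
If `z ∉ D₁`: let `P` be a path from `z` to `b₁` in `B \ D₁` (connected, `comp_conn_sdiff`), and `Q` the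
list of `PD.out` for `u ∈ R₁`: `Q ⊆ D₁`, path `u, Q, b₁`, `f₁ ≤ |Q| + 1`. The ear is
`P ++ Q.reverse`, `|P| + |Q| + 1 ≥ 1 + f₁ = d`.  If `z ∈ D₁` then `z ∉ D₂` and use `D₂` in the same
way.
Since `τ = 0`, both arcs between `w` and `u` are positive, so both have length `≥ d` by `arc_ear`,
and `c ≥ 2 d`.  Contradiction.

`cut_b`: positions `p, p+1, p+2, p+3`, `v p, v (p+2) ∈ R₁`, `v (p+1), v (p+3) ∈ R₂`, `4 ≤ c`,
`s (p+1) = s p + 1`, `s (p+3) = s (p+2) + 1`.  `I` an ear through `D₁` from `v p` to `v (p+2)`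
(`exists_ear`, `D₁` is connected), `J` an ear through `D₂` from `v (p+1)` to `v (p+3)`.
`NCtx.cross` with `i = p < p+1 ≤ p+2 < p+3 ≤ p + c`: `(s (p+1) - s p) + (s (p+3) - s (p+2)) = 1`
(lengths `2 < |I| + |J| + 2`), but it is `1 + 1 = 0`.

`cut_a1`: `8 ≤ c`, `v p, v (p+1), v (p+4), v (p+5) ∈ R₁ ∩ R₂`: `NCtx.par` with
`p < p+1 ≤ p+4 < p+5`, `I` through `D₁` from `v p` to `v (p+1)`, `J` through `D₂` from `v (p+4)` to
`v (p+5)`: `1 = 1 + 1`.

`cut_a2`: `c + 2 = 2 d`, `4 ≤ d`, all `p + 2k` in `A₁ ∩ A₂`, `s (p + 2k + 2) = s (p + 2k) + 1`.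
First, `¬ Tp (p + 2k + 1)`: otherwise `tp_succ` twice gives `s (p + 2k + 2) = s (p + 2k)`.
So `Tp i ↔ i ≡ p mod 2`, `Tp (i+1) ↔ ¬ Tp i`.  Apply `parity_false`: the ears needed: for
`v i ≠ v j` both in `R₁ ∩ R₂`: `cross_ear` gives an ear of length `≥ f₁ + f₂ ≥ 4`, so `|I| ≥ 3 ≥ 2`.
`via`: `J = I₁ ++ [v k] ++ I₂` with `I₁` an ear through `D₁` from `v i` to `v k`, `I₂` an ear through
`D₂` from `v k` to `v j`; `|J| ≥ 3`.
-/

set_option autoImplicit false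
set_option linter.unusedSectionVars false

namespace Pool.Agent.BND

open Classical

variable {V : Type} [Fintype V]
variable {G : SimpleGraph V} {ε : V → V → ZMod 2} {τ : ZMod 2} {d c : ℕ} {v : ℤ → V}
  {s : ℤ → ZMod 2} {D₁ D₂ R₁ R₂ : Finset V} {b₁ b₂ : V} {f₁ f₂ : ℕ}

theorem cu3_mono {D B : Finset V} {x y : V} {I : List V} (hDB : D ⊆ B) (hI : Ear G D x y I) :
    Ear G B x y I :=
  ⟨hI.ne, hI.nodup, hI.chain, fun z hz => hDB (hI.sub z hz)⟩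

theorem cu3_disj {D D' : Finset V} {x y x' y' : V} {I J : List V} (hd : Disjoint D D')
    (hI : Ear G D x y I) (hJ : Ear G D' x' y' J) : ∀ z ∈ I, z ∉ J :=
  fun z hz hz' => Finset.disjoint_left.1 hd (hI.sub z hz) (hJ.sub z hz')

theorem cut_b (h : CutH G ε τ d c v s D₁ D₂ R₁ R₂ b₁ b₂ f₁ f₂) (hc : 4 ≤ c) {p : ℤ}
    (h1 : v p ∈ R₁) (h2 : v (p + 1) ∈ R₂) (h3 : v (p + 2) ∈ R₁) (h4 : v (p + 3) ∈ R₂)
    (s1 : s (p + 1) = s p + 1) (s2 : s (p + 2) = s p) (s3 : s (p + 3) = s p + 1) : False := by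
  obtain ⟨I, hI⟩ := exists_ear h.e1.conn (h.p1.sub h1) (h.p1.sub h3)
  obtain ⟨J, hJ⟩ := exists_ear h.e2.conn (h.p2.sub h2) (h.p2.sub h4)
  have hc' : (4 : ℤ) ≤ (c : ℤ) := by exact_mod_cast hc
  have hIl := List.length_pos_iff.2 hI.ne
  have hJl := List.length_pos_iff.2 hJ.ne
  have key := h.ctx.cross (i := p) (j := p + 1) (k := p + 2) (l := p + 3) (by omega) (by omega)
    (by omega) (by omega) (cu3_mono h.e1.sub hI) (cu3_mono h.e2.sub hJ)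
    (cu3_disj h.dis hI hJ) (by omega)
  rw [s1, s2, s3, add_sub_cancel_left] at key
  exact absurd key (by decide)

theorem cut_a1 (h : CutH G ε τ d c v s D₁ D₂ R₁ R₂ b₁ b₂ f₁ f₂) (hc : 8 ≤ c) {p : ℤ}
    (h1 : v p ∈ R₁) (h2 : v (p + 1) ∈ R₁) (h3 : v (p + 4) ∈ R₂) (h4 : v (p + 5) ∈ R₂)
    (s1 : s (p + 1) = s p + 1) (s5 : s (p + 5) = s (p + 4) + 1) : False := by
  obtain ⟨I, hI⟩ := exists_ear h.e1.conn (h.p1.sub h1) (h.p1.sub h2)
  obtain ⟨J, hJ⟩ := exists_ear h.e2.conn (h.p2.sub h3) (h.p2.sub h4)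
  have hc' : (8 : ℤ) ≤ (c : ℤ) := by exact_mod_cast hc
  have hIl := List.length_pos_iff.2 hI.ne
  have hJl := List.length_pos_iff.2 hJ.ne
  have key := h.ctx.par (i := p) (j := p + 1) (k := p + 4) (l := p + 5) (by omega) (by omega)
    (by omega) (by omega) (cu3_mono h.e1.sub hI) (cu3_mono h.e2.sub hJ)
    (cu3_disj h.dis hI hJ) (by omega)
  rw [s1, s5, add_sub_cancel_left, add_sub_cancel_left] at key
  exact absurd key (by decide)

end Pool.Agent.BND
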