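import Pool.Agent.BND.EQ2

/-!
# BND-K2 : exactly two vertices outside

`comb_k2` (combinatorics on a circle).  `X`, `Y` are `c`-periodic sets of positions, `c + 2 = 2 d`,
`d ≥ 3`, each with at least `d - 1` elements per period, `X ∪ Y` with at least three, such that
 (F1) there are no `i < j < i + c` with `X i, Y (i+1), X j, Y (j+1)`; (F1') the same with `X`, `Y`
 exchanged;
 (F2) if `X i, Y (i+1)` for some `i` then there is no `j` with `X j, Y (j+2)`; (F2') the same with
 `X`, `Y` exchanged.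
Then `X = Y`, and `X (i+1) ↔ ¬ X i`.

Proof.  (1) Suppose `X i, Y (i+1)` for some `i`, WLOG (translation) look at one period starting at `i`.
By (F2) the sets `X` and `Y - 2` are disjoint, and `|X| + |Y| ≥ 2 (d - 1) = c`, so they are
complementary: `Y (j + 2) ↔ ¬ X j` and `|X| = |Y| = d - 1`.  By (F1) `X ∩ (Y - 1)` has exactly one
element per period, namely `i`.  For `j ≢ i` with `X j`: `¬ Y (j+1)`, i.e. `X (j - 1)` (by
complementarity, `Y (j + 1) ↔ ¬ X (j - 1)`).  So going down from any element of `X` we stay in `X`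
until we reach `i` (mod `c`).  Let `i + t` (`0 ≤ t < c`) be the largest element of `X` in
`[i, i + c)`: then `X ∩ [i, i + c) = {i, …, i + t}`, so `t + 1 = d - 1`.
`Y (j + 2) ↔ ¬ X j`: `Y = {i + t + 3, …, i + c + 1}` mod `c`, it contains `i + c ≡ i` and
`i + c + 1 ≡ i + 1` (as `X (i - 2)`, `X (i - 1)` are false: `d - 1 ≤ c - 2`).  Now `X (i + 1)` holds
(`t ≥ 1` as `d ≥ 3`), so `Y i, X (i + 1)`, and (F2') says that `Y i, X (i + 2)` do not both hold; so
`¬ X (i + 2)`, `t = 1`, `d = 3`, `c = 4`, `X = {i, i+1}`, `Y = {i, i+1}` mod 4: `X ∪ Y` has two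
elements per period, a contradiction.
(2) So there are no `X i, Y (i+1)` and by symmetry no `Y i, X (i+1)`.  Hence `X` and `Y - 1` are
disjoint, `|X| + |Y| ≥ c`, so `Y (j + 1) ↔ ¬ X j`, and similarly `X (j + 1) ↔ ¬ Y j`.  So
`X (j + 2) ↔ ¬ Y (j + 1) ↔ X j`.  If `X i` and `X (i + 1)` for some `i` then `X` is everything and
`Y` is empty.  So `X i → ¬ X (i+1)`; if `¬ X i` and `¬ X (i + 1)` then `X` is empty.  So
`X (i + 1) ↔ ¬ X i`, and `Y (i + 1) ↔ ¬ X i ↔ X (i + 1)`.

`case_K2`.  `Bs v c = {x, y}`, `x ~ y` (connected), `|V| ≥ 2 d`, `c ≤ 2 d - 2` so `c + 2 = 2 d`.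
`X i := v i ~ x`, `Y i := v i ~ y`; `x` has at least `d - 1` neighbours on the cycle.
`Tp i ↔ X i ∨ Y i`, at least three positions (`three_le_TT`).  `tp_succ`: gap one arcs are negative.
 (F1) `NCtx.cross` with `I = [x]` from `v i` to `v j` and `J = [y]` from `v (i+1)` to `v (j+1)`,
 positions `i < i+1 ≤ j < j+1 ≤ i + c`, lengths `2 < 1 + 1 + 2`: `(s (i+1) - s i) + (s (j+1) - s j) = 1`,
 but it is `1 + 1 = 0`.
 (F2) Let `X i, Y (i+1)` and `X j, Y (j+2)`.  The ear `[x, y]` from `v j` to `v (j+2)` has length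
 `3 > 2`, so `s j ≠ s (j + 2)` (`arc_ear`), i.e. `s (j+2) = s j + 1`.  If `Tp (j+1)`, then by `tp_succ`
 twice `s (j+2) = s j`, contradiction.  So `¬ Tp (j + 1)`, hence `j + 1 ≢ i, i + 1`, and by
 periodicity we may assume `i + 1 ≤ j`, `j + 2 ≤ i + c`.  `NCtx.cross` with the positions
 `i < i + 1 ≤ j < j + 2 ≤ i + c`, `I = [x]` from `v i` to `v j`, `J = [y]` from `v (i+1)` to `v (j+2)`,
 lengths `1 + 2 < 4`: `(s (i+1) - s i) + (s (j+2) - s j) = 1` but it is `1 + 1`.
 (F1'), (F2') by exchanging `x` and `y`.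
So `comb_k2` applies: `X = Y = Tp` and `Tp (i+1) ↔ ¬ Tp i`.  `EqH` with `m = 2`, `N = d - 1 ≥ 3`
(exactly half of the `c = 2 (d - 1)` positions; at least three): `inv`: `Tp (i + 4)`; `btw`: `j = i + 2`;
`neg`: consecutive elements are `i, i + 2`, ear `[x, y]` of length `3 > 2`; `ear`: `[x, y]` (`|I| = 2`);
`via`: `[x, v k, y]`, `|J| = 3`.  `eq_false`.
-/

set_option autoImplicit false
set_option linter.unusedSectionVars false

namespace Pool.Agent.BND

open Classical

variable {V : Type} [Fintype V]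
variable {G : SimpleGraph V} {ε : V → V → ZMod 2} {τ : ZMod 2} {d c : ℕ} {v : ℤ → V}
  {s : ℤ → ZMod 2}

theorem k2b_count (A : ℤ → Prop) (hA : ∀ i : ℤ, A (i + 1) ↔ ¬ A i) (n : ℕ) :
    ((Finset.range (2 * n)).filter (fun k : ℕ => A k)).card = n := by
  induction n with
  | zero => simp
  | succ n ih =>
    have e : 2 * (n + 1) = 2 * n + 1 + 1 := by ring
    rw [e, Finset.range_add_one, Finset.filter_insert, Finset.range_add_one,
      Finset.filter_insert]
    have h1 : (((2 * n + 1 : ℕ) : ℤ)) = ((2 * n : ℕ) : ℤ) + 1 := by push_cast; ring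
    by_cases h : A ((2 * n : ℕ) : ℤ)
    · have h2 : ¬ A ((2 * n + 1 : ℕ) : ℤ) := by rw [h1, hA]; exact not_not.mpr h
      rw [if_neg h2, if_pos h, Finset.card_insert_of_notMem (by simp), ih]
    · have h2 : A ((2 * n + 1 : ℕ) : ℤ) := by rw [h1, hA]; exact h
      rw [if_pos h2, if_neg h, Finset.card_insert_of_notMem (by simp), ih]

/-- `EqH` for `m = 2` from the alternating pattern -/
theorem parity_false (h : NCtx G ε τ d c v s) (hc : c + 2 = 2 * d) (hd : 4 ≤ d)
    (hpar : ∀ i : ℤ, Tp G v c (i + 1) ↔ ¬ Tp G v c i)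
    (hneg : ∀ i : ℤ, Tp G v c i → s (i + 2) = s i + 1)
    (hear : ∀ i j : ℤ, Tp G v c i → Tp G v c j → v i ≠ v j →
      ∃ I, Ear G (Bs v c) (v i) (v j) I ∧ 2 ≤ I.length)
    (hvia : ∀ i j k : ℤ, Tp G v c i → Tp G v c j → Tp G v c k → v i ≠ v j → v i ≠ v k → v j ≠ v k →
      ∃ J, Via G (Bs v c) (v k) (v i) (v j) J ∧ 3 ≤ J.length) : False := by
  have hp2 : ∀ i : ℤ, Tp G v c (i + 2) ↔ Tp G v c i := fun i => by
    have h1 := hpar (i + 1)
    have h2 := hpar i
    rw [show i + 1 + 1 = i + 2 by ring] at h1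
    tauto
  have hp3 : ∀ i : ℤ, Tp G v c (i + 3) ↔ ¬ Tp G v c i := fun i => by
    have h1 := hpar (i + 2)
    rw [show i + 2 + 1 = i + 3 by ring] at h1
    rw [h1, hp2]
  refine eq_false (N := d - 1) (m := 2) ⟨h, ?_, by omega, le_rfl, by omega, ?_, ?_, ?_, hear, hvia⟩
  · have e : c = 2 * (d - 1) := by omega
    have := k2b_count (fun i => Tp G v c i) hpar (d - 1)
    rw [← e] at this
    exact this
  · intro i hi
    have h1 := hp2 (i + 2)
    have h2 := hp2 i
    rw [show i + 2 + 2 = i + ((2 : ℕ) : ℤ) + 2 by push_cast; ring] at h1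
    rw [h1, h2]
    exact hi
  · intro i hi
    refine ⟨i + 2, le_rfl, by push_cast; exact le_rfl, (hp2 i).2 hi, fun k hk1 hk2 hk => ?_⟩
    push_cast at hk2
    by_contra hne
    have h3 : k = i + 1 ∨ k = i + 3 := by omega
    rcases h3 with rfl | rfl
    · exact (hpar i).1 hk hi
    · exact (hp3 i).1 hk hi
  · intro i j hij hi hj hno
    have h1 : j = i + 2 := by
      by_contra hne
      rcases lt_or_gt_of_ne hne with h2 | h2
      · have h3 : j = i + 1 := by omega
        subst h3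
        exact (hpar i).1 hj hi
      · exact hno (i + 2) (by omega) h2 ((hp2 i).2 hi)
    rw [h1]
    exact hneg i hi

end Pool.Agent.BND
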