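import Pool.Agent.BND.NC
import Pool.Agent.BND.PD2
import Pool.Agent.BND.ST
import Pool.Agent.BND.K2b

/-!
# BND-CUT : the outside has a cut vertex

`CutH`: normalised context, two end pieces `(D₁, b₁)`, `(D₂, b₂)` of `B = Bs v c` with data
`(R₁, f₁)`, `(R₂, f₂)`, disjoint etc.  `Aₐ i := v i ∈ Rₐ`.

`cut_ceh`: `CEH c d f₁ f₂ |R₁| |R₂| τ s A₁ A₂`.  The cardinalities: `card_pos`.  (c11): an ear between
`v i ≠ v j ∈ R₁` of length `≥ f₁` and `arc_ear`; `insert b₁ D₁ ⊆ B`.  (c12), (c21): `cross_ear`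
(`Ear.reverse`).  typ: `PD.typ`.

`cut_star`: `τ = 0`, `f₁ = f₂ = d - 1`, `p < q < p + c`, `v p, v q ∈ R₁ ∩ R₂` of different classes:
contradiction.  `|TT| ≥ 3` (`three_le_TT`): there is a third vertex `w = v r` with a neighbour
`z ∈ B`.  Its class equals the class of `v p` or of `v q`, say of `u ∈ {v p, v q}`.
Claim: there is an ear from `w` to `u` of length at least `d`, i.e. `d ≤ |I| + 1`.
If `z ∉ D₁`: let `P` be a path from `z` to `b₁` in `B \ D₁` (connected, `comp_conn_sdiff`), and `Q` the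
list of `PD.out` for `u ∈ R₁`: `Q ⊆ D₁`, path `u, Q, b₁`, `f₁ ≤ |Q| + 1`. The ear is
`P ++ Q.reverse`, `|P| + |Q| + 1 ≥ 1 + f₁ = d`.  If `z ∈ D₁` then `z ∉ D₂` and use `D₂` in the same
way.
Since `τ = 0`, both arcs between `w` and `u` are positive, so both have length `≥ d` by `arc_ear`,
and `c ≥ 2 d`.  Contradiction.

`cut_b`: positions `p, p+1, p+2, p+3`, `v p, v (p+2) ∈ R₁`, `v (p+1), v (p+3) ∈ R₂`, `4 ≤ c`,
`s (p+1) = s p + 1`, `s (p+3) = s (p+2) + 1`.  `I` an ear through `D₁` from `v p` to `v (p+2)`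
(`exists_ear`, `D₁` is connected), `J` an ear through `D₂` from `v (p+1)` to `v (p+3)`.
`NCtx.cross` with `i = p < p+1 ≤ p+2 < p+3 ≤ p + c`: `(s (p+1) - s p) + (s (p+3) - s (p+2)) = 1`
(lengths `2 < |I| + |J| + 2`), but it is `1 + 1 = 0`.

`cut_a1`: `8 ≤ c`, `v p, v (p+1), v (p+4), v (p+5) ∈ R₁ ∩ R₂`: `NCtx.par` with
`p < p+1 ≤ p+4 < p+5`, `I` through `D₁` from `v p` to `v (p+1)`, `J` through `D₂` from `v (p+4)` to
`v (p+5)`: `1 = 1 + 1`.

`cut_a2`: `c + 2 = 2 d`, `4 ≤ d`, all `p + 2k` in `A₁ ∩ A₂`, `s (p + 2k + 2) = s (p + 2k) + 1`.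
First, `¬ Tp (p + 2k + 1)`: otherwise `tp_succ` twice gives `s (p + 2k + 2) = s (p + 2k)`.
So `Tp i ↔ i ≡ p mod 2`, `Tp (i+1) ↔ ¬ Tp i`.  Apply `parity_false`: the ears needed: for
`v i ≠ v j` both in `R₁ ∩ R₂`: `cross_ear` gives an ear of length `≥ f₁ + f₂ ≥ 4`, so `|I| ≥ 3 ≥ 2`.
`via`: `J = I₁ ++ [v k] ++ I₂` with `I₁` an ear through `D₁` from `v i` to `v k`, `I₂` an ear through
`D₂` from `v k` to `v j`; `|J| ≥ 3`.
-/

set_option autoImplicit false
set_option linter.unusedSectionVars false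

namespace Pool.Agent.BND

open Classical

variable {V : Type} [Fintype V]
variable {G : SimpleGraph V} {ε : V → V → ZMod 2} {τ : ZMod 2} {d c : ℕ} {v : ℤ → V}
  {s : ℤ → ZMod 2} {D₁ D₂ R₁ R₂ : Finset V} {b₁ b₂ : V} {f₁ f₂ : ℕ}

theorem cu4_chain {x y w : V} {I₁ I₂ : List V} (h1 : (x :: (I₁ ++ [w])).IsChain G.Adj)
    (h2 : (w :: (I₂ ++ [y])).IsChain G.Adj) :
    (x :: ((I₁ ++ w :: I₂) ++ [y])).IsChain G.Adj := by
  have e : x :: ((I₁ ++ w :: I₂) ++ [y]) = (x :: I₁) ++ w :: (I₂ ++ [y]) := by simp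
  rw [e]
  have e1 : x :: (I₁ ++ [w]) = (x :: I₁) ++ [w] := by simp
  rw [e1] at h1
  rw [List.isChain_split]
  exact ⟨h1, h2⟩

theorem cu4_via {B D₁ D₂ : Finset V} {x y w : V} {I₁ I₂ : List V} (hB1 : D₁ ⊆ B) (hB2 : D₂ ⊆ B)
    (hd : Disjoint D₁ D₂) (hw : w ∉ B) (h1 : Ear G D₁ x w I₁) (h2 : Ear G D₂ w y I₂) :
    Via G B w x y (I₁ ++ w :: I₂) ∧ 3 ≤ (I₁ ++ w :: I₂).length := by
  have hn1 : 1 ≤ I₁.length := by
    rcases Nat.eq_zero_or_pos I₁.length with h0 | h0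
    · exact absurd (List.length_eq_zero_iff.mp h0) h1.ne
    · exact h0
  have hn2 : 1 ≤ I₂.length := by
    rcases Nat.eq_zero_or_pos I₂.length with h0 | h0
    · exact absurd (List.length_eq_zero_iff.mp h0) h2.ne
    · exact h0
  refine ⟨⟨?_, ?_, cu4_chain h1.chain h2.chain, ?_, ?_, ?_⟩, ?_⟩
  · simp
  · rw [List.nodup_append]
    refine ⟨h1.nodup, ?_, ?_⟩
    · rw [List.nodup_cons]
      exact ⟨fun h => hw (hB2 (h2.sub w h)), h2.nodup⟩
    · intro a ha b hb hab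
      subst hab
      rcases List.mem_cons.mp hb with hb | hb
      · subst hb
        exact hw (hB1 (h1.sub a ha))
      · exact (Finset.disjoint_left.mp hd) (h1.sub a ha) (h2.sub a hb)
  · intro z hz
    rcases List.mem_append.mp hz with hz | hz
    · exact Or.inl (hB1 (h1.sub z hz))
    · rcases List.mem_cons.mp hz with hz | hz
      · exact Or.inr hz
      · exact Or.inl (hB2 (h2.sub z hz))
  · intro z hz
    cases I₁ with
    | nil => exact absurd rfl h1.ne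
    | cons a t =>
      simp only [List.cons_append, List.head?_cons, Option.some.injEq] at hz
      subst hz
      exact hB1 (h1.sub a (by simp))
  · intro z hz
    have hz2 : I₂.getLast? = some z := by
      rw [List.getLast?_append] at hz
      cases I₂ with
      | nil => exact absurd rfl h2.ne
      | cons a t =>
        rw [List.getLast?_cons_cons] at hz
        cases hl : (a :: t).getLast? with
        | none => simp at hl
        | some q => rw [hl] at hz; simpa using hz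
    exact hB2 (h2.sub z (List.mem_of_getLast? hz2))
  · simp only [List.length_append, List.length_cons]
    omega

theorem cut_a2 (h : CutH G ε τ d c v s D₁ D₂ R₁ R₂ b₁ b₂ f₁ f₂) (hc : c + 2 = 2 * d)
    (hd : 4 ≤ d) {p : ℤ} (hp : ∀ k : ℤ, v (p + 2 * k) ∈ R₁ ∧ v (p + 2 * k) ∈ R₂ ∧
      s (p + 2 * k + 2) = s (p + 2 * k) + 1) : False := by
  -- positions of the right parity
  have hev : ∀ k : ℤ, Tp G v c (p + 2 * k) := by
    intro k
    obtain ⟨_, x, hx, hax⟩ := mem_TT.mp (h.p1.sub (hp k).1)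
    exact ⟨x, h.e1.sub hx, hax⟩
  have hodd : ∀ k : ℤ, ¬ Tp G v c (p + 2 * k + 1) := by
    intro k hk
    have e1 := h.ctx.tp_succ (hev k) hk
    have hk2 : Tp G v c (p + 2 * k + 1 + 1) := by
      have := hev (k + 1)
      have e : p + 2 * (k + 1) = p + 2 * k + 1 + 1 := by ring
      rwa [e] at this
    have e2 := h.ctx.tp_succ hk hk2
    have e3 := (hp k).2.2
    have e4 : p + 2 * k + 1 + 1 = p + 2 * k + 2 := by ring
    rw [e4, e3, e1] at e2
    have h01 : (1 : ZMod 2) = 0 := by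
      have h2 : s (p + 2 * k) + 1 = s (p + 2 * k) + (1 + 1) := by rw [← add_assoc]; exact e2
      have h3 := add_left_cancel h2
      have h4 : (1 : ZMod 2) + 1 = 0 := by decide
      rw [h4] at h3
      exact h3
    exact absurd h01 (by decide)
  have hcase : ∀ i : ℤ, (∃ k, i = p + 2 * k) ∨ (∃ k, i = p + 2 * k + 1) := by
    intro i
    rcases Int.even_or_odd' (i - p) with ⟨k, hk | hk⟩
    · exact Or.inl ⟨k, by linarith⟩
    · exact Or.inr ⟨k, by linarith⟩
  have htp : ∀ i : ℤ, Tp G v c i → ∃ k, i = p + 2 * k := by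
    intro i hi
    rcases hcase i with hk | ⟨k, hk⟩
    · exact hk
    · subst hk
      exact absurd hi (hodd k)
  have hR : ∀ i : ℤ, Tp G v c i → v i ∈ R₁ ∧ v i ∈ R₂ := by
    intro i hi
    obtain ⟨k, rfl⟩ := htp i hi
    exact ⟨(hp k).1, (hp k).2.1⟩
  refine parity_false h.ctx hc hd ?_ ?_ ?_ ?_
  · intro i
    rcases hcase i with ⟨k, rfl⟩ | ⟨k, rfl⟩
    · exact ⟨fun hh => absurd hh (hodd k), fun hh => absurd (hev k) hh⟩
    · have e : p + 2 * k + 1 + 1 = p + 2 * (k + 1) := by ring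
      rw [e]
      exact ⟨fun _ => hodd k, fun _ => hev (k + 1)⟩
  · intro i hi
    obtain ⟨k, rfl⟩ := htp i hi
    exact (hp k).2.2
  · intro i j hi hj _
    obtain ⟨I, hI, hl⟩ := cross_ear (middle_conn h.ctx.conn h.e1 h.e2 h.dis h.b12 h.b21) h.e1 h.e2
      h.dis h.b12 h.b21 h.p1 h.p2 (hR i hi).1 (hR j hj).2
    have := h.p1.f2
    have := h.p2.f2
    exact ⟨I, hI, by omega⟩
  · intro i j k hi hj hk _ _ _
    obtain ⟨I₁, hI₁⟩ := exists_ear h.e1.conn (h.p1.sub (hR i hi).1) (h.p1.sub (hR k hk).1)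
    obtain ⟨I₂, hI₂⟩ := exists_ear h.e2.conn (h.p2.sub (hR k hk).2) (h.p2.sub (hR j hj).2)
    have hkB : v k ∉ Bs v c := by
      have h1 := (mem_TT.mp (h.p1.sub (hR k hk).1)).1
      simp only [Bs, Finset.mem_compl, not_not]
      exact h1
    exact ⟨_, cu4_via h.e1.sub h.e2.sub h.dis hkB hI₁ hI₂⟩

end Pool.Agent.BND
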