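import Pool.Agent.BND.SUn
import Pool.Agent.BND.GR2

/-!
# BND-NC : the normalised context: the outside `Bs v c` is the only component of `G - K`
-/

set_option autoImplicit false
set_option linter.unusedSectionVars false

namespace Pool.Agent.BND

open Classical

variable {V : Type} [Fintype V]
variable {G : SimpleGraph V} {ε : V → V → ZMod 2} {τ : ZMod 2} {d c : ℕ} {v : ℤ → V}
  {s : ℤ → ZMod 2}

theorem zmod2_cases (x : ZMod 2) : x = 0 ∨ x = 1 := by
  revert x; decide

/-- `Bs v c` satisfies `CC` -/
theorem NCtx.cc (h : NCtx G ε τ d c v s) : CC G (Cs v c) (Bs v c) d where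
  k3 := h.k3
  hd := h.hd
  deg := h.deg
  three := by
    rw [card_Cs h.toCtx]
    exact h.three
  disj := by
    unfold Bs
    exact disjoint_compl_left
  conn := h.conn
  closed := by
    intro x _ y _
    by_cases hy : y ∈ Cs v c
    · exact Or.inr hy
    · left
      unfold Bs
      exact Finset.mem_compl.2 hy

theorem NCtx.tp_iff (h : NCtx G ε τ d c v s) (i : ℤ) :
    Tp G v c i ↔ v i ∈ TT G (Cs v c) (Bs v c) := by
  unfold Tp TT att
  rw [Finset.mem_filter]
  constructor
  · rintro ⟨x, hx, hadj⟩
    exact ⟨v_mem_Cs h.toCtx i, x, Finset.mem_filter.2 ⟨hx, hadj⟩⟩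
  · rintro ⟨_, x, hx⟩
    rw [Finset.mem_filter] at hx
    exact ⟨x, hx.1, hx.2⟩

/-- counting positions of vertices with neighbours outside, in any period -/
theorem NCtx.tp_card (h : NCtx G ε τ d c v s) (i : ℤ) :
    ((Finset.range c).filter (fun k : ℕ => Tp G v c (i + k))).card
      = (TT G (Cs v c) (Bs v c)).card := by
  rw [← card_pos h.toCtx (TT G (Cs v c) (Bs v c)) (Finset.filter_subset _ _) i]
  congr 1
  apply Finset.filter_congr
  intro k _
  exact h.tp_iff (i + k)

/-- if `v i`, `v j` both have neighbours outside there is an ear between them -/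
theorem NCtx.tp_ear (h : NCtx G ε τ d c v s) {i j : ℤ} (hi : Tp G v c i) (hj : Tp G v c j) :
    ∃ I, Ear G (Bs v c) (v i) (v j) I :=
  exists_ear h.conn ((h.tp_iff i).1 hi) ((h.tp_iff j).1 hj)

/-- the neighbours of a vertex of the cycle without neighbours outside, counted by positions in the
period `(i, i + c]` -/
theorem NCtx.deg_pos (h : NCtx G ε τ d c v s) {z : ℤ} (hz : ¬ Tp G v c z) (i : ℤ) :
    d ≤ ((Finset.Ioc i (i + c)).filter (fun t => G.Adj (v z) (v t))).card := by
  have hR : nb G (v z) ⊆ Cs v c := by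
    intro x hx
    unfold nb at hx
    rw [Finset.mem_filter] at hx
    by_contra hc
    exact hz ⟨x, Finset.mem_compl.2 hc, hx.2⟩
  have h1 := card_pos h.toCtx (nb G (v z)) hR (i + 1)
  have h2 := h.deg (v z)
  rw [← h1] at h2
  refine h2.trans ?_
  apply Finset.card_le_card_of_injOn (fun k : ℕ => i + 1 + (k : ℤ))
  · intro k hk
    rw [Finset.mem_coe, Finset.mem_filter, Finset.mem_range] at hk
    rw [Finset.mem_coe, Finset.mem_filter, Finset.mem_Ioc]
    have hk1 := hk.1
    refine ⟨⟨?_, ?_⟩, ?_⟩
    · show i < i + 1 + (k : ℤ)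
      omega
    · show i + 1 + (k : ℤ) ≤ i + c
      omega
    have h3 := hk.2
    unfold nb at h3
    rw [Finset.mem_filter] at h3
    exact h3.2
  · intro a _ b _ hab
    simp only at hab
    omega

end Pool.Agent.BND
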