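import Pool.Agent.BND.CU1
import Pool.Agent.BND.CU2
import Pool.Agent.BND.CU3
import Pool.Agent.BND.CU4
import Pool.Agent.BND.CE1
import Pool.Agent.BND.CE0
import Pool.Agent.BND.PD1
import Pool.Agent.BND.ST
import Pool.Agent.BND.NC

/-!
# BND-CUT : the outside has a cut vertex

`CutH`: normalised context, two end pieces `(D₁, b₁)`, `(D₂, b₂)` of `B = Bs v c` with data
`(R₁, f₁)`, `(R₂, f₂)`, disjoint etc.  `Aₐ i := v i ∈ Rₐ`.

`cut_ceh`: `CEH c d f₁ f₂ |R₁| |R₂| τ s A₁ A₂`.  The cardinalities: `card_pos`.  (c11): an ear between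
`v i ≠ v j ∈ R₁` of length `≥ f₁` and `arc_ear`; `insert b₁ D₁ ⊆ B`.  (c12), (c21): `cross_ear`
(`Ear.reverse`).  typ: `PD.typ`.

`cut_star`: `τ = 0`, `f₁ = f₂ = d - 1`, `p < q < p + c`, `v p, v q ∈ R₁ ∩ R₂` of different classes:
contradiction.  `|TT| ≥ 3` (`three_le_TT`): there is a third vertex `w = v r` with a neighbour
`z ∈ B`.  Its class equals the class of `v p` or of `v q`, say of `u ∈ {v p, v q}`.
Claim: there is an ear from `w` to `u` of length at least `d`, i.e. `d ≤ |I| + 1`.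
If `z ∉ D₁`: let `P` be a path from `z` to `b₁` in `B \ D₁` (connected, `comp_conn_sdiff`), and `Q` the
list of `PD.out` for `u ∈ R₁`: `Q ⊆ D₁`, path `u, Q, b₁`, `f₁ ≤ |Q| + 1`. The ear is
`P ++ Q.reverse`, `|P| + |Q| + 1 ≥ 1 + f₁ = d`.  If `z ∈ D₁` then `z ∉ D₂` and use `D₂` in the same
way.
Since `τ = 0`, both arcs between `w` and `u` are positive, so both have length `≥ d` by `arc_ear`,
and `c ≥ 2 d`.  Contradiction.

`cut_b`: positions `p, p+1, p+2, p+3`, `v p, v (p+2) ∈ R₁`, `v (p+1), v (p+3) ∈ R₂`, `4 ≤ c`,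
`s (p+1) = s p + 1`, `s (p+3) = s (p+2) + 1`.  `I` an ear through `D₁` from `v p` to `v (p+2)`
(`exists_ear`, `D₁` is connected), `J` an ear through `D₂` from `v (p+1)` to `v (p+3)`.
`NCtx.cross` with `i = p < p+1 ≤ p+2 < p+3 ≤ p + c`: `(s (p+1) - s p) + (s (p+3) - s (p+2)) = 1`
(lengths `2 < |I| + |J| + 2`), but it is `1 + 1 = 0`.

`cut_a1`: `8 ≤ c`, `v p, v (p+1), v (p+4), v (p+5) ∈ R₁ ∩ R₂`: `NCtx.par` with
`p < p+1 ≤ p+4 < p+5`, `I` through `D₁` from `v p` to `v (p+1)`, `J` through `D₂` from `v (p+4)` to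
`v (p+5)`: `1 = 1 + 1`.

`cut_a2`: `c + 2 = 2 d`, `4 ≤ d`, all `p + 2k` in `A₁ ∩ A₂`, `s (p + 2k + 2) = s (p + 2k) + 1`.
First, `¬ Tp (p + 2k + 1)`: otherwise `tp_succ` twice gives `s (p + 2k + 2) = s (p + 2k)`.
So `Tp i ↔ i ≡ p mod 2`, `Tp (i+1) ↔ ¬ Tp i`.  Apply `parity_false`: the ears needed: for
`v i ≠ v j` both in `R₁ ∩ R₂`: `cross_ear` gives an ear of length `≥ f₁ + f₂ ≥ 4`, so `|I| ≥ 3 ≥ 2`.
`via`: `J = I₁ ++ [v k] ++ I₂` with `I₁` an ear through `D₁` from `v i` to `v k`, `I₂` an ear through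
`D₂` from `v k` to `v j`; `|J| ≥ 3`.
-/

set_option autoImplicit false
set_option linter.unusedSectionVars false

namespace Pool.Agent.BND

open Classical

variable {V : Type} [Fintype V]
variable {G : SimpleGraph V} {ε : V → V → ZMod 2} {τ : ZMod 2} {d c : ℕ} {v : ℤ → V}
  {s : ℤ → ZMod 2} {D₁ D₂ R₁ R₂ : Finset V} {b₁ b₂ : V} {f₁ f₂ : ℕ}

/-- assembly -/
theorem case_cut (h : NCtx G ε τ d c v s) (hB : ¬ Bic G (Bs v c)) : False := by
  have hcc : CC G (Cs v c) (Bs v c) d := h.cc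
  obtain ⟨D₁, b₁, D₂, b₂, he1, he2, hd, h12, h21⟩ :=
    two_end_pieces h.conn (two_le_card_Bs h.toCtx) hB
  obtain ⟨R₁, f₁, hp1⟩ := exists_PD hcc he1
  obtain ⟨R₂, f₂, hp2⟩ := exists_PD hcc he2
  have H : CutH G ε τ d c v s D₁ D₂ R₁ R₂ b₁ b₂ f₁ f₂ := ⟨h, he1, he2, hd, h12, h21, hp1, hp2⟩
  have hC := cut_ceh H
  have key : CEC c d f₁ f₂ τ s (fun i => v i ∈ R₁) (fun i => v i ∈ R₂) := by
    rcases zmod2_cases τ with rfl | rfl
    · exact ce_zero hC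
    · exact ce_one hC
  rcases key with ⟨hτ, hf1, hf2, p, q, hpq, hq, h1, h2, h3, h4, hs⟩ |
    ⟨hc, p, h1, h2, h3, h4, s1, s2, s3⟩ | ⟨hc, p, h1, h2, h3, h4, h5, h6, h7, h8, s1, s5⟩ |
    ⟨hc, h4, p, hp⟩
  · exact cut_star H hτ hf1 hf2 hpq hq h1 h2 h3 h4 hs
  · exact cut_b H hc h1 h2 h3 h4 s1 s2 s3
  · exact cut_a1 H hc h1 h3 h6 h8 s1 s5
  · exact cut_a2 H hc h4 hp

end Pool.Agent.BND
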