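import Pool.Agent.BND.P4c

/-!
# BND-SU : surgeries on the longest cycle

In all statements the conclusion is obtained by writing down a cycle (as a concatenation of blocks
`fw`/`bw` of the cycle and of ears), checking that it is a cycle (`CycL`) with more than `c`
vertices, computing its sign with `Ctx.fw_sg`, `Ctx.bw_sg`, and using `h.max`: a cycle with more than
`c` vertices does not have sign `τ`, hence has sign `τ + 1` (in `ZMod 2`).
Membership in blocks is read on positions (`mem_fw`, `mem_bw`, `Ctx.veq`), and the ears live in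
`Bs v c`, which is disjoint from the cycle.
-/

set_option autoImplicit false
set_option linter.unusedSectionVars false

namespace Pool.Agent.BND

open Classical

variable {V : Type} [Fintype V]
variable {G : SimpleGraph V} {ε : V → V → ZMod 2} {τ : ZMod 2} {d c : ℕ} {v : ℤ → V}
  {s : ℤ → ZMod 2}

theorem su5_append (ε : V → V → ZMod 2) {l l' : List V} {y z : V} (hl : l.getLast? = some y)
    (hl' : l'.head? = some z) : sg ε (l ++ l') = sg ε l + ε y z + sg ε l' := by
  obtain ⟨l1, rfl⟩ := List.getLast?_eq_some_iff.1 hl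
  obtain ⟨l2, rfl⟩ := List.head?_eq_some_iff.1 hl'
  exact sg_split_edge l1 y z l2

theorem su5_mem_fw {v : ℤ → V} {i k : ℤ} (hik : i ≤ k) {x : V} :
    x ∈ fw v i ((k - i).toNat + 1) ↔ ∃ t : ℤ, i ≤ t ∧ t ≤ k ∧ v t = x := by
  rw [mem_fw]
  constructor
  · rintro ⟨t, h1, h2, h3⟩
    exact ⟨t, h1, by push_cast at h2; omega, h3⟩
  · rintro ⟨t, h1, h2, h3⟩
    exact ⟨t, h1, by push_cast; omega, h3⟩

theorem su5_mem_bw {v : ℤ → V} {i k : ℤ} (hik : k ≤ i) {x : V} :
    x ∈ bw v i ((i - k).toNat + 1) ↔ ∃ t : ℤ, k ≤ t ∧ t ≤ i ∧ v t = x := by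
  rw [mem_bw]
  constructor
  · rintro ⟨t, h1, h2, h3⟩
    exact ⟨t, by push_cast at h2; omega, h1, h3⟩
  · rintro ⟨t, h1, h2, h3⟩
    exact ⟨t, h2, by push_cast; omega, h3⟩

/-- an ear as a path, with its sign -/
theorem su5_ear (ε : V → V → ZMod 2) {D : Finset V} {x y : V} {I : List V} (hI : Ear G D x y I) :
    ∃ a b, Pth G D a b I ∧ G.Adj x a ∧ G.Adj b y ∧
      sg ε (x :: (I ++ [y])) = ε x a + sg ε I + ε b y := by
  obtain ⟨a, b, hQ, hxa, hby⟩ := hI.pth
  refine ⟨a, b, hQ, hxa, hby, ?_⟩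
  have e1 : x :: (I ++ [y]) = [x] ++ (I ++ [y]) := rfl
  have e2 : (I ++ [y]).head? = some a := by
    rw [List.head?_append, hQ.head]
    rfl
  rw [e1, su5_append ε (y := x) rfl e2, su5_append ε hQ.last (z := y) rfl]
  simp only [sg_single]
  ring

/-- the general form: three blocks of the cycle covering it, and the ear -/
theorem su5_gen (h : Ctx G ε τ d c v s) {i k : ℤ} {x y z w : V} {P1 P2 P3 : List V}
    (h1 : Pth G (Cs v c) x (v k) P1) (h2 : Pth G (Cs v c) (v i) y P2)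
    (h3 : Pth G (Cs v c) z w P3) (ha : G.Adj y z) (hb : G.Adj w x)
    (d12 : ∀ q ∈ P1, q ∉ P2) (d13 : ∀ q ∈ P1, q ∉ P3) (d23 : ∀ q ∈ P2, q ∉ P3)
    (hlen : c ≤ P1.length + P2.length + P3.length) :
    ∃ κ : ZMod 2, ∀ I, Ear G (Bs v c) (v i) (v k) I → sg ε (v i :: (I ++ [v k])) = κ := by
  refine ⟨τ + 1 - (sg ε P1 + sg ε P2 + ε y z + sg ε P3 + ε w x), fun I hI => ?_⟩
  have hI2 := hI.reverse
  have hl := hI.length_pos
  obtain ⟨a, b, hI', hka, hbi, hsI⟩ := su5_ear ε hI2
  have hU : ∀ {x y : V} {l : List V} {S : Finset V}, Pth G S x y l → Pth G Finset.univ x y l :=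
    fun h => h.mono (fun _ _ => Finset.mem_univ _)
  have hdis : ∀ {P : List V} {a b : V}, Pth G (Cs v c) a b P → ∀ q ∈ P, q ∉ I.reverse := by
    intro P a b hP q hq hqI
    exact (Finset.mem_compl.1 (hI'.sub q hqI)) (hP.sub q hq)
  have hPI := pth_append (hU h1) (hU hI') hka (hdis h1)
  have hPP := pth_append h2 h3 ha d23
  obtain ⟨g1, g2⟩ := cyc_of_two (ε := ε) hPI hPP hbi hb (by
    intro q hq hq'
    rcases List.mem_append.1 hq with hq | hq <;> rcases List.mem_append.1 hq' with hq' | hq'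
    · exact d12 q hq hq'
    · exact d13 q hq hq'
    · exact hdis h2 q hq' hq
    · exact hdis h3 q hq' hq) (by
    have := h.three
    rw [List.length_append, List.length_append]
    omega)
  have g3 : csg ε ((P1 ++ I.reverse) ++ (P2 ++ P3)) = τ + 1 := by
    by_contra hne
    have key : ∀ p q : ZMod 2, p ≠ q + 1 → p = q := by decide
    have h4 := key _ _ hne
    have h5 := h.max _ g1 h4
    rw [List.length_append, List.length_append, List.length_append, List.length_reverse] at h5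
    omega
  rw [g2, su5_append ε h1.last hI'.head, su5_append ε h2.last h3.head] at g3
  have r1 : sg ε (v i :: (I ++ [v k])) = sg ε (v k :: (I.reverse ++ [v i])) := by
    rw [← sg_reverse h.symm]
    congr 1
    simp
  rw [r1, hsI]
  linear_combination g3

/-- (SU5a) crossing chords at the successors of the ends `v i`, `v k` of an ear, the slot
`(j, j+1)` being in the first arc.
Cycle: `v (j+1), …, v k, I.reverse, v (i+c), v (i+c-1), …, v (k+1), v j, v (j-1), …, v (i+1)`. -/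
theorem su5a (h : Ctx G ε τ d c v s) {i j k : ℤ} (hij : i + 1 ≤ j) (hjk : j < k)
    (hk : k + 1 < i + c) (h1 : G.Adj (v (i + 1)) (v (j + 1))) (h2 : G.Adj (v (k + 1)) (v j)) :
    ∃ κ : ZMod 2, ∀ I, Ear G (Bs v c) (v i) (v k) I → sg ε (v i :: (I ++ [v k])) = κ := by
  have h3 := h.fw_pth (by omega : j + 1 ≤ k) (by omega : k < j + 1 + c)
  have h4 := h.bw_pth (by omega : k + 1 ≤ i + c) (by omega : i + c < k + 1 + c)
  have h5 := h.bw_pth hij (by omega : j < i + 1 + c)
  have h4' : Pth G (Cs v c) (v i) (v (k + 1)) (bw v (i + c) ((i + c - (k + 1)).toNat + 1)) := by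
    have e := h.vper1 i
    rw [e] at h4
    exact h4
  refine su5_gen h h3 h4' h5 h2 h1 ?_ ?_ ?_ ?_
  · intro q hq hq'
    obtain ⟨t, ht1, ht2, ht3⟩ := (su5_mem_fw (by omega : j + 1 ≤ k)).1 hq
    obtain ⟨u, hu1, hu2, hu3⟩ := (su5_mem_bw (by omega : k + 1 ≤ i + c)).1 hq'
    exact h.vne (by omega : t < u) (by omega : u < t + c) (ht3.trans hu3.symm)
  · intro q hq hq'
    obtain ⟨t, ht1, ht2, ht3⟩ := (su5_mem_fw (by omega : j + 1 ≤ k)).1 hq
    obtain ⟨u, hu1, hu2, hu3⟩ := (su5_mem_bw hij).1 hq'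
    exact h.vne (by omega : u < t) (by omega : t < u + c) (hu3.trans ht3.symm)
  · intro q hq hq'
    obtain ⟨t, ht1, ht2, ht3⟩ := (su5_mem_bw (by omega : k + 1 ≤ i + c)).1 hq
    obtain ⟨u, hu1, hu2, hu3⟩ := (su5_mem_bw hij).1 hq'
    exact h.vne (by omega : u < t) (by omega : t < u + c) (hu3.trans ht3.symm)
  · rw [fw_length, bw_length, bw_length]
    omega

/-- (SU5b) the same with the slot `(j, j+1)` in the second arc.
Cycle: `v (i+1), …, v k, I.reverse, v (i+c), v (i+c-1), …, v (j+1), v (k+1), …, v j`. -/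
theorem su5b (h : Ctx G ε τ d c v s) {i j k : ℤ} (hik : i + 1 < k) (hkj : k + 1 ≤ j)
    (hj : j < i + c) (h1 : G.Adj (v (i + 1)) (v j)) (h2 : G.Adj (v (k + 1)) (v (j + 1))) :
    ∃ κ : ZMod 2, ∀ I, Ear G (Bs v c) (v i) (v k) I → sg ε (v i :: (I ++ [v k])) = κ := by
  have h3 := h.fw_pth (by omega : i + 1 ≤ k) (by omega : k < i + 1 + c)
  have h4 := h.bw_pth (by omega : j + 1 ≤ i + c) (by omega : i + c < j + 1 + c)
  have h5 := h.fw_pth hkj (by omega : j < k + 1 + c)
  have h4' : Pth G (Cs v c) (v i) (v (j + 1)) (bw v (i + c) ((i + c - (j + 1)).toNat + 1)) := by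
    have e := h.vper1 i
    rw [e] at h4
    exact h4
  refine su5_gen h h3 h4' h5 h2.symm h1.symm ?_ ?_ ?_ ?_
  · intro q hq hq'
    obtain ⟨t, ht1, ht2, ht3⟩ := (su5_mem_fw (by omega : i + 1 ≤ k)).1 hq
    obtain ⟨u, hu1, hu2, hu3⟩ := (su5_mem_bw (by omega : j + 1 ≤ i + c)).1 hq'
    exact h.vne (by omega : t < u) (by omega : u < t + c) (ht3.trans hu3.symm)
  · intro q hq hq'
    obtain ⟨t, ht1, ht2, ht3⟩ := (su5_mem_fw (by omega : i + 1 ≤ k)).1 hq
    obtain ⟨u, hu1, hu2, hu3⟩ := (su5_mem_fw hkj).1 hq'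
    exact h.vne (by omega : t < u) (by omega : u < t + c) (ht3.trans hu3.symm)
  · intro q hq hq'
    obtain ⟨t, ht1, ht2, ht3⟩ := (su5_mem_bw (by omega : j + 1 ≤ i + c)).1 hq
    obtain ⟨u, hu1, hu2, hu3⟩ := (su5_mem_fw hkj).1 hq'
    exact h.vne (by omega : u < t) (by omega : t < u + c) (hu3.trans ht3.symm)
  · rw [fw_length, bw_length, fw_length]
    omega

end Pool.Agent.BND
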