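import Pool.Agent.BND.SU1
import Pool.Agent.BND.SU5

/-!
# BND-D1 : ears at two vertices whose successors have no neighbour outside

`not_bsg_succ`: for `v i`, `v (i+1)` all ears have the same sign, by `su1` (`|I| + 1 ≥ 2 > 1`).

`d1`: Let `v i ≠ v k` and suppose that `v (i+1)` and `v (k+1)` have no neighbour outside the cycle.
Then all ears through `Bs v c` from `v i` to `v k` have the same sign.
Proof.  We may assume `i < k < i + c` (periodicity).  If `Tp (k)` fails or so there is nothing to do
(no ears), so assume there is an ear; then `v i`, `v k` have neighbours outside, so `k ≠ i + 1` and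
`i + c ≠ k + 1`; so `i + 1 < k` and `k + 1 < i + c`.
All neighbours of `v (i+1)` and of `v (k+1)` are on the cycle.
For `j` with `i + 1 ≤ j < k` say that the slot `j` is good if `v (i+1) ~ v (j+1)` and
`v (k+1) ~ v j`; for `k + 1 ≤ j < i + c` say that the slot `j` is good if `v (i+1) ~ v j` and
`v (k+1) ~ v (j+1)`.  If some slot is good then `su5a` / `su5b` finish the proof.
Counting: the number of slots is `(k - i - 1) + (i + c - k - 1) = c - 2`.  Let `N₁` be the set of
neighbours `v t` (`i + 1 < t ≤ i + c`) of `v (i+1)` with `t ≠ i + c`; it has at least `d - 1` elements;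
map `t ↦ t - 1` if `t ≤ k`, `t ↦ t` if `t > k`: an injection of `N₁` into the slots such that the
corresponding first half of goodness holds.  Let `N₂` be the set of neighbours `v t`
(`i + 1 ≤ t ≤ i + c`, `t ≠ k + 1`) of `v (k+1)` with `t ≠ k`; at least `d - 1` elements; map `t ↦ t` if
`t < k`, `t ↦ t - 1` if `t > k + 1`: an injection into the slots with the second half of goodness.
Since `2 (d - 1) > c - 2`, some slot is in both images.
-/

set_option autoImplicit false
set_option linter.unusedSectionVars false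

namespace Pool.Agent.BND

open Classical

variable {V : Type} [Fintype V]
variable {G : SimpleGraph V} {ε : V → V → ZMod 2} {τ : ZMod 2} {d c : ℕ} {v : ℤ → V}
  {s : ℤ → ZMod 2}

theorem d1_ear_adj {x y : V} {I : List V} (hI : Ear G (Bs v c) x y I) :
    (∃ z ∈ Bs v c, G.Adj x z) ∧ ∃ z ∈ Bs v c, G.Adj y z := by
  obtain ⟨a, b, hP, h1, h2⟩ := hI.pth
  exact ⟨⟨a, hP.left_mem, h1⟩, ⟨b, hP.right_mem, h2.symm⟩⟩

theorem not_bsg_succ (h : Ctx G ε τ d c v s) (i : ℤ) : ¬ BSg G ε (Bs v c) (v i) (v (i + 1)) := by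
  rintro ⟨I, I', hI, hI', hne⟩
  have h3 := h.three
  apply hne
  have l1 := hI.length_pos
  have l2 := hI'.length_pos
  rw [su1 h (by omega) (by omega) hI (by omega), su1 h (by omega) (by omega) hI' (by omega)]

/-- the case `i < k < i + c` -/
theorem d1_main (h : Ctx G ε τ d c v s) {i k : ℤ} (hik : i < k) (hk : k < i + c)
    (h1 : ¬ Tp G v c (i + 1)) (h2 : ¬ Tp G v c (k + 1)) : ¬ BSg G ε (Bs v c) (v i) (v k) := by
  rintro ⟨I, I', hI, hI', hne⟩
  obtain ⟨t1, t2⟩ := d1_ear_adj hI
  have t1' : Tp G v c (i + c) := (Tp.per h).2 t1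
  have t2' : Tp G v c k := t2
  have hk1 : i + 1 < k := by
    rcases lt_or_eq_of_le (by omega : i + 1 ≤ k) with h3 | h3
    · exact h3
    · exact absurd (h3 ▸ t2') h1
  have hk2 : k + 1 < i + c := by
    rcases lt_or_eq_of_le (by omega : k + 1 ≤ i + c) with h3 | h3
    · exact h3
    · exact absurd (h3.symm ▸ t1' : Tp G v c (k + 1)) h2
  set SL : Finset ℤ := Finset.Ico (i + 1) k ∪ Finset.Ico (k + 1) (i + c) with hSL
  have hSLc : SL.card + 2 = c := by
    rw [hSL, Finset.card_union_of_disjoint, Int.card_Ico, Int.card_Ico]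
    · omega
    · rw [Finset.disjoint_left]
      intro x hx hx'
      rw [Finset.mem_Ico] at hx hx'
      omega
  have mSL : ∀ j, j ∈ SL ↔ (i + 1 ≤ j ∧ j < k) ∨ (k + 1 ≤ j ∧ j < i + c) := by
    intro j
    rw [hSL, Finset.mem_union, Finset.mem_Ico, Finset.mem_Ico]
  set A1 : Finset ℤ := SL.filter (fun j => G.Adj (v (i + 1)) (if j < k then v (j + 1) else v j))
    with hA1
  set A2 : Finset ℤ := SL.filter (fun j => G.Adj (v (k + 1)) (if j < k then v j else v (j + 1)))
    with hA2
  have hC : ∀ p : ℤ, ¬ Tp G v c p → ∀ x, G.Adj (v p) x → x ∈ Cs v c := by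
    intro p hp x hx
    by_contra hx'
    exact hp ⟨x, Finset.mem_compl.2 hx', hx⟩
  have c1 : d ≤ A1.card + 1 := by
    have hsub : nb G (v (i + 1)) ⊆ insert (v i) (A1.image (fun j => if j < k then v (j + 1) else v j)) := by
      intro x hx
      have hadj : G.Adj (v (i + 1)) x := (Finset.mem_filter.1 hx).2
      obtain ⟨t, ht1, ht2, rfl⟩ := exists_pos h (hC _ h1 x hadj) (i + 1)
      rw [Finset.mem_insert, Finset.mem_image]
      have ht3 : t ≠ i + 1 := by
        rintro rfl
        exact G.loopless.irrefl _ hadj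
      rcases eq_or_ne t (i + c) with h5 | h5
      · left
        rw [h5, h.vper1]
      · right
        by_cases htk : t ≤ k
        · refine ⟨t - 1, ?_, ?_⟩
          · rw [hA1, Finset.mem_filter, mSL, if_pos (by omega), sub_add_cancel]
            exact ⟨Or.inl (by omega), hadj⟩
          · rw [if_pos (by omega), sub_add_cancel]
        · refine ⟨t, ?_, ?_⟩
          · rw [hA1, Finset.mem_filter, mSL, if_neg (by omega)]
            exact ⟨Or.inr (by omega), hadj⟩
          · rw [if_neg (by omega)]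
    calc d ≤ (nb G (v (i + 1))).card := h.deg _
      _ ≤ _ := Finset.card_le_card hsub
      _ ≤ (A1.image (fun j => if j < k then v (j + 1) else v j)).card + 1 := Finset.card_insert_le _ _
      _ ≤ A1.card + 1 := Nat.add_le_add_right Finset.card_image_le 1
  have c2 : d ≤ A2.card + 1 := by
    have hsub : nb G (v (k + 1)) ⊆ insert (v k) (A2.image (fun j => if j < k then v j else v (j + 1))) := by
      intro x hx
      have hadj : G.Adj (v (k + 1)) x := (Finset.mem_filter.1 hx).2
      obtain ⟨t, ht1, ht2, rfl⟩ := exists_pos h (hC _ h2 x hadj) (i + 1)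
      rw [Finset.mem_insert, Finset.mem_image]
      have ht3 : t ≠ k + 1 := by
        rintro rfl
        exact G.loopless.irrefl _ hadj
      rcases eq_or_ne t k with h5 | h5
      · left
        rw [h5]
      · right
        by_cases htk : t < k
        · refine ⟨t, ?_, ?_⟩
          · rw [hA2, Finset.mem_filter, mSL, if_pos htk]
            exact ⟨Or.inl (by omega), hadj⟩
          · rw [if_pos htk]
        · refine ⟨t - 1, ?_, ?_⟩
          · rw [hA2, Finset.mem_filter, mSL, if_neg (by omega), sub_add_cancel]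
            exact ⟨Or.inr (by omega), hadj⟩
          · rw [if_neg (by omega), sub_add_cancel]
    calc d ≤ (nb G (v (k + 1))).card := h.deg _
      _ ≤ _ := Finset.card_le_card hsub
      _ ≤ (A2.image (fun j => if j < k then v j else v (j + 1))).card + 1 := Finset.card_insert_le _ _
      _ ≤ A2.card + 1 := Nat.add_le_add_right Finset.card_image_le 1
  have hcd := h.hc
  have hint : (A1 ∩ A2).Nonempty := by
    rw [← Finset.card_pos]
    have h5 : (A1 ∪ A2).card ≤ SL.card :=
      Finset.card_le_card (Finset.union_subset (Finset.filter_subset _ _) (Finset.filter_subset _ _))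
    have h6 := Finset.card_union_add_card_inter A1 A2
    omega
  obtain ⟨j, hj⟩ := hint
  rw [Finset.mem_inter, hA1, hA2, Finset.mem_filter, Finset.mem_filter, mSL] at hj
  obtain ⟨⟨hj0, hj1⟩, -, hj2⟩ := hj
  rcases hj0 with ⟨h5, h6⟩ | ⟨h5, h6⟩
  · rw [if_pos h6] at hj1 hj2
    obtain ⟨κ, hκ⟩ := su5a h h5 h6 hk2 hj1 hj2
    exact hne ((hκ I hI).trans (hκ I' hI').symm)
  · rw [if_neg (by omega)] at hj1 hj2
    obtain ⟨κ, hκ⟩ := su5b h hk1 h5 h6 hj1 hj2
    exact hne ((hκ I hI).trans (hκ I' hI').symm)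

theorem d1 (h : Ctx G ε τ d c v s) {i k : ℤ} (hik : v i ≠ v k) (h1 : ¬ Tp G v c (i + 1))
    (h2 : ¬ Tp G v c (k + 1)) : ¬ BSg G ε (Bs v c) (v i) (v k) := by
  obtain ⟨j, hj1, hj2, hj3⟩ := exists_pos h (v_mem_Cs h k) i
  have hj4 : i ≠ j := by
    rintro rfl
    exact hik hj3
  have hj5 : v (j + 1) = v (k + 1) := by
    rw [h.inj, add_sub_add_right_eq_sub]
    exact (h.inj j k).1 hj3
  have h2' : ¬ Tp G v c (j + 1) := by
    rintro ⟨x, hx, hx'⟩
    rw [hj5] at hx'
    exact h2 ⟨x, hx, hx'⟩
  rw [← hj3]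
  exact d1_main h (by omega) hj2 h1 h2'

end Pool.Agent.BND
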