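import Pool.Agent.BND.P1b

/-!
# BND-P3 : signs of lists
-/

set_option autoImplicit false
set_option linter.unusedSectionVars false

namespace Pool.Agent.BND

open Classical

variable {V : Type} [Fintype V] {ε : V → V → ZMod 2}

@[simp] theorem sg_nil : sg ε [] = 0 := rfl

@[simp] theorem sg_single (x : V) : sg ε [x] = 0 := rfl

@[simp] theorem sg_cons_cons (x y : V) (t : List V) :
    sg ε (x :: y :: t) = ε x y + sg ε (y :: t) := rfl

/-- splitting at a vertex -/
theorem sg_split (l1 : List V) (x : V) (l2 : List V) :
    sg ε (l1 ++ x :: l2) = sg ε (l1 ++ [x]) + sg ε (x :: l2) := by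
  induction l1 with
  | nil => rw [List.nil_append, List.nil_append, sg_single, zero_add]
  | cons a t ih =>
    cases t with
    | nil =>
      rw [List.cons_append, List.nil_append, List.cons_append, List.nil_append, sg_cons_cons,
        sg_cons_cons, sg_single, add_zero]
    | cons b t =>
      rw [List.cons_append, List.cons_append] at ih ⊢
      rw [List.cons_append, List.cons_append, sg_cons_cons, sg_cons_cons, ih, add_assoc]

/-- splitting at an edge -/
theorem sg_split_edge (l1 : List V) (x y : V) (l2 : List V) :
    sg ε ((l1 ++ [x]) ++ y :: l2) = sg ε (l1 ++ [x]) + ε x y + sg ε (y :: l2) := by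
  rw [List.append_assoc, List.cons_append, List.nil_append, sg_split, sg_cons_cons, add_assoc]

theorem sg_reverse (hε : ∀ x y, ε x y = ε y x) (l : List V) : sg ε l.reverse = sg ε l := by
  induction l with
  | nil => rfl
  | cons a t ih =>
    cases t with
    | nil => rfl
    | cons b t =>
      rw [List.reverse_cons] at ih
      rw [List.reverse_cons, List.reverse_cons]
      rw [sg_split_edge, sg_single, add_zero, ih, sg_cons_cons, hε b a, add_comm]

/-- the sign only depends on the values of `ε` on consecutive pairs -/
theorem sg_congr {ε' : V → V → ZMod 2} {R : V → V → Prop} (h : ∀ x y, R x y → ε x y = ε' x y)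
    (l : List V) (hl : l.IsChain R) : sg ε l = sg ε' l := by
  induction l with
  | nil => rfl
  | cons a t ih =>
    cases t with
    | nil => rfl
    | cons b t =>
      rw [List.isChain_cons_cons] at hl
      rw [sg_cons_cons, sg_cons_cons, ih hl.2, h a b hl.1]

/-- a chain all of whose edges have sign `0` has sign `0` -/
theorem sg_eq_zero {R : V → V → Prop} (h : ∀ x y, R x y → ε x y = 0)
    (l : List V) (hl : l.IsChain R) : sg ε l = 0 := by
  induction l with
  | nil => rfl
  | cons a t ih =>
    cases t with
    | nil => rfl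
    | cons b t =>
      rw [List.isChain_cons_cons] at hl
      rw [sg_cons_cons, ih hl.2, h a b hl.1, add_zero]

/-- switching: adding `λ x + λ y` to the sign of each edge changes the sign of a walk from `a` to
`b` by `λ a + λ b` -/
theorem sg_switch (lam : V → ZMod 2) (a b : V) (l : List V) (hh : l.head? = some a)
    (hl : l.getLast? = some b) :
    sg (fun x y => ε x y + lam x + lam y) l = sg ε l + lam a + lam b := by
  induction l generalizing a with
  | nil => simp at hh
  | cons x t ih =>
    rw [List.head?_cons, Option.some_inj] at hh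
    subst hh
    cases t with
    | nil =>
      rw [List.getLast?_singleton, Option.some_inj] at hl
      subst hl
      rw [sg_single, sg_single, zero_add, CharTwo.add_self_eq_zero]
    | cons y t =>
      rw [List.getLast?_cons_cons] at hl
      rw [sg_cons_cons, sg_cons_cons, ih y (List.head?_cons) hl]
      have h1 : lam y + lam y = 0 := CharTwo.add_self_eq_zero _
      linear_combination h1

/-- switching does not change the sign of a cycle (or of any closed list) -/
theorem csg_switch (lam : V → ZMod 2) (l : List V) :
    csg (fun x y => ε x y + lam x + lam y) l = csg ε l := by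
  unfold csg
  cases l with
  | nil => rfl
  | cons x t =>
    have h1 : (x :: t ++ (x :: t).take 1).head? = some x := rfl
    have h2 : (x :: t ++ (x :: t).take 1).getLast? = some x := by
      rw [show (x :: t).take 1 = [x] from rfl, List.getLast?_append, List.getLast?_singleton]
      rfl
    rw [sg_switch lam x x _ h1 h2, add_assoc, CharTwo.add_self_eq_zero, add_zero]

/-- Rotating a cycle. -/
theorem CycL.rotate {G : SimpleGraph V} {l1 l2 : List V} (h : CycL G (l1 ++ l2)) :
    CycL G (l2 ++ l1) ∧ csg ε (l2 ++ l1) = csg ε (l1 ++ l2) := by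
  obtain ⟨h3, hn, hc⟩ := h
  cases l1 with
  | nil =>
    rw [List.nil_append] at h3 hn hc
    rw [List.append_nil, List.nil_append]
    exact ⟨⟨h3, hn, hc⟩, rfl⟩
  | cons x t1 =>
    cases l2 with
    | nil =>
      rw [List.append_nil] at h3 hn hc
      rw [List.append_nil, List.nil_append]
      exact ⟨⟨h3, hn, hc⟩, rfl⟩
    | cons y t2 =>
      have e1 : (x :: t1 ++ y :: t2) ++ (x :: t1 ++ y :: t2).take 1 =
          (x :: t1) ++ y :: (t2 ++ [x]) := by
        rw [show (x :: t1 ++ y :: t2).take 1 = [x] from rfl]
        simp
      have e2 : (y :: t2 ++ x :: t1) ++ (y :: t2 ++ x :: t1).take 1 =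
          (y :: t2) ++ x :: (t1 ++ [y]) := by
        rw [show (y :: t2 ++ x :: t1).take 1 = [y] from rfl]
        simp
      rw [e1, List.isChain_split] at hc
      refine ⟨⟨?_, ?_, ?_⟩, ?_⟩
      · rw [List.length_append] at h3 ⊢
        omega
      · exact List.nodup_append_comm.1 hn
      · rw [e2, List.isChain_split]
        exact ⟨hc.2, hc.1⟩
      · unfold csg
        rw [e1, e2, sg_split (x :: t1), sg_split (y :: t2), add_comm]
        rfl

/-- Building a cycle from a path (list `P` from `x` to `y`) and a disjoint path (list `Q` from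
`a` to `b`) with `y ~ a` and `b ~ x`. -/
theorem cyc_of_two {G : SimpleGraph V} {S S' : Finset V} {x y a b : V} {P Q : List V}
    (hP : Pth G S x y P) (hQ : Pth G S' a b Q) (hya : G.Adj y a) (hbx : G.Adj b x)
    (hd : ∀ q ∈ P, q ∉ Q) (h3 : 3 ≤ P.length + Q.length) :
    CycL G (P ++ Q) ∧ csg ε (P ++ Q) = sg ε P + ε y a + sg ε Q + ε b x := by
  have ht : (P ++ Q).take 1 = [x] := by
    obtain ⟨t, ht⟩ := List.head?_eq_some_iff.1 hP.head
    rw [ht]
    rfl
  refine ⟨⟨?_, ?_, ?_⟩, ?_⟩
  · rw [List.length_append]
    exact h3
  · exact List.Nodup.append hP.nodup hQ.nodup fun q hq hq' => hd q hq hq'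
  · rw [ht, List.append_assoc, List.isChain_append, List.isChain_append]
    refine ⟨hP.chain, ⟨hQ.chain, List.isChain_singleton _, ?_⟩, ?_⟩
    · intro u hu w hw
      rw [hQ.last, Option.mem_some_iff] at hu
      rw [List.head?_cons, Option.mem_some_iff] at hw
      rw [← hu, ← hw]
      exact hbx
    · intro u hu w hw
      obtain ⟨t, ht⟩ := List.head?_eq_some_iff.1 hQ.head
      rw [hP.last, Option.mem_some_iff] at hu
      rw [ht, List.cons_append, List.head?_cons, Option.mem_some_iff] at hw
      rw [← hu, ← hw]
      exact hya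
  · unfold csg
    rw [ht, List.append_assoc]
    obtain ⟨P0, hP0⟩ := List.getLast?_eq_some_iff.1 hP.last
    obtain ⟨Q1, hQ1⟩ := List.head?_eq_some_iff.1 hQ.head
    obtain ⟨Q0, hQ0⟩ := List.getLast?_eq_some_iff.1 hQ.last
    have e1 : sg ε (P ++ (Q ++ [x])) = sg ε P + ε y a + sg ε (Q ++ [x]) := by
      rw [hQ1, List.cons_append, hP0, sg_split_edge]
    have e2 : sg ε (Q ++ [x]) = sg ε Q + ε b x := by
      rw [hQ0, sg_split_edge, sg_single, add_zero]
    rw [e1, e2]
    ring

end Pool.Agent.BND
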