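import Pool.Agent.BND.Defs2
import Pool.Agent.BND.P3

/-!
# BND-DU : cycles as lists and as walks; edge sets; linear algebra over `ZMod 2`
-/

set_option autoImplicit false
set_option linter.unusedSectionVars false

namespace Pool.Agent.BND

open Classical

variable {V : Type} [Fintype V] {G : SimpleGraph V}

theorem du1_eds {u v : V} (p : G.Walk u v) : eds p.support = p.edges := by
  induction p with
  | nil => rfl
  | @cons u v w h p ih =>
    rw [SimpleGraph.Walk.support_cons, SimpleGraph.Walk.edges_cons, ← ih]
    conv_lhs => rw [SimpleGraph.Walk.support_eq_cons p]
    conv_rhs => rw [SimpleGraph.Walk.support_eq_cons p]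
    rfl

theorem du1_build (t : List V) (z : V) : ∀ x : V, (x :: (t ++ [z])).IsChain G.Adj →
    ∃ p : G.Walk x z, p.support = x :: (t ++ [z]) := by
  induction t with
  | nil =>
    intro x h
    have h1 : G.Adj x z := by simpa using h
    exact ⟨SimpleGraph.Walk.cons h1 SimpleGraph.Walk.nil, rfl⟩
  | cons a t ih =>
    intro x h
    rw [List.cons_append, List.isChain_cons_cons] at h
    obtain ⟨p, hp⟩ := ih a h.2
    refine ⟨SimpleGraph.Walk.cons h.1 p, ?_⟩
    rw [SimpleGraph.Walk.support_cons, hp]
    rfl

/-- (DU1a) every cycle walk gives a list.  For `p = cons h p'` use the list of vertices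
`p.support.tail` (or `p.support.dropLast`). -/
theorem du_walk {u : V} (p : G.Walk u u) (hp : p.IsCycle) :
    ∃ l, CycL G l ∧ l.length = p.length ∧ ∀ e, e ∈ ced l ↔ e ∈ p.edges := by
  have h3 := hp.three_le_length
  have hlen : p.support.dropLast.length = p.length := by
    rw [List.length_dropLast, SimpleGraph.Walk.length_support]
    omega
  have happ : p.support.dropLast ++ p.support.dropLast.take 1 = p.support := by
    have h1 : p.support.dropLast ++ [u] = p.support := by
      have h := List.dropLast_append_getLast p.support_ne_nil
      rwa [SimpleGraph.Walk.getLast_support] at h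
    have h2 : p.support.dropLast.take 1 = [u] := by
      cases p with
      | nil => simp at h3
      | cons h q =>
        rw [SimpleGraph.Walk.support_cons, List.dropLast_cons_of_ne_nil q.support_ne_nil]
        rfl
    rw [h2, h1]
  refine ⟨p.support.dropLast, ⟨by rw [hlen]; exact h3, hp.nodup_dropLast_support, ?_⟩, hlen, ?_⟩
  · rw [happ]
    exact p.isChain_adj_support
  · intro e
    rw [ced, happ, du1_eds, List.mem_toFinset]

/-- (DU1b) every cycle list gives a cycle walk -/
theorem du_list {l : List V} (hl : CycL G l) :
    ∃ (u : V) (p : G.Walk u u), p.IsCycle ∧ p.length = l.length ∧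
      ∀ e, e ∈ p.edges ↔ e ∈ ced l := by
  obtain ⟨h3, hnd, hch⟩ := hl
  cases l with
  | nil => simp at h3
  | cons x t =>
    have htake : (x :: t).take 1 = [x] := rfl
    rw [htake, List.cons_append] at hch
    obtain ⟨p, hp⟩ := du1_build t x x hch
    have hplen : p.length = (x :: t).length := by
      have h := SimpleGraph.Walk.length_support p
      rw [hp, List.length_cons, List.length_append, List.length_singleton] at h
      rw [List.length_cons]
      omega
    refine ⟨x, p, ?_, hplen, ?_⟩
    · rw [List.length_cons] at h3 hplen
      have hpe : p.support = x :: (t ++ [x]) := hp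
      clear hp
      cases p with
      | nil => simp at hplen
      | @cons _ a _ h q =>
        rw [SimpleGraph.Walk.support_cons, List.cons.injEq] at hpe
        have hq := hpe.2
        have hqn : q.support.Nodup := by
          rw [hq]
          have h4 : (t ++ [x]).Perm (x :: t) := List.perm_append_singleton x t
          exact h4.nodup_iff.2 hnd
        rw [SimpleGraph.Walk.length_cons] at hplen
        rw [SimpleGraph.Walk.cons_isCycle_iff]
        refine ⟨SimpleGraph.Walk.IsPath.mk' hqn, ?_⟩
        cases q with
        | nil =>
          rw [SimpleGraph.Walk.length_nil] at hplen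
          omega
        | @cons _ b _ h' r =>
          rw [SimpleGraph.Walk.length_cons] at hplen
          rw [SimpleGraph.Walk.support_cons, List.nodup_cons] at hqn
          rw [SimpleGraph.Walk.edges_cons, List.mem_cons, not_or]
          constructor
          · intro h5
            rw [Sym2.eq_iff] at h5
            rcases h5 with ⟨h6, h7⟩ | ⟨h6, h7⟩
            · exact h'.ne h7
            · subst h6
              have h8 := hqn.2
              cases r with
              | nil =>
                rw [SimpleGraph.Walk.length_nil] at hplen
                omega
              | cons h'' r' =>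
                rw [SimpleGraph.Walk.support_cons, List.nodup_cons] at h8
                exact h8.1 r'.end_mem_support
          · intro h5
            exact hqn.1 (r.snd_mem_support_of_mem_edges h5)
    · intro e
      rw [ced, htake, List.cons_append, ← hp, du1_eds, List.mem_toFinset]

end Pool.Agent.BND
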