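import Pool.Agent.BND.Defs2
import Pool.Agent.BND.P3

/-!
# BND-DU : cycles as lists and as walks; edge sets; linear algebra over `ZMod 2`
-/

set_option autoImplicit false
set_option linter.unusedSectionVars false

namespace Pool.Agent.BND

open Classical

variable {V : Type} [Fintype V] {G : SimpleGraph V}

theorem du2_mem {e : Sym2 V} : ∀ {L : List V}, e ∈ eds L → ∀ x ∈ e, x ∈ L
  | [], he, _, _ => by simp [eds] at he
  | [_], he, _, _ => by simp [eds] at he
  | a :: b :: t, he, x, hx => by
    simp only [eds, List.mem_cons] at he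
    rcases he with rfl | he
    · simp only [Sym2.mem_iff] at hx
      rcases hx with rfl | rfl
      · simp
      · simp
    · exact List.mem_cons_of_mem _ (du2_mem he x hx)

theorem du2_nodup : ∀ {L : List V}, L.Nodup → (eds L).Nodup
  | [], _ => by simp [eds]
  | [_], _ => by simp [eds]
  | a :: b :: t, h => by
    simp only [eds, List.nodup_cons]
    refine ⟨fun hm => ?_, du2_nodup (List.nodup_cons.1 h).2⟩
    exact (List.nodup_cons.1 h).1 (du2_mem hm a (by simp))

theorem du2_append (x y : V) : ∀ L : List V, eds (L ++ [x, y]) = eds (L ++ [x]) ++ [s(x, y)]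
  | [] => by simp [eds]
  | [a] => by simp [eds]
  | a :: b :: t => by
    have h := du2_append x y (b :: t)
    simp only [List.cons_append, eds] at h ⊢
    rw [h]

theorem du2_sg (φ : Sym2 V → ZMod 2) : ∀ L : List V,
    sg (fun x y => φ s(x, y)) L = ((eds L).map φ).sum
  | [] => by simp [eds]
  | [_] => by simp [eds]
  | a :: b :: t => by
    simp only [sg_cons_cons, eds, List.map_cons, List.sum_cons]
    rw [du2_sg φ (b :: t)]

theorem du2_edge : ∀ {L : List V}, L.IsChain G.Adj → ∀ e ∈ eds L, e ∈ G.edgeSet
  | [], _, e, he => by simp [eds] at he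
  | [_], _, e, he => by simp [eds] at he
  | a :: b :: t, h, e, he => by
    rw [List.isChain_cons_cons] at h
    simp only [eds, List.mem_cons] at he
    rcases he with rfl | he
    · exact h.1
    · exact du2_edge h.2 e he

theorem du2_cyc_nodup {l : List V} (hl : CycL G l) : (eds (l ++ l.take 1)).Nodup := by
  obtain ⟨h3, hnd, -⟩ := hl
  rcases l with _ | ⟨a, _ | ⟨b, t⟩⟩
  · simp at h3
  · simp at h3
  · have ht : t ≠ [] := by
      rintro rfl
      simp at h3
    obtain ⟨t', x, rfl⟩ : ∃ t' x, t = t' ++ [x] :=
      ⟨t.dropLast, t.getLast ht, (List.dropLast_append_getLast ht).symm⟩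
    have h1 : (a :: b :: (t' ++ [x])) ++ (a :: b :: (t' ++ [x])).take 1 =
        (a :: b :: t') ++ [x, a] := by simp
    rw [h1, du2_append]
    have h2 : (a :: b :: t') ++ [x] = a :: b :: (t' ++ [x]) := by simp
    rw [h2, List.nodup_append]
    refine ⟨du2_nodup hnd, by simp, ?_⟩
    intro e he e' he' hee
    simp only [List.mem_singleton] at he'
    subst hee
    subst he'
    simp only [eds, List.mem_cons] at he
    have hxa : x ≠ a := by
      rintro rfl
      simp at hnd
    have hxb : x ≠ b := by
      rintro rfl
      simp at hnd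
    rcases he with he | he
    · rw [Sym2.eq_iff] at he
      rcases he with ⟨h5, _⟩ | ⟨h5, _⟩
      · exact hxa h5
      · exact hxb h5
    · have := du2_mem he a (by simp)
      exact (List.nodup_cons.1 hnd).1 this

/-- (DU2) the sign of a cycle as a sum over its edge set (the edges of a cycle list are distinct,
since it has at least three distinct vertices) -/
theorem du_sum {l : List V} (hl : CycL G l) (φ : Sym2 V → ZMod 2) :
    csg (fun x y => φ s(x, y)) l = ∑ e ∈ ced l, φ e := by
  unfold csg ced
  rw [du2_sg, List.sum_toFinset _ (du2_cyc_nodup hl)]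

theorem ced_sub {l : List V} (hl : CycL G l) : ∀ e ∈ ced l, e ∈ G.edgeSet := by
  intro e he
  unfold ced at he
  rw [List.mem_toFinset] at he
  exact du2_edge hl.2.2 e he

end Pool.Agent.BND
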