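import Pool.Agent.BND.Defs2

/-!
# BND-DU : cycles as lists and as walks; edge sets; linear algebra over `ZMod 2`
-/

set_option autoImplicit false
set_option linter.unusedSectionVars false

namespace Pool.Agent.BND

open Classical

variable {V : Type} [Fintype V] {G : SimpleGraph V}

/-- the indicator vector of a finset -/
noncomputable def du3_ind {E : Type} (D : Finset E) (e : E) : ZMod 2 := if e ∈ D then 1 else 0

theorem du3_sum_ind {E : Type} [Fintype E] (D : Finset E) (φ : E → ZMod 2) :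
    ∑ e, φ e * du3_ind D e = ∑ e ∈ D, φ e := by
  rw [← Finset.sum_filter_add_sum_filter_not Finset.univ (fun e => e ∈ D)]
  have h1 : ∑ e with e ∈ D, φ e * du3_ind D e = ∑ e ∈ D, φ e := by
    have h : Finset.univ.filter (fun e => e ∈ D) = D := by
      ext e
      simp
    rw [h]
    exact Finset.sum_congr rfl fun e he => by rw [du3_ind, if_pos he, mul_one]
  have h2 : ∑ e with e ∉ D, φ e * du3_ind D e = 0 :=
    Finset.sum_eq_zero fun e he => by
      rw [du3_ind, if_neg (Finset.mem_filter.1 he).2, mul_zero]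
  rw [h1, h2, add_zero]

/-- sums over symmetric differences in characteristic two -/
theorem du3_symm {E : Type} [DecidableEq E] {M : Type} [AddCommGroup M] (h2 : ∀ m : M, m + m = 0)
    (A B : Finset E) (f : E → M) :
    ∑ e ∈ (A \ B) ∪ (B \ A), f e = ∑ e ∈ A, f e + ∑ e ∈ B, f e := by
  rw [Finset.sum_union (disjoint_sdiff_sdiff)]
  have hA : ∑ e ∈ A, f e = ∑ e ∈ A \ B, f e + ∑ e ∈ A ∩ B, f e := by
    rw [← Finset.sum_union (Finset.disjoint_sdiff_inter A B), Finset.sdiff_union_inter]
  have hB : ∑ e ∈ B, f e = ∑ e ∈ B \ A, f e + ∑ e ∈ A ∩ B, f e := by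
    rw [Finset.inter_comm, ← Finset.sum_union (Finset.disjoint_sdiff_inter B A),
      Finset.sdiff_union_inter]
  rw [hA, hB]
  have h := h2 (∑ e ∈ A ∩ B, f e)
  have e1 : ∑ e ∈ A \ B, f e + ∑ e ∈ A ∩ B, f e + (∑ e ∈ B \ A, f e + ∑ e ∈ A ∩ B, f e) =
      ∑ e ∈ A \ B, f e + ∑ e ∈ B \ A, f e + (∑ e ∈ A ∩ B, f e + ∑ e ∈ A ∩ B, f e) := by abel
  rw [e1, h, add_zero]

theorem du3_card {E : Type} (F : Finset (Finset E)) (e : E) :
    ((F.filter (fun D => e ∈ D)).card : ZMod 2) = ∑ D ∈ F, du3_ind D e := by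
  rw [Finset.card_eq_sum_ones, Finset.sum_filter]
  push_cast
  rfl

theorem du3_odd (n : ℕ) : Odd n ↔ (n : ZMod 2) = 1 := by
  rw [← ZMod.natCast_ne_zero_iff_odd]
  generalize (n : ZMod 2) = x
  revert x
  decide

/-- (DU4) the same without parity: if every `φ` with `∑_D φ = 0` for all `D ∈ L` has
`∑_q φ = 0` then `q` is a sum of members of `L`. -/
theorem du3_span {E : Type} [Fintype E] (L : Set (Finset E)) (q : Finset E)
    (h : ∀ (φ : E → ZMod 2), (∀ D ∈ L, ∑ e ∈ D, φ e = 0) → ∑ e ∈ q, φ e = 0) :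
    ∃ F : Finset (Finset E), (∀ D ∈ F, D ∈ L) ∧
      ∀ e : E, e ∈ q ↔ Odd (F.filter (fun D => e ∈ D)).card := by
  set W : Submodule (ZMod 2) (E → ZMod 2) := Submodule.span (ZMod 2) (du3_ind '' L) with hW
  have hq : du3_ind q ∈ W := by
    by_contra hq
    obtain ⟨f, hf, hle⟩ := Submodule.exists_le_ker_of_notMem hq
    have hfs : ∀ D : Finset E, f (du3_ind D) = ∑ e ∈ D, f (Pi.single e 1) := by
      intro D
      have h1 : (du3_ind D : E → ZMod 2) = ∑ e, du3_ind D e • (Pi.single e 1 : E → ZMod 2) := by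
        funext x
        rw [Finset.sum_apply]
        simp [Pi.single_apply]
      conv_lhs => rw [h1]
      rw [map_sum, ← du3_sum_ind D (fun e => f (Pi.single e 1))]
      refine Finset.sum_congr rfl fun e _ => ?_
      rw [map_smul, smul_eq_mul, mul_comm]
    apply hf
    rw [hfs]
    apply h
    intro D hD
    rw [← hfs]
    exact hle (Submodule.subset_span ⟨D, hD, rfl⟩)
  have hspan : ∀ x ∈ W, ∃ F : Finset (Finset E), (∀ D ∈ F, D ∈ L) ∧ x = ∑ D ∈ F, du3_ind D := by
    intro x hx
    rw [hW] at hx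
    induction hx using Submodule.span_induction with
    | mem x hx =>
      obtain ⟨D, hD, rfl⟩ := hx
      exact ⟨{D}, by simpa using hD, by simp⟩
    | zero => exact ⟨∅, by simp, by simp⟩
    | add x y _ _ hx hy =>
      obtain ⟨A, hA, rfl⟩ := hx
      obtain ⟨B, hB, rfl⟩ := hy
      refine ⟨(A \ B) ∪ (B \ A), ?_, ?_⟩
      · intro D hD
        rcases Finset.mem_union.1 hD with h1 | h1
        · exact hA D (Finset.mem_sdiff.1 h1).1
        · exact hB D (Finset.mem_sdiff.1 h1).1
      · have h2 : ∀ x : ZMod 2, x + x = 0 := by decide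
        exact (du3_symm (M := E → ZMod 2) (fun m => funext fun e => h2 (m e)) A B _).symm
    | smul a x _ hx =>
      obtain ⟨A, hA, rfl⟩ := hx
      have h01 : a = 0 ∨ a = 1 := by
        revert a
        decide
      rcases h01 with h0 | h0
      · exact ⟨∅, by simp, by rw [h0]; simp⟩
      · exact ⟨A, hA, by rw [h0, one_smul]⟩
  obtain ⟨F, hF, hs⟩ := hspan _ hq
  refine ⟨F, hF, fun e => ?_⟩
  rw [du3_odd, du3_card]
  have h1 := congrFun hs e
  rw [Finset.sum_apply] at h1
  rw [← h1, du3_ind]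
  by_cases he : e ∈ q
  · simp [he]
  · simp [he]

/-- (DU3) linear algebra.  `E` a finite type, `𝓛` a set of finsets of `E`, `q` a finset of `E`.
Suppose that for all `φ : E → ZMod 2` and `a : ZMod 2` with `∑_{e ∈ D} φ e = a` for all `D ∈ 𝓛` we have
`∑_{e ∈ q} φ e = a`.  Then `q` is the sum (mod 2) of an odd number of members of `𝓛`.
Proof: in `(E → ZMod 2) × ZMod 2` consider the span of the vectors `(1_D, 1)`, `D ∈ 𝓛`.  If
`(1_q, 1)` is not in the span there is a linear functional vanishing on the span and not at `(1_q, 1)`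
(`Submodule.exists_le_ker_of_notMem` or similar); it is of the form
`(x, t) ↦ ∑ φ e * x e + a * t`; then `∑_{D} φ = a` (as `-a = a`) for `D ∈ 𝓛` but `∑_q φ ≠ a`.
If it is in the span then it is a sum of finitely many of the vectors with coefficients in
`ZMod 2`, i.e. the sum over a finset `F ⊆ 𝓛`; the last coordinate says that `|F|` is odd, the others
that `e ∈ q` iff `e` is in an odd number of members of `F`. -/
theorem du_odd {E : Type} [Fintype E] (L : Set (Finset E)) (q : Finset E)
    (h : ∀ (φ : E → ZMod 2) (a : ZMod 2), (∀ D ∈ L, ∑ e ∈ D, φ e = a) → ∑ e ∈ q, φ e = a) :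
    ∃ F : Finset (Finset E), (∀ D ∈ F, D ∈ L) ∧ Odd F.card ∧
      ∀ e : E, e ∈ q ↔ Odd (F.filter (fun D => e ∈ D)).card := by
  have hsum : ∀ (D : Finset E) (φ : Option E → ZMod 2),
      ∑ e ∈ Finset.insertNone D, φ e = φ none + ∑ e ∈ D, φ (some e) := by
    intro D φ
    rw [Finset.sum_insertNone]
  have hneg : ∀ a b : ZMod 2, a + b = 0 → b = a := by decide
  have hself : ∀ a : ZMod 2, a + a = 0 := by decide
  obtain ⟨F, hF, hq⟩ := du3_span (E := Option E) ((fun D => Finset.insertNone D) '' L)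
    (Finset.insertNone q) (by
      intro φ hφ
      rw [hsum, h (fun e => φ (some e)) (φ none) (fun D hD => by
        have h1 := hφ _ ⟨D, hD, rfl⟩
        rw [hsum] at h1
        exact hneg _ _ h1)]
      exact hself _)
  have hFi : ∀ D' ∈ F, Finset.insertNone (Finset.eraseNone D') = D' := by
    intro D' hD'
    obtain ⟨D, -, rfl⟩ := hF D' hD'
    rw [Finset.eraseNone_insertNone]
  have hinj : Set.InjOn (fun D' : Finset (Option E) => Finset.eraseNone D') (F : Set _) := by
    intro D₁ h1 D₂ h2 h12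
    rw [← hFi D₁ h1, ← hFi D₂ h2]
    exact congrArg _ h12
  refine ⟨F.image (fun D' => Finset.eraseNone D'), ?_, ?_, ?_⟩
  · intro D hD
    obtain ⟨D', hD', rfl⟩ := Finset.mem_image.1 hD
    obtain ⟨D, hDL, rfl⟩ := hF D' hD'
    rw [Finset.eraseNone_insertNone]
    exact hDL
  · rw [Finset.card_image_of_injOn hinj]
    have h1 := (hq none).1 (by simp)
    have h2 : F.filter (fun D => none ∈ D) = F := by
      refine Finset.filter_true_of_mem fun D hD => ?_
      rw [← hFi D hD]
      simp
    have h3 : Odd (F.filter (fun D => none ∈ D)).card := by convert h1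
    rwa [h2] at h3
  · intro e
    have h1 := hq (some e)
    have h2 : (F.image (fun D' => Finset.eraseNone D')).filter (fun D => e ∈ D) =
        (F.filter (fun D => some e ∈ D)).image (fun D' => Finset.eraseNone D') := by
      ext D
      simp only [Finset.mem_filter, Finset.mem_image]
      constructor
      · rintro ⟨⟨D', hD', rfl⟩, he⟩
        exact ⟨D', ⟨hD', Finset.mem_eraseNone.1 he⟩, rfl⟩
      · rintro ⟨D', ⟨hD', he⟩, rfl⟩
        exact ⟨⟨D', hD', rfl⟩, Finset.mem_eraseNone.2 he⟩
    have h3 : some e ∈ Finset.insertNone q ↔ Odd (F.filter (fun D => some e ∈ D)).card := by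
      convert h1
    rw [h2, Finset.card_image_of_injOn (hinj.mono (by
      intro D hD
      exact (Finset.mem_filter.1 hD).1)), ← h3]
    simp

/-- (DU4) the same without parity: if every `φ` with `∑_D φ = 0` for all `D ∈ L` has
`∑_q φ = 0` then `q` is a sum of members of `L`. -/
theorem du_span {E : Type} [Fintype E] (L : Set (Finset E)) (q : Finset E)
    (h : ∀ (φ : E → ZMod 2), (∀ D ∈ L, ∑ e ∈ D, φ e = 0) → ∑ e ∈ q, φ e = 0) :
    ∃ F : Finset (Finset E), (∀ D ∈ F, D ∈ L) ∧
      ∀ e : E, e ∈ q ↔ Odd (F.filter (fun D => e ∈ D)).card := du3_span L q h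

end Pool.Agent.BND
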