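import Pool.Agent.BND.Defs2

/-!
# BND-DU : cycles as lists and as walks; edge sets; linear algebra over `ZMod 2`
-/

set_option autoImplicit false
set_option linter.unusedSectionVars false

namespace Pool.Agent.BND

open Classical

variable {V : Type} [Fintype V] {G : SimpleGraph V}

/-- (DU5) an edge set `C` with even degrees has `∑_C φ = 0` for a `φ` coming from a potential. -/
theorem du_even (C : Finset (Sym2 V)) (hC : ∀ e ∈ C, e ∈ G.edgeSet)
    (hdeg : ∀ x : V, Even (C.filter (fun e => x ∈ e)).card) (φ : Sym2 V → ZMod 2)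
    (lam : V → ZMod 2) (hφ : ∀ x y, G.Adj x y → φ s(x, y) = lam x + lam y) :
    ∑ e ∈ C, φ e = 0 := by
  have h1 : ∀ e ∈ C, φ e = ∑ x : V, if x ∈ e then lam x else 0 := by
    intro e he
    have h := hC e he
    induction e using Sym2.ind with
    | _ x y =>
      rw [SimpleGraph.mem_edgeSet] at h
      rw [hφ x y h, ← Finset.sum_filter]
      have h2 : Finset.univ.filter (fun z => z ∈ s(x, y)) = {x, y} := by
        ext z
        simp
      have h3 : ∑ z with z ∈ s(x, y), lam z = ∑ z ∈ ({x, y} : Finset V), lam z := by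
        rw [← h2]
      rw [h3, Finset.sum_pair h.ne]
  rw [Finset.sum_congr rfl h1, Finset.sum_comm]
  refine Finset.sum_eq_zero fun x _ => ?_
  rw [← Finset.sum_filter, Finset.sum_const, nsmul_eq_mul]
  have h2 := (ZMod.natCast_eq_zero_iff_even).2 (hdeg x)
  have h3 : (((C.filter (fun e => x ∈ e)).card : ℕ) : ZMod 2) = 0 := h2
  rw [h3, zero_mul]

end Pool.Agent.BND
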