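import Mathlib

/-!
# Project BND : Bondy's 1979 conjecture on long circuits and the cycle space (MP_60f890_co, S09115)

Definitions.  All files of the project work with classical decidability (`open Classical`) and with
paths and cycles given as lists of vertices.
-/

set_option autoImplicit false
set_option linter.unusedSectionVars false

namespace Pool.Agent.BND

open Classical

variable {V : Type} [Fintype V]

/-- the set of neighbours of `x` -/
noncomputable def nb (G : SimpleGraph V) (x : V) : Finset V :=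
  Finset.univ.filter (fun y => G.Adj x y)

/-- `l` lists (in order) the vertices of a path of `G` from `x` to `y` inside `S` -/
structure Pth (G : SimpleGraph V) (S : Finset V) (x y : V) (l : List V) : Prop where
  head : l.head? = some x
  last : l.getLast? = some y
  nodup : l.Nodup
  chain : l.IsChain G.Adj
  sub : ∀ z ∈ l, z ∈ S

/-- `G[S]` is connected (and `S` is nonempty) -/
def Conn (G : SimpleGraph V) (S : Finset V) : Prop :=
  S.Nonempty ∧ ∀ x ∈ S, ∀ y ∈ S, ∃ l, Pth G S x y l

/-- `G[S]` has at least two vertices, is connected and has no cut vertex (`K_2` is allowed) -/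
def Bic (G : SimpleGraph V) (S : Finset V) : Prop :=
  2 ≤ S.card ∧ Conn G S ∧ ∀ z ∈ S, Conn G (S.erase z)

/-- `X` is the vertex set of a connected component of `G[S]` -/
def Comp (G : SimpleGraph V) (S X : Finset V) : Prop :=
  X ⊆ S ∧ Conn G X ∧ ∀ x ∈ X, ∀ y ∈ S, G.Adj x y → y ∈ X

/-- `G` is 3-connected -/
def K3 (G : SimpleGraph V) : Prop :=
  4 ≤ Fintype.card V ∧ ∀ Z : Finset V, Z.card ≤ 2 → Conn G Zᶜ

/-- sign of a walk given by its list of vertices -/
def sg (ε : V → V → ZMod 2) : List V → ZMod 2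
  | [] => 0
  | [_] => 0
  | x :: y :: t => ε x y + sg ε (y :: t)

/-- `l` lists (in cyclic order) the vertices of a cycle of `G` -/
def CycL (G : SimpleGraph V) (l : List V) : Prop :=
  3 ≤ l.length ∧ l.Nodup ∧ (l ++ l.take 1).IsChain G.Adj

/-- sign of the cycle listed by `l` -/
def csg (ε : V → V → ZMod 2) (l : List V) : ZMod 2 := sg ε (l ++ l.take 1)

/-- `v i, v (i+1), …, v (i+n-1)` -/
def fw (v : ℤ → V) (i : ℤ) (n : ℕ) : List V := (List.range n).map (fun k => v (i + (k : ℤ)))

/-- `v i, v (i-1), …, v (i-n+1)` -/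
def bw (v : ℤ → V) (i : ℤ) (n : ℕ) : List V := (List.range n).map (fun k => v (i - (k : ℤ)))

/-- `I` is the list of inner vertices (at least one) of a path from `x` to `y` with all inner
vertices in `D`.  (`x`, `y` will be outside `D`.)  The length of that path is `I.length + 1`. -/
structure Ear (G : SimpleGraph V) (D : Finset V) (x y : V) (I : List V) : Prop where
  ne : I ≠ []
  nodup : I.Nodup
  chain : (x :: (I ++ [y])).IsChain G.Adj
  sub : ∀ z ∈ I, z ∈ D

/-- `J` is the list of inner vertices of a path from `x` to `y` whose inner vertices are in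
`D ∪ {w}`, the first and the last inner vertex being in `D`. (`x`, `y`, `w` will be outside `D`.)
The length of that path is `J.length + 1`. -/
structure Via (G : SimpleGraph V) (D : Finset V) (w x y : V) (J : List V) : Prop where
  ne : J ≠ []
  nodup : J.Nodup
  chain : (x :: (J ++ [y])).IsChain G.Adj
  sub : ∀ z ∈ J, z ∈ D ∨ z = w
  hd : ∀ z, J.head? = some z → z ∈ D
  lt : ∀ z, J.getLast? = some z → z ∈ D

/-- neighbours of `u` in `D` -/
noncomputable def att (G : SimpleGraph V) (D : Finset V) (u : V) : Finset V :=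
  D.filter (fun x => G.Adj u x)

/-- the vertices of `K` with a neighbour in `D` -/
noncomputable def TT (G : SimpleGraph V) (K D : Finset V) : Finset V :=
  K.filter (fun u => (att G D u).Nonempty)

/-- hubs: the vertices of `K` with at least two neighbours in `D` -/
noncomputable def hubs (G : SimpleGraph V) (K D : Finset V) : Finset V :=
  K.filter (fun u => 2 ≤ (att G D u).card)

/-- centres: the vertices `x` of `D` that are the only neighbour in `D` of some vertex of `K` -/
noncomputable def ctrs (G : SimpleGraph V) (K D : Finset V) : Finset V :=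
  D.filter (fun x => ∃ u ∈ K, att G D u = {x})

/-- number of groups: hubs + centres -/
noncomputable def NN (G : SimpleGraph V) (K D : Finset V) : ℕ :=
  (hubs G K D).card + (ctrs G K D).card

/-- `u` and `w` are distinct and have distinct representatives in `D` -/
def Ind (G : SimpleGraph V) (D : Finset V) (u w : V) : Prop :=
  u ≠ w ∧ ∃ x ∈ att G D u, ∃ y ∈ att G D w, x ≠ y

/-- there are ears of both signs between `x` and `y` through `D` -/
def BSg (G : SimpleGraph V) (ε : V → V → ZMod 2) (D : Finset V) (x y : V) : Prop :=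
  ∃ I I', Ear G D x y I ∧ Ear G D x y I' ∧
    sg ε (x :: (I ++ [y])) ≠ sg ε (x :: (I' ++ [y]))

/-- `D` is the vertex set of a connected component of `G - K`, in a 3-connected graph `G` of
minimum degree at least `d ≥ 3`, with `3 ≤ |K|`. -/
structure CC (G : SimpleGraph V) (K D : Finset V) (d : ℕ) : Prop where
  k3 : K3 G
  hd : 3 ≤ d
  deg : ∀ x, d ≤ (nb G x).card
  three : 3 ≤ K.card
  disj : Disjoint D K
  conn : Conn G D
  closed : ∀ x ∈ D, ∀ y, G.Adj x y → y ∈ D ∨ y ∈ K

/-- `D` is an end piece of the component `B` of `G - K`, hanging at the vertex `b` of `B`: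
`D` is a component of `B - b`, and `D ∪ {b}` has no cut vertex (or `D` is a single vertex). -/
structure EP (G : SimpleGraph V) (B D : Finset V) (b : V) : Prop where
  sub : D ⊆ B
  mem : b ∈ B
  nmem : b ∉ D
  conn : Conn G D
  closed : ∀ x ∈ D, ∀ y ∈ B, G.Adj x y → y ∈ D ∨ y = b
  adj : ∃ x ∈ D, G.Adj x b
  bic : D.card = 1 ∨ Bic G (insert b D)

/-- ownership data for a component `D` of `G - K` (used for the unsigned count) -/
structure Own (G : SimpleGraph V) (K D : Finset V) (d : ℕ) (P : Finset V) (own : V → ℕ) :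
    Prop where
  sub : P ⊆ K
  two : 2 ≤ P.card
  pos : ∀ u ∈ P, 1 ≤ own u
  ear : ∀ u ∈ P, ∀ w ∈ P, u ≠ w → ∃ I, Ear G D u w I ∧ own u ≤ I.length + 1
  sum : ∀ u ∈ P, 2 * d ≤ (∑ w ∈ P.erase u, own w) + 2

/-- data attached to an end piece `D` hanging at `b` -/
structure PD (G : SimpleGraph V) (K D : Finset V) (b : V) (d : ℕ) (R : Finset V) (f : ℕ) :
    Prop where
  sub : R ⊆ TT G K D
  two : 2 ≤ R.card
  f2 : 2 ≤ f
  fd : f + 1 ≤ d
  prod : 2 * d ≤ R.card * f + 2
  ear : ∀ u ∈ R, ∀ w ∈ R, u ≠ w → ∃ I, Ear G (insert b D) u w I ∧ f ≤ I.length + 1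
  out : ∀ u ∈ R, ∃ Q, Ear G D u b Q ∧ f ≤ Q.length + 1
  typ : (f = 2 ∧ d ≤ R.card + 1) ∨
    ((f + 1 = d ∨ (3 ≤ f ∧ d + 1 ≤ f + R.card)) ∧
      ∀ u ∈ R, ∀ w ∈ R, u ≠ w → ∃ I, Ear G (insert b D) u w I ∧ f ≤ I.length)

/-- the vertex set of the cycle `v 0, …, v (c-1)` -/
noncomputable def Cs (v : ℤ → V) (c : ℕ) : Finset V :=
  (Finset.range c).image (fun k : ℕ => v (k : ℤ))

/-- the vertices outside the cycle -/
noncomputable def Bs (v : ℤ → V) (c : ℕ) : Finset V := (Cs v c)ᶜ

/-- The main context: `G` is 3-connected with minimum degree `≥ d ≥ 3` and at least `2d` vertices,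
`ε` is a symmetric signature, and `v 0, …, v (c-1)` (extended periodically) is a longest cycle
among the cycles of sign `τ`, with `c ≤ 2d - 2`; `s` is a potential of `ε` along that cycle. -/
structure Ctx (G : SimpleGraph V) (ε : V → V → ZMod 2) (τ : ZMod 2) (d c : ℕ)
    (v : ℤ → V) (s : ℤ → ZMod 2) : Prop where
  symm : ∀ x y, ε x y = ε y x
  k3 : K3 G
  hd : 3 ≤ d
  deg : ∀ x, d ≤ (nb G x).card
  card : 2 * d ≤ Fintype.card V
  three : 3 ≤ c
  hc : c + 2 ≤ 2 * d
  adj : ∀ i : ℤ, G.Adj (v i) (v (i + 1))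
  inj : ∀ i j : ℤ, v i = v j ↔ (c : ℤ) ∣ i - j
  pot : ∀ i : ℤ, s (i + 1) = s i + ε (v i) (v (i + 1))
  per : ∀ i : ℤ, s (i + c) = s i + τ
  max : ∀ l, CycL G l → csg ε l = τ → l.length ≤ c

/-- position `i` of the cycle carries a vertex with a neighbour outside the cycle -/
def Tp (G : SimpleGraph V) (v : ℤ → V) (c : ℕ) (i : ℤ) : Prop :=
  ∃ x ∈ Bs v c, G.Adj (v i) x

/-- The normalised context: moreover the outside of the cycle is connected and all edges with an
end outside the cycle have sign `0`. -/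
structure NCtx (G : SimpleGraph V) (ε : V → V → ZMod 2) (τ : ZMod 2) (d c : ℕ)
    (v : ℤ → V) (s : ℤ → ZMod 2) : Prop extends Ctx G ε τ d c v s where
  conn : Conn G (Bs v c)
  bz : ∀ x ∈ Bs v c, ∀ y, G.Adj x y → ε x y = 0

end Pool.Agent.BND
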