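import Pool.Agent.BND.Defs

/-!
# Project BND : auxiliary definitions (hypothesis structures of the single cases)
-/

set_option autoImplicit false
set_option linter.unusedSectionVars false

namespace Pool.Agent.BND

open Classical

variable {V : Type} [Fintype V]

/-- two edge disjoint arcs of the cycle, each shorter than an ear through `D` with the same ends -/
def GA (G : SimpleGraph V) (v : ℤ → V) (c : ℕ) (D : Finset V) : Prop :=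
  ∃ i j k l : ℤ, i < j ∧ j ≤ k ∧ k < l ∧ l ≤ i + c ∧
    (∃ I, Ear G D (v i) (v j) I ∧ j - i < I.length + 1) ∧
    (∃ I, Ear G D (v k) (v l) I ∧ l - k < I.length + 1)

structure EqH (G : SimpleGraph V) (ε : V → V → ZMod 2) (τ : ZMod 2) (d c : ℕ)
    (v : ℤ → V) (s : ℤ → ZMod 2) (N m : ℕ) : Prop where
  ctx : NCtx G ε τ d c v s
  hN : ((Finset.range c).filter (fun k : ℕ => Tp G v c k)).card = N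
  N3 : 3 ≤ N
  m2 : 2 ≤ m
  dNm : d + 1 = N + m
  inv : ∀ i : ℤ, Tp G v c i → Tp G v c (i + m + 2)
  btw : ∀ i : ℤ, Tp G v c i → ∃ j : ℤ, i + 2 ≤ j ∧ j ≤ i + m ∧ Tp G v c j ∧
    ∀ k : ℤ, i < k → k < i + m + 2 → Tp G v c k → k = j
  neg : ∀ i j : ℤ, i < j → Tp G v c i → Tp G v c j → (∀ k : ℤ, i < k → k < j → ¬ Tp G v c k) →
    s j = s i + 1
  ear : ∀ i j : ℤ, Tp G v c i → Tp G v c j → v i ≠ v j →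
    ∃ I, Ear G (Bs v c) (v i) (v j) I ∧ m ≤ I.length
  via : ∀ i j k : ℤ, Tp G v c i → Tp G v c j → Tp G v c k → v i ≠ v j → v i ≠ v k → v j ≠ v k →
    ∃ J, Via G (Bs v c) (v k) (v i) (v j) J ∧ m + 1 ≤ J.length

structure N3H (G : SimpleGraph V) (ε : V → V → ZMod 2) (τ : ZMod 2) (d c : ℕ)
    (v : ℤ → V) (s : ℤ → ZMod 2) : Prop where
  ctx : NCtx G ε τ d c v s
  bic : Bic G (Bs v c)
  b3 : 3 ≤ (Bs v c).card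
  nc : ¬ Bs v c ⊆ ctrs G (Cs v c) (Bs v c)
  N3 : NN G (Cs v c) (Bs v c) = 3

def Tri (G : SimpleGraph V) (v : ℤ → V) (c : ℕ) (p q r : ℤ) : Prop :=
  p < q ∧ q < r ∧ r < p + c ∧ Ind G (Bs v c) (v p) (v q) ∧ Ind G (Bs v c) (v q) (v r) ∧
    Ind G (Bs v c) (v p) (v r)

/-- the data of the circle combinatorics -/
structure CEH (c d f₁ f₂ N₁ N₂ : ℕ) (τ : ZMod 2) (s : ℤ → ZMod 2) (A₁ A₂ : ℤ → Prop) : Prop where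
  hd : 3 ≤ d
  hc : 3 ≤ c
  hcd : c + 2 ≤ 2 * d
  per : ∀ i : ℤ, s (i + c) = s i + τ
  per1 : ∀ i : ℤ, A₁ (i + c) ↔ A₁ i
  per2 : ∀ i : ℤ, A₂ (i + c) ↔ A₂ i
  card1 : ((Finset.range c).filter (fun k : ℕ => A₁ k)).card = N₁
  card2 : ((Finset.range c).filter (fun k : ℕ => A₂ k)).card = N₂
  two1 : 2 ≤ N₁
  two2 : 2 ≤ N₂
  f1 : 2 ≤ f₁
  f2 : 2 ≤ f₂
  fd1 : f₁ + 1 ≤ d
  fd2 : f₂ + 1 ≤ d
  prod1 : 2 * d ≤ N₁ * f₁ + 2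
  prod2 : 2 * d ≤ N₂ * f₂ + 2
  c11 : ∀ i j : ℤ, i < j → j < i + c → s i = s j → A₁ i → A₁ j → (f₁ : ℤ) ≤ j - i
  c22 : ∀ i j : ℤ, i < j → j < i + c → s i = s j → A₂ i → A₂ j → (f₂ : ℤ) ≤ j - i
  c12 : ∀ i j : ℤ, i < j → j < i + c → s i = s j → A₁ i → A₂ j → (f₁ : ℤ) + f₂ ≤ j - i
  c21 : ∀ i j : ℤ, i < j → j < i + c → s i = s j → A₂ i → A₁ j → (f₁ : ℤ) + f₂ ≤ j - i
  typ1 : (f₁ = 2 ∧ d ≤ N₁ + 1) ∨ ((f₁ + 1 = d ∨ (3 ≤ f₁ ∧ d + 1 ≤ f₁ + N₁)) ∧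
    ∀ i j : ℤ, i < j → j < i + c → s i = s j → A₁ i → A₁ j → (f₁ : ℤ) + 1 ≤ j - i)
  typ2 : (f₂ = 2 ∧ d ≤ N₂ + 1) ∨ ((f₂ + 1 = d ∨ (3 ≤ f₂ ∧ d + 1 ≤ f₂ + N₂)) ∧
    ∀ i j : ℤ, i < j → j < i + c → s i = s j → A₂ i → A₂ j → (f₂ : ℤ) + 1 ≤ j - i)

/-- the conclusion of the circle combinatorics -/
def CEC (c d f₁ f₂ : ℕ) (τ : ZMod 2) (s : ℤ → ZMod 2) (A₁ A₂ : ℤ → Prop) : Prop :=
  (τ = 0 ∧ f₁ + 1 = d ∧ f₂ + 1 = d ∧ ∃ p q : ℤ, p < q ∧ q < p + c ∧ A₁ p ∧ A₂ p ∧ A₁ q ∧ A₂ q ∧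
    s q = s p + 1) ∨
  (4 ≤ c ∧ ∃ p : ℤ, A₁ p ∧ A₂ (p + 1) ∧ A₁ (p + 2) ∧ A₂ (p + 3) ∧ s (p + 1) = s p + 1 ∧
    s (p + 2) = s p ∧ s (p + 3) = s p + 1) ∨
  (8 ≤ c ∧ ∃ p : ℤ, A₁ p ∧ A₂ p ∧ A₁ (p + 1) ∧ A₂ (p + 1) ∧ A₁ (p + 4) ∧ A₂ (p + 4) ∧
    A₁ (p + 5) ∧ A₂ (p + 5) ∧ s (p + 1) = s p + 1 ∧ s (p + 5) = s (p + 4) + 1) ∨
  (c + 2 = 2 * d ∧ 4 ≤ d ∧ ∃ p : ℤ, ∀ k : ℤ, A₁ (p + 2 * k) ∧ A₂ (p + 2 * k) ∧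
    s (p + 2 * k + 2) = s (p + 2 * k) + 1)

structure CutH (G : SimpleGraph V) (ε : V → V → ZMod 2) (τ : ZMod 2) (d c : ℕ)
    (v : ℤ → V) (s : ℤ → ZMod 2) (D₁ D₂ R₁ R₂ : Finset V) (b₁ b₂ : V) (f₁ f₂ : ℕ) : Prop where
  ctx : NCtx G ε τ d c v s
  e1 : EP G (Bs v c) D₁ b₁
  e2 : EP G (Bs v c) D₂ b₂
  dis : Disjoint D₁ D₂
  b12 : b₁ ∉ D₂
  b21 : b₂ ∉ D₁
  p1 : PD G (Cs v c) D₁ b₁ d R₁ f₁
  p2 : PD G (Cs v c) D₂ b₂ d R₂ f₂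

/-- the list of edges of a list of vertices -/
def eds : List V → List (Sym2 V)
  | [] => []
  | [_] => []
  | x :: y :: t => s(x, y) :: eds (y :: t)

/-- the edge set of the cycle listed by `l` -/
noncomputable def ced (l : List V) : Finset (Sym2 V) := (eds (l ++ l.take 1)).toFinset

/-- the longish cycles -/
def LongC {V : Type} [Fintype V] (G : SimpleGraph V) (d : ℕ) : Set (Finset (Sym2 V)) :=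
  {D | ∃ l, CycL G l ∧ 2 * d ≤ l.length + 1 ∧ ced l = D}

end Pool.Agent.BND
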