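import Pool.Agent.BND.EG5b

/-!
# BND-EB : lower bounds for the lengths of ears

Throughout: `K` is the vertex set of the cycle, `D` a set disjoint from `K`, `L ⊇ D` a set disjoint
from `K` with `|L \ D| ≤ 1` (`L = D`, or `L = D ∪ {b}`), every neighbour of a vertex of `D` is in
`L ∪ K`, every vertex of `D` has degree at least `d`, `L` is `Bic`.

Let `h = |hubs G K D|`, `κ = |ctrs G K D|`, `NN = h + κ`, `S = ctrs G K D`.
Key fact: if `y ∈ D` is not a centre then all its neighbours in `K` are hubs (a neighbour `u ∈ K` of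
`y` has `y ∈ att G D u`; if `u` is not a hub then `att G D u = {y}` and `y` is a centre).  So `y` has
at least `d - h` neighbours in `L` (lemma `deg_nonctr`).

`ear_gen`.  Let `u, w ∈ K`, `Ind G D u w`: `x ∈ att G D u`, `y ∈ att G D w`, `x ≠ y`.
Suppose `D ⊄ S`.  Apply `eg` in `L` with `a = x`, `b = y`, `M = D \ S ≠ ∅`, `R = d - h`
(natural subtraction is harmless).
`W = L \ (M ∪ {x, y}) = (S ∪ (L \ D)) \ {x, y}`.
We get a path `l` from `x` to `y` in `L`; if `W = ∅`, `|l| ≥ d - h + 1 ≥ d - NN + 1`; if `W ≠ ∅`,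
`|l| ≥ d - h + 2 - |W| ≥ d - h + 2 - (κ + 1) = d - NN + 1`.
So in all cases `d + 1 ≤ |l| + NN`.  If `L = D` and `κ ≥ 1`: if `W = S \ {x,y} = ∅` then
`|l| + NN ≥ d + 1 + κ ≥ d + 2`; if `W ≠ ∅`, `|l| + NN ≥ d + 2 + (κ - |W|) ≥ d + 2`.
If `L = D`, `κ ≥ 2` and `u` is a clone (`|att G D u| = 1`, so `x` is a centre): if `W = ∅`,
`|l| + NN ≥ d + 1 + κ ≥ d + 3`; if `W ≠ ∅`, then `|W| ≤ κ - 1` and `|l| + NN ≥ d + 3`.
`l` is an ear from `u` to `w`.  Also `Bic.long_pth` gives a path with at least three vertices from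
`x` to `y`; take the longer one of the two.

`out_gen`.  `L = insert b D`, `b ∉ D`, `b ∉ K`, `u ∈ TT G K D` with `x ∈ att G D u`. Apply `eg` in `L`
with `a = x`, the other end `b`, `M = D \ S`, `R = d - h`; `W = S \ {x}` (as `b` is an end).
If `W = ∅`: `|l| ≥ d - h + 1`; if `W ≠ ∅`: `|l| ≥ d - h + 2 - κ = d - NN + 2`. So
`|l| ≥ d - NN + 1` in all cases. Remove the last vertex `b`: `Q` with `|Q| ≥ d - NN`, and `|Q| ≥ 2` if
the long path of `Bic.long_pth` is used (again take the longer one).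
`Q` is an `Ear` from `u` to `b` through `D`.

`via_gen`.  `L = D`, `Bic D`; `u, z, w ∈ K` pairwise `Ind`, `D ⊄ S`.
 (a) `z` a hub: `L' = insert z D` is `Bic` (`Bic.insert`). `y ∈ D \ S` has at least `d - (h - 1)`
 neighbours in `L'`, i.e. `≥ d - h + 1` (its neighbours in `K \ {z}` are in `hubs \ {z}`; careful with
 natural subtraction: `d + 1 ≤ h + #(nbrs in L')`).  Apply `eg` in `L'` from `x` to `y'` (`x ∈ att u`,
 `y' ∈ att w`, `x ≠ y'`), `M = D \ S`, `R = d - h + 1` (`R + h = d + 1` if `h ≤ d`, if `h > d + 1` take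
 `R = 0`; simply `R := d + 1 - h`).  `W = (S \ {x, y'}) ∪ {z} ≠ ∅`, `|W| ≤ κ + 1`, and `|W| ≤ κ` if `u` is
 a clone (`x ∈ S`).  `|l| ≥ R + 2 - |W| ≥ d + 3 - h - κ - 1 = d + 2 - NN`, and one more if `u` is a clone.
 `l` is a `Via` path: all its vertices are in `D ∪ {z}`, and the first and the last are in `D`.
 (b) `z` is a clone: `att G D z = {s'}`, so `κ ≥ 1`, and `ear_gen` gives an ear `I` with
 `d + 2 ≤ |I| + NN`; if `u` is a clone, `att G D u = {x}`, `x ≠ s'` (since `Ind G D u z`), so `κ ≥ 2`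
 and `d + 3 ≤ |I| + NN`.  Use `Ear.via`.
-/

set_option autoImplicit false
set_option linter.unusedSectionVars false

namespace Pool.Agent.BND

open Classical

variable {V : Type} [Fintype V] {G : SimpleGraph V} {K L D : Finset V} {d : ℕ}

theorem eb1_mem_att {u x : V} : x ∈ att G D u ↔ x ∈ D ∧ G.Adj u x := by
  simp [att]

theorem eb1_mem_hubs {u : V} : u ∈ hubs G K D ↔ u ∈ K ∧ 2 ≤ (att G D u).card := by
  simp [hubs]

theorem eb1_mem_ctrs {x : V} : x ∈ ctrs G K D ↔ x ∈ D ∧ ∃ u ∈ K, att G D u = {x} := by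
  simp [ctrs]

theorem att_card_or (u : V) (hu : (att G D u).Nonempty) :
    2 ≤ (att G D u).card ∨ ∃ x ∈ D, att G D u = {x} := by
  by_cases h : 2 ≤ (att G D u).card
  · exact Or.inl h
  · right
    have h1 : (att G D u).card = 1 := by
      have := hu.card_pos
      omega
    obtain ⟨x, hx⟩ := Finset.card_eq_one.1 h1
    refine ⟨x, ?_, hx⟩
    have : x ∈ att G D u := by rw [hx]; simp
    exact (eb1_mem_att.1 this).1

/-- a non-centre has all its `K`-neighbours among the hubs -/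
theorem deg_nonctr (hLK : Disjoint L K) (hDL : D ⊆ L)
    (hcl : ∀ x ∈ D, ∀ y, G.Adj x y → y ∈ L ∨ y ∈ K) {y : V} (hy : y ∈ D)
    (hny : y ∉ ctrs G K D) :
    (nb G y).card ≤ (L.filter (fun z => G.Adj y z)).card + (hubs G K D).card := by
  refine le_trans (Finset.card_le_card ?_) (Finset.card_union_le _ _)
  intro z hz
  have hyz : G.Adj y z := by simpa [nb] using hz
  rw [Finset.mem_union]
  rcases hcl y hy z hyz with hzL | hzK
  · left
    rw [Finset.mem_filter]
    exact ⟨hzL, hyz⟩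
  · right
    rw [eb1_mem_hubs]
    refine ⟨hzK, ?_⟩
    have hya : y ∈ att G D z := eb1_mem_att.2 ⟨hy, hyz.symm⟩
    rcases att_card_or z ⟨y, hya⟩ with h | ⟨x, hx, hxe⟩
    · exact h
    · exfalso
      apply hny
      rw [eb1_mem_ctrs]
      refine ⟨hy, z, hzK, ?_⟩
      rw [hxe] at hya
      rw [hxe, Finset.mem_singleton.1 hya]

/-- the longer one of two paths with a given property -/
theorem eb1_pick {S : Finset V} {x y : V} {l l0 : List V} (h : Pth G S x y l)
    (h0 : Pth G S x y l0) :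
    ∃ l1, Pth G S x y l1 ∧ l.length ≤ l1.length ∧ l0.length ≤ l1.length := by
  rcases le_total l.length l0.length with h1 | h1
  · exact ⟨l0, h0, h1, le_rfl⟩
  · exact ⟨l, h, le_rfl, h1⟩

theorem ear_gen (hLK : Disjoint L K) (hDL : D ⊆ L) (hLD : (L \ D).card ≤ 1)
    (hcl : ∀ x ∈ D, ∀ y, G.Adj x y → y ∈ L ∨ y ∈ K) (hdeg : ∀ x ∈ D, d ≤ (nb G x).card)
    (hB : Bic G L) (h3 : 3 ≤ L.card) (hnc : ¬ D ⊆ ctrs G K D) {u w : V} (hu : u ∈ K)
    (hw : w ∈ K) (hI : Ind G D u w) :
    ∃ I, Ear G L u w I ∧ 3 ≤ I.length ∧ d + 1 ≤ I.length + NN G K D ∧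
      (L = D → (ctrs G K D).Nonempty → d + 2 ≤ I.length + NN G K D) ∧
      (L = D → 2 ≤ (ctrs G K D).card → (att G D u).card = 1 → d + 3 ≤ I.length + NN G K D) := by
  obtain ⟨huw, x, hx, y, hy, hxy⟩ := hI
  obtain ⟨hxD, hux⟩ := eb1_mem_att.1 hx
  obtain ⟨hyD, hwy⟩ := eb1_mem_att.1 hy
  set S := ctrs G K D with hS
  have hM : (D \ S).Nonempty := by
    rw [Finset.sdiff_nonempty]
    exact hnc
  have hR : ∀ z ∈ D \ S, d - (hubs G K D).card ≤ (L.filter (fun t => G.Adj z t)).card := by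
    intro z hz
    rw [Finset.mem_sdiff] at hz
    have h1 := deg_nonctr (K := K) hLK hDL hcl hz.1 (by rw [← hS]; exact hz.2)
    have h2 := hdeg z hz.1
    omega
  obtain ⟨l, hl, hl1, hl2⟩ := eg hB (hDL hxD) (hDL hyD) hxy
    (Finset.sdiff_subset.trans hDL) hM hR
  obtain ⟨l0, hl0, hl03⟩ := hB.long_pth h3 (hDL hxD) (hDL hyD) hxy
  obtain ⟨l1, hp, h1a, h1b⟩ := eb1_pick hl hl0
  -- bound for `W`
  set W := L \ insert x (insert y (D \ S)) with hW
  have hWsub : W ⊆ (S ∪ (L \ D)).erase x := by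
    intro t ht
    rw [hW, Finset.mem_sdiff, Finset.mem_insert, Finset.mem_insert, Finset.mem_sdiff] at ht
    push Not at ht
    obtain ⟨htL, htx, hty, ht⟩ := ht
    rw [Finset.mem_erase, Finset.mem_union, Finset.mem_sdiff]
    refine ⟨htx, ?_⟩
    by_cases htD : t ∈ D
    · exact Or.inl (ht htD)
    · exact Or.inr ⟨htL, htD⟩
  have hWc : W.card ≤ S.card + (L \ D).card :=
    (Finset.card_le_card hWsub).trans ((Finset.card_le_card (Finset.erase_subset _ _)).trans
      (Finset.card_union_le _ _))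
  have hNN : NN G K D = (hubs G K D).card + S.card := rfl
  refine ⟨l1, hp.ear hux hwy.symm, by omega, ?_, ?_, ?_⟩
  · by_cases hc : L ⊆ insert x (insert y (D \ S))
    · have := hl1 hc
      omega
    · have := hl2 hc
      omega
  · intro hLD' hSn
    have hSp := hSn.card_pos
    have h0 : (L \ D).card = 0 := by rw [hLD']; simp
    by_cases hc : L ⊆ insert x (insert y (D \ S))
    · have := hl1 hc
      omega
    · have := hl2 hc
      omega
  · intro hLD' hS2 hcl1
    have hxS : x ∈ S := by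
      rw [hS, eb1_mem_ctrs]
      refine ⟨hxD, u, hu, ?_⟩
      obtain ⟨t, ht⟩ := Finset.card_eq_one.1 hcl1
      rw [ht] at hx
      rw [ht, Finset.mem_singleton.1 hx]
    have hWc' : W.card + 1 ≤ S.card := by
      have h4 : W ⊆ S.erase x := by
        refine hWsub.trans ?_
        rw [hLD']
        simp
      have := Finset.card_le_card h4
      rw [Finset.card_erase_of_mem hxS] at this
      omega
    by_cases hc : L ⊆ insert x (insert y (D \ S))
    · have := hl1 hc
      omega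
    · have := hl2 hc
      omega

end Pool.Agent.BND
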