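import Pool.Agent.BND.EB1

/-!
# BND-EB : lower bounds for the lengths of ears

Throughout: `K` is the vertex set of the cycle, `D` a set disjoint from `K`, `L ⊇ D` a set disjoint
from `K` with `|L \ D| ≤ 1` (`L = D`, or `L = D ∪ {b}`), every neighbour of a vertex of `D` is in
`L ∪ K`, every vertex of `D` has degree at least `d`, `L` is `Bic`.

Let `h = |hubs G K D|`, `κ = |ctrs G K D|`, `NN = h + κ`, `S = ctrs G K D`.
Key fact: if `y ∈ D` is not a centre then all its neighbours in `K` are hubs (a neighbour `u ∈ K` of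
`y` has `y ∈ att G D u`; if `u` is not a hub then `att G D u = {y}` and `y` is a centre).  So `y` has
at least `d - h` neighbours in `L` (lemma `deg_nonctr`).

`ear_gen`.  Let `u, w ∈ K`, `Ind G D u w`: `x ∈ att G D u`, `y ∈ att G D w`, `x ≠ y`.
Suppose `D ⊄ S`.  Apply `eg` in `L` with `a = x`, `b = y`, `M = D \ S ≠ ∅`, `R = d - h`
(natural subtraction is harmless).
`W = L \ (M ∪ {x, y}) = (S ∪ (L \ D)) \ {x, y}`.
We get a path `l` from `x` to `y` in `L`; if `W = ∅`, `|l| ≥ d - h + 1 ≥ d - NN + 1`; if `W ≠ ∅`,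
`|l| ≥ d - h + 2 - |W| ≥ d - h + 2 - (κ + 1) = d - NN + 1`.
So in all cases `d + 1 ≤ |l| + NN`.  If `L = D` and `κ ≥ 1`: if `W = S \ {x,y} = ∅` then
`|l| + NN ≥ d + 1 + κ ≥ d + 2`; if `W ≠ ∅`, `|l| + NN ≥ d + 2 + (κ - |W|) ≥ d + 2`.
If `L = D`, `κ ≥ 2` and `u` is a clone (`|att G D u| = 1`, so `x` is a centre): if `W = ∅`,
`|l| + NN ≥ d + 1 + κ ≥ d + 3`; if `W ≠ ∅`, then `|W| ≤ κ - 1` and `|l| + NN ≥ d + 3`.
`l` is an ear from `u` to `w`.  Also `Bic.long_pth` gives a path with at least three vertices from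
`x` to `y`; take the longer one of the two.

`out_gen`.  `L = insert b D`, `b ∉ D`, `b ∉ K`, `u ∈ TT G K D` with `x ∈ att G D u`. Apply `eg` in `L`
with `a = x`, the other end `b`, `M = D \ S`, `R = d - h`; `W = S \ {x}` (as `b` is an end).
If `W = ∅`: `|l| ≥ d - h + 1`; if `W ≠ ∅`: `|l| ≥ d - h + 2 - κ = d - NN + 2`. So
`|l| ≥ d - NN + 1` in all cases. Remove the last vertex `b`: `Q` with `|Q| ≥ d - NN`, and `|Q| ≥ 2` if
the long path of `Bic.long_pth` is used (again take the longer one).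
`Q` is an `Ear` from `u` to `b` through `D`.

`via_gen`.  `L = D`, `Bic D`; `u, z, w ∈ K` pairwise `Ind`, `D ⊄ S`.
 (a) `z` a hub: `L' = insert z D` is `Bic` (`Bic.insert`). `y ∈ D \ S` has at least `d - (h - 1)`
 neighbours in `L'`, i.e. `≥ d - h + 1` (its neighbours in `K \ {z}` are in `hubs \ {z}`; careful with
 natural subtraction: `d + 1 ≤ h + #(nbrs in L')`).  Apply `eg` in `L'` from `x` to `y'` (`x ∈ att u`,
 `y' ∈ att w`, `x ≠ y'`), `M = D \ S`, `R = d - h + 1` (`R + h = d + 1` if `h ≤ d`, if `h > d + 1` take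
 `R = 0`; simply `R := d + 1 - h`).  `W = (S \ {x, y'}) ∪ {z} ≠ ∅`, `|W| ≤ κ + 1`, and `|W| ≤ κ` if `u` is
 a clone (`x ∈ S`).  `|l| ≥ R + 2 - |W| ≥ d + 3 - h - κ - 1 = d + 2 - NN`, and one more if `u` is a clone.
 `l` is a `Via` path: all its vertices are in `D ∪ {z}`, and the first and the last are in `D`.
 (b) `z` is a clone: `att G D z = {s'}`, so `κ ≥ 1`, and `ear_gen` gives an ear `I` with
 `d + 2 ≤ |I| + NN`; if `u` is a clone, `att G D u = {x}`, `x ≠ s'` (since `Ind G D u z`), so `κ ≥ 2`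
 and `d + 3 ≤ |I| + NN`.  Use `Ear.via`.
-/

set_option autoImplicit false
set_option linter.unusedSectionVars false

namespace Pool.Agent.BND

open Classical

variable {V : Type} [Fintype V] {G : SimpleGraph V} {K L D : Finset V} {d : ℕ}

theorem eb2_mem_att {u x : V} : x ∈ att G D u ↔ x ∈ D ∧ G.Adj u x := by
  simp [att]

/-- removing the last vertex `b` of a path in `insert b D` -/
theorem eb2_dropLast {b x : V} {l : List V} (h : Pth G (insert b D) x b l) (hxb : x ≠ b) :
    ∃ Q y, l = Q ++ [b] ∧ Pth G D x y Q ∧ G.Adj y b := by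
  obtain ⟨hh, hl, hnd, hch, hsub⟩ := h
  have hne : l ≠ [] := by
    rintro rfl
    simp at hh
  obtain ⟨Q, hQ⟩ : ∃ Q, l = Q ++ [b] := by
    refine ⟨l.dropLast, ?_⟩
    have h1 := List.dropLast_append_getLast? b hl
    exact h1.symm
  subst hQ
  have hQne : Q ≠ [] := by
    rintro rfl
    simp at hh
    exact hxb hh.symm
  obtain ⟨y, hy⟩ : ∃ y, Q.getLast? = some y := by
    exact ⟨Q.getLast hQne, List.getLast?_eq_some_getLast hQne⟩
  rw [List.nodup_append] at hnd
  rw [List.isChain_append] at hch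
  refine ⟨Q, y, rfl, ⟨?_, hy, hnd.1, hch.1, ?_⟩, ?_⟩
  · rw [List.head?_append_of_ne_nil _ hQne] at hh
    exact hh
  · intro z hz
    have h1 := hsub z (by simp [hz])
    rcases Finset.mem_insert.1 h1 with h2 | h2
    · exfalso
      exact hnd.2.2 z hz b (by simp) h2
    · exact h2
  · exact hch.2.2 y hy b (by simp)

theorem out_gen {b : V} (hb : b ∉ D) (hbK : b ∉ K) (hDK : Disjoint D K)
    (hcl : ∀ x ∈ D, ∀ y, G.Adj x y → y ∈ insert b D ∨ y ∈ K)
    (hdeg : ∀ x ∈ D, d ≤ (nb G x).card) (hB : Bic G (insert b D)) (h2 : 2 ≤ D.card)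
    (hnc : ¬ D ⊆ ctrs G K D) {u : V} (hu : u ∈ TT G K D) :
    ∃ Q, Ear G D u b Q ∧ 2 ≤ Q.length ∧ d ≤ Q.length + NN G K D := by
  have hLK : Disjoint (insert b D) K := by
    rw [Finset.disjoint_insert_left]
    exact ⟨hbK, hDK⟩
  have hDL : D ⊆ insert b D := Finset.subset_insert _ _
  have hu2 : (att G D u).Nonempty := by
    have : u ∈ K ∧ (att G D u).Nonempty := by simpa [TT] using hu
    exact this.2
  obtain ⟨x, hx⟩ := hu2
  obtain ⟨hxD, hux⟩ := eb2_mem_att.1 hx
  have hxb : x ≠ b := fun h => hb (h ▸ hxD)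
  set S := ctrs G K D with hS
  have hM : (D \ S).Nonempty := by
    rw [Finset.sdiff_nonempty]
    exact hnc
  have hR : ∀ z ∈ D \ S,
      d - (hubs G K D).card ≤ ((insert b D).filter (fun t => G.Adj z t)).card := by
    intro z hz
    rw [Finset.mem_sdiff] at hz
    have h1 := deg_nonctr (K := K) hLK hDL hcl hz.1 (by rw [← hS]; exact hz.2)
    have h2 := hdeg z hz.1
    omega
  have h3 : 3 ≤ (insert b D).card := by
    rw [Finset.card_insert_of_notMem hb]
    omega
  obtain ⟨l, hl, hl1, hl2⟩ := eg hB (hDL hxD) (Finset.mem_insert_self b D) hxb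
    (Finset.sdiff_subset.trans hDL) hM hR
  obtain ⟨l0, hl0, hl03⟩ := hB.long_pth h3 (hDL hxD) (Finset.mem_insert_self b D) hxb
  have hWc : ((insert b D) \ insert x (insert b (D \ S))).card ≤ S.card := by
    refine Finset.card_le_card ?_
    intro t ht
    rw [Finset.mem_sdiff, Finset.mem_insert, Finset.mem_insert, Finset.mem_insert,
      Finset.mem_sdiff] at ht
    push Not at ht
    obtain ⟨htL, htx, htb, ht⟩ := ht
    rcases htL with h | h
    · exact absurd h htb
    · exact ht h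
  have hNN : NN G K D = (hubs G K D).card + S.card := rfl
  have hlen : d + 1 ≤ l.length + NN G K D := by
    by_cases hc : (insert b D) ⊆ insert x (insert b (D \ S))
    · have := hl1 hc
      omega
    · have := hl2 hc
      omega
  obtain ⟨l1, hp, h1a, h1b⟩ : ∃ l1, Pth G (insert b D) x b l1 ∧ l.length ≤ l1.length ∧
      l0.length ≤ l1.length := by
    rcases le_total l.length l0.length with h1 | h1
    · exact ⟨l0, hl0, h1, le_rfl⟩
    · exact ⟨l, hl, le_rfl, h1⟩
  obtain ⟨Q, y, rfl, hQ, hyb⟩ := eb2_dropLast hp hxb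
  have hQl : (Q ++ [b]).length = Q.length + 1 := by simp
  refine ⟨Q, hQ.ear hux hyb, by omega, by omega⟩

end Pool.Agent.BND
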