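import Pool.Agent.BND.EGDefs

/-!
# BND-EG1 : the base case and `Bic → HH`

`eg_base`: `S` is `Bic`, `a ≠ b` in `S`, and `a` or `b` has at least `R` neighbours in `S`.  Then
with `M ⊆ {a, b}` the conclusion holds.  Proof: if `S = {a, b}` then `R ≤ 1` and `S` connected gives
the edge `ab` (path with 2 vertices).  Otherwise `|S \ {a,b}| = |S| - 2 ≥ 1` and `R ≤ |S| - 1`,
and `Bic.long_pth` gives a path with at least 3 vertices: `R + 2 ≤ 3 + (|S| - 2)`.

`eg_base'` is the same statement for a general `M` containing `a` or `b` but nothing else of `S`.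
-/

set_option autoImplicit false
set_option linter.unusedSectionVars false

namespace Pool.Agent.BND

open Classical

variable {V : Type} [Fintype V] {F : SimpleGraph V} {S M : Finset V} {a b : V} {R : ℕ}

theorem Bic.hh (h : Bic F S) (ha : a ∈ S) (hb : b ∈ S) (hab : a ≠ b) : HH F S a b where
  ha := ha
  hb := hb
  ab := hab
  ca := h.2.2 a ha
  cb := h.2.2 b hb
  cz := fun z hz hza _ q hq hqz => Or.inl
    ((h.2.2 z hz).2 q (Finset.mem_erase.2 ⟨hqz, hq⟩) a (Finset.mem_erase.2 ⟨hza.symm, ha⟩))

theorem eg1_two {G : SimpleGraph V} {x y : V} {l : List V} (h : Pth G S x y l) (hxy : x ≠ y) :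
    2 ≤ l.length := by
  rcases l with _ | ⟨p, _ | ⟨q, t⟩⟩
  · have := h.head
    simp at this
  · have h1 := h.head
    have h2 := h.last
    simp at h1 h2
    exact absurd (h1.symm.trans h2) hxy
  · simp

theorem eg_base (h : Bic F S) (ha : a ∈ S) (hb : b ∈ S) (hab : a ≠ b)
    (hM : ∀ y ∈ M, y = a ∨ y = b) {y : V} (hy : y ∈ S)
    (hyab : y = a ∨ y = b) (hR : R ≤ (S.filter (fun z => F.Adj y z)).card) :
    EGc F S a b M R := by
  have hMab : insert a (insert b M) = {a, b} := by
    ext z
    simp only [Finset.mem_insert, Finset.mem_singleton]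
    constructor
    · rintro (h1 | h1 | h1)
      · exact Or.inl h1
      · exact Or.inr h1
      · exact hM z h1
    · rintro (h1 | h1)
      · exact Or.inl h1
      · exact Or.inr (Or.inl h1)
  have hR1 : R ≤ S.card - 1 := by
    refine hR.trans ?_
    rw [← Finset.card_erase_of_mem hy]
    apply Finset.card_le_card
    intro z hz
    rw [Finset.mem_filter] at hz
    exact Finset.mem_erase.2 ⟨hz.2.ne', hz.1⟩
  have hsub : ({a, b} : Finset V) ⊆ S := by
    intro z hz
    rw [Finset.mem_insert, Finset.mem_singleton] at hz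
    rcases hz with rfl | rfl
    · exact ha
    · exact hb
  have hcard : (S \ {a, b}).card + 2 = S.card := by
    have h1 := Finset.card_sdiff_add_card_eq_card hsub
    rw [Finset.card_pair hab] at h1
    exact h1
  unfold EGc
  rw [hMab]
  by_cases h3 : 3 ≤ S.card
  · obtain ⟨l, hl, hl3⟩ := h.long_pth h3 ha hb hab
    refine ⟨l, hl, ?_, ?_⟩
    · intro hS
      have := Finset.card_le_card hS
      rw [Finset.card_pair hab] at this
      omega
    · intro _
      omega
  · have h2 := h.1
    obtain ⟨l, hl⟩ := h.2.1.2 a ha b hb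
    have hl2 := eg1_two hl hab
    refine ⟨l, hl, fun _ => by omega, ?_⟩
    intro hS
    exfalso
    apply hS
    have h4 : ({a, b} : Finset V) = S := by
      apply Finset.eq_of_subset_of_card_le hsub
      rw [Finset.card_pair hab]
      omega
    rw [h4]

end Pool.Agent.BND
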