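import Pool.Agent.BND.EGDefs

/-!
# BND-EG2 : reduction to a proper side piece

Let `HH F S a b` and let `(l, X)` be a proper side piece (`SidePiece F S a b M l X`):
`X` is a component of `S \ {a, l}`, `b ∉ X`, `X ∩ M ≠ ∅`, `S' := X ∪ {a, l} ≠ S`.
(`l = b` is allowed.)  Then `HH F S' a l` holds, `|S'| < |S|`, and the lemma for `(F, S', a, l)` with
`M' := X ∩ M` and the same `R` implies the conclusion for `(F, S, a, b, M, R)`.

Proof.
* neighbours in `S` of a vertex of `X` are in `X ∪ {a, l}`.
* `S' - a = X ∪ {l}` is connected: `X` is connected, and since `S - a` is connected and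
  `X ⊊ S - a` (it misses `l`), some edge of `S - a` leaves `X`; it must go to `l`.
* `S' - l = X ∪ {a}` is connected: some vertex of `X` is adjacent to `a`.  If `l = b` this is
  because `S - b` is connected, contains `a`, so some edge of `S - b` leaves `X`, it goes to `a`.
  If `l ≠ b`: take `q ∈ X`; by `cz` (with `z = l`) there is a path in `S - l` from `q` to `a` or to
  `b`; it leaves `X` (neither `a` nor `b` is in `X`), the first edge leaving `X` goes to `a`.
* for `z ∈ X` and `q ∈ S' - z`, `q ≠ a, l`: `q ∈ X`; by `cz` for `S` there is a path in `S - z` from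
  `q` to `a` or `b`; cut it at its first vertex outside `X` (the part before is in `X - z`): this
  vertex is `a` or `l`.  So we get a path in `S' - z` from `q` to `a` or `l`.  (`z ≠ b` as `b ∉ X`.
  If the path ends at `b` then it does leave `X` as `b ∉ X`.)
* degrees: for `y ∈ M' = X ∩ M`, all neighbours of `y` in `S` are in `S'`.
* Let `L'` be the path from `a` to `l` in `S'` given by the lemma, `W' = S' \ (M' ∪ {a, l}) = X \ M`.
  If `l = b` put `L = L'`; otherwise there is a path from `l` to `b` in `S - a` (connected), and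
  it avoids `X` (a path starting at `l` that enters `X` can never leave `X` again since it would have
  to use `l` or `a`), append it to `L'`.  The new path has at least as many vertices.
  With `W = S \ (M ∪ {a, b})` we have `W' = X \ M ⊆ W` (`a, b ∉ X`).
  If `W' ≠ ∅` then `W ≠ ∅` and `R + 2 ≤ |L'| + |W'| ≤ |L| + |W|`.
  If `W' = ∅` then `R + 1 ≤ |L'| ≤ |L|`; if `W ≠ ∅` then `R + 2 ≤ |L| + |W|` too.
-/

set_option autoImplicit false
set_option linter.unusedSectionVars false

namespace Pool.Agent.BND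

open Classical

variable {V : Type} [Fintype V] {F : SimpleGraph V} {S M X : Finset V} {a b l : V} {R : ℕ}

/-- the basic facts about a side piece -/
theorem eg2a_basic (hX : SidePiece F S a b M l X) :
    X ⊆ S ∧ a ∉ X ∧ l ∉ X ∧ Conn F X ∧
      (∀ x ∈ X, ∀ y ∈ S, F.Adj x y → y ∈ X ∨ y = a ∨ y = l) := by
  obtain ⟨hl, hla, ⟨hXS, hXc, hXcl⟩, hbX, hXM, hne⟩ := hX
  refine ⟨?_, ?_, ?_, hXc, ?_⟩
  · intro x hx
    exact Finset.mem_of_mem_erase (Finset.mem_of_mem_erase (hXS hx))
  · intro h
    have h1 := Finset.mem_of_mem_erase (hXS h)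
    exact (Finset.mem_erase.1 h1).1 rfl
  · intro h
    exact (Finset.mem_erase.1 (hXS h)).1 rfl
  · intro x hx y hy hxy
    by_cases h1 : y = a
    · exact Or.inr (Or.inl h1)
    · by_cases h2 : y = l
      · exact Or.inr (Or.inr h2)
      · exact Or.inl (hXcl x hx y (Finset.mem_erase.2 ⟨h2, Finset.mem_erase.2 ⟨h1, hy⟩⟩) hxy)

/-- some vertex of the side piece is adjacent to `l` -/
theorem eg2a_adj_l (h : HH F S a b) (hX : SidePiece F S a b M l X) : ∃ x ∈ X, F.Adj l x := by
  obtain ⟨hXS, haX, hlX, hXc, hcl⟩ := eg2a_basic hX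
  obtain ⟨hl, hla, -, hbX, hXM, hne⟩ := hX
  have hsub : X ⊆ S.erase a := fun x hx =>
    Finset.mem_erase.2 ⟨fun h1 => haX (h1 ▸ hx), hXS hx⟩
  have hlS : l ∈ S.erase a := Finset.mem_erase.2 ⟨hla, hl⟩
  obtain ⟨p, hp, q, hq, hqX, hpq⟩ := h.ca.exists_edge hsub hXc.1
    (fun h1 => hlX (h1 ▸ hlS))
  rcases hcl p hp q (Finset.mem_of_mem_erase hq) hpq with h1 | h1 | h1
  · exact absurd h1 hqX
  · exact absurd h1 (Finset.mem_erase.1 hq).1
  · exact ⟨p, hp, h1 ▸ hpq.symm⟩

/-- some vertex of the side piece is adjacent to `a` -/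
theorem eg2a_adj_a (h : HH F S a b) (hX : SidePiece F S a b M l X) : ∃ x ∈ X, F.Adj a x := by
  obtain ⟨hXS, haX, hlX, hXc, hcl⟩ := eg2a_basic hX
  obtain ⟨hl, hla, -, hbX, hXM, hne⟩ := hX
  by_cases hlb : l = b
  · have hsub : X ⊆ S.erase b := fun x hx =>
      Finset.mem_erase.2 ⟨fun h1 => hbX (h1 ▸ hx), hXS hx⟩
    have haS : a ∈ S.erase b := Finset.mem_erase.2 ⟨h.ab, h.ha⟩
    obtain ⟨p, hp, q, hq, hqX, hpq⟩ := h.cb.exists_edge hsub hXc.1
      (fun h1 => haX (h1 ▸ haS))
    rcases hcl p hp q (Finset.mem_of_mem_erase hq) hpq with h1 | h1 | h1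
    · exact absurd h1 hqX
    · exact ⟨p, hp, h1 ▸ hpq.symm⟩
    · exact absurd (h1.trans hlb) (Finset.mem_erase.1 hq).1
  · obtain ⟨q0, hq0⟩ := hXc.1
    have key : ∀ (e : V) (L : List V), e ∉ X → Pth F (S.erase l) q0 e L →
        ∃ x ∈ X, F.Adj a x := by
      intro e L he hL
      obtain ⟨p, hp, q, hq, hpX, hqX, hpq⟩ := hL.cross X hq0 he
      have hqS := hL.sub q hq
      rcases hcl p hpX q (Finset.mem_of_mem_erase hqS) hpq with h1 | h1 | h1
      · exact absurd h1 hqX
      · exact ⟨p, hpX, h1 ▸ hpq.symm⟩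
      · exact absurd h1 (Finset.mem_erase.1 hqS).1
    rcases h.cz l hl hla hlb q0 (hXS hq0) (fun h1 => hlX (h1 ▸ hq0)) with ⟨L, hL⟩ | ⟨L, hL⟩
    · exact key a L haX hL
    · exact key b L hbX hL

theorem side_hh (h : HH F S a b) (hX : SidePiece F S a b M l X) :
    HH F (insert a (insert l X)) a l := by
  obtain ⟨hXS, haX, hlX, hXc, hcl⟩ := eg2a_basic hX
  obtain ⟨x1, hx1, hlx1⟩ := eg2a_adj_l h hX
  obtain ⟨x2, hx2, hax2⟩ := eg2a_adj_a h hX
  obtain ⟨hl, hla, -, hbX, hXM, hne⟩ := hX
  refine ⟨by simp, by simp, hla.symm, ?_, ?_, ?_⟩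
  · have h1 : (insert a (insert l X)).erase a = insert l X := by
      apply Finset.erase_insert
      simp [hla.symm, haX]
    rw [h1]
    exact hXc.insert hx1 hlx1
  · have h1 : (insert a (insert l X)).erase l = insert a X := by
      rw [Finset.insert_comm]
      apply Finset.erase_insert
      simp [hla, hlX]
    rw [h1]
    exact hXc.insert hx2 hax2
  · intro z hz hza hzl q hq hqz
    have hzX : z ∈ X := by
      rw [Finset.mem_insert, Finset.mem_insert] at hz
      rcases hz with h1 | h1 | h1
      · exact absurd h1 hza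
      · exact absurd h1 hzl
      · exact h1
    rw [Finset.mem_insert, Finset.mem_insert] at hq
    rcases hq with rfl | rfl | hqX
    · exact Or.inl ⟨_, pth_self (Finset.mem_erase.2 ⟨hza.symm, by simp⟩)⟩
    · exact Or.inr ⟨_, pth_self (Finset.mem_erase.2 ⟨hzl.symm, by simp⟩)⟩
    · have hzb : z ≠ b := fun h1 => hbX (h1 ▸ hzX)
      have key : ∀ (e : V) (P : List V), e ∉ X → Pth F (S.erase z) q e P →
          (∃ l', Pth F ((insert a (insert l X)).erase z) q a l') ∨
            (∃ l', Pth F ((insert a (insert l X)).erase z) q l l') := by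
        intro e P he hP
        obtain ⟨z1, l1, l2, hPl, hz1, hl1, hp1, hp2⟩ := hP.first_hit Xᶜ
          ⟨e, hP.mem_right, Finset.mem_compl.2 he⟩
        have hz1X : z1 ∉ X := Finset.mem_compl.1 hz1
        have hl1X : ∀ r ∈ l1, r ∈ X := fun r hr => by
          have := hl1 r hr
          rwa [Finset.mem_compl, not_not] at this
        obtain ⟨p, hp, r, hr, hpX, hrX, hpr⟩ := hp1.cross X hqX hz1X
        have hrz : r = z1 := by
          rw [List.mem_append, List.mem_singleton] at hr
          rcases hr with h1 | h1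
          · exact absurd (hl1X r h1) hrX
          · exact h1
        have hrS := hp1.sub r hr
        have hz1' : z1 = a ∨ z1 = l := by
          rcases hcl p hpX r (Finset.mem_of_mem_erase hrS) hpr with h1 | h1 | h1
          · exact absurd h1 hrX
          · exact Or.inl (hrz ▸ h1)
          · exact Or.inr (hrz ▸ h1)
        have hp3 : Pth F ((insert a (insert l X)).erase z) q z1 (l1 ++ [z1]) := by
          apply hp1.mono
          intro r' hr'
          refine Finset.mem_erase.2 ⟨(Finset.mem_erase.1 (hp1.sub r' hr')).1, ?_⟩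
          rw [List.mem_append, List.mem_singleton] at hr'
          rcases hr' with h1 | h1
          · simp [hl1X r' h1]
          · rw [h1]
            rcases hz1' with h2 | h2 <;> simp [h2]
        rcases hz1' with h2 | h2
        · rw [h2] at hp3
          exact Or.inl ⟨_, hp3⟩
        · rw [h2] at hp3
          exact Or.inr ⟨_, hp3⟩
      rcases h.cz z (hXS hzX) hza hzb q (hXS hqX) hqz with ⟨P, hP⟩ | ⟨P, hP⟩
      · exact key a P haX hP
      · exact key b P hbX hP

end Pool.Agent.BND
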