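import Pool.Agent.BND.EG2a

/-!
# BND-EG2 : reduction to a proper side piece

Let `HH F S a b` and let `(l, X)` be a proper side piece (`SidePiece F S a b M l X`):
`X` is a component of `S \ {a, l}`, `b ∉ X`, `X ∩ M ≠ ∅`, `S' := X ∪ {a, l} ≠ S`.
(`l = b` is allowed.)  Then `HH F S' a l` holds, `|S'| < |S|`, and the lemma for `(F, S', a, l)` with
`M' := X ∩ M` and the same `R` implies the conclusion for `(F, S, a, b, M, R)`.

Proof.
* neighbours in `S` of a vertex of `X` are in `X ∪ {a, l}`.
* `S' - a = X ∪ {l}` is connected: `X` is connected, and since `S - a` is connected and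
  `X ⊊ S - a` (it misses `l`), some edge of `S - a` leaves `X`; it must go to `l`.
* `S' - l = X ∪ {a}` is connected: some vertex of `X` is adjacent to `a`.  If `l = b` this is
  because `S - b` is connected, contains `a`, so some edge of `S - b` leaves `X`, it goes to `a`.
  If `l ≠ b`: take `q ∈ X`; by `cz` (with `z = l`) there is a path in `S - l` from `q` to `a` or to
  `b`; it leaves `X` (neither `a` nor `b` is in `X`), the first edge leaving `X` goes to `a`.
* for `z ∈ X` and `q ∈ S' - z`, `q ≠ a, l`: `q ∈ X`; by `cz` for `S` there is a path in `S - z` from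
  `q` to `a` or `b`; cut it at its first vertex outside `X` (the part before is in `X - z`): this
  vertex is `a` or `l`.  So we get a path in `S' - z` from `q` to `a` or `l`.  (`z ≠ b` as `b ∉ X`.
  If the path ends at `b` then it does leave `X` as `b ∉ X`.)
* degrees: for `y ∈ M' = X ∩ M`, all neighbours of `y` in `S` are in `S'`.
* Let `L'` be the path from `a` to `l` in `S'` given by the lemma, `W' = S' \ (M' ∪ {a, l}) = X \ M`.
  If `l = b` put `L = L'`; otherwise there is a path from `l` to `b` in `S - a` (connected), and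
  it avoids `X` (a path starting at `l` that enters `X` can never leave `X` again since it would have
  to use `l` or `a`), append it to `L'`.  The new path has at least as many vertices.
  With `W = S \ (M ∪ {a, b})` we have `W' = X \ M ⊆ W` (`a, b ∉ X`).
  If `W' ≠ ∅` then `W ≠ ∅` and `R + 2 ≤ |L'| + |W'| ≤ |L| + |W|`.
  If `W' = ∅` then `R + 1 ≤ |L'| ≤ |L|`; if `W ≠ ∅` then `R + 2 ≤ |L| + |W|` too.
-/

set_option autoImplicit false
set_option linter.unusedSectionVars false

namespace Pool.Agent.BND

open Classical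

variable {V : Type} [Fintype V] {F : SimpleGraph V} {S M X : Finset V} {a b l : V} {R : ℕ}

theorem side_step (h : HH F S a b) (hX : SidePiece F S a b M l X) (hMS : M ⊆ S) (ha : a ∉ M)
    (hb : b ∉ M) (hR : ∀ y ∈ M, R ≤ (S.filter (fun z => F.Adj y z)).card)
    (hih : EGih V S.card) : EGc F S a b M R := by
  have hHH := side_hh h hX
  obtain ⟨hXS, haX, hlX, hXc, hcl⟩ := eg2a_basic hX
  obtain ⟨hl, hla, hcomp, hbX, hXM, hne⟩ := hX
  have hS' : insert a (insert l X) ⊆ S := by
    intro x hx
    rw [Finset.mem_insert, Finset.mem_insert] at hx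
    rcases hx with rfl | rfl | hx
    · exact h.ha
    · exact hl
    · exact hXS hx
  have hlt : (insert a (insert l X)).card < S.card :=
    Finset.card_lt_card (Finset.ssubset_iff_subset_ne.2 ⟨hS', hne⟩)
  obtain ⟨L', hL', hL1, hL2⟩ := hih F (insert a (insert l X)) a l hlt hHH (X ∩ M) R
    (fun x hx => by
      simp [(Finset.mem_inter.1 hx).1])
    (fun h1 => haX (Finset.mem_inter.1 h1).1) (fun h1 => hlX (Finset.mem_inter.1 h1).1) hXM
    (by
      intro y hy
      obtain ⟨hyX, hyM⟩ := Finset.mem_inter.1 hy
      refine (hR y hyM).trans (Finset.card_le_card ?_)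
      intro z hz
      rw [Finset.mem_filter] at hz ⊢
      refine ⟨?_, hz.2⟩
      rcases hcl y hyX z hz.1 hz.2 with h1 | h1 | h1 <;> simp [h1])
  -- the new path
  obtain ⟨L, hL, hLL⟩ : ∃ L, Pth F S a b L ∧ L'.length ≤ L.length := by
    by_cases hlb : l = b
    · refine ⟨L', ?_, le_rfl⟩
      rw [← hlb]
      exact hL'.mono fun z hz => hS' (hL'.sub z hz)
    · obtain ⟨Q, hQ⟩ := h.ca.2 l (Finset.mem_erase.2 ⟨hla, hl⟩) b
        (Finset.mem_erase.2 ⟨h.ab.symm, h.hb⟩)
      have h2 := hQ.two_le hlb
      obtain ⟨w, t, rfl⟩ : ∃ w t, Q = l :: w :: t := by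
        have h3 := hQ.head
        match Q, h2, h3 with
        | _ :: w :: t, _, h3 =>
          rw [List.head?_cons, Option.some.injEq] at h3
          exact ⟨w, t, by rw [h3]⟩
      obtain ⟨hadj, hnl, hT⟩ := hQ.tail
      have hT' : Pth F ((S.erase a).erase l) w b (w :: t) :=
        hT.mono fun z hz => Finset.mem_erase.2 ⟨fun h3 => hnl (h3 ▸ hz), hT.sub z hz⟩
      have hTX : ∀ q ∈ w :: t, q ∉ X := by
        intro q hq hqX
        obtain ⟨l1, l2, -, -, hs2⟩ := hT'.split hq
        exact hbX (hcomp.pth_sub hs2 hqX).right_mem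
      refine ⟨L' ++ (w :: t), pth_append (hL'.mono fun z hz => hS' (hL'.sub z hz))
        (hT.mono fun z hz => Finset.mem_of_mem_erase (hT.sub z hz)) hadj ?_, ?_⟩
      · intro q hq hqt
        have h3 := hL'.sub q hq
        rw [Finset.mem_insert, Finset.mem_insert] at h3
        rcases h3 with h4 | h4 | h4
        · exact (Finset.mem_erase.1 (hT.sub q hqt)).1 h4
        · exact hnl (h4 ▸ hqt)
        · exact hTX q hqt h4
      · rw [List.length_append]
        omega
  -- the exceptional sets
  have hW : insert a (insert l X) \ insert a (insert l (X ∩ M)) ⊆ S \ insert a (insert b M) := by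
    intro w hw
    rw [Finset.mem_sdiff, Finset.mem_insert, Finset.mem_insert, Finset.mem_insert,
      Finset.mem_insert, Finset.mem_inter] at hw
    obtain ⟨hw1, hw2⟩ := hw
    have hwa : w ≠ a := fun h3 => hw2 (Or.inl h3)
    have hwl : w ≠ l := fun h3 => hw2 (Or.inr (Or.inl h3))
    have hwX : w ∈ X := by
      rcases hw1 with h3 | h3 | h3
      · exact absurd h3 hwa
      · exact absurd h3 hwl
      · exact h3
    have hwM : w ∉ M := fun h3 => hw2 (Or.inr (Or.inr ⟨hwX, h3⟩))
    rw [Finset.mem_sdiff, Finset.mem_insert, Finset.mem_insert]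
    refine ⟨hXS hwX, ?_⟩
    rintro (h3 | h3 | h3)
    · exact hwa h3
    · exact hbX (h3 ▸ hwX)
    · exact hwM h3
  refine ⟨L, hL, ?_, ?_⟩
  · intro hsub
    have h3 : insert a (insert l X) ⊆ insert a (insert l (X ∩ M)) := by
      rw [← Finset.sdiff_eq_empty_iff_subset] at hsub ⊢
      rw [hsub, Finset.subset_empty] at hW
      exact hW
    exact (hL1 h3).trans hLL
  · intro hsub
    by_cases h3 : insert a (insert l X) ⊆ insert a (insert l (X ∩ M))
    · have h4 := hL1 h3
      have h5 : 0 < (S \ insert a (insert b M)).card := by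
        rw [Finset.card_pos, Finset.nonempty_iff_ne_empty, Ne,
          Finset.sdiff_eq_empty_iff_subset]
        exact hsub
      omega
    · have h4 := hL2 h3
      have h5 := Finset.card_le_card hW
      omega

end Pool.Agent.BND
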