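import Pool.Agent.BND.EGDefs

/-!
# BND-EG3 : removing a pendant part that is not all of `W`

Let `HH F S a b`, `M ⊆ S \ {a, b}`, `M ≠ ∅`, and let `(z, D)` be a pendant part:
`D` is a component of `S \ {a, z}`, `b ∉ D`, `z ∈ S`, `z ≠ a, b`.  Suppose `D ∩ M = ∅`, and
that `W := S \ (M ∪ {a, b})` is not contained in `D` (`D ⊆ W` holds automatically).
Put `F' := F ⊔ (edge a z)` and `S' := S \ D`.  Then `HH F' S' a b`, `|S'| < |S|` and the lemma for
`(F', S', a, b)` with `M` and `R' := R - |D|` gives the conclusion for `(F, S, a, b, M, R)`.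

Proof.
* `D` is adjacent (in `F`) to `z`: `S - a` is connected and contains `z`.  `D` is adjacent to `a`: by
  `cz` for `z` and `q ∈ D` there is a path in `S - z` from `q` to `a` or `b`, which leaves `D`, and
  the neighbours in `S` of vertices of `D` are in `D ∪ {z, a}`.
* Path surgery: a path of `F` in `S` between two vertices of `S'` can be turned into a path of `F'`
  in `S'` between the same vertices using only vertices of the old path:  the path enters `D` from
  `a` or `z` and leaves `D` to the other one of `a`, `z` (being a path), so there is at most one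
  visit to `D`, replace it by the edge `az` of `F'`.  (Convenient formulation via the cut criterion:
  a nonempty set `Y ⊆ T'` closed under `F'`-neighbours in `T' = T \ D`; if `T` is one of `S - a`,
  `S - b` and `T` is connected in `F`, then `Y` or `Y ∪ D` is closed under `F`-neighbours in `T`.)
  Hence `S' - a` and `S' - b` are connected in `F'`, and `cz` holds: for `z' ∈ S'`, `z' ≠ a, b` and
  `q ∈ S' - z'`: if `z' ≠ z` use the surgery on the path of `cz` for `F`; if `z' = z`, cut the path of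
  `cz` at its first vertex in `{a, b}`: the part up to it avoids `D`, because from outside `D` one can
  enter `D` in `S - z` only from `a`.
* For `y ∈ M` the number of `F'`-neighbours in `S'` is at least `R - |D|`.
* `W' := S' \ (M ∪ {a, b}) = W \ D ≠ ∅`, so the lemma gives an `F'`-path `L'` from `a` to `b` in `S'`
  with `R - |D| + 2 ≤ |L'| + |W'|`, so `R + 2 ≤ |L'| + |W|` (as `|W| = |W'| + |D|`).
* If `L'` does not use the pair `a, z` consecutively then it is an `F`-path.  If it does then, since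
  `L'` starts at `a`, it starts `a, z, …`; replace the edge by a path `a → D → z` with at least one
  inner vertex, all inner vertices in `D`.  We get an `F`-path in `S` with at least as many vertices.
-/

set_option autoImplicit false
set_option linter.unusedSectionVars false

namespace Pool.Agent.BND

open Classical

variable {V : Type} [Fintype V] {F : SimpleGraph V} {S M D : Finset V} {a b z : V} {R : ℕ}

theorem addE_adj {a z x y : V} : (addE F a z).Adj x y ↔
    F.Adj x y ∨ (x ≠ y ∧ ((x = a ∧ y = z) ∨ (x = z ∧ y = a))) := by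
  unfold addE
  rw [SimpleGraph.sup_adj, SimpleGraph.fromEdgeSet_adj, Set.mem_singleton_iff, Sym2.eq_iff]
  tauto

theorem eg3a_pth_mono {F F' : SimpleGraph V} {S : Finset V} {x y : V} {l : List V}
    (hF : ∀ p q, F.Adj p q → F'.Adj p q) (h : Pth F S x y l) : Pth F' S x y l :=
  ⟨h.head, h.last, h.nodup, h.chain.imp (fun p q hpq => hF p q hpq), h.sub⟩

theorem eg3a_conn_mono {F F' : SimpleGraph V} {S : Finset V}
    (hF : ∀ p q, F.Adj p q → F'.Adj p q) (h : Conn F S) : Conn F' S := by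
  refine ⟨h.1, fun x hx y hy => ?_⟩
  obtain ⟨l, hl⟩ := h.2 x hx y hy
  exact ⟨l, eg3a_pth_mono hF hl⟩

theorem eg3a_mem {S D : Finset V} {a z x : V} (hD : D ⊆ (S.erase a).erase z) (hx : x ∈ D) :
    x ≠ z ∧ x ≠ a ∧ x ∈ S := by
  have h1 := hD hx
  rw [Finset.mem_erase, Finset.mem_erase] at h1
  exact h1

/-- neighbours in `S` of the pendant part -/
theorem eg3a_nbr (hD : Pend F S a b z D) {x y : V} (hx : x ∈ D) (hy : y ∈ S)
    (hxy : F.Adj x y) (hya : y ≠ a) (hyz : y ≠ z) : y ∈ D := by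
  obtain ⟨_, _, _, hc, _⟩ := hD
  exact hc.2.2 x hx y (Finset.mem_erase.2 ⟨hyz, Finset.mem_erase.2 ⟨hya, hy⟩⟩) hxy

theorem pend_adj_left (h : HH F S a b) (hD : Pend F S a b z D) : ∃ x ∈ D, F.Adj a x := by
  have hD' := hD
  obtain ⟨hz, hza, hzb, hc, hbD⟩ := hD
  obtain ⟨q, hq⟩ := hc.nonempty
  obtain ⟨hqz, hqa, hqS⟩ := eg3a_mem hc.1 hq
  have key : ∀ t, t ∉ D → (∃ l, Pth F (S.erase z) q t l) → ∃ x ∈ D, F.Adj a x := by
    rintro t ht ⟨l, hl⟩
    obtain ⟨x, _, y, hyl, hxD, hyD, hxy⟩ := hl.cross D hq ht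
    have hy := Finset.mem_erase.1 (hl.sub y hyl)
    by_cases hya : y = a
    · exact ⟨x, hxD, hya ▸ hxy.symm⟩
    · exact absurd (eg3a_nbr hD' hxD hy.2 hxy hya hy.1) hyD
  have haD : a ∉ D := fun haD => (eg3a_mem hc.1 haD).2.1 rfl
  rcases h.cz z hz hza hzb q hqS hqz with h1 | h1
  · exact key a haD h1
  · exact key b hbD h1

theorem pend_adj_right (h : HH F S a b) (hD : Pend F S a b z D) : ∃ x ∈ D, F.Adj x z := by
  have hD' := hD
  obtain ⟨hz, hza, hzb, hc, hbD⟩ := hD
  have hsub : D ⊆ S.erase a := fun x hx => (Finset.mem_erase.1 (hc.1 hx)).2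
  have hzD : z ∉ D := fun hzD => (eg3a_mem hc.1 hzD).1 rfl
  have hne : D ≠ S.erase a := by
    intro he
    exact hzD (he ▸ Finset.mem_erase.2 ⟨hza, hz⟩)
  obtain ⟨x, hx, y, hy, hyD, hxy⟩ := h.ca.exists_edge hsub hc.nonempty hne
  have hy' := Finset.mem_erase.1 hy
  by_cases hyz : y = z
  · exact ⟨x, hx, hyz ▸ hxy⟩
  · exact absurd (eg3a_nbr hD' hx hy'.2 hxy hy'.1 hyz) hyD

/-- a path from `a` to `z` through `D` with at least one inner vertex -/
theorem pend_pth (h : HH F S a b) (hD : Pend F S a b z D) :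
    ∃ I, Ear F D a z I := by
  obtain ⟨x, hx, hax⟩ := pend_adj_left h hD
  obtain ⟨y, hy, hyz⟩ := pend_adj_right h hD
  obtain ⟨l, hl⟩ := hD.2.2.2.1.2.1.2 x hx y hy
  exact ⟨l, hl.ear hax hyz⟩

theorem pend_hh (h : HH F S a b) (hD : Pend F S a b z D) :
    HH (addE F a z) (S \ D) a b := by
  have hD' := hD
  obtain ⟨hz, hza, hzb, hc, hbD⟩ := hD
  have haD : a ∉ D := fun haD => (eg3a_mem hc.1 haD).2.1 rfl
  have hzD : z ∉ D := fun hzD => (eg3a_mem hc.1 hzD).1 rfl
  have hle : ∀ p q, F.Adj p q → (addE F a z).Adj p q := fun p q hpq => addE_adj.2 (Or.inl hpq)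
  have haz : (addE F a z).Adj a z :=
    addE_adj.2 (Or.inr ⟨Ne.symm hza, Or.inl ⟨rfl, rfl⟩⟩)
  refine ⟨Finset.mem_sdiff.2 ⟨h.ha, haD⟩, Finset.mem_sdiff.2 ⟨h.hb, hbD⟩, h.ab, ?_, ?_, ?_⟩
  · have h1 := comp_conn_sdiff h.ca (Finset.mem_erase.2 ⟨hza, hz⟩) hc
    have h2 : (S \ D).erase a = S.erase a \ D := by
      ext x
      simp only [Finset.mem_erase, Finset.mem_sdiff]
      tauto
    rw [h2]
    exact eg3a_conn_mono hle h1
  · have hab : a ∈ (S \ D).erase b :=
      Finset.mem_erase.2 ⟨h.ab, Finset.mem_sdiff.2 ⟨h.ha, haD⟩⟩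
    have hzb' : z ∈ (S \ D).erase b :=
      Finset.mem_erase.2 ⟨hzb, Finset.mem_sdiff.2 ⟨hz, hzD⟩⟩
    apply conn_of_closed ⟨a, hab⟩
    intro Y hYS hYn hcl
    have hYD : ∀ y ∈ Y, y ∉ D := fun y hy =>
      (Finset.mem_sdiff.1 (Finset.mem_erase.1 (hYS hy)).2).2
    have hYS' : ∀ y ∈ Y, y ∈ S.erase b := fun y hy =>
      Finset.mem_erase.2 ⟨(Finset.mem_erase.1 (hYS hy)).1,
        (Finset.mem_sdiff.1 (Finset.mem_erase.1 (hYS hy)).2).1⟩
    by_cases haY : a ∈ Y
    · have hzY : z ∈ Y := hcl a haY z hzb' haz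
      have h1 : Y ∪ D = S.erase b := by
        apply h.cb.closed_eq
        · intro x hx
          rcases Finset.mem_union.1 hx with hx | hx
          · exact hYS' x hx
          · obtain ⟨_, _, h3⟩ := eg3a_mem hc.1 hx
            exact Finset.mem_erase.2 ⟨fun he => hbD (he ▸ hx), h3⟩
        · exact ⟨a, Finset.mem_union.2 (Or.inl haY)⟩
        · intro x hx y hy hxy
          by_cases hyD : y ∈ D
          · exact Finset.mem_union.2 (Or.inr hyD)
          · rcases Finset.mem_union.1 hx with hx | hx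
            · exact Finset.mem_union.2 (Or.inl (hcl x hx y
                (Finset.mem_erase.2 ⟨(Finset.mem_erase.1 hy).1,
                  Finset.mem_sdiff.2 ⟨(Finset.mem_erase.1 hy).2, hyD⟩⟩) (hle _ _ hxy)))
            · by_cases hya : y = a
              · exact Finset.mem_union.2 (Or.inl (hya ▸ haY))
              · by_cases hyz : y = z
                · exact Finset.mem_union.2 (Or.inl (hyz ▸ hzY))
                · exact absurd (eg3a_nbr hD' hx (Finset.mem_erase.1 hy).2 hxy hya hyz) hyD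
      apply Finset.Subset.antisymm hYS
      intro x hx
      have hx' := Finset.mem_erase.1 hx
      have hx2 := Finset.mem_sdiff.1 hx'.2
      have h2 : x ∈ Y ∪ D := by
        rw [h1]
        exact Finset.mem_erase.2 ⟨hx'.1, hx2.1⟩
      rcases Finset.mem_union.1 h2 with h2 | h2
      · exact h2
      · exact absurd h2 hx2.2
    · have hzY : z ∉ Y := fun hzY => haY (hcl z hzY a hab haz.symm)
      exfalso
      have h1 : Y = S.erase b := by
        apply h.cb.closed_eq (fun x hx => hYS' x hx) hYn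
        intro x hx y hy hxy
        have hyS := (Finset.mem_erase.1 hy).2
        by_cases hyD : y ∈ D
        · exact absurd (eg3a_nbr hD' hyD (Finset.mem_erase.1 (hYS' x hx)).2 hxy.symm
            (fun he => haY (he ▸ hx)) (fun he => hzY (he ▸ hx))) (hYD x hx)
        · exact hcl x hx y (Finset.mem_erase.2 ⟨(Finset.mem_erase.1 hy).1,
            Finset.mem_sdiff.2 ⟨hyS, hyD⟩⟩) (hle _ _ hxy)
      exact haY (h1 ▸ Finset.mem_erase.2 ⟨h.ab, h.ha⟩)
  · intro z' hz' hza' hzb' q hq hqz'
    have hz1 := Finset.mem_sdiff.1 hz'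
    have hq1 := Finset.mem_sdiff.1 hq
    have hqT : q ∈ (S \ D).erase z' := Finset.mem_erase.2 ⟨hqz', hq⟩
    obtain ⟨X, hX, hqX⟩ := exists_comp (G := addE F a z) hqT
    by_contra hno
    rw [not_or] at hno
    have hnot : ∀ t, (¬ ∃ l, Pth (addE F a z) ((S \ D).erase z') q t l) → t ∉ X := by
      intro t ht htX
      obtain ⟨l, hl⟩ := hX.2.1.2 q hqX t htX
      exact ht ⟨l, hl.mono (fun w hw => hX.1 (hl.sub w hw))⟩
    have haX : a ∉ X := hnot a hno.1
    have hbX : b ∉ X := hnot b hno.2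
    have hzX : z ∉ X := by
      intro hzX
      have h1 := Finset.mem_erase.1 (hX.1 hzX)
      exact haX (hX.2.2 z hzX a (Finset.mem_erase.2 ⟨Ne.symm hza',
        Finset.mem_sdiff.2 ⟨h.ha, haD⟩⟩) haz.symm)
    have key : ∀ t, t ∉ X → ¬ ∃ l, Pth F (S.erase z') q t l := by
      rintro t ht ⟨l, hl⟩
      obtain ⟨x, _, y, hyl, hxX, hyX, hxy⟩ := hl.cross X hqX ht
      have hy := Finset.mem_erase.1 (hl.sub y hyl)
      have hx := Finset.mem_erase.1 (hX.1 hxX)
      have hx2 := Finset.mem_sdiff.1 hx.2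
      by_cases hyD : y ∈ D
      · exact hx2.2 (eg3a_nbr hD' hyD hx2.1 hxy.symm (fun he => haX (he ▸ hxX))
          (fun he => hzX (he ▸ hxX)))
      · exact hyX (hX.2.2 x hxX y (Finset.mem_erase.2 ⟨hy.1,
          Finset.mem_sdiff.2 ⟨hy.2, hyD⟩⟩) (hle _ _ hxy))
    rcases h.cz z' hz1.1 hza' hzb' q hq1.1 hqz' with h1 | h1
    · exact key a haX h1
    · exact key b hbX h1

end Pool.Agent.BND
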