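import Pool.Agent.BND.EG3a

/-!
# BND-EG3 : removing a pendant part that is not all of `W`

Let `HH F S a b`, `M ⊆ S \ {a, b}`, `M ≠ ∅`, and let `(z, D)` be a pendant part:
`D` is a component of `S \ {a, z}`, `b ∉ D`, `z ∈ S`, `z ≠ a, b`.  Suppose `D ∩ M = ∅`, and
that `W := S \ (M ∪ {a, b})` is not contained in `D` (`D ⊆ W` holds automatically).
Put `F' := F ⊔ (edge a z)` and `S' := S \ D`.  Then `HH F' S' a b`, `|S'| < |S|` and the lemma for
`(F', S', a, b)` with `M` and `R' := R - |D|` gives the conclusion for `(F, S, a, b, M, R)`.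

Proof.
* `D` is adjacent (in `F`) to `z`: `S - a` is connected and contains `z`.  `D` is adjacent to `a`: by
  `cz` for `z` and `q ∈ D` there is a path in `S - z` from `q` to `a` or `b`, which leaves `D`, and
  the neighbours in `S` of vertices of `D` are in `D ∪ {z, a}`.
* Path surgery: a path of `F` in `S` between two vertices of `S'` can be turned into a path of `F'`
  in `S'` between the same vertices using only vertices of the old path:  the path enters `D` from
  `a` or `z` and leaves `D` to the other one of `a`, `z` (being a path), so there is at most one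
  visit to `D`, replace it by the edge `az` of `F'`.  (Convenient formulation via the cut criterion:
  a nonempty set `Y ⊆ T'` closed under `F'`-neighbours in `T' = T \ D`; if `T` is one of `S - a`,
  `S - b` and `T` is connected in `F`, then `Y` or `Y ∪ D` is closed under `F`-neighbours in `T`.)
  Hence `S' - a` and `S' - b` are connected in `F'`, and `cz` holds: for `z' ∈ S'`, `z' ≠ a, b` and
  `q ∈ S' - z'`: if `z' ≠ z` use the surgery on the path of `cz` for `F`; if `z' = z`, cut the path of
  `cz` at its first vertex in `{a, b}`: the part up to it avoids `D`, because from outside `D` one can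
  enter `D` in `S - z` only from `a`.
* For `y ∈ M` the number of `F'`-neighbours in `S'` is at least `R - |D|`.
* `W' := S' \ (M ∪ {a, b}) = W \ D ≠ ∅`, so the lemma gives an `F'`-path `L'` from `a` to `b` in `S'`
  with `R - |D| + 2 ≤ |L'| + |W'|`, so `R + 2 ≤ |L'| + |W|` (as `|W| = |W'| + |D|`).
* If `L'` does not use the pair `a, z` consecutively then it is an `F`-path.  If it does then, since
  `L'` starts at `a`, it starts `a, z, …`; replace the edge by a path `a → D → z` with at least one
  inner vertex, all inner vertices in `D`.  We get an `F`-path in `S` with at least as many vertices.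
-/

set_option autoImplicit false
set_option linter.unusedSectionVars false

namespace Pool.Agent.BND

open Classical

variable {V : Type} [Fintype V] {F : SimpleGraph V} {S M D : Finset V} {a b z : V} {R : ℕ}

/-- a chain of `F + az` that avoids `a` is a chain of `F` -/
theorem eg3b_chain : ∀ l : List V, a ∉ l → l.IsChain (addE F a z).Adj → l.IsChain F.Adj
  | [], _, _ => List.IsChain.nil
  | [x], _, _ => List.IsChain.singleton x
  | x :: y :: t, hl, hc => by
      rw [List.isChain_cons_cons] at hc ⊢
      simp only [List.mem_cons, not_or] at hl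
      refine ⟨?_, eg3b_chain (y :: t) (by simp only [List.mem_cons, not_or]; exact hl.2) hc.2⟩
      rcases addE_adj.mp hc.1 with h1 | ⟨_, h2 | h2⟩
      · exact h1
      · exact absurd h2.1.symm hl.1
      · exact absurd h2.2.symm hl.2.1

theorem pend_step (h : HH F S a b) (hD : Pend F S a b z D) (hMS : M ⊆ S) (ha : a ∉ M)
    (hb : b ∉ M) (hMn : M.Nonempty) (hDM : Disjoint D M)
    (hW : ¬ (S \ insert a (insert b M)) ⊆ D)
    (hR : ∀ y ∈ M, R ≤ (S.filter (fun z => F.Adj y z)).card)
    (hih : EGih V S.card) : EGc F S a b M R := by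
  have hDS : ∀ x ∈ D, x ∈ S ∧ x ≠ a ∧ x ≠ z := by
    intro x hx
    have := hD.2.2.2.1.1 hx
    simp only [Finset.mem_erase] at this
    exact ⟨this.2.2, this.2.1, this.1⟩
  have hDsub : D ⊆ S := fun x hx => (hDS x hx).1
  have hDne : D.Nonempty := hD.2.2.2.1.nonempty
  have haD : a ∉ D := fun hx => (hDS a hx).2.1 rfl
  have hlt : (S \ D).card < S.card := by
    apply Finset.card_lt_card
    refine ⟨Finset.sdiff_subset, ?_⟩
    intro hsub
    obtain ⟨x, hx⟩ := hDne
    have := hsub (hDsub hx)
    exact (Finset.mem_sdiff.mp this).2 hx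
  have hdisj : ∀ x ∈ M, x ∉ D := fun x hx hxD => Finset.disjoint_left.mp hDM hxD hx
  have hMS' : M ⊆ S \ D := fun x hx => Finset.mem_sdiff.mpr ⟨hMS hx, hdisj x hx⟩
  have hdeg : ∀ y ∈ M, R - D.card ≤ ((S \ D).filter (fun x => (addE F a z).Adj y x)).card := by
    intro y hy
    have h1 := hR y hy
    have h2 : S.filter (fun x => F.Adj y x) ⊆
        (S \ D).filter (fun x => (addE F a z).Adj y x) ∪ D := by
      intro x hx
      rw [Finset.mem_filter] at hx
      rw [Finset.mem_union, Finset.mem_filter, Finset.mem_sdiff]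
      by_cases hxD : x ∈ D
      · exact Or.inr hxD
      · exact Or.inl ⟨⟨hx.1, hxD⟩, addE_adj.mpr (Or.inl hx.2)⟩
    have h3 := (Finset.card_le_card h2).trans (Finset.card_union_le _ _)
    omega
  obtain ⟨l', hl', -, hl2⟩ := hih (addE F a z) (S \ D) a b hlt (pend_hh h hD) M (R - D.card)
    hMS' ha hb hMn hdeg
  -- the set `W`
  obtain ⟨w0, hw0, hw0D⟩ := Finset.not_subset.mp hW
  have hns : ¬ S ⊆ insert a (insert b M) := by
    intro hsub
    rw [Finset.mem_sdiff] at hw0
    exact hw0.2 (hsub hw0.1)
  have hns' : ¬ (S \ D) ⊆ insert a (insert b M) := by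
    intro hsub
    rw [Finset.mem_sdiff] at hw0
    exact hw0.2 (hsub (Finset.mem_sdiff.mpr ⟨hw0.1, hw0D⟩))
  have hlen := hl2 hns'
  have hcard : ((S \ D) \ insert a (insert b M)).card + D.card
      = (S \ insert a (insert b M)).card := by
    have hd : Disjoint ((S \ D) \ insert a (insert b M)) D := by
      rw [Finset.disjoint_left]
      intro x hx hxD
      exact (Finset.mem_sdiff.mp (Finset.mem_sdiff.mp hx).1).2 hxD
    rw [← Finset.card_union_of_disjoint hd]
    congr 1
    ext x
    simp only [Finset.mem_union, Finset.mem_sdiff, Finset.mem_insert, not_or]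
    constructor
    · rintro (hx | hx)
      · exact ⟨hx.1.1, hx.2⟩
      · refine ⟨hDsub hx, (hDS x hx).2.1, ?_, fun hxM => hdisj x hxM hx⟩
        intro hxb
        exact hD.2.2.2.2 (hxb ▸ hx)
    · rintro ⟨hx1, hx2⟩
      by_cases hxD : x ∈ D
      · exact Or.inr hxD
      · exact Or.inl ⟨⟨hx1, hxD⟩, hx2⟩
  -- it is enough to find a path of `F` in `S` that is at least as long
  suffices hmain : ∃ l, Pth F S a b l ∧ l'.length ≤ l.length by
    obtain ⟨l, hl, hll⟩ := hmain
    refine ⟨l, hl, fun hsub => absurd hsub hns, fun _ => ?_⟩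
    omega
  -- the first edge of `l'`
  obtain ⟨w, t, rfl⟩ : ∃ w t, l' = a :: w :: t := by
    have h2 := hl'.two_le h.ab
    match l', hl'.head, h2 with
    | [], _, h2 => simp at h2
    | [x], _, h2 => simp at h2
    | x :: w :: t, hh, _ =>
      simp only [List.head?_cons, Option.some.injEq] at hh
      exact ⟨w, t, by rw [hh]⟩
  obtain ⟨hadj, hnotin, htail⟩ := hl'.tail
  have htail' : Pth F S w b (w :: t) := by
    refine ⟨htail.head, htail.last, htail.nodup, eg3b_chain _ hnotin htail.chain, ?_⟩
    intro x hx
    exact (Finset.mem_sdiff.mp (htail.sub x hx)).1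
  by_cases hwz : w = z
  · subst hwz
    obtain ⟨I, hI⟩ := pend_pth h hD
    obtain ⟨x, y, hxy, hax, hyw⟩ := hI.pth
    have hIp : Pth F S x y I := hxy.mono (fun q hq => hDsub (hI.sub q hq))
    have happ : Pth F S x b (I ++ w :: t) := by
      apply pth_append hIp htail' hyw
      intro q hq hq2
      exact (Finset.mem_sdiff.mp (htail.sub q hq2)).2 (hI.sub q hq)
    refine ⟨a :: (I ++ w :: t), pth_cons h.ha ?_ hax happ, ?_⟩
    · rw [List.mem_append, not_or]
      exact ⟨fun hq => haD (hI.sub a hq), hnotin⟩
    · have := hI.length_pos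
      simp only [List.length_cons, List.length_append]
      omega
  · refine ⟨a :: w :: t, pth_cons h.ha hnotin ?_ htail', le_refl _⟩
    rcases addE_adj.mp hadj with h1 | ⟨_, h2 | h2⟩
    · exact h1
    · exact absurd h2.2 hwz
    · exact absurd h2.1 (Ne.symm hD.2.1)

end Pool.Agent.BND
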