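import Pool.Agent.BND.EG1
import Pool.Agent.BND.EG3a

/-!
# BND-EG4 : all of `W` is one pendant part

Assume `HH F S a b`, `M ⊆ S \ {a, b}`, `M ≠ ∅`, there is no proper side piece, and `(z, D)` is a
pendant part with `D = W := S \ (M ∪ {a, b})`, and every pendant part is contained in `W`… in fact
we assume: every pendant part `(z', D')` satisfies `W ⊆ D'` (hypothesis `hall`), and no pendant part
meets `M` (hypothesis `hno`, which follows from the absence of side pieces).  So every pendant part is
equal to `W`.  Also assume that `S \ {a, b}` is connected (this also follows from the absence of side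
pieces).

Let `K := insert b M = (S \ {a}) \ W`.  Claim: `K` is `Bic`.
* `K` is connected: `S - a` is connected and `D = W` is attached in `S - a` only at `z`
  (neighbours in `S` of vertices of `D` are in `D ∪ {a, z}`); removing `D` keeps it connected
  (`comp_conn_sdiff` for `S.erase a`, `z`, `D`).
* `K - q` is connected for `q ∈ K`, `q ≠ b`: let `r ∈ K - q`; let `Y` be the component of
  `S \ {a, q}` containing `r`.  If `b ∉ Y` then `(q, Y)` is a pendant part, so `Y = W`, but `r ∉ W`.
  So there is a path from `r` to `b` in `S \ {a, q}`; it avoids `D`: if `q ≠ z`, a path can enter and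
  leave `D` only through `z`; if `q = z` it cannot enter `D` at all.  So it is a path in `K - q`.
* `K - b = M` is connected: `S \ {a, b}` is connected and `D` is attached in it only at `z`
  (`z ≠ b`; `comp_conn_sdiff` for `(S.erase a).erase b`, `z`, `D`; note that `D` is a component of
  `((S.erase a).erase b).erase z` as `b ∉ D` and `b` is not adjacent to `D`).

Now if `M = {z}`: `K = {z, b}` is connected so `z ~ b`; the neighbours of `z` in `S` are in
`{a, b} ∪ W`, so `R ≤ 2 + |W|`; the path `a → D → z → b` has at least 4 vertices: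
`R + 2 ≤ 4 + |W|`.  Otherwise let `M' := M \ {z} ≠ ∅` (note `z ∈ M` since `z ∉ W`, `z ≠ a, b`);
for `y ∈ M'` all neighbours of `y` in `S` are in `K ∪ {a}` (not in `D`), so `y` has at least `R - 1`
neighbours in `K`.  The lemma (induction hypothesis) for `(F, K, z, b)`, `M'`, `R - 1` gives (as
`K ⊆ M' ∪ {z, b}`) a path `L'` from `z` to `b` in `K` with at least `R` vertices; `a → D → z`
followed by `L'` has at least `R + 2` vertices, `R + 3 ≤ …`.  Since `W = D ≠ ∅` this suffices.
(Note `a` and `D` are disjoint from `K`.)
-/

set_option autoImplicit false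
set_option linter.unusedSectionVars false

namespace Pool.Agent.BND

open Classical

variable {V : Type} [Fintype V] {F : SimpleGraph V} {S M D : Finset V} {a b z : V} {R : ℕ}

theorem core_bic (h : HH F S a b) (hD : Pend F S a b z D) (hMS : M ⊆ S) (ha : a ∉ M)
    (hb : b ∉ M) (hDW : D = S \ insert a (insert b M))
    (hcon : Conn F ((S.erase a).erase b))
    (hall : ∀ z' D', Pend F S a b z' D' → S \ insert a (insert b M) ⊆ D')
    (hno : ∀ z' D', Pend F S a b z' D' → Disjoint D' M) :
    Bic F (insert b M) := by
  have hD0 := hD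
  obtain ⟨hz, hza, hzb, hc, hbD⟩ := hD
  have hzD : z ∉ D := fun hzD => (eg3a_mem hc.1 hzD).1 rfl
  have hmD : ∀ x, x ∈ D ↔ x ∈ S ∧ x ≠ a ∧ x ≠ b ∧ x ∉ M := by
    intro x
    rw [hDW]
    simp only [Finset.mem_sdiff, Finset.mem_insert, not_or]
  have hzM : z ∈ M := by
    by_contra hzM
    exact hzD ((hmD z).2 ⟨hz, hza, hzb, hzM⟩)
  have hba : b ≠ a := h.ab.symm
  have hMa : ∀ x ∈ M, x ≠ a := fun x hx hxa => ha (hxa ▸ hx)
  have hMb : ∀ x ∈ M, x ≠ b := fun x hx hxb => hb (hxb ▸ hx)
  have hcK : Conn F (insert b M) := by
    have h1 := comp_conn_sdiff h.ca (Finset.mem_erase.2 ⟨hza, hz⟩) hc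
    have h2 : S.erase a \ D = insert b M := by
      ext x
      simp only [Finset.mem_erase, Finset.mem_sdiff, Finset.mem_insert, hmD]
      constructor
      · rintro ⟨⟨h1, h2⟩, h3⟩
        by_contra h4
        rw [not_or] at h4
        exact h3 ⟨h2, h1, h4.1, h4.2⟩
      · rintro (rfl | h1)
        · exact ⟨⟨hba, h.hb⟩, fun h3 => h3.2.2.1 rfl⟩
        · exact ⟨⟨hMa x h1, hMS h1⟩, fun h3 => h3.2.2.2 h1⟩
    rwa [h2] at h1
  refine ⟨?_, hcK, ?_⟩
  · have : ({z, b} : Finset V) ⊆ insert b M := by
      intro x hx
      rw [Finset.mem_insert, Finset.mem_singleton] at hx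
      rcases hx with rfl | rfl
      · exact Finset.mem_insert_of_mem hzM
      · exact Finset.mem_insert_self _ _
    have h2 := Finset.card_le_card this
    rwa [Finset.card_pair hzb] at h2
  · intro q hq
    by_cases hqb : q = b
    · subst hqb
      rw [Finset.erase_insert hb]
      have hc' : Comp F (((S.erase a).erase q).erase z) D := by
        refine ⟨?_, hc.2.1, ?_⟩
        · intro x hx
          have h1 := (hmD x).1 hx
          have h2 := eg3a_mem hc.1 hx
          exact Finset.mem_erase.2 ⟨h2.1, Finset.mem_erase.2 ⟨h1.2.2.1, Finset.mem_erase.2 ⟨h1.2.1, h1.1⟩⟩⟩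
        · intro x hx y hy hxy
          rw [Finset.mem_erase, Finset.mem_erase, Finset.mem_erase] at hy
          exact eg3a_nbr hD0 hx hy.2.2.2 hxy hy.2.2.1 hy.1
      have h1 := comp_conn_sdiff hcon
        (Finset.mem_erase.2 ⟨hzb, Finset.mem_erase.2 ⟨hza, hz⟩⟩) hc'
      have h2 : (S.erase a).erase q \ D = M := by
        ext x
        simp only [Finset.mem_erase, Finset.mem_sdiff, hmD]
        constructor
        · rintro ⟨⟨h1, h2, h3⟩, h4⟩
          by_contra h5
          exact h4 ⟨h3, h2, h1, h5⟩
        · intro h1
          exact ⟨⟨hMb x h1, hMa x h1, hMS h1⟩, fun h3 => h3.2.2.2 h1⟩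
      rwa [h2] at h1
    · have hqM : q ∈ M := by
        rcases Finset.mem_insert.1 hq with h1 | h1
        · exact absurd h1 hqb
        · exact h1
      have hqa := hMa q hqM
      -- every nonempty closed subset of `K - q` contains `b`
      have key : ∀ Y ⊆ (insert b M).erase q, Y.Nonempty →
          (∀ x ∈ Y, ∀ y ∈ (insert b M).erase q, F.Adj x y → y ∈ Y) → b ∈ Y := by
        intro Y hY hYn hYc
        by_contra hbY
        obtain ⟨r, hr⟩ := hYn
        have hr1 := Finset.mem_erase.1 (hY hr)
        have hrM : r ∈ M := by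
          rcases Finset.mem_insert.1 hr1.2 with h1 | h1
          · exact absurd (h1 ▸ hr) hbY
          · exact h1
        have hrS : r ∈ (S.erase a).erase q :=
          Finset.mem_erase.2 ⟨hr1.1, Finset.mem_erase.2 ⟨hMa r hrM, hMS hrM⟩⟩
        obtain ⟨X, hX, hrX⟩ := exists_comp (G := F) hrS
        have hbX : b ∈ X := by
          by_contra hbX
          have := hno q X ⟨hMS hqM, hqa, hqb, hX, hbX⟩
          exact Finset.disjoint_left.1 this hrX hrM
        -- `Y` together with `D` (if `z ∈ Y`)
        obtain ⟨l, hl⟩ := hX.2.1.2 r hrX b hbX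
        obtain ⟨x, hxl, y, hyl, hxZ, hyZ, hxy⟩ := hl.cross (Y ∪ (if z ∈ Y then D else ∅))
          (Finset.mem_union_left _ hr) (by
            rw [Finset.mem_union, not_or]
            refine ⟨hbY, ?_⟩
            split_ifs
            · exact hbD
            · simp)
        rw [Finset.mem_union, not_or] at hyZ
        have hyS := hX.1 (hl.sub y hyl)
        rw [Finset.mem_erase, Finset.mem_erase] at hyS
        have hxS := hX.1 (hl.sub x hxl)
        rw [Finset.mem_erase, Finset.mem_erase] at hxS
        rcases Finset.mem_union.1 hxZ with hxY | hxD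
        · -- `x ∈ Y`
          by_cases hyD : y ∈ D
          · by_cases hxz : x = z
            · subst hxz
              rw [if_pos hxY] at hyZ
              exact hyZ.2 hyD
            · have := eg3a_nbr hD0 hyD hxS.2.2 hxy.symm hxS.2.1 hxz
              have h1 := (hmD x).1 this
              have h2 := Finset.mem_erase.1 (hY hxY)
              rcases Finset.mem_insert.1 h2.2 with h3 | h3
              · exact h1.2.2.1 h3
              · exact h1.2.2.2 h3
          · have hyK : y ∈ (insert b M).erase q := by
              refine Finset.mem_erase.2 ⟨hyS.1, ?_⟩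
              by_contra h3
              rw [Finset.mem_insert, not_or] at h3
              exact hyD ((hmD y).2 ⟨hyS.2.2, hyS.2.1, h3.1, h3.2⟩)
            exact hyZ.1 (hYc x hxY y hyK hxy)
        · split_ifs at hxD with hzY
          · by_cases hyz : y = z
            · exact hyZ.1 (hyz ▸ hzY)
            · rw [if_pos hzY] at hyZ
              exact hyZ.2 (eg3a_nbr hD0 hxD hyS.2.2 hxy hyS.2.1 hyz)
          · simp at hxD
      refine conn_of_closed ⟨b, Finset.mem_erase.2 ⟨Ne.symm hqb, Finset.mem_insert_self _ _⟩⟩ ?_
      intro Y hY hYn hYc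
      by_contra hne
      have hbY := key Y hY hYn hYc
      have h2 : ((insert b M).erase q \ Y).Nonempty := by
        rw [Finset.nonempty_iff_ne_empty]
        intro h3
        apply hne
        exact Finset.Subset.antisymm hY (Finset.sdiff_eq_empty_iff_subset.1 h3)
      have h3 := key ((insert b M).erase q \ Y) Finset.sdiff_subset h2 (by
        intro x hx y hy hxy
        rw [Finset.mem_sdiff] at hx ⊢
        exact ⟨hy, fun hyY => hx.2 (hYc y hyY x hx.1 hxy.symm)⟩)
      exact (Finset.mem_sdiff.1 h3).2 hbY

end Pool.Agent.BND
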