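import Pool.Agent.BND.EG4a

/-!
# BND-EG4 : all of `W` is one pendant part

Assume `HH F S a b`, `M ⊆ S \ {a, b}`, `M ≠ ∅`, there is no proper side piece, and `(z, D)` is a
pendant part with `D = W := S \ (M ∪ {a, b})`, and every pendant part is contained in `W`… in fact
we assume: every pendant part `(z', D')` satisfies `W ⊆ D'` (hypothesis `hall`), and no pendant part
meets `M` (hypothesis `hno`, which follows from the absence of side pieces).  So every pendant part is
equal to `W`.  Also assume that `S \ {a, b}` is connected (this also follows from the absence of side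
pieces).

Let `K := insert b M = (S \ {a}) \ W`.  Claim: `K` is `Bic`.
* `K` is connected: `S - a` is connected and `D = W` is attached in `S - a` only at `z`
  (neighbours in `S` of vertices of `D` are in `D ∪ {a, z}`); removing `D` keeps it connected
  (`comp_conn_sdiff` for `S.erase a`, `z`, `D`).
* `K - q` is connected for `q ∈ K`, `q ≠ b`: let `r ∈ K - q`; let `Y` be the component of
  `S \ {a, q}` containing `r`.  If `b ∉ Y` then `(q, Y)` is a pendant part, so `Y = W`, but `r ∉ W`.
  So there is a path from `r` to `b` in `S \ {a, q}`; it avoids `D`: if `q ≠ z`, a path can enter and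
  leave `D` only through `z`; if `q = z` it cannot enter `D` at all.  So it is a path in `K - q`.
* `K - b = M` is connected: `S \ {a, b}` is connected and `D` is attached in it only at `z`
  (`z ≠ b`; `comp_conn_sdiff` for `(S.erase a).erase b`, `z`, `D`; note that `D` is a component of
  `((S.erase a).erase b).erase z` as `b ∉ D` and `b` is not adjacent to `D`).

Now if `M = {z}`: `K = {z, b}` is connected so `z ~ b`; the neighbours of `z` in `S` are in
`{a, b} ∪ W`, so `R ≤ 2 + |W|`; the path `a → D → z → b` has at least 4 vertices: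
`R + 2 ≤ 4 + |W|`.  Otherwise let `M' := M \ {z} ≠ ∅` (note `z ∈ M` since `z ∉ W`, `z ≠ a, b`);
for `y ∈ M'` all neighbours of `y` in `S` are in `K ∪ {a}` (not in `D`), so `y` has at least `R - 1`
neighbours in `K`.  The lemma (induction hypothesis) for `(F, K, z, b)`, `M'`, `R - 1` gives (as
`K ⊆ M' ∪ {z, b}`) a path `L'` from `z` to `b` in `K` with at least `R` vertices; `a → D → z`
followed by `L'` has at least `R + 2` vertices, `R + 3 ≤ …`.  Since `W = D ≠ ∅` this suffices.
(Note `a` and `D` are disjoint from `K`.)
-/

set_option autoImplicit false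
set_option linter.unusedSectionVars false

namespace Pool.Agent.BND

open Classical

variable {V : Type} [Fintype V] {F : SimpleGraph V} {S M D : Finset V} {a b z : V} {R : ℕ}

theorem eg4b_join (h : HH F S a b) (hD : Pend F S a b z D) {K : Finset V} (hK : K ⊆ S)
    (haK : a ∉ K) (hKD : Disjoint K D) {l : List V} (hl : Pth F K z b l) :
    ∃ I : List V, 1 ≤ I.length ∧ Pth F S a b (a :: (I ++ l)) := by
  obtain ⟨I, hI⟩ := pend_pth h hD
  obtain ⟨x, y, hp, hax, hyz⟩ := hI.pth
  obtain ⟨_, _, _, hc, _⟩ := hD
  refine ⟨I, hI.length_pos, ?_⟩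
  have h1 : Pth F S x y I := hp.mono (fun w hw => (eg3a_mem hc.1 (hp.sub w hw)).2.2)
  have h2 : Pth F S z b l := hl.mono (fun w hw => hK (hl.sub w hw))
  have h3 := pth_append h1 h2 hyz (by
    intro q hq hq'
    exact Finset.disjoint_left.1 hKD (hl.sub q hq') (hp.sub q hq))
  refine pth_cons h.ha ?_ hax h3
  intro haI
  rcases List.mem_append.1 haI with h4 | h4
  · exact (eg3a_mem hc.1 (hp.sub a h4)).2.1 rfl
  · exact haK (hl.sub a h4)

theorem pendall_step (h : HH F S a b) (hD : Pend F S a b z D) (hMS : M ⊆ S) (ha : a ∉ M)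
    (hb : b ∉ M) (hMn : M.Nonempty) (hDW : D = S \ insert a (insert b M))
    (hcon : Conn F ((S.erase a).erase b))
    (hall : ∀ z' D', Pend F S a b z' D' → S \ insert a (insert b M) ⊆ D')
    (hno : ∀ z' D', Pend F S a b z' D' → Disjoint D' M)
    (hR : ∀ y ∈ M, R ≤ (S.filter (fun z => F.Adj y z)).card)
    (hih : EGih V S.card) : EGc F S a b M R := by
  have hbic := core_bic h hD hMS ha hb hDW hcon hall hno
  have hD0 := hD
  obtain ⟨hz, hza, hzb, hc, hbD⟩ := hD
  have hzD : z ∉ D := fun hzD => (eg3a_mem hc.1 hzD).1 rfl
  have hmD : ∀ x, x ∈ D ↔ x ∈ S ∧ x ≠ a ∧ x ≠ b ∧ x ∉ M := by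
    intro x
    rw [hDW]
    simp only [Finset.mem_sdiff, Finset.mem_insert, not_or]
  have hzM : z ∈ M := by
    by_contra hzM
    exact hzD ((hmD z).2 ⟨hz, hza, hzb, hzM⟩)
  have hMa : ∀ x ∈ M, x ≠ a := fun x hx hxa => ha (hxa ▸ hx)
  have hMb : ∀ x ∈ M, x ≠ b := fun x hx hxb => hb (hxb ▸ hx)
  have hKS : insert b M ⊆ S := by
    intro x hx
    rcases Finset.mem_insert.1 hx with rfl | hx
    · exact h.hb
    · exact hMS hx
  have haK : a ∉ insert b M := by
    rw [Finset.mem_insert, not_or]
    exact ⟨h.ab, ha⟩
  have hKD : Disjoint (insert b M) D := by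
    rw [Finset.disjoint_left]
    intro x hx hxD
    have h1 := (hmD x).1 hxD
    rcases Finset.mem_insert.1 hx with h2 | h2
    · exact h1.2.2.1 h2
    · exact h1.2.2.2 h2
  have hDc : 1 ≤ D.card := Finset.card_pos.2 hc.nonempty
  by_cases hM1 : M = {z}
  · obtain ⟨l, hl⟩ := hbic.2.1.2 z (Finset.mem_insert_of_mem hzM) b (Finset.mem_insert_self _ _)
    obtain ⟨I, hI, hp⟩ := eg4b_join h hD0 hKS haK hKD hl
    refine ⟨_, hp, ?_, ?_⟩
    · intro hsub
      exfalso
      obtain ⟨x, hx⟩ := hc.nonempty
      have h1 := (hmD x).1 hx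
      rcases Finset.mem_insert.1 (hsub h1.1) with h2 | h2
      · exact h1.2.1 h2
      · rcases Finset.mem_insert.1 h2 with h3 | h3
        · exact h1.2.2.1 h3
        · exact h1.2.2.2 h3
    · intro _
      rw [← hDW]
      have h1 := hR z hzM
      have h2 : S.filter (fun y => F.Adj z y) ⊆ insert a (insert b D) := by
        intro x hx
        rw [Finset.mem_filter] at hx
        by_contra h3
        rw [Finset.mem_insert, Finset.mem_insert, not_or, not_or] at h3
        have h4 : x ∉ M := by
          rw [hM1, Finset.mem_singleton]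
          rintro rfl
          exact F.irrefl hx.2
        exact h3.2.2 ((hmD x).2 ⟨hx.1, h3.1, h3.2.1, h4⟩)
      have h3 := Finset.card_le_card h2
      have h4 := Finset.card_insert_le a (insert b D)
      have h5 := Finset.card_insert_le b D
      have h6 := hl.two_le hzb
      rw [List.length_cons, List.length_append]
      omega
  · have hMe : (M.erase z).Nonempty := by
      rw [Finset.nonempty_iff_ne_empty]
      intro h1
      rw [Finset.erase_eq_empty_iff] at h1
      rcases h1 with h1 | h1
      · rw [h1] at hzM
        simp at hzM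
      · exact hM1 h1
    have hHK : HH F (insert b M) z b :=
      hbic.hh (Finset.mem_insert_of_mem hzM) (Finset.mem_insert_self _ _) hzb
    have hcard : (insert b M).card < S.card := by
      apply Finset.card_lt_card
      refine ⟨hKS, fun h1 => haK (h1 h.ha)⟩
    have hE := hih F (insert b M) z b hcard hHK (M.erase z) (R - 1)
      (fun x hx => Finset.mem_insert_of_mem (Finset.mem_of_mem_erase hx))
      (Finset.notMem_erase z M) (fun h1 => hb (Finset.mem_of_mem_erase h1)) hMe (by
        intro y hy
        have hyM := Finset.mem_of_mem_erase hy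
        have hyz := Finset.ne_of_mem_erase hy
        have h1 := hR y hyM
        have h2 : S.filter (fun x => F.Adj y x) ⊆
            insert a ((insert b M).filter (fun x => F.Adj y x)) := by
          intro x hx
          rw [Finset.mem_filter] at hx
          by_contra h3
          rw [Finset.mem_insert, not_or, Finset.mem_filter, Finset.mem_insert] at h3
          have h4 : x ≠ b ∧ x ∉ M := by
            constructor
            · intro h5
              exact h3.2 ⟨Or.inl h5, hx.2⟩
            · intro h5
              exact h3.2 ⟨Or.inr h5, hx.2⟩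
          have h5 : x ∈ D := (hmD x).2 ⟨hx.1, h3.1, h4.1, h4.2⟩
          have h6 := eg3a_nbr hD0 h5 (hMS hyM) hx.2.symm (hMa y hyM) hyz
          exact ((hmD y).1 h6).2.2.2 hyM
        have h3 := Finset.card_le_card h2
        have h4 := Finset.card_insert_le a ((insert b M).filter (fun x => F.Adj y x))
        omega)
    obtain ⟨l, hl, hl1, _⟩ := hE
    have hl2 := hl1 (by
      intro x hx
      rw [Finset.mem_insert, Finset.mem_insert, Finset.mem_erase]
      rcases Finset.mem_insert.1 hx with h1 | h1
      · exact Or.inr (Or.inl h1)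
      · by_cases hxz : x = z
        · exact Or.inl hxz
        · exact Or.inr (Or.inr ⟨hxz, h1⟩))
    obtain ⟨I, hI, hp⟩ := eg4b_join h hD0 hKS haK hKD hl
    refine ⟨_, hp, ?_, ?_⟩
    · intro hsub
      exfalso
      obtain ⟨x, hx⟩ := hc.nonempty
      have h1 := (hmD x).1 hx
      rcases Finset.mem_insert.1 (hsub h1.1) with h2 | h2
      · exact h1.2.1 h2
      · rcases Finset.mem_insert.1 h2 with h3 | h3
        · exact h1.2.2.1 h3
        · exact h1.2.2.2 h3
    · intro _
      rw [← hDW, List.length_cons, List.length_append]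
      omega

end Pool.Agent.BND
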