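import Pool.Agent.BND.EG1

/-!
# BND-EG5 : assembly of the strong Erdős–Gallai lemma

`eg_nopend`: `HH F S a b`, `S - a` is `Bic`, `M ⊆ S \ {a, b}` nonempty.
Proof.  `a` has a neighbour `a' ∈ S`, `a' ≠ b` (since `S - b` is connected, contains `a` and the
elements of `M`).  For `y ∈ M` the number of neighbours of `y` in `S - a` is at least `R - 1`.
Let `W = S \ (M ∪ {a, b})`.
If `M \ {a'}` is nonempty, apply the induction hypothesis to `(F, S - a, a', b)` (`Bic.hh`) with
`M' = M \ {a'}` and `R - 1`; if `M = {a'}` apply `eg_base` to `S - a`, `a'`, `b`, with `M' = M` and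
`R - 1` (`a'` has at least `R - 1` neighbours in `S - a`).  In both cases
`W' := (S - a) \ (M' ∪ {a', b}) = W \ {a'}` and we get a path `L'` from `a'` to `b` in `S - a` with
`R ≤ |L'|` if `W' = ∅`, `R + 1 ≤ |L'| + |W'|` if `W' ≠ ∅` (careful with natural subtraction when
`R = 0`, then everything is trivial: `2 ≤ |L|`… treat `R = 0` by `R - 1 + 1 ≥ R`).
Let `L = a :: L'`.  If `W ≠ ∅` and `W' = W`: `R + 2 ≤ |L| + |W|`.
If `a' ∈ W` (`|W| = |W'| + 1`): `W' ≠ ∅`: `R + 2 ≤ |L| + |W|`; `W' = ∅`: `|L| + |W| ≥ R + 1 + 1`.
If `W = ∅`: `W' = ∅`, `|L| ≥ R + 1`.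

`egh`: for all `F, S, a, b` with `HH F S a b`, `EGs F S a b`.  Proof by strong induction on `|S|`.
Given `M`, `R`:
(1) if there is a proper side piece use `side_step`.
(2) Otherwise: `S \ {a, b}` is connected: the component `X` of `S \ {a, b}` containing an element
of `M` satisfies (as `(b, X)` is not a proper side piece) `X ∪ {a, b} = S`.  Every pendant part
`(z, D)` is disjoint from `M`: otherwise `(z, D)` would be a proper side piece
(`D ∪ {a, z} ≠ S` because `b` is missing).  Hence `D ⊆ W`.
 (2a) some pendant part `D` does not contain `W`: use `pend_step`.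
 (2b) every pendant part contains `W` and there is at least one: use `pendall_step`.
 (2c) no pendant part at all: then `S - a` is `Bic`: it is connected (`ca`), has at least two
  elements, `(S - a) - b` is connected and for `z ≠ b` every component of `(S - a) - z` contains `b`
  (otherwise it is a pendant part) so `(S - a) - z` is connected.  Use `eg_nopend`.

`eg`: the final form, `Bic F S`, and `M` may contain `a` or `b`.
Proof: if `M \ {a, b} ≠ ∅` use `egh` with `M \ {a, b}` (same set `insert a (insert b M)`), otherwise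
`eg_base`.
-/

set_option autoImplicit false
set_option linter.unusedSectionVars false

namespace Pool.Agent.BND

open Classical

variable {V : Type} [Fintype V] {F : SimpleGraph V} {S M : Finset V} {a b : V} {R : ℕ}

theorem eg5a_nbr (h : HH F S a b) (hMS : M ⊆ S) (ha : a ∉ M) (hb : b ∉ M) (hMn : M.Nonempty) :
    ∃ a', F.Adj a a' ∧ a' ∈ S ∧ a' ≠ b := by
  obtain ⟨y, hy⟩ := hMn
  have hyb : y ≠ b := fun e => hb (e ▸ hy)
  have hya : y ≠ a := fun e => ha (e ▸ hy)
  obtain ⟨l, hl⟩ := h.cb.2 a (Finset.mem_erase.2 ⟨h.ab, h.ha⟩) y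
    (Finset.mem_erase.2 ⟨hyb, hMS hy⟩)
  match l, hl with
  | [], hl => exact absurd hl.head (by simp)
  | [c], hl =>
    have h1 := hl.head
    have h2 := hl.last
    simp only [List.head?_cons, Option.some.injEq] at h1
    simp only [List.getLast?_singleton, Option.some.injEq] at h2
    exact absurd (h2.symm.trans h1) hya
  | c :: d :: t, hl =>
    have h1 := hl.head
    simp only [List.head?_cons, Option.some.injEq] at h1
    subst h1
    have h2 := hl.chain
    rw [List.isChain_cons_cons] at h2
    have h3 := hl.sub d (by simp)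
    rw [Finset.mem_erase] at h3
    exact ⟨d, h2.1, h3.2, h3.1⟩

theorem eg5a_cons {a' : V} {L' : List V} (haS : a ∈ S) (hadj : F.Adj a a')
    (hL : Pth F (S.erase a) a' b L') : Pth F S a b (a :: L') := by
  have hh := hL.head
  match L', hL, hh with
  | [], hL, hh => exact absurd hh (by simp)
  | c :: t, hL, hh =>
    simp only [List.head?_cons, Option.some.injEq] at hh
    subst hh
    refine ⟨rfl, ?_, ?_, ?_, ?_⟩
    · rw [List.getLast?_cons_cons]
      exact hL.last
    · rw [List.nodup_cons]
      exact ⟨fun hm => (Finset.mem_erase.1 (hL.sub a hm)).1 rfl, hL.nodup⟩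
    · rw [List.isChain_cons_cons]
      exact ⟨hadj, hL.chain⟩
    · intro z hz
      rcases List.mem_cons.1 hz with rfl | hz
      · exact haS
      · exact Finset.mem_of_mem_erase (hL.sub z hz)

theorem eg_nopend (h : HH F S a b) (hBic : Bic F (S.erase a)) (hMS : M ⊆ S) (ha : a ∉ M)
    (hb : b ∉ M) (hMn : M.Nonempty)
    (hR : ∀ y ∈ M, R ≤ (S.filter (fun z => F.Adj y z)).card)
    (hih : EGih V S.card) : EGc F S a b M R := by
  obtain ⟨a', haa', ha'S, ha'b⟩ := eg5a_nbr h hMS ha hb hMn
  have ha'a : a' ≠ a := fun e => haa'.ne e.symm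
  have ha'S' : a' ∈ S.erase a := Finset.mem_erase.2 ⟨ha'a, ha'S⟩
  have hbS' : b ∈ S.erase a := Finset.mem_erase.2 ⟨h.ab.symm, h.hb⟩
  have hdeg : ∀ y ∈ M, R - 1 ≤ ((S.erase a).filter (fun z => F.Adj y z)).card := by
    intro y hy
    have h1 : (S.erase a).filter (fun z => F.Adj y z) = (S.filter (fun z => F.Adj y z)).erase a := by
      ext z
      simp only [Finset.mem_filter, Finset.mem_erase]
      tauto
    rw [h1]
    exact le_trans (Nat.sub_le_sub_right (hR y hy) 1) Finset.pred_card_le_card_erase
  have key : ∃ L', Pth F (S.erase a) a' b L' ∧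
      (S.erase a ⊆ insert a' (insert b M) → R - 1 + 1 ≤ L'.length) ∧
      (¬ S.erase a ⊆ insert a' (insert b M) →
        R - 1 + 2 ≤ L'.length + (S.erase a \ insert a' (insert b M)).card) := by
    by_cases hne : (M.erase a').Nonempty
    · have h1 := hih F (S.erase a) a' b (Finset.card_erase_lt_of_mem h.ha)
        (Bic.hh hBic ha'S' hbS' ha'b) (M.erase a') (R - 1)
        (fun y hy => Finset.mem_erase.2 ⟨fun e => ha (e ▸ Finset.mem_of_mem_erase hy),
          hMS (Finset.mem_of_mem_erase hy)⟩)
        (Finset.notMem_erase _ _) (fun hb' => hb (Finset.mem_of_mem_erase hb')) hne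
        (fun y hy => hdeg y (Finset.mem_of_mem_erase hy))
      have h2 : insert a' (insert b (M.erase a')) = insert a' (insert b M) := by
        ext z
        simp only [Finset.mem_insert, Finset.mem_erase]
        tauto
      unfold EGc at h1
      rw [h2] at h1
      exact h1
    · rw [Finset.not_nonempty_iff_eq_empty] at hne
      have hM : ∀ y ∈ M, y = a' := by
        intro y hy
        by_contra hya
        have : y ∈ M.erase a' := Finset.mem_erase.2 ⟨hya, hy⟩
        rw [hne] at this
        exact absurd this (Finset.notMem_empty _)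
      obtain ⟨y0, hy0⟩ := hMn
      have ha'M : a' ∈ M := hM y0 hy0 ▸ hy0
      exact eg_base hBic ha'S' hbS' ha'b (fun y hy => Or.inl (hM y hy)) ha'S' (Or.inl rfl)
        (hdeg a' ha'M)
  obtain ⟨L', hL', h1, h2⟩ := key
  have hWW : S.erase a \ insert a' (insert b M) ⊆ S \ insert a (insert b M) := by
    intro z hz
    simp only [Finset.mem_sdiff, Finset.mem_insert, Finset.mem_erase] at hz ⊢
    tauto
  refine ⟨a :: L', eg5a_cons h.ha haa' hL', ?_, ?_⟩
  · intro hS
    have hS' : S.erase a ⊆ insert a' (insert b M) := by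
      intro z hz
      have hz1 := hS (Finset.mem_of_mem_erase hz)
      have hz2 := Finset.ne_of_mem_erase hz
      simp only [Finset.mem_insert] at hz1 ⊢
      tauto
    have h3 := h1 hS'
    rw [List.length_cons]
    omega
  · intro hS
    have hpos : 1 ≤ (S \ insert a (insert b M)).card := by
      rw [Nat.one_le_iff_ne_zero, Ne, Finset.card_eq_zero, Finset.sdiff_eq_empty_iff_subset]
      exact hS
    have hcard := Finset.card_le_card hWW
    rw [List.length_cons]
    by_cases hS' : S.erase a ⊆ insert a' (insert b M)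
    · have h3 := h1 hS'
      omega
    · have h3 := h2 hS'
      omega

end Pool.Agent.BND
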