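import Pool.Agent.BND.EG5a
import Pool.Agent.BND.EG2b
import Pool.Agent.BND.EG3b
import Pool.Agent.BND.EG4b

/-!
# BND-EG5 : assembly of the strong Erdős–Gallai lemma

`eg_nopend`: `HH F S a b`, `S - a` is `Bic`, `M ⊆ S \ {a, b}` nonempty.
Proof.  `a` has a neighbour `a' ∈ S`, `a' ≠ b` (since `S - b` is connected, contains `a` and the
elements of `M`).  For `y ∈ M` the number of neighbours of `y` in `S - a` is at least `R - 1`.
Let `W = S \ (M ∪ {a, b})`.
If `M \ {a'}` is nonempty, apply the induction hypothesis to `(F, S - a, a', b)` (`Bic.hh`) with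
`M' = M \ {a'}` and `R - 1`; if `M = {a'}` apply `eg_base` to `S - a`, `a'`, `b`, with `M' = M` and
`R - 1` (`a'` has at least `R - 1` neighbours in `S - a`).  In both cases
`W' := (S - a) \ (M' ∪ {a', b}) = W \ {a'}` and we get a path `L'` from `a'` to `b` in `S - a` with
`R ≤ |L'|` if `W' = ∅`, `R + 1 ≤ |L'| + |W'|` if `W' ≠ ∅` (careful with natural subtraction when
`R = 0`, then everything is trivial: `2 ≤ |L|`… treat `R = 0` by `R - 1 + 1 ≥ R`).
Let `L = a :: L'`.  If `W ≠ ∅` and `W' = W`: `R + 2 ≤ |L| + |W|`.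
If `a' ∈ W` (`|W| = |W'| + 1`): `W' ≠ ∅`: `R + 2 ≤ |L| + |W|`; `W' = ∅`: `|L| + |W| ≥ R + 1 + 1`.
If `W = ∅`: `W' = ∅`, `|L| ≥ R + 1`.

`egh`: for all `F, S, a, b` with `HH F S a b`, `EGs F S a b`.  Proof by strong induction on `|S|`.
Given `M`, `R`:
(1) if there is a proper side piece use `side_step`.
(2) Otherwise: `S \ {a, b}` is connected: the component `X` of `S \ {a, b}` containing an element
of `M` satisfies (as `(b, X)` is not a proper side piece) `X ∪ {a, b} = S`.  Every pendant part
`(z, D)` is disjoint from `M`: otherwise `(z, D)` would be a proper side piece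
(`D ∪ {a, z} ≠ S` because `b` is missing).  Hence `D ⊆ W`.
 (2a) some pendant part `D` does not contain `W`: use `pend_step`.
 (2b) every pendant part contains `W` and there is at least one: use `pendall_step`.
 (2c) no pendant part at all: then `S - a` is `Bic`: it is connected (`ca`), has at least two
  elements, `(S - a) - b` is connected and for `z ≠ b` every component of `(S - a) - z` contains `b`
  (otherwise it is a pendant part) so `(S - a) - z` is connected.  Use `eg_nopend`.

`eg`: the final form, `Bic F S`, and `M` may contain `a` or `b`.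
Proof: if `M \ {a, b} ≠ ∅` use `egh` with `M \ {a, b}` (same set `insert a (insert b M)`), otherwise
`eg_base`.
-/

set_option autoImplicit false
set_option linter.unusedSectionVars false

namespace Pool.Agent.BND

open Classical

variable {V : Type} [Fintype V] {F : SimpleGraph V} {S M : Finset V} {a b : V} {R : ℕ}

theorem eg5b_con (h : HH F S a b) (hMS : M ⊆ S) (ha : a ∉ M) (hb : b ∉ M) (hMn : M.Nonempty)
    (hside : ∀ l X, ¬ SidePiece F S a b M l X) : Conn F ((S.erase a).erase b) := by
  obtain ⟨y, hy⟩ := hMn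
  have hyT : y ∈ (S.erase a).erase b :=
    Finset.mem_erase.2 ⟨fun e => hb (e ▸ hy), Finset.mem_erase.2 ⟨fun e => ha (e ▸ hy), hMS hy⟩⟩
  obtain ⟨X, hX, hyX⟩ := exists_comp (G := F) hyT
  have hbX : b ∉ X := fun hbX => (Finset.mem_erase.1 (hX.1 hbX)).1 rfl
  have hins : insert a (insert b X) = S := by
    by_contra hne
    exact hside b X ⟨h.hb, h.ab.symm, hX, hbX, ⟨y, Finset.mem_inter.2 ⟨hyX, hy⟩⟩, hne⟩
  have hXT : X = (S.erase a).erase b := by
    refine Finset.Subset.antisymm hX.1 ?_
    intro z hz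
    obtain ⟨hzb, hz⟩ := Finset.mem_erase.1 hz
    obtain ⟨hza, hz⟩ := Finset.mem_erase.1 hz
    rw [← hins, Finset.mem_insert, Finset.mem_insert] at hz
    rcases hz with hz | hz | hz
    · exact absurd hz hza
    · exact absurd hz hzb
    · exact hz
  rw [← hXT]
  exact hX.2.1

theorem eg5b_no (h : HH F S a b) (hside : ∀ l X, ¬ SidePiece F S a b M l X) {z : V}
    {D : Finset V} (hD : Pend F S a b z D) : Disjoint D M := by
  by_contra hcon
  rw [Finset.disjoint_iff_inter_eq_empty, ← Ne, ← Finset.nonempty_iff_ne_empty] at hcon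
  obtain ⟨h1, h2, h3, h4, h5⟩ := hD
  refine hside z D ⟨h1, h2, h4, h5, hcon, ?_⟩
  intro h6
  have h7 := h.hb
  rw [← h6, Finset.mem_insert, Finset.mem_insert] at h7
  rcases h7 with h7 | h7 | h7
  · exact h.ab h7.symm
  · exact h3 h7.symm
  · exact h5 h7

theorem eg5b_sub {z : V} {D : Finset V} (hD : Pend F S a b z D) (hdis : Disjoint D M) :
    D ⊆ S \ insert a (insert b M) := by
  intro q hq
  obtain ⟨h1, h2, h3, h4, h5⟩ := hD
  have h6 := h4.1 hq
  obtain ⟨hqz, h6⟩ := Finset.mem_erase.1 h6
  obtain ⟨hqa, h6⟩ := Finset.mem_erase.1 h6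
  rw [Finset.mem_sdiff, Finset.mem_insert, Finset.mem_insert]
  refine ⟨h6, ?_⟩
  rintro (h7 | h7 | h7)
  · exact hqa h7
  · exact h5 (h7 ▸ hq)
  · exact Finset.disjoint_left.1 hdis hq h7

theorem eg5b_bic (h : HH F S a b) (hMS : M ⊆ S) (ha : a ∉ M) (hb : b ∉ M) (hMn : M.Nonempty)
    (hcon : Conn F ((S.erase a).erase b)) (hno : ∀ z D, ¬ Pend F S a b z D) :
    Bic F (S.erase a) := by
  have hbT : b ∈ S.erase a := Finset.mem_erase.2 ⟨h.ab.symm, h.hb⟩
  refine ⟨?_, h.ca, ?_⟩
  · obtain ⟨y, hy⟩ := hMn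
    have hyT : y ∈ S.erase a := Finset.mem_erase.2 ⟨fun e => ha (e ▸ hy), hMS hy⟩
    exact Finset.one_lt_card.2 ⟨b, hbT, y, hyT, fun e => hb (e ▸ hy)⟩
  · intro z hz
    obtain ⟨hza, hzS⟩ := Finset.mem_erase.1 hz
    by_cases hzb : z = b
    · subst hzb
      exact hcon
    · have hbz : b ∈ (S.erase a).erase z := Finset.mem_erase.2 ⟨Ne.symm hzb, hbT⟩
      have hall : ∀ X, Comp F ((S.erase a).erase z) X → b ∈ X := by
        intro X hX
        by_contra hbX
        exact hno z X ⟨hzS, hza, hzb, hX, hbX⟩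
      obtain ⟨Y, hY, hbY⟩ := exists_comp (G := F) hbz
      have hYT : Y = (S.erase a).erase z := by
        refine Finset.Subset.antisymm hY.1 ?_
        intro q hq
        obtain ⟨X, hX, hqX⟩ := exists_comp (G := F) hq
        have hbX := hall X hX
        rcases hX.eq_or_disjoint hY with hXY | hXY
        · rw [← hXY]
          exact hqX
        · exact absurd hbY (Finset.disjoint_left.1 hXY hbX)
      rw [← hYT]
      exact hY.2.1

theorem eg5b_all (n : ℕ) : EGih V n := by
  induction n with
  | zero =>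
    intro F S a b hS
    exact absurd hS (Nat.not_lt_zero _)
  | succ n ih =>
    intro F S a b hS h M R hMS ha hb hMn hR
    have hih : EGih V S.card := fun F' S' a' b' hS' => ih F' S' a' b' (by omega)
    by_cases hside : ∃ l X, SidePiece F S a b M l X
    · obtain ⟨l, X, hX⟩ := hside
      exact side_step h hX hMS ha hb hR hih
    · have hside' : ∀ l X, ¬ SidePiece F S a b M l X := fun l X hX => hside ⟨l, X, hX⟩
      have hcon := eg5b_con h hMS ha hb hMn hside'
      have hno : ∀ z' D', Pend F S a b z' D' → Disjoint D' M :=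
        fun z' D' hD => eg5b_no h hside' hD
      by_cases h2a : ∃ z D, Pend F S a b z D ∧ ¬ (S \ insert a (insert b M)) ⊆ D
      · obtain ⟨z, D, hD, hW⟩ := h2a
        exact pend_step h hD hMS ha hb hMn (hno z D hD) hW hR hih
      · have hall : ∀ z' D', Pend F S a b z' D' → S \ insert a (insert b M) ⊆ D' := by
          intro z' D' hD
          by_contra hW
          exact h2a ⟨z', D', hD, hW⟩
        by_cases h2b : ∃ z D, Pend F S a b z D
        · obtain ⟨z, D, hD⟩ := h2b
          have hDW : D = S \ insert a (insert b M) :=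
            Finset.Subset.antisymm (eg5b_sub hD (hno z D hD)) (hall z D hD)
          exact pendall_step h hD hMS ha hb hMn hDW hcon hall hno hR hih
        · have hno' : ∀ z D, ¬ Pend F S a b z D := fun z D hD => h2b ⟨z, D, hD⟩
          exact eg_nopend h (eg5b_bic h hMS ha hb hMn hcon hno') hMS ha hb hMn hR hih

theorem egh (F : SimpleGraph V) (S : Finset V) (a b : V) (h : HH F S a b) : EGs F S a b :=
  eg5b_all (S.card + 1) F S a b (Nat.lt_succ_self _) h

theorem eg (h : Bic F S) (ha : a ∈ S) (hb : b ∈ S) (hab : a ≠ b) (hMS : M ⊆ S)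
    (hMn : M.Nonempty) (hR : ∀ y ∈ M, R ≤ (S.filter (fun z => F.Adj y z)).card) :
    EGc F S a b M R := by
  by_cases hM' : ((M.erase a).erase b).Nonempty
  · have h1 := egh F S a b (h.hh ha hb hab) ((M.erase a).erase b) R
      (fun z hz => hMS (Finset.mem_of_mem_erase (Finset.mem_of_mem_erase hz)))
      (fun hz => (Finset.mem_erase.1 (Finset.mem_of_mem_erase hz)).1 rfl)
      (fun hz => (Finset.mem_erase.1 hz).1 rfl) hM'
      (fun y hy => hR y (Finset.mem_of_mem_erase (Finset.mem_of_mem_erase hy)))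
    have h2 : insert a (insert b ((M.erase a).erase b)) = insert a (insert b M) := by
      ext z
      simp only [Finset.mem_insert, Finset.mem_erase]
      tauto
    unfold EGc at h1 ⊢
    rw [h2] at h1
    exact h1
  · obtain ⟨y, hy⟩ := hMn
    have hM : ∀ y ∈ M, y = a ∨ y = b := by
      intro y hy
      by_contra hcon
      push Not at hcon
      exact hM' ⟨y, Finset.mem_erase.2 ⟨hcon.2, Finset.mem_erase.2 ⟨hcon.1, hy⟩⟩⟩
    exact eg_base h ha hb hab hM (hMS hy) (hM y hy) (hR y hy)

end Pool.Agent.BND
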