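import Pool.Agent.BND.P2b

/-!
# BND-EG : definitions for the strong Erdős–Gallai lemma (long paths between two given vertices of a
graph without cut vertices, with exceptional vertices)
-/

set_option autoImplicit false
set_option linter.unusedSectionVars false

namespace Pool.Agent.BND

open Classical

variable {V : Type} [Fintype V]

/-- `F[S]` plus the edge `ab` has no cut vertex, expressed without adding the edge. -/
structure HH (F : SimpleGraph V) (S : Finset V) (a b : V) : Prop where
  ha : a ∈ S
  hb : b ∈ S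
  ab : a ≠ b
  ca : Conn F (S.erase a)
  cb : Conn F (S.erase b)
  cz : ∀ z ∈ S, z ≠ a → z ≠ b → ∀ q ∈ S, q ≠ z →
    (∃ l, Pth F (S.erase z) q a l) ∨ (∃ l, Pth F (S.erase z) q b l)

/-- The conclusion of the lemma for the pair `a, b` in `F[S]`, the set `M` and the number `R`:
some path from `a` to `b` in `S` has at least `R` edges if `S ⊆ M ∪ {a, b}`, and at least
`R + 1 - |S \ (M ∪ {a, b})|` edges otherwise. -/
def EGc (F : SimpleGraph V) (S : Finset V) (a b : V) (M : Finset V) (R : ℕ) : Prop :=
  ∃ l, Pth F S a b l ∧ (S ⊆ insert a (insert b M) → R + 1 ≤ l.length) ∧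
    (¬ S ⊆ insert a (insert b M) → R + 2 ≤ l.length + (S \ insert a (insert b M)).card)

/-- The lemma for `F`, `S`, `a`, `b` (with `M` avoiding `a` and `b`). -/
def EGs (F : SimpleGraph V) (S : Finset V) (a b : V) : Prop :=
  ∀ (M : Finset V) (R : ℕ), M ⊆ S → a ∉ M → b ∉ M → M.Nonempty →
    (∀ y ∈ M, R ≤ (S.filter (fun z => F.Adj y z)).card) → EGc F S a b M R

/-- induction hypothesis: the lemma holds for all graphs on smaller vertex sets -/
def EGih (V : Type) [Fintype V] (n : ℕ) : Prop :=
  ∀ (F : SimpleGraph V) (S : Finset V) (a b : V), S.card < n → HH F S a b → EGs F S a b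

/-- `(l, X)` is a proper side piece: `X` is a component of `S - {a, l}` without `b`, meeting `M`,
and `X ∪ {a, l}` is not all of `S`. -/
def SidePiece (F : SimpleGraph V) (S : Finset V) (a b : V) (M : Finset V) (l : V) (X : Finset V) :
    Prop :=
  l ∈ S ∧ l ≠ a ∧ Comp F ((S.erase a).erase l) X ∧ b ∉ X ∧ (X ∩ M).Nonempty ∧
    insert a (insert l X) ≠ S

/-- `(z, D)` is a pendant part: `D` is a component of `S - {a, z}` without `b` (`z ≠ a, b`). -/
def Pend (F : SimpleGraph V) (S : Finset V) (a b z : V) (D : Finset V) : Prop :=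
  z ∈ S ∧ z ≠ a ∧ z ≠ b ∧ Comp F ((S.erase a).erase z) D ∧ b ∉ D

/-- `F` plus the edge `az` -/
def addE (F : SimpleGraph V) (a z : V) : SimpleGraph V := F ⊔ SimpleGraph.fromEdgeSet {s(a, z)}

end Pool.Agent.BND
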