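import Pool.Agent.BND.SUn
import Pool.Agent.BND.P4d

/-!
# BND-SU : surgeries on the longest cycle

In all statements the conclusion is obtained by writing down a cycle (as a concatenation of blocks
`fw`/`bw` of the cycle and of ears), checking that it is a cycle (`CycL`) with more than `c`
vertices, computing its sign with `Ctx.fw_sg`, `Ctx.bw_sg`, and using `h.max`: a cycle with more than
`c` vertices does not have sign `τ`, hence has sign `τ + 1` (in `ZMod 2`).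
Membership in blocks is read on positions (`mem_fw`, `mem_bw`, `Ctx.veq`), and the ears live in
`Bs v c`, which is disjoint from the cycle.
-/

set_option autoImplicit false
set_option linter.unusedSectionVars false

namespace Pool.Agent.BND

open Classical

variable {V : Type} [Fintype V]
variable {G : SimpleGraph V} {ε : V → V → ZMod 2} {τ : ZMod 2} {d c : ℕ} {v : ℤ → V}
  {s : ℤ → ZMod 2}

theorem su3_append (ε : V → V → ZMod 2) {l l' : List V} {y z : V} (hl : l.getLast? = some y)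
    (hl' : l'.head? = some z) : sg ε (l ++ l') = sg ε l + ε y z + sg ε l' := by
  obtain ⟨l1, rfl⟩ := List.getLast?_eq_some_iff.1 hl
  obtain ⟨l2, rfl⟩ := List.head?_eq_some_iff.1 hl'
  exact sg_split_edge l1 y z l2

theorem su3_via {D : Finset V} {w x y : V} {J : List V} (hJ : Via G D w x y J) :
    ∃ a b, Pth G (insert w D) a b J ∧ G.Adj x a ∧ G.Adj b y ∧
      sg ε (x :: (J ++ [y])) = ε x a + sg ε J + ε b y := by
  obtain ⟨a, ha⟩ : ∃ a, J.head? = some a := by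
    cases J with
    | nil => exact absurd rfl hJ.ne
    | cons a t => exact ⟨a, rfl⟩
  obtain ⟨b, hb⟩ : ∃ b, J.getLast? = some b :=
    ⟨J.getLast hJ.ne, List.getLast?_eq_getLast_of_ne_nil hJ.ne⟩
  have hch := hJ.chain
  rw [List.isChain_cons] at hch
  obtain ⟨h1, h2⟩ := hch
  rw [List.isChain_append] at h2
  obtain ⟨h3, -, h4⟩ := h2
  refine ⟨a, b, ⟨ha, hb, hJ.nodup, h3, ?_⟩, ?_, ?_, ?_⟩
  · intro z hz
    rw [Finset.mem_insert]
    exact (hJ.sub z hz).symm
  · apply h1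
    rw [List.head?_append, ha]
    rfl
  · exact h4 b (by rw [hb]; rfl) y rfl
  · have e1 : x :: (J ++ [y]) = [x] ++ (J ++ [y]) := rfl
    have e2 : (J ++ [y]).head? = some a := by
      rw [List.head?_append, ha]
      rfl
    rw [e1, su3_append ε (y := x) rfl e2, su3_append ε hb (z := y) rfl]
    simp only [sg_single]
    ring

theorem su3_gen (h : NCtx G ε τ d c v s) {w : V} {P J : List V} {i j : ℤ}
    (hP : Pth G (Cs v c) (v i) (v j) P) (hJ : Via G (Bs v c) w (v j) (v i) J)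
    (hz : sg ε (v j :: (J ++ [v i])) = 0) (hw : w ∉ P) (hlen : c < P.length + J.length) :
    sg ε P = τ + 1 := by
  obtain ⟨a, b, hQ, hja, hbi, hsg⟩ := su3_via (ε := ε) hJ
  have hd : ∀ q ∈ P, q ∉ J := by
    intro q hq hqJ
    rcases hJ.sub q hqJ with h1 | h1
    · have h2 : q ∈ Cs v c := hP.sub q hq
      exact (Finset.mem_compl.1 h1) h2
    · rw [h1] at hq
      exact hw hq
  obtain ⟨h1, h2⟩ := cyc_of_two (ε := ε) hP hQ hja hbi hd (by have := h.three; omega)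
  have h3 : csg ε (P ++ J) = sg ε P := by
    rw [h2]
    rw [hsg] at hz
    linear_combination hz
  by_contra hne
  have key : ∀ p q : ZMod 2, p ≠ q + 1 → p = q := by decide
  have h4 : sg ε P = τ := key _ _ hne
  have h5 := h.max _ h1 (h3.trans h4)
  rw [List.length_append] at h5
  omega

theorem su3_mem_fw {v : ℤ → V} {i k : ℤ} (hik : i ≤ k) {x : V} :
    x ∈ fw v i ((k - i).toNat + 1) ↔ ∃ t : ℤ, i ≤ t ∧ t ≤ k ∧ v t = x := by
  rw [mem_fw]
  constructor
  · rintro ⟨t, h1, h2, h3⟩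
    exact ⟨t, h1, by push_cast at h2; omega, h3⟩
  · rintro ⟨t, h1, h2, h3⟩
    exact ⟨t, h1, by push_cast; omega, h3⟩

theorem su3_mem_bw {v : ℤ → V} {i k : ℤ} (hik : k ≤ i) {x : V} :
    x ∈ bw v i ((i - k).toNat + 1) ↔ ∃ t : ℤ, k ≤ t ∧ t ≤ i ∧ v t = x := by
  rw [mem_bw]
  constructor
  · rintro ⟨t, h1, h2, h3⟩
    exact ⟨t, by push_cast at h2; omega, h1, h3⟩
  · rintro ⟨t, h1, h2, h3⟩
    exact ⟨t, h2, by push_cast; omega, h3⟩

/-- type A with a general `w` -/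
theorem su3_A (h : NCtx G ε τ d c v s) {i k j l : ℤ} (hik : i ≤ k) (hkj : k < j) (hjl : j ≤ l)
    (hl : l < i + c) (hadj : G.Adj (v k) (v l)) {w : V} {J : List V}
    (hJ : Via G (Bs v c) w (v j) (v i) J) (hz : sg ε (v j :: (J ++ [v i])) = 0)
    (hw : ∀ t : ℤ, (i ≤ t ∧ t ≤ k) ∨ (j ≤ t ∧ t ≤ l) → v t ≠ w)
    (hlen : (c : ℤ) < (k - i + 1) + (l - j + 1) + J.length) :
    (s k - s i) + ε (v k) (v l) + (s l - s j) = τ + 1 := by
  have h1 := h.fw_pth hik (by omega : k < i + c)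
  have h2 := h.bw_pth hjl (by omega : l < j + c)
  have hP := pth_append h1 h2 hadj (by
    intro q hq hq'
    obtain ⟨t, ht1, ht2, ht3⟩ := (su3_mem_fw hik).1 hq
    obtain ⟨u, hu1, hu2, hu3⟩ := (su3_mem_bw hjl).1 hq'
    exact h.vne (by omega : t < u) (by omega : u < t + c) (ht3.trans hu3.symm))
  have h3 := su3_gen h hP hJ hz (by
    rw [List.mem_append, su3_mem_fw hik, su3_mem_bw hjl]
    rintro (⟨t, ht1, ht2, ht3⟩ | ⟨t, ht1, ht2, ht3⟩)
    · exact hw t (Or.inl ⟨ht1, ht2⟩) ht3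
    · exact hw t (Or.inr ⟨ht1, ht2⟩) ht3) (by
    rw [List.length_append, fw_length, bw_length]
    omega)
  rw [su3_append ε h1.last h2.head, h.fw_sg, h.bw_sg] at h3
  rw [show i + ((k - i).toNat : ℤ) = k by omega, show l - ((l - j).toNat : ℤ) = j by omega] at h3
  exact h3

/-- type B with a general `w` -/
theorem su3_B (h : NCtx G ε τ d c v s) {i k j l : ℤ} (hki : k ≤ i) (hil : i < l) (hlj : l ≤ j)
    (hj : j < k + c) (hadj : G.Adj (v k) (v l)) {w : V} {J : List V}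
    (hJ : Via G (Bs v c) w (v j) (v i) J) (hz : sg ε (v j :: (J ++ [v i])) = 0)
    (hw : ∀ t : ℤ, (k ≤ t ∧ t ≤ i) ∨ (l ≤ t ∧ t ≤ j) → v t ≠ w)
    (hlen : (c : ℤ) < (i - k + 1) + (j - l + 1) + J.length) :
    (s i - s k) + ε (v k) (v l) + (s j - s l) = τ + 1 := by
  have h1 := h.bw_pth hki (by omega : i < k + c)
  have h2 := h.fw_pth hlj (by omega : j < l + c)
  have hP := pth_append h1 h2 hadj (by
    intro q hq hq'
    obtain ⟨t, ht1, ht2, ht3⟩ := (su3_mem_bw hki).1 hq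
    obtain ⟨u, hu1, hu2, hu3⟩ := (su3_mem_fw hlj).1 hq'
    exact h.vne (by omega : t < u) (by omega : u < t + c) (ht3.trans hu3.symm))
  have h3 := su3_gen h hP hJ hz (by
    rw [List.mem_append, su3_mem_bw hki, su3_mem_fw hlj]
    rintro (⟨t, ht1, ht2, ht3⟩ | ⟨t, ht1, ht2, ht3⟩)
    · exact hw t (Or.inl ⟨ht1, ht2⟩) ht3
    · exact hw t (Or.inr ⟨ht1, ht2⟩) ht3) (by
    rw [List.length_append, fw_length, bw_length]
    omega)
  rw [su3_append ε h1.last h2.head, h.fw_sg, h.bw_sg] at h3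
  rw [show l + ((j - l).toNat : ℤ) = j by omega, show i - ((i - k).toNat : ℤ) = k by omega] at h3
  exact h3

/-- a vertex of an ear -/
theorem su3_ear_mem (h : NCtx G ε τ d c v s) {x y : V} {J : List V}
    (hJ : Ear G (Bs v c) x y J) : ∃ w, ∀ t : ℤ, v t ≠ w := by
  obtain ⟨w, hw⟩ := List.exists_mem_of_ne_nil J hJ.ne
  refine ⟨w, fun t ht => ?_⟩
  have h1 := hJ.sub w hw
  rw [← ht] at h1
  exact v_not_mem_Bs h.toCtx t h1

/-- (SU3) one chord, type A.  Cycle: `v i, …, v k, v l, v (l-1), …, v j, J`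
(forward, chord `v k v l`, backward, outside). -/
theorem NCtx.su3 (h : NCtx G ε τ d c v s) {i k j l : ℤ} (hik : i ≤ k) (hkj : k < j) (hjl : j ≤ l)
    (hl : l < i + c) (hadj : G.Adj (v k) (v l)) {q : ℤ} {J : List V}
    (hJ : Via G (Bs v c) (v q) (v j) (v i) J)
    (hq : ∀ t : ℤ, (i ≤ t ∧ t ≤ k) ∨ (j ≤ t ∧ t ≤ l) → v t ≠ v q)
    (hlen : (c : ℤ) < (k - i + 1) + (l - j + 1) + J.length) :
    (s k - s i) + ε (v k) (v l) + (s l - s j) = τ + 1 :=
  su3_A h hik hkj hjl hl hadj hJ (h.via_sg hJ) hq hlen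

/-- (SU3') the same with an ear instead of a `Via` path -/
theorem NCtx.su3e (h : NCtx G ε τ d c v s) {i k j l : ℤ} (hik : i ≤ k) (hkj : k < j) (hjl : j ≤ l)
    (hl : l < i + c) (hadj : G.Adj (v k) (v l)) {J : List V}
    (hJ : Ear G (Bs v c) (v j) (v i) J)
    (hlen : (c : ℤ) < (k - i + 1) + (l - j + 1) + J.length) :
    (s k - s i) + ε (v k) (v l) + (s l - s j) = τ + 1 := by
  obtain ⟨w, hw⟩ := su3_ear_mem h hJ
  exact su3_A h hik hkj hjl hl hadj (hJ.via w) (h.ear_sg hJ) (fun t _ => hw t) hlen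

/-- (SU4) one chord, type B.  Cycle: `v i, v (i-1), …, v k, v l, v (l+1), …, v j, J`. -/
theorem NCtx.su4 (h : NCtx G ε τ d c v s) {i k j l : ℤ} (hki : k ≤ i) (hil : i < l) (hlj : l ≤ j)
    (hj : j < k + c) (hadj : G.Adj (v k) (v l)) {q : ℤ} {J : List V}
    (hJ : Via G (Bs v c) (v q) (v j) (v i) J)
    (hq : ∀ t : ℤ, (k ≤ t ∧ t ≤ i) ∨ (l ≤ t ∧ t ≤ j) → v t ≠ v q)
    (hlen : (c : ℤ) < (i - k + 1) + (j - l + 1) + J.length) :
    (s i - s k) + ε (v k) (v l) + (s j - s l) = τ + 1 :=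
  su3_B h hki hil hlj hj hadj hJ (h.via_sg hJ) hq hlen

theorem NCtx.su4e (h : NCtx G ε τ d c v s) {i k j l : ℤ} (hki : k ≤ i) (hil : i < l) (hlj : l ≤ j)
    (hj : j < k + c) (hadj : G.Adj (v k) (v l)) {J : List V}
    (hJ : Ear G (Bs v c) (v j) (v i) J)
    (hlen : (c : ℤ) < (i - k + 1) + (j - l + 1) + J.length) :
    (s i - s k) + ε (v k) (v l) + (s j - s l) = τ + 1 := by
  obtain ⟨w, hw⟩ := su3_ear_mem h hJ
  exact su3_B h hki hil hlj hj hadj (hJ.via w) (h.ear_sg hJ) (fun t _ => hw t) hlen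

end Pool.Agent.BND
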