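import Pool.Agent.BND.NC
import Pool.Agent.BND.SU3

/-!
# BND-EQ : the extremal configuration is impossible

Hypotheses (`EqH`): normalised context; `A i := Tp G v c i` (positions with neighbours outside),
`N = ` number of such positions per period, `N ≥ 3`, `m ≥ 2`, `d + 1 = N + m`;
`A` is invariant under `+ (m + 2)`; for `A i` there is exactly one element `j` of `A` strictly between
`i` and `i + m + 2`, and `i + 2 ≤ j ≤ i + m`; all arcs between consecutive elements of `A` are negative
(`s j = s i + 1`); between different `v i`, `v j` (`A i`, `A j`) there is an ear with `|I| ≥ m` and for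
three different ones a `Via` path with `|J| ≥ m + 1`.

`eq_chord`.  Let `A i`, `A i'` be consecutive, `i < z < i'`, and `A j`, `A j'` consecutive,
`j < z' < j'`, with `i' ≤ j`, `j' < i + c` (so the two segments are different and `j'` is not `i`:
the two segments are not in the cyclic order: second immediately before first).  Then `v z` and
`v z'` are not adjacent.
Proof.  Suppose `v z ~ v z'`.  Put `p = z - i`, `p' = z' - j`, `g = i' - i`, `g' = j' - j`,
`E = ε (v z) (v z') + (s z - s i) + (s z' - s j)`.  Note `2 ≤ g, g' ≤ m`.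
 * `X`: `su4e` (type B) with `k = z`, `i := j`, `l = z'`, `j := i + c`
   (blocks `v j, …, v z` backward, chord, `v z', …, v (i + c)` forward) and an ear from `v (i+c)` to
   `v j` with `|I| ≥ m`.  If `(j - z + 1) + (i + c - z' + 1) + m > c`, i.e. `p + p' < m + 2`, then
   `(s j - s z) + ε + (s (i + c) - s z') = τ + 1`; since `s (i + c) = s i + τ` this says `E = 1`.
 * `Y`: `su3e` (type A) with blocks `v i', …, v z'` forward, chord `v z' v (z + c)`,
   `v (z + c), …, v j'` backward, ear from `v j'` to `v i'` (`i := i'`, `k := z'`, `j := j'`,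
   `l := z + c`).  If `(z' - i' + 1) + (z + c - j' + 1) + m > c`, i.e.
   `(g - p) + (g' - p') < m + 2`, then `(s z' - s i') + ε + (s (z + c) - s j') = τ + 1`.
   As `s i' = s i + 1`, `s j' = s j + 1`, again `E = 1`.
   If both fail, `g + g' ≥ 2 m + 4`, impossible.  So `E = 1`.
 * Let `i₋` be the element of `A` before `i`: `i₋ = i' - (m + 2)`, so `i₋ + c ≥ j'`.
   `X'`: `su4` with blocks `v j, …, v z` backward, `v z', …, v (i₋ + c)` forward, and a `Via` path
   through `v i` from `v (i₋ + c)` to `v j`, `|J| ≥ m + 1` (the three vertices are different: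
   `i < i' ≤ j < j' ≤ i₋ + c < i + c`).  If `(j - z + 1) + (i₋ + c - z' + 1) + (m + 1) > c`
   then `(s j - s z) + ε + (s (i₋ + c) - s z') = τ + 1`, with `s i₋ = s i - 1` this says `E = 0`:
   contradiction to `E = 1`.  So `j - z + i₋ - z' + m + 3 ≤ 0`, i.e.
   `p + p' + (i - i₋) ≥ m + 3`.
 * `Y'`: let `j₊ = j + m + 2` be the element of `A` after `j'`; `j₊ ≤ i + c`.  `su3` with blocks
   `v i', …, v z'` forward, `v (z + c), …, v j₊` backward, and a `Via` path through `v j'` from `v j₊`
   to `v i'`, `|J| ≥ m + 1`.  Since `s j₊ = s j' + 1`, the conclusion would be `E = 0`, so it must be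
   too short: `(g - p) + (g' - p') + (j₊ - j') ≥ m + 3`.
   Sum: `(i' - i₋) + (j₊ - j) ≥ 2 m + 6`, but both are `m + 2`.  Contradiction.

`eq_chord'`: for arbitrary different segments: `i' ≤ j` and `j' ≤ i + c`; if `j' = i + c`
then exchange the roles: segments `(j, j')` and `(i + c, i' + c)`, with `i' + c < j + c`
because `N ≥ 3`.

`eq_false`.  Take `A i` and the next `i'`, `z = i + 1 < i'`, `¬ A z`, so all neighbours of `v z` are
on the cycle, and by `eq_chord'` they are in the same segment (`i < t < i'`) or positions of `A`: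
at most `(i' - i - 2) + N ≤ m - 2 + N = d - 1` neighbours.  Contradiction to `d ≤ deg`.
-/

set_option autoImplicit false
set_option linter.unusedSectionVars false

namespace Pool.Agent.BND

open Classical

variable {V : Type} [Fintype V]
variable {G : SimpleGraph V} {ε : V → V → ZMod 2} {τ : ZMod 2} {d c : ℕ} {v : ℤ → V}
  {s : ℤ → ZMod 2} {N m : ℕ}

theorem eq1_a : ∀ (e sz si sw sj t : ZMod 2), (sj - sz) + e + ((si + t) - sw) = t + 1 →
    e + sz + si + sw + sj = 1 := by decide

theorem eq1_b : ∀ (e sz si sw sj t : ZMod 2),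
    (sw - (si + 1)) + e + ((sz + t) - (sj + 1)) = t + 1 →
    e + sz + si + sw + sj = 1 := by decide

theorem eq1_c : ∀ (e sz si sw sj t : ZMod 2), (sj - sz) + e + ((si + t) - sw) = t + 1 →
    e + sz + (si + 1) + sw + sj = 0 := by decide

theorem eq1_d : ∀ (e sz si sw sj t : ZMod 2),
    (sw - (si + 1)) + e + ((sz + t) - (sj + 1 + 1)) = t + 1 →
    e + sz + si + sw + sj = 0 := by decide

theorem eq1_tp_add (h : EqH G ε τ d c v s N m) (n : ℕ) {i : ℤ} (hi : Tp G v c i) :
    Tp G v c (i + n * ((m : ℤ) + 2)) := by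
  induction n with
  | zero => simpa using hi
  | succ n ih =>
    have h1 := h.inv _ ih
    have e : i + ((n + 1 : ℕ) : ℤ) * ((m : ℤ) + 2) = i + n * ((m : ℤ) + 2) + m + 2 := by
      push_cast; ring
    rw [e]; exact h1

theorem eq1_tp_per (h : EqH G ε τ d c v s N m) (n : ℕ) {i : ℤ} (hi : Tp G v c i) :
    Tp G v c (i - n * (c : ℤ)) := by
  induction n with
  | zero => simpa using hi
  | succ n ih =>
    have e : i - (n : ℤ) * (c : ℤ) = (i - ((n + 1 : ℕ) : ℤ) * (c : ℤ)) + c := by
      push_cast; ring
    rw [e, Tp.per h.ctx.toCtx] at ih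
    exact ih

theorem eq1_tp_sub (h : EqH G ε τ d c v s N m) {i : ℤ} (hi : Tp G v c i) :
    Tp G v c (i - ((m : ℤ) + 2)) := by
  have hc : 3 ≤ c := h.ctx.three
  have h1 := eq1_tp_add h (c - 1) (eq1_tp_per h (m + 2) hi)
  have e : i - ((m + 2 : ℕ) : ℤ) * (c : ℤ) + ((c - 1 : ℕ) : ℤ) * ((m : ℤ) + 2)
      = i - ((m : ℤ) + 2) := by
    push_cast [Nat.cast_sub (show 1 ≤ c by omega)]; ring
  rw [e] at h1; exact h1

/-- consecutive elements: the structure up to the second next -/
theorem eq1_next (h : EqH G ε τ d c v s N m) {i i' : ℤ} (hi : Tp G v c i) (hi' : Tp G v c i')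
    (hlt : i < i') (hii : ∀ k : ℤ, i < k → k < i' → ¬ Tp G v c k) :
    i + 2 ≤ i' ∧ i' ≤ i + m ∧ Tp G v c (i + m + 2) ∧
      ∀ k : ℤ, i < k → k < i + m + 2 → Tp G v c k → k = i' := by
  obtain ⟨j, hj1, hj2, hj3, hj4⟩ := h.btw i hi
  have hle : i' ≤ j := by
    by_contra hcon
    push Not at hcon
    exact hii j (by omega) hcon hj3
  have he : i' = j := hj4 i' hlt (by omega) hi'
  subst he
  exact ⟨hj1, hj2, h.inv i hi, hj4⟩

theorem eq_chord (h : EqH G ε τ d c v s N m) {i i' j j' z z' : ℤ}
    (hi : Tp G v c i) (hi' : Tp G v c i') (hii : ∀ k : ℤ, i < k → k < i' → ¬ Tp G v c k)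
    (hj : Tp G v c j) (hj' : Tp G v c j') (hjj : ∀ k : ℤ, j < k → k < j' → ¬ Tp G v c k)
    (hz : i < z) (hz' : z < i') (hw : j < z') (hw' : z' < j') (hij : i' ≤ j) (hji : j' < i + c) :
    ¬ G.Adj (v z) (v z') := by
  intro hadj
  have hctx := h.ctx
  have hC := hctx.toCtx
  obtain ⟨g1, g2, -, -⟩ := eq1_next h hi hi' (by omega) hii
  obtain ⟨g1', g2', hjp, hjpu⟩ := eq1_next h hj hj' (by omega) hjj
  have hsi : s i' = s i + 1 := h.neg i i' (by omega) hi hi' hii
  have hsj : s j' = s j + 1 := h.neg j j' (by omega) hj hj' hjj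
  -- previous element
  obtain ⟨im, him⟩ : ∃ im : ℤ, im = i' - ((m : ℤ) + 2) := ⟨_, rfl⟩
  have hAim : Tp G v c im := by rw [him]; exact eq1_tp_sub h hi'
  have himi : ∀ k : ℤ, im < k → k < i' → Tp G v c k → k = i := by
    intro k hk1 hk2 hk3
    obtain ⟨u, hu1, hu2, hu3, hu4⟩ := h.btw im hAim
    have e1 := hu4 k hk1 (by omega) hk3
    have e2 := hu4 i (by omega) (by omega) hi
    rw [e1, e2]
  have hsim : s i = s im + 1 := by
    refine h.neg im i (by omega) hAim hi ?_
    intro k hk1 hk2 hk3
    have := himi k hk1 (by omega) hk3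
    omega
  have hAimc : Tp G v c (im + c) := (Tp.per hC).2 hAim
  have hAic : Tp G v c (i + c) := (Tp.per hC).2 hi
  have hjim : j' ≤ im + c := by
    by_contra hcon
    push Not at hcon
    have hA : Tp G v c (j' - c) := by
      have : Tp G v c ((j' - c) + c) := by simpa using hj'
      exact (Tp.per hC).1 this
    have := himi (j' - c) (by omega) (by omega) hA
    omega
  -- next element
  obtain ⟨jp, hjpe⟩ : ∃ jp : ℤ, jp = j + m + 2 := ⟨_, rfl⟩
  rw [← hjpe] at hjp hjpu
  have hsjp : s jp = s j + 1 + 1 := by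
    rw [← hsj]
    refine h.neg j' jp (by omega) hj' hjp ?_
    intro k hk1 hk2 hk3
    have := hjpu k (by omega) hk2 hk3
    omega
  have hjpi : jp ≤ i + c := by
    by_contra hcon
    push Not at hcon
    have := hjpu (i + c) (by omega) hcon hAic
    omega
  -- E = 1
  have hE : ε (v z) (v z') + s z + s i + s z' + s j = 1 := by
    have hne1 : v (i + c) ≠ v j := by
      rw [hC.vper1]
      exact hC.vne (by omega) (by omega)
    obtain ⟨I, hI, hIl⟩ := h.ear (i + c) j hAic hj hne1
    have hne2 : v j' ≠ v i' := (hC.vne (by omega) (by omega)).symm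
    obtain ⟨I2, hI2, hIl2⟩ := h.ear j' i' hj' hi' hne2
    by_cases hX : (c : ℤ) < (j - z + 1) + (i + c - z' + 1) + I.length
    · have := hctx.su4e (k := z) (i := j) (l := z') (j := i + c) (by omega) hw (by omega)
        (by omega) hadj hI hX
      rw [hC.per] at this
      exact eq1_a _ _ _ _ _ _ this
    · have hY : (c : ℤ) < (z' - i' + 1) + (z + c - j' + 1) + I2.length := by omega
      have hadj2 : G.Adj (v z') (v (z + c)) := by rw [hC.vper1]; exact hadj.symm
      have := hctx.su3e (i := i') (k := z') (j := j') (l := z + c) (by omega) hw' (by omega)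
        (by omega) hadj2 hI2 hY
      rw [hC.per, hC.vper1, hsi, hsj, hC.symm] at this
      exact eq1_b _ _ _ _ _ _ this
  -- X'
  have hX' : (j - z + 1) + (im + c - z' + 1) + ((m : ℤ) + 1) ≤ c := by
    by_contra hcon
    push Not at hcon
    have hn1 : v (im + c) ≠ v j := (hC.vne (by omega) (by omega)).symm
    have hn2 : v (im + c) ≠ v i := (hC.vne (by omega) (by omega)).symm
    have hn3 : v j ≠ v i := (hC.vne (by omega) (by omega)).symm
    obtain ⟨J, hJ, hJl⟩ := h.via (im + c) j i hAimc hj hi hn1 hn2 hn3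
    have := hctx.su4 (k := z) (i := j) (l := z') (j := im + c) (q := i) (by omega) hw (by omega)
      (by omega) hadj hJ
      (by
        intro t ht
        exact (hC.vne (i := i) (j := t) (by omega) (by omega)).symm)
      (by omega)
    rw [hC.per] at this
    have h0 := eq1_c _ _ _ _ _ _ this
    rw [← hsim, hE] at h0
    exact absurd h0 (by decide)
  have hY' : (z' - i' + 1) + (z + c - jp + 1) + ((m : ℤ) + 1) ≤ c := by
    by_contra hcon
    push Not at hcon
    have hn1 : v jp ≠ v i' := (hC.vne (by omega) (by omega)).symm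
    have hn2 : v jp ≠ v j' := (hC.vne (by omega) (by omega)).symm
    have hn3 : v i' ≠ v j' := hC.vne (by omega) (by omega)
    obtain ⟨J, hJ, hJl⟩ := h.via jp i' j' hjp hi' hj' hn1 hn2 hn3
    have hadj2 : G.Adj (v z') (v (z + c)) := by rw [hC.vper1]; exact hadj.symm
    have := hctx.su3 (i := i') (k := z') (j := jp) (l := z + c) (q := j') (by omega) (by omega)
      (by omega) (by omega) hadj2 hJ
      (by
        intro t ht
        rcases ht with ht | ht
        · exact hC.vne (i := t) (j := j') (by omega) (by omega)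
        · exact (hC.vne (i := j') (j := t) (by omega) (by omega)).symm)
      (by omega)
    rw [hC.per, hC.vper1, hsi, hsjp, hC.symm] at this
    have h0 := eq1_d _ _ _ _ _ _ this
    rw [hE] at h0
    exact absurd h0 (by decide)
  omega

end Pool.Agent.BND
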