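import Pool.Agent.BND.EQ1

/-!
# BND-EQ : the extremal configuration is impossible

Hypotheses (`EqH`): normalised context; `A i := Tp G v c i` (positions with neighbours outside),
`N = ` number of such positions per period, `N ≥ 3`, `m ≥ 2`, `d + 1 = N + m`;
`A` is invariant under `+ (m + 2)`; for `A i` there is exactly one element `j` of `A` strictly between
`i` and `i + m + 2`, and `i + 2 ≤ j ≤ i + m`; all arcs between consecutive elements of `A` are negative
(`s j = s i + 1`); between different `v i`, `v j` (`A i`, `A j`) there is an ear with `|I| ≥ m` and for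
three different ones a `Via` path with `|J| ≥ m + 1`.

`eq_chord`.  Let `A i`, `A i'` be consecutive, `i < z < i'`, and `A j`, `A j'` consecutive,
`j < z' < j'`, with `i' ≤ j`, `j' < i + c` (so the two segments are different and `j'` is not `i`:
the two segments are not in the cyclic order second immediately before first).  Then `v z` and
`v z'` are not adjacent.
Proof.  Suppose `v z ~ v z'`.  Put `p = z - i`, `p' = z' - j`, `g = i' - i`, `g' = j' - j`,
`E = ε (v z) (v z') + (s z - s i) + (s z' - s j)`.  Note `2 ≤ g, g' ≤ m`.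
 * `X`: `su4e` (type B) with `k = z`, `i := j`, `l = z'`, `j := i + c`
   (blocks `v j, …, v z` backward, chord, `v z', …, v (i + c)` forward) and an ear from `v (i+c)` to
   `v j` with `|I| ≥ m`.  If `(j - z + 1) + (i + c - z' + 1) + m > c`, i.e. `p + p' < m + 2`, then
   `(s j - s z) + ε + (s (i + c) - s z') = τ + 1`; since `s (i + c) = s i + τ` this says `E = 1`.
 * `Y`: `su3e` (type A) with blocks `v i', …, v z'` forward, chord `v z' v (z + c)`,
   `v (z + c), …, v j'` backward, ear from `v j'` to `v i'` (`i := i'`, `k := z'`, `j := j'`,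
   `l := z + c`).  If `(z' - i' + 1) + (z + c - j' + 1) + m > c`, i.e.
   `(g - p) + (g' - p') < m + 2`, then `(s z' - s i') + ε + (s (z + c) - s j') = τ + 1`.
   As `s i' = s i + 1`, `s j' = s j + 1`, again `E = 1`.
   If both fail, `g + g' ≥ 2 m + 4`, impossible.  So `E = 1`.
 * Let `i₋` be the element of `A` before `i`: `i₋ = i' - (m + 2)`, so `i₋ + c ≥ j'`.
   `X'`: `su4` with blocks `v j, …, v z` backward, `v z', …, v (i₋ + c)` forward, and a `Via` path
   through `v i` from `v (i₋ + c)` to `v j`, `|J| ≥ m + 1` (the three vertices are different: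
   `i < i' ≤ j < j' ≤ i₋ + c < i + c`).  If `(j - z + 1) + (i₋ + c - z' + 1) + (m + 1) > c`
   then `(s j - s z) + ε + (s (i₋ + c) - s z') = τ + 1`, with `s i₋ = s i - 1` this says `E = 0`:
   contradiction to `E = 1`.  So `j - z + i₋ - z' + m + 3 ≤ 0`, i.e.
   `p + p' + (i - i₋) ≥ m + 3`.
 * `Y'`: let `j₊ = j + m + 2` be the element of `A` after `j'`; `j₊ ≤ i + c`.  `su3` with blocks
   `v i', …, v z'` forward, `v (z + c), …, v j₊` backward, and a `Via` path through `v j'` from `v j₊`
   to `v i'`, `|J| ≥ m + 1`.  Since `s j₊ = s j' + 1`, the conclusion would be `E = 0`, so it must be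
   too short: `(g - p) + (g' - p') + (j₊ - j') ≥ m + 3`.
   Sum: `(i' - i₋) + (j₊ - j) ≥ 2 m + 6`, but both are `m + 2`.  Contradiction.

`eq_chord'`: for arbitrary different segments: `i' ≤ j` and `j' ≤ i + c`; if `j' = i + c`
then exchange the roles: segments `(j, j')` and `(i + c, i' + c)`, with `i' + c < j + c`
because `N ≥ 3`.

`eq_false`.  Take `A i` and the next `i'`, `z = i + 1 < i'`, `¬ A z`, so all neighbours of `v z` are
on the cycle, and by `eq_chord'` they are in the same segment (`i < t < i'`) or positions of `A`: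
at most `(i' - i - 2) + N ≤ m - 2 + N = d - 1` neighbours.  Contradiction to `d ≤ deg`.
-/

set_option autoImplicit false
set_option linter.unusedSectionVars false

namespace Pool.Agent.BND

open Classical

variable {V : Type} [Fintype V]
variable {G : SimpleGraph V} {ε : V → V → ZMod 2} {τ : ZMod 2} {d c : ℕ} {v : ℤ → V}
  {s : ℤ → ZMod 2} {N m : ℕ}

theorem eq2_count (h : EqH G ε τ d c v s N m) (i : ℤ) :
    ((Finset.range c).filter (fun k : ℕ => Tp G v c (i + k))).card = N := by
  have h1 := h.ctx.tp_card i
  have h2 := h.ctx.tp_card 0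
  simp only [zero_add] at h2
  rw [h1, ← h2]; exact h.hN

theorem eq_chord' (h : EqH G ε τ d c v s N m) {i i' j j' z z' : ℤ}
    (hi : Tp G v c i) (hi' : Tp G v c i') (hii : ∀ k : ℤ, i < k → k < i' → ¬ Tp G v c k)
    (hj : Tp G v c j) (hj' : Tp G v c j') (hjj : ∀ k : ℤ, j < k → k < j' → ¬ Tp G v c k)
    (hz : i < z) (hz' : z < i') (hw : j < z') (hw' : z' < j') (hij : i' ≤ j) (hji : j' ≤ i + c) :
    ¬ G.Adj (v z) (v z') := by
  rcases lt_or_eq_of_le hji with hlt | heq
  · exact eq_chord h hi hi' hii hj hj' hjj hz hz' hw hw' hij hlt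
  · intro hadj
    have hij' : i' < j := by
      rcases lt_or_eq_of_le hij with h1 | h1
      · exact h1
      · exfalso
        have h2 := eq2_count h i
        have h3 : (Finset.range c).filter (fun k : ℕ => Tp G v c (i + k)) ⊆
            {0, (i' - i).toNat} := by
          intro k hk
          simp only [Finset.mem_filter, Finset.mem_range] at hk
          simp only [Finset.mem_insert, Finset.mem_singleton]
          by_contra hcon
          push Not at hcon
          have hk0 : (0 : ℤ) < k := by have := hcon.1; omega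
          rcases lt_trichotomy (i + (k : ℤ)) i' with h4 | h4 | h4
          · exact hii _ (by omega) h4 hk.2
          · exact hcon.2 (by omega)
          · exact hjj _ (by omega) (by omega) hk.2
        have h5 := Finset.card_le_card h3
        have h6 : ({0, (i' - i).toNat} : Finset ℕ).card ≤ 2 := Finset.card_le_two
        have := h.N3
        omega
    have hadj' : G.Adj (v z') (v (z + c)) := by
      rw [h.ctx.vper1]; exact hadj.symm
    refine eq_chord h (i := j) (i' := j') (j := i + c) (j' := i' + c) (z := z') (z' := z + c)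
      hj hj' hjj ?_ ?_ ?_ hw hw' (by omega) (by omega) (by omega) (by omega) hadj'
    · rw [Tp.per h.ctx.toCtx]; exact hi
    · rw [Tp.per h.ctx.toCtx]; exact hi'
    · intro k hk1 hk2 hk3
      refine hii (k - c) (by omega) (by omega) ?_
      rw [← Tp.per h.ctx.toCtx, sub_add_cancel]; exact hk3

theorem eq_false (h : EqH G ε τ d c v s N m) : False := by
  obtain ⟨i, hi⟩ : ∃ i : ℤ, Tp G v c i := by
    have h1 := h.hN
    have h2 := h.N3
    have h3 : ((Finset.range c).filter (fun k : ℕ => Tp G v c k)).Nonempty := by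
      rw [← Finset.card_pos]; omega
    obtain ⟨k, hk⟩ := h3
    exact ⟨k, (Finset.mem_filter.1 hk).2⟩
  obtain ⟨i', h1, h2, hi', huniq⟩ := h.btw i hi
  have hii : ∀ k : ℤ, i < k → k < i' → ¬ Tp G v c k := by
    intro k hk1 hk2 hk3
    have := huniq k hk1 (by omega) hk3
    omega
  have hic : Tp G v c (i + c) := by rw [Tp.per h.ctx.toCtx]; exact hi
  have hi'c : i' ≤ i + c := by
    by_contra hcon
    push Not at hcon
    have hc0 := h.ctx.three
    exact hii _ (by omega) hcon hic
  have hz : ¬ Tp G v c (i + 1) := hii _ (by omega) (by omega)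
  have hdeg := h.ctx.deg_pos hz i
  have hsub : (Finset.Ioc i (i + c)).filter (fun t => G.Adj (v (i + 1)) (v t)) ⊆
      (((Finset.range c).filter (fun k : ℕ => Tp G v c (i + 1 + k))).image
        (fun k : ℕ => i + 1 + (k : ℤ))) ∪ Finset.Ioo (i + 1) i' := by
    intro t ht
    simp only [Finset.mem_filter, Finset.mem_Ioc] at ht
    obtain ⟨⟨ht1, ht2⟩, hadj⟩ := ht
    simp only [Finset.mem_union, Finset.mem_image, Finset.mem_filter, Finset.mem_range,
      Finset.mem_Ioo]
    by_cases htp : Tp G v c t
    · left
      refine ⟨(t - i - 1).toNat, ⟨by omega, ?_⟩, by omega⟩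
      rw [show i + 1 + ((t - i - 1).toNat : ℤ) = t by omega]; exact htp
    · right
      have hne : t ≠ i + 1 := by
        rintro rfl
        exact hadj.ne rfl
      refine ⟨by omega, ?_⟩
      by_contra hcon
      push Not at hcon
      have hti' : t ≠ i' := by rintro rfl; exact htp hi'
      have htic : t ≠ i + c := by rintro rfl; exact htp hic
      have hS1 : ((Finset.Ico i' t).filter (fun k => Tp G v c k)).Nonempty :=
        ⟨i', by simp only [Finset.mem_filter, Finset.mem_Ico]; exact ⟨⟨le_rfl, by omega⟩, hi'⟩⟩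
      have hS2 : ((Finset.Ioc t (i + c)).filter (fun k => Tp G v c k)).Nonempty :=
        ⟨i + c, by simp only [Finset.mem_filter, Finset.mem_Ioc]; exact ⟨⟨by omega, le_rfl⟩, hic⟩⟩
      obtain ⟨j, hj, hjmax⟩ := Finset.exists_max_image _ (fun k => k) hS1
      obtain ⟨j', hj', hjmin⟩ := Finset.exists_min_image _ (fun k => k) hS2
      simp only [Finset.mem_filter, Finset.mem_Ico, Finset.mem_Ioc] at hj hjmax hj' hjmin
      refine eq_chord' h hi hi' hii hj.2 hj'.2 ?_ (by omega : i < i + 1) (by omega : i + 1 < i')
        hj.1.2 hj'.1.1 hj.1.1 hj'.1.2 hadj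
      intro k hk1 hk2 hk3
      rcases lt_trichotomy k t with h4 | h4 | h4
      · have := hjmax k ⟨⟨by omega, h4⟩, hk3⟩
        omega
      · exact htp (h4 ▸ hk3)
      · have := hjmin k ⟨⟨h4, by omega⟩, hk3⟩
        omega
  have h5 := Finset.card_le_card hsub
  have h6 := Finset.card_union_le (((Finset.range c).filter
    (fun k : ℕ => Tp G v c (i + 1 + k))).image (fun k : ℕ => i + 1 + (k : ℤ)))
    (Finset.Ioo (i + 1) i')
  have h7 : (((Finset.range c).filter (fun k : ℕ => Tp G v c (i + 1 + k))).image
      (fun k : ℕ => i + 1 + (k : ℤ))).card ≤ N := by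
    rw [← eq2_count h (i + 1)]; exact Finset.card_image_le
  have h8 : (Finset.Ioo (i + 1) i').card = (i' - (i + 1) - 1).toNat := Int.card_Ioo _ _
  have := h.dNm
  have := h.m2
  omega

end Pool.Agent.BND
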