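import Pool.Agent.BND.P2b

/-!
# BND-FIN : Bondy's conjecture from the signed theorem

`fin_k3`: the hypothesis of the frozen statement gives `K3 G`.  (`(G.induce (↑Sᶜ)).Connected` gives
for `x, y ∉ S` a walk in the induced graph, take a path, map it to `G` and take its support.)
`fin_deg3`: `K3 G → 3 ≤ |nb G x|`: if `|nb G x| ≤ 2` let `Z = nb G x`; `Zᶜ` is connected, contains `x`
and at least one more vertex (`|V| ≥ 4`), so `x` has a neighbour in `Zᶜ`, contradiction.
`fin_main`: `d = G.minDegree`.  `du_odd` with `L = {ced l : CycL G l, 2 d ≤ |l| + 1}` and `q = ced l₀`: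
given `φ`, `a` with `∑_D φ = a` on `L`, suppose `∑_{ced l₀} φ = a + 1`; put `ε x y = φ s(x, y)`,
`τ = a + 1`: `signed` gives a cycle in `L` with sign `a + 1`, contradiction.
Part (a): `du_span` with the same `L`: given `φ` vanishing on `L`, by `signed` with `τ = 1` there is no
cycle of sign `1`, so all cycles have sign `0`, and `bal_pot` for `D = univ` (connected) gives a
potential; `du_even`.
-/

set_option autoImplicit false
set_option linter.unusedSectionVars false

namespace Pool.Agent.BND

open Classical

theorem fin_k3 {V : Type} [Fintype V] (G : SimpleGraph V) (h4 : 3 < Fintype.card V)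
    (h : ∀ S : Finset V, S.card ≤ 2 → (G.induce ((↑S : Set V)ᶜ)).Connected) : K3 G := by
  refine ⟨h4, fun Z hZ => ⟨?_, ?_⟩⟩
  · rw [← Finset.card_pos, Finset.card_compl]
    omega
  · intro x hx y hy
    have hx' : x ∈ ((↑Z : Set V)ᶜ) := by simpa using hx
    have hy' : y ∈ ((↑Z : Set V)ᶜ) := by simpa using hy
    obtain ⟨p, hp⟩ := ((h Z hZ).preconnected ⟨x, hx'⟩ ⟨y, hy'⟩).exists_isPath
    refine ⟨p.support.map Subtype.val, ?_, ?_, ?_, ?_, ?_⟩
    · rw [List.head?_map, List.head?_eq_some_head p.support_ne_nil, p.head_support]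
      rfl
    · rw [List.getLast?_map, List.getLast?_eq_some_getLast p.support_ne_nil, p.getLast_support]
      rfl
    · exact hp.support_nodup.map Subtype.val_injective
    · rw [List.isChain_map]
      exact p.isChain_adj_support
    · intro z hz
      rw [List.mem_map] at hz
      obtain ⟨w, -, rfl⟩ := hz
      have hw : (w : V) ∈ ((↑Z : Set V)ᶜ) := w.2
      rw [Finset.mem_compl]
      intro hc
      exact hw hc

theorem fin_deg3 {V : Type} [Fintype V] {G : SimpleGraph V} (h : K3 G) (x : V) :
    3 ≤ (nb G x).card := by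
  by_contra hcon
  push Not at hcon
  obtain ⟨h4, h⟩ := h
  obtain ⟨-, hc⟩ := h (nb G x) (by omega)
  have hx : x ∈ (nb G x)ᶜ := by
    rw [Finset.mem_compl]
    unfold nb
    simp
  have hcard : 1 < ((nb G x)ᶜ).card := by
    rw [Finset.card_compl]; omega
  obtain ⟨y, hy, hyx⟩ := Finset.exists_mem_ne hcard x
  obtain ⟨l, hl⟩ := hc x hx y hy
  have h2 := hl.two_le hyx.symm
  match l, hl, h2 with
  | a :: b :: t, hl, _ =>
    have h1 := hl.head
    simp only [List.head?_cons, Option.some.injEq] at h1
    subst h1
    have h3 := hl.chain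
    rw [List.isChain_cons_cons] at h3
    have h5 := hl.sub b (by simp)
    rw [Finset.mem_compl] at h5
    apply h5
    unfold nb
    simp [h3.1]

end Pool.Agent.BND
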