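import Pool.Agent.BND.SG
import Pool.Agent.BND.BAL1
import Pool.Agent.BND.DU1
import Pool.Agent.BND.DU2
import Pool.Agent.BND.DU3
import Pool.Agent.BND.DU4

/-!
# BND-FIN : Bondy's conjecture from the signed theorem

`fin_k3`: the hypothesis of the frozen statement gives `K3 G`.  (`(G.induce (↑Sᶜ)).Connected` gives
for `x, y ∉ S` a walk in the induced graph, take a path, map it to `G` and take its support.)
`fin_deg3`: `K3 G → 3 ≤ |nb G x|`: if `|nb G x| ≤ 2` let `Z = nb G x`; `Zᶜ` is connected, contains `x`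
and at least one more vertex (`|V| ≥ 4`), so `x` has a neighbour in `Zᶜ`, contradiction.
`fin_main`: `d = G.minDegree`.  `du_odd` with `L = {ced l : CycL G l, 2 d ≤ |l| + 1}` and `q = ced l₀`:
given `φ`, `a` with `∑_D φ = a` on `L`, suppose `∑_{ced l₀} φ = a + 1`; put `ε x y = φ s(x, y)`,
`τ = a + 1`: `signed` gives a cycle in `L` with sign `a + 1`, contradiction.
Part (a): `du_span` with the same `L`: given `φ` vanishing on `L`, by `signed` with `τ = 1` there is no
cycle of sign `1`, so all cycles have sign `0`, and `bal_pot` for `D = univ` (connected) gives a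
potential; `du_even`.
-/

set_option autoImplicit false
set_option linter.unusedSectionVars false

namespace Pool.Agent.BND

open Classical

theorem fin_odd {V : Type} [Fintype V] {G : SimpleGraph V} {d : ℕ} (h3 : K3 G) (hd : 3 ≤ d)
    (hdeg : ∀ x, d ≤ (nb G x).card) (hcard : 2 * d ≤ Fintype.card V) {l₀ : List V}
    (hl₀ : CycL G l₀) :
    ∃ F : Finset (Finset (Sym2 V)), (∀ D ∈ F, D ∈ LongC G d) ∧ Odd F.card ∧
      ∀ e : Sym2 V, e ∈ ced l₀ ↔ Odd (F.filter (fun D => e ∈ D)).card := by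
  suffices hmain : ∀ (φ : Sym2 V → ZMod 2) (a : ZMod 2), (∀ D ∈ LongC G d, ∑ e ∈ D, φ e = a) →
      ∑ e ∈ ced l₀, φ e = a by
    obtain ⟨F, h1, h2, h3⟩ := du_odd (LongC G d) (ced l₀) hmain
    refine ⟨F, h1, h2, fun e => ?_⟩
    convert h3 e
  intro φ a hφ
  by_contra hne
  have hsum : ∑ e ∈ ced l₀, φ e = a + 1 := by
    have h1 : ∀ x y : ZMod 2, x ≠ y → x = y + 1 := by decide
    exact h1 _ _ hne
  have hs₀ : csg (fun x y => φ s(x, y)) l₀ = a + 1 := by rw [du_sum hl₀ φ, hsum]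
  obtain ⟨l, hl, hls, hlen⟩ := signed (G := G) (ε := fun x y => φ s(x, y)) (τ := a + 1)
    (fun x y => by simp only [Sym2.eq_swap]) h3 hd hdeg hcard hl₀ hs₀
  have h2 := hφ (ced l) ⟨l, hl, hlen, rfl⟩
  rw [← du_sum hl φ, hls] at h2
  have h3 : ∀ x : ZMod 2, x + 1 ≠ x := by decide
  exact h3 a h2

theorem fin_even {V : Type} [Fintype V] {G : SimpleGraph V} {d : ℕ} (h3 : K3 G) (hd : 3 ≤ d)
    (hdeg : ∀ x, d ≤ (nb G x).card) (hcard : 2 * d ≤ Fintype.card V) (C : Finset (Sym2 V))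
    (hC : ∀ e ∈ C, e ∈ G.edgeSet) (heven : ∀ x : V, Even (C.filter (fun e => x ∈ e)).card) :
    ∃ F : Finset (Finset (Sym2 V)), (∀ D ∈ F, D ∈ LongC G d) ∧
      ∀ e : Sym2 V, e ∈ C ↔ Odd (F.filter (fun D => e ∈ D)).card := by
  suffices hmain : ∀ φ : Sym2 V → ZMod 2, (∀ D ∈ LongC G d, ∑ e ∈ D, φ e = 0) →
      ∑ e ∈ C, φ e = 0 by
    obtain ⟨F, h1, h3⟩ := du_span (LongC G d) C hmain
    refine ⟨F, h1, fun e => ?_⟩
    convert h3 e
  intro φ hφ
  have hconn : Conn G (Finset.univ : Finset V) := by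
    have h1 := h3.2 ∅ (by simp)
    rwa [Finset.compl_empty] at h1
  have hsym : ∀ x y, (fun x y => φ s(x, y)) x y = (fun x y => φ s(x, y)) y x := fun x y => by
    simp only [Sym2.eq_swap]
  have hz : ∀ l, CycL G l → (∀ z ∈ l, z ∈ (Finset.univ : Finset V)) →
      csg (fun x y => φ s(x, y)) l = 0 := by
    intro l hl _
    by_contra hne
    have h1 : csg (fun x y => φ s(x, y)) l = 1 := by
      rcases zmod2_cases (csg (fun x y => φ s(x, y)) l) with h | h
      · exact absurd h hne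
      · exact h
    obtain ⟨l', hl', hls, hlen⟩ := signed (G := G) (ε := fun x y => φ s(x, y)) (τ := 1)
      hsym h3 hd hdeg hcard hl h1
    have h2 := hφ (ced l') ⟨l', hl', hlen, rfl⟩
    rw [← du_sum hl' φ, hls] at h2
    exact one_ne_zero h2
  obtain ⟨lam, hlam⟩ := bal_pot (G := G) (ε := fun x y => φ s(x, y)) hsym hconn hz
  exact du_even C hC heven φ lam fun x y hxy =>
    hlam x (Finset.mem_univ x) y (Finset.mem_univ y) hxy

end Pool.Agent.BND
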