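import Pool.Agent.BND.FI1
import Pool.Agent.BND.FI2

/-!
# BND-FIN : Bondy's conjecture from the signed theorem

`fin_k3`: the hypothesis of the frozen statement gives `K3 G`.  (`(G.induce (↑Sᶜ)).Connected` gives
for `x, y ∉ S` a walk in the induced graph, take a path, map it to `G` and take its support.)
`fin_deg3`: `K3 G → 3 ≤ |nb G x|`: if `|nb G x| ≤ 2` let `Z = nb G x`; `Zᶜ` is connected, contains `x`
and at least one more vertex (`|V| ≥ 4`), so `x` has a neighbour in `Zᶜ`, contradiction.
`fin_main`: `d = G.minDegree`.  `du_odd` with `L = {ced l : CycL G l, 2 d ≤ |l| + 1}` and `q = ced l₀`: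
given `φ`, `a` with `∑_D φ = a` on `L`, suppose `∑_{ced l₀} φ = a + 1`; put `ε x y = φ s(x, y)`,
`τ = a + 1`: `signed` gives a cycle in `L` with sign `a + 1`, contradiction.
Part (a): `du_span` with the same `L`: given `φ` vanishing on `L`, by `signed` with `τ = 1` there is no
cycle of sign `1`, so all cycles have sign `0`, and `bal_pot` for `D = univ` (connected) gives a
potential; `du_even`.
-/

set_option autoImplicit false
set_option linter.unusedSectionVars false

namespace Pool.Agent.BND

open Classical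

theorem fi3_deg {V : Type} [Fintype V] (G : SimpleGraph V) [DecidableRel G.Adj] (x : V) :
    (nb G x).card = G.degree x := by
  rw [← SimpleGraph.card_neighborFinset_eq_degree]
  congr 1
  ext y
  simp [nb]

theorem fi3_a {V : Type} [Fintype V] {G : SimpleGraph V} {d : ℕ} {D : Finset (Sym2 V)}
    (hD : D ∈ LongC G d) : ∃ (u : V) (p : G.Walk u u), p.IsCycle ∧
      (∀ e, e ∈ p.edges ↔ e ∈ D) ∧ 2 * d ≤ p.length + 1 := by
  obtain ⟨l, hl, hlen, rfl⟩ := hD
  obtain ⟨u, p, hp, hpl, hpe⟩ := du_list hl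
  exact ⟨u, p, hp, hpe, by omega⟩

/-- the frozen statement S09115 -/
theorem fin_main :
    ∀ (V : Type) [Fintype V] [DecidableEq V] (G : SimpleGraph V) [DecidableRel G.Adj],
      3 < Fintype.card V →
      (∀ S : Finset V, S.card ≤ 2 → (G.induce ((↑S : Set V)ᶜ)).Connected) →
      2 * G.minDegree ≤ Fintype.card V →
      (∀ C : Finset (Sym2 V), (↑C : Set (Sym2 V)) ⊆ G.edgeSet →
          (∀ v : V, Even (C.filter (fun e => v ∈ e)).card) →
          ∃ F : Finset (Finset (Sym2 V)),
            (∀ D ∈ F, ∃ (u : V) (p : G.Walk u u),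
              p.IsCycle ∧ p.edges.toFinset = D ∧ 2 * G.minDegree ≤ p.length + 1) ∧
            ∀ e : Sym2 V, e ∈ C ↔ Odd (F.filter (fun D => e ∈ D)).card) ∧
      (∀ (w : V) (q : G.Walk w w), q.IsCycle →
          ∃ F : Finset (Finset (Sym2 V)),
            (∀ D ∈ F, ∃ (u : V) (p : G.Walk u u),
              p.IsCycle ∧ p.edges.toFinset = D ∧ 2 * G.minDegree ≤ p.length + 1) ∧
            Odd F.card ∧
            ∀ e : Sym2 V, e ∈ q.edges.toFinset ↔ Odd (F.filter (fun D => e ∈ D)).card) := by
  intro V _ _ G _ h4 hc hm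
  have h3 := fin_k3 G h4 hc
  have hne : Nonempty V := Fintype.card_pos_iff.mp (by omega)
  have hd : 3 ≤ G.minDegree := by
    apply SimpleGraph.le_minDegree_of_forall_le_degree
    intro x
    rw [← fi3_deg]
    exact fin_deg3 h3 x
  have hdeg : ∀ x, G.minDegree ≤ (nb G x).card := by
    intro x
    rw [fi3_deg]
    exact G.minDegree_le_degree x
  refine ⟨?_, ?_⟩
  · intro C hC hev
    obtain ⟨F, hF1, hF2⟩ := fin_even h3 hd hdeg hm C (fun e he => hC (by simpa using he))
      (fun x => by convert hev x)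
    refine ⟨F, ?_, ?_⟩
    · intro D hD
      obtain ⟨u, p, hp, hpe, hlen⟩ := fi3_a (hF1 D hD)
      refine ⟨u, p, hp, ?_, hlen⟩
      ext e
      rw [List.mem_toFinset]
      exact hpe e
    · intro e
      rw [hF2 e]
      constructor <;> intro h <;> convert h
  · intro w q hq
    obtain ⟨l, hl, hll, hle⟩ := du_walk q hq
    obtain ⟨F, hF1, hF0, hF2⟩ := fin_odd h3 hd hdeg hm hl
    refine ⟨F, ?_, hF0, ?_⟩
    · intro D hD
      obtain ⟨u, p, hp, hpe, hlen⟩ := fi3_a (hF1 D hD)
      refine ⟨u, p, hp, ?_, hlen⟩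
      ext e
      rw [List.mem_toFinset]
      exact hpe e
    · intro e
      rw [List.mem_toFinset, ← hle e, hF2 e]
      constructor <;> intro h <;> convert h


end Pool.Agent.BND
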