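import Pool.Agent.BND.P2b

/-!
# BND-GR : groups

`exists_reps`: choose all hubs, and for each centre `x` one `u ∈ K` with `att G D u = {x}`.
`three_le_TT`: if `|TT| ≤ 2` then deleting `TT` separates `D` from the nonempty set `K \ TT`.
`three_le_NN`: if `NN ≤ 2`, let `Z = hubs ∪ ctrs`, `|Z| ≤ 2`.  `D \ Z ≠ ∅` and `K \ Z ≠ ∅`, and
`Zᶜ` is connected; by `Conn.exists_edge` applied to `D \ Z ⊆ Zᶜ` there is an edge `xy` with
`x ∈ D \ Z`, `y ∉ D`, `y ∉ Z`; so `y ∈ K`, `x ∈ att G D y`.  `y` is not a hub so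
`att G D y = {x}` and `x` is a centre, a contradiction.
`two_le_NN_EP`: the same with `Z = {b} ∪ hubs ∪ ctrs` if `NN ≤ 1`; `D \ Z ≠ ∅` as `|D| ≥ 2`, and
outside `D ∪ Z` there is at least one vertex (`K` has at least 3 elements, so `K \ Z ≠ ∅`).
`two_le_TT_EP`: an end piece has at least two neighbours in `K`.
`cluster_card`: `D ⊆ ctrs`, `y ∈ D`: all neighbours of `y` are in `D - y` (at most `|D| - 1`), in
`hubs`, or `u ∈ K` with `att G D u = {y}`; and `NN = |hubs| + |D|`.
`TT_card_EP`: `D ⊆ ctrs` for an end piece.  Let `β = |D|`, `h = |hubs|`.  For `y ∈ D` let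
`k y = #{u ∈ K : att G D u = {y}} ≥ 1`; as before `d ≤ β + h + k y` (now `b` may be a neighbour).
`|TT| = h + ∑ k y ≥ h + β * max 1 (d - β - h) ≥ d - 1`.
-/

set_option autoImplicit false
set_option linter.unusedSectionVars false

namespace Pool.Agent.BND

open Classical

variable {V : Type} [Fintype V] {G : SimpleGraph V} {K D B : Finset V} {d : ℕ} {b : V}

theorem mem_TT {u : V} : u ∈ TT G K D ↔ u ∈ K ∧ ∃ x ∈ D, G.Adj u x := by
  unfold TT att
  rw [Finset.mem_filter, Finset.filter_nonempty_iff]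

theorem Ind.symm {u w : V} (h : Ind G D u w) : Ind G D w u := by
  obtain ⟨h1, x, hx, y, hy, hxy⟩ := h
  exact ⟨h1.symm, y, hy, x, hx, hxy.symm⟩

theorem not_ind {u w : V} (hu : u ∈ TT G K D) (hw : w ∈ TT G K D) (huw : u ≠ w)
    (h : ¬ Ind G D u w) : ∃ x ∈ D, att G D u = {x} ∧ att G D w = {x} := by
  unfold TT at hu hw
  rw [Finset.mem_filter] at hu hw
  obtain ⟨x, hx⟩ := hu.2
  obtain ⟨y, hy⟩ := hw.2
  have key : ∀ x ∈ att G D u, ∀ y ∈ att G D w, x = y := by
    intro x hx y hy
    by_contra hxy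
    exact h ⟨huw, x, hx, y, hy, hxy⟩
  have hxy := key x hx y hy
  refine ⟨x, (Finset.mem_filter.1 hx).1, ?_, ?_⟩
  · ext z
    rw [Finset.mem_singleton]
    constructor
    · intro hz
      rw [key z hz y hy, hxy]
    · rintro rfl
      exact hx
  · ext z
    rw [Finset.mem_singleton]
    constructor
    · intro hz
      exact (key x hx z hz).symm
    · rintro rfl
      rw [hxy]
      exact hy

/-- a hub is independent from every other vertex of `TT` -/
theorem ind_of_hub {u w : V} (hu : 2 ≤ (att G D u).card) (hw : w ∈ TT G K D) (huw : u ≠ w) :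
    Ind G D u w := by
  unfold TT at hw
  rw [Finset.mem_filter] at hw
  obtain ⟨y, hy⟩ := hw.2
  obtain ⟨x, hx, hxy⟩ := Finset.exists_mem_ne (by omega : 1 < (att G D u).card) y
  exact ⟨huw, x, hx, y, hy, hxy⟩

theorem gr1_core (G : SimpleGraph V) (K D : Finset V) (f : V → V)
    (hf : ∀ x ∈ ctrs G K D, f x ∈ K ∧ att G D (f x) = {x}) :
    (hubs G K D ∪ (ctrs G K D).image f) ⊆ TT G K D ∧
    (hubs G K D ∪ (ctrs G K D).image f).card = NN G K D ∧
    (∀ u ∈ hubs G K D ∪ (ctrs G K D).image f, ∀ w ∈ hubs G K D ∪ (ctrs G K D).image f,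
      u ≠ w → Ind G D u w) ∧
    (∀ u ∈ TT G K D, ∃ w ∈ hubs G K D ∪ (ctrs G K D).image f, att G D u = att G D w ∧
      (u ∈ hubs G K D ∪ (ctrs G K D).image f → w = u) ∧
      (u ∉ hubs G K D ∪ (ctrs G K D).image f → (att G D u).card = 1)) := by
  have hsub : (hubs G K D ∪ (ctrs G K D).image f) ⊆ TT G K D := by
    intro u hu
    unfold TT
    rw [Finset.mem_filter]
    rcases Finset.mem_union.1 hu with h | h
    · unfold hubs at h
      rw [Finset.mem_filter] at h
      exact ⟨h.1, Finset.card_pos.1 (by omega)⟩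
    · obtain ⟨x, hx, rfl⟩ := Finset.mem_image.1 h
      obtain ⟨h1, h2⟩ := hf x hx
      refine ⟨h1, ?_⟩
      rw [h2]
      exact Finset.singleton_nonempty x
  refine ⟨hsub, ?_, ?_, ?_⟩
  · rw [Finset.card_union_of_disjoint, Finset.card_image_of_injOn]
    · rfl
    · intro x hx y hy hxy
      have h1 := (hf x hx).2
      have h2 := (hf y hy).2
      have h3 : f x = f y := hxy
      rw [h3, h2] at h1
      exact (Finset.singleton_injective h1).symm
    · rw [Finset.disjoint_left]
      intro u hu hu'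
      obtain ⟨x, hx, rfl⟩ := Finset.mem_image.1 hu'
      unfold hubs at hu
      rw [Finset.mem_filter, (hf x hx).2, Finset.card_singleton] at hu
      omega
  · intro u hu w hw huw
    by_contra hI
    obtain ⟨x, hx, h1, h2⟩ := not_ind (hsub hu) (hsub hw) huw hI
    have key : ∀ z ∈ hubs G K D ∪ (ctrs G K D).image f, att G D z = {x} → z = f x := by
      intro z hz hzx
      rcases Finset.mem_union.1 hz with h | h
      · unfold hubs at h
        rw [Finset.mem_filter, hzx, Finset.card_singleton] at h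
        omega
      · obtain ⟨y, hy, rfl⟩ := Finset.mem_image.1 h
        have h3 := (hf y hy).2
        rw [hzx] at h3
        rw [Finset.singleton_injective h3]
    exact huw ((key u hu h1).trans (key w hw h2).symm)
  · intro u hu
    by_cases huR : u ∈ hubs G K D ∪ (ctrs G K D).image f
    · exact ⟨u, huR, rfl, fun _ => rfl, fun h => absurd huR h⟩
    · have hu' := hu
      unfold TT at hu'
      rw [Finset.mem_filter] at hu'
      have h1 : ¬ 2 ≤ (att G D u).card := by
        intro h
        apply huR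
        apply Finset.mem_union_left
        unfold hubs
        rw [Finset.mem_filter]
        exact ⟨hu'.1, h⟩
      have h2 : (att G D u).card = 1 := by
        have := Finset.card_pos.2 hu'.2
        omega
      obtain ⟨x, hx⟩ := Finset.card_eq_one.1 h2
      have hxc : x ∈ ctrs G K D := by
        unfold ctrs
        rw [Finset.mem_filter]
        refine ⟨?_, u, hu'.1, hx⟩
        have : x ∈ att G D u := by rw [hx]; exact Finset.mem_singleton_self x
        exact (Finset.mem_filter.1 this).1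
      refine ⟨f x, Finset.mem_union_right _ (Finset.mem_image_of_mem f hxc), ?_,
        fun h => absurd h huR, fun _ => h2⟩
      rw [hx, (hf x hxc).2]

theorem gr1_choice (G : SimpleGraph V) (K D : Finset V) : ∃ f : V → V,
    ∀ x ∈ ctrs G K D, f x ∈ K ∧ att G D (f x) = {x} := by
  have h : ∀ x : V, ∃ u : V, x ∈ ctrs G K D → u ∈ K ∧ att G D u = {x} := by
    intro x
    by_cases hx : x ∈ ctrs G K D
    · unfold ctrs at hx
      rw [Finset.mem_filter] at hx
      obtain ⟨-, u, hu, hu'⟩ := hx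
      exact ⟨u, fun _ => ⟨hu, hu'⟩⟩
    · exact ⟨x, fun h => absurd h hx⟩
  choose f hf using h
  exact ⟨f, hf⟩

theorem exists_reps (G : SimpleGraph V) (K D : Finset V) :
    ∃ R, R ⊆ TT G K D ∧ R.card = NN G K D ∧ (∀ u ∈ R, ∀ w ∈ R, u ≠ w → Ind G D u w) ∧
      (∀ u ∈ TT G K D, ∃ w ∈ R, att G D u = att G D w ∧ (u ∈ R → w = u) ∧
        (u ∉ R → (att G D u).card = 1)) ∧ hubs G K D ⊆ R := by
  obtain ⟨f, hf⟩ := gr1_choice G K D
  obtain ⟨h1, h2, h3, h4⟩ := gr1_core G K D f hf
  exact ⟨_, h1, h2, h3, h4, Finset.subset_union_left⟩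

/-- one choice function may be changed at the representative of a given vertex -/
theorem gr1_update {u : V} (hu : u ∈ TT G K D) {f : V → V}
    (hf : ∀ x ∈ ctrs G K D, f x ∈ K ∧ att G D (f x) = {x}) :
    ∃ g : V → V, (∀ x ∈ ctrs G K D, g x ∈ K ∧ att G D (g x) = {x}) ∧
      u ∈ hubs G K D ∪ (ctrs G K D).image g ∧
      ∀ w, w ∈ hubs G K D ∪ (ctrs G K D).image f → Ind G D u w →
        w ∈ hubs G K D ∪ (ctrs G K D).image g := by
  have hu' := hu
  unfold TT at hu'
  rw [Finset.mem_filter] at hu'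
  by_cases h : 2 ≤ (att G D u).card
  · refine ⟨f, hf, ?_, fun w hw _ => hw⟩
    apply Finset.mem_union_left
    unfold hubs
    rw [Finset.mem_filter]
    exact ⟨hu'.1, h⟩
  · have h2 : (att G D u).card = 1 := by
      have := Finset.card_pos.2 hu'.2
      omega
    obtain ⟨x, hx⟩ := Finset.card_eq_one.1 h2
    have hxc : x ∈ ctrs G K D := by
      unfold ctrs
      rw [Finset.mem_filter]
      refine ⟨?_, u, hu'.1, hx⟩
      have : x ∈ att G D u := by rw [hx]; exact Finset.mem_singleton_self x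
      exact (Finset.mem_filter.1 this).1
    refine ⟨Function.update f x u, ?_, ?_, ?_⟩
    · intro y hy
      by_cases hyx : y = x
      · subst hyx
        rw [Function.update_self]
        exact ⟨hu'.1, hx⟩
      · rw [Function.update_of_ne hyx]
        exact hf y hy
    · apply Finset.mem_union_right
      rw [Finset.mem_image]
      exact ⟨x, hxc, Function.update_self ..⟩
    · intro w hw hI
      rcases Finset.mem_union.1 hw with h3 | h3
      · exact Finset.mem_union_left _ h3
      · obtain ⟨y, hy, rfl⟩ := Finset.mem_image.1 h3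
        apply Finset.mem_union_right
        rw [Finset.mem_image]
        refine ⟨y, hy, ?_⟩
        have hyx : y ≠ x := by
          rintro rfl
          obtain ⟨-, p, hp, q, hq, hpq⟩ := hI
          rw [hx, Finset.mem_singleton] at hp
          rw [(hf y hy).2, Finset.mem_singleton] at hq
          exact hpq (hp.trans hq.symm)
        rw [Function.update_of_ne hyx]

/-- representatives may be chosen to contain two given independent vertices -/
theorem exists_reps2 {u w : V} (hu : u ∈ TT G K D) (hw : w ∈ TT G K D) (h : Ind G D u w) :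
    ∃ R, R ⊆ TT G K D ∧ R.card = NN G K D ∧ (∀ x ∈ R, ∀ y ∈ R, x ≠ y → Ind G D x y) ∧
      u ∈ R ∧ w ∈ R := by
  obtain ⟨f, hf⟩ := gr1_choice G K D
  obtain ⟨g, hg, hwg, -⟩ := gr1_update hw hf
  obtain ⟨k, hk, huk, hk'⟩ := gr1_update hu hg
  obtain ⟨h1, h2, h3, -⟩ := gr1_core G K D k hk
  exact ⟨_, h1, h2, h3, huk, hk' w hwg h⟩

/-- … or one given vertex -/
theorem exists_reps1 {u : V} (hu : u ∈ TT G K D) :
    ∃ R, R ⊆ TT G K D ∧ R.card = NN G K D ∧ (∀ x ∈ R, ∀ y ∈ R, x ≠ y → Ind G D x y) ∧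
      u ∈ R := by
  obtain ⟨f, hf⟩ := gr1_choice G K D
  obtain ⟨g, hg, hwg, -⟩ := gr1_update hu hf
  obtain ⟨h1, h2, h3, -⟩ := gr1_core G K D g hg
  exact ⟨_, h1, h2, h3, hwg⟩

end Pool.Agent.BND
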