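import Pool.Agent.BND.Defs2

/-!
# BND-K2 : exactly two vertices outside

`comb_k2` (combinatorics on a circle).  `X`, `Y` are `c`-periodic sets of positions, `c + 2 = 2 d`,
`d ≥ 3`, each with at least `d - 1` elements per period, `X ∪ Y` with at least three, such that
 (F1) there are no `i < j < i + c` with `X i, Y (i+1), X j, Y (j+1)`; (F1') the same with `X`, `Y`
 exchanged;
 (F2) if `X i, Y (i+1)` for some `i` then there is no `j` with `X j, Y (j+2)`; (F2') the same with
 `X`, `Y` exchanged.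
Then `X = Y`, and `X (i+1) ↔ ¬ X i`.

Proof.  (1) Suppose `X i, Y (i+1)` for some `i`, WLOG (translation) look at one period starting at `i`.
By (F2) the sets `X` and `Y - 2` are disjoint, and `|X| + |Y| ≥ 2 (d - 1) = c`, so they are
complementary: `Y (j + 2) ↔ ¬ X j` and `|X| = |Y| = d - 1`.  By (F1) `X ∩ (Y - 1)` has exactly one
element per period, namely `i`.  For `j ≢ i` with `X j`: `¬ Y (j+1)`, i.e. `X (j - 1)` (by
complementarity, `Y (j + 1) ↔ ¬ X (j - 1)`).  So going down from any element of `X` we stay in `X`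
until we reach `i` (mod `c`).  Let `i + t` (`0 ≤ t < c`) be the largest element of `X` in
`[i, i + c)`: then `X ∩ [i, i + c) = {i, …, i + t}`, so `t + 1 = d - 1`.
`Y (j + 2) ↔ ¬ X j`: `Y = {i + t + 3, …, i + c + 1}` mod `c`, it contains `i + c ≡ i` and
`i + c + 1 ≡ i + 1` (as `X (i - 2)`, `X (i - 1)` are false: `d - 1 ≤ c - 2`).  Now `X (i + 1)` holds
(`t ≥ 1` as `d ≥ 3`), so `Y i, X (i + 1)`, and (F2') says that `Y i, X (i + 2)` do not both hold; so
`¬ X (i + 2)`, `t = 1`, `d = 3`, `c = 4`, `X = {i, i+1}`, `Y = {i, i+1}` mod 4: `X ∪ Y` has two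
elements per period, a contradiction.
(2) So there are no `X i, Y (i+1)` and by symmetry no `Y i, X (i+1)`.  Hence `X` and `Y - 1` are
disjoint, `|X| + |Y| ≥ c`, so `Y (j + 1) ↔ ¬ X j`, and similarly `X (j + 1) ↔ ¬ Y j`.  So
`X (j + 2) ↔ ¬ Y (j + 1) ↔ X j`.  If `X i` and `X (i + 1)` for some `i` then `X` is everything and
`Y` is empty.  So `X i → ¬ X (i+1)`; if `¬ X i` and `¬ X (i + 1)` then `X` is empty.  So
`X (i + 1) ↔ ¬ X i`, and `Y (i + 1) ↔ ¬ X i ↔ X (i + 1)`.

`case_K2`.  `Bs v c = {x, y}`, `x ~ y` (connected), `|V| ≥ 2 d`, `c ≤ 2 d - 2` so `c + 2 = 2 d`.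
`X i := v i ~ x`, `Y i := v i ~ y`; `x` has at least `d - 1` neighbours on the cycle.
`Tp i ↔ X i ∨ Y i`, at least three positions (`three_le_TT`).  `tp_succ`: gap one arcs are negative.
 (F1) `NCtx.cross` with `I = [x]` from `v i` to `v j` and `J = [y]` from `v (i+1)` to `v (j+1)`,
 positions `i < i+1 ≤ j < j+1 ≤ i + c`, lengths `2 < 1 + 1 + 2`: `(s (i+1) - s i) + (s (j+1) - s j) = 1`,
 but it is `1 + 1 = 0`.
 (F2) Let `X i, Y (i+1)` and `X j, Y (j+2)`.  The ear `[x, y]` from `v j` to `v (j+2)` has length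
 `3 > 2`, so `s j ≠ s (j + 2)` (`arc_ear`), i.e. `s (j+2) = s j + 1`.  If `Tp (j+1)`, then by `tp_succ`
 twice `s (j+2) = s j`, contradiction.  So `¬ Tp (j + 1)`, hence `j + 1 ≢ i, i + 1`, and by
 periodicity we may assume `i + 1 ≤ j`, `j + 2 ≤ i + c`.  `NCtx.cross` with the positions
 `i < i + 1 ≤ j < j + 2 ≤ i + c`, `I = [x]` from `v i` to `v j`, `J = [y]` from `v (i+1)` to `v (j+2)`,
 lengths `1 + 2 < 4`: `(s (i+1) - s i) + (s (j+2) - s j) = 1` but it is `1 + 1`.
 (F1'), (F2') by exchanging `x` and `y`.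
So `comb_k2` applies: `X = Y = Tp` and `Tp (i+1) ↔ ¬ Tp i`.  `EqH` with `m = 2`, `N = d - 1 ≥ 3`
(exactly half of the `c = 2 (d - 1)` positions; at least three): `inv`: `Tp (i + 4)`; `btw`: `j = i + 2`;
`neg`: consecutive elements are `i, i + 2`, ear `[x, y]` of length `3 > 2`; `ear`: `[x, y]` (`|I| = 2`);
`via`: `[x, v k, y]`, `|J| = 3`.  `eq_false`.
-/

set_option autoImplicit false
set_option linter.unusedSectionVars false

namespace Pool.Agent.BND

open Classical

variable {V : Type} [Fintype V]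
variable {G : SimpleGraph V} {ε : V → V → ZMod 2} {τ : ZMod 2} {d c : ℕ} {v : ℤ → V}
  {s : ℤ → ZMod 2}

theorem k2a_per (P : ℤ → Prop) (m : ℤ) (hP : ∀ i : ℤ, P (i + m) ↔ P i) (j n : ℤ) :
    P (j + n * m) ↔ P j := by
  induction n using Int.induction_on with
  | zero => simp
  | succ n ih =>
    rw [← ih, ← hP (j + n * m)]
    have : j + ((n : ℤ) + 1) * m = j + n * m + m := by ring
    rw [this]
  | pred n ih =>
    rw [← ih, ← hP (j + (-(n : ℤ) - 1) * m)]
    have : j + (-(n : ℤ) - 1) * m + m = j + -(n : ℤ) * m := by ring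
    rw [this]

theorem k2a_shift (c : ℕ) (Q : ℤ → Prop) (hQ : ∀ i : ℤ, Q (i + c) ↔ Q i) (n : ℕ) :
    ((Finset.range c).filter (fun k : ℕ => Q (k + n))).card
      = ((Finset.range c).filter (fun k : ℕ => Q k)).card := by
  have hper : Function.Periodic (fun k : ℕ => Q (k : ℤ)) c := by
    intro k
    have := hQ (k : ℤ)
    simp only [Nat.cast_add, eq_iff_iff]
    exact this
  have h1 := Nat.filter_Ico_card_eq_of_periodic n c (fun k : ℕ => Q (k : ℤ)) hper
  have h2 := Nat.filter_Ico_card_eq_of_periodic 0 c (fun k : ℕ => Q (k : ℤ)) hper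
  have h3 : ((Finset.range c).filter (fun k : ℕ => Q (k + n))).image (· + n) =
      (Finset.Ico n (n + c)).filter (fun k : ℕ => Q (k : ℤ)) := by
    ext k
    simp only [Finset.mem_image, Finset.mem_filter, Finset.mem_range, Finset.mem_Ico]
    constructor
    · rintro ⟨a, ⟨ha, hQa⟩, rfl⟩
      refine ⟨⟨by omega, by omega⟩, ?_⟩
      push_cast
      exact hQa
    · rintro ⟨⟨ha, hb⟩, hQk⟩
      refine ⟨k - n, ⟨by omega, ?_⟩, by omega⟩
      have : ((k - n : ℕ) : ℤ) + n = k := by omega
      rw [this]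
      exact hQk
  rw [← Finset.card_image_of_injective _ (add_left_injective n), h3, h1, ← h2, zero_add,
    Finset.range_eq_Ico]

theorem k2a_compl (c : ℕ) (hc : 1 ≤ c) (P Q : ℤ → Prop) (hP : ∀ i : ℤ, P (i + c) ↔ P i)
    (hQ : ∀ i : ℤ, Q (i + c) ↔ Q i) (hd : ∀ i : ℤ, P i → Q i → False)
    (hcard : c ≤ ((Finset.range c).filter (fun k : ℕ => P k)).card +
      ((Finset.range c).filter (fun k : ℕ => Q k)).card) :
    (∀ i : ℤ, Q i ↔ ¬ P i) ∧ ((Finset.range c).filter (fun k : ℕ => P k)).card +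
      ((Finset.range c).filter (fun k : ℕ => Q k)).card = c := by
  have hdis : Disjoint ((Finset.range c).filter (fun k : ℕ => P k))
      ((Finset.range c).filter (fun k : ℕ => Q k)) := by
    rw [Finset.disjoint_left]
    intro k h1 h2
    exact hd _ (Finset.mem_filter.1 h1).2 (Finset.mem_filter.1 h2).2
  have hsub : ((Finset.range c).filter (fun k : ℕ => P k)) ∪
      ((Finset.range c).filter (fun k : ℕ => Q k)) ⊆ Finset.range c :=
    Finset.union_subset (Finset.filter_subset _ _) (Finset.filter_subset _ _)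
  have hu := Finset.card_union_of_disjoint hdis
  have hle := Finset.card_le_card hsub
  rw [Finset.card_range] at hle
  have heq := Finset.eq_of_subset_of_card_le hsub (by rw [hu, Finset.card_range]; exact hcard)
  refine ⟨fun i => ⟨fun h1 h2 => hd i h2 h1, fun h => ?_⟩, by omega⟩
  have hi0 : 0 ≤ i % (c : ℤ) := Int.emod_nonneg _ (by omega)
  have hi1 : i % (c : ℤ) < c := Int.emod_lt_of_pos _ (by omega)
  have hi2 : i = ((i % (c : ℤ)).toNat : ℤ) + (i / c) * c := by
    rw [Int.toNat_of_nonneg hi0]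
    have := Int.emod_add_mul_ediv i c
    linarith [mul_comm (c : ℤ) (i / c)]
  have hmem : (i % (c : ℤ)).toNat ∈ Finset.range c := by
    rw [Finset.mem_range]; omega
  rw [← heq, Finset.mem_union, Finset.mem_filter, Finset.mem_filter] at hmem
  rcases hmem with h3 | h3
  · exfalso
    apply h
    rw [hi2, k2a_per P c hP]
    exact h3.2
  · rw [hi2, k2a_per Q c hQ]
    exact h3.2

/-- step (1) at the position `0` -/
theorem k2a_step (c d : ℕ) (X Y : ℤ → Prop) (hc : c + 2 = 2 * d) (hd : 3 ≤ d)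
    (hX : ∀ i : ℤ, X (i + c) ↔ X i) (hY : ∀ i : ℤ, Y (i + c) ↔ Y i)
    (hXc : d ≤ ((Finset.range c).filter (fun k : ℕ => X k)).card + 1)
    (hYc : d ≤ ((Finset.range c).filter (fun k : ℕ => Y k)).card + 1)
    (hT : 3 ≤ ((Finset.range c).filter (fun k : ℕ => X k ∨ Y k)).card)
    (F1 : ∀ i j : ℤ, i < j → j < i + c → X i → Y (i + 1) → X j → Y (j + 1) → False)
    (F2 : ∀ i j : ℤ, X i → Y (i + 1) → X j → Y (j + 2) → False)
    (F2' : ∀ i j : ℤ, Y i → X (i + 1) → Y j → X (j + 2) → False)
    (h0 : X 0) (h1 : Y 1) : False := by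
  have hY2 : ∀ i : ℤ, Y (i + c + 2) ↔ Y (i + 2) := by
    intro i
    rw [← hY (i + 2)]
    have : i + (c : ℤ) + 2 = i + 2 + c := by ring
    rw [this]
  have hsh := k2a_shift c Y hY 2
  have hco := k2a_compl c (by omega) X (fun i => Y (i + 2)) hX hY2
    (fun i h2 h3 => F2 0 i h0 (by simpa using h1) h2 h3) (by
      have : ((Finset.range c).filter (fun k : ℕ => Y ((k : ℤ) + 2))).card
        = ((Finset.range c).filter (fun k : ℕ => Y k)).card := by
        simpa using hsh
      rw [this]
      omega)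
  obtain ⟨hC, hcard⟩ := hco
  have hsh' : ((Finset.range c).filter (fun k : ℕ => Y ((k : ℤ) + 2))).card
        = ((Finset.range c).filter (fun k : ℕ => Y k)).card := by
    simpa using hsh
  rw [hsh'] at hcard
  set A := (Finset.range c).filter (fun k : ℕ => X k) with hA
  have hAc : A.card + 1 = d := by omega
  -- `A` is downward closed
  have hdown1 : ∀ k : ℕ, k + 1 < c → X ((k : ℤ) + 1) → X (k : ℤ) := by
    intro k hk hXk
    by_contra hnX
    have hy : Y ((k : ℤ) + 2) := (hC k).2 hnX
    refine F1 0 ((k : ℤ) + 1) (by omega) (by omega) h0 (by simpa using h1) hXk ?_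
    have : (k : ℤ) + 1 + 1 = k + 2 := by ring
    rw [this]
    exact hy
  have hdown : ∀ m k : ℕ, k ≤ m → m < c → X (m : ℤ) → X (k : ℤ) := by
    intro m k hkm
    induction hkm using Nat.decreasingInduction with
    | self => exact fun _ h => h
    | of_succ n hn ih =>
      intro hm hXm
      have := ih hm hXm
      exact hdown1 n (by omega) (by push_cast at this; exact this)
  have hiff : ∀ k : ℕ, k < c → (X (k : ℤ) ↔ k + 1 < d) := by
    intro k hk
    constructor
    · intro hXk
      have hs : Finset.range (k + 1) ⊆ A := by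
        intro j hj
        rw [Finset.mem_range] at hj
        rw [hA, Finset.mem_filter, Finset.mem_range]
        exact ⟨by omega, hdown k j (by omega) hk hXk⟩
      have := Finset.card_le_card hs
      rw [Finset.card_range] at this
      omega
    · intro hkd
      by_contra hnX
      have hs : A ⊆ Finset.range k := by
        intro j hj
        rw [hA, Finset.mem_filter, Finset.mem_range] at hj
        rw [Finset.mem_range]
        by_contra hjk
        exact hnX (hdown j k (by omega) hj.1 hj.2)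
      have := Finset.card_le_card hs
      rw [Finset.card_range] at this
      omega
  have hYc0 : Y (((c - 2 : ℕ) : ℤ) + 2) := by
    refine (hC _).2 ?_
    rw [hiff (c - 2) (by omega)]
    omega
  have hY0 : Y 0 := by
    rw [← hY 0]
    have : (((c - 2 : ℕ) : ℤ) + 2) = 0 + c := by omega
    rw [← this]
    exact hYc0
  have hX1 : X 1 := by
    have := (hiff 1 (by omega)).2 (by omega)
    simpa using this
  have hX2 : ¬ X 2 := fun h => F2' 0 0 hY0 (by simpa using hX1) hY0 (by simpa using h)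
  have hd3 : d = 3 := by
    have : ¬ (2 + 1 < d) := by
      rw [← hiff 2 (by omega)]
      simpa using hX2
    omega
  subst hd3
  have hc4 : c = 4 := by omega
  subst hc4
  have hX3 : ¬ X 3 := by
    have := hiff 3 (by omega)
    simpa using this
  have hY2' : ¬ Y 2 := by
    have := hC 0
    simp only [zero_add] at this
    rw [this]
    exact not_not.2 h0
  have hY3 : ¬ Y 3 := by
    have := hC 1
    norm_num at this
    rw [this]
    exact not_not.2 hX1
  have hsub : (Finset.range 4).filter (fun k : ℕ => X k ∨ Y k) ⊆ Finset.range 2 := by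
    intro k hk
    rw [Finset.mem_filter, Finset.mem_range] at hk
    obtain ⟨hk4, hk⟩ := hk
    rw [Finset.mem_range]
    by_contra hk2
    have : k = 2 ∨ k = 3 := by omega
    rcases this with rfl | rfl
    · rcases hk with hk | hk
      · exact hX2 (by simpa using hk)
      · exact hY2' (by simpa using hk)
    · rcases hk with hk | hk
      · exact hX3 (by simpa using hk)
      · exact hY3 (by simpa using hk)
  have := Finset.card_le_card hsub
  rw [Finset.card_range] at this
  omega

/-- step (1) -/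
theorem k2a_step' (c d : ℕ) (X Y : ℤ → Prop) (hc : c + 2 = 2 * d) (hd : 3 ≤ d)
    (hX : ∀ i : ℤ, X (i + c) ↔ X i) (hY : ∀ i : ℤ, Y (i + c) ↔ Y i)
    (hXc : d ≤ ((Finset.range c).filter (fun k : ℕ => X k)).card + 1)
    (hYc : d ≤ ((Finset.range c).filter (fun k : ℕ => Y k)).card + 1)
    (hT : 3 ≤ ((Finset.range c).filter (fun k : ℕ => X k ∨ Y k)).card)
    (F1 : ∀ i j : ℤ, i < j → j < i + c → X i → Y (i + 1) → X j → Y (j + 1) → False)
    (F2 : ∀ i j : ℤ, X i → Y (i + 1) → X j → Y (j + 2) → False)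
    (F2' : ∀ i j : ℤ, Y i → X (i + 1) → Y j → X (j + 2) → False)
    (i : ℤ) (h0 : X i) (h1 : Y (i + 1)) : False := by
  have hi0 : 0 ≤ i % (c : ℤ) := Int.emod_nonneg _ (by omega)
  set n : ℕ := (i % (c : ℤ)).toNat with hn
  have hi2 : i = (n : ℤ) + (i / c) * c := by
    rw [hn, Int.toNat_of_nonneg hi0]
    have := Int.emod_add_mul_ediv i c
    linarith [mul_comm (c : ℤ) (i / c)]
  have hXn : X (n : ℤ) := by
    rw [hi2, k2a_per X c hX] at h0
    exact h0
  have hYn : Y ((n : ℤ) + 1) := by
    have : i + 1 = ((n : ℤ) + 1) + (i / c) * c := by linarith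
    rw [this, k2a_per Y c hY] at h1
    exact h1
  have hX' : ∀ i : ℤ, X (i + c + n) ↔ X (i + n) := by
    intro i
    rw [← hX (i + n)]
    have : i + (c : ℤ) + n = i + n + c := by ring
    rw [this]
  have hY' : ∀ i : ℤ, Y (i + c + n) ↔ Y (i + n) := by
    intro i
    rw [← hY (i + n)]
    have : i + (c : ℤ) + n = i + n + c := by ring
    rw [this]
  have hT' := k2a_shift c (fun i => X i ∨ Y i) (fun i => by rw [hX, hY]) n
  refine k2a_step c d (fun i => X (i + n)) (fun i => Y (i + n)) hc hd hX' hY' ?_ ?_ ?_ ?_ ?_ ?_ ?_ ?_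
  · rw [k2a_shift c X hX n]; exact hXc
  · rw [k2a_shift c Y hY n]; exact hYc
  · have e1 : ((Finset.range c).filter (fun k : ℕ => X k ∨ Y k)).card
        = ((Finset.range c).filter (fun k : ℕ => X (k + n) ∨ Y (k + n))).card := by
      convert hT'.symm using 2
      · congr
      · congr
    rw [e1] at hT
    exact hT
  · intro i j hij hj a1 a2 a3 a4
    refine F1 (i + n) (j + n) (by omega) (by omega) a1 ?_ a3 ?_
    · have : i + (n : ℤ) + 1 = i + 1 + n := by ring
      rw [this]; exact a2
    · have : j + (n : ℤ) + 1 = j + 1 + n := by ring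
      rw [this]; exact a4
  · intro i j a1 a2 a3 a4
    refine F2 (i + n) (j + n) a1 ?_ a3 ?_
    · have : i + (n : ℤ) + 1 = i + 1 + n := by ring
      rw [this]; exact a2
    · have : j + (n : ℤ) + 2 = j + 2 + n := by ring
      rw [this]; exact a4
  · intro i j a1 a2 a3 a4
    refine F2' (i + n) (j + n) a1 ?_ a3 ?_
    · have : i + (n : ℤ) + 1 = i + 1 + n := by ring
      rw [this]; exact a2
    · have : j + (n : ℤ) + 2 = j + 2 + n := by ring
      rw [this]; exact a4
  · show X (0 + n); rw [zero_add]; exact hXn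
  · show Y (1 + n); rw [add_comm]; exact hYn

theorem comb_k2 (c d : ℕ) (X Y : ℤ → Prop) (hc : c + 2 = 2 * d) (hd : 3 ≤ d)
    (hX : ∀ i : ℤ, X (i + c) ↔ X i) (hY : ∀ i : ℤ, Y (i + c) ↔ Y i)
    (hXc : d ≤ ((Finset.range c).filter (fun k : ℕ => X k)).card + 1)
    (hYc : d ≤ ((Finset.range c).filter (fun k : ℕ => Y k)).card + 1)
    (hT : 3 ≤ ((Finset.range c).filter (fun k : ℕ => X k ∨ Y k)).card)
    (F1 : ∀ i j : ℤ, i < j → j < i + c → X i → Y (i + 1) → X j → Y (j + 1) → False)
    (F1' : ∀ i j : ℤ, i < j → j < i + c → Y i → X (i + 1) → Y j → X (j + 1) → False)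
    (F2 : ∀ i j : ℤ, X i → Y (i + 1) → X j → Y (j + 2) → False)
    (F2' : ∀ i j : ℤ, Y i → X (i + 1) → Y j → X (j + 2) → False) :
    (∀ i : ℤ, X i ↔ Y i) ∧ (∀ i : ℤ, X (i + 1) ↔ ¬ X i) := by
  have hT' : 3 ≤ ((Finset.range c).filter (fun k : ℕ => Y k ∨ X k)).card := by
    have : ((Finset.range c).filter (fun k : ℕ => Y k ∨ X k)) =
        ((Finset.range c).filter (fun k : ℕ => X k ∨ Y k)) :=
      Finset.filter_congr fun k _ => or_comm
    rw [this]; exact hT
  have nXY : ∀ i : ℤ, X i → Y (i + 1) → False :=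
    fun i => k2a_step' c d X Y hc hd hX hY hXc hYc hT F1 F2 F2' i
  have nYX : ∀ i : ℤ, Y i → X (i + 1) → False :=
    fun i => k2a_step' c d Y X hc hd hY hX hYc hXc hT' F1' F2' F2 i
  have hX1 : ∀ i : ℤ, X (i + c + 1) ↔ X (i + 1) := by
    intro i
    rw [← hX (i + 1)]
    have : i + (c : ℤ) + 1 = i + 1 + c := by ring
    rw [this]
  have hY1 : ∀ i : ℤ, Y (i + c + 1) ↔ Y (i + 1) := by
    intro i
    rw [← hY (i + 1)]
    have : i + (c : ℤ) + 1 = i + 1 + c := by ring
    rw [this]
  have hsX : ((Finset.range c).filter (fun k : ℕ => X ((k : ℤ) + 1))).card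
        = ((Finset.range c).filter (fun k : ℕ => X k)).card := by
    simpa using k2a_shift c X hX 1
  have hsY : ((Finset.range c).filter (fun k : ℕ => Y ((k : ℤ) + 1))).card
        = ((Finset.range c).filter (fun k : ℕ => Y k)).card := by
    simpa using k2a_shift c Y hY 1
  have cY := (k2a_compl c (by omega) X (fun i => Y (i + 1)) hX hY1 nXY (by
    rw [hsY]; omega)).1
  have cX := (k2a_compl c (by omega) Y (fun i => X (i + 1)) hY hX1 nYX (by
    rw [hsX]; omega)).1
  have hX2 : ∀ i : ℤ, X (i + 2) ↔ X i := by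
    intro i
    have e : i + 2 = (i + 1) + 1 := by ring
    rw [e, cX (i + 1), cY i, not_not]
  have hpar : ∀ i j : ℤ, X j → X (j + 1) → X i := by
    intro i j h0 h1
    rcases Int.even_or_odd' (i - j) with ⟨k, hk | hk⟩
    · have : i = j + k * 2 := by linarith
      rw [this, k2a_per X 2 hX2]; exact h0
    · have : i = (j + 1) + k * 2 := by linarith
      rw [this, k2a_per X 2 hX2]; exact h1
  have hpar' : ∀ i j : ℤ, ¬ X j → ¬ X (j + 1) → ¬ X i := by
    intro i j h0 h1
    rcases Int.even_or_odd' (i - j) with ⟨k, hk | hk⟩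
    · have : i = j + k * 2 := by linarith
      rw [this, k2a_per X 2 hX2]; exact h0
    · have : i = (j + 1) + k * 2 := by linarith
      rw [this, k2a_per X 2 hX2]; exact h1
  have hmain : ∀ i : ℤ, X (i + 1) ↔ ¬ X i := by
    intro i
    constructor
    · intro h1 h0
      -- `X` is everything, `Y` is empty
      have hempty : ((Finset.range c).filter (fun k : ℕ => Y k)) = ∅ := by
        rw [Finset.filter_eq_empty_iff]
        intro k _ hYk
        have := (cX k).1 (hpar _ i h0 h1)
        exact this hYk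
      rw [hempty, Finset.card_empty] at hYc
      omega
    · intro h0
      by_contra h1
      have hempty : ((Finset.range c).filter (fun k : ℕ => X k)) = ∅ := by
        rw [Finset.filter_eq_empty_iff]
        intro k _ hXk
        exact hpar' _ i h0 h1 hXk
      rw [hempty, Finset.card_empty] at hXc
      omega
  refine ⟨fun i => ?_, hmain⟩
  have e : i = (i - 1) + 1 := by ring
  rw [e, cY (i - 1), hmain (i - 1)]

end Pool.Agent.BND
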