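import Pool.Agent.BND.K2a
import Pool.Agent.BND.K2b

/-!
# BND-K2 : exactly two vertices outside

`comb_k2` (combinatorics on a circle).  `X`, `Y` are `c`-periodic sets of positions, `c + 2 = 2 d`,
`d ≥ 3`, each with at least `d - 1` elements per period, `X ∪ Y` with at least three, such that
 (F1) there are no `i < j < i + c` with `X i, Y (i+1), X j, Y (j+1)`; (F1') the same with `X`, `Y`
 exchanged;
 (F2) if `X i, Y (i+1)` for some `i` then there is no `j` with `X j, Y (j+2)`; (F2') the same with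
 `X`, `Y` exchanged.
Then `X = Y`, and `X (i+1) ↔ ¬ X i`.

Proof.  (1) Suppose `X i, Y (i+1)` for some `i`, WLOG (translation) look at one period starting at `i`.
By (F2) the sets `X` and `Y - 2` are disjoint, and `|X| + |Y| ≥ 2 (d - 1) = c`, so they are
complementary: `Y (j + 2) ↔ ¬ X j` and `|X| = |Y| = d - 1`.  By (F1) `X ∩ (Y - 1)` has exactly one
element per period, namely `i`.  For `j ≢ i` with `X j`: `¬ Y (j+1)`, i.e. `X (j - 1)` (by
complementarity, `Y (j + 1) ↔ ¬ X (j - 1)`).  So going down from any element of `X` we stay in `X`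
until we reach `i` (mod `c`).  Let `i + t` (`0 ≤ t < c`) be the largest element of `X` in
`[i, i + c)`: then `X ∩ [i, i + c) = {i, …, i + t}`, so `t + 1 = d - 1`.
`Y (j + 2) ↔ ¬ X j`: `Y = {i + t + 3, …, i + c + 1}` mod `c`, it contains `i + c ≡ i` and
`i + c + 1 ≡ i + 1` (as `X (i - 2)`, `X (i - 1)` are false: `d - 1 ≤ c - 2`).  Now `X (i + 1)` holds
(`t ≥ 1` as `d ≥ 3`), so `Y i, X (i + 1)`, and (F2') says that `Y i, X (i + 2)` do not both hold; so
`¬ X (i + 2)`, `t = 1`, `d = 3`, `c = 4`, `X = {i, i+1}`, `Y = {i, i+1}` mod 4: `X ∪ Y` has two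
elements per period, a contradiction.
(2) So there are no `X i, Y (i+1)` and by symmetry no `Y i, X (i+1)`.  Hence `X` and `Y - 1` are
disjoint, `|X| + |Y| ≥ c`, so `Y (j + 1) ↔ ¬ X j`, and similarly `X (j + 1) ↔ ¬ Y j`.  So
`X (j + 2) ↔ ¬ Y (j + 1) ↔ X j`.  If `X i` and `X (i + 1)` for some `i` then `X` is everything and
`Y` is empty.  So `X i → ¬ X (i+1)`; if `¬ X i` and `¬ X (i + 1)` then `X` is empty.  So
`X (i + 1) ↔ ¬ X i`, and `Y (i + 1) ↔ ¬ X i ↔ X (i + 1)`.

`case_K2`.  `Bs v c = {x, y}`, `x ~ y` (connected), `|V| ≥ 2 d`, `c ≤ 2 d - 2` so `c + 2 = 2 d`.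
`X i := v i ~ x`, `Y i := v i ~ y`; `x` has at least `d - 1` neighbours on the cycle.
`Tp i ↔ X i ∨ Y i`, at least three positions (`three_le_TT`).  `tp_succ`: gap one arcs are negative.
 (F1) `NCtx.cross` with `I = [x]` from `v i` to `v j` and `J = [y]` from `v (i+1)` to `v (j+1)`,
 positions `i < i+1 ≤ j < j+1 ≤ i + c`, lengths `2 < 1 + 1 + 2`: `(s (i+1) - s i) + (s (j+1) - s j) = 1`,
 but it is `1 + 1 = 0`.
 (F2) Let `X i, Y (i+1)` and `X j, Y (j+2)`.  The ear `[x, y]` from `v j` to `v (j+2)` has length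
 `3 > 2`, so `s j ≠ s (j + 2)` (`arc_ear`), i.e. `s (j+2) = s j + 1`.  If `Tp (j+1)`, then by `tp_succ`
 twice `s (j+2) = s j`, contradiction.  So `¬ Tp (j + 1)`, hence `j + 1 ≢ i, i + 1`, and by
 periodicity we may assume `i + 1 ≤ j`, `j + 2 ≤ i + c`.  `NCtx.cross` with the positions
 `i < i + 1 ≤ j < j + 2 ≤ i + c`, `I = [x]` from `v i` to `v j`, `J = [y]` from `v (i+1)` to `v (j+2)`,
 lengths `1 + 2 < 4`: `(s (i+1) - s i) + (s (j+2) - s j) = 1` but it is `1 + 1`.
 (F1'), (F2') by exchanging `x` and `y`.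
So `comb_k2` applies: `X = Y = Tp` and `Tp (i+1) ↔ ¬ Tp i`.  `EqH` with `m = 2`, `N = d - 1 ≥ 3`
(exactly half of the `c = 2 (d - 1)` positions; at least three): `inv`: `Tp (i + 4)`; `btw`: `j = i + 2`;
`neg`: consecutive elements are `i, i + 2`, ear `[x, y]` of length `3 > 2`; `ear`: `[x, y]` (`|I| = 2`);
`via`: `[x, v k, y]`, `|J| = 3`.  `eq_false`.
-/

set_option autoImplicit false
set_option linter.unusedSectionVars false

namespace Pool.Agent.BND

open Classical

variable {V : Type} [Fintype V]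
variable {G : SimpleGraph V} {ε : V → V → ZMod 2} {τ : ZMod 2} {d c : ℕ} {v : ℤ → V}
  {s : ℤ → ZMod 2}

theorem k2c_ear1 {D : Finset V} {x a b : V} (hx : x ∈ D) (h1 : G.Adj a x) (h2 : G.Adj b x) :
    Ear G D a b [x] :=
  ⟨by simp, by simp, by
    simp only [List.singleton_append, List.isChain_cons_cons, List.isChain_singleton, and_true]
    exact ⟨h1, h2.symm⟩, by simpa using hx⟩

theorem k2c_ear2 {D : Finset V} {x y a b : V} (hx : x ∈ D) (hy : y ∈ D) (hxy : G.Adj x y)
    (h1 : G.Adj a x) (h2 : G.Adj b y) :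
    Ear G D a b [x, y] :=
  ⟨by simp, by simpa using hxy.ne, by
    simp only [List.cons_append, List.nil_append, List.isChain_cons_cons, List.isChain_singleton,
      and_true]
    exact ⟨h1, hxy, h2.symm⟩, by
    intro z hz
    simp only [List.mem_cons, List.not_mem_nil, or_false] at hz
    rcases hz with rfl | rfl
    · exact hx
    · exact hy⟩

theorem k2c_F1 (h : NCtx G ε τ d c v s) {x y : V} (hx : x ∈ Bs v c) (hy : y ∈ Bs v c)
    (hxy : x ≠ y) : ∀ i j : ℤ, i < j → j < i + c → G.Adj (v i) x → G.Adj (v (i + 1)) y →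
      G.Adj (v j) x → G.Adj (v (j + 1)) y → False := by
  intro i j hij hj h1 h2 h3 h4
  have t1 : Tp G v c i := ⟨x, hx, h1⟩
  have t2 : Tp G v c (i + 1) := ⟨y, hy, h2⟩
  have t3 : Tp G v c j := ⟨x, hx, h3⟩
  have t4 : Tp G v c (j + 1) := ⟨y, hy, h4⟩
  have e1 := h.tp_succ t1 t2
  have e2 := h.tp_succ t3 t4
  have e3 := h.cross (i := i) (j := i + 1) (k := j) (l := j + 1) (by omega) (by omega) (by omega)
    (by omega) (k2c_ear1 hx h1 h3) (k2c_ear1 hy h2 h4)
    (by
      intro z hz
      simp only [List.mem_cons, List.not_mem_nil, or_false] at hz ⊢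
      rw [hz]; exact hxy)
    (by simp)
  rw [e1, e2] at e3
  have e4 : (1 : ZMod 2) + 1 = 1 := by
    have : (s i + 1 - s i) + (s j + 1 - s j) = (1 : ZMod 2) + 1 := by ring
    rw [← this]; exact e3
  exact absurd e4 (by decide)

theorem k2c_ne (h : NCtx G ε τ d c v s) (hc : 3 ≤ c) {x y : V} (hx : x ∈ Bs v c) (hy : y ∈ Bs v c)
    (hxy : G.Adj x y) {j : ℤ} (h3 : G.Adj (v j) x) (h4 : G.Adj (v (j + 2)) y) :
    s (j + 2) = s j + 1 := by
  have hne : s j ≠ s (j + 2) := by
    intro he
    have := h.arc_ear (i := j) (j := j + 2) (by omega) (by omega) he (k2c_ear2 hx hy hxy h3 h4)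
    simp at this
  have h01 : ∀ a b : ZMod 2, a ≠ b → b = a + 1 := by decide
  exact h01 _ _ hne

theorem k2c_F2 (h : NCtx G ε τ d c v s) (hc : 3 ≤ c) {x y : V} (hx : x ∈ Bs v c) (hy : y ∈ Bs v c)
    (hxy : G.Adj x y) : ∀ i j : ℤ, G.Adj (v i) x → G.Adj (v (i + 1)) y →
      G.Adj (v j) x → G.Adj (v (j + 2)) y → False := by
  intro i j h1 h2 h3 h4
  -- the translate of j in [i, i + c)
  have hc0 : (0 : ℤ) < c := by omega
  obtain ⟨j', hj1, hj2, k, hk⟩ : ∃ j' : ℤ, i ≤ j' ∧ j' < i + c ∧ ∃ k : ℤ, j' = j + k * c := by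
    refine ⟨i + (j - i) % c, ?_, ?_, -((j - i) / c), ?_⟩
    · have := Int.emod_nonneg (j - i) (ne_of_gt hc0); omega
    · have := Int.emod_lt_of_pos (j - i) hc0; omega
    · have := Int.emod_add_mul_ediv (j - i) c
      linarith [this, mul_comm ((j - i) / (c : ℤ)) (c : ℤ)]
  have h3' : G.Adj (v j') x := by rw [hk, h.vper]; exact h3
  have h4' : G.Adj (v (j' + 2)) y := by
    rw [hk, show j + k * (c : ℤ) + 2 = (j + 2) + k * c by ring, h.vper]; exact h4
  have e2 := k2c_ne h hc hx hy hxy h3' h4'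
  have t1 : Tp G v c i := ⟨x, hx, h1⟩
  have t2 : Tp G v c (i + 1) := ⟨y, hy, h2⟩
  have t3 : Tp G v c j' := ⟨x, hx, h3'⟩
  have t4 : Tp G v c (j' + 2) := ⟨y, hy, h4'⟩
  have nt : ¬ Tp G v c (j' + 1) := by
    intro t5
    have e5 := h.tp_succ t3 t5
    have e6 := h.tp_succ t5 (show Tp G v c (j' + 1 + 1) by
      rw [show j' + 1 + 1 = j' + 2 by ring]; exact t4)
    rw [show j' + 1 + 1 = j' + 2 by ring, e5, e2] at e6
    have h01 : ∀ a : ZMod 2, a + 1 ≠ a + 1 + 1 := by decide
    exact h01 _ e6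
  have n1 : j' ≠ i := by
    rintro rfl; exact nt t2
  have n2 : j' + 1 ≠ i + c := by
    intro he
    apply nt
    rw [he, Tp.per h.toCtx]; exact t1
  have e1 := h.tp_succ t1 t2
  have e3 := h.cross (i := i) (j := i + 1) (k := j') (l := j' + 2) (by omega) (by omega) (by omega)
    (by omega) (k2c_ear1 hx h1 h3') (k2c_ear1 hy h2 h4')
    (by
      intro z hz
      simp only [List.mem_cons, List.not_mem_nil, or_false] at hz ⊢
      rw [hz]; exact hxy.ne)
    (by simp)
  rw [e1, e2] at e3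
  have e4 : (1 : ZMod 2) + 1 = 1 := by
    have : (s i + 1 - s i) + (s j' + 1 - s j') = (1 : ZMod 2) + 1 := by ring
    rw [← this]; exact e3
  exact absurd e4 (by decide)

theorem k2c_deg (h : NCtx G ε τ d c v s) {x y : V} (hB : Bs v c = {x, y}) :
    d ≤ ((Finset.range c).filter (fun k : ℕ => G.Adj (v (k : ℤ)) x)).card + 1 := by
  have h1 := card_filter_pos h.toCtx (fun u => G.Adj u x) 0
  simp only [zero_add] at h1
  rw [h1]
  have h2 : nb G x ⊆ insert y ((Cs v c).filter (fun u => G.Adj u x)) := by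
    intro z hz
    simp only [nb, Finset.mem_filter, Finset.mem_univ, true_and] at hz
    simp only [Finset.mem_insert, Finset.mem_filter]
    by_cases hzc : z ∈ Cs v c
    · exact Or.inr ⟨hzc, hz.symm⟩
    · left
      have : z ∈ Bs v c := by simp only [Bs, Finset.mem_compl]; exact hzc
      rw [hB] at this
      simp only [Finset.mem_insert, Finset.mem_singleton] at this
      rcases this with h5 | h5
      · exact absurd h5.symm hz.ne
      · exact h5
  calc d ≤ (nb G x).card := h.deg x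
    _ ≤ _ := Finset.card_le_card h2
    _ ≤ _ := Finset.card_insert_le _ _

theorem case_K2 (h : NCtx G ε τ d c v s) (h2 : (Bs v c).card = 2) : False := by
  obtain ⟨x, y, hne, hB⟩ := Finset.card_eq_two.1 h2
  have hx : x ∈ Bs v c := by rw [hB]; simp
  have hy : y ∈ Bs v c := by rw [hB]; simp
  have hxy : G.Adj x y := by
    obtain ⟨l, hl⟩ := h.conn.2 x hx y hy
    rcases l with _ | ⟨a, _ | ⟨b, t⟩⟩
    · have := hl.head; simp at this
    · have h3 := hl.head
      have h4 := hl.last
      simp at h3 h4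
      exact absurd (h3.symm.trans h4) hne
    · have h3 := hl.head
      simp only [List.head?_cons, Option.some.injEq] at h3
      subst h3
      have h4 := hl.chain
      rw [List.isChain_cons_cons] at h4
      have h5 := hl.sub b (by simp)
      rw [hB] at h5
      simp only [Finset.mem_insert, Finset.mem_singleton] at h5
      rcases h5 with h6 | h6
      · exact absurd h6.symm h4.1.ne
      · rw [← h6]; exact h4.1
  have hcard := card_Bs h.toCtx
  have hc : c + 2 = 2 * d := by
    have := h.card; have := h.hc; omega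
  have hd := h.hd
  have hc3 : 3 ≤ c := h.three
  have hB' : Bs v c = {y, x} := by rw [hB]; exact Finset.pair_comm x y
  have htp : ∀ i : ℤ, Tp G v c i ↔ (G.Adj (v i) x ∨ G.Adj (v i) y) := by
    intro i
    constructor
    · rintro ⟨z, hz, hz2⟩
      rw [hB] at hz
      simp only [Finset.mem_insert, Finset.mem_singleton] at hz
      rcases hz with rfl | rfl
      · exact Or.inl hz2
      · exact Or.inr hz2
    · rintro (h3 | h3)
      · exact ⟨x, hx, h3⟩
      · exact ⟨y, hy, h3⟩
  have hT : 3 ≤ ((Finset.range c).filter (fun k : ℕ => G.Adj (v (k : ℤ)) x ∨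
      G.Adj (v (k : ℤ)) y)).card := by
    have h3 := three_le_TT h.cc
    have h4 := h.tp_card 0
    simp only [zero_add, htp] at h4
    rw [h4]; exact h3
  obtain ⟨hXY, halt⟩ := comb_k2 c d (fun i => G.Adj (v i) x) (fun i => G.Adj (v i) y) hc hd
    (fun i => by simp only [h.vper1]) (fun i => by simp only [h.vper1])
    (k2c_deg h hB) (k2c_deg h hB') hT
    (k2c_F1 h hx hy hne) (k2c_F1 h hy hx hne.symm)
    (k2c_F2 h hc3 hx hy hxy) (k2c_F2 h hc3 hy hx hxy.symm)
  have htpX : ∀ i : ℤ, Tp G v c i ↔ G.Adj (v i) x := by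
    intro i
    rw [htp]
    constructor
    · rintro (h3 | h3)
      · exact h3
      · exact (hXY i).2 h3
    · exact Or.inl
  have hpar : ∀ i : ℤ, Tp G v c (i + 1) ↔ ¬ Tp G v c i := by
    intro i
    rw [htpX, htpX]; exact halt i
  have h4d : 4 ≤ d := by
    by_contra hlt
    have hd3 : d = 3 := by omega
    have hc4 : c = 4 := by omega
    have h3 := three_le_TT h.cc
    have h4 := h.tp_card 0
    simp only [zero_add] at h4
    rw [← h4, hc4] at h3
    rw [hc4] at hpar
    have p0 := hpar 0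
    have p1 := hpar 1
    have p2 := hpar 2
    norm_num at p0 p1 p2
    simp only [Finset.range_add_one, Finset.filter_insert, Finset.range_zero,
      Finset.filter_empty] at h3
    by_cases hz : Tp G v 4 0
    · have q1 : ¬ Tp G v 4 1 := fun hh => (p0.1 hh) hz
      have q2 : Tp G v 4 2 := p1.2 q1
      have q3 : ¬ Tp G v 4 3 := fun hh => (p2.1 hh) q2
      simp [hz, q1, q2, q3] at h3
    · have q1 : Tp G v 4 1 := p0.2 hz
      have q2 : ¬ Tp G v 4 2 := fun hh => (p1.1 hh) q1
      have q3 : Tp G v 4 3 := p2.2 q2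
      simp [hz, q1, q2, q3] at h3
  refine parity_false h hc h4d hpar ?_ ?_ ?_
  · intro i hi
    have h5 : Tp G v c (i + 2) := by
      have h6 := hpar (i + 1)
      rw [show i + 1 + 1 = i + 2 by ring] at h6
      rw [h6, hpar i]; exact fun hh => hh hi
    exact k2c_ne h hc3 hx hy hxy ((htpX i).1 hi) ((hXY _).1 ((htpX _).1 h5))
  · intro i j hi hj _
    exact ⟨[x, y], k2c_ear2 hx hy hxy ((htpX i).1 hi) ((hXY _).1 ((htpX j).1 hj)), by simp⟩
  · intro i j k hi hj hk _ _ _
    have hix := (htpX i).1 hi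
    have hjy := (hXY j).1 ((htpX j).1 hj)
    have hkx := (htpX k).1 hk
    have hky := (hXY k).1 hkx
    have hkB := v_not_mem_Bs h.toCtx k
    refine ⟨[x, v k, y], ⟨by simp, ?_, ?_, ?_, ?_, ?_⟩, by simp⟩
    · have n1 : x ≠ v k := fun hh => hkB (hh ▸ hx)
      have n2 : v k ≠ y := fun hh => hkB (hh ▸ hy)
      simp [n1, n2, hne]
    · simp only [List.cons_append, List.nil_append, List.isChain_cons_cons,
        List.isChain_singleton, and_true]
      exact ⟨hix, hkx.symm, hky, hjy.symm⟩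
    · intro z hz
      simp only [List.mem_cons, List.not_mem_nil, or_false] at hz
      rcases hz with rfl | rfl | rfl
      · exact Or.inl hx
      · exact Or.inr rfl
      · exact Or.inl hy
    · intro z hz
      simp only [List.head?_cons, Option.some.injEq] at hz
      rw [← hz]; exact hx
    · intro z hz
      simp at hz
      rw [← hz]; exact hy

end Pool.Agent.BND
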