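import Pool.Agent.BND.P4c

/-!
# BND-L1 : the outside of a longest `τ`-cycle is connected

`GA G v c D` (good arcs): there are two edge disjoint arcs `v i … v j` and `v k … v l` of the cycle,
each shorter than some ear through `D` with the same ends.

`good_arcs`: ownership data give `GA`.  Call `u ∈ P` bad if, `u = v p`, some element `w ≠ u` of `P` has
a position `q` with `p < q < p + own u`.  (a) If at most one element of `P` is bad: let `u₀` be an
element of `P` such that all others are not bad.  For `u = v p ∈ P`, `u ≠ u₀` the positions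
`p, p+1, …, p + own u - 1` and the position of `u₀` are pairwise distinct modulo `c` (for different
`u, u' ∈ P \ {u₀}`: if `p + j ≡ p' + j'` with `j < own u`, `j' < own u'`, say `j ≥ j'`, then
`p' ≡ p + (j - j')` and `u` would be bad, `j - j' > 0` as `u ≠ u'`; within one `u`: `own u ≤ c`, since
otherwise `u` would be bad because of any other element of `P` (`|P| ≥ 2`);
position of `u₀`: not in `[p, p + own u)` as `u` is not bad).  So
`c ≥ 1 + ∑_{u ≠ u₀} own u ≥ 1 + (2 d - 2)`, contradiction to `c + 2 ≤ 2 d`.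
(b) So there are two distinct bad elements `u = v p`, `u' = v p'` with `p < p' < p + c`.  Let `j > p`
be the smallest position `> p` of an element of `P` different from `u` (so `j < p + own u`,
`j < p + c`), and `l > p'` the smallest position `> p'` of an element of `P` different from `u'`.
Then `j ≤ p'`, `l ≤ p + c`.  The arcs `(p, j)` and `(p', l)` are good: there is an ear
through `D` from `u` to `v j` of length at least `own u > j - p`.

`two_comps`: let `D`, `D'` be disjoint sets outside the cycle, both with `GA`.  Contradiction.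
Two good arcs `I = [i, j]` (for `D`), `J = [k, l]` (for `D'`) which are not nested give a longer
`τ`-cycle (`arcs_false`).  By `su1`, the sign of an ear over a good arc is the sign of the arc plus
one.  The ears are disjoint since `D`, `D'` are.  After a rotation `i < k < i + c` (equal starting
points would mean nested), `i < j < i + c`, `k < l < k + c`; `J ⊄ I` means `j < l` and `I ⊄ J` means
`l < j + c` (the arc `[i + c, j + c]` is not contained in `[k, l]`).  Cases:
 (1) `j ≤ k`, `l ≤ i + c` (edge disjoint): `su2par` gives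
   `sgn Q + sgn Q' = (s j - s i) + (s l - s k) + 1`, but `su1` twice gives
   `sgn Q + sgn Q' = (s j - s i) + (s l - s k) + 1 + 1`.  Contradiction.
 (2) `k < j`, `l ≤ i + c` (crossing): apply `su2cross` with the positions
   `i < k < j < l ≤ i + c`: the ears are `v i – v j`, `v k – v l`, the removed arcs are `[i, k]`,
   `[j, l]`, `(k - i) + (l - j) ≤ (j - i) + (l - k) < |Q| + |Q'|`.  Signs: `s j - s i + s l - s k` is
   equal to `s k - s i + s l - s j` in `ZMod 2`.
 (3) `j ≤ k`, `i + c < l` (crossing, roles exchanged): positions `k < i + c < l < j + c ≤ k + c`,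
   `su2cross` with the ears `Q'` (from `v k` to `v l`) and `Q` (from `v (i + c)` to `v (j + c)`).
 (4) `k < j`, `i + c < l` (double overlap).  Then `i < l - c < k < j < i + c`.
   Remove `[l - c, k]` and `[j, i + c]`: apply `su2par` with the positions
   `l - c < k < j < i + c ≤ (l - c) + c`, the ears being `Q'` reversed (from `v (l - c)` to `v k`) and
   `Q` reversed (from `v j` to `v (i + c)`).  Length condition:
   `k - (l - c) ≤ j - i` and `i + c - j ≤ l - k`.  Signs: `s (i + c) = s i + τ`,
   `s l = s (l - c) + τ`.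
Choice of a non-nested pair: let `I₁, I₂` be the two good arcs for `D` and `J₁, J₂` those for `D'`
(edge disjoint pairs).  `I₁` is not contained in both `J₁` and `J₂`; say `I₁ ⊄ J₁`.  If `J₁ ⊄ I₁`,
take `(I₁, J₁)`.  Otherwise `J₁ ⊆ I₁`, so `J₁` is edge disjoint from `I₂`: take `(I₂, J₁)`.

`conn_Bs`: if the outside `Bs v c` is not connected it has (nonempty, `two_le_card_Bs`) two distinct
components `D`, `D'`; each satisfies `CC G (Cs v c) D d`, so has ownership data, so `GA`.
-/

set_option autoImplicit false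
set_option linter.unusedSectionVars false

namespace Pool.Agent.BND

open Classical

variable {V : Type} [Fintype V]
variable {G : SimpleGraph V} {ε : V → V → ZMod 2} {τ : ZMod 2} {d c : ℕ} {v : ℤ → V}
  {s : ℤ → ZMod 2}

theorem good_arcs (h : Ctx G ε τ d c v s) {D P : Finset V} {own : V → ℕ}
    (ho : Own G (Cs v c) D d P own) : GA G v c D := by
  have hc0 : 0 < c := by have := h.three; omega
  -- positions
  have hpos : ∀ u : V, ∃ p : ℤ, u ∈ P → (0 ≤ p ∧ p < c ∧ v p = u) := by
    intro u
    by_cases hu : u ∈ P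
    · obtain ⟨j, hj1, hj2, hj3⟩ := exists_pos h (ho.sub hu) 0
      exact ⟨j, fun _ => ⟨hj1, by omega, hj3⟩⟩
    · exact ⟨0, fun hh => absurd hh hu⟩
  choose p hp using hpos
  -- gaps
  have hgap : ∀ u : V, ∃ g : ℕ, u ∈ P → (1 ≤ g ∧ g < c ∧ v (p u + g) ∈ P ∧ v (p u + g) ≠ u ∧
      ∀ t : ℕ, 1 ≤ t → v (p u + t) ∈ P → v (p u + t) ≠ u → g ≤ t) := by
    intro u
    by_cases hu : u ∈ P
    · obtain ⟨hp0, hp1, hp2⟩ := hp u hu
      -- another element of P
      obtain ⟨w, hw, hwu⟩ : ∃ w ∈ P, w ≠ u := by
        have h2 : 1 < P.card := by have := ho.two; omega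
        obtain ⟨a, ha, b, hb, hab⟩ := Finset.one_lt_card.mp h2
        by_cases hau : a = u
        · exact ⟨b, hb, fun hbu => hab (hau.trans hbu.symm)⟩
        · exact ⟨a, ha, hau⟩
      obtain ⟨q, hq1, hq2, hq3⟩ := exists_pos h (ho.sub hw) (p u)
      have hqne : q ≠ p u := by
        intro hq
        apply hwu
        rw [← hq3, hq, hp2]
      have hex : ∃ t : ℕ, 1 ≤ t ∧ v (p u + t) ∈ P ∧ v (p u + t) ≠ u := by
        refine ⟨(q - p u).toNat, ?_, ?_, ?_⟩
        · omega
        · have : p u + ((q - p u).toNat : ℤ) = q := by omega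
          rw [this, hq3]; exact hw
        · have : p u + ((q - p u).toNat : ℤ) = q := by omega
          rw [this, hq3]; exact hwu
      have hmin : ∀ t : ℕ, 1 ≤ t → v (p u + t) ∈ P → v (p u + t) ≠ u → Nat.find hex ≤ t := by
        intro t h1 h2 h3
        exact Nat.find_min' hex ⟨h1, h2, h3⟩
      refine ⟨Nat.find hex, fun _ => ⟨(Nat.find_spec hex).1, ?_, (Nat.find_spec hex).2.1,
        (Nat.find_spec hex).2.2, hmin⟩⟩
      have h5 := hmin (q - p u).toNat (by omega)
        (by
          have : p u + ((q - p u).toNat : ℤ) = q := by omega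
          rw [this, hq3]; exact hw)
        (by
          have : p u + ((q - p u).toNat : ℤ) = q := by omega
          rw [this, hq3]; exact hwu)
      omega
    · exact ⟨0, fun hh => absurd hh hu⟩
  choose g hg using hgap
  -- the gaps are pairwise disjoint
  have hinj : ∀ u ∈ P, ∀ u' ∈ P, ∀ t t' : ℕ, t < g u → t' < g u' → t' ≤ t →
      v (p u + t) = v (p u' + t') → u = u' ∧ t = t' := by
    intro u hu u' hu' t t' ht ht' htt heq
    obtain ⟨hp0, hp1, hp2⟩ := hp u hu
    obtain ⟨hp0', hp1', hp2'⟩ := hp u' hu'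
    obtain ⟨hg1, hg2, hg3, hg4, hg5⟩ := hg u hu
    obtain ⟨hg1', hg2', hg3', hg4', hg5'⟩ := hg u' hu'
    have hv : v (p u + ((t - t' : ℕ) : ℤ)) = u' := by
      rw [← hp2', h.inj]
      rw [h.inj] at heq
      have : (p u + ((t - t' : ℕ) : ℤ)) - p u' = (p u + t) - (p u' + t') := by
        push_cast [htt]; ring
      rw [this]; exact heq
    by_cases htt' : t = t'
    · subst htt'
      simp only [Nat.sub_self, Nat.cast_zero, add_zero] at hv
      rw [hp2] at hv
      exact ⟨hv, rfl⟩
    · exfalso
      have h1 : 1 ≤ t - t' := by omega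
      by_cases huu : u' = u
      · rw [huu] at hv
        have : v (p u) ≠ v (p u + ((t - t' : ℕ) : ℤ)) := h.vne (by omega) (by omega)
        apply this
        rw [hv, hp2]
      · have := hg5 (t - t') h1 (by rw [hv]; exact hu') (by rw [hv]; exact huu)
        omega
  have hsum : ∑ u ∈ P, g u ≤ c := by
    have h1 : (P.sigma fun u => Finset.range (g u)).card = ∑ u ∈ P, g u := by
      rw [Finset.card_sigma]
      exact Finset.sum_congr rfl (fun u _ => Finset.card_range _)
    have h2 : (P.sigma fun u => Finset.range (g u)).card ≤ (Cs v c).card := by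
      apply Finset.card_le_card_of_injOn (fun x => v (p x.1 + (x.2 : ℤ)))
      · intro x _
        exact v_mem_Cs h _
      · rintro ⟨u, t⟩ hx ⟨u', t'⟩ hy hxy
        simp only [Finset.coe_sigma, Set.mem_sigma_iff, Finset.mem_coe, Finset.mem_range] at hx hy
        simp only at hxy
        rcases le_total t' t with hle | hle
        · obtain ⟨e1, e2⟩ := hinj u hx.1 u' hy.1 t t' hx.2 hy.2 hle hxy
          subst e1; subst e2; rfl
        · obtain ⟨e1, e2⟩ := hinj u' hy.1 u hx.1 t' t hy.2 hx.2 hle hxy.symm
          subst e1; subst e2; rfl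
    rw [card_Cs h] at h2
    omega
  -- two bad elements
  have hbad : ∃ u ∈ P, ∃ u' ∈ P, u ≠ u' ∧ g u < own u ∧ g u' < own u' := by
    by_contra hcon
    push Not at hcon
    obtain ⟨u₀, hu₀, hall⟩ : ∃ u₀ ∈ P, ∀ u ∈ P, u ≠ u₀ → own u ≤ g u := by
      by_cases hb : ∃ u ∈ P, g u < own u
      · obtain ⟨u, hu, hub⟩ := hb
        refine ⟨u, hu, ?_⟩
        intro w hw hwu
        exact hcon u hu w hw (Ne.symm hwu) hub
      · push Not at hb
        have h2 : 0 < P.card := by have := ho.two; omega
        obtain ⟨u₀, hu₀⟩ := Finset.card_pos.mp h2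
        exact ⟨u₀, hu₀, fun u hu _ => hb u hu⟩
    have h1 : ∑ w ∈ P.erase u₀, own w ≤ ∑ w ∈ P.erase u₀, g w :=
      Finset.sum_le_sum (fun w hw => hall w (Finset.mem_of_mem_erase hw) (Finset.ne_of_mem_erase hw))
    have h2 : ∑ w ∈ P.erase u₀, g w + g u₀ = ∑ w ∈ P, g w := Finset.sum_erase_add _ _ hu₀
    have h3 := ho.sum u₀ hu₀
    have h4 := (hg u₀ hu₀).1
    have h5 := h.hc
    omega
  obtain ⟨u, hu, u', hu', huu, hb, hb'⟩ := hbad
  -- the final statement for two bad elements in the right order
  have key : ∀ u ∈ P, ∀ u' ∈ P, u ≠ u' → g u < own u → g u' < own u' → p u < p u' →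
      GA G v c D := by
    intro u hu u' hu' huu hb hb' hlt
    obtain ⟨hp0, hp1, hp2⟩ := hp u hu
    obtain ⟨hp0', hp1', hp2'⟩ := hp u' hu'
    obtain ⟨hg1, hg2, hg3, hg4, hg5⟩ := hg u hu
    obtain ⟨hg1', hg2', hg3', hg4', hg5'⟩ := hg u' hu'
    obtain ⟨I, hI, hIl⟩ := ho.ear u hu _ hg3 (Ne.symm hg4)
    obtain ⟨I', hI', hIl'⟩ := ho.ear u' hu' _ hg3' (Ne.symm hg4')
    have e1 : p u + (((p u' - p u).toNat : ℕ) : ℤ) = p u' := by omega
    have e2 : p u' + (((p u + c - p u').toNat : ℕ) : ℤ) = p u + c := by omega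
    have a1 := hg5 (p u' - p u).toNat (by omega) (by rw [e1, hp2']; exact hu')
      (by rw [e1, hp2']; exact Ne.symm huu)
    have a2 := hg5' (p u + c - p u').toNat (by omega) (by rw [e2, h.vper1, hp2]; exact hu)
      (by rw [e2, h.vper1, hp2]; exact huu)
    refine ⟨p u, p u + g u, p u', p u' + g u', by omega, by omega, by omega, by omega,
      ⟨I, ?_, by omega⟩, ⟨I', ?_, by omega⟩⟩
    · rw [hp2]; exact hI
    · rw [hp2']; exact hI'
  rcases lt_trichotomy (p u) (p u') with hlt | heq | hgt
  · exact key u hu u' hu' huu hb hb' hlt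
  · exfalso
    apply huu
    rw [← (hp u hu).2.2, ← (hp u' hu').2.2, heq]
  · exact key u' hu' u hu (Ne.symm huu) hb' hb hgt

end Pool.Agent.BND
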