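import Pool.Agent.BND.SU1

/-!
# BND-L1 : the outside of a longest `τ`-cycle is connected

`GA G v c D` (good arcs): there are two edge disjoint arcs `v i … v j` and `v k … v l` of the cycle,
each shorter than some ear through `D` with the same ends.

`good_arcs`: ownership data give `GA`.  Call `u ∈ P` bad if, `u = v p`, some element `w ≠ u` of `P` has
a position `q` with `p < q < p + own u`.  (a) If at most one element of `P` is bad: let `u₀` be an
element of `P` such that all others are not bad.  For `u = v p ∈ P`, `u ≠ u₀` the positions
`p, p+1, …, p + own u - 1` and the position of `u₀` are pairwise distinct modulo `c` (for different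
`u, u' ∈ P \ {u₀}`: if `p + j ≡ p' + j'` with `j < own u`, `j' < own u'`, say `j ≥ j'`, then
`p' ≡ p + (j - j')` and `u` would be bad, `j - j' > 0` as `u ≠ u'`; within one `u`: `own u ≤ c`, since
otherwise `u` would be bad because of any other element of `P` (`|P| ≥ 2`);
position of `u₀`: not in `[p, p + own u)` as `u` is not bad).  So
`c ≥ 1 + ∑_{u ≠ u₀} own u ≥ 1 + (2 d - 2)`, contradiction to `c + 2 ≤ 2 d`.
(b) So there are two distinct bad elements `u = v p`, `u' = v p'` with `p < p' < p + c`.  Let `j > p`
be the smallest position `> p` of an element of `P` different from `u` (so `j < p + own u`,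
`j < p + c`), and `l > p'` the smallest position `> p'` of an element of `P` different from `u'`.
Then `j ≤ p'`, `l ≤ p + c`.  The arcs `(p, j)` and `(p', l)` are good: there is an ear
through `D` from `u` to `v j` of length at least `own u > j - p`.

`two_comps`: let `D`, `D'` be disjoint sets outside the cycle, both with `GA`.  Contradiction.
Two good arcs `I = [i, j]` (for `D`), `J = [k, l]` (for `D'`) which are not nested give a longer
`τ`-cycle (`arcs_false`).  By `su1`, the sign of an ear over a good arc is the sign of the arc plus
one.  The ears are disjoint since `D`, `D'` are.  After a rotation `i < k < i + c` (equal starting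
points would mean nested), `i < j < i + c`, `k < l < k + c`; `J ⊄ I` means `j < l` and `I ⊄ J` means
`l < j + c` (the arc `[i + c, j + c]` is not contained in `[k, l]`).  Cases:
 (1) `j ≤ k`, `l ≤ i + c` (edge disjoint): `su2par` gives
   `sgn Q + sgn Q' = (s j - s i) + (s l - s k) + 1`, but `su1` twice gives
   `sgn Q + sgn Q' = (s j - s i) + (s l - s k) + 1 + 1`.  Contradiction.
 (2) `k < j`, `l ≤ i + c` (crossing): apply `su2cross` with the positions
   `i < k < j < l ≤ i + c`: the ears are `v i – v j`, `v k – v l`, the removed arcs are `[i, k]`,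
   `[j, l]`, `(k - i) + (l - j) ≤ (j - i) + (l - k) < |Q| + |Q'|`.  Signs: `s j - s i + s l - s k` is
   equal to `s k - s i + s l - s j` in `ZMod 2`.
 (3) `j ≤ k`, `i + c < l` (crossing, roles exchanged): positions `k < i + c < l < j + c ≤ k + c`,
   `su2cross` with the ears `Q'` (from `v k` to `v l`) and `Q` (from `v (i + c)` to `v (j + c)`).
 (4) `k < j`, `i + c < l` (double overlap).  Then `i < l - c < k < j < i + c`.
   Remove `[l - c, k]` and `[j, i + c]`: apply `su2par` with the positions
   `l - c < k < j < i + c ≤ (l - c) + c`, the ears being `Q'` reversed (from `v (l - c)` to `v k`) and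
   `Q` reversed (from `v j` to `v (i + c)`).  Length condition:
   `k - (l - c) ≤ j - i` and `i + c - j ≤ l - k`.  Signs: `s (i + c) = s i + τ`,
   `s l = s (l - c) + τ`.
Choice of a non-nested pair: let `I₁, I₂` be the two good arcs for `D` and `J₁, J₂` those for `D'`
(edge disjoint pairs).  `I₁` is not contained in both `J₁` and `J₂`; say `I₁ ⊄ J₁`.  If `J₁ ⊄ I₁`,
take `(I₁, J₁)`.  Otherwise `J₁ ⊆ I₁`, so `J₁` is edge disjoint from `I₂`: take `(I₂, J₁)`.

`conn_Bs`: if the outside `Bs v c` is not connected it has (nonempty, `two_le_card_Bs`) two distinct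
components `D`, `D'`; each satisfies `CC G (Cs v c) D d`, so has ownership data, so `GA`.
-/

set_option autoImplicit false
set_option linter.unusedSectionVars false

namespace Pool.Agent.BND

open Classical

variable {V : Type} [Fintype V]
variable {G : SimpleGraph V} {ε : V → V → ZMod 2} {τ : ZMod 2} {d c : ℕ} {v : ℤ → V}
  {s : ℤ → ZMod 2}

/-- disjoint or overlapping good arcs: the surgery step of `two_comps` -/
theorem arcs_false (h : Ctx G ε τ d c v s) {D D' : Finset V} (hD : D ⊆ Bs v c)
    (hD' : D' ⊆ Bs v c) (hdd : Disjoint D D') {i j k l : ℤ} (hij : i < j) (hkl : k < l)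
    (hj : j < i + c) (hl : l < k + c) (hik : i < k) (hk : k < i + c)
    (hn : j < l) (hn' : l < j + c) {I J : List V} (hI : Ear G D (v i) (v j) I) (hJ : Ear G D' (v k) (v l) J)
    (hIl : j - i < I.length + 1) (hJl : l - k < J.length + 1) : False := by
  have h2z : (2 : ZMod 2) = 0 := by decide
  have h10 : (1 : ZMod 2) ≠ 0 := by decide
  have eI : Ear G (Bs v c) (v i) (v j) I := hI.mono fun z hz => hD (hI.sub z hz)
  have eJ : Ear G (Bs v c) (v k) (v l) J := hJ.mono fun z hz => hD' (hJ.sub z hz)
  have hIJ : ∀ z ∈ I, z ∉ J := fun z hz hz' =>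
    Finset.disjoint_left.1 hdd (hI.sub z hz) (hJ.sub z hz')
  have hJI : ∀ z ∈ J, z ∉ I := fun z hz hz' => hIJ z hz' hz
  have h1 := su1 h hij hj eI hIl
  have h2 := su1 h hkl hl eJ hJl
  have h4 := h.per i
  have h5 := h.per j
  rcases le_or_gt j k with hjk | hjk
  · rcases le_or_gt l (i + c) with hlc | hlc
    · have h3 := su2par h hij hjk hkl hlc eI eJ hIJ (by omega)
      exact h10 (by linear_combination h3 - h1 - h2)
    · have eI' : Ear G (Bs v c) (v (i + c)) (v (j + c)) I := by
        rw [h.vper1, h.vper1]
        exact eI
      have h3 := su2cross h hk hlc.le hn' (by omega) eJ eI' hJI (by omega)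
      rw [h.vper1, h.vper1] at h3
      exact h10 (by linear_combination (h3 - h1 - h2) + h4 + h5 + (s i + τ - s l) * h2z)
  · rcases le_or_gt l (i + c) with hlc | hlc
    · have h3 := su2cross h hik hjk.le hn hlc eI eJ hIJ (by omega)
      exact h10 (by linear_combination (h3 - h1 - h2) + (s k - s j) * h2z)
    · have v1 : v (l - c) = v l := by
        have := h.vper1 (l - c)
        rwa [sub_add_cancel, eq_comm] at this
      have h6 := h.per (l - c)
      rw [sub_add_cancel] at h6
      have eJ' : Ear G (Bs v c) (v (l - c)) (v k) J.reverse := by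
        rw [v1]
        exact eJ.reverse
      have eI' : Ear G (Bs v c) (v j) (v (i + c)) I.reverse := by
        rw [h.vper1]
        exact eI.reverse
      have h3 := su2par h (show l - c < k by omega) hjk.le hj (by omega) eJ' eI'
        (fun z hz hz' => hJI z (List.mem_reverse.1 hz) (List.mem_reverse.1 hz'))
        (by
          rw [List.length_reverse, List.length_reverse]
          omega)
      have r1 := sg_reverse h.symm (v i :: (I ++ [v j]))
      have r2 := sg_reverse h.symm (v k :: (J ++ [v l]))
      rw [List.reverse_cons, List.reverse_append, List.reverse_singleton, List.singleton_append,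
        List.cons_append] at r1 r2
      rw [v1, h.vper1, r1, r2] at h3
      exact h10 (by linear_combination (h3 - h1 - h2) + h4 + h6 + (s k + s i - s j - s l + τ) * h2z)

end Pool.Agent.BND
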