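import Pool.Agent.BND.P2b

/-!
# BND-MG : Menger's theorem for two disjoint paths

`menger2_weak`.  Let `A, B ⊆ S` and suppose that for every vertex `x` there is a path in `S - x` from
`A` to `B`.  Then there are two disjoint paths in `S` from `A` to `B`.

Proof (Göring), by induction on the number of edges of `G` (for all `S, A, B`).

*No edge of `G` inside `S`.*  Then all paths in `S` are trivial, so for every `x` there is an element
of `A ∩ B` different from `x`; so `A ∩ B` has two distinct elements; take the two trivial paths.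

*Otherwise* let `e = xy` be an edge inside `S` and `G' = G - e`.  If for every `w` there is a
`G'`-path in `S - w` from `A` to `B`, use the induction hypothesis for `G'`.  Otherwise fix `w` such
that there is none.  Let `X` be the set of vertices of `S - w` that can be reached from `A - w` by
`G'`-paths in `S - w`.  Then `A - w ⊆ X`, `X ∩ B = ∅`, `w ∉ X`, and `X` is closed under
`G'`-neighbours in `S - w`.  The `G`-path in `S - w` from `A` to `B` starts in `X` and ends outside
`X`, so it uses an edge leaving `X`, which must be `e`; name its ends such that `x ∈ X`, `y ∉ X`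
(`y ≠ w`).
We have `w ∈ S`: otherwise there is no `G'`-path from `A` to `B` in `S` at all, but the `G`-path
in `S - x` given by the hypothesis (`x` an end of `e`) does not use `e`, so it is a `G'`-path.
(The same remark shows that `w` is not an end of `e`.)
Let `S₁ = X ∪ {w}`. Let `S₂ = S \ X`.

(i) For every `q` there is a `G'`-path in `S₁ - q` from `A` to `{x, w}`: take the `G`-path `P` in
`S - q` from `a ∈ A` to `b ∈ B`.  If `a = w` the trivial path does it.  Otherwise `a ∈ X`, and `P`
leaves `X` at some point (`b ∉ X`): let `P'` be the part of `P` up to the last vertex before it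
leaves `X` for the first time, `P'` ends at `x'`, next vertex `y' ∉ X`.  `P'` is a path in `X`,
it is a `G'`-path since `e` has an end outside `X`.  Either `y' = w` and `P'` followed by `w` is the
desired path, or `y' ≠ w` and then `x'y' = e`, so `x' = x`, and `P'` is the desired path.
(ii) For every `q` there is a `G'`-path in `S₂ - q` from `{y, w}` to `B`: take `P` as before, and the
part of `P` after its last vertex in `X` (the whole of `P` if it has no vertex in `X`, then
it starts at `w`).  It starts at `y` or at `w` and lies in `S₂`, it does not use `e`.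

By the induction hypothesis for `G'` there are disjoint `G'`-paths `α₁, α₂` in `S₁` from `A` to
`{x, w}` and `β₁, β₂` in `S₂` from `{y, w}` to `B`; we may assume that `α₁` ends at `x`, `α₂` at `w`
(`x ≠ w`, and the two paths are disjoint so they end at different vertices),
`β₁` starts at `y`, `β₂` at `w`.  Since `S₁ ∩ S₂ = {w}` and `w ∉ α₁, β₁`, the paths `α₁ e β₁` and
`α₂ β₂` (glued at `w`) are disjoint paths from `A` to `B`.

`menger2` : trimming.  Given the two disjoint paths, cut each at its last vertex in `A`, and then the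
rest at its first vertex in `B`.
-/

set_option autoImplicit false
set_option linter.unusedSectionVars false

namespace Pool.Agent.BND

open Classical

variable {V : Type} [Fintype V] {G : SimpleGraph V}

/-! ### helpers -/

theorem mg1a_chain {R R' : V → V → Prop} : ∀ l : List V, l.IsChain R →
    (∀ a ∈ l, ∀ b ∈ l, R a b → R' a b) → l.IsChain R'
  | [], _, _ => List.IsChain.nil
  | [a], _, _ => List.IsChain.singleton a
  | a :: b :: l, h, H => by
    rw [List.isChain_cons_cons] at h ⊢
    exact ⟨H a (by simp) b (by simp) h.1,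
      mg1a_chain (b :: l) h.2 fun c hc d hd => H c (List.mem_cons_of_mem _ hc) d
        (List.mem_cons_of_mem _ hd)⟩

theorem mg1a_left {S : Finset V} {a b c : V} {l1 l2 : List V} (h : Pth G S a b (l1 ++ l2))
    (hc : l1.getLast? = some c) : Pth G S a c l1 where
  head := by
    have h1 := h.head
    rw [List.head?_append] at h1
    cases l1 with
    | nil => simp at hc
    | cons u t => simpa using h1
  last := hc
  nodup := (List.nodup_append.1 h.nodup).1
  chain := (List.isChain_append.1 h.chain).1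
  sub := fun z hz => h.sub z (List.mem_append_left _ hz)

/-- the number of ordered pairs of adjacent vertices -/
noncomputable def mg1a_mu (G : SimpleGraph V) : ℕ :=
  (Finset.univ.filter (fun p : V × V => G.Adj p.1 p.2)).card

theorem mg1a_del {x y : V} (a b : V) : (G.deleteEdges {s(x, y)}).Adj a b ↔
    G.Adj a b ∧ ¬ ((a = x ∧ b = y) ∨ (a = y ∧ b = x)) := by
  simp [SimpleGraph.deleteEdges_adj]

theorem mg1a_mu_lt' {G' : SimpleGraph V} {x y : V} (h : G.Adj x y) (hn : ¬ G'.Adj x y)
    (hs : ∀ a b, G'.Adj a b → G.Adj a b) : mg1a_mu G' < mg1a_mu G := by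
  unfold mg1a_mu
  apply Finset.card_lt_card
  rw [Finset.ssubset_iff_of_subset]
  · refine ⟨(x, y), by simpa using h, ?_⟩
    rw [Finset.mem_filter]
    exact fun h1 => hn h1.2
  · intro p hp
    rw [Finset.mem_filter] at hp ⊢
    exact ⟨hp.1, hs _ _ hp.2⟩

theorem mg1a_mu_lt {x y : V} (h : G.Adj x y) : mg1a_mu (G.deleteEdges {s(x, y)}) < mg1a_mu G :=
  mg1a_mu_lt' h (fun h1 => ((mg1a_del _ _).1 h1).2 (Or.inl ⟨rfl, rfl⟩))
    fun _ _ h1 => ((mg1a_del _ _).1 h1).1

/-- two disjoint paths from `A` to `B` in `S` -/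
def mg1a_C (G : SimpleGraph V) (S A B : Finset V) : Prop :=
  ∃ a₁ ∈ A, ∃ a₂ ∈ A, ∃ b₁ ∈ B, ∃ b₂ ∈ B, ∃ l₁ l₂, Pth G S a₁ b₁ l₁ ∧ Pth G S a₂ b₂ l₂ ∧
      (∀ z ∈ l₁, z ∉ l₂)

theorem mg1a_core {G' : SimpleGraph V} {S A B X : Finset V} {w x y : V}
    (hGG : ∀ a b, G'.Adj a b ↔ G.Adj a b ∧ ¬ ((a = x ∧ b = y) ∨ (a = y ∧ b = x)))
    (hA : A ⊆ S) (hB : B ⊆ S) (hne : A.Nonempty)
    (hX : X ⊆ S.erase w) (hAX : ∀ a ∈ A, a ≠ w → a ∈ X) (hXB : ∀ b ∈ B, b ∉ X)
    (hcl : ∀ p ∈ X, ∀ q ∈ S.erase w, G'.Adj p q → q ∈ X)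
    (hx : x ∈ X) (hy : y ∉ X) (hyS : y ∈ S) (hyw : y ≠ w) (hxy : G.Adj x y)
    (h : ∀ x, ∃ a ∈ A, ∃ b ∈ B, ∃ l, Pth G (S.erase x) a b l)
    (ih : ∀ S A B : Finset V, A ⊆ S → B ⊆ S → A.Nonempty →
      (∀ x, ∃ a ∈ A, ∃ b ∈ B, ∃ l, Pth G' (S.erase x) a b l) → mg1a_C G' S A B) :
    mg1a_C G S A B := by
  have hwX : w ∉ X := fun hw => (Finset.mem_erase.1 (hX hw)).1 rfl
  have hXS : ∀ z ∈ X, z ∈ S := fun z hz => Finset.mem_of_mem_erase (hX hz)
  have star : ∀ p q, p ∈ X → q ∉ X → q ∈ S → G.Adj p q → q = w ∨ (p = x ∧ q = y) := by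
    intro p q hp hq hqS hpq
    by_contra hcon
    rw [not_or] at hcon
    refine hq (hcl p hp q (Finset.mem_erase.2 ⟨hcon.1, hqS⟩) ((hGG p q).2 ⟨hpq, ?_⟩))
    rintro (h1 | ⟨h1, -⟩)
    · exact hcon.2 h1
    · exact hy (h1 ▸ hp)
  -- conversion of `G`-paths
  have conv : ∀ {T : Finset V} {a b : V} {l : List V}, Pth G T a b l →
      ((∀ z ∈ l, z ≠ x) ∨ ∀ z ∈ l, z ≠ y) → Pth G' T a b l := by
    intro T a b l hl hz
    refine ⟨hl.head, hl.last, hl.nodup, mg1a_chain l hl.chain fun p hp q hq hpq => ?_, hl.sub⟩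
    rw [hGG]
    refine ⟨hpq, ?_⟩
    rintro (⟨h1, h2⟩ | ⟨h1, h2⟩)
    · rcases hz with hz | hz
      · exact hz p hp h1
      · exact hz q hq h2
    · rcases hz with hz | hz
      · exact hz q hq h2
      · exact hz p hp h1
  have back : ∀ {T : Finset V} {a b : V} {l : List V}, Pth G' T a b l → Pth G T a b l := by
    intro T a b l hl
    exact ⟨hl.head, hl.last, hl.nodup, mg1a_chain l hl.chain fun p _ q _ hpq => ((hGG p q).1 hpq).1,
      hl.sub⟩
  have hwS : w ∈ S := by
    by_contra hwS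
    obtain ⟨a, ha, b, hb, l, hl⟩ := h x
    have haw : a ≠ w := by
      rintro rfl
      exact hwS (hA ha)
    obtain ⟨p, hp, q, hq, hpX, hqX, hpq⟩ := hl.cross X (hAX a ha haw) (hXB b hb)
    have hqS := Finset.mem_of_mem_erase (hl.sub q hq)
    rcases star p q hpX hqX hqS hpq with h1 | ⟨h1, -⟩
    · exact hwS (h1 ▸ hqS)
    · exact (Finset.mem_erase.1 (hl.sub p hp)).1 h1
  have hi : ∀ q, ∃ a ∈ A, ∃ b ∈ ({x, w} : Finset V), ∃ l, Pth G' ((insert w X).erase q) a b l := by
    intro q
    obtain ⟨a, ha, b, hb, l, hl⟩ := h q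
    by_cases haw : a = w
    · refine ⟨a, ha, a, by simp [haw], [a], pth_self ?_⟩
      rw [Finset.mem_erase]
      exact ⟨(Finset.mem_erase.1 hl.left_mem).1, by simp [haw]⟩
    · have haX := hAX a ha haw
      obtain ⟨z, l1, l2, hl12, hz, hl1, hp1, -⟩ := hl.first_hit Xᶜ
        ⟨b, hl.mem_right, by simpa using hXB b hb⟩
      have hzX : z ∉ X := by simpa using hz
      have hl1X : ∀ u ∈ l1, u ∈ X := fun u hu => by simpa using hl1 u hu
      rcases List.eq_nil_or_concat l1 with h0 | ⟨l1', x', h0⟩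
      · exfalso
        rw [h0] at hp1
        have h1 := hp1.head
        simp at h1
        exact hzX (h1 ▸ haX)
      · rw [List.concat_eq_append] at h0
        have hx'X : x' ∈ X := hl1X x' (by rw [h0]; simp)
        have hadj : G.Adj x' z := by
          have h1 := hp1.chain
          rw [List.isChain_append] at h1
          exact h1.2.2 x' (by rw [h0]; simp) z (by simp)
        have hzS : z ∈ S := Finset.mem_of_mem_erase (hp1.sub z (by simp))
        rcases star x' z hx'X hzX hzS hadj with h1 | ⟨h1, h2⟩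
        · refine ⟨a, ha, z, by simp [h1], l1 ++ [z], ?_⟩
          refine (conv hp1 (Or.inr ?_)).mono ?_
          · intro u hu
            rw [List.mem_append, List.mem_singleton] at hu
            rcases hu with hu | hu
            · rintro rfl
              exact hy (hl1X _ hu)
            · rw [hu, h1]
              exact hyw.symm
          · intro u hu
            rw [Finset.mem_erase]
            refine ⟨(Finset.mem_erase.1 (hp1.sub u hu)).1, ?_⟩
            rw [List.mem_append, List.mem_singleton] at hu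
            rw [Finset.mem_insert]
            rcases hu with hu | hu
            · exact Or.inr (hl1X u hu)
            · exact Or.inl (hu.trans h1)
        · have hp3 : Pth G (S.erase q) a x l1 := mg1a_left hp1 (by rw [h0, h1]; simp)
          refine ⟨a, ha, x, by simp, l1, ?_⟩
          refine (conv hp3 (Or.inr ?_)).mono ?_
          · rintro u hu rfl
            exact hy (hl1X _ hu)
          · intro u hu
            rw [Finset.mem_erase]
            exact ⟨(Finset.mem_erase.1 (hp3.sub u hu)).1,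
              Finset.mem_insert_of_mem (hl1X u hu)⟩
  have hii : ∀ q, ∃ a ∈ ({y, w} : Finset V), ∃ b ∈ B, ∃ l, Pth G' ((S \ X).erase q) a b l := by
    intro q
    obtain ⟨a, ha, b, hb, l, hl⟩ := h q
    by_cases hex : ∃ z ∈ l, z ∈ X
    · obtain ⟨z, l1, l2, hl12, hz, hl2, -, hp2⟩ := hl.last_hit X hex
      cases l2 with
      | nil =>
        exfalso
        have h1 := hp2.last
        simp at h1
        exact hXB b hb (h1 ▸ hz)
      | cons z' l3 =>
        obtain ⟨hadj, hnz, hp3⟩ := hp2.tail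
        have hz'X : z' ∉ X := hl2 z' (by simp)
        have hz'S : z' ∈ S := Finset.mem_of_mem_erase (hp3.sub z' (by simp))
        refine ⟨z', ?_, b, hb, z' :: l3, (conv hp3 (Or.inl ?_)).mono ?_⟩
        · rcases star z z' hz hz'X hz'S hadj with h1 | ⟨-, h1⟩
          · simp [h1]
          · simp [h1]
        · rintro u hu rfl
          exact hl2 _ hu hx
        · intro u hu
          rw [Finset.mem_erase, Finset.mem_sdiff]
          exact ⟨(Finset.mem_erase.1 (hp3.sub u hu)).1, (Finset.mem_erase.1 (hp3.sub u hu)).2,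
            hl2 u hu⟩
    · push Not at hex
      have haw : a = w := by
        by_contra h1
        exact hex a hl.mem_left (hAX a ha h1)
      refine ⟨a, by simp [haw], b, hb, l, (conv hl (Or.inl ?_)).mono ?_⟩
      · rintro u hu rfl
        exact hex _ hu hx
      · intro u hu
        rw [Finset.mem_erase, Finset.mem_sdiff]
        exact ⟨(Finset.mem_erase.1 (hl.sub u hu)).1, (Finset.mem_erase.1 (hl.sub u hu)).2,
          hex u hu⟩
  -- the induction hypothesis
  have hα : ∃ a1 ∈ A, ∃ a2 ∈ A, ∃ α1 α2, Pth G' (insert w X) a1 x α1 ∧ Pth G' (insert w X) a2 w α2 ∧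
      ∀ z ∈ α1, z ∉ α2 := by
    obtain ⟨a1, ha1, a2, ha2, c1, hc1, c2, hc2, α1, α2, h1, h2, h3⟩ := ih (insert w X) A {x, w}
      (fun a ha => by
        rw [Finset.mem_insert]
        by_cases haw : a = w
        · exact Or.inl haw
        · exact Or.inr (hAX a ha haw))
      (fun a ha => by
        rw [Finset.mem_insert, Finset.mem_singleton] at ha
        rw [Finset.mem_insert]
        rcases ha with ha | ha
        · exact Or.inr (ha ▸ hx)
        · exact Or.inl ha)
      hne hi
    rw [Finset.mem_insert, Finset.mem_singleton] at hc1 hc2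
    have hne12 : c1 ≠ c2 := fun h4 => h3 c1 h1.mem_right (h4 ▸ h2.mem_right)
    rcases hc1 with hc1 | hc1 <;> rcases hc2 with hc2 | hc2
    · exact absurd (hc1.trans hc2.symm) hne12
    · rw [hc1] at h1
      rw [hc2] at h2
      exact ⟨a1, ha1, a2, ha2, α1, α2, h1, h2, h3⟩
    · rw [hc1] at h1
      rw [hc2] at h2
      exact ⟨a2, ha2, a1, ha1, α2, α1, h2, h1, fun z hz hz' => h3 z hz' hz⟩
    · exact absurd (hc1.trans hc2.symm) hne12
  have hβ : ∃ b1 ∈ B, ∃ b2 ∈ B, ∃ β1 β2, Pth G' (S \ X) y b1 β1 ∧ Pth G' (S \ X) w b2 β2 ∧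
      ∀ z ∈ β1, z ∉ β2 := by
    obtain ⟨c1, hc1, c2, hc2, b1, hb1, b2, hb2, β1, β2, h1, h2, h3⟩ := ih (S \ X) {y, w} B
      (fun a ha => by
        rw [Finset.mem_insert, Finset.mem_singleton] at ha
        rw [Finset.mem_sdiff]
        rcases ha with ha | ha
        · exact ha ▸ ⟨hyS, hy⟩
        · exact ha ▸ ⟨hwS, hwX⟩)
      (fun b hb => Finset.mem_sdiff.2 ⟨hB hb, hXB b hb⟩)
      ⟨y, by simp⟩ hii
    rw [Finset.mem_insert, Finset.mem_singleton] at hc1 hc2
    have hne12 : c1 ≠ c2 := fun h4 => h3 c1 h1.mem_left (h4 ▸ h2.mem_left)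
    rcases hc1 with hc1 | hc1 <;> rcases hc2 with hc2 | hc2
    · exact absurd (hc1.trans hc2.symm) hne12
    · rw [hc1] at h1
      rw [hc2] at h2
      exact ⟨b1, hb1, b2, hb2, β1, β2, h1, h2, h3⟩
    · rw [hc1] at h1
      rw [hc2] at h2
      exact ⟨b2, hb2, b1, hb1, β2, β1, h2, h1, fun z hz hz' => h3 z hz' hz⟩
    · exact absurd (hc1.trans hc2.symm) hne12
  obtain ⟨a1, ha1, a2, ha2, α1, α2, hα1, hα2, hαd⟩ := hα
  obtain ⟨b1, hb1, b2, hb2, β1, β2, hβ1, hβ2, hβd⟩ := hβ
  have hmeet : ∀ z, z ∈ insert w X → z ∈ S \ X → z = w := by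
    intro z hz hz'
    rw [Finset.mem_insert] at hz
    rcases hz with hz | hz
    · exact hz
    · exact absurd hz (Finset.mem_sdiff.1 hz').2
  have hwα : w ∉ α1 := fun hw => hαd w hw hα2.mem_right
  have hwβ : w ∉ β1 := fun hw => hβd w hw hβ2.mem_left
  have hsub1 : ∀ z ∈ (insert w X : Finset V), z ∈ S := by
    intro z hz
    rw [Finset.mem_insert] at hz
    rcases hz with hz | hz
    · exact hz ▸ hwS
    · exact hXS z hz
  have hsub2 : ∀ z ∈ S \ X, z ∈ S := fun z hz => (Finset.mem_sdiff.1 hz).1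
  have p1 : Pth G S a1 b1 (α1 ++ β1) := by
    refine pth_append ((back hα1).mono fun z hz => hsub1 z (hα1.sub z hz))
      ((back hβ1).mono fun z hz => hsub2 z (hβ1.sub z hz)) hxy ?_
    intro z hz hz'
    exact hwα (hmeet z (hα1.sub z hz) (hβ1.sub z hz') ▸ hz)
  obtain ⟨l3, p2, hl3⟩ := ((back hα2).mono fun z hz => hsub1 z (hα2.sub z hz)).trans
    ((back hβ2).mono fun z hz => hsub2 z (hβ2.sub z hz))
  refine ⟨a1, ha1, a2, ha2, b1, hb1, b2, hb2, α1 ++ β1, l3, p1, p2, ?_⟩
  intro z hz hz'
  rw [List.mem_append] at hz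
  rcases hz with hz | hz <;> rcases hl3 z hz' with h4 | h4
  · exact hαd z hz h4
  · exact hwα (hmeet z (hα1.sub z hz) (hβ2.sub z h4) ▸ hz)
  · exact hwβ (hmeet z (hα2.sub z h4) (hβ1.sub z hz) ▸ hz)
  · exact hβd z hz h4

theorem mg1a_main (n : ℕ) : ∀ (G : SimpleGraph V), mg1a_mu G = n → ∀ (S A B : Finset V),
    A ⊆ S → B ⊆ S → A.Nonempty → (∀ x, ∃ a ∈ A, ∃ b ∈ B, ∃ l, Pth G (S.erase x) a b l) →
    mg1a_C G S A B := by
  induction n using Nat.strong_induction_on with
  | _ n IH =>
    intro G hn S A B hA hB hne h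
    by_cases hE : ∃ x ∈ S, ∃ y ∈ S, G.Adj x y
    · obtain ⟨x, hxS, y, hyS, hxy⟩ := hE
      have hGG := mg1a_del (G := G) (x := x) (y := y)
      have ih := IH _ (hn ▸ mg1a_mu_lt hxy) (G.deleteEdges {s(x, y)}) rfl
      generalize G.deleteEdges {s(x, y)} = G' at hGG ih
      by_cases hall : ∀ w, ∃ a ∈ A, ∃ b ∈ B, ∃ l, Pth G' (S.erase w) a b l
      · obtain ⟨a1, ha1, a2, ha2, b1, hb1, b2, hb2, l1, l2, h1, h2, h3⟩ := ih S A B hA hB hne hall
        refine ⟨a1, ha1, a2, ha2, b1, hb1, b2, hb2, l1, l2, ?_, ?_, h3⟩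
        · exact ⟨h1.head, h1.last, h1.nodup, mg1a_chain _ h1.chain fun p _ q _ hpq =>
            ((hGG p q).1 hpq).1, h1.sub⟩
        · exact ⟨h2.head, h2.last, h2.nodup, mg1a_chain _ h2.chain fun p _ q _ hpq =>
            ((hGG p q).1 hpq).1, h2.sub⟩
      · push Not at hall
        obtain ⟨w, hw⟩ := hall
        obtain ⟨X, hXdef⟩ : ∃ X : Finset V, ∀ z, z ∈ X ↔ ∃ a ∈ A, ∃ l, Pth G' (S.erase w) a z l :=
          ⟨Finset.univ.filter (fun z => ∃ a ∈ A, ∃ l, Pth G' (S.erase w) a z l), by simp⟩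
        have hX : X ⊆ S.erase w := by
          intro z hz
          obtain ⟨a, -, l, hl⟩ := (hXdef z).1 hz
          exact hl.right_mem
        have hAX : ∀ a ∈ A, a ≠ w → a ∈ X := fun a ha haw =>
          (hXdef a).2 ⟨a, ha, [a], pth_self (Finset.mem_erase.2 ⟨haw, hA ha⟩)⟩
        have hXB : ∀ b ∈ B, b ∉ X := by
          intro b hb hbX
          obtain ⟨a, ha, l, hl⟩ := (hXdef b).1 hbX
          exact hw a ha b hb l hl
        have hcl : ∀ p ∈ X, ∀ q ∈ S.erase w, G'.Adj p q → q ∈ X := by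
          intro p hp q hq hpq
          obtain ⟨a, ha, l, hl⟩ := (hXdef p).1 hp
          have hpne : p ≠ q := G'.ne_of_adj hpq
          have h2 : Pth G' (S.erase w) p q [p, q] :=
            pth_cons (hX hp) (by simpa using hpne) hpq (pth_self hq)
          obtain ⟨l3, hl3, -⟩ := hl.trans h2
          exact (hXdef q).2 ⟨a, ha, l3, hl3⟩
        obtain ⟨a, ha, b, hb, l, hl⟩ := h w
        have haX : a ∈ X := hAX a ha (Finset.mem_erase.1 hl.left_mem).1
        obtain ⟨p, hp, q, hq, hpX, hqX, hpq⟩ := hl.cross X haX (hXB b hb)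
        have hqS := hl.sub q hq
        have hcase : (p = x ∧ q = y) ∨ (p = y ∧ q = x) := by
          by_contra hcon
          exact hqX (hcl p hpX q hqS ((hGG p q).2 ⟨hpq, hcon⟩))
        rcases hcase with ⟨h1, h2⟩ | ⟨h1, h2⟩
        · rw [← h1, ← h2] at hGG
          exact mg1a_core hGG hA hB hne hX hAX hXB hcl hpX hqX (Finset.mem_of_mem_erase hqS)
            (Finset.mem_erase.1 hqS).1 hpq h ih
        · rw [← h1, ← h2] at hGG
          exact mg1a_core (fun a b => (hGG a b).trans (by tauto)) hA hB hne hX hAX hXB hcl hpX hqX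
            (Finset.mem_of_mem_erase hqS) (Finset.mem_erase.1 hqS).1 hpq h ih
    · push Not at hE
      have key : ∀ q, ∃ c ∈ A, c ∈ B ∧ c ∈ S ∧ c ≠ q := by
        intro q
        obtain ⟨a, ha, b, hb, l, hl⟩ := h q
        have hab : a = b := by
          rcases l with _ | ⟨u, _ | ⟨u', t⟩⟩
          · exact absurd rfl hl.ne_nil
          · have h1 := hl.head
            have h2 := hl.last
            simp at h1 h2
            exact h1.symm.trans h2
          · exfalso
            have h1 := hl.chain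
            rw [List.isChain_cons_cons] at h1
            exact hE u (Finset.mem_of_mem_erase (hl.sub u (by simp))) u'
              (Finset.mem_of_mem_erase (hl.sub u' (by simp))) h1.1
        exact ⟨a, ha, hab ▸ hb, hA ha, (Finset.mem_erase.1 hl.left_mem).1⟩
      obtain ⟨a0, -⟩ := hne
      obtain ⟨c1, h1, h2, h3, -⟩ := key a0
      obtain ⟨c2, h4, h5, h6, h7⟩ := key c1
      refine ⟨c1, h1, c2, h4, c1, h2, c2, h5, [c1], [c2], pth_self h3, pth_self h6, ?_⟩
      intro z hz hz'
      rw [List.mem_singleton] at hz hz'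
      exact h7 (hz'.symm.trans hz)

theorem menger2_weak (S A B : Finset V) (hA : A ⊆ S) (hB : B ⊆ S) (hne : A.Nonempty)
    (h : ∀ x, ∃ a ∈ A, ∃ b ∈ B, ∃ l, Pth G (S.erase x) a b l) :
    ∃ a₁ ∈ A, ∃ a₂ ∈ A, ∃ b₁ ∈ B, ∃ b₂ ∈ B, ∃ l₁ l₂, Pth G S a₁ b₁ l₁ ∧ Pth G S a₂ b₂ l₂ ∧
      (∀ z ∈ l₁, z ∉ l₂) :=
  mg1a_main _ G rfl S A B hA hB hne h

end Pool.Agent.BND
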