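import Pool.Agent.BND.MG1a

/-!
# BND-MG : Menger's theorem for two disjoint paths

`menger2_weak`.  Let `A, B ⊆ S` and suppose that for every vertex `x` there is a path in `S - x` from
`A` to `B`.  Then there are two disjoint paths in `S` from `A` to `B`.

Proof (Göring), by induction on the number of edges of `G` (for all `S, A, B`).

*No edge of `G` inside `S`.*  Then all paths in `S` are trivial, so for every `x` there is an element
of `A ∩ B` different from `x`; so `A ∩ B` has two distinct elements; take the two trivial paths.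

*Otherwise* let `e = xy` be an edge inside `S` and `G' = G - e`.  If for every `w` there is a
`G'`-path in `S - w` from `A` to `B`, use the induction hypothesis for `G'`.  Otherwise fix `w` such
that there is none.  Let `X` be the set of vertices of `S - w` that can be reached from `A - w` by
`G'`-paths in `S - w`.  Then `A - w ⊆ X`, `X ∩ B = ∅`, `w ∉ X`, and `X` is closed under
`G'`-neighbours in `S - w`.  The `G`-path in `S - w` from `A` to `B` starts in `X` and ends outside
`X`, so it uses an edge leaving `X`, which must be `e`; name its ends such that `x ∈ X`, `y ∉ X`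
(`y ≠ w`).
We have `w ∈ S`: otherwise there is no `G'`-path from `A` to `B` in `S` at all, but the `G`-path
in `S - x` given by the hypothesis (`x` an end of `e`) does not use `e`, so it is a `G'`-path.
(The same remark shows that `w` is not an end of `e`.)
Let `S₁ = X ∪ {w}`. Let `S₂ = S \ X`.

(i) For every `q` there is a `G'`-path in `S₁ - q` from `A` to `{x, w}`: take the `G`-path `P` in
`S - q` from `a ∈ A` to `b ∈ B`.  If `a = w` the trivial path does it.  Otherwise `a ∈ X`, and `P`
leaves `X` at some point (`b ∉ X`): let `P'` be the part of `P` up to the last vertex before it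
leaves `X` for the first time, `P'` ends at `x'`, next vertex `y' ∉ X`.  `P'` is a path in `X`,
it is a `G'`-path since `e` has an end outside `X`.  Either `y' = w` and `P'` followed by `w` is the
desired path, or `y' ≠ w` and then `x'y' = e`, so `x' = x`, and `P'` is the desired path.
(ii) For every `q` there is a `G'`-path in `S₂ - q` from `{y, w}` to `B`: take `P` as before, and the
part of `P` after its last vertex in `X` (the whole of `P` if it has no vertex in `X`, then
it starts at `w`).  It starts at `y` or at `w` and lies in `S₂`, it does not use `e`.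

By the induction hypothesis for `G'` there are disjoint `G'`-paths `α₁, α₂` in `S₁` from `A` to
`{x, w}` and `β₁, β₂` in `S₂` from `{y, w}` to `B`; we may assume that `α₁` ends at `x`, `α₂` at `w`
(`x ≠ w`, and the two paths are disjoint so they end at different vertices),
`β₁` starts at `y`, `β₂` at `w`.  Since `S₁ ∩ S₂ = {w}` and `w ∉ α₁, β₁`, the paths `α₁ e β₁` and
`α₂ β₂` (glued at `w`) are disjoint paths from `A` to `B`.

`menger2` : trimming.  Given the two disjoint paths, cut each at its last vertex in `A`, and then the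
rest at its first vertex in `B`.
-/

set_option autoImplicit false
set_option linter.unusedSectionVars false

namespace Pool.Agent.BND

open Classical

variable {V : Type} [Fintype V] {G : SimpleGraph V}

theorem mg1b_trim {S A B : Finset V} {a b : V} {l : List V} (h : Pth G S a b l) (ha : a ∈ A)
    (hb : b ∈ B) :
    ∃ a' ∈ A, ∃ b' ∈ B, ∃ l', Pth G S a' b' l' ∧ (∀ z ∈ l', z ∈ l) ∧
      (∀ z ∈ l', z ∈ A → z = a') ∧ (∀ z ∈ l', z ∈ B → z = b') := by
  obtain ⟨z, p, q, hl, hzA, hqA, -, h2⟩ := h.last_hit A ⟨a, h.mem_left, ha⟩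
  obtain ⟨w, p', q', hl', hwB, hpB, h3, -⟩ := h2.first_hit B ⟨b, h2.mem_right, hb⟩
  have hsub : ∀ t ∈ p' ++ [w], t ∈ z :: q := by
    intro t ht
    rw [hl']
    simp only [List.mem_append, List.mem_cons, List.not_mem_nil, or_false] at ht ⊢
    tauto
  refine ⟨z, hzA, w, hwB, p' ++ [w], h3, ?_, ?_, ?_⟩
  · intro t ht
    rw [hl]
    exact List.mem_append_right _ (hsub t ht)
  · intro t ht htA
    rcases List.mem_cons.1 (hsub t ht) with h | h
    · exact h
    · exact absurd htA (hqA t h)
  · intro t ht htB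
    rcases List.mem_append.1 ht with h | h
    · exact absurd htB (hpB t h)
    · simpa using h

theorem menger2 (S A B : Finset V) (hA : A ⊆ S) (hB : B ⊆ S) (hne : A.Nonempty)
    (h : ∀ x, ∃ a ∈ A, ∃ b ∈ B, ∃ l, Pth G (S.erase x) a b l) :
    ∃ a₁ ∈ A, ∃ a₂ ∈ A, ∃ b₁ ∈ B, ∃ b₂ ∈ B, ∃ l₁ l₂, Pth G S a₁ b₁ l₁ ∧ Pth G S a₂ b₂ l₂ ∧
      (∀ z ∈ l₁, z ∉ l₂) ∧ (∀ z ∈ l₁, z ∈ A → z = a₁) ∧ (∀ z ∈ l₁, z ∈ B → z = b₁) ∧
      (∀ z ∈ l₂, z ∈ A → z = a₂) ∧ (∀ z ∈ l₂, z ∈ B → z = b₂) := by
  obtain ⟨a₁, ha₁, a₂, ha₂, b₁, hb₁, b₂, hb₂, l₁, l₂, h1, h2, hd⟩ :=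
    menger2_weak S A B hA hB hne h
  obtain ⟨a₁', ha₁', b₁', hb₁', l₁', h1', hs1, hA1, hB1⟩ := mg1b_trim h1 ha₁ hb₁
  obtain ⟨a₂', ha₂', b₂', hb₂', l₂', h2', hs2, hA2, hB2⟩ := mg1b_trim h2 ha₂ hb₂
  exact ⟨a₁', ha₁', a₂', ha₂', b₁', hb₁', b₂', hb₂', l₁', l₂', h1', h2',
    fun z hz hz2 => hd z (hs1 z hz) (hs2 z hz2), hA1, hB1, hA2, hB2⟩

end Pool.Agent.BND
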