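import Pool.Agent.BND.BC1

/-!
# BND-N3 : `Bic` outside, exactly three groups

Notation: `B = Bs v c`, `K = Cs v c`, `NN G K B = 3`, so `4 ≤ d` (`NN_lt`), `B ⊄ ctrs`.
So independent `u, w` are joined by an ear with `d ≤ |I| + 2` (`ear_gen`), pairwise independent
`u, z, w` by a `Via` path through `z` with `d ≤ |J| + 1` (`via_gen`), and `tri_arc` gives `d ≤ j - i`
for pairwise independent `v i, v k, v j`, `i < k < j < i + c`.

Write `Tri p q r` for: `p < q < r < p + c` and `v p, v q, v r` pairwise `Ind` (elements of `K`).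
`Tri p q r` implies `Tri q r (p + c)`.

`tri_signs`: `Tri p q r` implies: `s q = s p + 1`, `s r = s q + 1`, `s (p + c) = s r + 1` (so
`τ = 1`), `q - p ≤ c - d`, `r - q ≤ c - d`, `p + c - r ≤ c - d`, and `2 ≤` each of the three gaps.
Proof.  If `s p = s q` then `q - p ≥ d - 1` (`arc_ear`).  If two of the three arcs are positive,
`c ≥ 2 (d - 1) + 1`.  If exactly one is positive, say `(p, q)`: `q - p ≥ d - 1` and
`p + c - q ≥ d` (`tri_arc`), so `c ≥ 2 d - 1`.  Contradiction to `c ≤ 2 d - 2`.  (Use the cyclic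
symmetry `Tri q r (p + c)`.)  So all are negative.  `p + c - q ≥ d` gives `q - p ≤ c - d ≤ d - 2`.
`(q - p) + (r - q) ≥ d` gives `q - p ≥ 2`.

`no_adj`: not both `Tp i` and `Tp (i+1)`.  If `Ind (v i) (v (i+1))`, extend to representatives
(`exists_reps2`); the third one `z`, at a position `r`, `i + 1 < r < i + c`: `Tri i (i+1) r`,
contradiction to the gap `≥ 2`.  If not independent: `att (v i) = att (v (i+1)) = {x}`; take
representatives `R ∋ v i` (`exists_reps1`), `R = {v i, z, z'}`, the positions of `z, z'`: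
`i < q < r < i + c`, and in fact `i + 1 < q` (`v (i+1)` is not independent of `v i`).  Then
`Tri i q r` and `Tri (i+1) q r` (independence only depends on `att` and distinctness), so
`s q = s i + 1` and `s q = s (i + 1) + 1`, but `s (i+1) = s i + 1` (`tp_succ`).  Contradiction.

`chord`: `Tri p q r`, `p < z < q < z' < r`, `v z ~ v z'`.  Then
`ε (v z) (v z') + (s z - s p) + (s z' - s q) = 1`, `(z - p) + (z' - q) + 1 + d ≤ c` and
`(q - z) + (r - z') + 1 + d ≤ c`.
Proof.  Let `E` be the left hand side of the first claim.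
 * (δ) `su3e` with blocks `v (r - c), …, v z` forward, `v z', …, v q` backward and an ear from `v q`
   to `v (r - c) = v r`, `|I| ≥ d - 2`: if `(z - (r - c) + 1) + (z' - q + 1) + (d - 2) > c` then
   `(s z - s (r - c)) + ε + (s z' - s q) = τ + 1 = 0`.  As `s (r - c) = s p + 1` (`s r = s p + 2`,
   `s (r - c) = s r - τ`), this says `E = 1`.
 * (γ') `su4e` with blocks `v q, …, v z` backward, `v z', …, v (p + c)` forward and an ear from
   `v (p + c)` to `v q`: if `(q - z + 1) + (p + c - z' + 1) + (d - 2) > c` then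
   `(s q - s z) + ε + (s (p + c) - s z') = 0`, with `s (p + c) = s p + 1`, `s q = s p + 1`:
   `s (p+c) = s q`… so `E = (ε + s z + s z') + s p + s q = (s q + s (p+c)) + s p + s q = s (p+c) + s p
   = 1`: again `E = 1`.
 If both fail, `z - r + z' - q + d ≤ 0` and `q - z + p - z' + d ≤ 0`, sum `p - r + 2 d ≤ 0`, but
 `r - p < c ≤ 2 d - 2`.  So `E = 1`.
 * (β) `su3` with blocks `v p, …, v z` forward, `v z', …, v q` backward, `Via` path through `v r` from
   `v q` to `v p`, `|J| ≥ d - 1`: if `(z - p + 1) + (z' - q + 1) + (d - 1) > c` then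
   `(s z - s p) + ε + (s z' - s q) = 0`, i.e. `E = 0`, contradiction.  So
   `(z - p) + (z' - q) + 1 + d ≤ c`.
 * (γ) `su4` with blocks `v q, …, v z` backward, `v z', …, v r` forward, `Via` path through `v p` from
   `v r` to `v q`: if `(q - z + 1) + (r - z' + 1) + (d - 1) > c` then
   `(s q - s z) + ε + (s r - s z') = 0`, with `s r = s q + 1`, `s q = s p + 1` this says `E = 0`,
   contradiction.  So `(q - z) + (r - z') + 1 + d ≤ c`.

`nbr_left`: `Tri p q r`: the vertex `v (q - 1)` has a neighbour `v y` with `r < y < p + c`.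
Proof.  `v (q - 1)` has no neighbour outside (`no_adj`, as `Tp q`), so at least `d` neighbours on the
cycle.  Those with positions in `[p, q]`: at most `q - p` (all but itself); in `(q, r)`: by `chord`
with `z = q - 1`, `(q - 1 - p) + (z' - q) + 1 + d ≤ c`, so at most `c - d - (q - p)`; position `r`: 1.
Total `≤ c - d + 1 ≤ d - 1`.  So there is one in `(r, p + c)`.
(`z = q - 1 > p` since `q - p ≥ 2`.)

`nbr_right`: the vertex `v (q + 1)` has a neighbour `v y'` with `r < y' < p + c`.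
Similarly: in `[q, r]`: at most `r - q`; in `(p, q)`: by `chord` with `z' = q + 1`:
`(q - z) + (r - q - 1) + 1 + d ≤ c`, so `q - z ≤ c - d - (r - q)`: at most `c - d - (r - q)`;
position `p`: 1.  (It can also be obtained from `nbr_left` by reversing the orientation.)

`case_N3`: take `Tri p q r` (from representatives), and `y`, `y'` from the last two lemmas.
`chord` for `Tri r (p+c) (q+c)` and the chord from `v y` (`r < y < p + c`) to `v (q - 1 + c)`:
`E₁ := ε (v y) (v (q-1)) + (s y - s r) + (s (q - 1 + c) - s (p + c)) = 1`.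
`chord` for `Tri q r (p + c)` and the chord from `v (q+1)` to `v y'`:
`E₂ := ε (v (q+1)) (v y') + (s (q+1) - s q) + (s y' - s r) = 1`.
`su6` with `i1 = p`, `p := q - 1`, `q := q + 1`, `i3 = r`, `Via` path through `v q` from `v r` to `v p`
(`|J| ≥ d - 1`): the number of vertices is
`(q - 1 - p + 1) + (|y' - y| + 1) + (r - q - 1 + 1) + |J| ≥ (r - p) + 1 + d - 1 ≥ 2 d > c`.
So `(s (q-1) - s p) + ε (v (q-1)) (v y) + (s y' - s y) + ε (v y') (v (q+1)) + (s r - s (q+1)) = τ + 1 = 0`.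
But this sum is `E₁ + E₂ + (s r - s q) = 1 + 1 + 1 = 1` in `ZMod 2`.  Contradiction.
-/

set_option autoImplicit false
set_option linter.unusedSectionVars false

namespace Pool.Agent.BND

open Classical

variable {V : Type} [Fintype V]
variable {G : SimpleGraph V} {ε : V → V → ZMod 2} {τ : ZMod 2} {d c : ℕ} {v : ℤ → V}
  {s : ℤ → ZMod 2}

theorem Tri.rot (h : NCtx G ε τ d c v s) {p q r : ℤ} (ht : Tri G v c p q r) :
    Tri G v c q r (p + c) := by
  obtain ⟨h1, h2, h3, h4, h5, h6⟩ := ht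
  refine ⟨h2, h3, by omega, h5, ?_, ?_⟩
  · rw [h.toCtx.vper1]; exact h6.symm
  · rw [h.toCtx.vper1]; exact h4.symm

theorem n3a_cl {x y : V} (_hx : x ∈ Bs v c) (_h : G.Adj x y) : y ∈ Bs v c ∨ y ∈ Cs v c := by
  unfold Bs
  by_cases hy : y ∈ Cs v c
  · exact Or.inr hy
  · exact Or.inl (Finset.mem_compl.2 hy)

theorem n3a_disj : Disjoint (Bs v c) (Cs v c) := by
  unfold Bs
  exact disjoint_compl_left

theorem n3a_sgn (h : N3H G ε τ d c v s) {p q r : ℤ} (ht : Tri G v c p q r) :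
    s q = s p + 1 := by
  have hN := NN_lt h.ctx h.bic h.b3
  rw [h.N3] at hN
  have hc := h.ctx.hc
  have hcc : c + 2 ≤ 2 * d := hc
  -- `d ≤ p + c - q`
  have hrot := Tri.rot h.ctx (Tri.rot h.ctx ht)
  obtain ⟨h1, h2, h3, h4, h5, h6⟩ := ht
  have hb : (d : ℤ) ≤ p + c - q := by
    have hr := Tri.rot h.ctx ⟨h1, h2, h3, h4, h5, h6⟩
    obtain ⟨k1, k2, k3, k4, k5, k6⟩ := hr
    have := (tri_arc h.ctx h.bic h.b3 h.nc k1 k2 k3 k4 k5 k6).1
    rw [h.N3] at this
    push_cast at this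
    linarith
  by_contra hne
  have hs : s p = s q := by
    rcases zmod2_cases (s p) with hp | hp <;> rcases zmod2_cases (s q) with hq | hq
    · rw [hp, hq]
    · exact absurd (by rw [hp, hq]; rfl) hne
    · exact absurd (by rw [hp, hq]; rfl) hne
    · rw [hp, hq]
  obtain ⟨I, hI, -, hI2, -, -⟩ := ear_gen (G := G) (K := Cs v c) (L := Bs v c) (D := Bs v c) (d := d)
    n3a_disj (Finset.Subset.refl _) (by simp) (fun x hx y hxy => n3a_cl hx hxy)
    (fun x _ => h.ctx.deg x) h.bic h.b3 h.nc (v_mem_Cs h.ctx.toCtx p) (v_mem_Cs h.ctx.toCtx q) h4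
  rw [h.N3] at hI2
  have hI3 := h.ctx.arc_ear h1 (by omega) hs hI
  omega

theorem n3a_pos (h : Ctx G ε τ d c v s) {u : V} (hu : u ∈ Cs v c) (i : ℤ) (hne : v i ≠ u) :
    ∃ t : ℤ, i < t ∧ t < i + c ∧ v t = u := by
  obtain ⟨j, h1, h2, h3⟩ := exists_pos h hu i
  refine ⟨j, lt_of_le_of_ne h1 ?_, h2, h3⟩
  rintro rfl
  exact hne h3

/-- `x` is at position `p`; `x, y, z` distinct and pairwise independent -/
theorem n3a_three (h : Ctx G ε τ d c v s) {x y z : V} {p : ℤ} (hx : v p = x) (hy : y ∈ Cs v c)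
    (hz : z ∈ Cs v c) (hyz' : y ≠ z) (hxy : Ind G (Bs v c) x y) (hxz : Ind G (Bs v c) x z)
    (hyz : Ind G (Bs v c) y z) : ∃ q r, Tri G v c p q r ∧
      ((v q = y ∧ v r = z) ∨ (v q = z ∧ v r = y)) := by
  subst hx
  obtain ⟨q, q1, q2, q3⟩ := n3a_pos h hy p hxy.1
  obtain ⟨r, r1, r2, r3⟩ := n3a_pos h hz p hxz.1
  rcases lt_trichotomy q r with hqr | hqr | hqr
  · refine ⟨q, r, ⟨q1, hqr, r2, ?_, ?_, ?_⟩, Or.inl ⟨q3, r3⟩⟩
    · rw [q3]; exact hxy
    · rw [q3, r3]; exact hyz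
    · rw [r3]; exact hxz
  · exfalso
    subst hqr
    exact hyz' (q3.symm.trans r3)
  · refine ⟨r, q, ⟨r1, hqr, q2, ?_, ?_, ?_⟩, Or.inr ⟨r3, q3⟩⟩
    · rw [r3]; exact hxz
    · rw [q3, r3]; exact hyz.symm
    · rw [q3]; exact hxy

theorem tri_signs (h : N3H G ε τ d c v s) {p q r : ℤ} (ht : Tri G v c p q r) :
    4 ≤ d ∧ τ = 1 ∧ s q = s p + 1 ∧ s r = s q + 1 ∧ s (p + c) = s r + 1 ∧
      q - p + d ≤ c ∧ r - q + d ≤ c ∧ p + c - r + d ≤ c ∧ 2 ≤ q - p ∧ 2 ≤ r - q ∧
      2 ≤ p + c - r ∧ (d : ℤ) ≤ r - p := by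
  have hN := NN_lt h.ctx h.bic h.b3
  rw [h.N3] at hN
  have hc : c + 2 ≤ 2 * d := h.ctx.hc
  have hrot1 := Tri.rot h.ctx ht
  have hrot2 := Tri.rot h.ctx hrot1
  have arc : ∀ {p q r : ℤ}, Tri G v c p q r → (d : ℤ) ≤ r - p := by
    intro p q r ht
    obtain ⟨k1, k2, k3, k4, k5, k6⟩ := ht
    have := (tri_arc h.ctx h.bic h.b3 h.nc k1 k2 k3 k4 k5 k6).1
    rw [h.N3] at this
    push_cast at this
    linarith
  have a1 := arc ht
  have a2 := arc hrot1
  have a3 := arc hrot2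
  have s1 := n3a_sgn h ht
  have s2 := n3a_sgn h hrot1
  have s3 := n3a_sgn h hrot2
  obtain ⟨h1, h2, h3, -, -, -⟩ := ht
  refine ⟨hN, ?_, s1, s2, s3, by omega, by omega, by omega, by omega, by omega, by omega, a1⟩
  have hp := h.ctx.per p
  rw [s3, s2, s1] at hp
  have e : (1 : ZMod 2) + 1 = 0 := rfl
  have e2 : s p + 1 + 1 + 1 = s p + 1 := by
    rw [add_assoc (s p) 1 1, e, add_zero]
  rw [e2] at hp
  exact (add_left_cancel hp).symm

theorem no_adj (h : N3H G ε τ d c v s) (i : ℤ) : ¬ (Tp G v c i ∧ Tp G v c (i + 1)) := by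
  rintro ⟨ht1, ht2⟩
  have hu := (h.ctx.tp_iff i).1 ht1
  have hw := (h.ctx.tp_iff (i + 1)).1 ht2
  have hne : v i ≠ v (i + 1) := (h.ctx.adj i).ne
  by_cases hI : Ind G (Bs v c) (v i) (v (i + 1))
  · obtain ⟨R, hR, hRc, hRI, huR, hwR⟩ := exists_reps2 hu hw hI
    rw [h.N3] at hRc
    obtain ⟨z, hzR, hz⟩ : ∃ z ∈ R, z ∉ ({v i, v (i + 1)} : Finset V) := by
      by_contra hcon
      push Not at hcon
      have h1 : R ⊆ {v i, v (i + 1)} := hcon
      have h2 := Finset.card_le_card h1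
      have h3 : ({v i, v (i + 1)} : Finset V).card ≤ 2 := Finset.card_le_two
      omega
    rw [Finset.mem_insert, Finset.mem_singleton, not_or] at hz
    have hzC : z ∈ Cs v c := (mem_TT.1 (hR hzR)).1
    have hIz := hRI _ huR _ hzR (fun e => hz.1 e.symm)
    have hIz' := hRI _ hwR _ hzR (fun e => hz.2 e.symm)
    obtain ⟨r, r1, r2, r3⟩ := n3a_pos h.ctx.toCtx hzC i hIz.1
    have hr1 : i + 1 < r := by
      refine lt_of_le_of_ne (by omega) ?_
      rintro rfl
      exact hz.2 r3.symm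
    have ht : Tri G v c i (i + 1) r := by
      refine ⟨by omega, hr1, r2, hI, ?_, ?_⟩
      · rw [r3]; exact hIz'
      · rw [r3]; exact hIz
    have := (tri_signs h ht).2.2.2.2.2.2.2.2.1
    omega
  · obtain ⟨x, hx, a1, a2⟩ := not_ind hu hw hne hI
    obtain ⟨R, hR, hRc, hRI, huR⟩ := exists_reps1 hu
    rw [h.N3] at hRc
    have hRe : (R.erase (v i)).card = 2 := by
      rw [Finset.card_erase_of_mem huR, hRc]
    obtain ⟨y, z, hyz, hRyz⟩ := Finset.card_eq_two.1 hRe
    have hy : y ∈ R.erase (v i) := by rw [hRyz]; simp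
    have hz : z ∈ R.erase (v i) := by rw [hRyz]; simp
    rw [Finset.mem_erase] at hy hz
    obtain ⟨q, r, ht, hqr⟩ := n3a_three h.ctx.toCtx (p := i) rfl (mem_TT.1 (hR hy.2)).1
      (mem_TT.1 (hR hz.2)).1 hyz (hRI _ huR _ hy.2 (fun e => hy.1 e.symm))
      (hRI _ huR _ hz.2 (fun e => hz.1 e.symm)) (hRI _ hy.2 _ hz.2 hyz)
    -- independence from `v i` passes to `v (i+1)`
    have pass : ∀ u, Ind G (Bs v c) (v i) u → v (i + 1) ≠ u → Ind G (Bs v c) (v (i + 1)) u := by
      rintro u ⟨-, x1, hx1, y1, hy1, hxy⟩ hne'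
      refine ⟨hne', x1, ?_, y1, hy1, hxy⟩
      rw [a2, ← a1]; exact hx1
    have hs1 := n3a_sgn h ht
    obtain ⟨t1, t2, t3, t4, t5, t6⟩ := ht
    have hq1 : i + 1 < q := by
      refine lt_of_le_of_ne (by omega) ?_
      intro e
      apply hI
      rw [e]; exact t4
    have hvq : v (i + 1) ≠ v q := h.ctx.toCtx.vne hq1 (by omega)
    have hvr : v (i + 1) ≠ v r := h.ctx.toCtx.vne (by omega) (by omega)
    have ht' : Tri G v c (i + 1) q r := ⟨hq1, t2, by omega, pass _ t4 hvq, t5, pass _ t6 hvr⟩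
    have hs2 := n3a_sgn h ht'
    have hs3 := h.ctx.tp_succ ht1 ht2
    rw [hs2] at hs1
    have hs4 : s (i + 1) = s i := add_right_cancel hs1
    rw [hs3] at hs4
    have h5 := congrArg (fun t => t - s i) hs4
    simp at h5

theorem exists_tri (h : N3H G ε τ d c v s) : ∃ p q r : ℤ, Tri G v c p q r := by
  obtain ⟨R, hR, hRc, hRI, -, -⟩ := exists_reps G (Cs v c) (Bs v c)
  rw [h.N3] at hRc
  obtain ⟨x, y, z, hxy, hxz, hyz, rfl⟩ := Finset.card_eq_three.1 hRc
  have hx : x ∈ ({x, y, z} : Finset V) := by simp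
  have hy : y ∈ ({x, y, z} : Finset V) := by simp
  have hz : z ∈ ({x, y, z} : Finset V) := by simp
  obtain ⟨p, hp⟩ := (mem_Cs h.ctx.toCtx).1 (mem_TT.1 (hR hx)).1
  obtain ⟨q, r, ht, -⟩ := n3a_three h.ctx.toCtx hp (mem_TT.1 (hR hy)).1
      (mem_TT.1 (hR hz)).1 hyz (hRI _ hx _ hy hxy) (hRI _ hx _ hz hxz) (hRI _ hy _ hz hyz)
  exact ⟨p, q, r, ht⟩

end Pool.Agent.BND
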