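import Pool.Agent.BND.SUn

/-!
# BND-SU : surgeries on the longest cycle

In all statements the conclusion is obtained by writing down a cycle (as a concatenation of blocks
`fw`/`bw` of the cycle and of ears), checking that it is a cycle (`CycL`) with more than `c`
vertices, computing its sign with `Ctx.fw_sg`, `Ctx.bw_sg`, and using `h.max`: a cycle with more than
`c` vertices does not have sign `τ`, hence has sign `τ + 1` (in `ZMod 2`).
Membership in blocks is read on positions (`mem_fw`, `mem_bw`, `Ctx.veq`), and the ears live in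
`Bs v c`, which is disjoint from the cycle.
-/

set_option autoImplicit false
set_option linter.unusedSectionVars false

namespace Pool.Agent.BND

open Classical

variable {V : Type} [Fintype V]
variable {G : SimpleGraph V} {ε : V → V → ZMod 2} {τ : ZMod 2} {d c : ℕ} {v : ℤ → V}
  {s : ℤ → ZMod 2}

theorem su6_append (ε : V → V → ZMod 2) {l l' : List V} {y z : V} (hl : l.getLast? = some y)
    (hl' : l'.head? = some z) : sg ε (l ++ l') = sg ε l + ε y z + sg ε l' := by
  obtain ⟨l1, rfl⟩ := List.getLast?_eq_some_iff.1 hl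
  obtain ⟨l2, rfl⟩ := List.head?_eq_some_iff.1 hl'
  exact sg_split_edge l1 y z l2

theorem su6_via {D : Finset V} {w x y : V} {J : List V} (hJ : Via G D w x y J) :
    ∃ a b, Pth G (insert w D) a b J ∧ G.Adj x a ∧ G.Adj b y ∧
      sg ε (x :: (J ++ [y])) = ε x a + sg ε J + ε b y := by
  obtain ⟨a, ha⟩ : ∃ a, J.head? = some a := by
    cases J with
    | nil => exact absurd rfl hJ.ne
    | cons a t => exact ⟨a, rfl⟩
  obtain ⟨b, hb⟩ : ∃ b, J.getLast? = some b :=
    ⟨J.getLast hJ.ne, List.getLast?_eq_getLast_of_ne_nil hJ.ne⟩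
  have hch := hJ.chain
  rw [List.isChain_cons] at hch
  obtain ⟨h1, h2⟩ := hch
  rw [List.isChain_append] at h2
  obtain ⟨h3, -, h4⟩ := h2
  refine ⟨a, b, ⟨ha, hb, hJ.nodup, h3, ?_⟩, ?_, ?_, ?_⟩
  · intro z hz
    rw [Finset.mem_insert]
    exact (hJ.sub z hz).symm
  · apply h1
    rw [List.head?_append, ha]
    rfl
  · exact h4 b (by rw [hb]; rfl) y rfl
  · have e1 : x :: (J ++ [y]) = [x] ++ (J ++ [y]) := rfl
    have e2 : (J ++ [y]).head? = some a := by
      rw [List.head?_append, ha]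
      rfl
    rw [e1, su6_append ε (y := x) rfl e2, su6_append ε hb (z := y) rfl]
    simp only [sg_single]
    ring

theorem su6_gen (h : NCtx G ε τ d c v s) {w : V} {P J : List V} {i j : ℤ}
    (hP : Pth G (Cs v c) (v i) (v j) P) (hJ : Via G (Bs v c) w (v j) (v i) J)
    (hz : sg ε (v j :: (J ++ [v i])) = 0) (hw : w ∉ P) (hlen : c < P.length + J.length) :
    sg ε P = τ + 1 := by
  obtain ⟨a, b, hQ, hja, hbi, hsg⟩ := su6_via (ε := ε) hJ
  have hd : ∀ q ∈ P, q ∉ J := by
    intro q hq hqJ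
    rcases hJ.sub q hqJ with h1 | h1
    · have h2 : q ∈ Cs v c := hP.sub q hq
      exact (Finset.mem_compl.1 h1) h2
    · rw [h1] at hq
      exact hw hq
  obtain ⟨h1, h2⟩ := cyc_of_two (ε := ε) hP hQ hja hbi hd (by have := h.three; omega)
  have h3 : csg ε (P ++ J) = sg ε P := by
    rw [h2]
    rw [hsg] at hz
    linear_combination hz
  by_contra hne
  have key : ∀ p q : ZMod 2, p ≠ q + 1 → p = q := by decide
  have h4 : sg ε P = τ := key _ _ hne
  have h5 := h.max _ h1 (h3.trans h4)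
  rw [List.length_append] at h5
  omega

theorem su6_mem_fw {v : ℤ → V} {i k : ℤ} (hik : i ≤ k) {x : V} :
    x ∈ fw v i ((k - i).toNat + 1) ↔ ∃ t : ℤ, i ≤ t ∧ t ≤ k ∧ v t = x := by
  rw [mem_fw]
  constructor
  · rintro ⟨t, h1, h2, h3⟩
    exact ⟨t, h1, by push_cast at h2; omega, h3⟩
  · rintro ⟨t, h1, h2, h3⟩
    exact ⟨t, h1, by push_cast; omega, h3⟩

theorem su6_mem_bw {v : ℤ → V} {i k : ℤ} (hik : k ≤ i) {x : V} :
    x ∈ bw v i ((i - k).toNat + 1) ↔ ∃ t : ℤ, k ≤ t ∧ t ≤ i ∧ v t = x := by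
  rw [mem_bw]
  constructor
  · rintro ⟨t, h1, h2, h3⟩
    exact ⟨t, by push_cast at h2; omega, h1, h3⟩
  · rintro ⟨t, h1, h2, h3⟩
    exact ⟨t, h2, by push_cast; omega, h3⟩

/-- the block from `v y` to `v y'` -/
theorem su6_block (h : NCtx G ε τ d c v s) {y y' : ℤ} (h1 : y < y' + c) (h2 : y' < y + c) :
    ∃ B, Pth G (Cs v c) (v y) (v y') B ∧ sg ε B = s y' - s y ∧ (B.length : ℤ) = |y' - y| + 1 ∧
      ∀ x ∈ B, ∃ t : ℤ, (y ≤ t ∨ y' ≤ t) ∧ (t ≤ y ∨ t ≤ y') ∧ v t = x := by
  rcases le_total y y' with hyy | hyy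
  · refine ⟨_, h.fw_pth hyy h2, ?_, ?_, ?_⟩
    · rw [h.fw_sg, show y + ((y' - y).toNat : ℤ) = y' by omega]
    · rw [fw_length, abs_of_nonneg (by omega : 0 ≤ y' - y)]
      push_cast
      omega
    · intro x hx
      obtain ⟨t, ht1, ht2, ht3⟩ := (su6_mem_fw hyy).1 hx
      exact ⟨t, Or.inl ht1, Or.inr ht2, ht3⟩
  · refine ⟨_, h.bw_pth hyy h1, ?_, ?_, ?_⟩
    · rw [h.bw_sg, show y - ((y - y').toNat : ℤ) = y' by omega]
      have key : ∀ a b : ZMod 2, a - b = b - a := by decide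
      exact key _ _
    · rw [bw_length, abs_of_nonpos (by omega : y' - y ≤ 0)]
      push_cast
      omega
    · intro x hx
      obtain ⟨t, ht1, ht2, ht3⟩ := (su6_mem_bw hyy).1 hx
      exact ⟨t, Or.inr ht1, Or.inl ht2, ht3⟩

/-- (SU6) two chords.  `i1 ≤ p < q ≤ i3 < y, y' < i1 + c`.
Cycle: `v i1, …, v p, v y, …, v y', v q, …, v i3, J` where the block from `v y` to `v y'` is
`fw` if `y ≤ y'` and `bw` if `y' ≤ y`. -/
theorem NCtx.su6 (h : NCtx G ε τ d c v s) {i1 p q i3 y y' : ℤ} (h1 : i1 ≤ p) (h2 : p < q)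
    (h3 : q ≤ i3) (h4 : i3 < y) (h5 : i3 < y') (h6 : y < i1 + c) (h7 : y' < i1 + c)
    (ha : G.Adj (v p) (v y)) (hb : G.Adj (v y') (v q)) {r : ℤ} {J : List V}
    (hJ : Via G (Bs v c) (v r) (v i3) (v i1) J) (hr1 : p < r) (hr2 : r < q)
    (hlen : (c : ℤ) < (p - i1 + 1) + (|y' - y| + 1) + (i3 - q + 1) + J.length) :
    (s p - s i1) + ε (v p) (v y) + (s y' - s y) + ε (v y') (v q) + (s i3 - s q) = τ + 1 := by
  obtain ⟨B, hB, hBs, hBl, hBm⟩ := su6_block h (y := y) (y' := y') (by omega) (by omega)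
  have hP1 := h.fw_pth h1 (by omega : p < i1 + c)
  have hP3 := h.fw_pth h3 (by omega : i3 < q + c)
  have hP12 := pth_append hP1 hB ha (by
    intro z hz hz'
    obtain ⟨t, ht1, ht2, ht3⟩ := (su6_mem_fw h1).1 hz
    obtain ⟨u, hu1, hu2, hu3⟩ := hBm z hz'
    exact h.vne (by omega : t < u) (by omega : u < t + c) (ht3.trans hu3.symm))
  have hP := pth_append hP12 hP3 hb (by
    intro z hz hz'
    obtain ⟨u, hu1, hu2, hu3⟩ := (su6_mem_fw h3).1 hz'
    rcases List.mem_append.1 hz with hz | hz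
    · obtain ⟨t, ht1, ht2, ht3⟩ := (su6_mem_fw h1).1 hz
      exact h.vne (by omega : t < u) (by omega : u < t + c) (ht3.trans hu3.symm)
    · obtain ⟨t, ht1, ht2, ht3⟩ := hBm z hz
      exact h.vne (by omega : u < t) (by omega : t < u + c) (hu3.trans ht3.symm))
  have hlen' : c < ((fw v i1 ((p - i1).toNat + 1) ++ B) ++ fw v q ((i3 - q).toNat + 1)).length
      + J.length := by
    rw [List.length_append, List.length_append, fw_length, fw_length]
    omega
  have hw : v r ∉ (fw v i1 ((p - i1).toNat + 1) ++ B) ++ fw v q ((i3 - q).toNat + 1) := by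
    rw [List.mem_append, List.mem_append, su6_mem_fw h1, su6_mem_fw h3]
    rintro ((⟨t, ht1, ht2, ht3⟩ | hz) | ⟨t, ht1, ht2, ht3⟩)
    · exact h.vne (by omega : t < r) (by omega : r < t + c) ht3
    · obtain ⟨t, ht1, ht2, ht3⟩ := hBm _ hz
      exact h.vne (by omega : r < t) (by omega : t < r + c) ht3.symm
    · exact h.vne (by omega : r < t) (by omega : t < r + c) ht3.symm
  have h7 := su6_gen h hP hJ (h.via_sg hJ) hw hlen'
  rw [su6_append ε hP12.last hP3.head, su6_append ε hP1.last hB.head, h.fw_sg, h.fw_sg, hBs] at h7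
  rw [show i1 + ((p - i1).toNat : ℤ) = p by omega, show q + ((i3 - q).toNat : ℤ) = i3 by omega]
    at h7
  exact h7

end Pool.Agent.BND
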