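import Pool.Agent.BND.N3c
import Pool.Agent.BND.SU6

/-!
# BND-N3 : `Bic` outside, exactly three groups

Notation: `B = Bs v c`, `K = Cs v c`, `NN G K B = 3`, so `4 ≤ d` (`NN_lt`), `B ⊄ ctrs`.
So independent `u, w` are joined by an ear with `d ≤ |I| + 2` (`ear_gen`), pairwise independent
`u, z, w` by a `Via` path through `z` with `d ≤ |J| + 1` (`via_gen`), and `tri_arc` gives `d ≤ j - i`
for pairwise independent `v i, v k, v j`, `i < k < j < i + c`.

Write `Tri p q r` for: `p < q < r < p + c` and `v p, v q, v r` pairwise `Ind` (elements of `K`).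
`Tri p q r` implies `Tri q r (p + c)`.

`tri_signs`: `Tri p q r` implies: `s q = s p + 1`, `s r = s q + 1`, `s (p + c) = s r + 1` (so
`τ = 1`), `q - p ≤ c - d`, `r - q ≤ c - d`, `p + c - r ≤ c - d`, and `2 ≤` each of the three gaps.
Proof.  If `s p = s q` then `q - p ≥ d - 1` (`arc_ear`).  If two of the three arcs are positive,
`c ≥ 2 (d - 1) + 1`.  If exactly one is positive, say `(p, q)`: `q - p ≥ d - 1` and
`p + c - q ≥ d` (`tri_arc`), so `c ≥ 2 d - 1`.  Contradiction to `c ≤ 2 d - 2`.  (Use the cyclic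
symmetry `Tri q r (p + c)`.)  So all are negative.  `p + c - q ≥ d` gives `q - p ≤ c - d ≤ d - 2`.
`(q - p) + (r - q) ≥ d` gives `q - p ≥ 2`.

`no_adj`: not both `Tp i` and `Tp (i+1)`.  If `Ind (v i) (v (i+1))`, extend to representatives
(`exists_reps2`); the third one `z`, at a position `r`, `i + 1 < r < i + c`: `Tri i (i+1) r`,
contradiction to the gap `≥ 2`.  If not independent: `att (v i) = att (v (i+1)) = {x}`; take
representatives `R ∋ v i` (`exists_reps1`), `R = {v i, z, z'}`, the positions of `z, z'`: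
`i < q < r < i + c`, and in fact `i + 1 < q` (`v (i+1)` is not independent of `v i`).  Then
`Tri i q r` and `Tri (i+1) q r` (independence only depends on `att` and distinctness), so
`s q = s i + 1` and `s q = s (i + 1) + 1`, but `s (i+1) = s i + 1` (`tp_succ`).  Contradiction.

`chord`: `Tri p q r`, `p < z < q < z' < r`, `v z ~ v z'`.  Then
`ε (v z) (v z') + (s z - s p) + (s z' - s q) = 1`, `(z - p) + (z' - q) + 1 + d ≤ c` and
`(q - z) + (r - z') + 1 + d ≤ c`.
Proof.  Let `E` be the left hand side of the first claim.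
 * (δ) `su3e` with blocks `v (r - c), …, v z` forward, `v z', …, v q` backward and an ear from `v q`
   to `v (r - c) = v r`, `|I| ≥ d - 2`: if `(z - (r - c) + 1) + (z' - q + 1) + (d - 2) > c` then
   `(s z - s (r - c)) + ε + (s z' - s q) = τ + 1 = 0`.  As `s (r - c) = s p + 1` (`s r = s p + 2`,
   `s (r - c) = s r - τ`), this says `E = 1`.
 * (γ') `su4e` with blocks `v q, …, v z` backward, `v z', …, v (p + c)` forward and an ear from
   `v (p + c)` to `v q`: if `(q - z + 1) + (p + c - z' + 1) + (d - 2) > c` then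
   `(s q - s z) + ε + (s (p + c) - s z') = 0`, with `s (p + c) = s p + 1`, `s q = s p + 1`:
   `s (p+c) = s q`… so `E = (ε + s z + s z') + s p + s q = (s q + s (p+c)) + s p + s q = s (p+c) + s p
   = 1`: again `E = 1`.
 If both fail, `z - r + z' - q + d ≤ 0` and `q - z + p - z' + d ≤ 0`, sum `p - r + 2 d ≤ 0`, but
 `r - p < c ≤ 2 d - 2`.  So `E = 1`.
 * (β) `su3` with blocks `v p, …, v z` forward, `v z', …, v q` backward, `Via` path through `v r` from
   `v q` to `v p`, `|J| ≥ d - 1`: if `(z - p + 1) + (z' - q + 1) + (d - 1) > c` then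
   `(s z - s p) + ε + (s z' - s q) = 0`, i.e. `E = 0`, contradiction.  So
   `(z - p) + (z' - q) + 1 + d ≤ c`.
 * (γ) `su4` with blocks `v q, …, v z` backward, `v z', …, v r` forward, `Via` path through `v p` from
   `v r` to `v q`: if `(q - z + 1) + (r - z' + 1) + (d - 1) > c` then
   `(s q - s z) + ε + (s r - s z') = 0`, with `s r = s q + 1`, `s q = s p + 1` this says `E = 0`,
   contradiction.  So `(q - z) + (r - z') + 1 + d ≤ c`.

`nbr_left`: `Tri p q r`: the vertex `v (q - 1)` has a neighbour `v y` with `r < y < p + c`.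
Proof.  `v (q - 1)` has no neighbour outside (`no_adj`, as `Tp q`), so at least `d` neighbours on the
cycle.  Those with positions in `[p, q]`: at most `q - p` (all but itself); in `(q, r)`: by `chord`
with `z = q - 1`, `(q - 1 - p) + (z' - q) + 1 + d ≤ c`, so at most `c - d - (q - p)`; position `r`: 1.
Total `≤ c - d + 1 ≤ d - 1`.  So there is one in `(r, p + c)`.
(`z = q - 1 > p` since `q - p ≥ 2`.)

`nbr_right`: the vertex `v (q + 1)` has a neighbour `v y'` with `r < y' < p + c`.
Similarly: in `[q, r]`: at most `r - q`; in `(p, q)`: by `chord` with `z' = q + 1`: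
`(q - z) + (r - q - 1) + 1 + d ≤ c`, so `q - z ≤ c - d - (r - q)`: at most `c - d - (r - q)`;
position `p`: 1.  (It can also be obtained from `nbr_left` by reversing the orientation.)

`case_N3`: take `Tri p q r` (from representatives), and `y`, `y'` from the last two lemmas.
`chord` for `Tri r (p+c) (q+c)` and the chord from `v y` (`r < y < p + c`) to `v (q - 1 + c)`:
`E₁ := ε (v y) (v (q-1)) + (s y - s r) + (s (q - 1 + c) - s (p + c)) = 1`.
`chord` for `Tri q r (p + c)` and the chord from `v (q+1)` to `v y'`: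
`E₂ := ε (v (q+1)) (v y') + (s (q+1) - s q) + (s y' - s r) = 1`.
`su6` with `i1 = p`, `p := q - 1`, `q := q + 1`, `i3 = r`, `Via` path through `v q` from `v r` to `v p`
(`|J| ≥ d - 1`): the number of vertices is
`(q - 1 - p + 1) + (|y' - y| + 1) + (r - q - 1 + 1) + |J| ≥ (r - p) + 1 + d - 1 ≥ 2 d > c`.
So `(s (q-1) - s p) + ε (v (q-1)) (v y) + (s y' - s y) + ε (v y') (v (q+1)) + (s r - s (q+1)) = τ + 1 = 0`.
But this sum is `E₁ + E₂ + (s r - s q) = 1 + 1 + 1 = 1` in `ZMod 2`.  Contradiction.
-/

set_option autoImplicit false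
set_option linter.unusedSectionVars false

namespace Pool.Agent.BND

open Classical

variable {V : Type} [Fintype V]
variable {G : SimpleGraph V} {ε : V → V → ZMod 2} {τ : ZMod 2} {d c : ℕ} {v : ℤ → V}
  {s : ℤ → ZMod 2}

theorem case_N3 (h : N3H G ε τ d c v s) : False := by
  obtain ⟨p, q, r, ht⟩ := exists_tri h
  have hC := h.ctx.toCtx
  obtain ⟨y, hy1, hy2, hy⟩ := nbr_left h ht
  obtain ⟨y', hy1', hy2', hy'⟩ := nbr_right h ht
  have ht1 := Tri.rot h.ctx ht
  have ht2 := Tri.rot h.ctx ht1
  obtain ⟨hd4, hτ, e1, e2, e3, g1, g2, g3, g4, g5, g6, g7⟩ := tri_signs h ht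
  have hv : v (q - 1 + c) = v (q - 1) := hC.vper1 _
  have hs1 : s (q - 1 + c) = s (q - 1) + τ := hC.per _
  have hs2 : s (p + c) = s p + τ := hC.per _
  have E1 := (chord3 h ht2 (z := y) (z' := q - 1 + c) hy1 hy2 (by omega) (by omega)
    (by rw [hv]; exact hy.symm)).1
  have E2 := (chord3 h ht1 (z := q + 1) (z' := y') (by omega) (by omega) hy1' hy2' hy').1
  rw [hv, hC.symm (v y) (v (q - 1)), hs1, hs2] at E1
  obtain ⟨-, -, -, i1, i2, i3⟩ := ht
  obtain ⟨J, hJ, hJl⟩ := n3b_via h (i := r) (k := q) (j := p) i2.symm i1.symm i3.symm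
  have h6 := h.ctx.su6 (i1 := p) (p := q - 1) (q := q + 1) (i3 := r) (y := y) (y' := y')
    (by omega) (by omega) (by omega) hy1 hy1' hy2 hy2' hy hy'.symm hJ (by omega) (by omega) (by
      have := abs_nonneg (y' - y)
      have hc2 := hC.hc
      omega)
  rw [hC.symm (v y') (v (q + 1))] at h6
  have : (1 : ZMod 2) = 0 := by
    linear_combination h6 - E1 - E2 - e2 + hτ + (s y + s (q + 1) - s r - s q) * n3b_two
  exact absurd this (by decide)

end Pool.Agent.BND
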