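import Pool.Agent.BND.BC1

/-!
# BND-N4 : `Bic` outside, at least four groups

Notation as in BND-BC, `B ⊄ ctrs`, `4 ≤ N ≤ d - 1`, `W = d + 3 - N ≥ 4`.

`n4_count`.  Let `R` be representatives, `|R| = N`, `A i := v i ∈ R`.  By `tri_arc` any three
elements `i < k < j < i + c` of `A` satisfy `W ≤ j - i` (and `W ≤ c`).  `win`: `N W ≤ 2 c ≤ 4 d - 4`.
But `N (d + 3 - N) - 4 (d - 1) = (N - 4)(d - 1 - N) ≥ 0`.  So `N W = 2 c`, `c = 2 d - 2`, and the
structure part of `win` holds.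

`n4_hubs`: there is no clone, i.e. every `u ∈ TT` is a hub.  Suppose `u ∈ TT`, `|att u| = 1`.
Choose `R ∋ u` (`exists_reps1`), position `i` of `u`.  By `n4_count`, `A (i + W)` and some `k` with
`i < k < i + W`, `A k`; `W < c` (`N ≥ 3`… `2 c = N W ≥ 4 W`).  `tri_arc` for `i < k < i + W` with the
clone `v i` gives `d + 4 ≤ W + N`, a contradiction to `W + N = d + 3`.
Hence `R = TT` for every system of representatives (`hubs ⊆ R ⊆ TT`), so `A = Tp`.

`n4_gap`: no two consecutive positions are both `Tp`.  Suppose `Tp i`, `Tp (i + 1)`.  Then also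
`Tp (i + W)`, `Tp (i + W + 1)`; `i + 1 < i + W`, `i + W + 1 < i + c` (`c ≥ 2 W`, `W ≥ 4`).
`link_ears` for `p = v (i+1)`, `q = v (i+W)`, `r = v i`, `t = v (i+W+1)`: two disjoint ears joining
either (`v (i+1)`–`v i`, `v (i+W)`–`v (i+W+1)`): then `NCtx.par` with the positions
`i < i+1 ≤ i+W < i+W+1` (ears reversed where necessary) gives
`(s (i+1) - s i) + (s (i+W+1) - s (i+W)) = 1`; or (`v (i+1)`–`v (i+W+1)`, `v (i+W)`–`v i`): `NCtx.cross`
gives the same.  (Lengths: `1 + 1 < |I| + |J| + 2`.)  But by `tp_succ` both differences are `1`,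
their sum is `0`.  Contradiction.

`case_N4`: verify `EqH` with `m = W - 2 = d + 1 - N ≥ 2`:
`inv`, `btw` from `win` and `n4_gap` (the element `j` between `i` and `i + W` is neither `i + 1` nor
`i + W - 1`).  `neg`: let `i < j` be consecutive; `j - i ≤ m`.  If `s i = s j` then `arc_ear` with the
ear from `ear_gen` (`|I| ≥ d + 1 - N = m`) would give `j - i ≥ m + 1`.  `ear`: `ear_gen`; `via`:
`via_gen` (`|J| ≥ d + 2 - N = m + 1`).  All elements of `TT` are hubs, so pairwise `Ind`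
(`ind_of_hub`).
-/

set_option autoImplicit false
set_option linter.unusedSectionVars false

namespace Pool.Agent.BND

open Classical

variable {V : Type} [Fintype V]
variable {G : SimpleGraph V} {ε : V → V → ZMod 2} {τ : ZMod 2} {d c : ℕ} {v : ℤ → V}
  {s : ℤ → ZMod 2}

theorem n4a_ne (h : NCtx G ε τ d c v s) {i j : ℤ} (hij : i < j) (hj : j < i + c) :
    v i ≠ v j := by
  intro he
  rw [h.inj] at he
  have h1 : (c : ℤ) ∣ j - i := by
    rw [show j - i = -(i - j) by ring]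
    exact (dvd_neg).2 he
  have h2 := Int.le_of_dvd (by omega) h1
  omega

theorem n4a_pos {u : V} (hu : u ∈ TT G (Cs v c) (Bs v c)) :
    ∃ k : ℕ, k < c ∧ v (k : ℤ) = u := by
  have h1 : u ∈ Cs v c := (mem_TT.1 hu).1
  unfold Cs at h1
  obtain ⟨k, hk, hk2⟩ := Finset.mem_image.1 h1
  exact ⟨k, Finset.mem_range.1 hk, hk2⟩

theorem n4a_card (h : NCtx G ε τ d c v s) {R : Finset V} (hR : R ⊆ TT G (Cs v c) (Bs v c)) :
    ((Finset.range c).filter (fun k : ℕ => v (k : ℤ) ∈ R)).card = R.card := by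
  apply Finset.card_bij (fun (k : ℕ) _ => v (k : ℤ))
  · intro k hk
    exact (Finset.mem_filter.1 hk).2
  · intro k hk k' hk' he
    have h1 := Finset.mem_range.1 (Finset.mem_filter.1 hk).1
    have h2 := Finset.mem_range.1 (Finset.mem_filter.1 hk').1
    rcases lt_trichotomy k k' with h3 | h3 | h3
    · exact absurd he (n4a_ne h (by exact_mod_cast h3) (by omega))
    · exact h3
    · exact absurd he.symm (n4a_ne h (by exact_mod_cast h3) (by omega))
  · intro u hu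
    obtain ⟨k, hk, hk2⟩ := n4a_pos (hR hu)
    exact ⟨k, Finset.mem_filter.2 ⟨Finset.mem_range.2 hk, by rw [hk2]; exact hu⟩, hk2⟩

theorem n4a_three (S : Finset ℕ) (hS : 3 ≤ S.card) :
    ∃ i ∈ S, ∃ j ∈ S, ∃ k ∈ S, i < j ∧ j < k := by
  obtain ⟨T, hT, hTc⟩ := Finset.exists_subset_card_eq hS
  let f := T.orderEmbOfFin hTc
  refine ⟨f 0, hT (T.orderEmbOfFin_mem hTc 0), f 1, hT (T.orderEmbOfFin_mem hTc 1), f 2,
    hT (T.orderEmbOfFin_mem hTc 2), ?_, ?_⟩
  · exact f.strictMono (by decide)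
  · exact f.strictMono (by decide)

theorem n4_count (h : NCtx G ε τ d c v s) (hB : Bic G (Bs v c)) (h3 : 3 ≤ (Bs v c).card)
    (hnc : ¬ Bs v c ⊆ ctrs G (Cs v c) (Bs v c)) (h4 : 4 ≤ NN G (Cs v c) (Bs v c))
    {R : Finset V} (hR : R ⊆ TT G (Cs v c) (Bs v c))
    (hRc : R.card = NN G (Cs v c) (Bs v c))
    (hRi : ∀ u ∈ R, ∀ w ∈ R, u ≠ w → Ind G (Bs v c) u w) (W : ℕ)
    (hW : W + NN G (Cs v c) (Bs v c) = d + 3) :
    NN G (Cs v c) (Bs v c) * W = 2 * c ∧ c + 2 = 2 * d ∧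
      (∀ i : ℤ, v i ∈ R → v (i + W) ∈ R) ∧
      ∀ i : ℤ, v i ∈ R → ∃ j : ℤ, i < j ∧ j < i + W ∧ v j ∈ R ∧
        ∀ k : ℤ, i < k → k < i + W → v k ∈ R → k = j := by
  have hne := @n4a_ne V _ G ε τ d c v s h
  have hlt := NN_lt h hB h3
  have hc3 := h.three
  have hcd := h.hc
  have hIb : ∀ i j : ℤ, v i ∈ R → v j ∈ R → i < j → j < i + c → Ind G (Bs v c) (v i) (v j) :=
    fun i j hi hj hij hj' => hRi _ hi _ hj (hne hij hj')
  have htri : ∀ i j k : ℤ, v i ∈ R → v j ∈ R → v k ∈ R → i < j → j < k → k < i + c →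
      (W : ℤ) ≤ k - i := by
    intro i j k hi hj hk hij hjk hki
    have h1 := (tri_arc h hB h3 hnc hij hjk hki (hIb i j hi hj hij (by omega))
      (hIb j k hj hk hjk (by omega)) (hIb i k hi hk (by omega) hki)).1
    omega
  have hper : ∀ i : ℤ, v (i + c) ∈ R ↔ v i ∈ R := by
    intro i
    have : v (i + c) = v i := by
      rw [h.inj]
      exact ⟨1, by ring⟩
    rw [this]
  have hcard := n4a_card h hR
  rw [hRc] at hcard
  have hWc : W ≤ c := by
    obtain ⟨i, hi, j, hj, k, hk, hij, hjk⟩ := n4a_three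
      ((Finset.range c).filter (fun k : ℕ => v (k : ℤ) ∈ R)) (by rw [hcard]; omega)
    have hi' := Finset.mem_filter.1 hi
    have hj' := Finset.mem_filter.1 hj
    have hk' := Finset.mem_filter.1 hk
    have hkc := Finset.mem_range.1 hk'.1
    have h1 := htri i j k hi'.2 hj'.2 hk'.2 (by exact_mod_cast hij) (by exact_mod_cast hjk)
      (by omega)
    omega
  obtain ⟨hw1, hw2⟩ := win c W (NN G (Cs v c) (Bs v c)) (fun i => v i ∈ R) (by omega) hper
    (by convert hcard) hWc htri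
  have hkey : 4 * (d - 1) ≤ NN G (Cs v c) (Bs v c) * W := by
    obtain ⟨a, ha⟩ := Nat.exists_eq_add_of_le h4
    obtain ⟨b, hb⟩ := Nat.exists_eq_add_of_le hlt
    have hWb : W = b + 4 := by omega
    have hd1 : d - 1 = 4 + a + b := by omega
    rw [hd1, ha, hWb]
    nlinarith [Nat.zero_le (a * b)]
  have heq : NN G (Cs v c) (Bs v c) * W = 2 * c := by omega
  obtain ⟨e1, e2⟩ := hw2 heq (by omega)
  exact ⟨heq, by omega, e1, e2⟩

theorem n4_hubs (h : NCtx G ε τ d c v s) (hB : Bic G (Bs v c)) (h3 : 3 ≤ (Bs v c).card)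
    (hnc : ¬ Bs v c ⊆ ctrs G (Cs v c) (Bs v c)) (h4 : 4 ≤ NN G (Cs v c) (Bs v c)) :
    ∀ u ∈ TT G (Cs v c) (Bs v c), 2 ≤ (att G (Bs v c) u).card := by
  intro u hu
  by_contra hlt2
  have hatt : (att G (Bs v c) u).card = 1 := by
    have h1 : 1 ≤ (att G (Bs v c) u).card := by
      rw [Nat.succ_le_iff, Finset.card_pos]
      exact (Finset.mem_filter.1 hu).2
    omega
  obtain ⟨R, hR, hRc, hRi, huR⟩ := exists_reps1 hu
  have hlt := NN_lt h hB h3
  obtain ⟨i, hi, rfl⟩ := n4a_pos hu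
  obtain ⟨W, hW⟩ : ∃ W : ℕ, W + NN G (Cs v c) (Bs v c) = d + 3 :=
    ⟨d + 3 - NN G (Cs v c) (Bs v c), by omega⟩
  obtain ⟨heq, hcd, e1, e2⟩ := n4_count h hB h3 hnc h4 hR hRc hRi W hW
  have hWc : W < c := by
    have h1 : 4 * W ≤ NN G (Cs v c) (Bs v c) * W := Nat.mul_le_mul_right W h4
    omega
  have hiW := e1 i huR
  obtain ⟨j, hij, hjW, hj, -⟩ := e2 i huR
  have h5 := (tri_arc h hB h3 hnc hij hjW (by omega)
    (hRi _ huR _ hj (n4a_ne h hij (by omega)))
    (hRi _ hj _ hiW (n4a_ne h hjW (by omega)))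
    (hRi _ huR _ hiW (n4a_ne h (by omega) (by omega)))).2 (Or.inl hatt)
  omega

end Pool.Agent.BND
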