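import Pool.Agent.BND.N4a
import Pool.Agent.BND.EQ2
import Pool.Agent.BND.MG2

/-!
# BND-N4 : `Bic` outside, at least four groups

Notation as in BND-BC, `B ⊄ ctrs`, `4 ≤ N ≤ d - 1`, `W = d + 3 - N ≥ 4`.

`n4_count`.  Let `R` be representatives, `|R| = N`, `A i := v i ∈ R`.  By `tri_arc` any three
elements `i < k < j < i + c` of `A` satisfy `W ≤ j - i` (and `W ≤ c`).  `win`: `N W ≤ 2 c ≤ 4 d - 4`.
But `N (d + 3 - N) - 4 (d - 1) = (N - 4)(d - 1 - N) ≥ 0`.  So `N W = 2 c`, `c = 2 d - 2`, and the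
structure part of `win` holds.

`n4_hubs`: there is no clone, i.e. every `u ∈ TT` is a hub.  Suppose `u ∈ TT`, `|att u| = 1`.
Choose `R ∋ u` (`exists_reps1`), position `i` of `u`.  By `n4_count`, `A (i + W)` and some `k` with
`i < k < i + W`, `A k`; `W < c` (`N ≥ 3`… `2 c = N W ≥ 4 W`).  `tri_arc` for `i < k < i + W` with the
clone `v i` gives `d + 4 ≤ W + N`, a contradiction to `W + N = d + 3`.
Hence `R = TT` for every system of representatives (`hubs ⊆ R ⊆ TT`), so `A = Tp`.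

`n4_gap`: no two consecutive positions are both `Tp`.  Suppose `Tp i`, `Tp (i + 1)`.  Then also
`Tp (i + W)`, `Tp (i + W + 1)`; `i + 1 < i + W`, `i + W + 1 < i + c` (`c ≥ 2 W`, `W ≥ 4`).
`link_ears` for `p = v (i+1)`, `q = v (i+W)`, `r = v i`, `t = v (i+W+1)`: two disjoint ears joining
either (`v (i+1)`–`v i`, `v (i+W)`–`v (i+W+1)`): then `NCtx.par` with the positions
`i < i+1 ≤ i+W < i+W+1` (ears reversed where necessary) gives
`(s (i+1) - s i) + (s (i+W+1) - s (i+W)) = 1`; or (`v (i+1)`–`v (i+W+1)`, `v (i+W)`–`v i`): `NCtx.cross`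
gives the same.  (Lengths: `1 + 1 < |I| + |J| + 2`.)  But by `tp_succ` both differences are `1`,
their sum is `0`.  Contradiction.

`case_N4`: verify `EqH` with `m = W - 2 = d + 1 - N ≥ 2`:
`inv`, `btw` from `win` and `n4_gap` (the element `j` between `i` and `i + W` is neither `i + 1` nor
`i + W - 1`).  `neg`: let `i < j` be consecutive; `j - i ≤ m`.  If `s i = s j` then `arc_ear` with the
ear from `ear_gen` (`|I| ≥ d + 1 - N = m`) would give `j - i ≥ m + 1`.  `ear`: `ear_gen`; `via`: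
`via_gen` (`|J| ≥ d + 2 - N = m + 1`).  All elements of `TT` are hubs, so pairwise `Ind`
(`ind_of_hub`).
-/

set_option autoImplicit false
set_option linter.unusedSectionVars false

namespace Pool.Agent.BND

open Classical

variable {V : Type} [Fintype V]
variable {G : SimpleGraph V} {ε : V → V → ZMod 2} {τ : ZMod 2} {d c : ℕ} {v : ℤ → V}
  {s : ℤ → ZMod 2}

theorem n4b_base (h : NCtx G ε τ d c v s) (hB : Bic G (Bs v c)) (h3 : 3 ≤ (Bs v c).card)
    (hnc : ¬ Bs v c ⊆ ctrs G (Cs v c) (Bs v c)) (h4 : 4 ≤ NN G (Cs v c) (Bs v c)) :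
    ∃ W : ℕ, W + NN G (Cs v c) (Bs v c) = d + 3 ∧ 4 ≤ W ∧ 2 * W ≤ c ∧
      (TT G (Cs v c) (Bs v c)).card = NN G (Cs v c) (Bs v c) ∧
      (∀ i : ℤ, Tp G v c i → Tp G v c (i + W)) ∧
      ∀ i : ℤ, Tp G v c i → ∃ j : ℤ, i < j ∧ j < i + W ∧ Tp G v c j ∧
        ∀ k : ℤ, i < k → k < i + W → Tp G v c k → k = j := by
  have hlt := NN_lt h hB h3
  have hhub := n4_hubs h hB h3 hnc h4
  obtain ⟨R, hR, hRc, hRi, -, hRh⟩ := exists_reps G (Cs v c) (Bs v c)
  have hTR : TT G (Cs v c) (Bs v c) ⊆ R := by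
    intro u hu
    apply hRh
    rw [hubs, Finset.mem_filter]
    exact ⟨(mem_TT.1 hu).1, hhub u hu⟩
  have hRT : R = TT G (Cs v c) (Bs v c) := Finset.Subset.antisymm hR hTR
  have hW : (d + 3 - NN G (Cs v c) (Bs v c)) + NN G (Cs v c) (Bs v c) = d + 3 := by omega
  obtain ⟨e1, e2, e3, e4⟩ := n4_count h hB h3 hnc h4 hR hRc hRi _ hW
  refine ⟨d + 3 - NN G (Cs v c) (Bs v c), hW, by omega, ?_, by rw [← hRT, hRc], ?_, ?_⟩
  · nlinarith
  · intro i hi
    rw [h.tp_iff, ← hRT] at hi ⊢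
    exact e3 i hi
  · intro i hi
    rw [h.tp_iff, ← hRT] at hi
    obtain ⟨j, h1, h2, h5, h6⟩ := e4 i hi
    refine ⟨j, h1, h2, ?_, ?_⟩
    · rw [h.tp_iff, ← hRT]
      exact h5
    · intro k hk hk2 hk3
      rw [h.tp_iff, ← hRT] at hk3
      exact h6 k hk hk2 hk3

theorem n4b_ind (h : NCtx G ε τ d c v s) (hB : Bic G (Bs v c)) (h3 : 3 ≤ (Bs v c).card)
    (hnc : ¬ Bs v c ⊆ ctrs G (Cs v c) (Bs v c)) (h4 : 4 ≤ NN G (Cs v c) (Bs v c)) {i j : ℤ}
    (hi : Tp G v c i) (hj : Tp G v c j) (hij : v i ≠ v j) : Ind G (Bs v c) (v i) (v j) := by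
  have hhub := n4_hubs h hB h3 hnc h4
  exact ind_of_hub (K := Cs v c) (hhub _ ((h.tp_iff i).1 hi)) ((h.tp_iff j).1 hj) hij

theorem n4b_ear (h : NCtx G ε τ d c v s) (hB : Bic G (Bs v c)) (h3 : 3 ≤ (Bs v c).card)
    (hnc : ¬ Bs v c ⊆ ctrs G (Cs v c) (Bs v c)) (h4 : 4 ≤ NN G (Cs v c) (Bs v c)) {i j : ℤ}
    (hi : Tp G v c i) (hj : Tp G v c j) (hij : v i ≠ v j) :
    ∃ I, Ear G (Bs v c) (v i) (v j) I ∧ d + 1 ≤ I.length + NN G (Cs v c) (Bs v c) := by
  have hcc := h.cc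
  have hI := n4b_ind h hB h3 hnc h4 hi hj hij
  obtain ⟨I, h1, -, h2, -⟩ := ear_gen (K := Cs v c) (L := Bs v c) (D := Bs v c) hcc.disj
    (Finset.Subset.refl _) (by simp) hcc.closed (fun x _ => hcc.deg x) hB h3 hnc
    (v_mem_Cs h.toCtx i) (v_mem_Cs h.toCtx j) hI
  exact ⟨I, h1, h2⟩

theorem n4_gap (h : NCtx G ε τ d c v s) (hB : Bic G (Bs v c)) (h3 : 3 ≤ (Bs v c).card)
    (hnc : ¬ Bs v c ⊆ ctrs G (Cs v c) (Bs v c)) (h4 : 4 ≤ NN G (Cs v c) (Bs v c)) (i : ℤ) :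
    ¬ (Tp G v c i ∧ Tp G v c (i + 1)) := by
  rintro ⟨hi, hi1⟩
  obtain ⟨W, hW, hW4, hWc, -, hs, -⟩ := n4b_base h hB h3 hnc h4
  have hhub := n4_hubs h hB h3 hnc h4
  have hx := h.toCtx
  have hiW := hs i hi
  have hiW1 := hs (i + 1) hi1
  have e : i + 1 + (W : ℤ) = i + W + 1 := by ring
  rw [e] at hiW1
  have hW4' : (4 : ℤ) ≤ W := by exact_mod_cast hW4
  have hWc' : 2 * (W : ℤ) ≤ c := by exact_mod_cast hWc
  have a1 := hhub _ ((h.tp_iff _).1 hi)
  have a2 := hhub _ ((h.tp_iff _).1 hi1)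
  have a3 := hhub _ ((h.tp_iff _).1 hiW)
  have a4 := hhub _ ((h.tp_iff _).1 hiW1)
  have n12 : v i ≠ v (i + 1) := hx.vne (by omega) (by omega)
  have n13 : v i ≠ v (i + W) := hx.vne (by omega) (by omega)
  have n14 : v i ≠ v (i + W + 1) := hx.vne (by omega) (by omega)
  have n23 : v (i + 1) ≠ v (i + W) := hx.vne (by omega) (by omega)
  have n24 : v (i + 1) ≠ v (i + W + 1) := hx.vne (by omega) (by omega)
  have n34 : v (i + W) ≠ v (i + W + 1) := hx.vne (by omega) (by omega)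
  have b1 := h.tp_succ hi hi1
  have b2 := h.tp_succ hiW hiW1
  have key : (s (i + 1) - s i) + (s (i + W + 1) - s (i + W)) = 1 := by
    obtain ⟨I, J, hd, ⟨hI, hJ⟩ | ⟨hI, hJ⟩⟩ := link_ears hB (v_not_mem_Bs hx (i + 1))
      (v_not_mem_Bs hx (i + W)) (v_not_mem_Bs hx i) (v_not_mem_Bs hx (i + W + 1)) n23 n12.symm n24
      n13.symm n34 n14 a2 a3 a1 a4
    · have l1 := hI.length_pos
      have l2 := hJ.length_pos
      apply h.par (i := i) (j := i + 1) (k := i + W) (l := i + W + 1) (by omega) (by omega)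
        (by omega) (by omega) hI.reverse hJ
      · intro z hz
        exact hd z (List.mem_reverse.1 hz)
      · rw [List.length_reverse]
        omega
    · have l1 := hI.length_pos
      have l2 := hJ.length_pos
      apply h.cross (i := i) (j := i + 1) (k := i + W) (l := i + W + 1) (by omega) (by omega)
        (by omega) (by omega) hJ.reverse hI
      · intro z hz hz'
        exact hd z hz' (List.mem_reverse.1 hz)
      · rw [List.length_reverse]
        omega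
  rw [b1, b2, add_sub_cancel_left, add_sub_cancel_left] at key
  exact absurd key (by decide)


theorem case_N4 (h : NCtx G ε τ d c v s) (hB : Bic G (Bs v c)) (h3 : 3 ≤ (Bs v c).card)
    (hnc : ¬ Bs v c ⊆ ctrs G (Cs v c) (Bs v c)) (h4 : 4 ≤ NN G (Cs v c) (Bs v c)) :
    False := by
  obtain ⟨W, hW, hW4, hWc, hTT, hs, hb⟩ := n4b_base h hB h3 hnc h4
  have hgap := n4_gap h hB h3 hnc h4
  have hx := h.toCtx
  obtain ⟨m, hm⟩ : ∃ m : ℕ, W = m + 2 := ⟨W - 2, by omega⟩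
  have hmz : (W : ℤ) = m + 2 := by rw [hm]; push_cast; ring
  have hbtw : ∀ i : ℤ, Tp G v c i → ∃ j : ℤ, i + 2 ≤ j ∧ j ≤ i + m ∧ Tp G v c j ∧
      ∀ k : ℤ, i < k → k < i + m + 2 → Tp G v c k → k = j := by
    intro i hi
    obtain ⟨j, h1, h2, h5, h6⟩ := hb i hi
    have c1 : j ≠ i + 1 := by
      rintro rfl
      exact hgap i ⟨hi, h5⟩
    have c2 : j + 1 ≠ i + W := by
      intro h7
      apply hgap j
      refine ⟨h5, ?_⟩
      rw [h7]
      exact hs i hi
    refine ⟨j, by omega, by omega, h5, ?_⟩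
    intro k hk hk2 hk3
    exact h6 k hk (by omega) hk3
  refine eq_false (N := NN G (Cs v c) (Bs v c)) (m := m) (G := G) (ε := ε) (τ := τ) (d := d) (c := c)
    (v := v) (s := s) ⟨h, ?_, by omega, by omega, by omega, ?_, hbtw, ?_, ?_, ?_⟩
  · have h1 := h.tp_card 0
    rw [hTT] at h1
    simpa only [zero_add] using h1
  · intro i hi
    have h1 := hs i hi
    rwa [hmz, ← add_assoc] at h1
  · intro i j hij hi hj hno
    obtain ⟨j0, h1, h2, h5, h6⟩ := hbtw i hi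
    have hjj : j ≤ j0 := by
      by_contra hlt
      exact hno j0 (by omega) (by omega) h5
    have hjc : j < i + c := by omega
    have hne : v i ≠ v j := hx.vne hij hjc
    by_contra hsne
    have hseq : s i = s j := by
      generalize s i = a at hsne ⊢
      generalize s j = b at hsne ⊢
      revert a b
      decide
    obtain ⟨I, hI, hIl⟩ := n4b_ear h hB h3 hnc h4 hi hj hne
    have h7 := h.arc_ear hij hjc hseq hI
    omega
  · intro i j hi hj hne
    obtain ⟨I, hI, hIl⟩ := n4b_ear h hB h3 hnc h4 hi hj hne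
    exact ⟨I, hI, by omega⟩
  · intro i j k hi hj hk hij hik hjk
    have hcc := h.cc
    obtain ⟨J, hJ, hJl, -⟩ := via_gen (K := Cs v c) (D := Bs v c) hcc.disj hcc.closed
      (fun x _ => hcc.deg x) hB h3 hnc (v_mem_Cs hx i) (v_mem_Cs hx k) (v_mem_Cs hx j)
      (n4b_ind h hB h3 hnc h4 hi hk hik) (n4b_ind h hB h3 hnc h4 hk hj hjk.symm)
      (n4b_ind h hB h3 hnc h4 hi hj hij)
    exact ⟨J, hJ, by omega⟩


end Pool.Agent.BND
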