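import Pool.Agent.BND.GR2

/-!
# BND-OW : ownership data (unsigned counting) for every component `D` of `G - K`

`Own G K D d P own`: for `u ≠ w` in `P` there is an ear through `D` between them of length at least
`own u` (by symmetry also one of length at least `own w`), and for every `u ∈ P` the sum of `own` over
`P - u` is at least `2 (d - 1)`.

`own_single` (`D = {y}`): `P = ` neighbours of `y` in `K` (all its neighbours), `own = 2`; the ear is
`[y]`. `|P| ≥ d`, so the sum over `P - u` is `≥ 2 (d - 1)`.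

`own_pair` (`D = {x, y}`, `x ~ y` because `D` is connected).  `P = TT G K D`,
`own u = 3` if `u` is adjacent to both (a hub), `own u = 2` otherwise.  Ears: if `u` is a hub and
`w ∈ P`, `w` is adjacent to `x`, say: the ear `[y, x]` from `u` to `w` has length 3.  Otherwise
`exists_ear` gives an ear with length at least 2.
Let `h` = number of hubs, `a`, `b` = numbers of vertices of `K` adjacent to `x` only / to `y` only.
`h + a ≥ d - 1`, `h + b ≥ d - 1`, `h + a + b ≥ 3` (`three_le_TT`).  The sum over `P - u` is at least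
`3 h + 2 a + 2 b - 3`, and we need `≥ 2 d - 2`, i.e. `3h + 2a + 2b ≥ 2d + 1`.
If `h ≥ d`: `3 d ≥ 2 d + 1`.  If `h = d - 1`: `3 d - 3 + 2(a + b) ≥ 2 d + 1` iff `d + 2(a + b) ≥ 4`: true
if `d ≥ 4`, and if `d = 3` then `a + b ≥ 1` as `h + a + b ≥ 3`.  If `h ≤ d - 2`: `a, b ≥ d - 1 - h`, so
`3h + 4(d - 1 - h) = 4 d - 4 - h ≥ 3 d - 2 ≥ 2 d + 1`.

`own_bic` (`D` is `Bic`, `|D| ≥ 3`).  `N = NN ≥ 3` (`three_le_NN`).
 (i) `N ≥ d`: `P = R` representatives, `own = 4`; ears of length `≥ 4` between independent vertices: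
 `Bic.long_pth`.  Sum `≥ 4 (N - 1) ≥ 2 d - 2`.
 (ii) `N ≤ d - 1`, `D ⊄ ctrs`: `P = R`, `own = d - N + 2`: `ear_gen` (`L = D`):
 `d + 1 ≤ |I| + N`.  `(N - 1)(d - N + 2) ≥ 2 (d - 1)` for `3 ≤ N ≤ d - 1`: write `N = 3 + t`,
 `d = N + 1 + r`, `t, r ≥ 0`; the difference is
 `(2 + t)(r + 3) - 2 (3 + t + r) = t r + t ≥ 0`.
 (iii) `N ≤ d - 1`, `D ⊆ ctrs` (so `ctrs = D`): `P = TT`, `own = 4` for hubs, `2` for the others.
 Between a hub and another vertex of `TT` there is an ear of length `≥ 4` (they are independent).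
 With `h` hubs, `β = |D| ≥ 3`, `N = h + β`, and each cluster has at least `m = d + 1 - N ≥ 2` elements
 (`cluster_card`).  By `TT_card` the sum over `P - u` is at least `4 h + 2 β m - 4`, and
 `2 d - 2 = 2 (h + β + m - 1) - 2 = 2h + 2β + 2m - 4`; fine since `β m ≥ β + m` (`β, m ≥ 2`).

`own_cut` (`D` connected, not `Bic`, `|D| ≥ 2`).  Two end pieces with data `(R₁, f₁)`, `(R₂, f₂)`.
`P = R₁ ∪ R₂`, `own u = [u ∈ R₁] f₁ + [u ∈ R₂] f₂`.  Ears for `u ≠ w`:
 `u ∈ R₁ \ R₂`: `w ∈ R₁`: `PD.ear`; `w ∈ R₂`: `cross_ear`.  Similarly `u ∈ R₂ \ R₁`.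
 `u ∈ R₁ ∩ R₂`: `w ∈ R₁`: `cross_ear` (with `u ∈ R₂`, reversed); `w ∈ R₂`: `cross_ear`.
 Sum over `P - u` is at least `(|R₁| - 1) f₁ + (|R₂| - 1) f₂` and
 `(|Rᵢ| - 1) fᵢ = |Rᵢ| fᵢ - fᵢ ≥ 2(d - 1) - (d - 1)`.
-/

set_option autoImplicit false
set_option linter.unusedSectionVars false

namespace Pool.Agent.BND

open Classical

variable {V : Type} [Fintype V] {G : SimpleGraph V} {K D : Finset V} {d : ℕ}

theorem own_single {y : V} (h : CC G K {y} d) : ∃ P own, Own G K {y} d P own := by
  have hd := h.hd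
  have h2 : nb G y ⊆ K.filter (fun u => G.Adj y u) := by
    intro z hz
    have hz' : G.Adj y z := by simpa [nb] using hz
    rcases h.closed y (Finset.mem_singleton_self y) z hz' with h3 | h3
    · rw [Finset.mem_singleton] at h3
      exact absurd hz' (h3 ▸ G.loopless.irrefl y)
    · exact Finset.mem_filter.2 ⟨h3, hz'⟩
  have h3 := (h.deg y).trans (Finset.card_le_card h2)
  refine ⟨K.filter (fun u => G.Adj y u), fun _ => 2, Finset.filter_subset _ _, by omega,
    fun _ _ => by omega, ?_, ?_⟩
  · intro u hu w hw _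
    rw [Finset.mem_filter] at hu hw
    refine ⟨[y], ⟨by simp, by simp, ?_, by simp⟩, by simp⟩
    simp [hu.2.symm, hw.2]
  · intro u hu
    rw [Finset.sum_const, Finset.card_erase_of_mem hu, smul_eq_mul]
    omega

theorem own_pair {x y : V} (hxy : x ≠ y) (h : CC G K {x, y} d) :
    ∃ P own, Own G K {x, y} d P own := by
  have hd := h.hd
  have hx : x ∈ ({x, y} : Finset V) := Finset.mem_insert_self _ _
  have hy : y ∈ ({x, y} : Finset V) := Finset.mem_insert_of_mem (Finset.mem_singleton_self _)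
  have hadj : G.Adj x y := by
    obtain ⟨a, ha, b, hb, hba, hab⟩ := h.conn.exists_edge (X := {x})
      (Finset.singleton_subset_iff.2 hx) (Finset.singleton_nonempty x) (fun h1 => by
        have h2 : y ∈ ({x} : Finset V) := h1 ▸ hy
        exact hxy (Finset.mem_singleton.1 h2).symm)
    rw [Finset.mem_singleton] at ha hba
    rw [Finset.mem_insert, Finset.mem_singleton] at hb
    rw [← ha, ← hb.resolve_left hba]
    exact hab
  have dg : ∀ p q : V, G.Adj p q → (∀ z, G.Adj p z → z ∈ ({x, y} : Finset V) ∨ z ∈ K) →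
      (∀ z ∈ ({x, y} : Finset V), z = p ∨ z = q) →
      d ≤ (K.filter (fun u => G.Adj u p)).card + 1 := by
    intro p q _ hcl hpq
    have h2 : nb G p ⊆ insert q (K.filter (fun u => G.Adj u p)) := by
      intro z hz
      have hz' : G.Adj p z := by simpa [nb] using hz
      rcases hcl z hz' with h3 | h3
      · rcases hpq z h3 with h4 | h4
        · exact absurd hz' (h4 ▸ G.loopless.irrefl z)
        · exact h4 ▸ Finset.mem_insert_self _ _
      · exact Finset.mem_insert_of_mem (Finset.mem_filter.2 ⟨h3, hz'.symm⟩)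
    exact (h.deg p).trans ((Finset.card_le_card h2).trans (Finset.card_insert_le _ _))
  have dx := dg x y hadj (h.closed x hx) (fun z hz => by simpa using hz)
  have dy := dg y x hadj.symm (h.closed y hy) (fun z hz => by
    rw [or_comm]
    simpa using hz)
  have e1 : TT G K {x, y} = K.filter (fun u => G.Adj u x) ∪ K.filter (fun u => G.Adj u y) := by
    ext u
    rw [mem_TT, Finset.mem_union, Finset.mem_filter, Finset.mem_filter, ← and_or_left]
    simp
  have hhub : ∀ u, 2 ≤ (att G {x, y} u).card ↔ G.Adj u x ∧ G.Adj u y := by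
    intro u
    constructor
    · intro h1
      have h2 : att G {x, y} u = {x, y} := by
        apply Finset.eq_of_subset_of_card_le (Finset.filter_subset _ _)
        rw [Finset.card_pair hxy]
        exact h1
      have h3 : x ∈ att G {x, y} u := by
        rw [h2]
        exact hx
      have h4 : y ∈ att G {x, y} u := by
        rw [h2]
        exact hy
      exact ⟨(Finset.mem_filter.1 h3).2, (Finset.mem_filter.1 h4).2⟩
    · rintro ⟨h1, h2⟩
      have h3 : ({x, y} : Finset V) ⊆ att G {x, y} u := by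
        intro z hz
        refine Finset.mem_filter.2 ⟨hz, ?_⟩
        rw [Finset.mem_insert, Finset.mem_singleton] at hz
        rcases hz with rfl | rfl
        · exact h1
        · exact h2
      have h4 := Finset.card_le_card h3
      rwa [Finset.card_pair hxy] at h4
  have e2 : hubs G K {x, y} = K.filter (fun u => G.Adj u x) ∩ K.filter (fun u => G.Adj u y) := by
    ext u
    rw [hubs, Finset.mem_filter, hhub, Finset.mem_inter, Finset.mem_filter, Finset.mem_filter]
    tauto
  have e3 := Finset.card_union_add_card_inter (K.filter (fun u => G.Adj u x))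
    (K.filter (fun u => G.Adj u y))
  rw [← e1, ← e2] at e3
  have e4 := three_le_TT h
  have hsub : hubs G K {x, y} ⊆ TT G K {x, y} := by
    rw [e1, e2]
    exact Finset.inter_subset_union
  have e5 : ∑ u ∈ TT G K {x, y}, (if u ∈ hubs G K {x, y} then 3 else 2) =
      2 * (TT G K {x, y}).card + (hubs G K {x, y}).card := by
    have h1 : ∀ u ∈ TT G K {x, y}, (if u ∈ hubs G K {x, y} then 3 else 2) =
        2 + (if u ∈ hubs G K {x, y} then 1 else 0) := by
      intro u _
      split_ifs <;> rfl
    rw [Finset.sum_congr rfl h1, Finset.sum_add_distrib, Finset.sum_const, smul_eq_mul, mul_comm,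
      Finset.sum_boole, Nat.cast_id]
    congr 2
    ext u
    rw [Finset.mem_filter]
    exact ⟨fun h2 => h2.2, fun h2 => ⟨hsub h2, h2⟩⟩
  refine ⟨TT G K {x, y}, fun u => if u ∈ hubs G K {x, y} then 3 else 2, ?_, by omega, ?_, ?_, ?_⟩
  · intro u hu
    exact (mem_TT.1 hu).1
  · intro u _
    show 1 ≤ if u ∈ hubs G K {x, y} then 3 else 2
    split_ifs <;> omega
  · intro u hu w hw huw
    show ∃ I, Ear G {x, y} u w I ∧ (if u ∈ hubs G K {x, y} then 3 else 2) ≤ I.length + 1
    split_ifs with h1
    · have h2 := (hhub u).1 (Finset.mem_filter.1 h1).2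
      obtain ⟨-, z, hz, hwz⟩ := mem_TT.1 hw
      rw [Finset.mem_insert, Finset.mem_singleton] at hz
      rcases hz with rfl | rfl
      · refine ⟨[y, z], ⟨by simp, by simp [hxy.symm], ?_, by simp⟩, by simp⟩
        simp [h2.2, hadj.symm, hwz.symm]
      · refine ⟨[x, z], ⟨by simp, by simp [hxy], ?_, by simp⟩, by simp⟩
        simp [h2.1, hadj, hwz.symm]
    · obtain ⟨I, hI⟩ := exists_ear h.conn hu hw
      have := hI.length_pos
      exact ⟨I, hI, by omega⟩
  · intro u hu
    have h1 := Finset.sum_erase_add (TT G K {x, y})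
      (fun u => if u ∈ hubs G K {x, y} then 3 else 2) hu
    rw [e5] at h1
    show 2 * d ≤ (∑ w ∈ (TT G K {x, y}).erase u, if w ∈ hubs G K {x, y} then 3 else 2) + 2
    have h2 : (if u ∈ hubs G K {x, y} then 3 else 2) ≤ 3 := by split_ifs <;> omega
    omega

end Pool.Agent.BND
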