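import Pool.Agent.BND.Defs2

/-!
# BND-P1 : API for list paths `Pth`

All statements are elementary facts about lists.  (`Pth G S x y l`: `l` is a duplicate free list,
a chain for `G.Adj`, starting at `x`, ending at `y`, with all entries in `S`.)
Useful Mathlib: `List.isChain_append`, `List.isChain_cons_cons`, `List.isChain_reverse`,
`List.head?_append`, `List.getLast?_append`, `List.nodup_append`, `List.nodup_reverse`.
-/

set_option autoImplicit false
set_option linter.unusedSectionVars false

namespace Pool.Agent.BND

open Classical

variable {V : Type} [Fintype V]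
variable {G : SimpleGraph V} {S S' : Finset V} {x y z w : V} {l l' : List V}

theorem Pth.ne_nil (h : Pth G S x y l) : l ≠ [] := by
  rintro rfl
  have := h.head
  simp at this

theorem Pth.mem_left (h : Pth G S x y l) : x ∈ l := List.mem_of_mem_head? h.head

theorem Pth.mem_right (h : Pth G S x y l) : y ∈ l := List.mem_of_mem_getLast? h.last

theorem Pth.left_mem (h : Pth G S x y l) : x ∈ S := h.sub x h.mem_left

theorem Pth.right_mem (h : Pth G S x y l) : y ∈ S := h.sub y h.mem_right

theorem Pth.reverse (h : Pth G S x y l) : Pth G S y x l.reverse where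
  head := by rw [List.head?_reverse]; exact h.last
  last := by rw [List.getLast?_reverse]; exact h.head
  nodup := List.nodup_reverse.2 h.nodup
  chain := by
    rw [List.isChain_reverse]
    exact h.chain.imp fun a b hab => SimpleGraph.Adj.symm hab
  sub := fun z hz => h.sub z (List.mem_reverse.1 hz)

theorem Pth.mono (h : Pth G S x y l) (hS : ∀ z ∈ l, z ∈ S') : Pth G S' x y l :=
  ⟨h.head, h.last, h.nodup, h.chain, hS⟩

theorem pth_self (hx : x ∈ S) : Pth G S x x [x] :=
  ⟨rfl, rfl, List.nodup_singleton x, List.isChain_singleton x, by simpa using hx⟩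

theorem pth_cons (hx : x ∈ S) (hxl : x ∉ l) (hadj : G.Adj x y) (h : Pth G S y z l) :
    Pth G S x z (x :: l) where
  head := rfl
  last := by
    rw [List.getLast?_cons, h.last]
    rfl
  nodup := List.nodup_cons.2 ⟨hxl, h.nodup⟩
  chain := by
    rw [List.isChain_cons]
    refine ⟨fun w hw => ?_, h.chain⟩
    have h1 := h.head
    rw [Option.mem_def] at hw
    rw [h1] at hw
    cases hw
    exact hadj
  sub := by
    intro w hw
    rcases List.mem_cons.1 hw with rfl | hw
    · exact hx
    · exact h.sub w hw

/-- inverse of `pth_cons` -/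
theorem Pth.tail (h : Pth G S x z (x :: w :: l)) :
    G.Adj x w ∧ x ∉ w :: l ∧ Pth G S w z (w :: l) := by
  have h1 := h.chain
  rw [List.isChain_cons_cons] at h1
  have h2 := List.nodup_cons.1 h.nodup
  refine ⟨h1.1, h2.1, rfl, ?_, h2.2, h1.2, fun q hq => h.sub q (List.mem_cons_of_mem _ hq)⟩
  have h3 := h.last
  rwa [List.getLast?_cons_cons] at h3

theorem pth_append (h1 : Pth G S x y l) (h2 : Pth G S z w l') (hadj : G.Adj y z)
    (hd : ∀ q ∈ l, q ∉ l') : Pth G S x w (l ++ l') where
  head := by
    rw [List.head?_append, h1.head]
    rfl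
  last := by
    rw [List.getLast?_append, h2.last]
    rfl
  nodup := by
    rw [List.nodup_append']
    exact ⟨h1.nodup, h2.nodup, fun q hq hq' => hd q hq hq'⟩
  chain := by
    rw [List.isChain_append]
    refine ⟨h1.chain, h2.chain, fun a ha b hb => ?_⟩
    rw [h1.last] at ha
    rw [h2.head] at hb
    cases ha
    cases hb
    exact hadj
  sub := by
    intro q hq
    rcases List.mem_append.1 hq with hq | hq
    · exact h1.sub q hq
    · exact h2.sub q hq

/-- a path from a vertex to itself is trivial -/
theorem Pth.eq_self (h : Pth G S x x l) : l = [x] := by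
  match l, h with
  | [], h => exact absurd rfl h.ne_nil
  | [a], h =>
    have h1 := h.head
    simp at h1
    rw [h1]
  | a :: b :: t, h =>
    exfalso
    have h1 := h.head
    simp at h1
    subst h1
    have h2 := h.last
    rw [List.getLast?_cons_cons] at h2
    exact (List.nodup_cons.1 h.nodup).1 (List.mem_of_mem_getLast? h2)

theorem Pth.two_le (h : Pth G S x y l) (hxy : x ≠ y) : 2 ≤ l.length := by
  match l, h with
  | [], h => exact absurd rfl h.ne_nil
  | [a], h =>
    exfalso
    have h1 := h.head
    have h2 := h.last
    simp at h1 h2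
    exact hxy (h1.symm.trans h2)
  | a :: b :: t, h => simp

/-- the number of vertices of a path in `S` is at most `|S|` -/
theorem Pth.length_le (h : Pth G S x y l) : l.length ≤ S.card := by
  rw [← List.toFinset_card_of_nodup h.nodup]
  apply Finset.card_le_card
  intro q hq
  exact h.sub q (List.mem_toFinset.1 hq)

end Pool.Agent.BND
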