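import Pool.Agent.BND.P1a

/-!
# BND-P1 : API for list paths `Pth`

All statements are elementary facts about lists.  (`Pth G S x y l`: `l` is a duplicate free list,
a chain for `G.Adj`, starting at `x`, ending at `y`, with all entries in `S`.)
Useful Mathlib: `List.isChain_append`, `List.isChain_cons_cons`, `List.isChain_reverse`,
`List.head?_append`, `List.getLast?_append`, `List.nodup_append`, `List.nodup_reverse`.
-/

set_option autoImplicit false
set_option linter.unusedSectionVars false

namespace Pool.Agent.BND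

open Classical

variable {V : Type} [Fintype V]
variable {G : SimpleGraph V} {S S' : Finset V} {x y z w : V} {l l' : List V}

theorem p1b_left {l1 l2 : List V} (h : Pth G S x y (l1 ++ z :: l2)) :
    Pth G S x z (l1 ++ [z]) := by
  have e : l1 ++ z :: l2 = (l1 ++ [z]) ++ l2 := by simp
  refine ⟨?_, by simp, ?_, ?_, ?_⟩
  · have h1 := h.head
    rw [e, List.head?_append_of_ne_nil _ (by simp)] at h1
    exact h1
  · have h1 := h.nodup
    rw [e, List.nodup_append'] at h1
    exact h1.1
  · have h1 := h.chain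
    rw [e, List.isChain_append] at h1
    exact h1.1
  · intro q hq
    apply h.sub
    rw [e]
    exact List.mem_append_left _ hq

theorem p1b_right {l1 l2 : List V} (h : Pth G S x y (l1 ++ z :: l2)) :
    Pth G S z y (z :: l2) := by
  refine ⟨rfl, ?_, ?_, ?_, ?_⟩
  · have h1 := h.last
    rw [List.getLast?_append_of_ne_nil _ (by simp)] at h1
    exact h1
  · have h1 := h.nodup
    rw [List.nodup_append'] at h1
    exact h1.2.1
  · have h1 := h.chain
    rw [List.isChain_append] at h1
    exact h1.2.1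
  · intro q hq
    exact h.sub q (List.mem_append_right _ hq)

theorem p1b_join {l1 l2 : List V} (h1 : Pth G S x z (l1 ++ [z])) (h2 : Pth G S z y (z :: l2))
    (hd : ∀ q ∈ l1, q ∉ z :: l2) : Pth G S x y (l1 ++ z :: l2) := by
  refine ⟨?_, ?_, ?_, ?_, ?_⟩
  · have h3 := h1.head
    have e : l1 ++ z :: l2 = (l1 ++ [z]) ++ l2 := by simp
    rw [e, List.head?_append_of_ne_nil _ (by simp)]
    exact h3
  · rw [List.getLast?_append_of_ne_nil _ (by simp)]
    exact h2.last
  · rw [List.nodup_append']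
    have h3 := h1.nodup
    rw [List.nodup_append'] at h3
    exact ⟨h3.1, h2.nodup, fun q hq hq' => hd q hq hq'⟩
  · rw [List.isChain_append]
    have h3 := h1.chain
    rw [List.isChain_append] at h3
    refine ⟨h3.1, h2.chain, fun a ha b hb => ?_⟩
    rw [List.head?_cons] at hb
    cases hb
    exact h3.2.2 a ha z (by simp)
  · intro q hq
    rcases List.mem_append.1 hq with hq | hq
    · exact h1.sub q (List.mem_append_left _ hq)
    · exact h2.sub q hq

theorem p1b_first (X : Finset V) : ∀ l : List V, (∃ q ∈ l, q ∈ X) →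
    ∃ z l1 l2, l = l1 ++ z :: l2 ∧ z ∈ X ∧ ∀ q ∈ l1, q ∉ X
  | [], h => by
    obtain ⟨q, hq, _⟩ := h
    simp at hq
  | a :: t, h => by
    by_cases ha : a ∈ X
    · exact ⟨a, [], t, rfl, ha, by simp⟩
    · obtain ⟨q, hq, hqX⟩ := h
      have hqt : q ∈ t := by
        rcases List.mem_cons.1 hq with rfl | hq
        · exact absurd hqX ha
        · exact hq
      obtain ⟨z, l1, l2, e, hz, hl⟩ := p1b_first X t ⟨q, hqt, hqX⟩
      refine ⟨z, a :: l1, l2, by rw [e]; rfl, hz, ?_⟩
      intro q hq
      rcases List.mem_cons.1 hq with rfl | hq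
      · exact ha
      · exact hl q hq

theorem p1b_last (X : Finset V) : ∀ l : List V, (∃ q ∈ l, q ∈ X) →
    ∃ z l1 l2, l = l1 ++ z :: l2 ∧ z ∈ X ∧ ∀ q ∈ l2, q ∉ X
  | [], h => by
    obtain ⟨q, hq, _⟩ := h
    simp at hq
  | a :: t, h => by
    by_cases ht : ∃ q ∈ t, q ∈ X
    · obtain ⟨z, l1, l2, e, hz, hl⟩ := p1b_last X t ht
      exact ⟨z, a :: l1, l2, by rw [e]; rfl, hz, hl⟩
    · push Not at ht
      obtain ⟨q, hq, hqX⟩ := h
      rcases List.mem_cons.1 hq with rfl | hq
      · exact ⟨q, [], t, rfl, hqX, ht⟩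
      · exact absurd hqX (ht q hq)

/-- cutting a path at one of its vertices -/
theorem Pth.split (h : Pth G S x y l) (hz : z ∈ l) :
    ∃ l1 l2, l = l1 ++ z :: l2 ∧ Pth G S x z (l1 ++ [z]) ∧ Pth G S z y (z :: l2) := by
  obtain ⟨l1, l2, e⟩ := List.append_of_mem hz
  rw [e] at h
  exact ⟨l1, l2, e, p1b_left h, p1b_right h⟩

/-- cutting a path at its first vertex in `X` -/
theorem Pth.first_hit (h : Pth G S x y l) (X : Finset V) (hX : ∃ q ∈ l, q ∈ X) :
    ∃ z l1 l2, l = l1 ++ z :: l2 ∧ z ∈ X ∧ (∀ q ∈ l1, q ∉ X) ∧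
      Pth G S x z (l1 ++ [z]) ∧ Pth G S z y (z :: l2) := by
  obtain ⟨z, l1, l2, e, hz, hl⟩ := p1b_first X l hX
  rw [e] at h
  exact ⟨z, l1, l2, e, hz, hl, p1b_left h, p1b_right h⟩

/-- cutting a path at its last vertex in `X` -/
theorem Pth.last_hit (h : Pth G S x y l) (X : Finset V) (hX : ∃ q ∈ l, q ∈ X) :
    ∃ z l1 l2, l = l1 ++ z :: l2 ∧ z ∈ X ∧ (∀ q ∈ l2, q ∉ X) ∧
      Pth G S x z (l1 ++ [z]) ∧ Pth G S z y (z :: l2) := by
  obtain ⟨z, l1, l2, e, hz, hl⟩ := p1b_last X l hX
  rw [e] at h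
  exact ⟨z, l1, l2, e, hz, hl, p1b_left h, p1b_right h⟩

/-- concatenation of two paths contains a path (take the first vertex of `l1` lying on `l2`) -/
theorem Pth.trans {l1 l2 : List V} (h1 : Pth G S x y l1) (h2 : Pth G S y z l2) :
    ∃ l3, Pth G S x z l3 ∧ (∀ q ∈ l3, q ∈ l1 ∨ q ∈ l2) := by
  obtain ⟨w, a, b, e1, hw, ha, p1, _⟩ := h1.first_hit l2.toFinset
    ⟨y, h1.mem_right, List.mem_toFinset.2 h2.mem_left⟩
  obtain ⟨c, e, e2, _, p2⟩ := h2.split (List.mem_toFinset.1 hw)
  refine ⟨a ++ w :: e, p1b_join p1 p2 ?_, ?_⟩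
  · intro q hq hq'
    apply ha q hq
    rw [List.mem_toFinset, e2]
    exact List.mem_append_right _ hq'
  · intro q hq
    rcases List.mem_append.1 hq with hq | hq
    · left
      rw [e1]
      exact List.mem_append_left _ hq
    · right
      rw [e2]
      exact List.mem_append_right _ hq

/-- a path starting in `X` and ending outside `X` uses an edge leaving `X` -/
theorem Pth.cross (h : Pth G S x y l) (X : Finset V) (hx : x ∈ X) (hy : y ∉ X) :
    ∃ a ∈ l, ∃ b ∈ l, a ∈ X ∧ b ∉ X ∧ G.Adj a b := by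
  induction l generalizing x with
  | nil => exact absurd rfl h.ne_nil
  | cons a t ih =>
    have h1 := h.head
    rw [List.head?_cons] at h1
    cases h1
    cases t with
    | nil =>
      exfalso
      have h2 := h.last
      rw [List.getLast?_singleton] at h2
      cases h2
      exact hy hx
    | cons b t =>
      obtain ⟨hab, _, ht⟩ := h.tail
      by_cases hb : b ∈ X
      · obtain ⟨p, hp, q, hq, h3⟩ := ih ht hb
        exact ⟨p, List.mem_cons_of_mem _ hp, q, List.mem_cons_of_mem _ hq, h3⟩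
      · exact ⟨a, by simp, b, by simp, hx, hb, hab⟩

/-- a path gives an ear: if `x' ∉ D`-type endpoints `a`, `b` are adjacent to the two ends of a path
inside `D` then we get an `Ear` -/
theorem Pth.ear {D : Finset V} {a b : V} (h : Pth G D x y l) (ha : G.Adj a x) (hb : G.Adj y b) :
    Ear G D a b l := by
  refine ⟨h.ne_nil, h.nodup, ?_, h.sub⟩
  rw [List.isChain_cons, List.isChain_append]
  refine ⟨?_, h.chain, List.isChain_singleton b, ?_⟩
  · intro w hw
    rw [List.head?_append_of_ne_nil _ h.ne_nil, h.head] at hw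
    cases hw
    exact ha
  · intro p hp q hq
    rw [h.last] at hp
    rw [List.head?_cons] at hq
    cases hp
    cases hq
    exact hb

/-- an ear is a path between neighbours of its ends -/
theorem Ear.pth {D : Finset V} {a b : V} (h : Ear G D a b l) :
    ∃ x y, Pth G D x y l ∧ G.Adj a x ∧ G.Adj y b := by
  have h1 := h.chain
  rw [List.isChain_cons, List.isChain_append] at h1
  have e1 : l.head? = some (l.head h.ne) := List.head?_eq_some_head h.ne
  have e2 : l.getLast? = some (l.getLast h.ne) := List.getLast?_eq_some_getLast h.ne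
  refine ⟨l.head h.ne, l.getLast h.ne, ⟨e1, e2, h.nodup, h1.2.1, h.sub⟩, ?_, ?_⟩
  · apply h1.1
    rw [List.head?_append_of_ne_nil _ h.ne, e1]
    exact rfl
  · exact h1.2.2.2 _ e2 _ rfl

theorem Ear.reverse {D : Finset V} {a b : V} (h : Ear G D a b l) : Ear G D b a l.reverse := by
  obtain ⟨x, y, hp, h1, h2⟩ := h.pth
  exact hp.reverse.ear (SimpleGraph.Adj.symm h2) (SimpleGraph.Adj.symm h1)

theorem Ear.mono {D D' : Finset V} {a b : V} (h : Ear G D a b l) (hD : ∀ z ∈ l, z ∈ D') :
    Ear G D' a b l := ⟨h.ne, h.nodup, h.chain, hD⟩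

theorem Ear.length_pos {D : Finset V} {a b : V} (h : Ear G D a b l) : 1 ≤ l.length :=
  List.length_pos_of_ne_nil h.ne

theorem Ear.via {D : Finset V} {a b : V} (h : Ear G D a b l) (w : V) : Via G D w a b l :=
  ⟨h.ne, h.nodup, h.chain, fun z hz => Or.inl (h.sub z hz),
    fun z hz => h.sub z (List.mem_of_mem_head? hz),
    fun z hz => h.sub z (List.mem_of_mem_getLast? hz)⟩

theorem Via.reverse {D : Finset V} {a b : V} (h : Via G D w a b l) :
    Via G D w b a l.reverse := by
  refine ⟨by simpa using h.ne, List.nodup_reverse.2 h.nodup, ?_,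
    fun z hz => h.sub z (List.mem_reverse.1 hz), fun z hz => h.lt z ?_, fun z hz => h.hd z ?_⟩
  · have e : b :: (l.reverse ++ [a]) = (a :: (l ++ [b])).reverse := by simp
    rw [e, List.isChain_reverse]
    exact h.chain.imp fun p q hpq => SimpleGraph.Adj.symm hpq
  · rw [← List.head?_reverse]
    exact hz
  · rw [← List.getLast?_reverse]
    exact hz

end Pool.Agent.BND
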