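import Pool.Agent.BND.P1b

/-!
# BND-P2 : API for `Conn`, `Comp`, `Bic`

Everything is elementary.  The basic tool is the cut criterion (`conn_of_closed`,
`Conn.closed_eq`): `G[S]` is connected iff `S ≠ ∅` and the only nonempty subset of `S` that is
closed under taking neighbours in `S` is `S` itself.
-/

set_option autoImplicit false
set_option linter.unusedSectionVars false

namespace Pool.Agent.BND

open Classical

variable {V : Type} [Fintype V]
variable {G : SimpleGraph V} {S T X Y : Finset V} {x y z w : V}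

theorem conn_of_closed (hS : S.Nonempty)
    (h : ∀ X : Finset V, X ⊆ S → X.Nonempty → (∀ a ∈ X, ∀ b ∈ S, G.Adj a b → b ∈ X) → X = S) :
    Conn G S := by
  refine ⟨hS, fun x hx y hy => ?_⟩
  have h1 := h (S.filter (fun y => ∃ l, Pth G S x y l)) (Finset.filter_subset _ _)
    ⟨x, Finset.mem_filter.mpr ⟨hx, [x], pth_self hx⟩⟩ (by
      intro a ha b hb hab
      rw [Finset.mem_filter] at ha ⊢
      obtain ⟨haS, l, hl⟩ := ha
      refine ⟨hb, ?_⟩
      have h2 : Pth G S a b [a, b] := pth_cons haS (by simpa using hab.ne) hab (pth_self hb)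
      obtain ⟨l3, h3, _⟩ := hl.trans h2
      exact ⟨l3, h3⟩)
  rw [← h1] at hy
  exact (Finset.mem_filter.mp hy).2

theorem Conn.closed_eq (h : Conn G S) (hX : X ⊆ S) (hne : X.Nonempty)
    (hcl : ∀ a ∈ X, ∀ b ∈ S, G.Adj a b → b ∈ X) : X = S := by
  refine Finset.Subset.antisymm hX fun y hy => ?_
  by_contra hyX
  obtain ⟨x, hx⟩ := hne
  obtain ⟨l, hl⟩ := h.2 x (hX hx) y hy
  obtain ⟨a, ha, b, hb, haX, hbX, hab⟩ := hl.cross X hx hyX
  exact hbX (hcl a haX b (hl.sub b hb) hab)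

theorem Conn.exists_edge (h : Conn G S) (hX : X ⊆ S) (hne : X.Nonempty) (hXS : X ≠ S) :
    ∃ a ∈ X, ∃ b ∈ S, b ∉ X ∧ G.Adj a b := by
  by_contra hcon
  refine hXS (h.closed_eq hX hne fun a ha b hb hab => ?_)
  by_contra hbX
  exact hcon ⟨a, ha, b, hb, hbX, hab⟩

theorem conn_singleton (x : V) : Conn G {x} := by
  refine ⟨Finset.singleton_nonempty x, fun a ha b hb => ?_⟩
  rw [Finset.mem_singleton] at ha hb
  subst ha
  subst hb
  exact ⟨[b], pth_self (Finset.mem_singleton_self b)⟩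

/-- a closed set meeting a connected set contains it -/
theorem p2a_sub (hS : Conn G S) (hST : S ⊆ T) (hm : ∃ a ∈ S, a ∈ X)
    (hcl : ∀ a ∈ X, ∀ b ∈ T, G.Adj a b → b ∈ X) : S ⊆ X := by
  have h1 : S ∩ X = S := by
    refine hS.closed_eq Finset.inter_subset_left ?_ ?_
    · obtain ⟨a, ha, haX⟩ := hm
      exact ⟨a, Finset.mem_inter.mpr ⟨ha, haX⟩⟩
    · intro a ha b hb hab
      rw [Finset.mem_inter] at ha ⊢
      exact ⟨hb, hcl a ha.2 b (hST hb) hab⟩
  intro a ha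
  rw [← h1] at ha
  exact (Finset.mem_inter.mp ha).2

theorem p2a_union (hS : Conn G S) (hT : Conn G T) (h : ∃ a ∈ S, ∃ b ∈ T, a = b ∨ G.Adj a b) :
    Conn G (S ∪ T) := by
  refine conn_of_closed (hS.1.mono Finset.subset_union_left) fun X hX hne hcl => ?_
  obtain ⟨a, ha, b, hb, hab⟩ := h
  have hSX : (∃ q ∈ S, q ∈ X) → S ⊆ X := fun hm => p2a_sub hS Finset.subset_union_left hm hcl
  have hTX : (∃ q ∈ T, q ∈ X) → T ⊆ X := fun hm => p2a_sub hT Finset.subset_union_right hm hcl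
  have hboth : S ⊆ X ∧ T ⊆ X := by
    obtain ⟨q, hq⟩ := hne
    rcases Finset.mem_union.mp (hX hq) with hqS | hqT
    · have h1 := hSX ⟨q, hqS, hq⟩
      refine ⟨h1, hTX ⟨b, hb, ?_⟩⟩
      rcases hab with hab | hab
      · rw [← hab]
        exact h1 ha
      · exact hcl a (h1 ha) b (Finset.mem_union_right _ hb) hab
    · have h1 := hTX ⟨q, hqT, hq⟩
      refine ⟨hSX ⟨a, ha, ?_⟩, h1⟩
      rcases hab with hab | hab
      · rw [hab]
        exact h1 hb
      · exact hcl b (h1 hb) a (Finset.mem_union_left _ ha) hab.symm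
  exact Finset.Subset.antisymm hX (Finset.union_subset hboth.1 hboth.2)

theorem Conn.insert (h : Conn G S) (hx : x ∈ S) (hadj : G.Adj y x) : Conn G (insert y S) := by
  rw [Finset.insert_eq]
  exact p2a_union (conn_singleton y) h ⟨y, Finset.mem_singleton_self y, x, hx, Or.inr hadj⟩

theorem Conn.union (hS : Conn G S) (hT : Conn G T) (h : ∃ a ∈ S, ∃ b ∈ T, a = b ∨ G.Adj a b) :
    Conn G (S ∪ T) := p2a_union hS hT h

theorem exists_comp (hx : x ∈ S) : ∃ X, Comp G S X ∧ x ∈ X := by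
  have hmem : ∀ y, y ∈ S.filter (fun y => ∃ l, Pth G S x y l) ↔ y ∈ S ∧ ∃ l, Pth G S x y l :=
    fun y => Finset.mem_filter
  have hxX : x ∈ S.filter (fun y => ∃ l, Pth G S x y l) := (hmem x).mpr ⟨hx, [x], pth_self hx⟩
  have hin : ∀ y ∈ S.filter (fun y => ∃ l, Pth G S x y l),
      ∃ l, Pth G (S.filter (fun y => ∃ l, Pth G S x y l)) x y l := by
    intro y hy
    obtain ⟨hyS, l, hl⟩ := (hmem y).mp hy
    refine ⟨l, hl.mono fun q hq => ?_⟩
    obtain ⟨l1, l2, _, h1, _⟩ := hl.split hq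
    exact (hmem q).mpr ⟨hl.sub q hq, _, h1⟩
  refine ⟨S.filter (fun y => ∃ l, Pth G S x y l), ⟨Finset.filter_subset _ _, ⟨⟨x, hxX⟩, ?_⟩, ?_⟩,
    hxX⟩
  · intro a ha b hb
    obtain ⟨l1, h1⟩ := hin a ha
    obtain ⟨l2, h2⟩ := hin b hb
    obtain ⟨l3, h3, _⟩ := h1.reverse.trans h2
    exact ⟨l3, h3⟩
  · intro a ha b hb hab
    obtain ⟨haS, l, hl⟩ := (hmem a).mp ha
    refine (hmem b).mpr ⟨hb, ?_⟩
    have h2 : Pth G S a b [a, b] := pth_cons haS (by simpa using hab.ne) hab (pth_self hb)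
    obtain ⟨l3, h3, _⟩ := hl.trans h2
    exact ⟨l3, h3⟩

theorem Comp.nonempty (h : Comp G S X) : X.Nonempty := h.2.1.1

end Pool.Agent.BND
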