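import Pool.Agent.BND.P3

/-!
# BND-P4 : the cycle in positions

`Ctx G ε τ d c v s` gives the closed cycle as a `c`-periodic map `v : ℤ → V` together with the
potential `s : ℤ → ZMod 2`.  `fw v i n` lists `v i, …, v (i+n-1)`, `bw v i n` lists
`v i, v (i-1), …, v (i-n+1)`.
-/

set_option autoImplicit false
set_option linter.unusedSectionVars false

namespace Pool.Agent.BND

open Classical

variable {V : Type} [Fintype V]
variable {G : SimpleGraph V} {ε : V → V → ZMod 2} {τ : ZMod 2} {d c : ℕ} {v : ℤ → V}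
  {s : ℤ → ZMod 2}

theorem p4a_fw (v : ℤ → V) (i : ℤ) (n : ℕ) :
    fw v i n = (List.range n).map (fun k : ℕ => v (i + (k : ℤ))) := by
  unfold fw
  simp [← List.map_eq_flatMap, Function.comp_def]

theorem p4a_bw (v : ℤ → V) (i : ℤ) (n : ℕ) :
    bw v i n = (List.range n).map (fun k : ℕ => v (i - (k : ℤ))) := by
  unfold bw
  simp [← List.map_eq_flatMap, Function.comp_def]

@[simp] theorem fw_length (v : ℤ → V) (i : ℤ) (n : ℕ) : (fw v i n).length = n := by
  rw [p4a_fw, List.length_map, List.length_range]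

@[simp] theorem bw_length (v : ℤ → V) (i : ℤ) (n : ℕ) : (bw v i n).length = n := by
  rw [p4a_bw, List.length_map, List.length_range]

theorem mem_fw {i : ℤ} {n : ℕ} {x : V} : x ∈ fw v i n ↔ ∃ t : ℤ, i ≤ t ∧ t < i + n ∧ v t = x := by
  rw [p4a_fw, List.mem_map]
  constructor
  · rintro ⟨k, hk, hx⟩
    rw [List.mem_range] at hk
    exact ⟨i + k, by omega, by omega, hx⟩
  · rintro ⟨t, h1, h2, hx⟩
    refine ⟨(t - i).toNat, ?_, ?_⟩
    · rw [List.mem_range]
      omega
    · rw [← hx]
      congr 1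
      omega

theorem mem_bw {i : ℤ} {n : ℕ} {x : V} : x ∈ bw v i n ↔ ∃ t : ℤ, t ≤ i ∧ i - n < t ∧ v t = x := by
  rw [p4a_bw, List.mem_map]
  constructor
  · rintro ⟨k, hk, hx⟩
    rw [List.mem_range] at hk
    exact ⟨i - k, by omega, by omega, hx⟩
  · rintro ⟨t, h1, h2, hx⟩
    refine ⟨(i - t).toNat, ?_, ?_⟩
    · rw [List.mem_range]
      omega
    · rw [← hx]
      congr 1
      omega

theorem bw_eq_reverse (v : ℤ → V) (i : ℤ) (n : ℕ) : bw v (i + n) (n + 1) = (fw v i (n + 1)).reverse := by
  apply List.ext_getElem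
  · rw [List.length_reverse, bw_length, fw_length]
  · intro k h1 h2
    rw [bw_length] at h1
    simp only [p4a_fw, p4a_bw, List.getElem_reverse, List.getElem_map, List.getElem_range,
      List.length_map, List.length_range]
    congr 1
    omega

end Pool.Agent.BND
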