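import Pool.Agent.BND.P4a

/-!
# BND-P4 : the cycle in positions

`Ctx G ε τ d c v s` gives the closed cycle as a `c`-periodic map `v : ℤ → V` together with the
potential `s : ℤ → ZMod 2`.  `fw v i n` lists `v i, …, v (i+n-1)`, `bw v i n` lists
`v i, v (i-1), …, v (i-n+1)`.
-/

set_option autoImplicit false
set_option linter.unusedSectionVars false

namespace Pool.Agent.BND

open Classical

variable {V : Type} [Fintype V]
variable {G : SimpleGraph V} {ε : V → V → ZMod 2} {τ : ZMod 2} {d c : ℕ} {v : ℤ → V}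
  {s : ℤ → ZMod 2}

theorem p4b_fw_def (v : ℤ → V) (i : ℤ) (n : ℕ) :
    fw v i n = (List.range n).map (fun k : ℕ => v (i + (k : ℤ))) := by
  simp only [fw, bind_pure_comp, List.map_eq_map, List.map_map]
  rfl

theorem p4b_bw_def (v : ℤ → V) (i : ℤ) (n : ℕ) :
    bw v i n = (List.range n).map (fun k : ℕ => v (i - (k : ℤ))) := by
  simp only [bw, bind_pure_comp, List.map_eq_map, List.map_map]
  rfl

theorem p4b_fw_succ (v : ℤ → V) (i : ℤ) (n : ℕ) : fw v i (n + 1) = v i :: fw v (i + 1) n := by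
  rw [p4b_fw_def, p4b_fw_def, List.range_succ_eq_map, List.map_cons, List.map_map]
  congr 1
  · simp
  · refine List.map_congr_left fun k _ => ?_
    simp only [Function.comp_apply]
    congr 1
    push_cast
    ring

theorem p4b_bw_succ (v : ℤ → V) (i : ℤ) (n : ℕ) : bw v i (n + 1) = v i :: bw v (i - 1) n := by
  rw [p4b_bw_def, p4b_bw_def, List.range_succ_eq_map, List.map_cons, List.map_map]
  congr 1
  · simp
  · refine List.map_congr_left fun k _ => ?_
    simp only [Function.comp_apply]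
    congr 1
    push_cast
    ring

theorem p4b_fw_last (v : ℤ → V) (i : ℤ) (n : ℕ) :
    (fw v i (n + 1)).getLast? = some (v (i + n)) := by
  rw [p4b_fw_def, List.range_succ, List.map_append]
  simp

theorem p4b_bw_last (v : ℤ → V) (i : ℤ) (n : ℕ) :
    (bw v i (n + 1)).getLast? = some (v (i - n)) := by
  rw [p4b_bw_def, List.range_succ, List.map_append]
  simp

/-- `v` is periodic -/
theorem Ctx.vper (h : Ctx G ε τ d c v s) (i k : ℤ) : v (i + k * c) = v i := by
  rw [h.inj]
  exact ⟨k, by ring⟩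

theorem Ctx.vper1 (h : Ctx G ε τ d c v s) (i : ℤ) : v (i + c) = v i := by
  rw [h.inj]
  exact ⟨1, by ring⟩

theorem Ctx.vne (h : Ctx G ε τ d c v s) {i j : ℤ} (hij : i < j) (hj : j < i + c) : v i ≠ v j := by
  intro he
  rw [eq_comm, h.inj] at he
  have := Int.le_of_dvd (by omega) he
  omega

/-- positions in the same period are equal iff the vertices are -/
theorem Ctx.veq (h : Ctx G ε τ d c v s) {i j : ℤ} (hij : |i - j| < c) : v i = v j ↔ i = j := by
  rw [h.inj]
  constructor
  · intro hd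
    have := Int.eq_zero_of_abs_lt_dvd hd hij
    omega
  · rintro rfl
    simp

theorem Ctx.adj' (h : Ctx G ε τ d c v s) (i : ℤ) : G.Adj (v (i + 1)) (v i) := (h.adj i).symm

/-- `s` is periodic mod `2c` -/
theorem Ctx.sper2 (h : Ctx G ε τ d c v s) (i : ℤ) : s (i + 2 * c) = s i := by
  have e : i + 2 * (c : ℤ) = (i + c) + c := by ring
  rw [e, h.per, h.per, add_assoc, CharTwo.add_self_eq_zero, add_zero]

theorem p4b_mem_Cs (h : Ctx G ε τ d c v s) (t : ℤ) : v t ∈ Cs v c := by
  have hc : (0 : ℤ) < c := by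
    have := h.three
    omega
  unfold Cs
  rw [Finset.mem_image]
  have h0 := Int.emod_nonneg t hc.ne'
  have h1 := Int.emod_lt_of_pos t hc
  refine ⟨(t % c).toNat, ?_, ?_⟩
  · rw [Finset.mem_range]
    omega
  · rw [h.inj, Int.toNat_of_nonneg h0]
    exact ⟨-(t / c), by linarith [Int.emod_add_mul_ediv t c]⟩

theorem p4b_fw_chain (h : Ctx G ε τ d c v s) (n : ℕ) : ∀ i : ℤ, (fw v i n).IsChain G.Adj := by
  induction n with
  | zero => intro i; simp [fw]
  | succ n ih =>
    intro i
    rw [p4b_fw_succ]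
    have h1 := ih (i + 1)
    cases n with
    | zero => simp [fw]
    | succ m =>
      rw [p4b_fw_succ] at h1 ⊢
      rw [List.isChain_cons_cons]
      exact ⟨h.adj i, h1⟩

theorem p4b_bw_chain (h : Ctx G ε τ d c v s) (n : ℕ) : ∀ i : ℤ, (bw v i n).IsChain G.Adj := by
  induction n with
  | zero => intro i; simp [bw]
  | succ n ih =>
    intro i
    rw [p4b_bw_succ]
    have h1 := ih (i - 1)
    cases n with
    | zero => simp [bw]
    | succ m =>
      rw [p4b_bw_succ] at h1 ⊢
      rw [List.isChain_cons_cons]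
      refine ⟨?_, h1⟩
      have := h.adj' (i - 1)
      rwa [sub_add_cancel] at this

theorem Ctx.fw_pth (h : Ctx G ε τ d c v s) {i j : ℤ} (hij : i ≤ j) (hj : j < i + c) :
    Pth G (Cs v c) (v i) (v j) (fw v i ((j - i).toNat + 1)) := by
  refine ⟨?_, ?_, ?_, p4b_fw_chain h _ _, ?_⟩
  · rw [p4b_fw_succ]
    rfl
  · rw [p4b_fw_last, Int.toNat_of_nonneg (by omega)]
    congr 2
    ring
  · rw [p4b_fw_def]
    refine List.Nodup.map_on ?_ List.nodup_range
    intro a ha b hb hab
    rw [List.mem_range] at ha hb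
    rw [h.veq (by rw [abs_lt]; constructor <;> omega)] at hab
    omega
  · intro z hz
    rw [p4b_fw_def, List.mem_map] at hz
    obtain ⟨k, -, rfl⟩ := hz
    exact p4b_mem_Cs h _

theorem Ctx.bw_pth (h : Ctx G ε τ d c v s) {i j : ℤ} (hij : j ≤ i) (hj : i < j + c) :
    Pth G (Cs v c) (v i) (v j) (bw v i ((i - j).toNat + 1)) := by
  refine ⟨?_, ?_, ?_, p4b_bw_chain h _ _, ?_⟩
  · rw [p4b_bw_succ]
    rfl
  · rw [p4b_bw_last, Int.toNat_of_nonneg (by omega)]
    congr 2
    ring
  · rw [p4b_bw_def]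
    refine List.Nodup.map_on ?_ List.nodup_range
    intro a ha b hb hab
    rw [List.mem_range] at ha hb
    rw [h.veq (by rw [abs_lt]; constructor <;> omega)] at hab
    omega
  · intro z hz
    rw [p4b_bw_def, List.mem_map] at hz
    obtain ⟨k, -, rfl⟩ := hz
    exact p4b_mem_Cs h _

theorem Ctx.fw_sg (h : Ctx G ε τ d c v s) (i : ℤ) (n : ℕ) :
    sg ε (fw v i (n + 1)) = s (i + n) - s i := by
  induction n generalizing i with
  | zero =>
    have e : fw v i (0 + 1) = [v i] := by simp [fw]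
    rw [e, sg_single]
    simp
  | succ n ih =>
    have h1 := ih (i + 1)
    rw [p4b_fw_succ, p4b_fw_succ, sg_cons_cons, ← p4b_fw_succ, h1, h.pot i]
    have e : i + 1 + (n : ℤ) = i + ((n + 1 : ℕ) : ℤ) := by push_cast; ring
    rw [e]
    ring

theorem Ctx.bw_sg (h : Ctx G ε τ d c v s) (i : ℤ) (n : ℕ) :
    sg ε (bw v i (n + 1)) = s i - s (i - n) := by
  induction n generalizing i with
  | zero =>
    have e : bw v i (0 + 1) = [v i] := by simp [bw]
    rw [e, sg_single]
    simp
  | succ n ih =>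
    have h1 := ih (i - 1)
    have h2 := h.pot (i - 1)
    rw [sub_add_cancel] at h2
    rw [p4b_bw_succ, p4b_bw_succ, sg_cons_cons, ← p4b_bw_succ, h1, h.symm (v i), h2]
    have e : i - 1 - (n : ℤ) = i - ((n + 1 : ℕ) : ℤ) := by push_cast; ring
    rw [e]
    ring

end Pool.Agent.BND
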