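import Pool.Agent.BND.P4b

/-!
# BND-P4 : the cycle in positions

`Ctx G ε τ d c v s` gives the closed cycle as a `c`-periodic map `v : ℤ → V` together with the
potential `s : ℤ → ZMod 2`.  `fw v i n` lists `v i, …, v (i+n-1)`, `bw v i n` lists
`v i, v (i-1), …, v (i-n+1)`.
-/

set_option autoImplicit false
set_option linter.unusedSectionVars false

namespace Pool.Agent.BND

open Classical

variable {V : Type} [Fintype V]
variable {G : SimpleGraph V} {ε : V → V → ZMod 2} {τ : ZMod 2} {d c : ℕ} {v : ℤ → V}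
  {s : ℤ → ZMod 2}

theorem p4c_pos (h : Ctx G ε τ d c v s) : (0 : ℤ) < c := by
  have := h.three
  omega

theorem p4c_mod (h : Ctx G ε τ d c v s) (i k : ℤ) : v (i + (k - i) % c) = v k := by
  rw [h.inj]
  have h1 := Int.emod_add_mul_ediv (k - i) c
  refine ⟨-((k - i) / c), ?_⟩
  linarith

theorem mem_Cs (h : Ctx G ε τ d c v s) {x : V} : x ∈ Cs v c ↔ ∃ i : ℤ, v i = x := by
  have hc := p4c_pos h
  unfold Cs
  rw [Finset.mem_image]
  constructor
  · rintro ⟨k, -, rfl⟩
    exact ⟨k, rfl⟩
  · rintro ⟨i, rfl⟩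
    have h1 := Int.emod_nonneg i hc.ne'
    have h2 := Int.emod_lt_of_pos i hc
    refine ⟨(i % c).toNat, ?_, ?_⟩
    · rw [Finset.mem_range]
      omega
    · have h3 : (((i % c).toNat : ℕ) : ℤ) = i % c := Int.toNat_of_nonneg h1
      simp only [h3]
      have h4 := p4c_mod h 0 i
      rwa [sub_zero, zero_add] at h4

theorem v_mem_Cs (h : Ctx G ε τ d c v s) (i : ℤ) : v i ∈ Cs v c := (mem_Cs h).2 ⟨i, rfl⟩

theorem v_not_mem_Bs (h : Ctx G ε τ d c v s) (i : ℤ) : v i ∉ Bs v c := by
  unfold Bs
  rw [Finset.mem_compl, not_not]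
  exact v_mem_Cs h i

theorem mem_Bs (h : Ctx G ε τ d c v s) {x : V} : x ∈ Bs v c ↔ ∀ i : ℤ, v i ≠ x := by
  unfold Bs
  rw [Finset.mem_compl, mem_Cs h, not_exists]

theorem p4c_inj (h : Ctx G ε τ d c v s) (i : ℤ) :
    Set.InjOn (fun k : ℕ => v (i + k)) (Finset.range c : Finset ℕ) := by
  intro a ha b hb hab
  rw [Finset.coe_range, Set.mem_Iio] at ha hb
  have h1 : v (i + a) = v (i + b) := hab
  have h2 : |(i + a : ℤ) - (i + b)| < c := by
    rw [abs_lt]
    constructor <;> omega
  have h3 := (h.veq h2).1 h1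
  omega

theorem p4c_image (h : Ctx G ε τ d c v s) (i : ℤ) :
    (Finset.range c).image (fun k : ℕ => v (i + k)) = Cs v c := by
  have hc := p4c_pos h
  ext x
  rw [Finset.mem_image]
  constructor
  · rintro ⟨k, -, rfl⟩
    exact v_mem_Cs h _
  · intro hx
    obtain ⟨k, rfl⟩ := (mem_Cs h).1 hx
    have h1 := Int.emod_nonneg (k - i) hc.ne'
    have h2 := Int.emod_lt_of_pos (k - i) hc
    refine ⟨((k - i) % c).toNat, ?_, ?_⟩
    · rw [Finset.mem_range]
      omega
    · have h3 : ((((k - i) % c).toNat : ℕ) : ℤ) = (k - i) % c := Int.toNat_of_nonneg h1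
      simp only [h3]
      exact p4c_mod h i k

theorem card_Cs (h : Ctx G ε τ d c v s) : (Cs v c).card = c := by
  rw [← p4c_image h 0, Finset.card_image_of_injOn (p4c_inj h 0), Finset.card_range]

theorem card_Bs (h : Ctx G ε τ d c v s) : (Bs v c).card + c = Fintype.card V := by
  have h1 := Finset.card_compl_add_card (Cs v c)
  rwa [card_Cs h] at h1

/-- there are at least two vertices outside the cycle -/
theorem two_le_card_Bs (h : Ctx G ε τ d c v s) : 2 ≤ (Bs v c).card := by
  have h1 := card_Bs h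
  have h2 := h.hc
  have h3 := h.card
  omega

/-- every vertex of the cycle has a position in any prescribed period -/
theorem exists_pos (h : Ctx G ε τ d c v s) {x : V} (hx : x ∈ Cs v c) (i : ℤ) :
    ∃ j : ℤ, i ≤ j ∧ j < i + c ∧ v j = x := by
  have hc := p4c_pos h
  obtain ⟨k, rfl⟩ := (mem_Cs h).1 hx
  have h1 := Int.emod_nonneg (k - i) hc.ne'
  have h2 := Int.emod_lt_of_pos (k - i) hc
  exact ⟨i + (k - i) % c, by omega, by omega, p4c_mod h i k⟩

/-- counting the vertices of the cycle satisfying `p` by positions in one period -/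
theorem card_filter_pos (h : Ctx G ε τ d c v s) (p : V → Prop) (i : ℤ) :
    ((Finset.range c).filter (fun k : ℕ => p (v (i + k)))).card
      = ((Cs v c).filter p).card := by
  rw [← p4c_image h i, Finset.filter_image, Finset.card_image_of_injOn]
  exact (p4c_inj h i).mono (Finset.coe_subset.2 (Finset.filter_subset _ _))

/-- more generally, for a finset of vertices of the cycle -/
theorem card_pos (h : Ctx G ε τ d c v s) (R : Finset V) (hR : R ⊆ Cs v c) (i : ℤ) :
    ((Finset.range c).filter (fun k : ℕ => v (i + k) ∈ R)).card = R.card := by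
  have h1 := card_filter_pos h (fun x => x ∈ R) i
  have h2 : ((Cs v c).filter (fun x => x ∈ R)) = R := by
    ext x
    rw [Finset.mem_filter]
    exact ⟨fun hx => hx.2, fun hx => ⟨hR hx, hx⟩⟩
  have h3 : ((Cs v c).filter (fun x => x ∈ R)).card = R.card := by rw [h2]
  calc _ = _ := by congr
    _ = _ := h1
    _ = R.card := by
      rw [← h3]
      congr

theorem Tp.per (h : Ctx G ε τ d c v s) {i : ℤ} : Tp G v c (i + c) ↔ Tp G v c i := by
  unfold Tp
  rw [h.vper1]

end Pool.Agent.BND
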