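import Pool.Agent.BND.P3

/-!
# BND-P4 : the cycle in positions

`Ctx G ε τ d c v s` gives the closed cycle as a `c`-periodic map `v : ℤ → V` together with the
potential `s : ℤ → ZMod 2`.  `fw v i n` lists `v i, …, v (i+n-1)`, `bw v i n` lists
`v i, v (i-1), …, v (i-n+1)`.
-/

set_option autoImplicit false
set_option linter.unusedSectionVars false

namespace Pool.Agent.BND

open Classical

variable {V : Type} [Fintype V]
variable {G : SimpleGraph V} {ε : V → V → ZMod 2} {τ : ZMod 2} {d c : ℕ} {v : ℤ → V}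
  {s : ℤ → ZMod 2}

theorem p4e_sg_take (ε : V → V → ZMod 2) (L : List V) (k : ℕ) (h : k + 1 < L.length) :
    sg ε (L.take (k + 2)) = sg ε (L.take (k + 1)) + ε (L[k]'(by omega)) L[k + 1] := by
  have h1 : L.take (k + 2) = (L.take k ++ [L[k]'(by omega)]) ++ L[k + 1] :: [] := by
    rw [List.take_append_getElem, List.take_append_getElem]
  have h2 : L.take (k + 1) = L.take k ++ [L[k]'(by omega)] := by
    rw [List.take_append_getElem]
  rw [h1, sg_split_edge, ← h2, sg_single, add_zero]

theorem p4e_list {G : SimpleGraph V} {ε : V → V → ZMod 2} {τ : ZMod 2} {l : List V}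
    (hl : CycL G l) (hs : csg ε l = τ) :
    ∃ (g : ℕ → V) (S : ℕ → ZMod 2), (∀ k < l.length, G.Adj (g k) (g (k + 1))) ∧
      g l.length = g 0 ∧ (∀ j < l.length, ∀ k < l.length, g j = g k → j = k) ∧
      S 0 = 0 ∧ (∀ k < l.length, S (k + 1) = S k + ε (g k) (g (k + 1))) ∧ S l.length = τ := by
  obtain ⟨h3, hnd, hch⟩ := hl
  have hlen : (l ++ l.take 1).length = l.length + 1 := by
    rw [List.length_append, List.length_take]; omega
  have hx0 : 0 < l.length := by omega
  have hg : ∀ k (hk : k < (l ++ l.take 1).length),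
      (l ++ l.take 1).getD k (l[0]'hx0) = (l ++ l.take 1)[k] := by
    intro k hk
    rw [List.getD_eq_getElem _ _ hk]
  have hgl : ∀ k (hk : k < l.length),
      (l ++ l.take 1).getD k (l[0]'hx0) = l[k] := by
    intro k hk
    rw [hg k (by omega), List.getElem_append_left hk]
  refine ⟨fun k => (l ++ l.take 1).getD k (l[0]'hx0), fun k => sg ε ((l ++ l.take 1).take (k + 1)),
    ?_, ?_, ?_, ?_, ?_, ?_⟩
  · intro k hk
    show G.Adj ((l ++ l.take 1).getD k (l[0]'hx0)) ((l ++ l.take 1).getD (k + 1) (l[0]'hx0))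
    rw [hg k (by omega), hg (k + 1) (by omega)]
    exact List.isChain_iff_getElem.1 hch k (by omega)
  · show (l ++ l.take 1).getD l.length (l[0]'hx0) = (l ++ l.take 1).getD 0 (l[0]'hx0)
    rw [hg l.length (by omega), hgl 0 hx0, List.getElem_append_right (le_refl _)]
    simp
  · intro j hj k hk h
    have h' : (l ++ l.take 1).getD j (l[0]'hx0) = (l ++ l.take 1).getD k (l[0]'hx0) := h
    rw [hgl j hj, hgl k hk] at h'
    exact (hnd.getElem_inj_iff).1 h'
  · show sg ε ((l ++ l.take 1).take 1) = 0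
    cases l with
    | nil => simp at hx0
    | cons a t => simp
  · intro k hk
    show sg ε ((l ++ l.take 1).take (k + 2)) = sg ε ((l ++ l.take 1).take (k + 1)) +
      ε ((l ++ l.take 1).getD k (l[0]'hx0)) ((l ++ l.take 1).getD (k + 1) (l[0]'hx0))
    rw [hg k (by omega), hg (k + 1) (by omega)]
    exact p4e_sg_take ε _ k (by omega)
  · show sg ε ((l ++ l.take 1).take (l.length + 1)) = τ
    rw [← hlen, List.take_length]
    exact hs

theorem p4e_mod {c : ℕ} (hc : 0 < c) (i : ℤ) :
    ∃ (q : ℤ) (r : ℕ), r < c ∧ (i % c).toNat = r ∧ i / c = q ∧ i = q * c + r ∧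
      ((r + 1 < c ∧ ((i + 1) % c).toNat = r + 1 ∧ (i + 1) / c = q) ∨
        (r + 1 = c ∧ ((i + 1) % c).toNat = 0 ∧ (i + 1) / c = q + 1)) := by
  have hc' : (0 : ℤ) < c := by exact_mod_cast hc
  have h0 : 0 ≤ i % c := Int.emod_nonneg i hc'.ne'
  have h1 : i % c < c := Int.emod_lt_of_pos i hc'
  have h2 : (i % c) + c * (i / c) = i := Int.emod_add_mul_ediv i c
  refine ⟨i / c, (i % c).toNat, by omega, rfl, rfl, ?_, ?_⟩
  · rw [Int.toNat_of_nonneg h0, mul_comm]; omega
  · generalize hr : i % c = r at *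
    generalize hq : i / c = q at *
    have h3 : i + 1 = (r + 1) + c * q := by rw [← h2]; ring
    rcases lt_or_eq_of_le (show r + 1 ≤ c by omega) with h | h
    · left
      refine ⟨by omega, ?_, ?_⟩
      · rw [h3, Int.add_mul_emod_self_left, Int.emod_eq_of_lt (by omega) h]
        omega
      · rw [h3, Int.add_mul_ediv_left _ _ hc'.ne', Int.ediv_eq_zero_of_lt (by omega) h]
        ring
    · right
      refine ⟨by omega, ?_, ?_⟩
      · rw [h3, Int.add_mul_emod_self_left, h, Int.emod_self]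
        rfl
      · rw [h3, Int.add_mul_ediv_left _ _ hc'.ne', h, Int.ediv_self hc'.ne']
        ring

/-- From a longest cycle of sign `τ` we get the context.

Proof.  `c := l.length`, `v i := l[(i mod c).toNat]`, and `s i := ∑` of the signs of the first
`i` edges for `0 ≤ i < c`, extended by `s (i + k c) = s i + k τ`. (For instance
`s i := sg ε (l.take ((i % c).toNat + 1)) + (i / c) * τ`.) -/
theorem ctx_of_max {G : SimpleGraph V} {ε : V → V → ZMod 2} {τ : ZMod 2} {d : ℕ} {l : List V}
    (hε : ∀ x y, ε x y = ε y x) (h3 : K3 G) (hd : 3 ≤ d) (hdeg : ∀ x, d ≤ (nb G x).card)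
    (hcard : 2 * d ≤ Fintype.card V) (hl : CycL G l) (hs : csg ε l = τ)
    (hlen : l.length + 2 ≤ 2 * d)
    (hmax : ∀ l', CycL G l' → csg ε l' = τ → l'.length ≤ l.length) :
    ∃ v s, Ctx G ε τ d l.length v s := by
  obtain ⟨g, S, hadj, hper, hinj, hS0, hS, hSc⟩ := p4e_list hl hs
  have hl3 : 3 ≤ l.length := hl.1
  have hc : 0 < l.length := by omega
  have hc' : (0 : ℤ) < (l.length : ℤ) := by exact_mod_cast hc
  generalize hcc : l.length = c at *
  refine ⟨fun i => g (i % c).toNat, fun i => S (i % c).toNat + ((i / c : ℤ) : ZMod 2) * τ, ?_⟩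
  refine ⟨hε, h3, hd, hdeg, hcard, hl3, hlen, ?_, ?_, ?_, ?_, hmax⟩
  · intro i
    obtain ⟨q, r, hr, e1, -, -, h | h⟩ := p4e_mod hc i
    · show G.Adj (g (i % c).toNat) (g ((i + 1) % c).toNat)
      rw [e1, h.2.1]
      exact hadj r hr
    · show G.Adj (g (i % c).toNat) (g ((i + 1) % c).toNat)
      rw [e1, h.2.1, ← hper, ← h.1]
      exact hadj r hr
  · intro i j
    show g (i % c).toNat = g (j % c).toNat ↔ _
    have hi0 : 0 ≤ i % c := Int.emod_nonneg i hc'.ne'
    have hi1 : i % c < c := Int.emod_lt_of_pos i hc'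
    have hj0 : 0 ≤ j % c := Int.emod_nonneg j hc'.ne'
    have hj1 : j % c < c := Int.emod_lt_of_pos j hc'
    constructor
    · intro h
      have h1 := hinj _ (by omega) _ (by omega) h
      have h2 : i % c = j % c := by omega
      exact Int.ModEq.dvd (Int.ModEq.symm h2)
    · intro h
      have h2 : i % c = j % c :=
        Int.emod_eq_emod_iff_emod_sub_eq_zero.2 (Int.emod_eq_zero_of_dvd h)
      rw [h2]
  · intro i
    show S ((i + 1) % c).toNat + (((i + 1) / c : ℤ) : ZMod 2) * τ =
      S (i % c).toNat + ((i / c : ℤ) : ZMod 2) * τ + ε (g (i % c).toNat) (g ((i + 1) % c).toNat)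
    obtain ⟨q, r, hr, e1, e2, -, h | h⟩ := p4e_mod hc i
    · rw [e1, e2, h.2.1, h.2.2, hS r hr]
      ring
    · rw [e1, e2, h.2.1, h.2.2, ← hper, hS0]
      have h1 := hS r hr
      rw [h.1, hSc] at h1
      push_cast
      rw [h1]
      ring
  · intro i
    show S ((i + c) % c).toNat + (((i + c) / c : ℤ) : ZMod 2) * τ =
      S (i % c).toNat + ((i / c : ℤ) : ZMod 2) * τ + τ
    rw [Int.add_emod_right, Int.add_ediv_of_dvd_right (dvd_refl _), Int.ediv_self hc'.ne']
    push_cast
    ring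

end Pool.Agent.BND
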