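import Pool.Agent.BND.BAL3
import Pool.Agent.BND.BC2
import Pool.Agent.BND.N4b
import Pool.Agent.BND.N3d
import Pool.Agent.BND.K2c
import Pool.Agent.BND.CUT
import Pool.Agent.BND.P4e

/-!
# BND-SG : the signed theorem (assembly)
-/

set_option autoImplicit false
set_option linter.unusedSectionVars false

namespace Pool.Agent.BND

open Classical

variable {V : Type} [Fintype V]
variable {G : SimpleGraph V} {ε : V → V → ZMod 2} {τ : ZMod 2} {d c : ℕ} {v : ℤ → V}
  {s : ℤ → ZMod 2}

theorem case_bic (h : NCtx G ε τ d c v s) (hB : Bic G (Bs v c)) : False := by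
  have h2 := two_le_card_Bs h.toCtx
  rcases Nat.lt_or_ge 2 (Bs v c).card with h3 | h3
  · by_cases hall : Bs v c ⊆ ctrs G (Cs v c) (Bs v c)
    · exact case_allctr h hB h3 hall
    · have hN3 := three_le_NN h.cc h3
      rcases Nat.lt_or_ge 3 (NN G (Cs v c) (Bs v c)) with h4 | h4
      · exact case_N4 h hB h3 hall h4
      · exact case_N3 ⟨h, hB, h3, hall, le_antisymm h4 hN3⟩
  · exact case_K2 h (le_antisymm h3 h2)

theorem ctx_false (h : Ctx G ε τ d c v s) : False := by
  obtain ⟨ε', s', h'⟩ := normalize h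
  by_cases hB : Bic G (Bs v c)
  · exact case_bic h' hB
  · exact case_cut h' hB

/-- **Signed theorem.** In a 3-connected graph of minimum degree at least `d ≥ 3` with at least `2d`
vertices and any signature: if there is a cycle of sign `τ` then there is one of length at least
`2 d - 1`. -/
theorem signed (hε : ∀ x y, ε x y = ε y x) (h3 : K3 G) (hd : 3 ≤ d)
    (hdeg : ∀ x, d ≤ (nb G x).card) (hcard : 2 * d ≤ Fintype.card V) {l₀ : List V}
    (hl₀ : CycL G l₀) (hs₀ : csg ε l₀ = τ) :
    ∃ l, CycL G l ∧ csg ε l = τ ∧ 2 * d ≤ l.length + 1 := by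
  by_contra hcon
  push Not at hcon
  -- choose a longest cycle of sign `τ`
  have hbd : ∀ l : List V, CycL G l → l.length ≤ Fintype.card V := fun l hl =>
    hl.2.1.length_le_card
  obtain ⟨n, hn1, hn2⟩ : ∃ n, (∃ l, CycL G l ∧ csg ε l = τ ∧ l.length = n) ∧
      ∀ l, CycL G l → csg ε l = τ → l.length ≤ n := by
    classical
    let P : ℕ → Prop := fun n => ∃ l, CycL G l ∧ csg ε l = τ ∧ l.length = n
    have hP : P l₀.length := ⟨l₀, hl₀, hs₀, rfl⟩
    refine ⟨Nat.findGreatest P (Fintype.card V), ?_, ?_⟩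
    · exact Nat.findGreatest_spec (P := P) (hbd l₀ hl₀) hP
    · intro l hl hls
      exact Nat.le_findGreatest (hbd l hl) ⟨l, hl, hls, rfl⟩
  obtain ⟨l, hl, hls, hlen⟩ := hn1
  have hlt := hcon l hl hls
  obtain ⟨v, s, hctx⟩ := ctx_of_max hε h3 hd hdeg hcard hl hls (by omega)
    (fun l' h1 h2 => by rw [hlen]; exact hn2 l' h1 h2)
  exact ctx_false hctx

end Pool.Agent.BND
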