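import Pool.Agent.BND.P4c

/-!
# BND-SU : surgeries on the longest cycle

In all statements the conclusion is obtained by writing down a cycle (as a concatenation of blocks
`fw`/`bw` of the cycle and of ears), checking that it is a cycle (`CycL`) with more than `c`
vertices, computing its sign with `Ctx.fw_sg`, `Ctx.bw_sg`, and using `h.max`: a cycle with more than
`c` vertices does not have sign `τ`, hence has sign `τ + 1` (in `ZMod 2`).
Membership in blocks is read on positions (`mem_fw`, `mem_bw`, `Ctx.veq`), and the ears live in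
`Bs v c`, which is disjoint from the cycle.
-/

set_option autoImplicit false
set_option linter.unusedSectionVars false

namespace Pool.Agent.BND

open Classical

variable {V : Type} [Fintype V]
variable {G : SimpleGraph V} {ε : V → V → ZMod 2} {τ : ZMod 2} {d c : ℕ} {v : ℤ → V}
  {s : ℤ → ZMod 2}

theorem su1_append (ε : V → V → ZMod 2) {l l' : List V} {y z : V} (hl : l.getLast? = some y)
    (hl' : l'.head? = some z) : sg ε (l ++ l') = sg ε l + ε y z + sg ε l' := by
  obtain ⟨l1, rfl⟩ := List.getLast?_eq_some_iff.1 hl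
  obtain ⟨l2, rfl⟩ := List.head?_eq_some_iff.1 hl'
  exact sg_split_edge l1 y z l2

theorem su1_mem_fw {v : ℤ → V} {i k : ℤ} (hik : i ≤ k) {x : V} :
    x ∈ fw v i ((k - i).toNat + 1) ↔ ∃ t : ℤ, i ≤ t ∧ t ≤ k ∧ v t = x := by
  rw [mem_fw]
  constructor
  · rintro ⟨t, h1, h2, h3⟩
    exact ⟨t, h1, by push_cast at h2; omega, h3⟩
  · rintro ⟨t, h1, h2, h3⟩
    exact ⟨t, h1, by push_cast; omega, h3⟩

theorem su1_mem_bw {v : ℤ → V} {i k : ℤ} (hik : k ≤ i) {x : V} :
    x ∈ bw v i ((i - k).toNat + 1) ↔ ∃ t : ℤ, k ≤ t ∧ t ≤ i ∧ v t = x := by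
  rw [mem_bw]
  constructor
  · rintro ⟨t, h1, h2, h3⟩
    exact ⟨t, by push_cast at h2; omega, h1, h3⟩
  · rintro ⟨t, h1, h2, h3⟩
    exact ⟨t, h2, by push_cast; omega, h3⟩

/-- an ear as a path, with its sign -/
theorem su1_ear (ε : V → V → ZMod 2) {D : Finset V} {x y : V} {I : List V} (hI : Ear G D x y I) :
    ∃ a b, Pth G D a b I ∧ G.Adj x a ∧ G.Adj b y ∧
      sg ε (x :: (I ++ [y])) = ε x a + sg ε I + ε b y := by
  obtain ⟨a, b, hQ, hxa, hby⟩ := hI.pth
  refine ⟨a, b, hQ, hxa, hby, ?_⟩
  have e1 : x :: (I ++ [y]) = [x] ++ (I ++ [y]) := rfl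
  have e2 : (I ++ [y]).head? = some a := by
    rw [List.head?_append, hQ.head]
    rfl
  rw [e1, su1_append ε (y := x) rfl e2, su1_append ε hQ.last (z := y) rfl]
  simp only [sg_single]
  ring

/-- a cycle longer than `c` has sign `τ + 1` -/
theorem su1_max (h : Ctx G ε τ d c v s) {l : List V} (hl : CycL G l) (hlen : c < l.length) :
    csg ε l = τ + 1 := by
  by_contra hne
  have key : ∀ p q : ZMod 2, p ≠ q + 1 → p = q := by decide
  have h4 : csg ε l = τ := key _ _ hne
  have h5 := h.max _ hl h4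
  omega

/-- blocks of the cycle do not meet ears -/
theorem su1_disj (_h : Ctx G ε τ d c v s) {P I : List V} {a b a' b' : V}
    (hP : Pth G (Cs v c) a b P) (hI : Pth G (Bs v c) a' b' I) : ∀ q ∈ P, q ∉ I := by
  intro q hq hqI
  exact (Finset.mem_compl.1 (hI.sub q hqI)) (hP.sub q hq)

/-- (SU1) one ear.  Cycle: `v j, …, v (i+c) = v i, I`; it has `(i + c - j + 1) + |I| > c`
vertices. -/
theorem su1 (h : Ctx G ε τ d c v s) {i j : ℤ} (hij : i < j) (hj : j < i + c) {I : List V}
    (hI : Ear G (Bs v c) (v i) (v j) I) (hlen : j - i < I.length + 1) :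
    sg ε (v i :: (I ++ [v j])) = s j - s i + 1 := by
  obtain ⟨a, b, hQ, hia, hbj, hsg⟩ := su1_ear ε hI
  have hP := h.fw_pth (by omega : j ≤ i + c) (by omega : i + c < j + c)
  have hia' : G.Adj (v (i + c)) a := by rw [h.vper1]; exact hia
  obtain ⟨h1, h2⟩ := cyc_of_two (ε := ε) hP hQ hia' hbj (su1_disj h hP hQ)
    (by have := h.three; rw [fw_length]; omega)
  have h3 := su1_max h h1 (by rw [List.length_append, fw_length]; omega)
  rw [h2, h.fw_sg, show j + ((i + c - j).toNat : ℤ) = i + c by omega, h.per, h.vper1] at h3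
  rw [hsg]
  linear_combination h3


/-- (SU2, parallel) two disjoint ears over two edge disjoint arcs.
Cycle: `v j, …, v k, J, v l, …, v (i+c) = v i, I`. -/
theorem su2par (h : Ctx G ε τ d c v s) {i j k l : ℤ} (hij : i < j) (hjk : j ≤ k) (hkl : k < l)
    (hl : l ≤ i + c) {I J : List V} (hI : Ear G (Bs v c) (v i) (v j) I)
    (hJ : Ear G (Bs v c) (v k) (v l) J) (hd : ∀ z ∈ I, z ∉ J)
    (hlen : (j - i) + (l - k) < I.length + J.length + 2) :
    sg ε (v i :: (I ++ [v j])) + sg ε (v k :: (J ++ [v l])) = (s j - s i) + (s l - s k) + 1 := by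
  obtain ⟨a, b, hI', hia, hbj, hsI⟩ := su1_ear ε hI
  obtain ⟨a', b', hJ', hka, hbl, hsJ⟩ := su1_ear ε hJ
  have hP := h.fw_pth hjk (by omega : k < j + c)
  have hQ := h.fw_pth (by omega : l ≤ i + c) (by omega : i + c < l + c)
  have hia' : G.Adj (v (i + c)) a := by rw [h.vper1]; exact hia
  have hU : ∀ {x y : V} {l : List V} {S : Finset V}, Pth G S x y l → Pth G Finset.univ x y l :=
    fun h => h.mono (fun _ _ => Finset.mem_univ _)
  have hPQ : ∀ z ∈ fw v j ((k - j).toNat + 1), z ∉ fw v l ((i + c - l).toNat + 1) := by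
    intro z hz hz'
    obtain ⟨t, ht1, ht2, ht3⟩ := (su1_mem_fw hjk).1 hz
    obtain ⟨u, hu1, hu2, hu3⟩ := (su1_mem_fw (by omega : l ≤ i + c)).1 hz'
    exact h.vne (by omega : t < u) (by omega : u < t + c) (ht3.trans hu3.symm)
  have hPJ := pth_append (hU hP) (hU hJ') hka (su1_disj h hP hJ')
  have hQI := pth_append (hU hQ) (hU hI') hia' (su1_disj h hQ hI')
  obtain ⟨h1, h2⟩ := cyc_of_two (ε := ε) hPJ hQI hbl hbj (by
    intro z hz hz'
    rcases List.mem_append.1 hz with hz | hz <;> rcases List.mem_append.1 hz' with hz' | hz'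
    · exact hPQ z hz hz'
    · exact su1_disj h hP hI' z hz hz'
    · exact su1_disj h hQ hJ' z hz' hz
    · exact hd z hz' hz) (by
    have := h.three
    rw [List.length_append, List.length_append, fw_length, fw_length]
    omega)
  have h3 := su1_max h h1 (by
    rw [List.length_append, List.length_append, List.length_append, fw_length, fw_length]
    omega)
  rw [h2, su1_append ε hP.last hJ'.head, su1_append ε hQ.last hI'.head, h.fw_sg, h.fw_sg,
    show l + ((i + c - l).toNat : ℤ) = i + c by omega, show j + ((k - j).toNat : ℤ) = k by omega,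
    h.per, h.vper1] at h3
  rw [hsI, hsJ]
  linear_combination h3


/-- (SU2, crossing) two disjoint crossing ears.
Cycle: `v j, …, v k, I.reverse, v (i+c) = v i, v (i+c-1), …, v l, J.reverse`. -/
theorem su2cross (h : Ctx G ε τ d c v s) {i j k l : ℤ} (hij : i < j) (hjk : j ≤ k) (hkl : k < l)
    (hl : l ≤ i + c) {I J : List V} (hI : Ear G (Bs v c) (v i) (v k) I)
    (hJ : Ear G (Bs v c) (v j) (v l) J) (hd : ∀ z ∈ I, z ∉ J)
    (hlen : (j - i) + (l - k) < I.length + J.length + 2) :
    sg ε (v i :: (I ++ [v k])) + sg ε (v j :: (J ++ [v l])) = (s j - s i) + (s l - s k) + 1 := by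
  have hI2 := hI.reverse
  have hJ2 := hJ.reverse
  obtain ⟨a, b, hI', hka, hbi, hsI⟩ := su1_ear ε hI2
  obtain ⟨a', b', hJ', hla, hbj, hsJ⟩ := su1_ear ε hJ2
  have hP := h.fw_pth hjk (by omega : k < j + c)
  have hQ := h.bw_pth (by omega : l ≤ i + c) (by omega : i + c < l + c)
  have hbi' : G.Adj b (v (i + c)) := by rw [h.vper1]; exact hbi
  have hU : ∀ {x y : V} {l : List V} {S : Finset V}, Pth G S x y l → Pth G Finset.univ x y l :=
    fun h => h.mono (fun _ _ => Finset.mem_univ _)
  have hPQ : ∀ z ∈ fw v j ((k - j).toNat + 1), z ∉ bw v (i + c) ((i + c - l).toNat + 1) := by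
    intro z hz hz'
    obtain ⟨t, ht1, ht2, ht3⟩ := (su1_mem_fw hjk).1 hz
    obtain ⟨u, hu1, hu2, hu3⟩ := (su1_mem_bw (by omega : l ≤ i + c)).1 hz'
    exact h.vne (by omega : t < u) (by omega : u < t + c) (ht3.trans hu3.symm)
  have hPI := pth_append (hU hP) (hU hI') hka (su1_disj h hP hI')
  have hQJ := pth_append (hU hQ) (hU hJ') hla (su1_disj h hQ hJ')
  obtain ⟨h1, h2⟩ := cyc_of_two (ε := ε) hPI hQJ hbi' hbj (by
    intro z hz hz'
    rcases List.mem_append.1 hz with hz | hz <;> rcases List.mem_append.1 hz' with hz' | hz'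
    · exact hPQ z hz hz'
    · exact su1_disj h hP hJ' z hz hz'
    · exact su1_disj h hQ hI' z hz' hz
    · exact hd z (List.mem_reverse.1 hz) (List.mem_reverse.1 hz')) (by
    have := h.three
    rw [List.length_append, List.length_append, fw_length, bw_length, List.length_reverse,
      List.length_reverse]
    omega)
  have h3 := su1_max h h1 (by
    rw [List.length_append, List.length_append, List.length_append, fw_length, bw_length,
      List.length_reverse, List.length_reverse]
    omega)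
  rw [h2, su1_append ε hP.last hI'.head, su1_append ε hQ.last hJ'.head, h.fw_sg, h.bw_sg,
    show (i + c) - ((i + c - l).toNat : ℤ) = l by omega,
    show j + ((k - j).toNat : ℤ) = k by omega, h.per, h.vper1] at h3
  have r1 : sg ε (v i :: (I ++ [v k])) = sg ε (v k :: (I.reverse ++ [v i])) := by
    rw [← sg_reverse h.symm]
    congr 1
    simp
  have r2 : sg ε (v j :: (J ++ [v l])) = sg ε (v l :: (J.reverse ++ [v j])) := by
    rw [← sg_reverse h.symm]
    congr 1
    simp
  rw [r1, r2, hsI, hsJ]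
  linear_combination h3


end Pool.Agent.BND
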