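import Pool.Agent.BND.SU1

/-!
# BND-SU : surgeries on the longest cycle

In all statements the conclusion is obtained by writing down a cycle (as a concatenation of blocks
`fw`/`bw` of the cycle and of ears), checking that it is a cycle (`CycL`) with more than `c`
vertices, computing its sign with `Ctx.fw_sg`, `Ctx.bw_sg`, and using `h.max`: a cycle with more than
`c` vertices does not have sign `τ`, hence has sign `τ + 1` (in `ZMod 2`).
Membership in blocks is read on positions (`mem_fw`, `mem_bw`, `Ctx.veq`), and the ears live in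
`Bs v c`, which is disjoint from the cycle.
-/

set_option autoImplicit false
set_option linter.unusedSectionVars false

namespace Pool.Agent.BND

open Classical

variable {V : Type} [Fintype V]
variable {G : SimpleGraph V} {ε : V → V → ZMod 2} {τ : ZMod 2} {d c : ℕ} {v : ℤ → V}
  {s : ℤ → ZMod 2}

theorem sun_append (ε : V → V → ZMod 2) {l l' : List V} {y z : V} (hl : l.getLast? = some y)
    (hl' : l'.head? = some z) : sg ε (l ++ l') = sg ε l + ε y z + sg ε l' := by
  obtain ⟨l1, rfl⟩ := List.getLast?_eq_some_iff.1 hl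
  obtain ⟨l2, rfl⟩ := List.head?_eq_some_iff.1 hl'
  exact sg_split_edge l1 y z l2

theorem sun_mem_fw {v : ℤ → V} {i k : ℤ} (hik : i ≤ k) {x : V} :
    x ∈ fw v i ((k - i).toNat + 1) ↔ ∃ t : ℤ, i ≤ t ∧ t ≤ k ∧ v t = x := by
  rw [mem_fw]
  constructor
  · rintro ⟨t, h1, h2, h3⟩
    exact ⟨t, h1, by push_cast at h2; omega, h3⟩
  · rintro ⟨t, h1, h2, h3⟩
    exact ⟨t, h1, by push_cast; omega, h3⟩

theorem sun_via {D : Finset V} {w x y : V} {J : List V} (hJ : Via G D w x y J) :
    ∃ a b, Pth G (insert w D) a b J ∧ G.Adj x a ∧ G.Adj b y ∧ a ∈ D ∧ b ∈ D ∧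
      sg ε (x :: (J ++ [y])) = ε x a + sg ε J + ε b y := by
  obtain ⟨a, ha⟩ : ∃ a, J.head? = some a := by
    cases J with
    | nil => exact absurd rfl hJ.ne
    | cons a t => exact ⟨a, rfl⟩
  obtain ⟨b, hb⟩ : ∃ b, J.getLast? = some b :=
    ⟨J.getLast hJ.ne, List.getLast?_eq_getLast_of_ne_nil hJ.ne⟩
  have hch := hJ.chain
  rw [List.isChain_cons] at hch
  obtain ⟨h1, h2⟩ := hch
  rw [List.isChain_append] at h2
  obtain ⟨h3, -, h4⟩ := h2
  refine ⟨a, b, ⟨ha, hb, hJ.nodup, h3, ?_⟩, ?_, ?_, hJ.hd a ha, hJ.lt b hb, ?_⟩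
  · intro z hz
    rw [Finset.mem_insert]
    exact (hJ.sub z hz).symm
  · apply h1
    rw [List.head?_append, ha]
    rfl
  · exact h4 b (by rw [hb]; rfl) y rfl
  · have e1 : x :: (J ++ [y]) = [x] ++ (J ++ [y]) := rfl
    have e2 : (J ++ [y]).head? = some a := by
      rw [List.head?_append, ha]
      rfl
    rw [e1, sun_append ε (y := x) rfl e2, sun_append ε hb (z := y) rfl]
    simp only [sg_single]
    ring

/-- a path through the outside and `w` has sign `0` -/
theorem sun_zero (h : NCtx G ε τ d c v s) {w : V} : ∀ l : List V, l.Nodup → l.IsChain G.Adj →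
    (∀ z ∈ l, z ∈ Bs v c ∨ z = w) → sg ε l = 0
  | [], _, _, _ => rfl
  | [_], _, _, _ => rfl
  | x :: y :: t, hnd, hch, hsub => by
    rw [List.isChain_cons_cons] at hch
    rw [List.nodup_cons] at hnd
    have ih := sun_zero h (w := w) (y :: t) hnd.2 hch.2 (fun z hz => hsub z (List.mem_cons_of_mem _ hz))
    have hxy : x ≠ y := by
      rintro rfl
      exact hnd.1 (List.mem_cons_self)
    have h0 : ε x y = 0 := by
      rcases hsub x List.mem_cons_self with hx | hx
      · exact h.bz x hx y hch.1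
      · rcases hsub y (List.mem_cons_of_mem _ List.mem_cons_self) with hy | hy
        · rw [h.symm]
          exact h.bz y hy x hch.1.symm
        · exact absurd (hx.trans hy.symm) hxy
    rw [sg_cons_cons, h0, ih, add_zero]

theorem NCtx.ear_sg (h : NCtx G ε τ d c v s) {i j : ℤ} {I : List V}
    (hI : Ear G (Bs v c) (v i) (v j) I) : sg ε (v i :: (I ++ [v j])) = 0 := by
  obtain ⟨a, b, hQ, hxa, hby, ha, hb, hsg⟩ := sun_via (ε := ε) (hI.via (v i))
  rw [hsg, sun_zero h (w := v i) I hI.nodup hQ.chain (fun z hz => Or.inl (hI.sub z hz)),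
    h.bz b hb _ hby, h.symm, h.bz a ha _ hxa.symm]
  simp

/-- any two consecutive entries of `v i :: (J ++ [v j])` contain a vertex outside the cycle -/
theorem NCtx.via_sg (h : NCtx G ε τ d c v s) {i j k : ℤ} {J : List V}
    (hJ : Via G (Bs v c) (v k) (v i) (v j) J) : sg ε (v i :: (J ++ [v j])) = 0 := by
  obtain ⟨a, b, hQ, hxa, hby, ha, hb, hsg⟩ := sun_via (ε := ε) hJ
  rw [hsg, sun_zero h J hJ.nodup hQ.chain hJ.sub,
    h.bz b hb _ hby, h.symm, h.bz a ha _ hxa.symm]
  simp

/-- ears over positive arcs are not longer than the arc -/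
theorem NCtx.arc_ear (h : NCtx G ε τ d c v s) {i j : ℤ} (hij : i < j) (hj : j < i + c)
    (hs : s i = s j) {I : List V} (hI : Ear G (Bs v c) (v i) (v j) I) :
    (I.length : ℤ) + 1 ≤ j - i := by
  by_contra hcon
  have h1 := su1 h.toCtx hij hj hI (by omega)
  rw [h.ear_sg hI, hs, sub_self, zero_add] at h1
  exact absurd h1 (by decide)

/-- consecutive vertices of the cycle with neighbours outside: the edge is negative -/
theorem NCtx.tp_succ (h : NCtx G ε τ d c v s) {i : ℤ} (h1 : Tp G v c i) (h2 : Tp G v c (i + 1)) :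
    s (i + 1) = s i + 1 := by
  obtain ⟨x, hx, hix⟩ := h1
  obtain ⟨y, hy, hiy⟩ := h2
  obtain ⟨l, hl⟩ := h.conn.2 x hx y hy
  have hI := hl.ear hix hiy.symm
  have hlp := hI.length_pos
  have h3 := su1 h.toCtx (by omega : i < i + 1) (by have := h.three; omega) hI (by omega)
  rw [h.ear_sg hI] at h3
  have key : ∀ a b : ZMod 2, 0 = a - b + 1 → a = b + 1 := by decide
  exact key _ _ h3

/-- the same as `su2par`, normalised -/
theorem NCtx.par (h : NCtx G ε τ d c v s) {i j k l : ℤ} (hij : i < j) (hjk : j ≤ k) (hkl : k < l)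
    (hl : l ≤ i + c) {I J : List V} (hI : Ear G (Bs v c) (v i) (v j) I)
    (hJ : Ear G (Bs v c) (v k) (v l) J) (hd : ∀ z ∈ I, z ∉ J)
    (hlen : (j - i) + (l - k) < I.length + J.length + 2) : (s j - s i) + (s l - s k) = 1 := by
  have h3 := su2par h.toCtx hij hjk hkl hl hI hJ hd hlen
  rw [h.ear_sg hI, h.ear_sg hJ] at h3
  have key : ∀ a : ZMod 2, 0 + 0 = a + 1 → a = 1 := by decide
  exact key _ h3

/-- the same as `su2cross`, normalised -/
theorem NCtx.cross (h : NCtx G ε τ d c v s) {i j k l : ℤ} (hij : i < j) (hjk : j ≤ k)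
    (hkl : k < l) (hl : l ≤ i + c) {I J : List V} (hI : Ear G (Bs v c) (v i) (v k) I)
    (hJ : Ear G (Bs v c) (v j) (v l) J) (hd : ∀ z ∈ I, z ∉ J)
    (hlen : (j - i) + (l - k) < I.length + J.length + 2) : (s j - s i) + (s l - s k) = 1 := by
  have h3 := su2cross h.toCtx hij hjk hkl hl hI hJ hd hlen
  rw [h.ear_sg hI, h.ear_sg hJ] at h3
  have key : ∀ a : ZMod 2, 0 + 0 = a + 1 → a = 1 := by decide
  exact key _ h3

/-- a path from `v i` to `v l` through `B ∪ {w}`, `w` not on the arc `v l, …, v (i+c)`.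
Cycle: `v l, …, v (i+c), J`. -/
theorem NCtx.arc_via (h : NCtx G ε τ d c v s) {i k l : ℤ} (hik : i < k) (hkl : k < l)
    (hl : l < i + c) (hs : s i = s l) {J : List V} (hJ : Via G (Bs v c) (v k) (v i) (v l) J) :
    (J.length : ℤ) + 1 ≤ l - i := by
  by_contra hcon
  obtain ⟨a, b, hQ, hia, hbl, ha, hb, hsg⟩ := sun_via (ε := ε) hJ
  rw [h.via_sg hJ] at hsg
  have hP := h.fw_pth (by omega : l ≤ i + c) (by omega : i + c < l + c)
  have hia' : G.Adj (v (i + c)) a := by rw [h.vper1]; exact hia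
  obtain ⟨g1, g2⟩ := cyc_of_two (ε := ε) hP hQ hia' hbl (by
    intro q hq hqJ
    rcases hJ.sub q hqJ with h1 | h1
    · exact (Finset.mem_compl.1 h1) (hP.sub q hq)
    · obtain ⟨t, ht1, ht2, ht3⟩ := (sun_mem_fw (by omega : l ≤ i + c)).1 hq
      exact h.vne (by omega : k < t) (by omega : t < k + c) (h1.symm.trans ht3.symm)) (by
    have := h.three
    rw [fw_length]
    omega)
  have g3 : csg ε (fw v l ((i + c - l).toNat + 1) ++ J) = τ := by
    rw [g2, h.fw_sg, show l + ((i + c - l).toNat : ℤ) = i + c by omega, h.per, h.vper1, hs]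
    linear_combination (-1 : ZMod 2) * hsg
  have g4 := h.max _ g1 g3
  rw [List.length_append, fw_length] at g4
  omega

end Pool.Agent.BND
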